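import Pool.Agent.X311.Rb4

/-!
# From an upper bound for the dimension to lower bounds for the Chern classes
-/

set_option autoImplicit false
set_option maxHeartbeats 4000000

namespace Pool.Agent.X311.Rc

open Finset Pool.Agent.X311.Rb

theorem nat_rpow_le {n m : ℕ} (h : n ≤ m) (x : ℝ) : (n : ℝ) ^ x ≤ (1 + m : ℝ) ^ |x| := by
  have h1 : (1 : ℝ) ≤ (1 + m : ℝ) ^ |x| :=
    Real.one_le_rpow (by have : (0 : ℝ) ≤ m := Nat.cast_nonneg m; linarith) (abs_nonneg x)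
  rcases Nat.eq_zero_or_pos n with h0 | hpos
  · subst h0
    refine le_trans ?_ h1
    rw [Nat.cast_zero]
    exact Real.zero_rpow_le_one x
  · have h2 : (1 : ℝ) ≤ n := by exact_mod_cast hpos
    calc (n : ℝ) ^ x ≤ (n : ℝ) ^ |x| := Real.rpow_le_rpow_of_exponent_le h2 (le_abs_self x)
      _ ≤ (1 + m : ℝ) ^ |x| := by
        refine Real.rpow_le_rpow (by linarith) ?_ (abs_nonneg x)
        have : (n : ℝ) ≤ m := by exact_mod_cast h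
        linarith

theorem disc_lower (a : ℝ) (ha : 0 < a)
    (H : ∀ ε : ℝ, 0 < ε → ε ≤ 1 / 8 → ∃ Q₀ : ℕ, ∀ (n : ℕ) (c₁ c₂ : ℤ), IsChernData n c₁ c₂ →
      ¬ IsSquare (disc c₁ c₂) → Q₀ ≤ (disc c₁ c₂).natAbs →
        (n : ℝ) ≤ ((disc c₁ c₂).natAbs : ℝ) ^ (1 / a + ε)) (ε : ℝ) (hε : 0 < ε) :
    ∃ c : ℝ, 0 < c ∧ ∀ (n : ℕ) (c₁ c₂ : ℤ), IsChernData n c₁ c₂ → ¬ IsSquare (disc c₁ c₂) →
      c * (n : ℝ) ^ (a - ε) ≤ |(disc c₁ c₂ : ℝ)| := by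
  obtain ⟨δ, hδ⟩ : ∃ δ, δ = min (ε / a ^ 2) (1 / 8) := ⟨_, rfl⟩
  have hδ0 : 0 < δ := by rw [hδ]; exact lt_min (by positivity) (by norm_num)
  have hδ1 : δ ≤ 1 / 8 := by rw [hδ]; exact min_le_right _ _
  have hδ2 : a ^ 2 * δ ≤ ε := by
    have : δ ≤ ε / a ^ 2 := by rw [hδ]; exact min_le_left _ _
    rw [le_div_iff₀ (by positivity)] at this
    linarith
  obtain ⟨Q₀, hQ₀⟩ := H δ hδ0 hδ1
  obtain ⟨m, hm⟩ : ∃ m : ℕ, m = 3 * Q₀ + 3 := ⟨_, rfl⟩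
  obtain ⟨M, hM⟩ : ∃ M : ℝ, M = (1 + m : ℝ) ^ |a - ε| := ⟨_, rfl⟩
  have hM1 : 1 ≤ M := by
    rw [hM]
    exact Real.one_le_rpow (by have : (0 : ℝ) ≤ m := Nat.cast_nonneg m; linarith) (abs_nonneg _)
  refine ⟨1 / M, by positivity, fun n c₁ c₂ h0 hs => ?_⟩
  have habs : |(disc c₁ c₂ : ℝ)| = ((disc c₁ c₂).natAbs : ℝ) := by
    rw [Nat.cast_natAbs]
    push_cast
    rfl
  rw [habs]
  have hΔ0 : disc c₁ c₂ ≠ 0 := by
    intro h3
    exact hs (by rw [h3]; exact ⟨0, by norm_num⟩)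
  set Q := (disc c₁ c₂).natAbs with hQ
  have hQ1 : 1 ≤ Q := Int.natAbs_pos.2 hΔ0
  have hQr : (1 : ℝ) ≤ Q := by exact_mod_cast hQ1
  have hMle : 1 / M ≤ 1 := by
    rw [div_le_one (by positivity)]
    exact hM1
  by_cases hbig : Q₀ ≤ Q
  · have h1 := hQ₀ n c₁ c₂ h0 hs hbig
    rw [← hQ] at h1
    rcases Nat.eq_zero_or_pos n with hn | hn
    · subst hn
      have h2 : ((0 : ℕ) : ℝ) ^ (a - ε) ≤ 1 := by
        rw [Nat.cast_zero]
        exact Real.zero_rpow_le_one _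
      have h3 : 0 ≤ ((0 : ℕ) : ℝ) ^ (a - ε) := by positivity
      calc 1 / M * ((0 : ℕ) : ℝ) ^ (a - ε) ≤ 1 * 1 := by gcongr
        _ ≤ Q := by linarith
    · have hn1 : (1 : ℝ) ≤ n := by exact_mod_cast hn
      have hb : 0 < 1 / a + δ := by positivity
      have h2 : (n : ℝ) ^ (a - ε) ≤ Q := by
        have h3 : (n : ℝ) ^ (1 / (1 / a + δ)) ≤ Q := by
          have h4 : (n : ℝ) ^ (1 / (1 / a + δ)) ≤ ((Q : ℝ) ^ (1 / a + δ)) ^ (1 / (1 / a + δ)) :=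
            Real.rpow_le_rpow (by linarith) h1 (by positivity)
          rw [← Real.rpow_mul (by linarith), mul_one_div_cancel hb.ne', Real.rpow_one] at h4
          exact h4
        refine le_trans (Real.rpow_le_rpow_of_exponent_le hn1 ?_) h3
        rw [le_div_iff₀ hb]
        have h5 : (a - ε) * (1 / a + δ) = 1 - ε / a + a * δ - ε * δ := by
          field_simp
          ring
        rw [h5]
        have h6 : a * δ ≤ ε / a := by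
          rw [le_div_iff₀ ha]
          calc a * δ * a = a ^ 2 * δ := by ring
            _ ≤ ε := hδ2
        have h7 : 0 < ε * δ := by positivity
        linarith
      calc 1 / M * (n : ℝ) ^ (a - ε) ≤ 1 * (n : ℝ) ^ (a - ε) := by gcongr
        _ ≤ Q := by linarith
  · push Not at hbig
    have hn : n ≤ m := by
      by_contra hcon
      push Not at hcon
      have h1 := bound h0 hs (m := n - 1) (by omega)
      have h2 : (16 : ℤ) * |disc c₁ c₂| ≤ 16 * Q₀ := by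
        have : |disc c₁ c₂| = (Q : ℤ) := by rw [hQ]; exact Int.abs_eq_natAbs _
        rw [this]
        have : (Q : ℤ) < Q₀ := by exact_mod_cast hbig
        omega
      have h3 : (3 * (Q₀ : ℤ) + 3) ≤ ((n - 1 : ℕ) : ℤ) := by omega
      have h4 : (3 * (Q₀ : ℤ) + 3) ^ 2 ≤ ((n - 1 : ℕ) : ℤ) ^ 2 := by
        have : (0 : ℤ) ≤ 3 * (Q₀ : ℤ) + 3 := by positivity
        exact pow_le_pow_left₀ this h3 2
      have h5 : (0 : ℤ) ≤ Q₀ := by positivity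
      nlinarith
    have h1 := nat_rpow_le hn (a - ε)
    rw [← hM] at h1
    calc 1 / M * (n : ℝ) ^ (a - ε) ≤ 1 / M * M := by gcongr
      _ = 1 := by field_simp
      _ ≤ Q := hQr

theorem chern_lower (a : ℝ) (ε : ℝ) (c : ℝ) (hc : 0 < c)
    (H : ∀ (n : ℕ) (c₁ c₂ : ℤ), IsChernData n c₁ c₂ → ¬ IsSquare (disc c₁ c₂) →
      c * (n : ℝ) ^ (a - ε) ≤ |(disc c₁ c₂ : ℝ)|) :
    ∃ c' : ℝ, 0 < c' ∧ ∀ (n : ℕ) (c₁ c₂ : ℤ), IsChernData n c₁ c₂ → 5 ≤ n → c₁ ^ 2 < 4 * c₂ →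
      (∀ k ≤ n, 0 ≤ segre c₁ c₂ k) →
        c' * (n : ℝ) ^ (1 + (a - ε) / 2) ≤ c₁ ∧ c' * (n : ℝ) ^ (2 + (a - ε)) ≤ c₂ := by
  refine ⟨min (√c / 4) (c / 64), by positivity, fun n c₁ c₂ h0 hn hneg hpos => ?_⟩
  have hs : ¬ IsSquare (disc c₁ c₂) := by
    rintro ⟨w, hw⟩
    unfold disc at hw
    nlinarith [mul_self_nonneg w]
  have hn0 : (0 : ℝ) < n := by exact_mod_cast (by omega : 0 < n)
  have h1 := H n c₁ c₂ h0 hs
  have hd : |(disc c₁ c₂ : ℝ)| = 4 * (c₂ : ℝ) - (c₁ : ℝ) ^ 2 := by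
    unfold disc
    have h5 : (c₁ : ℝ) ^ 2 < 4 * c₂ := by exact_mod_cast hneg
    push_cast
    rw [abs_of_neg (by linarith)]
    ring
  rw [hd] at h1
  obtain ⟨hA, h2⟩ := sqrt_le hneg (M := n + 1) (by omega) fun k hk => hpos k (by omega)
  have h3 := tan_pi_div_le (M := n + 1) (by omega)
  have hAr : (0 : ℝ) < c₁ := by exact_mod_cast hA
  have h4 : √(4 * (c₂ : ℝ) - (c₁ : ℝ) ^ 2) * n ≤ 4 * c₁ := by
    have h5 : (2 : ℝ) * √3 ≤ 4 := by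
      have : √3 ≤ 2 := by
        rw [Real.sqrt_le_left (by norm_num)]
        norm_num
      linarith
    have h6 : √(4 * (c₂ : ℝ) - (c₁ : ℝ) ^ 2) * ((n + 1 : ℕ) : ℝ) ≤
        c₁ * (((n + 1 : ℕ) : ℝ) * Real.tan (Real.pi / ((n + 1 : ℕ) : ℝ))) := by
      calc √(4 * (c₂ : ℝ) - (c₁ : ℝ) ^ 2) * ((n + 1 : ℕ) : ℝ) ≤
          (c₁ * Real.tan (Real.pi / ((n + 1 : ℕ) : ℝ))) * ((n + 1 : ℕ) : ℝ) := by gcongr
        _ = _ := by ring
    have h7 : (c₁ : ℝ) * (((n + 1 : ℕ) : ℝ) * Real.tan (Real.pi / ((n + 1 : ℕ) : ℝ))) ≤ c₁ * 4 := by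
      gcongr
      linarith
    have h8 : √(4 * (c₂ : ℝ) - (c₁ : ℝ) ^ 2) * n ≤
        √(4 * (c₂ : ℝ) - (c₁ : ℝ) ^ 2) * ((n + 1 : ℕ) : ℝ) := by
      gcongr
      push_cast
      linarith
    linarith
  have h9 : √c * (n : ℝ) ^ ((a - ε) / 2) ≤ √(4 * (c₂ : ℝ) - (c₁ : ℝ) ^ 2) := by
    have e : √c * (n : ℝ) ^ ((a - ε) / 2) = √(c * (n : ℝ) ^ (a - ε)) := by
      rw [Real.sqrt_mul hc.le]
      congr 1
      rw [Real.sqrt_eq_rpow, ← Real.rpow_mul hn0.le]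
      congr 1
      ring
    rw [e]
    exact Real.sqrt_le_sqrt h1
  have h10 : √c / 4 * (n : ℝ) ^ (1 + (a - ε) / 2) ≤ c₁ := by
    have e : (n : ℝ) ^ (1 + (a - ε) / 2) = (n : ℝ) ^ ((a - ε) / 2) * n := by
      rw [add_comm, Real.rpow_add hn0, Real.rpow_one]
    have h11 : (√c * (n : ℝ) ^ ((a - ε) / 2)) * n ≤ √(4 * (c₂ : ℝ) - (c₁ : ℝ) ^ 2) * n := by
      gcongr
    rw [e]
    linarith
  refine ⟨le_trans ?_ h10, ?_⟩
  · gcongr
    exact min_le_left _ _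
  · have e : (n : ℝ) ^ (2 + (a - ε)) = ((n : ℝ) ^ (1 + (a - ε) / 2)) ^ 2 := by
      rw [← Real.rpow_natCast, ← Real.rpow_mul hn0.le]
      congr 1
      push_cast
      ring
    have h12 : (√c / 4 * (n : ℝ) ^ (1 + (a - ε) / 2)) ^ 2 ≤ (c₁ : ℝ) ^ 2 :=
      pow_le_pow_left₀ (by positivity) h10 2
    have h13 : (c₁ : ℝ) ^ 2 < 4 * c₂ := by exact_mod_cast hneg
    rw [mul_pow, div_pow, Real.sq_sqrt hc.le, ← e] at h12
    have h14 : min (√c / 4) (c / 64) * (n : ℝ) ^ (2 + (a - ε)) ≤ c / 64 * (n : ℝ) ^ (2 + (a - ε)) := by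
      gcongr
      exact min_le_right _ _
    linarith

end Pool.Agent.X311.Rc
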