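import Pool.Agent.X311.Rd6

/-!
# The dimension is at most a small power of the discriminant, second form
-/

set_option autoImplicit false
set_option maxHeartbeats 4000000

namespace Pool.Agent.X311.Rd

open Finset Filter Pool.Agent.Helper919 Pool.Agent.X311.Rc Pool.Agent.X311.Rb

/-- the sum of `1 / p` over the primes between `y` and `X` -/
theorem sum_primes_le {C γ : ℝ} (hC : ∀ a b : ℕ, 2 ≤ a → a ≤ b →
      |∑ p ∈ (Ioc a b).filter Nat.Prime, (1 : ℝ) / p - Real.log (Real.log b / Real.log a)| ≤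
        C / Real.log a) (hγ : 0 < γ) {y X : ℕ} (hy2 : 2 ≤ y) {R : ℝ}
    (hR : Real.log R ≤ 1 / 2 - γ) (hγ1 : γ ≤ 1 / 2) (hX : Real.log X ≤ R * Real.log y)
    (hCy : C ≤ γ / 2 * Real.log y) :
    ∑ p ∈ (Ioc y X).filter Nat.Prime, (1 : ℝ) / p ≤ 1 / 2 - γ / 2 := by
  rcases le_or_gt X y with hXy | hXy
  · rw [Finset.Ioc_eq_empty_of_le hXy, Finset.filter_empty, Finset.sum_empty]
    linarith
  · have hm2 := (abs_le.mp (hC y X hy2 hXy.le)).2
    have hlogypos : 0 < Real.log y := by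
      apply Real.log_pos
      have : 1 < y := by omega
      exact_mod_cast this
    have hlogXpos : 0 < Real.log X := by
      apply Real.log_pos
      have : 1 < X := by omega
      exact_mod_cast this
    have hratio : Real.log X / Real.log y ≤ R := by
      rw [div_le_iff₀ hlogypos]
      exact hX
    have hlr : Real.log (Real.log X / Real.log y) ≤ 1 / 2 - γ :=
      (Real.log_le_log (div_pos hlogXpos hlogypos) hratio).trans hR
    have hCy' : C / Real.log y ≤ γ / 2 := by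
      rw [div_le_iff₀ hlogypos]
      exact hCy
    linarith

theorem log_five_le : Real.log (5 : ℝ) ≤ 2 := by
  have : (5 : ℝ) ≤ Real.exp 2 := by
    have h9 : Real.exp 2 = Real.exp 1 ^ 2 := by
      rw [← Real.exp_nat_mul]
      norm_num
    have h10 := Real.exp_one_gt_d9
    have h11 : (2.7 : ℝ) ^ 2 ≤ Real.exp 1 ^ 2 := pow_le_pow_left₀ (by norm_num) (by linarith) 2
    rw [h9]
    norm_num at h11 ⊢
    linarith
  calc Real.log 5 ≤ Real.log (Real.exp 2) := Real.log_le_log (by norm_num) this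
    _ = 2 := Real.log_exp 2

/-- the end of the argument if the conductor is bounded -/
theorem small_conductor (N₁ : ℕ) : ∃ Q₁ : ℕ, ∀ (Q y : ℕ) (D : ℤ), Q₁ ≤ Q → Squarefree D →
    ¬ IsSquare D → 4 * D.natAbs ≤ N₁ → (Q : ℝ) ^ (3 / 20 : ℝ) ≤ 3 * y →
      (∀ (X : ℕ) (B : ℝ), (∀ M ≤ X, |∑ m ∈ Icc 1 M, XX D m| ≤ B) →
        (X : ℝ) * (1 - 2 * ∑ p ∈ (Ioc y X).filter Nat.Prime, (1 : ℝ) / p) ≤
          (2 * (Nat.log 2 X + 1)) ^ 7 * B) → False := by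
  obtain ⟨B, hB⟩ : ∃ B : ℝ, B = 4 * √(N₁ : ℝ) * (1 + Real.log (N₁ + 1)) := ⟨_, rfl⟩
  have hB0 : 0 ≤ B := by
    rw [hB]
    have : 0 ≤ Real.log ((N₁ : ℝ) + 1) := Real.log_nonneg (by
      have : (0 : ℝ) ≤ N₁ := Nat.cast_nonneg _
      linarith)
    positivity
  have ev1 := log_pow_le (6 ^ 7 * B) 1 (1 / 8) 7 one_pos (by norm_num)
  have ev2 := (tendsto_rpow_atTop (by norm_num : (0 : ℝ) < 1 / 40)).eventually_ge_atTop 6
  have ev3 : ∀ᶠ x : ℝ in atTop, 3 ≤ x := eventually_ge_atTop 3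
  have ev4 : ∀ᶠ x : ℝ in atTop, 1 ≤ Real.log x := Real.tendsto_log_atTop.eventually_ge_atTop _
  have ev := (tendsto_natCast_atTop_atTop (R := ℝ)).eventually ((ev1.and ev2).and (ev3.and ev4))
  obtain ⟨Q₁, hQ₁⟩ := eventually_atTop.1 ev
  refine ⟨Q₁, fun Q y D hQ hD hDs hDN hy H => ?_⟩
  obtain ⟨⟨h1, h2⟩, h3, h4⟩ := hQ₁ _ hQ
  have hQpos : (0 : ℝ) < Q := by linarith
  have hQ1 : (1 : ℝ) ≤ Q := by linarith
  obtain ⟨X, hX⟩ : ∃ X : ℕ, X = ⌈(Q : ℝ) ^ (1 / 8 : ℝ)⌉₊ := ⟨_, rfl⟩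
  have hX1 : (Q : ℝ) ^ (1 / 8 : ℝ) ≤ X := by rw [hX]; exact Nat.le_ceil _
  have hone : (1 : ℝ) ≤ (Q : ℝ) ^ (1 / 8 : ℝ) := Real.one_le_rpow hQ1 (by norm_num)
  have hX2 : (X : ℝ) ≤ 2 * (Q : ℝ) ^ (1 / 8 : ℝ) := by
    have : (X : ℝ) ≤ (Q : ℝ) ^ (1 / 8 : ℝ) + 1 := by
      rw [hX]; exact (Nat.ceil_lt_add_one (by positivity)).le
    linarith
  have hXy : X ≤ y := by
    have h5 : (Q : ℝ) ^ (3 / 20 : ℝ) = (Q : ℝ) ^ (1 / 40 : ℝ) * (Q : ℝ) ^ (1 / 8 : ℝ) := by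
      rw [← Real.rpow_add hQpos]
      norm_num
    have h6 : (3 : ℝ) * X ≤ 3 * y := by
      refine le_trans ?_ hy
      rw [h5]
      nlinarith
    have h7 : (X : ℝ) ≤ y := by linarith
    exact_mod_cast h7
  have hXpos : (0 : ℝ) < X := by linarith
  have hXQ : Real.log X ≤ Real.log Q := by
    refine Real.log_le_log hXpos (hX2.trans ?_)
    have h5 : (Q : ℝ) = (Q : ℝ) ^ (7 / 8 : ℝ) * (Q : ℝ) ^ (1 / 8 : ℝ) := by
      rw [← Real.rpow_add hQpos]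
      norm_num
    have h6 : (Q : ℝ) ^ (1 / 40 : ℝ) ≤ (Q : ℝ) ^ (7 / 8 : ℝ) :=
      Real.rpow_le_rpow_of_exponent_le hQ1 (by norm_num)
    nlinarith
  have h8 := H X B (fun M _ => by
    refine (pv hD.ne_zero hDs M).trans ?_
    have hDpos := Int.natAbs_pos.2 hD.ne_zero
    have h5 : ((4 * D.natAbs : ℕ) : ℝ) ≤ N₁ := by exact_mod_cast hDN
    have h6 : (1 : ℝ) ≤ ((4 * D.natAbs : ℕ) : ℝ) := by exact_mod_cast (by omega : 1 ≤ 4 * D.natAbs)
    have h7 : 0 ≤ Real.log ((4 * D.natAbs : ℕ) : ℝ) := Real.log_nonneg h6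
    rw [hB]
    gcongr
    linarith)
  rw [Finset.Ioc_eq_empty_of_le hXy, Finset.filter_empty, Finset.sum_empty, mul_zero, sub_zero,
    mul_one] at h8
  have h9 : (Nat.log 2 X : ℝ) ≤ 2 * Real.log Q := natLog_le (by linarith) hXQ
  have h10 : (2 * ((Nat.log 2 X : ℝ) + 1)) ^ 7 ≤ (6 * Real.log Q) ^ 7 :=
    pow_le_pow_left₀ (by positivity) (by linarith) 7
  have h11 : (2 * ((Nat.log 2 X : ℝ) + 1)) ^ 7 * B ≤ (6 * Real.log Q) ^ 7 * B :=
    mul_le_mul_of_nonneg_right h10 hB0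
  have h12 : (6 * Real.log Q) ^ 7 * B = 6 ^ 7 * B * Real.log Q ^ 7 := by ring
  linarith

theorem large' (ε : ℝ) (hε : 0 < ε) (hε1 : ε ≤ 1 / 8) : ∃ Q₀ : ℕ, ∀ (n : ℕ) (c₁ c₂ : ℤ),
    IsChernData n c₁ c₂ → ¬ IsSquare (disc c₁ c₂) → Q₀ ≤ (disc c₁ c₂).natAbs →
      (n : ℝ) ≤ ((disc c₁ c₂).natAbs : ℝ) ^ (1 / (4 * Real.exp (1 / 2)) + ε) := by
  have hs1 : 1 < Real.exp (1 / 2) := Real.one_lt_exp_iff.mpr (by norm_num)
  have hs0 : 0 < Real.exp (1 / 2) := Real.exp_pos _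
  have hs2 := exp_half_lt
  obtain ⟨b, hb⟩ : ∃ b, b = 1 / (4 * Real.exp (1 / 2)) + ε := ⟨_, rfl⟩
  obtain ⟨b₁, hb₁⟩ : ∃ b₁, b₁ = 1 / (4 * Real.exp (1 / 2)) + ε / 2 := ⟨_, rfl⟩
  obtain ⟨η, hη⟩ : ∃ η, η = ε / 8 := ⟨_, rfl⟩
  have hη0 : 0 < η := by rw [hη]; positivity
  have hη1 : η ≤ 1 / 64 := by rw [hη]; linarith
  have hb03 : (3 : ℝ) / 20 < 1 / (4 * Real.exp (1 / 2)) := by
    rw [lt_div_iff₀ (by positivity)]
    linarith
  have hb₁0 : 3 / 20 < b₁ := by rw [hb₁]; linarith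
  have hb0 : 3 / 20 < b := by rw [hb]; linarith
  obtain ⟨R, hR⟩ : ∃ R, R = (1 / 4 + 3 * η) * (1 + η) / b₁ := ⟨_, rfl⟩
  have hR0 : 0 < R := by rw [hR]; positivity
  have hrho : Real.log R < 1 / 2 := by
    rw [Real.log_lt_iff_lt_exp hR0, hR, div_lt_iff₀ (by linarith)]
    have e1 : Real.exp (1 / 2) * b₁ = 1 / 4 + Real.exp (1 / 2) * (ε / 2) := by
      rw [hb₁]
      field_simp
    have e2 : (1 / 4 + 3 * η) * (1 + η) ≤ 1 / 4 + 4 * η := by nlinarith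
    have e3 : 4 * η = ε / 2 := by rw [hη]; ring
    have e4 : ε / 2 < Real.exp (1 / 2) * (ε / 2) := by
      have : 0 < ε / 2 := by positivity
      nlinarith
    linarith
  have hR1 : 1 ≤ R := by
    rw [hR, le_div_iff₀ (by linarith), hη, hb₁]
    have h5 : 1 / (4 * Real.exp (1 / 2)) ≤ 1 / 5 := by
      refine one_div_le_one_div_of_le (by norm_num) ?_
      have := Real.add_one_le_exp (1 / 2 : ℝ)
      linarith
    nlinarith
  obtain ⟨γ, hγ⟩ : ∃ γ, γ = 1 / 2 - Real.log R := ⟨_, rfl⟩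
  have hγ0 : 0 < γ := by rw [hγ]; linarith
  have hγ1 : γ ≤ 1 / 2 := by
    have := Real.log_nonneg hR1
    rw [hγ]
    linarith
  obtain ⟨C, hC0, hC⟩ := Pool.Agent.Helper923.HMertens.mertens_ratio
  obtain ⟨η₁, hη₁, N₀, hN₀⟩ := burgess_sum η hη0 (by linarith)
  -- the conditions for the modulus
  have ev1 := log_pow_le (2 * 6 ^ 7) γ η₁ 7 hγ0 hη₁
  have ev2 : ∀ᶠ x : ℝ in atTop, max (Real.log 2 / η) 1 ≤ Real.log x :=
    Real.tendsto_log_atTop.eventually_ge_atTop _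
  have evN := ((tendsto_natCast_atTop_atTop (R := ℝ)).eventually (ev1.and ev2)).and
    ((eventually_ge_atTop 1).and (eventually_ge_atTop N₀))
  obtain ⟨N₁, hN₁⟩ := eventually_atTop.1 evN
  obtain ⟨Q₁, hQ₁⟩ := small_conductor N₁
  -- the conditions for the discriminant
  have ev3 := log_pow_le (4 ^ 7) 1 (1 / 20) 7 one_pos (by norm_num)
  have ev4 : ∀ᶠ x : ℝ in atTop, max (max (Real.log 4 / η) (2 * Real.log 3 / ε))
      (max (2 * C / (γ * b₁)) 20) ≤ Real.log x :=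
    Real.tendsto_log_atTop.eventually_ge_atTop _
  have evQ := ((tendsto_natCast_atTop_atTop (R := ℝ)).eventually (ev3.and ev4)).and
    ((eventually_ge_atTop 1).and (eventually_ge_atTop Q₁))
  obtain ⟨Q₀, hQ₀⟩ := eventually_atTop.1 evQ
  refine ⟨Q₀, fun n c₁ c₂ h0 hs hQ => ?_⟩
  obtain ⟨⟨h2, h3⟩, hQ1, hQQ₁⟩ := hQ₀ _ hQ
  set Q := (disc c₁ c₂).natAbs with hQdef
  rw [← hb]
  by_contra hcon
  push Not at hcon
  have hL1 : Real.log 4 / η ≤ Real.log Q :=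
    ((le_max_left _ _).trans (le_max_left _ _)).trans h3
  have hL2 : 2 * Real.log 3 / ε ≤ Real.log Q :=
    ((le_max_right _ _).trans (le_max_left _ _)).trans h3
  have hL3 : 2 * C / (γ * b₁) ≤ Real.log Q :=
    ((le_max_left _ _).trans (le_max_right _ _)).trans h3
  have hL4 : 20 ≤ Real.log Q := ((le_max_right _ _).trans (le_max_right _ _)).trans h3
  have hQr : (1 : ℝ) ≤ Q := by exact_mod_cast hQ1
  have hQpos : (0 : ℝ) < Q := by linarith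
  have hn0 : (0 : ℝ) < n := lt_of_le_of_lt (by positivity) hcon
  have hlogn : b * Real.log Q < Real.log n := by
    have := Real.log_lt_log (Real.rpow_pos_of_pos hQpos b) hcon
    rwa [Real.log_rpow hQpos] at this
  have hn6 : 6 ≤ n := by
    by_contra hlt
    have h5 : (n : ℝ) ≤ 5 := by exact_mod_cast (by omega : n ≤ 5)
    have h6 : Real.log n ≤ Real.log 5 := Real.log_le_log hn0 h5
    have h7 := log_five_le
    have h8 : 3 / 20 * Real.log Q ≤ b * Real.log Q := by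
      refine mul_le_mul_of_nonneg_right hb0.le (by linarith)
    linarith
  -- the parameter `y`
  obtain ⟨y, hy⟩ : ∃ y, y = (n - 1) / 2 := ⟨_, rfl⟩
  have hy2n : 2 * y < n := by omega
  have hy3 : n ≤ 3 * y := by omega
  have hy2 : 2 ≤ y := by omega
  have hypos : (0 : ℝ) < y := by exact_mod_cast (by omega : 0 < y)
  have hlogy : b₁ * Real.log Q < Real.log y := by
    have h5 : (n : ℝ) ≤ 3 * y := by exact_mod_cast hy3
    have h6 : Real.log n ≤ Real.log 3 + Real.log y := by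
      rw [← Real.log_mul (by norm_num) hypos.ne']
      exact Real.log_le_log hn0 h5
    have h7 : Real.log 3 ≤ ε / 2 * Real.log Q := by
      rw [div_le_iff₀ hε] at hL2
      linarith
    have h8 : b * Real.log Q = b₁ * Real.log Q + ε / 2 * Real.log Q := by
      rw [hb, hb₁]
      ring
    linarith
  have hlogypos : 0 < Real.log y := by
    have : 0 < b₁ * Real.log Q := by positivity
    linarith
  -- the condition for the number of exceptional primes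
  have hlog2Q : (Nat.log 2 Q : ℝ) ≤ 2 * Real.log Q := natLog_le (by linarith) le_rfl
  have hbig : (2 * Nat.log 2 Q) ^ 7 * Q < n ^ 7 := by
    have h5 : ((2 * Nat.log 2 Q : ℕ) : ℝ) ^ 7 ≤ 4 ^ 7 * Real.log Q ^ 7 := by
      rw [← mul_pow]
      push_cast
      exact pow_le_pow_left₀ (by positivity) (by linarith) 7
    have h6 : (Q : ℝ) ^ (1 / 20 : ℝ) * Q = (Q : ℝ) ^ (21 / 20 : ℝ) := by
      nth_rewrite 2 [← Real.rpow_one (Q : ℝ)]
      rw [← Real.rpow_add hQpos]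
      norm_num
    have h7 : (Q : ℝ) ^ (21 / 20 : ℝ) ≤ ((Q : ℝ) ^ b) ^ 7 := by
      rw [← Real.rpow_natCast, ← Real.rpow_mul hQpos.le]
      refine Real.rpow_le_rpow_of_exponent_le hQr ?_
      push_cast
      linarith
    have h8 : ((Q : ℝ) ^ b) ^ 7 < (n : ℝ) ^ 7 := pow_lt_pow_left₀ hcon (by positivity) (by norm_num)
    have h9 : (((2 * Nat.log 2 Q) ^ 7 * Q : ℕ) : ℝ) < ((n ^ 7 : ℕ) : ℝ) := by
      push_cast at h5 ⊢
      calc (2 * (Nat.log 2 Q : ℝ)) ^ 7 * Q ≤ 4 ^ 7 * Real.log Q ^ 7 * Q := by gcongr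
        _ ≤ 1 * (Q : ℝ) ^ (1 / 20 : ℝ) * Q := by gcongr
        _ = (Q : ℝ) ^ (21 / 20 : ℝ) := by rw [one_mul, h6]
        _ ≤ _ := h7
        _ < _ := h8
    exact_mod_cast h9
  obtain ⟨D, hD, hDs, hDQ, hmain⟩ := main_ineq' h0 hs hbig hy2n
  rcases le_or_gt (4 * D.natAbs) N₁ with hDN | hDN
  · -- the conductor is bounded
    refine hQ₁ Q y D hQQ₁ hD hDs hDN ?_ hmain
    have h5 : (n : ℝ) ≤ 3 * y := by exact_mod_cast hy3
    have h6 : (Q : ℝ) ^ (3 / 20 : ℝ) ≤ (Q : ℝ) ^ b := Real.rpow_le_rpow_of_exponent_le hQr hb0.le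
    linarith
  -- the parameter `X`
  obtain ⟨⟨g1, g2⟩, g3, g4⟩ := hN₁ _ hDN.le
  have hbur := hN₀ D hD hDs g4
  obtain ⟨N, hN⟩ : ∃ N : ℕ, N = 4 * D.natAbs := ⟨_, rfl⟩
  rw [← hN] at g1 g2 g3 hbur
  have hNr : (1 : ℝ) ≤ N := by exact_mod_cast g3
  have hNpos : (0 : ℝ) < N := by linarith
  have hLN1 : Real.log 2 / η ≤ Real.log N := (le_max_left _ _).trans g2
  have hLN2 : 1 ≤ Real.log N := (le_max_right _ _).trans g2
  have hNQ : Real.log N ≤ (1 + η) * Real.log Q := by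
    have h5 : (N : ℝ) ≤ 4 * Q := by
      have : N ≤ 4 * Q := by rw [hN]; omega
      exact_mod_cast this
    have h6 : Real.log N ≤ Real.log 4 + Real.log Q := by
      rw [← Real.log_mul (by norm_num) hQpos.ne']
      exact Real.log_le_log hNpos h5
    rw [div_le_iff₀ hη0] at hL1
    linarith
  obtain ⟨X, hX⟩ : ∃ X : ℕ, X = ⌈(N : ℝ) ^ (1 / 4 + 2 * η)⌉₊ := ⟨_, rfl⟩
  have hX1 : (N : ℝ) ^ (1 / 4 + 2 * η) ≤ X := by rw [hX]; exact Nat.le_ceil _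
  have hone : (1 : ℝ) ≤ (N : ℝ) ^ (1 / 4 + 2 * η) := Real.one_le_rpow hNr (by positivity)
  have hX2 : (X : ℝ) ≤ 2 * (N : ℝ) ^ (1 / 4 + 2 * η) := by
    have : (X : ℝ) ≤ (N : ℝ) ^ (1 / 4 + 2 * η) + 1 := by
      rw [hX]; exact (Nat.ceil_lt_add_one (by positivity)).le
    linarith
  have hXpos : (0 : ℝ) < X := by linarith
  have hX3 : (X : ℝ) ≤ (N : ℝ) ^ (1 / 4 + 3 * η) := by
    have h7 : (2 : ℝ) ≤ (N : ℝ) ^ η := by
      rw [div_le_iff₀ hη0] at hLN1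
      rw [Real.rpow_def_of_pos hNpos]
      calc (2 : ℝ) = Real.exp (Real.log 2) := (Real.exp_log (by norm_num)).symm
        _ ≤ Real.exp (Real.log N * η) := Real.exp_le_exp.mpr hLN1
    have h8 : (N : ℝ) ^ (1 / 4 + 3 * η) = (N : ℝ) ^ η * (N : ℝ) ^ (1 / 4 + 2 * η) := by
      rw [← Real.rpow_add hNpos]; congr 1; ring
    rw [h8]
    nlinarith
  have hlogX : Real.log X ≤ (1 / 4 + 3 * η) * Real.log N := by
    have := Real.log_le_log hXpos hX3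
    rwa [Real.log_rpow hNpos] at this
  -- the sum over primes
  have hsum : ∑ p ∈ (Ioc y X).filter Nat.Prime, (1 : ℝ) / p ≤ 1 / 2 - γ / 2 := by
    refine sum_primes_le hC hγ0 hy2 (R := R) (by rw [hγ]; linarith) hγ1 ?_ ?_
    · calc Real.log X ≤ (1 / 4 + 3 * η) * Real.log N := hlogX
        _ ≤ (1 / 4 + 3 * η) * ((1 + η) * Real.log Q) := by gcongr
        _ = R * (b₁ * Real.log Q) := by
          rw [hR]
          have : b₁ ≠ 0 := by linarith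
          field_simp
        _ ≤ R * Real.log y := by gcongr
    · have h5 : 2 * C ≤ Real.log Q * (γ * b₁) := by
        rwa [div_le_iff₀ (by positivity)] at hL3
      have h6 : γ * (b₁ * Real.log Q) ≤ γ * Real.log y := by gcongr
      linarith
  -- the end
  have h8 := hmain X (2 * (N : ℝ) ^ (-η₁) * (N : ℝ) ^ (1 / 4 + 2 * η)) (fun M hM => by
    refine hbur M (le_trans ?_ hX2)
    exact_mod_cast hM)
  have hlog2X : (Nat.log 2 X : ℝ) ≤ 2 * Real.log N := by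
    refine natLog_le (by linarith) (hlogX.trans ?_)
    have h7 : (1 / 4 + 3 * η) * Real.log N ≤ 1 * Real.log N :=
      mul_le_mul_of_nonneg_right (by linarith) (by linarith)
    linarith
  have h10 : (2 * ((Nat.log 2 X : ℝ) + 1)) ^ 7 ≤ (6 * Real.log N) ^ 7 :=
    pow_le_pow_left₀ (by positivity) (by linarith) 7
  have hleft : γ * (N : ℝ) ^ (1 / 4 + 2 * η) ≤
      (X : ℝ) * (1 - 2 * ∑ p ∈ (Ioc y X).filter Nat.Prime, (1 : ℝ) / p) := by
    calc γ * (N : ℝ) ^ (1 / 4 + 2 * η) ≤ γ * X := by gcongr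
      _ = X * γ := mul_comm _ _
      _ ≤ _ := mul_le_mul_of_nonneg_left (by linarith) hXpos.le
  have hright : (2 * ((Nat.log 2 X : ℝ) + 1)) ^ 7 *
      (2 * (N : ℝ) ^ (-η₁) * (N : ℝ) ^ (1 / 4 + 2 * η)) ≤
      (2 * 6 ^ 7 * Real.log N ^ 7) * (N : ℝ) ^ (-η₁) * (N : ℝ) ^ (1 / 4 + 2 * η) := by
    calc (2 * ((Nat.log 2 X : ℝ) + 1)) ^ 7 * (2 * (N : ℝ) ^ (-η₁) * (N : ℝ) ^ (1 / 4 + 2 * η)) ≤
        (6 * Real.log N) ^ 7 * (2 * (N : ℝ) ^ (-η₁) * (N : ℝ) ^ (1 / 4 + 2 * η)) := by gcongr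
      _ = _ := by ring
  have hfin : (2 * 6 ^ 7 * Real.log N ^ 7) * (N : ℝ) ^ (-η₁) < γ := by
    have h11 : 0 < (N : ℝ) ^ (-η₁) := Real.rpow_pos_of_pos hNpos _
    have h12 : (N : ℝ) ^ η₁ * (N : ℝ) ^ (-η₁) = 1 := by
      rw [← Real.rpow_add hNpos]
      simp
    calc (2 * 6 ^ 7 * Real.log N ^ 7) * (N : ℝ) ^ (-η₁) < (γ * (N : ℝ) ^ η₁) * (N : ℝ) ^ (-η₁) := by
          gcongr
      _ = γ := by rw [mul_assoc, h12, mul_one]
  have hfin2 : (2 * 6 ^ 7 * Real.log N ^ 7) * (N : ℝ) ^ (-η₁) * (N : ℝ) ^ (1 / 4 + 2 * η) <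
      γ * (N : ℝ) ^ (1 / 4 + 2 * η) := by
    have : 0 < (N : ℝ) ^ (1 / 4 + 2 * η) := by linarith
    gcongr
  linarith

end Pool.Agent.X311.Rd
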