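import Mathlib
import Pool.Agent.TH504.CB.PeriodDefs

/-!
# The generalized Hodge conjecture for abelian varieties with many independent periods: definitions
-/

set_option autoImplicit false

namespace Pool.Agent.X311

open Matrix Pool.Agent.H204R3.CM Pool.Agent.W437.HC Pool.Agent.W437.HD Pool.Agent.TH131.GHC

/-- `Z` is a period matrix: symmetric with positive definite imaginary part. -/
def IsPeriodMatrix {g : ℕ} (Z : Matrix (Fin g) (Fin g) ℂ) : Prop :=
  Z.transpose = Z ∧ (Z.map Complex.im).PosDef

/-- The abelian variety with period matrix `Z` is isogenous to the product of the abelian varieties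
with period matrices `Z₁` and `Z₂`: there is an isomorphism `φ` of the rational homologies which
comes from a complex linear map `M` of the tangent spaces (`perOne Z` is the inclusion
`(a, b) ↦ a + Z b` of the rational homology in the tangent space). -/
def IsIsogenousToProduct {g b r : ℕ} (Z : Matrix (Fin g) (Fin g) ℂ)
    (Z₁ : Matrix (Fin b) (Fin b) ℂ) (Z₂ : Matrix (Fin r) (Fin r) ℂ) : Prop :=
  ∃ (φ : (Fin g ⊕ Fin g → ℚ) ≃ₗ[ℚ] (Fin b ⊕ Fin b → ℚ) × (Fin r ⊕ Fin r → ℚ))
    (M : (Fin g → ℂ) →ₗ[ℂ] (Fin b → ℂ) × (Fin r → ℂ)),
    ∀ w, M (perOne Z w) = (perOne Z₁ (φ w).1, perOne Z₂ (φ w).2)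

/-- The field generated by `K` and the entries of the period matrix `Z`. -/
noncomputable def periodField (K : Subfield ℂ) {r : ℕ} (Z : Matrix (Fin r) (Fin r) ℂ) : Subfield ℂ :=
  Subfield.closure ((K : Set ℂ) ∪ Set.range fun p : Fin r × Fin r => Z p.1 p.2)

/-- The Hodge filtration is defined over the subfield `K` (that is, the periods of the variety are in
`K`): each class with Hodge operator equal to `n` is a combination of classes with coordinates in `K`
which are sums of classes with Hodge operator at least `n`. The Hodge operator is the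
multiplication by `p - q` on the classes of type `(p, q)`, so in cohomology of degree `e` the sums of
classes with Hodge operator at least `2 p - e` are the elements of `F ^ p`. -/
def HasFiltrationOver (K : Subfield ℂ) {v : ℕ} (V : Coh v) : Prop :=
  ∀ (n : ℤ) (y : Fin v → ℂ), V.z *ᵥ y = (n : ℂ) • y →
    y ∈ Submodule.span ℂ {x | (∀ b, x b ∈ K) ∧
      x ∈ Submodule.span ℂ {w | ∃ m : ℤ, n ≤ m ∧ V.z *ᵥ w = (m : ℂ) • w}}

/-- The variety is of CM type: the Hodge operator of its cohomology commutes with all its conjugates
under the automorphisms of the complex numbers (they generate the Lie algebra of the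
Mumford-Tate group, up to the scalars of the weights). -/
def IsOfCMType {v : ℕ} (V : Coh v) : Prop :=
  ∀ σ : ℂ ≃+* ℂ, V.z * V.z.map σ = V.z.map σ * V.z

/-- The generalized Hodge conjecture for `Y`, with cohomology `V`, implies it for `A ^ n × Y`, where `A`
is the abelian variety with period matrix `Z`, for all `n`: if every sub-Hodge structure of `H^e(Y)` of
level at most `e - 2 j` is contained in `N j`, then every sub-Hodge structure of `H^i(A ^ n × Y)` of
level at most `i - 2 j` is contained in the span of the products of `s` divisor classes on `A ^ n`, a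
class on `A ^ n` and a class in `N j'`, `s + j' ≥ j`. -/
def TransfersGHC {g : ℕ} (Z : Matrix (Fin g) (Fin g) ℂ) {v : ℕ} (V : Coh v) : Prop :=
  ∀ N : ℕ → Submodule ℚ (Fin v → ℚ), GHCZ V N → ∀ n : ℕ, GHCProduct (perPow Z n) V N

end Pool.Agent.X311
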