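import Mathlib
import Pool.Agent.Y91.PS.Point

/-!
# Hodge classes on abelian varieties with many algebraically independent periods
-/

set_option linter.unusedSectionVars false

namespace Pool.Agent.X311

open Matrix Module Pool.Agent.H204R3.CM Pool.Agent.W437.HC Pool.Agent.W437.HD Pool.Agent.W437.HP
  Pool.Agent.W437.HQ Pool.Agent.W437.HR Pool.Agent.TH131.GHC Pool.Agent.TH504.VY
  Pool.Agent.TH504.VL Pool.Agent.TH504.CB Pool.Agent.TH125 Pool.Agent.Y91.PS

noncomputable section

section comp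

variable {W T W' T' : Type} [AddCommGroup W] [Module ℚ W] [AddCommGroup T]
    [Module ℂ T] [AddCommGroup W'] [Module ℚ W'] [AddCommGroup T'] [Module ℂ T'] {per : W →+ T}
    {per' : W' →+ T'} (Φ : W →ₗ[ℚ] W') (Ψ : T →ₗ[ℂ] T') (h : ∀ w, Ψ (per w) = per' (Φ w))

theorem comp_two (B : W' [⋀^Fin 2]→ₗ[ℚ] ℚ) (x y : W) :
    (B.compLinearMap Φ) ![x, y] = B ![Φ x, Φ y] := by
  rw [AlternatingMap.compLinearMap_apply]
  congr 1
  funext i
  fin_cases i <;> rfl

include h in
theorem divisorSpan_comp {k : ℕ} {f : W' [⋀^Fin k]→ₗ[ℚ] ℚ} (hf : f ∈ divisorSpan per' k) :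
    f.compLinearMap Φ ∈ divisorSpan per k := by
  unfold divisorSpan at hf
  induction hf using Submodule.span_induction with
  | zero =>
    have h1 : (0 : W' [⋀^Fin k]→ₗ[ℚ] ℚ).compLinearMap Φ = 0 := by
      ext v
      rfl
    rw [h1]
    exact Submodule.zero_mem _
  | add x y _ _ hx hy =>
    have h1 : (x + y).compLinearMap Φ = x.compLinearMap Φ + y.compLinearMap Φ := by
      ext v
      rfl
    rw [h1]
    exact Submodule.add_mem _ hx hy
  | smul r x _ hx =>
    have h1 : (r • x).compLinearMap Φ = r • x.compLinearMap Φ := by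
      ext v
      rfl
    rw [h1]
    exact Submodule.smul_mem _ _ hx
  | mem f hf =>
    obtain ⟨r, e, C, hC, hf⟩ := hf
    refine Submodule.subset_span ⟨r, e, fun l => (C l).compLinearMap Φ,
      fun l => isHodge_comp Φ Ψ h (hC l), fun w => ?_⟩
    rw [AlternatingMap.compLinearMap_apply, hf]
    refine Finset.sum_congr rfl fun σ _ => ?_
    congr 1
    refine Finset.prod_congr rfl fun l _ => ?_
    rw [comp_two]

/-- composition of a class on the product -/
def compH {v : ℕ} (F : HAZ W' v) : HAZ W v := fun k => (F k).compLinearMap Φ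

include h in
theorem isHodgeOnProduct_comp {v : ℕ} (V : Coh v) {F : HAZ W' v}
    (hF : IsHodgeOnProduct per' V F) : IsHodgeOnProduct per V (compH Φ F) := by
  obtain ⟨G, h1, h2⟩ := hF
  refine ⟨fun k => (G k).compLinearMap (Ψ.restrictScalars ℝ), fun k w => ?_, fun k u => ?_⟩
  · rw [AlternatingMap.compLinearMap_apply]
    have h3 := h1 k fun l => Φ (w l)
    change G k (fun l => Ψ (per (w l))) = cv ((F k).compLinearMap Φ w)
    rw [AlternatingMap.compLinearMap_apply]
    rw [← h3]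
    congr 1
    funext l
    exact h (w l)
  · have h3 := h2 k fun l => Ψ (u l)
    rw [AlternatingMap.compLinearMap_apply]
    have h4 : ∀ l, ((G k).compLinearMap (Ψ.restrictScalars ℝ))
        (Function.update u l (Complex.I • u l)) =
        G k (Function.update (fun l => Ψ (u l)) l (Complex.I • Ψ (u l))) := by
      intro l
      rw [AlternatingMap.compLinearMap_apply]
      congr 1
      funext a
      by_cases ha : a = l
      · subst ha
        rw [Function.update_self, Function.update_self]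
        exact Ψ.map_smul _ _
      · rw [Function.update_of_ne ha, Function.update_of_ne ha]
        rfl
    rw [Finset.sum_congr rfl fun l _ => h4 l]
    exact h3

include h in
theorem crossSpan_comp {v : ℕ} (V : Coh v) {F : HAZ W' v} (hF : F ∈ crossSpan per' V) :
    compH Φ F ∈ crossSpan per V := by
  unfold crossSpan at hF
  induction hF using Submodule.span_induction with
  | zero =>
    have h1 : compH Φ (0 : HAZ W' v) = 0 := by
      funext k
      ext w
      rfl
    rw [h1]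
    exact Submodule.zero_mem _
  | add x y _ _ hx hy =>
    have h1 : compH Φ (x + y) = compH Φ x + compH Φ y := by
      funext k
      ext w
      rfl
    rw [h1]
    exact Submodule.add_mem _ hx hy
  | smul r x _ hx =>
    have h1 : compH Φ (r • x) = r • compH Φ x := by
      funext k
      ext w
      rfl
    rw [h1]
    exact Submodule.smul_mem _ _ hx
  | mem F hF =>
    obtain ⟨k, f, x, hf, hx, rfl⟩ := hF
    refine Submodule.subset_span ⟨k, f.compLinearMap Φ, x, divisorSpan_comp Φ Ψ h hf, hx, ?_⟩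
    funext k'
    by_cases hk : k' = k
    · subst hk
      unfold compH cross
      rw [Pi.single_eq_same, Pi.single_eq_same]
      ext w
      rfl
    · unfold compH cross
      rw [Pi.single_eq_of_ne hk, Pi.single_eq_of_ne hk]
      ext w
      rfl

end comp

section dec

/-- A decomposition up to isogeny into simple abelian varieties. -/
structure Dec {G : ℕ} (Z : Matrix (Fin G) (Fin G) ℂ) {ι : Type} [Fintype ι] [DecidableEq ι]
    {g : ι → ℕ} (Y : ∀ i, Matrix (Fin (g i)) (Fin (g i)) ℂ)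
    (E : ∀ i, Matrix (Fin G ⊕ Fin G) (Fin (g i) ⊕ Fin (g i)) ℚ)
    (F : ∀ i, Matrix (Fin (g i) ⊕ Fin (g i)) (Fin G ⊕ Fin G) ℚ) : Prop where
  symm : Zᵀ = Z
  pos : (imM Z).PosDef
  symmY : ∀ i, (Y i)ᵀ = Y i
  posY : ∀ i, (imM (Y i)).PosDef
  simple : ∀ i, IsSimpleAV (Y i)
  FE : ∀ i, F i * E i = 1
  FE0 : ∀ i j, i ≠ j → F i * E j = 0
  tot : ∑ i, E i * F i = 1
  EJ : ∀ i, JR Z * cK ℝ (E i) = cK ℝ (E i) * JR (Y i)
  gpos : ∀ i, 0 < g i

variable {G : ℕ} {Z : Matrix (Fin G) (Fin G) ℂ} {ι : Type} [Fintype ι] [DecidableEq ι]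
    {g : ι → ℕ} {Y : ∀ i, Matrix (Fin (g i)) (Fin (g i)) ℂ}
    {E : ∀ i, Matrix (Fin G ⊕ Fin G) (Fin (g i) ⊕ Fin (g i)) ℚ}
    {F : ∀ i, Matrix (Fin (g i) ⊕ Fin (g i)) (Fin G ⊕ Fin G) ℚ}

theorem Dec.FJ (d : Dec Z Y E F) (i : ι) :
    cK ℝ (F i) * JR Z = JR (Y i) * cK ℝ (F i) := by
  have h1 : cK ℝ (F i) * JR Z = ∑ j, cK ℝ (F i) * JR Z * cK ℝ (E j) * cK ℝ (F j) := by
    calc cK ℝ (F i) * JR Z = cK ℝ (F i) * JR Z * cK ℝ (∑ j, E j * F j) := by
          rw [d.tot, cK_one, Matrix.mul_one]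
      _ = _ := by
          rw [cK_sum, Matrix.mul_sum]
          refine Finset.sum_congr rfl fun j _ => ?_
          rw [cK_mul, ← Matrix.mul_assoc]
  rw [h1, Finset.sum_eq_single i]
  · rw [Matrix.mul_assoc (cK ℝ (F i)), d.EJ i, ← Matrix.mul_assoc, ← cK_mul, d.FE i, cK_one,
      Matrix.one_mul]
  · intro j _ hj
    rw [Matrix.mul_assoc (cK ℝ (F i)), d.EJ j, ← Matrix.mul_assoc, ← cK_mul, d.FE0 i j (Ne.symm hj)]
    have h2 : cK ℝ (0 : Matrix (Fin (g i) ⊕ Fin (g i)) (Fin (g j) ⊕ Fin (g j)) ℚ) = 0 := by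
      ext a b
      simp [cK]
    rw [h2, Matrix.zero_mul, Matrix.zero_mul]
  · intro h
    exact absurd (Finset.mem_univ _) h

theorem Dec.unit (d : Dec Z Y E F) : IsUnit (imM Z).det := d.pos.isUnit.map Matrix.detMonoidHom

theorem Dec.unitY (d : Dec Z Y E F) (i : ι) : IsUnit (imM (Y i)).det :=
  (d.posY i).isUnit.map Matrix.detMonoidHom

variable {n N : ℕ} (e : Fin N ≃ Fin n × ι)

variable (F) in
/-- the map from the homology of the power to the homology of the product -/
def mPsi : (Fin n → Fin G ⊕ Fin G → ℚ) →ₗ[ℚ]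
    (∀ j : Fin N, Fin (g (e j).2) ⊕ Fin (g (e j).2) → ℚ) :=
  LinearMap.pi fun j => (Matrix.mulVecLin (F (e j).2)) ∘ₗ LinearMap.proj (e j).1

variable (E) in
/-- the map from the homology of the product to the homology of the power -/
def mPhi : (∀ j : Fin N, Fin (g (e j).2) ⊕ Fin (g (e j).2) → ℚ) →ₗ[ℚ]
    (Fin n → Fin G ⊕ Fin G → ℚ) :=
  LinearMap.pi fun a => ∑ j with (e j).1 = a, (Matrix.mulVecLin (E (e j).2)) ∘ₗ LinearMap.proj j

theorem mPsi_apply (w : Fin n → Fin G ⊕ Fin G → ℚ) (j : Fin N) :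
    mPsi F e w j = F (e j).2 *ᵥ w (e j).1 := rfl

theorem mPhi_apply (w : ∀ j : Fin N, Fin (g (e j).2) ⊕ Fin (g (e j).2) → ℚ) (a : Fin n) :
    mPhi E e w a = ∑ j with (e j).1 = a, E (e j).2 *ᵥ w j := by
  unfold mPhi
  rw [LinearMap.pi_apply, LinearMap.sum_apply]
  rfl

theorem Dec.phi_psi (d : Dec Z Y E F) (w : Fin n → Fin G ⊕ Fin G → ℚ) :
    mPhi E e (mPsi F e w) = w := by
  funext a
  rw [mPhi_apply]
  have h1 : ∑ j with (e j).1 = a, E (e j).2 *ᵥ mPsi F e w j =
      ∑ j, (if (e j).1 = a then (E (e j).2 * F (e j).2) *ᵥ w a else 0) := by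
    rw [Finset.sum_filter]
    refine Finset.sum_congr rfl fun j _ => ?_
    by_cases h : (e j).1 = a
    · rw [if_pos h, if_pos h, mPsi_apply, mulVec_mulVec, h]
    · rw [if_neg h, if_neg h]
  rw [h1, Equiv.sum_comp e (fun p => if p.1 = a then (E p.2 * F p.2) *ᵥ w a else 0),
    Fintype.sum_prod_type, Finset.sum_eq_single a]
  · simp only [if_true]
    have h2 : (∑ i, E i * F i) *ᵥ w a = ∑ i, (E i * F i) *ᵥ w a := by
      rw [Matrix.sum_mulVec]
    rw [← h2, d.tot, one_mulVec]
  · intro b _ hb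
    simp only [if_neg hb, Finset.sum_const_zero]
  · intro h
    exact absurd (Finset.mem_univ _) h

/-- the map of tangent spaces -/
def tPsi (Y : ∀ i, Matrix (Fin (g i)) (Fin (g i)) ℂ)
    (F : ∀ i, Matrix (Fin (g i) ⊕ Fin (g i)) (Fin G ⊕ Fin G) ℚ) (e : Fin N ≃ Fin n × ι) :
    (Fin n → Fin G → ℂ) →ₗ[ℂ] (∀ j : Fin N, Fin (g (e j).2) → ℂ) :=
  LinearMap.pi fun j => (Matrix.mulVecLin (TM (Y (e j).2) (F (e j).2))) ∘ₗ LinearMap.proj (e j).1

/-- the map of tangent spaces -/
def tPhi (Z : Matrix (Fin G) (Fin G) ℂ)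
    (E : ∀ i, Matrix (Fin G ⊕ Fin G) (Fin (g i) ⊕ Fin (g i)) ℚ) (e : Fin N ≃ Fin n × ι) :
    (∀ j : Fin N, Fin (g (e j).2) → ℂ) →ₗ[ℂ] (Fin n → Fin G → ℂ) :=
  LinearMap.pi fun a => ∑ j with (e j).1 = a,
    (Matrix.mulVecLin (TM Z (E (e j).2))) ∘ₗ LinearMap.proj j

theorem tPhi_apply (w : ∀ j : Fin N, Fin (g (e j).2) → ℂ) (a : Fin n) :
    tPhi Z E e w a = ∑ j with (e j).1 = a, TM Z (E (e j).2) *ᵥ w j := by
  unfold tPhi
  rw [LinearMap.pi_apply, LinearMap.sum_apply]
  rfl

theorem Dec.per_psi (d : Dec Z Y E F) (w : Fin n → Fin G ⊕ Fin G → ℚ) :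
    tPsi Y F e (perPow Z n w) = perFam Y (fun j => (e j).2) (mPsi F e w) := by
  funext j
  have h1 := TM_perOne d.unit (d.unitY (e j).2) (d.FJ (e j).2) (w (e j).1)
  exact h1.symm

theorem Dec.per_phi (d : Dec Z Y E F)
    (w : ∀ j : Fin N, Fin (g (e j).2) ⊕ Fin (g (e j).2) → ℚ) :
    tPhi Z E e (perFam Y (fun j => (e j).2) w) = perPow Z n (mPhi E e w) := by
  funext a
  rw [tPhi_apply]
  have h0 : perPow Z n (mPhi E e w) a = perOne Z (mPhi E e w a) := rfl
  rw [h0, mPhi_apply, map_sum]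
  refine Finset.sum_congr rfl fun j _ => ?_
  exact (TM_perOne (d.unitY (e j).2) d.unit (d.EJ (e j).2).symm (w j)).symm

/-- the subspace -/
def KR (F : ∀ i, Matrix (Fin (g i) ⊕ Fin (g i)) (Fin G ⊕ Fin G) ℚ) (R : Finset ι) :
    Submodule ℚ (Fin G ⊕ Fin G → ℚ) where
  carrier := {x | ∀ i ∈ R, F i *ᵥ x = 0}
  zero_mem' := fun i _ => mulVec_zero _
  add_mem' := by
    intro x y hx hy i hi
    rw [mulVec_add, hx i hi, hy i hi, add_zero]
  smul_mem' := by
    intro r x hx i hi
    rw [mulVec_smul, hx i hi, smul_zero]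

theorem Dec.KR_jstable (d : Dec Z Y E F) (R : Finset ι) : JStable Z (KR F R) := by
  intro x hx
  have hE : ∀ i, i ∉ R → ∀ u : Fin (g i) ⊕ Fin (g i) → ℝ, cK ℝ (E i) *ᵥ u ∈ spR (KR F R) := by
    intro i hi u
    have h1 : u = ∑ a, u a • castR (Pi.single a (1 : ℚ)) := by
      funext b
      rw [Finset.sum_apply, Finset.sum_eq_single b]
      · simp [castR]
      · intro a _ ha
        simp [castR, Pi.single_eq_of_ne (Ne.symm ha)]
      · intro h
        exact absurd (Finset.mem_univ _) h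
    rw [h1, Matrix.mulVec_sum]
    refine Submodule.sum_mem _ fun a _ => ?_
    rw [mulVec_smul, ← castR_mv]
    refine Submodule.smul_mem _ _ (Submodule.subset_span ⟨_, ?_, rfl⟩)
    intro j hj
    rw [mulVec_mulVec, d.FE0 j i (by rintro rfl; exact hi hj), zero_mulVec]
  have h1 : castR x = ∑ i, cK ℝ (E i) *ᵥ (cK ℝ (F i) *ᵥ castR x) := by
    have h2 : x = ∑ i, E i *ᵥ (F i *ᵥ x) := by
      conv_lhs => rw [← one_mulVec x, ← d.tot, Matrix.sum_mulVec]
      refine Finset.sum_congr rfl fun i _ => ?_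
      rw [mulVec_mulVec]
    have h3 : castR (∑ i, E i *ᵥ (F i *ᵥ x)) = ∑ i, castR (E i *ᵥ (F i *ᵥ x)) := by
      funext a
      simp [castR]
    rw [← h2] at h3
    refine h3.trans ?_
    refine Finset.sum_congr rfl fun i _ => ?_
    rw [castR_mv, castR_mv]
  rw [h1, Matrix.mulVec_sum]
  refine Submodule.sum_mem _ fun i _ => ?_
  by_cases hi : i ∈ R
  · rw [← castR_mv, hx i hi]
    have h2 : castR (0 : Fin (g i) ⊕ Fin (g i) → ℚ) = 0 := by
      funext a
      simp [castR]
    rw [h2, mulVec_zero, mulVec_zero]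
    exact Submodule.zero_mem _
  · rw [mulVec_mulVec, d.EJ i, ← mulVec_mulVec]
    exact hE i hi _

theorem isAbelianSubvariety_of (hY : IsUnit (imM Z).det) {U : Submodule ℚ (Fin G ⊕ Fin G → ℚ)}
    (hU : JStable Z U) : IsAbelianSubvariety Z U := by
  have h3 : ∀ y ∈ spR U, perR Z y ∈ Submodule.span ℝ (perOne Z '' U) := by
    intro y hy
    unfold spR at hy
    induction hy using Submodule.span_induction with
    | zero =>
      rw [map_zero]
      exact Submodule.zero_mem _
    | add x y _ _ hx hy =>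
      rw [map_add]
      exact Submodule.add_mem _ hx hy
    | smul r x _ hx =>
      rw [map_smul]
      exact Submodule.smul_mem _ _ hx
    | mem y hy =>
      obtain ⟨u, hu, rfl⟩ := hy
      refine Submodule.subset_span ⟨u, hu, ?_⟩
      exact perOne_eq u
  intro x hx
  induction hx using Submodule.span_induction with
  | zero =>
    rw [smul_zero]
    exact Submodule.zero_mem _
  | add x y _ _ hx hy =>
    rw [smul_add]
    exact Submodule.add_mem _ hx hy
  | smul r x _ hx =>
    rw [smul_comm]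
    exact Submodule.smul_mem _ _ hx
  | mem y hy =>
    obtain ⟨u, hu, rfl⟩ := hy
    have h2 : Complex.I • perOne Z u = perR Z (JR Z *ᵥ castR u) := by
      rw [perOne_eq, perR_JR Z hY]
      rfl
    rw [h2]
    exact h3 _ (hU u hu)

/-- the projection -/
def prR (F : ∀ i, Matrix (Fin (g i) ⊕ Fin (g i)) (Fin G ⊕ Fin G) ℚ) (R : Finset ι) :
    (Fin G ⊕ Fin G → ℚ) →ₗ[ℚ] (∀ i : R, Fin (g i.1) ⊕ Fin (g i.1) → ℚ) :=
  LinearMap.pi fun i => Matrix.mulVecLin (F i.1)

theorem Dec.finrank_KR (d : Dec Z Y E F) (R : Finset ι) :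
    finrank ℚ (KR F R) + 2 * ∑ i ∈ R, g i = 2 * G := by
  classical
  have hker : LinearMap.ker (prR F R) = KR F R := by
    ext x
    rw [LinearMap.mem_ker]
    constructor
    · intro h i hi
      exact congrFun h ⟨i, hi⟩
    · intro h
      funext i
      exact h i.1 i.2
  have hsurj : LinearMap.range (prR F R) = ⊤ := by
    rw [LinearMap.range_eq_top]
    intro y
    refine ⟨∑ i : R, E i.1 *ᵥ y i, ?_⟩
    funext j
    change F j.1 *ᵥ _ = _
    rw [Matrix.mulVec_sum, Finset.sum_eq_single j]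
    · rw [mulVec_mulVec, d.FE, one_mulVec]
    · intro i _ hi
      rw [mulVec_mulVec, d.FE0 j.1 i.1 (fun h => hi (Subtype.ext h.symm)), zero_mulVec]
    · intro h
      exact absurd (Finset.mem_univ _) h
  have h1 := LinearMap.finrank_range_add_finrank_ker (prR F R)
  rw [hker, hsurj, finrank_top, Module.finrank_pi_fintype] at h1
  simp only [Module.finrank_fintype_fun_eq_card, Fintype.card_sum, Fintype.card_fin] at h1
  have h2 : ∑ i : R, (g i.1 + g i.1) = 2 * ∑ i ∈ R, g i := by
    rw [Finset.sum_coe_sort R (fun i => g i + g i), Finset.mul_sum]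
    exact Finset.sum_congr rfl fun i _ => by ring
  rw [h2] at h1
  omega

theorem Dec.sum_g (d : Dec Z Y E F) : ∑ i, g i = G := by
  have h1 := d.finrank_KR Finset.univ
  have h2 : KR F Finset.univ = ⊥ := by
    rw [eq_bot_iff]
    intro x hx
    rw [Submodule.mem_bot]
    have h3 : x = ∑ i, E i *ᵥ (F i *ᵥ x) := by
      conv_lhs => rw [← one_mulVec x, ← d.tot, Matrix.sum_mulVec]
      refine Finset.sum_congr rfl fun i _ => ?_
      rw [mulVec_mulVec]
    rw [h3]
    refine Finset.sum_eq_zero fun i _ => ?_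
    rw [hx i (Finset.mem_univ _), mulVec_zero]
  rw [h2, finrank_bot, zero_add] at h1
  omega

/-- Hodge classes on powers. -/
theorem Dec.quotient (d : Dec Z Y E F) {R : Finset ι} (h : HodgeClassesDecompose Y R) :
    HodgeClassesFromQuotient Z (KR F R) := by
  classical
  intro n k f hf
  obtain ⟨e⟩ : Nonempty (Fin (Fintype.card (Fin n × ι)) ≃ Fin n × ι) :=
    ⟨(Fintype.equivFin _).symm⟩
  have h1 := isHodge_comp (mPhi E e) (tPhi Z E e) (d.per_phi e) hf
  have h2 := h _ (fun j => (e j).2) k _ h1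
  have h3 : f = (f.compLinearMap (mPhi E e)).compLinearMap (mPsi F e) := by
    ext w
    rw [AlternatingMap.compLinearMap_apply, AlternatingMap.compLinearMap_apply]
    congr 1
    funext l
    exact (d.phi_psi e (w l)).symm
  rw [h3]
  generalize f.compLinearMap (mPhi E e) = f₁ at h2
  unfold productSpan at h2
  induction h2 using Submodule.span_induction with
  | zero =>
    have h1 : (0 : (∀ j : Fin (Fintype.card (Fin n × ι)),
      Fin (g (e j).2) ⊕ Fin (g (e j).2) → ℚ) [⋀^Fin k]→ₗ[ℚ] ℚ).compLinearMap (mPsi F e) = 0 := by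
      ext v
      rfl
    rw [h1]
    exact Submodule.zero_mem _
  | add x y _ _ hx hy =>
    have h1 : (x + y).compLinearMap (mPsi F e) =
        x.compLinearMap (mPsi F e) + y.compLinearMap (mPsi F e) := by
      ext v
      rfl
    rw [h1]
    exact Submodule.add_mem _ hx hy
  | smul r x _ hx =>
    have h1 : (r • x).compLinearMap (mPsi F e) = r • x.compLinearMap (mPsi F e) := by
      ext v
      rfl
    rw [h1]
    exact Submodule.smul_mem _ _ hx
  | mem f' hf' =>
    obtain ⟨r, l, ee, B, η, hB, hη, hη', hf'⟩ := hf'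
    refine Submodule.subset_span ⟨r, l, ee, fun s => (B s).compLinearMap (mPsi F e),
      η.compLinearMap (mPsi F e),
      fun s => isHodge_comp (mPsi F e) (tPsi Y F e) (d.per_psi e) (hB s),
      isHodge_comp (mPsi F e) (tPsi Y F e) (d.per_psi e) hη, ?_, fun v => ?_⟩
    · intro v v' hvv
      rw [AlternatingMap.compLinearMap_apply, AlternatingMap.compLinearMap_apply]
      refine hη' _ _ fun a j hj => ?_
      change F (e j).2 *ᵥ v a (e j).1 = F (e j).2 *ᵥ v' a (e j).1
      have h4 := hvv a (e j).1 (e j).2 hj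
      rw [mulVec_sub] at h4
      exact sub_eq_zero.1 h4
    · rw [AlternatingMap.compLinearMap_apply, hf']
      refine Finset.sum_congr rfl fun σ _ => ?_
      congr 2
      refine Finset.prod_congr rfl fun s _ => ?_
      rw [comp_two]

/-- Hodge classes on powers. -/
theorem Dec.divisors (d : Dec Z Y E F) {R : Finset ι} (h : HodgeClassesDivisorial Y R) {n : ℕ}
    (hn : n * ∑ i ∈ R, g i ≤ 3) : HodgeClassesFromDivisors Z n := by
  classical
  intro k f hf
  obtain ⟨e⟩ : Nonempty (Fin (Fintype.card (Fin n × ι)) ≃ Fin n × ι) :=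
    ⟨(Fintype.equivFin _).symm⟩
  have h1 := isHodge_comp (mPhi E e) (tPhi Z E e) (d.per_phi e) hf
  have h3 : f = (f.compLinearMap (mPhi E e)).compLinearMap (mPsi F e) := by
    ext w
    rw [AlternatingMap.compLinearMap_apply, AlternatingMap.compLinearMap_apply]
    congr 1
    funext l
    exact (d.phi_psi e (w l)).symm
  rw [h3]
  refine divisorSpan_comp (mPsi F e) (tPsi Y F e) (d.per_psi e) (h _ (fun j => (e j).2) ?_ k _ h1)
  have h4 : ∑ j with (e j).2 ∈ R, g (e j).2 = n * ∑ i ∈ R, g i := by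
    rw [Finset.sum_filter, Equiv.sum_comp e (fun p => if p.2 ∈ R then g p.2 else 0),
      Fintype.sum_prod_type]
    simp only [Finset.sum_const, Finset.card_univ, Fintype.card_fin, smul_eq_mul]
    congr 1
    rw [← Finset.sum_filter]
    congr 1
    ext i
    simp
  rw [h4]
  exact hn

/-- Hodge classes on products with a variety. -/
theorem Dec.times (d : Dec Z Y E F) (hp : ∀ i, HasPcs (DZ (Y i))) {v : ℕ} (V : Coh v)
    (hder : ∀ i, ∃ δ : Derivation ℚ ℂ ℂ, V.z.map δ = 0 ∧ (Y i).map δ ≠ 0) (n : ℕ) :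
    HodgeClassesOnTimes Z n V := by
  classical
  intro H hH
  obtain ⟨e⟩ : Nonempty (Fin (Fintype.card (Fin n × ι)) ≃ Fin n × ι) :=
    ⟨(Fintype.equivFin _).symm⟩
  have hfree : IsFree (fun j => Y (e j).2) V :=
    { symm := fun j => d.symmY _
      pos := fun j => d.posY _
      pcs := fun j => hp _
      ind := indep_of_der (Z := fun j => Y (e j).2) (fun j => d.symmY _) (fun j => d.posY _)
        (fun j => hp _) (fun j => d.simple _) V fun j => hder _ }
  have h1 : IsHodgeOnProduct (perProd fun j => Y (e j).2) V (compH (mPhi E e) H) :=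
    isHodgeOnProduct_comp (mPhi E e) (tPhi Z E e) (d.per_phi e) V hH
  have h2 : compH (mPhi E e) H ∈ crossSpan (perProd fun j => Y (e j).2) V :=
    hfree.mem_of_integrals h1 fun k j e f hf β _ =>
      Submodule.subset_span ⟨k, f, _, hf, hfree.integral_mem h1 e β, rfl⟩
  have h3 : H = compH (mPsi F e) (compH (mPhi E e) H) := by
    funext k
    ext w : 1
    unfold compH
    rw [AlternatingMap.compLinearMap_apply, AlternatingMap.compLinearMap_apply]
    congr 1
    funext l
    exact (d.phi_psi e (w l)).symm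
  rw [h3]
  exact crossSpan_comp (mPsi F e) (tPsi Y F e) (d.per_psi e) V h2

/-- the combination of derivations -/
def comb {S : Type} [Fintype S] (δ : S → Derivation ℚ ℂ ℂ) (c : S → ℂ) : Derivation ℚ ℂ ℂ :=
  ∑ s, c s • δ s

theorem comb_apply {S : Type} [Fintype S] (δ : S → Derivation ℚ ℂ ℂ) (c : S → ℂ) (x : ℂ) :
    comb δ c x = ∑ s, c s * δ s x := by
  have h1 := congrFun (map_sum (Derivation.coeFnAddMonoidHom (R := ℚ) (A := ℂ) (M := ℂ))
    (fun s => c s • δ s) Finset.univ) x
  rw [Finset.sum_apply] at h1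
  exact h1

theorem map_comb {S : Type} [Fintype S] (δ : S → Derivation ℚ ℂ ℂ) (c : S → ℂ) (i : ι) :
    (Y i).map (comb δ c) = derL Y δ i c := by
  ext a b
  rw [derL_apply, Matrix.map_apply, comb_apply, Matrix.sum_apply]
  rfl

end dec

/-- **Abelian varieties with many algebraically independent periods.** -/
theorem many_periods {g : ℕ} (Z : Matrix (Fin g) (Fin g) ℂ) (hZ : Zᵀ = Z) (hpos : (imM Z).PosDef)
    (K : Subfield ℂ) {D : ℕ} (p : Fin D → Fin g × Fin g)
    (hp : AlgebraicIndependent K fun s => Z (p s).1 (p s).2) :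
    ∃ (B : Submodule ℚ (Fin g ⊕ Fin g → ℚ)) (r : ℕ), IsAbelianSubvariety Z B ∧
      finrank ℚ B + 2 * r = 2 * g ∧ SmallQuotient g D r ∧ HodgeClassesFromQuotient Z B ∧
      (∀ n, n * r ≤ 3 → HodgeClassesFromDivisors Z n) ∧
      (r = 0 → ∀ (v : ℕ) (V : Coh v), (∀ a b, V.z a b ∈ K) → ∀ n, HodgeClassesOnTimes Z n V) := by
  classical
  obtain ⟨ι, hι, hι', d, Y, E, F, h1, h2, h3, h4, h5, h6, h7, h8⟩ := decomposes g g Z le_rfl hZ hpos
  have hd : Dec Z Y E F := ⟨hZ, hpos, h1, h2, h3, h4, h5, h6, h7, h8⟩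
  choose δ hδK hδ using fun s : Fin D => exists_derivationK hp (fun t => if t = s then (1 : ℂ) else 0)
  have hinj : Function.Injective (LinearMap.pi fun i => derL Y δ i) := by
    rw [← LinearMap.ker_eq_bot, LinearMap.ker_eq_bot']
    intro c hc
    have h9 : ∀ i, (Y i).map (comb δ c) = 0 := by
      intro i
      rw [map_comb]
      exact congrFun hc i
    have h10 := map_der_eq_zero hd.unit hd.unitY hd.tot (fun i => (hd.EJ i).symm) hd.FJ _ h9
    funext t
    have h11 := congrFun (congrFun h10 (p t).1) (p t).2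
    rw [Matrix.map_apply, comb_apply, Finset.sum_eq_single t] at h11
    · rw [hδ t t, if_pos rfl, mul_one] at h11
      exact h11
    · intro s _ hs
      rw [hδ s t, if_neg (Ne.symm hs), mul_zero]
    · intro h
      exact absurd (Finset.mem_univ _) h
  obtain ⟨R, hR1, hR2, hR3, hR4⟩ := main_der h1 h2 h3 δ hinj
  refine ⟨KR F R, ∑ i ∈ R, d i, isAbelianSubvariety_of hd.unit (hd.KR_jstable R),
    hd.finrank_KR R, ?_, hd.quotient hR2, fun n hn => hd.divisors hR3 hn, ?_⟩
  · intro ρ ha hb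
    have h9 := hR1 (fun _ => 1) (fun _ => le_rfl) ρ
    simp only [one_mul, hd.sum_g, Fintype.card_fin] at h9
    exact h9 ha hb
  · intro hr v V hV n
    have hR : R = ∅ := by
      rw [Finset.eq_empty_iff_forall_notMem]
      intro i hi
      have h9 := (Finset.sum_eq_zero_iff.1 hr) i hi
      have h10 := h8 i
      omega
    subst hR
    refine hd.times (fun i => (hR4 i (Finset.notMem_empty i)).1) V (fun i => ?_) n
    obtain ⟨-, u, hu⟩ := hR4 i (Finset.notMem_empty i)
    refine ⟨comb δ u, ?_, by rw [map_comb]; exact hu⟩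
    ext a b
    rw [Matrix.map_apply, comb_apply, Matrix.zero_apply]
    refine Finset.sum_eq_zero fun s _ => ?_
    have h9 : δ s (V.z a b) = 0 := hδK s ⟨V.z a b, hV a b⟩
    rw [h9, mul_zero]

end

end Pool.Agent.X311
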