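import Mathlib
import Pool.Agent.X311.Periods

/-!
# The generalized Hodge conjecture for products with a variety is invariant under isogenies
-/

set_option linter.unusedSectionVars false

namespace Pool.Agent.X311

open Matrix Module Pool.Agent.H204R3.CM Pool.Agent.W437.HC Pool.Agent.W437.HD Pool.Agent.W437.HP
  Pool.Agent.W437.HQ Pool.Agent.W437.HR Pool.Agent.TH131.GHC Pool.Agent.TH504.VY
  Pool.Agent.TH504.VL Pool.Agent.TH504.CB Pool.Agent.TH125 Pool.Agent.Y91.PS Pool.Agent.W546.GHC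

noncomputable section

variable {W T W' T' : Type} [AddCommGroup W] [Module ℚ W] [AddCommGroup T]
    [Module ℂ T] [AddCommGroup W'] [Module ℚ W'] [AddCommGroup T'] [Module ℂ T'] {per : W →+ T}
    {per' : W' →+ T'}

/-- composition of a class on the product, as a linear map -/
def compHL (Φ : W →ₗ[ℚ] W') (v : ℕ) : HAZ W' v →ₗ[ℚ] HAZ W v where
  toFun F := compH Φ F
  map_add' F G := by
    funext k
    ext w
    rfl
  map_smul' c F := by
    funext k
    ext w
    rfl

/-- composition of a complex class -/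
def compCL (Ψ : T →ₗ[ℂ] T') (v : ℕ) : HAZC T' v →ₗ[ℂ] HAZC T v where
  toFun F := fun k => (F k).compLinearMap (Ψ.restrictScalars ℝ)
  map_add' F G := by
    funext k
    ext w
    rfl
  map_smul' c F := by
    funext k
    ext w
    rfl

theorem compCL_apply (Ψ : T →ₗ[ℂ] T') {v : ℕ} (F : HAZC T' v) (k : ℕ) (u : Fin k → T) :
    compCL Ψ v F k u = F k fun l => Ψ (u l) := rfl

theorem extends_comp (Φ : W →ₗ[ℚ] W') (Ψ : T →ₗ[ℂ] T') (h : ∀ w, Ψ (per w) = per' (Φ w)) {v : ℕ}
    {t : HAZ W' v} {F : HAZC T' v} (hF : Extends per' t F) :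
    Extends per (compH Φ t) (compCL Ψ v F) := by
  intro k w
  rw [compCL_apply]
  have h1 : (fun l => Ψ (per (w l))) = fun l => per' (Φ (w l)) := funext fun l => h (w l)
  rw [h1, hF k]
  rfl

theorem hasType_comp (Ψ : T →ₗ[ℂ] T') {v : ℕ} {V : Coh v} {n : ℤ} {F : HAZC T' v}
    (hF : HasType V n F) : HasType V n (compCL Ψ v F) := by
  intro k u
  have h3 := hF k fun l => Ψ (u l)
  have h4 : ∀ l, compCL Ψ v F k (Function.update u l (Complex.I • u l)) =
      F k (Function.update (fun l => Ψ (u l)) l (Complex.I • Ψ (u l))) := by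
    intro l
    rw [compCL_apply]
    congr 1
    funext a
    by_cases ha : a = l
    · subst ha
      rw [Function.update_self, Function.update_self]
      exact Ψ.map_smul _ _
    · rw [Function.update_of_ne ha, Function.update_of_ne ha]
  rw [Finset.sum_congr rfl fun l _ => h4 l]
  exact h3

theorem divisorProducts_comp (Φ : W →ₗ[ℚ] W') (Ψ : T →ₗ[ℂ] T')
    (h : ∀ w, Ψ (per w) = per' (Φ w)) {k r : ℕ} {f : W' [⋀^Fin k]→ₗ[ℚ] ℚ}
    (hf : f ∈ divisorProducts per' k r) : f.compLinearMap Φ ∈ divisorProducts per k r := by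
  obtain ⟨l, e, B, η, hB, hf⟩ := hf
  refine ⟨l, e, fun s => (B s).compLinearMap Φ, η.compLinearMap Φ,
    fun s => isHodge_comp Φ Ψ h (hB s), fun w => ?_⟩
  rw [AlternatingMap.compLinearMap_apply, hf]
  refine Finset.sum_congr rfl fun σ _ => ?_
  congr 2
  refine Finset.prod_congr rfl fun s _ => ?_
  rw [comp_two]

theorem divConiveau_comp (Φ : W →ₗ[ℚ] W') (Ψ : T →ₗ[ℂ] T')
    (h : ∀ w, Ψ (per w) = per' (Φ w)) {v : ℕ} {N : ℕ → Submodule ℚ (Fin v → ℚ)} {j : ℕ}
    {F : HAZ W' v} (hF : F ∈ divConiveau per' N j) : compH Φ F ∈ divConiveau per N j := by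
  have h1 : divConiveau per' N j ≤ (divConiveau per N j).comap (compHL Φ v) := by
    refine Submodule.span_le.2 ?_
    rintro _ ⟨k, r, j', f, x, hf, hx, hj, rfl⟩
    refine Submodule.subset_span ⟨k, r, j', f.compLinearMap Φ, x,
      divisorProducts_comp Φ Ψ h hf, hx, hj, ?_⟩
    change compH Φ (cross f x) = cross (f.compLinearMap Φ) x
    funext k'
    by_cases hk : k' = k
    · subst hk
      unfold compH cross
      rw [Pi.single_eq_same, Pi.single_eq_same]
      ext w
      rfl
    · unfold compH cross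
      rw [Pi.single_eq_of_ne hk, Pi.single_eq_of_ne hk]
      ext w
      rfl
  exact h1 hF

/-- **Invariance of the generalized Hodge conjecture under isogenies.** -/
theorem ghcProduct_iso (Φ : W →ₗ[ℚ] W') (Ψ : T →ₗ[ℂ] T') (h : ∀ w, Ψ (per w) = per' (Φ w))
    (Φ' : W' →ₗ[ℚ] W) (Ψ' : T' →ₗ[ℂ] T) (h' : ∀ w, Ψ' (per' w) = per (Φ' w))
    (hΦ : ∀ w, Φ' (Φ w) = w) (hΨ : ∀ u, Ψ (Ψ' u) = u) {v : ℕ} {V : Coh v}
    {N : ℕ → Submodule ℚ (Fin v → ℚ)} (H : GHCProduct per' V N) : GHCProduct per V N := by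
  intro i j S hS
  obtain ⟨hdeg, hsub⟩ := hS
  have hinv : ∀ t : HAZ W v, compH Φ (compH Φ' t) = t := by
    intro t
    funext k
    ext w : 1
    unfold compH
    rw [AlternatingMap.compLinearMap_apply, AlternatingMap.compLinearMap_apply]
    congr 1
    funext l
    exact hΦ (w l)
  have hmap : ∀ x ∈ cplx per S, compCL Ψ' v x ∈ cplx per' (S.map (compHL Φ' v)) := by
    have h1 : cplx per S ≤ (cplx per' (S.map (compHL Φ' v))).comap (compCL Ψ' v) := by
      refine Submodule.span_le.2 ?_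
      rintro x ⟨t, ht, hx⟩
      exact Submodule.subset_span ⟨compH Φ' t, ⟨t, ht, rfl⟩, extends_comp Φ' Ψ' h' hx⟩
    exact fun x hx => h1 hx
  have hS' : SubHSIn per' V i j (S.map (compHL Φ' v)) := by
    refine ⟨?_, ?_⟩
    · rintro _ ⟨t, ht, rfl⟩ k w b hb
      exact hdeg t ht k (fun l => Φ' (w l)) b hb
    · refine Submodule.span_le.2 ?_
      rintro F ⟨_, ⟨s, hs, rfl⟩, hF⟩
      have h1 : Extends per s (compCL Ψ v F) := by
        have h2 := extends_comp Φ Ψ h hF
        have h3 : compH Φ ((compHL Φ' v) s) = s := hinv s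
        rwa [h3] at h2
      have h2 : compCL Ψ v F ∈ cplx per S := Submodule.subset_span ⟨s, hs, h1⟩
      have h3 := hsub h2
      have h4 : Submodule.span ℂ {x | x ∈ cplx per S ∧
          ∃ n : ℤ, |n| ≤ (i : ℤ) - 2 * j ∧ HasType V n x} ≤
          (Submodule.span ℂ {x | x ∈ cplx per' (S.map (compHL Φ' v)) ∧
            ∃ n : ℤ, |n| ≤ (i : ℤ) - 2 * j ∧ HasType V n x}).comap (compCL Ψ' v) := by
        refine Submodule.span_le.2 ?_
        rintro x ⟨hx, n, hn, hxn⟩
        exact Submodule.subset_span ⟨hmap x hx, n, hn, hasType_comp Ψ' hxn⟩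
      have h5 := h4 h3
      have h6 : compCL Ψ' v (compCL Ψ v F) = F := by
        funext k
        ext u : 1
        rw [compCL_apply, compCL_apply]
        congr 1
        funext l
        exact hΨ (u l)
      rw [Submodule.mem_comap, h6] at h5
      exact h5
  intro t ht
  have h1 := H i j _ hS' (Submodule.mem_map_of_mem (f := compHL Φ' v) ht)
  have h2 := divConiveau_comp Φ Ψ h h1
  have h3 : compH Φ ((compHL Φ' v) t) = t := hinv t
  rwa [h3] at h2

end

end Pool.Agent.X311
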