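import Mathlib
import Pool.Agent.TH504.CB.Indep
import Pool.Agent.X311.GhcPeriodsDefs

/-!
# Independence of Hodge structures and derivations which preserve the Hodge filtration
-/

set_option linter.unusedSectionVars false

namespace Pool.Agent.X311

open Matrix Equiv Module Pool.Agent.H204R3.SP Pool.Agent.H204R3.CM Pool.Agent.W437.HC
  Pool.Agent.W437.HD Pool.Agent.W437.HP Pool.Agent.W437.HR Pool.Agent.W548.Odd
  Pool.Agent.TH125.Small Pool.Agent.TH131.GHC Pool.Agent.TH504.CB

noncomputable section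

section adl

/-- Iterated commutators. -/
def adl {R : Type*} [Ring R] [Module ℂ R] (A : R) : List ℤ → R → R
  | [], X => X
  | k :: l, X => adl A l (A * X - X * A - (k : ℂ) • X)

variable {R : Type*} [Ring R] [Algebra ℂ R] (A : R)

theorem adl_add (l : List ℤ) : ∀ X Y : R, adl A l (X + Y) = adl A l X + adl A l Y := by
  induction l with
  | nil => intro X Y; rfl
  | cons k l ih =>
    intro X Y
    have h1 : A * (X + Y) - (X + Y) * A - (k : ℂ) • (X + Y) =
        (A * X - X * A - (k : ℂ) • X) + (A * Y - Y * A - (k : ℂ) • Y) := by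
      rw [mul_add, add_mul, smul_add]
      abel
    change adl A l _ = adl A l _ + adl A l _
    rw [h1, ih]

theorem adl_eig (l : List ℤ) (c : ℤ) : ∀ X : R, A * X - X * A = (c : ℂ) • X →
    adl A l X = ((l.map fun k => ((c - k : ℤ) : ℂ)).prod) • X := by
  induction l with
  | nil => intro X _; simp [adl]
  | cons k l ih =>
    intro X hX
    have h1 : A * X - X * A - (k : ℂ) • X = ((c - k : ℤ) : ℂ) • X := by
      rw [hX, ← sub_smul, Int.cast_sub]
    have h2 : A * (((c - k : ℤ) : ℂ) • X) - (((c - k : ℤ) : ℂ) • X) * A =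
        (c : ℂ) • (((c - k : ℤ) : ℂ) • X) := by
      rw [mul_smul_comm, smul_mul_assoc, ← smul_sub, hX, smul_comm]
    change adl A l _ = _
    rw [h1, ih _ h2, smul_smul, List.map_cons, List.prod_cons, mul_comm]

theorem adl_zero (l : List ℤ) : adl A l (0 : R) = 0 := by
  have h := adl_eig A l 0 (0 : R) (by simp)
  rw [h, smul_zero]

end adl

theorem adl_stable {X : Type*} (A : Module.End ℂ (X → ℂ)) {S : Submodule ℂ (X → ℂ)}
    (hA : ∀ z ∈ S, A z ∈ S) (l : List ℤ) : ∀ P : Module.End ℂ (X → ℂ), (∀ z ∈ S, P z ∈ S) →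
      ∀ z ∈ S, adl A l P z ∈ S := by
  induction l with
  | nil => intro P hP; exact hP
  | cons k l ih =>
    intro P hP
    refine ih _ fun z hz => ?_
    change A (P z) - P (A z) - (k : ℂ) • P z ∈ S
    exact Submodule.sub_mem _ (Submodule.sub_mem _ (hA _ (hP z hz)) (hP _ (hA z hz)))
      (Submodule.smul_mem _ _ (hP z hz))

section raise

variable {C : Type*} [Fintype C] [DecidableEq C]

/-- successive application of `D - (n + k)` -/
def prl (D : Matrix C C ℂ) (n : ℤ) : List ℤ → (C → ℂ) → (C → ℂ)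
  | [], w => w
  | k :: l, w => prl D n l (D *ᵥ w - ((n + k : ℤ) : ℂ) • w)

theorem prl_add (D : Matrix C C ℂ) (n : ℤ) (l : List ℤ) : ∀ w w' : C → ℂ,
    prl D n l (w + w') = prl D n l w + prl D n l w' := by
  induction l with
  | nil => intro w w'; rfl
  | cons k l ih =>
    intro w w'
    have h1 : D *ᵥ (w + w') - ((n + k : ℤ) : ℂ) • (w + w') =
        (D *ᵥ w - ((n + k : ℤ) : ℂ) • w) + (D *ᵥ w' - ((n + k : ℤ) : ℂ) • w') := by
      rw [mulVec_add, smul_add]
      abel
    change prl D n l _ = prl D n l _ + prl D n l _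
    rw [h1, ih]

theorem prl_smul (D : Matrix C C ℂ) (n : ℤ) (l : List ℤ) : ∀ (c : ℂ) (w : C → ℂ),
    prl D n l (c • w) = c • prl D n l w := by
  induction l with
  | nil => intro c w; rfl
  | cons k l ih =>
    intro c w
    have h1 : D *ᵥ (c • w) - ((n + k : ℤ) : ℂ) • (c • w) =
        c • (D *ᵥ w - ((n + k : ℤ) : ℂ) • w) := by
      rw [mulVec_smul, smul_sub, smul_comm]
    change prl D n l _ = c • prl D n l _
    rw [h1, ih]

theorem prl_eig (D : Matrix C C ℂ) (n m : ℤ) (l : List ℤ) (hm : m - n ∈ l) : ∀ w : C → ℂ,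
    D *ᵥ w = (m : ℂ) • w → prl D n l w = 0 := by
  induction l with
  | nil => exact absurd hm (List.not_mem_nil)
  | cons k l ih =>
    intro w hw
    have h1 : D *ᵥ w - ((n + k : ℤ) : ℂ) • w = ((m - n - k : ℤ) : ℂ) • w := by
      rw [hw, ← sub_smul]
      congr 1
      push_cast
      ring
    change prl D n l _ = 0
    rw [h1, prl_smul]
    rcases List.mem_cons.1 hm with h | h
    · rw [show ((m - n - k : ℤ) : ℂ) = 0 by rw [h, sub_self, Int.cast_zero], zero_smul]
    · rw [ih h w hw, smul_zero]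

theorem adl_mulVec (D : Matrix C C ℂ) (n : ℤ) (l : List ℤ) : ∀ (b : Matrix C C ℂ) (y : C → ℂ),
    D *ᵥ y = (n : ℂ) • y → adl D l b *ᵥ y = prl D n l (b *ᵥ y) := by
  induction l with
  | nil => intro b y _; rfl
  | cons k l ih =>
    intro b y hy
    change adl D l _ *ᵥ y = prl D n l _
    rw [ih _ y hy]
    congr 1
    rw [sub_mulVec, sub_mulVec, smul_mulVec, ← mulVec_mulVec, ← mulVec_mulVec, hy, mulVec_smul]
    push_cast
    rw [add_smul]
    abel

/-- A raising matrix is killed by the iterated commutators. -/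
theorem exists_list (D : Matrix C C ℂ)
    (hdec : ∀ x : C → ℂ, x ∈ Submodule.span ℂ {y | ∃ k : ℤ, D *ᵥ y = (k : ℂ) • y})
    {b : Matrix C C ℂ} (hb : ∀ (n : ℤ) (y : C → ℂ), D *ᵥ y = (n : ℂ) • y →
      b *ᵥ y ∈ Submodule.span ℂ {w | ∃ m : ℤ, n < m ∧ D *ᵥ w = (m : ℂ) • w}) :
    ∃ l : List ℤ, (∀ k ∈ l, 0 < k) ∧ 2 ∈ l ∧ adl D l b = 0 := by
  classical
  have hfin : Set.Finite {m : ℤ | ∃ w : C → ℂ, w ≠ 0 ∧ D *ᵥ w = (m : ℂ) • w} := by
    have h1 := Module.End.finite_hasEigenvalue (Matrix.toLin' D)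
    refine Set.Finite.of_finite_image (f := fun m : ℤ => (m : ℂ)) (h1.subset ?_)
      (fun a _ b _ h => Int.cast_injective h)
    rintro _ ⟨m, ⟨w, hw, hm⟩, rfl⟩
    exact Module.End.hasEigenvalue_of_hasEigenvector
      ⟨Module.End.mem_eigenspace_iff.2 (by rw [Matrix.toLin'_apply]; exact hm), hw⟩
  let Λ := hfin.toFinset
  let l : List ℤ := 2 :: ((Λ ×ˢ Λ).toList.map fun p => p.1 - p.2).filter fun k => 0 < k
  have hl : ∀ n m : ℤ, n ∈ Λ → m ∈ Λ → n < m → m - n ∈ l := by
    intro n m hn hm hnm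
    refine List.mem_cons_of_mem _ (List.mem_filter.2 ⟨List.mem_map.2 ⟨(m, n), ?_, rfl⟩, ?_⟩)
    · rw [Finset.mem_toList, Finset.mem_product]
      exact ⟨hm, hn⟩
    · simpa using hnm
  refine ⟨l, ?_, List.mem_cons_self, ?_⟩
  · intro k hk
    rcases List.mem_cons.1 hk with rfl | hk
    · norm_num
    · simpa using (List.mem_filter.1 hk).2
  have hy : ∀ y : C → ℂ, adl D l b *ᵥ y = 0 := by
    intro y
    have h1 := hdec y
    induction h1 using Submodule.span_induction with
    | zero => rw [mulVec_zero]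
    | add x y _ _ hx hy => rw [mulVec_add, hx, hy, add_zero]
    | smul c x _ hx => rw [mulVec_smul, hx, smul_zero]
    | mem y hy =>
      obtain ⟨n, hn⟩ := hy
      by_cases hy0 : y = 0
      · rw [hy0, mulVec_zero]
      have hnΛ : n ∈ Λ := hfin.mem_toFinset.2 ⟨y, hy0, hn⟩
      rw [adl_mulVec D n l b y hn]
      have h2 := hb n y hn
      generalize b *ᵥ y = u at h2
      induction h2 using Submodule.span_induction with
      | zero =>
        have h3 := prl_smul D n l 0 (0 : C → ℂ)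
        rwa [zero_smul, zero_smul] at h3
      | add x y _ _ hx hy => rw [prl_add, hx, hy, add_zero]
      | smul c x _ hx => rw [prl_smul, hx, smul_zero]
      | mem w hw =>
        obtain ⟨m, hm, hw⟩ := hw
        by_cases hw0 : w = 0
        · rw [hw0]
          have h3 := prl_smul D n l 0 (0 : C → ℂ)
          rwa [zero_smul, zero_smul] at h3
        exact prl_eig D n m l (hl n m hnΛ (hfin.mem_toFinset.2 ⟨w, hw0, hw⟩) hm) w hw
  ext i j
  have h3 := congrFun (hy (Pi.single j 1)) i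
  rw [mulVec_single_one] at h3
  exact h3

end raise

section der

variable {B : Type} [Fintype B] [DecidableEq B] {C : Type} [Fintype C] [DecidableEq C]
  {κ : Type} [Fintype κ] [DecidableEq κ]

theorem opW_opD (M : Matrix C C ℂ) (X : Matrix B B ℂ) (z : (κ → B) × C → ℂ) :
    opW κ B M (opD κ C X z) = opD κ C X (opW κ B M z) := by
  funext p
  have h1 : ∀ c, opD κ C X z (p.1, c) = act X (sl c z) p.1 := fun c => rfl
  have h2 : opD κ C X (opW κ B M z) p = act X (sl p.2 (opW κ B M z)) p.1 := rfl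
  rw [opW_apply, h2]
  simp only [h1, act, sl_apply, opW_apply, Finset.mul_sum]
  rw [Finset.sum_comm]
  refine Finset.sum_congr rfl fun k _ => ?_
  rw [Finset.sum_comm]
  exact Finset.sum_congr rfl fun b _ => Finset.sum_congr rfl fun c _ => by ring

theorem adl_opW (D : Matrix B B ℂ) (D' : Matrix C C ℂ) (l : List ℤ) : ∀ b : Matrix C C ℂ,
    adl (R := Module.End ℂ ((κ → B) × C → ℂ)) (opD κ C D + opW κ B D') l (opW κ B b) =
      opW κ B (adl D' l b) := by
  induction l with
  | nil => intro b; rfl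
  | cons k l ih =>
    intro b
    have h1 : (opD κ C D + opW κ B D' : Module.End ℂ ((κ → B) × C → ℂ)) * (opW κ B b) -
        (opW κ B b) * (opD κ C D + opW κ B D') - (k : ℂ) • (opW κ B b) =
        opW κ B (D' * b - b * D' - (k : ℂ) • b) := by
      refine LinearMap.ext fun z => ?_
      change (opD κ C D (opW κ B b z) + opW κ B D' (opW κ B b z)) -
        opW κ B b (opD κ C D z + opW κ B D' z) - (k : ℂ) • opW κ B b z = _
      rw [map_add, opW_opD]
      have h2 : opW κ B (D' * b - b * D' - (k : ℂ) • b) z =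
          opW κ B (D' * b - b * D') z - (k : ℂ) • opW κ B b z := by
        funext p
        rw [Pi.sub_apply, Pi.smul_apply, opW_apply, opW_apply, opW_apply, smul_eq_mul,
          Finset.mul_sum, ← Finset.sum_sub_distrib]
        refine Finset.sum_congr rfl fun c _ => ?_
        rw [Matrix.sub_apply (D' * b - b * D'), Matrix.smul_apply, smul_eq_mul]
        ring
      rw [h2, ← opW_br]
      abel
    change adl _ l _ = opW κ B (adl D' l _)
    rw [h1, ih]

/-- The derivative of the sum of the Hodge operators stabilizes. -/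
theorem der_sum_stb {D : Matrix B B ℂ} {D' : Matrix C C ℂ} {V : Submodule ℚ ((κ → B) × C → ℚ)}
    (hV : ∀ z ∈ cxX V, opD κ C D z + opW κ B D' z ∈ cxX V) (δ : Derivation ℚ ℂ ℂ) :
    ∀ z ∈ cxX V, opD κ C (D.map δ) z + opW κ B (D'.map δ) z ∈ cxX V := by
  intro z hz
  unfold cxX at hz
  induction hz using Submodule.span_induction with
  | mem z hz =>
    obtain ⟨t, ht, rfl⟩ := hz
    have h1 := cxX_der δ (hV _ (cstX_mem ht))
    have h2 : (fun p => δ ((opD κ C D (cstX t) + opW κ B D' (cstX t)) p)) =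
        opD κ C (D.map δ) (cstX t) + opW κ B (D'.map δ) (cstX t) := by
      funext p
      have h3 : ∀ q, δ (cstX t q) = 0 := fun q => δ.map_algebraMap (t q)
      rw [Pi.add_apply, map_add, Pi.add_apply]
      congr 1
      · change δ (act D (sl p.2 (cstX t)) p.1) = act (D.map δ) (sl p.2 (cstX t)) p.1
        simp only [act, map_sum, Matrix.map_apply, sl_apply]
        refine Finset.sum_congr rfl fun k _ => Finset.sum_congr rfl fun b _ => ?_
        rw [Derivation.leibniz, h3, smul_zero, zero_add, smul_eq_mul, mul_comm]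
      · rw [opW_apply, opW_apply, map_sum]
        refine Finset.sum_congr rfl fun c _ => ?_
        rw [Derivation.leibniz, h3, smul_zero, zero_add, smul_eq_mul, mul_comm, Matrix.map_apply]
    rwa [h2] at h1
  | zero =>
    rw [map_zero, map_zero, add_zero]
    exact Submodule.zero_mem _
  | add x y _ _ hx hy =>
    rw [map_add, map_add]
    have h1 := Submodule.add_mem _ hx hy
    rwa [add_add_add_comm] at h1
  | smul a y _ hy =>
    rw [map_smul, map_smul, ← smul_add]
    exact Submodule.smul_mem _ _ hy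

/-- The part of the derivative of the Hodge operator which moves the Hodge filtration stabilizes, if
the derivation preserves the Hodge filtration of the other Hodge structure. -/
theorem neg_stb {D : Matrix B B ℂ} {D' : Matrix C C ℂ} {V : Submodule ℚ ((κ → B) × C → ℚ)}
    (hV : ∀ z ∈ cxX V, opD κ C D z + opW κ B D' z ∈ cxX V) (δ : Derivation ℚ ℂ ℂ)
    (hD2 : D * D = 1) (hm : D.map δ ∈ lieM D ℂ)
    (hdec : ∀ x : C → ℂ, x ∈ Submodule.span ℂ {y | ∃ k : ℤ, D' *ᵥ y = (k : ℂ) • y})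
    (hb : ∀ (n : ℤ) (y : C → ℂ), D' *ᵥ y = (n : ℂ) • y →
      D'.map δ *ᵥ y ∈ Submodule.span ℂ {w | ∃ m : ℤ, n < m ∧ D' *ᵥ w = (m : ℂ) • w}) :
    (1 + D) * D.map δ ∈ stb D V := by
  obtain ⟨l, hl, hl2, hb0⟩ := exists_list D' hdec hb
  have hanti : D.map δ * D = -(D * D.map δ) := by
    have h1 := congrArg (fun M => M.map δ) hD2
    have h2 : (D * D).map δ = D.map δ * D + D * D.map δ := map_der_mul δ D D
    have h3 : (1 : Matrix B B ℂ).map δ = 0 := by
      ext i j
      rw [Matrix.map_apply, Matrix.zero_apply, Matrix.one_apply]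
      split_ifs
      · exact δ.map_one_eq_zero
      · exact map_zero δ
    rw [h3] at h1
    have h4 : D.map δ * D + D * D.map δ = 0 := h2.symm.trans h1
    exact eq_neg_of_add_eq_zero_left h4
  obtain ⟨Xm, hXm⟩ : ∃ Xm, Xm = (1 + D) * D.map δ := ⟨_, rfl⟩
  obtain ⟨Xp, hXp⟩ : ∃ Xp, Xp = (1 - D) * D.map δ := ⟨_, rfl⟩
  have hXmD : Xm * D - D * Xm = ((-2 : ℤ) : ℂ) • Xm := by
    rw [hXm]
    have h1 : (1 + D) * D.map δ * D = -((1 + D) * D.map δ) := by
      rw [Matrix.mul_assoc, hanti, Matrix.mul_neg, ← Matrix.mul_assoc]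
      congr 1
      rw [Matrix.add_mul, Matrix.one_mul, hD2, add_comm]
    have h2 : D * ((1 + D) * D.map δ) = (1 + D) * D.map δ := by
      rw [← Matrix.mul_assoc]
      congr 1
      rw [Matrix.mul_add, Matrix.mul_one, hD2, add_comm]
    rw [h1, h2]
    push_cast
    rw [neg_smul, two_smul]
    abel
  have hXpD : Xp * D - D * Xp = ((2 : ℤ) : ℂ) • Xp := by
    rw [hXp]
    have h1 : (1 - D) * D.map δ * D = (1 - D) * D.map δ := by
      rw [Matrix.mul_assoc, hanti, Matrix.mul_neg, ← Matrix.mul_assoc, ← Matrix.neg_mul]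
      congr 1
      rw [Matrix.sub_mul, Matrix.one_mul, hD2, neg_sub]
    have h2 : D * ((1 - D) * D.map δ) = -((1 - D) * D.map δ) := by
      rw [← Matrix.mul_assoc, ← Matrix.neg_mul]
      congr 1
      rw [Matrix.mul_sub, Matrix.mul_one, hD2, neg_sub]
    rw [h1, h2]
    push_cast
    rw [two_smul]
    abel
  have hsum : (2 : ℂ) • D.map δ = Xm + Xp := by
    rw [hXm, hXp, ← Matrix.add_mul, two_smul]
    have h1 : (1 + D) + (1 - D) = (2 : ℂ) • (1 : Matrix B B ℂ) := by
      rw [two_smul]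
      abel
    rw [h1, Matrix.smul_mul, Matrix.one_mul, two_smul]
  -- the eigenvectors of the commutator with the sum of the operators
  have hcomm : ∀ (X : Matrix B B ℂ) (c : ℤ), X * D - D * X = (c : ℂ) • X →
      (opD κ C D + opW κ B D' : Module.End ℂ ((κ → B) × C → ℂ)) * (opD κ C X) -
        (opD κ C X) * (opD κ C D + opW κ B D') = (c : ℂ) • (opD κ C X) := by
    intro X c hX
    refine LinearMap.ext fun z => ?_
    change (opD κ C D (opD κ C X z) + opW κ B D' (opD κ C X z)) -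
      opD κ C X (opD κ C D z + opW κ B D' z) = (c : ℂ) • opD κ C X z
    rw [map_add, opW_opD, ← opD_smul, ← hX, ← opD_br]
    abel
  obtain ⟨A, hA⟩ : ∃ A : Module.End ℂ ((κ → B) × C → ℂ), A = opD κ C D + opW κ B D' := ⟨_, rfl⟩
  have hP : (2 : ℂ) • (opD κ C (D.map δ) + opW κ B (D'.map δ)) =
      (opD κ C Xm + opD κ C Xp + (2 : ℂ) • opW κ B (D'.map δ) :
        Module.End ℂ ((κ → B) × C → ℂ)) := by
    refine LinearMap.ext fun z => ?_
    change (2 : ℂ) • (opD κ C (D.map δ) z + opW κ B (D'.map δ) z) =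
      opD κ C Xm z + opD κ C Xp z + (2 : ℂ) • opW κ B (D'.map δ) z
    rw [smul_add, ← opD_smul, hsum, opD_add]
  have hst : ∀ z ∈ cxX V, adl A l ((2 : ℂ) • (opD κ C (D.map δ) + opW κ B (D'.map δ))) z ∈
      cxX V := by
    refine adl_stable A (by rw [hA]; exact hV) l _ fun z hz => ?_
    exact Submodule.smul_mem _ _ (der_sum_stb hV δ z hz)
  have h2W : (2 : ℂ) • opW κ B (D'.map δ) = (opW κ B (D'.map δ) + opW κ B (D'.map δ) :
      Module.End ℂ ((κ → B) × C → ℂ)) := two_smul _ _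
  have hval : adl A l ((2 : ℂ) • (opD κ C (D.map δ) + opW κ B (D'.map δ))) =
      ((l.map fun k => ((-2 - k : ℤ) : ℂ)).prod) • (opD κ C Xm : Module.End ℂ _) := by
    rw [hP, adl_add, adl_add, h2W, adl_add, hA, adl_opW, hb0,
      adl_eig _ l (-2) _ (hcomm Xm (-2) hXmD), adl_eig _ l 2 _ (hcomm Xp 2 hXpD)]
    have h1 : (l.map fun k => ((2 - k : ℤ) : ℂ)).prod = 0 := by
      refine List.prod_eq_zero (List.mem_map.2 ⟨2, hl2, ?_⟩)
      norm_num
    have h2 : (opW κ B (0 : Matrix C C ℂ) : Module.End ℂ ((κ → B) × C → ℂ)) = 0 := by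
      refine LinearMap.ext fun z => ?_
      funext p
      rw [opW_apply]
      simp
    rw [h1, h2, zero_smul, add_zero, add_zero, add_zero]
  have hne : (l.map fun k => ((-2 - k : ℤ) : ℂ)).prod ≠ 0 := by
    refine List.prod_ne_zero fun h => ?_
    obtain ⟨k, hk, hk0⟩ := List.mem_map.1 h
    have h1 := hl k hk
    rw [Int.cast_eq_zero] at hk0
    omega
  refine ⟨?_, fun z hz => ?_⟩
  · have h1 : (1 + D) * D.map δ = D.map δ + (2⁻¹ : ℂ) • (D * D.map δ - D.map δ * D) := by
      rw [hanti, sub_neg_eq_add, ← two_smul ℂ (D * D.map δ), smul_smul, Matrix.add_mul,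
        Matrix.one_mul]
      norm_num
    rw [h1]
    exact Submodule.add_mem _ hm (Submodule.smul_mem _ _ (lieM_bracket D (D_mem D) hm))
  · have h1 := hst z hz
    rw [hval] at h1
    have h2 := Submodule.smul_mem _ ((l.map fun k => ((-2 - k : ℤ) : ℂ)).prod)⁻¹ h1
    rw [LinearMap.smul_apply, smul_smul, inv_mul_cancel₀ hne, one_smul, hXm] at h2
    exact h2

end der

section main

variable {ι : Type} [Fintype ι] [DecidableEq ι] {g : ι → ℕ}
  {Z : ∀ i, Matrix (Fin (g i)) (Fin (g i)) ℂ}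

/-- If the part of the derivative of the Hodge operator vanishes then the periods are constant. -/
theorem der_DZ_neg {m : ℕ} {Y : Matrix (Fin m) (Fin m) ℂ} (hY : IsUnit (imM Y).det)
    (δ : Derivation ℚ ℂ ℂ) (h : (1 + DZ Y) * (DZ Y).map δ = 0) : Y.map δ = 0 := by
  have h1 := congrArg (fun M => M.map δ) (Pool.Agent.W437.HQ.PZ_DZ hY)
  have h2 : (Pool.Agent.W437.HQ.PZ Y * DZ Y).map δ =
      (Pool.Agent.W437.HQ.PZ Y).map δ * DZ Y + Pool.Agent.W437.HQ.PZ Y * (DZ Y).map δ :=
    map_der_mul δ _ _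
  have h0 : Pool.Agent.W437.HQ.PZ Y * (DZ Y).map δ = 0 := by
    have h3 : Pool.Agent.W437.HQ.PZ Y * ((1 + DZ Y) * (DZ Y).map δ) =
        (2 : ℂ) • (Pool.Agent.W437.HQ.PZ Y * (DZ Y).map δ) := by
      rw [← Matrix.mul_assoc, Matrix.mul_add, Matrix.mul_one, Pool.Agent.W437.HQ.PZ_DZ hY,
        ← two_smul ℂ (Pool.Agent.W437.HQ.PZ Y), Matrix.smul_mul]
    rw [h, Matrix.mul_zero] at h3
    exact (smul_eq_zero.1 h3.symm).resolve_left two_ne_zero
  rw [h0, add_zero] at h2
  obtain ⟨N, hN⟩ : ∃ N, N = (Pool.Agent.W437.HQ.PZ Y).map δ := ⟨_, rfl⟩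
  have h3 : N * DZ Y = N := by
    rw [hN, ← h2]
    exact h1
  have h4 : N * LM Y = 0 := by
    have h5 : N * LM Y = -(N * LM Y) := by
      conv_lhs => rw [← h3, Matrix.mul_assoc, DZ_LM hY, Matrix.mul_neg]
    have h6 : (2 : ℂ) • (N * LM Y) = 0 := by
      rw [two_smul]
      nth_rewrite 2 [h5]
      exact add_neg_cancel _
    exact (smul_eq_zero.1 h6).resolve_left two_ne_zero
  have h5 : N = fromCols 0 (Y.map δ) := by
    rw [hN, map_der_PZ]
  have h6 : N * LM Y = Y.map δ := by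
    rw [h5]
    unfold LM
    rw [fromCols_mul_fromRows, Matrix.zero_mul, zero_add, Matrix.mul_one]
  rw [← h6, h4]

/-- The derivation preserves the Hodge filtration: the derivative of the Hodge operator raises the
type. -/
def Raises {v : ℕ} (V : Coh v) (δ : Derivation ℚ ℂ ℂ) : Prop :=
  ∀ (n : ℤ) (y : Fin v → ℂ), V.z *ᵥ y = (n : ℂ) • y →
    V.z.map δ *ᵥ y ∈ Submodule.span ℂ {w | ∃ m : ℤ, n < m ∧ V.z *ᵥ w = (m : ℂ) • w}

/-- **Independence from derivations which preserve the Hodge filtration.** -/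
theorem indep_of_raises (hZ : ∀ i, (Z i)ᵀ = Z i) (hpos : ∀ i, (imM (Z i)).PosDef)
    (hp : ∀ i, HasPcs (DZ (Z i))) (hs : ∀ i, IsSimpleAV (Z i)) {v : ℕ} (V : Coh v)
    (hder : ∀ i, ∃ δ : Derivation ℚ ℂ ℂ, Raises V δ ∧ (Z i).map δ ≠ 0) :
    Indep (DZ (bigD ℂ Z)) V.z := by
  intro k S hS
  refine stable_of_der Z hZ hpos hp hs (D' := V.z) (V := S) hS fun i => ?_
  obtain ⟨δ, hδ, hne⟩ := hder i
  refine ⟨(1 + DZ (bigD ℂ Z)) * (DZ (bigD ℂ Z)).map δ,
    neg_stb hS δ (DZ_sq ((imM_bigD_posDef Z hpos).isUnit.map Matrix.detMonoidHom)) ?_ V.decomp hδ,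
    fun h0 => hne ?_⟩
  · exact LA_le_lie (LA_gen (D := DZ '' {bigD ℂ Z}) (d := DZ (bigD ℂ Z))
      ⟨_, rfl, rfl⟩ (δ : ℂ →ₗ[ℚ] ℂ))
  · have h1 : ((DZ (bigD ℂ Z)) * (cK ℂ (pm g ℚ i))ᵀ).map δ =
        (DZ (bigD ℂ Z)).map δ * (cK ℂ (pm g ℚ i))ᵀ := by
      rw [← cK_transpose, map_der_mul, map_der_cK, Matrix.mul_zero, add_zero]
    have h2 : ((cK ℂ (pm g ℚ i))ᵀ * DZ (Z i)).map δ = (cK ℂ (pm g ℚ i))ᵀ * (DZ (Z i)).map δ := by
      rw [← cK_transpose, map_der_mul, map_der_cK, Matrix.zero_mul, zero_add]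
    have h3 : (DZ (bigD ℂ Z)).map δ * (cK ℂ (pm g ℚ i))ᵀ =
        (cK ℂ (pm g ℚ i))ᵀ * (DZ (Z i)).map δ := by
      rw [← h1, pmT_DZ Z hZ hpos, h2]
    have h4 : (1 + DZ (bigD ℂ Z)) * (cK ℂ (pm g ℚ i))ᵀ =
        (cK ℂ (pm g ℚ i))ᵀ * (1 + DZ (Z i)) := by
      rw [Matrix.add_mul, Matrix.mul_add, pmT_DZ Z hZ hpos, Matrix.one_mul, Matrix.mul_one]
    rw [Matrix.mul_assoc, h3, ← Matrix.mul_assoc, h4, Matrix.mul_assoc] at h0
    refine der_DZ_neg ((hpos i).isUnit.map Matrix.detMonoidHom) δ ?_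
    have h5 := congrArg (fun M => cK ℂ (pm g ℚ i) * M) h0
    rwa [← Matrix.mul_assoc, pm_sameC, Matrix.one_mul, Matrix.mul_zero] at h5

/-- Derivations over `K` preserve Hodge filtrations over `K`. -/
theorem raises_of_filtration {K : Subfield ℂ} {v : ℕ} {V : Coh v} (h : HasFiltrationOver K V)
    (δ : Derivation ℚ ℂ ℂ) (hδ : ∀ x ∈ K, δ x = 0) : Raises V δ := by
  intro n y hy
  -- the covariant derivative
  have h1 : (fun b => δ (y b)) ∈
      Submodule.span ℂ {w | ∃ m : ℤ, n ≤ m ∧ V.z *ᵥ w = (m : ℂ) • w} := by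
    have h2 := h n y hy
    clear hy
    suffices hh : y ∈ Submodule.span ℂ {w | ∃ m : ℤ, n ≤ m ∧ V.z *ᵥ w = (m : ℂ) • w} ∧
        (fun b => δ (y b)) ∈ Submodule.span ℂ {w | ∃ m : ℤ, n ≤ m ∧ V.z *ᵥ w = (m : ℂ) • w} from
      hh.2
    induction h2 using Submodule.span_induction with
    | mem x hx =>
      refine ⟨hx.2, ?_⟩
      have h3 : (fun b => δ (x b)) = 0 := funext fun b => hδ _ (hx.1 b)
      rw [h3]
      exact Submodule.zero_mem _
    | zero =>
      refine ⟨Submodule.zero_mem _, ?_⟩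
      have h3 : (fun b => δ ((0 : Fin v → ℂ) b)) = 0 := funext fun b => map_zero δ
      rw [h3]
      exact Submodule.zero_mem _
    | add x y _ _ hx hy =>
      refine ⟨Submodule.add_mem _ hx.1 hy.1, ?_⟩
      have h3 : (fun b => δ ((x + y) b)) = (fun b => δ (x b)) + fun b => δ (y b) :=
        funext fun b => map_add δ _ _
      rw [h3]
      exact Submodule.add_mem _ hx.2 hy.2
    | smul c x _ hx =>
      refine ⟨Submodule.smul_mem _ _ hx.1, ?_⟩
      have h3 : (fun b => δ ((c • x) b)) = c • (fun b => δ (x b)) + δ c • x := by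
        funext b
        rw [Pi.smul_apply, smul_eq_mul, Derivation.leibniz, Pi.add_apply, Pi.smul_apply,
          Pi.smul_apply]
        simp only [smul_eq_mul]
        ring
      rw [h3]
      exact Submodule.add_mem _ (Submodule.smul_mem _ _ hx.2) (Submodule.smul_mem _ _ hx.1)
  -- the derivative of the eigenvalue equation
  have h2 : V.z.map δ *ᵥ y = (n : ℂ) • (fun b => δ (y b)) - V.z *ᵥ fun b => δ (y b) := by
    funext b
    have h3 := congrArg δ (congrFun hy b)
    have h4 : δ ((V.z *ᵥ y) b) = (V.z.map δ *ᵥ y) b + (V.z *ᵥ fun b => δ (y b)) b := by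
      simp only [mulVec, dotProduct, map_sum, Matrix.map_apply]
      rw [← Finset.sum_add_distrib]
      refine Finset.sum_congr rfl fun c _ => ?_
      rw [Derivation.leibniz, smul_eq_mul, smul_eq_mul]
      ring
    have h5 : δ (((n : ℂ) • y) b) = (n : ℂ) * δ (y b) := by
      rw [Pi.smul_apply, smul_eq_mul, Derivation.leibniz, Derivation.map_intCast]
      simp
    rw [h4, h5] at h3
    rw [Pi.sub_apply, Pi.smul_apply, smul_eq_mul]
    linear_combination h3
  rw [h2]
  generalize (fun b => δ (y b)) = u at h1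
  induction h1 using Submodule.span_induction with
  | zero =>
    rw [smul_zero, mulVec_zero, sub_zero]
    exact Submodule.zero_mem _
  | add x y _ _ hx hy =>
    rw [smul_add, mulVec_add, add_sub_add_comm]
    exact Submodule.add_mem _ hx hy
  | smul c x _ hx =>
    rw [smul_comm, mulVec_smul, ← smul_sub]
    exact Submodule.smul_mem _ _ hx
  | mem w hw =>
    obtain ⟨m, hm, hw⟩ := hw
    rw [hw, ← sub_smul]
    rcases hm.lt_or_eq with h3 | h3
    · exact Submodule.smul_mem _ _ (Submodule.subset_span ⟨m, h3, hw⟩)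
    · rw [h3, sub_self, zero_smul]
      exact Submodule.zero_mem _

end main

end

end Pool.Agent.X311
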