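import Mathlib
import Pool.Agent.X311.GhcIso
import Pool.Agent.X311.IndepF
import Pool.Agent.W437.HR.EvenW

/-!
# The generalized Hodge conjecture for abelian varieties with many independent periods
-/

set_option linter.unusedSectionVars false

namespace Pool.Agent.X311

open Matrix Module Pool.Agent.H204R3.CM Pool.Agent.W437.HC Pool.Agent.W437.HD Pool.Agent.W437.HP
  Pool.Agent.W437.HQ Pool.Agent.W437.HR Pool.Agent.TH131.GHC Pool.Agent.TH504.VY
  Pool.Agent.TH504.VL Pool.Agent.TH504.CB Pool.Agent.TH125 Pool.Agent.Y91.PS Pool.Agent.W546.GHC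

noncomputable section

/-- A complex linear map which vanishes on the periods is zero. -/
theorem eq_zero_of_per {ι : Type} {g : ι → ℕ} (Y : ∀ i, Matrix (Fin (g i)) (Fin (g i)) ℂ) {n : ℕ}
    (t : Fin n → ι) {X : Type} [AddCommGroup X] [Module ℂ X]
    (F : (∀ j, Fin (g (t j)) → ℂ) →ₗ[ℂ] X) (h : ∀ w, F (perFam Y t w) = 0) : F = 0 := by
  refine LinearMap.pi_ext fun j x => ?_
  rw [LinearMap.zero_apply]
  have h1 : ∀ a, F (Pi.single j (Pi.single a 1)) = 0 := by
    intro a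
    have h2 := h (Pi.single j (Pi.single (Sum.inl a) 1))
    have h3 : perFam Y t (Pi.single j (Pi.single (Sum.inl a) 1)) =
        Pi.single j (Pi.single a (1 : ℂ)) := by
      funext k
      rw [perFam_apply]
      by_cases hk : k = j
      · subst hk
        rw [Pi.single_eq_same, Pi.single_eq_same, perOne_single]
      · rw [Pi.single_eq_of_ne hk, Pi.single_eq_of_ne hk, map_zero]
    rwa [h3] at h2
  have h2 : x = ∑ a, x a • (Pi.single a 1 : Fin (g (t j)) → ℂ) := by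
    funext b
    rw [Finset.sum_apply, Finset.sum_eq_single b]
    · simp
    · intro a _ ha
      simp [Pi.single_eq_of_ne (Ne.symm ha)]
    · intro h
      exact absurd (Finset.mem_univ _) h
  have h3 : (Pi.single j x : ∀ j, Fin (g (t j)) → ℂ) =
      ∑ a, x a • Pi.single j (Pi.single a (1 : ℂ)) := by
    conv_lhs => rw [h2]
    funext k
    by_cases hk : k = j
    · subst hk
      rw [Pi.single_eq_same, Finset.sum_apply]
      refine Finset.sum_congr rfl fun a _ => ?_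
      rw [Pi.smul_apply, Pi.single_eq_same]
    · rw [Pi.single_eq_of_ne hk, Finset.sum_apply]
      symm
      refine Finset.sum_eq_zero fun a _ => ?_
      rw [Pi.smul_apply, Pi.single_eq_of_ne hk, smul_zero]
  rw [h3, map_sum]
  refine Finset.sum_eq_zero fun a _ => ?_
  rw [map_smul, h1, smul_zero]

variable {G : ℕ} {Z : Matrix (Fin G) (Fin G) ℂ} {ι : Type} [Fintype ι] [DecidableEq ι]
    {g : ι → ℕ} {Y : ∀ i, Matrix (Fin (g i)) (Fin (g i)) ℂ}
    {E : ∀ i, Matrix (Fin G ⊕ Fin G) (Fin (g i) ⊕ Fin (g i)) ℚ}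
    {F : ∀ i, Matrix (Fin (g i) ⊕ Fin (g i)) (Fin G ⊕ Fin G) ℚ} {n N : ℕ} (e : Fin N ≃ Fin n × ι)

theorem Dec.psi_phi (d : Dec Z Y E F)
    (w : ∀ j : Fin N, Fin (g (e j).2) ⊕ Fin (g (e j).2) → ℚ) :
    mPsi F e (mPhi E e w) = w := by
  funext j
  rw [mPsi_apply, mPhi_apply, Matrix.mulVec_sum, Finset.sum_eq_single j]
  · rw [mulVec_mulVec, d.FE, one_mulVec]
  · intro k hk hkj
    have h1 : (e j).2 ≠ (e k).2 := by
      intro h
      refine hkj (e.injective ?_)
      exact Prod.ext (Finset.mem_filter.1 hk).2 h.symm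
    rw [mulVec_mulVec, d.FE0 _ _ h1, zero_mulVec]
  · intro h
    exact absurd (show j ∈ Finset.univ.filter fun k => (e k).1 = (e j).1 from
      Finset.mem_filter.2 ⟨Finset.mem_univ _, rfl⟩) h

theorem Dec.tpsi_tphi (d : Dec Z Y E F) (u : ∀ j : Fin N, Fin (g (e j).2) → ℂ) :
    tPsi Y F e (tPhi Z E e u) = u := by
  have h1 : (tPsi Y F e) ∘ₗ (tPhi Z E e) - LinearMap.id = 0 := by
    refine eq_zero_of_per Y (fun j => (e j).2) _ fun w => ?_
    rw [LinearMap.sub_apply, LinearMap.comp_apply, LinearMap.id_apply, d.per_phi, d.per_psi,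
      d.psi_phi, sub_self]
  have h2 := congrArg (fun f => f u) h1
  exact sub_eq_zero.1 h2

theorem Dec.tphi_tpsi (d : Dec Z Y E F) (u : Fin n → Fin G → ℂ) :
    tPhi Z E e (tPsi Y F e u) = u := by
  have h1 : (tPhi Z E e) ∘ₗ (tPsi Y F e) - LinearMap.id = 0 := by
    refine eq_zero_of_per (fun _ : Unit => Z) (fun _ : Fin n => ()) _ fun w => ?_
    have h0 : perFam (fun _ : Unit => Z) (fun _ : Fin n => ()) w = perPow Z n w := rfl
    rw [LinearMap.sub_apply, LinearMap.comp_apply, LinearMap.id_apply, h0, d.per_psi, d.per_phi,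
      d.phi_psi, sub_self]
  have h2 := congrArg (fun f => f u) h1
  exact sub_eq_zero.1 h2

/-- The generalized Hodge conjecture for powers, from the one for products of the factors. -/
theorem Dec.ghc (d : Dec Z Y E F) {v : ℕ} (V : Coh v) {N' : ℕ → Submodule ℚ (Fin v → ℚ)}
    (H : ∀ (m : ℕ) (t : Fin m → ι), GHCProduct (perFam Y t) V N') (n : ℕ) :
    GHCProduct (perPow Z n) V N' := by
  classical
  obtain ⟨e⟩ : Nonempty (Fin (Fintype.card (Fin n × ι)) ≃ Fin n × ι) :=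
    ⟨(Fintype.equivFin _).symm⟩
  exact ghcProduct_iso (mPsi F e) (tPsi Y F e) (d.per_psi e) (mPhi E e) (tPhi Z E e) (d.per_phi e)
    (d.phi_psi e) (d.tpsi_tphi e) (H _ fun j => (e j).2)

/-- **Abelian varieties with many derivations**: the factors outside of `R` have derivations which
vanish on all periods of the factors in `R`. -/
theorem main_der' {Z : ∀ i, Matrix (Fin (g i)) (Fin (g i)) ℂ} (hZ : ∀ i, (Z i)ᵀ = Z i)
    (hpos : ∀ i, (imM (Z i)).PosDef)
    (hs : ∀ i, IsSimpleAV (Z i)) {S : Type} [Fintype S] (δ : S → Derivation ℚ ℂ ℂ)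
    (hinj : Function.Injective (LinearMap.pi fun i => derL Z δ i)) :
    ∃ R : Finset ι, (∀ ρ : ℕ, (∑ i, g i) ^ 2 < 4 * Fintype.card S →
        (ρ + 1) ^ 2 + 2 * (∑ i, g i - ρ - 1) * (∑ i, g i - ρ) < 4 * Fintype.card S →
        ∑ i ∈ R, g i ≤ ρ) ∧
      ∀ i, i ∉ R → HasPcs (DZ (Z i)) ∧ ∃ u, (∀ j ∈ R, derL Z δ j u = 0) ∧ derL Z δ i u ≠ 0 := by
  classical
  have hWA : ∀ i, LinearMap.range (derL Z δ i) ≤ WA (Z i) := by
    rintro i _ ⟨c, rfl⟩
    rw [derL_apply]
    exact Submodule.sum_mem _ fun a _ => Submodule.smul_mem _ _ (der_mem (hZ i) (hpos i) (δ a))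
  have hrank : Fintype.card S ≤
      finrank ℂ (LinearMap.range (LinearMap.pi fun i => derL Z δ i)) := by
    rw [LinearMap.finrank_range_of_inj hinj, Module.finrank_fintype_fun_eq_card]
  let Mv : ι → Prop := fun i => RealCentre (Z i) ∧
    (g i - 1) ^ 2 < 8 * finrank ℂ (LinearMap.range (derL Z δ i))
  let R : Finset ι := Finset.univ.filter fun i => Rt (fun i => derL Z δ i) Mv i
  have hR : ∀ i, i ∈ R ↔ Rt (fun i => derL Z δ i) Mv i := fun i => by simp [R]
  have hpcs : ∀ i, Mv i → HasPcs (DZ (Z i)) := by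
      rintro i ⟨hr, hd⟩
      refine hasPcs_of_real (hZ i) (hpos i) (hs i) ?_ hr
      have h1 : finrank ℂ (LinearMap.range (derL Z δ i)) ≤ finrank ℂ (WA (Z i)) :=
        Submodule.finrank_mono (hWA i)
      have h3 := sym_bound (LinearMap.range (derL Z δ i)) (by
        rintro _ ⟨u, rfl⟩
        exact (hWA i ⟨u, rfl⟩).1)
      rw [Fintype.card_fin] at h3
      have h4 : g i ≠ 0 := by
        intro h
        have h5 : g i * (g i + 1) = 0 := Nat.mul_eq_zero.2 (Or.inl h)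
        omega
      have h2 : g i ^ 2 + 1 ≤ (g i - 1) ^ 2 + 2 * g i := by
        obtain ⟨a, ha⟩ : ∃ a, g i = a + 1 := ⟨g i - 1, by omega⟩
        rw [ha, Nat.add_sub_cancel]
        exact le_of_eq (by ring)
      omega
  refine ⟨R, fun ρ h1 h2 => ?_, fun i hi => ?_⟩
  swap
  · rw [hR] at hi
    unfold Rt at hi
    push Not at hi
    obtain ⟨u, hu, hne⟩ := hi
    refine ⟨hpcs i ?_, u, fun j hj => (hR j).1 hj u hu, hne⟩
    by_contra hM
    exact hne (hu i hM)
  have h3 := bound_pt (L := fun i => derL Z δ i) (Mv := Mv) (D := Fintype.card S) (ρ := ρ)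
    (w := fun _ => 1) ?_ ?_ hrank (fun _ => le_rfl) (by simpa using h1) (by simpa using h2) hR
  · simpa using h3
  · intro i u
    exact (hWA i ⟨u, rfl⟩).1
  · intro i hi
    exact few_pt (hZ i) (hpos i) (hs i) (hWA i) hi

/-- The blocks of a block diagonal period matrix. -/
theorem dec_big {Y : ∀ i, Matrix (Fin (g i)) (Fin (g i)) ℂ} (hY : ∀ i, (Y i)ᵀ = Y i)
    (hpos : ∀ i, (imM (Y i)).PosDef) (hs : ∀ i, IsSimpleAV (Y i)) (hg : ∀ i, 0 < g i) :
    Dec (bigD ℂ Y) Y (fun i => (pm g ℚ i)ᵀ) (fun i => pm g ℚ i) where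
  symm := bigD_symm hY
  pos := imM_bigD_posDef Y hpos
  symmY := hY
  posY := hpos
  simple := hs
  FE i := pm_same ℚ i
  FE0 i j h := pm_off ℚ h
  tot := pm_tot ℚ
  EJ i := by
    have h1 : cK ℝ (pm g ℚ i)ᵀ = (pm g ℝ i)ᵀ := by
      have h2 : cK ℝ (pm g ℚ i)ᵀ = (cK ℝ (pm g ℚ i))ᵀ := rfl
      rw [h2, cK_pm]
    rw [h1, ← JR_pmT Y hpos]
  gpos := hg

/-- The kernel of a derivation contains the field generated by subsets of the kernel. -/
theorem der_periodField {K : Subfield ℂ} {r : ℕ} {Z : Matrix (Fin r) (Fin r) ℂ}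
    (δ : Derivation ℚ ℂ ℂ) (hK : ∀ x ∈ K, δ x = 0) (hZ : Z.map δ = 0) :
    ∀ x ∈ periodField K Z, δ x = 0 := by
  intro x hx
  unfold periodField at hx
  induction hx using Subfield.closure_induction with
  | mem x hx =>
    rcases hx with hx | ⟨p, rfl⟩
    · exact hK x hx
    · exact congrFun (congrFun hZ p.1) p.2
  | one => exact δ.map_one_eq_zero
  | add x y _ _ hx hy => rw [map_add, hx, hy, add_zero]
  | neg x _ hx => rw [map_neg, hx, neg_zero]
  | inv x _ hx =>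
    by_cases h0 : x = 0
    · rw [h0, _root_.inv_zero, map_zero]
    have h1 : δ (x * x⁻¹) = 0 := by rw [mul_inv_cancel₀ h0]; exact δ.map_one_eq_zero
    rw [Derivation.leibniz, hx, smul_zero, add_zero, smul_eq_mul] at h1
    exact (mul_eq_zero.1 h1).resolve_left h0
  | mul x y _ _ hx hy => rw [Derivation.leibniz, hx, hy, smul_zero, smul_zero, add_zero]

/-- The isogeny to the product of two complementary sets of factors. -/
theorem Dec.isogenous (d : Dec Z Y E F) (R : Finset ι) :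
    IsIsogenousToProduct Z (bigD ℂ fun i : {i // i ∉ R} => Y i.1)
      (bigD ℂ fun i : {i // i ∈ R} => Y i.1) := by
  classical
  have hp₁ : ∀ i : {i // i ∉ R}, (imM (Y i.1)).PosDef := fun i => d.posY i.1
  have hp₂ : ∀ i : {i // i ∈ R}, (imM (Y i.1)).PosDef := fun i => d.posY i.1
  have d₁ := dec_big (Y := fun i : {i // i ∉ R} => Y i.1) (fun i => d.symmY i.1) hp₁
    (fun i => d.simple i.1) (fun i => d.gpos i.1)
  have d₂ := dec_big (Y := fun i : {i // i ∈ R} => Y i.1) (fun i => d.symmY i.1) hp₂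
    (fun i => d.simple i.1) (fun i => d.gpos i.1)
  let g₁ : {i // i ∉ R} → ℕ := fun i => g i.1
  let g₂ : {i // i ∈ R} → ℕ := fun i => g i.1
  let A₁ : Matrix (Fin (NB g₁) ⊕ Fin (NB g₁)) (Fin G ⊕ Fin G) ℚ :=
    ∑ i : {i // i ∉ R}, (pm g₁ ℚ i)ᵀ * F i.1
  let A₂ : Matrix (Fin (NB g₂) ⊕ Fin (NB g₂)) (Fin G ⊕ Fin G) ℚ :=
    ∑ i : {i // i ∈ R}, (pm g₂ ℚ i)ᵀ * F i.1
  let B₁ : Matrix (Fin G ⊕ Fin G) (Fin (NB g₁) ⊕ Fin (NB g₁)) ℚ :=
    ∑ i : {i // i ∉ R}, E i.1 * pm g₁ ℚ i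
  let B₂ : Matrix (Fin G ⊕ Fin G) (Fin (NB g₂) ⊕ Fin (NB g₂)) ℚ :=
    ∑ i : {i // i ∈ R}, E i.1 * pm g₂ ℚ i
  have h11 : A₁ * B₁ = 1 := by
    have h1 : A₁ * B₁ = ∑ i : {i // i ∉ R}, (pm g₁ ℚ i)ᵀ * pm g₁ ℚ i := by
      simp only [A₁, B₁]
      rw [Matrix.sum_mul]
      refine Finset.sum_congr rfl fun i _ => ?_
      rw [Matrix.mul_sum, Finset.sum_eq_single i]
      · rw [Matrix.mul_assoc, ← Matrix.mul_assoc (F i.1), d.FE, Matrix.one_mul]
      · intro j _ hj
        rw [Matrix.mul_assoc, ← Matrix.mul_assoc (F i.1),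
          d.FE0 i.1 j.1 (fun h => hj (Subtype.ext h.symm)), Matrix.zero_mul, Matrix.mul_zero]
      · intro h
        exact absurd (Finset.mem_univ _) h
    rw [h1, pm_tot]
  have h22 : A₂ * B₂ = 1 := by
    have h1 : A₂ * B₂ = ∑ i : {i // i ∈ R}, (pm g₂ ℚ i)ᵀ * pm g₂ ℚ i := by
      simp only [A₂, B₂]
      rw [Matrix.sum_mul]
      refine Finset.sum_congr rfl fun i _ => ?_
      rw [Matrix.mul_sum, Finset.sum_eq_single i]
      · rw [Matrix.mul_assoc, ← Matrix.mul_assoc (F i.1), d.FE, Matrix.one_mul]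
      · intro j _ hj
        rw [Matrix.mul_assoc, ← Matrix.mul_assoc (F i.1),
          d.FE0 i.1 j.1 (fun h => hj (Subtype.ext h.symm)), Matrix.zero_mul, Matrix.mul_zero]
      · intro h
        exact absurd (Finset.mem_univ _) h
    rw [h1, pm_tot]
  have h12 : A₁ * B₂ = 0 := by
    simp only [A₁, B₂]
    rw [Matrix.sum_mul]
    refine Finset.sum_eq_zero fun i _ => ?_
    rw [Matrix.mul_sum]
    refine Finset.sum_eq_zero fun j _ => ?_
    rw [Matrix.mul_assoc, ← Matrix.mul_assoc (F i.1),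
      d.FE0 i.1 j.1 (fun h => i.2 (by rw [h]; exact j.2)), Matrix.zero_mul, Matrix.mul_zero]
  have h21 : A₂ * B₁ = 0 := by
    simp only [A₂, B₁]
    rw [Matrix.sum_mul]
    refine Finset.sum_eq_zero fun i _ => ?_
    rw [Matrix.mul_sum]
    refine Finset.sum_eq_zero fun j _ => ?_
    rw [Matrix.mul_assoc, ← Matrix.mul_assoc (F i.1),
      d.FE0 i.1 j.1 (fun h => j.2 (by rw [← h]; exact i.2)), Matrix.zero_mul, Matrix.mul_zero]
  have htot : B₁ * A₁ + B₂ * A₂ = 1 := by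
    have h1 : B₁ * A₁ = ∑ i : {i // i ∉ R}, E i.1 * F i.1 := by
      simp only [A₁, B₁]
      rw [Matrix.sum_mul]
      refine Finset.sum_congr rfl fun i _ => ?_
      rw [Matrix.mul_sum, Finset.sum_eq_single i]
      · rw [Matrix.mul_assoc, ← Matrix.mul_assoc (pm g₁ ℚ i), pm_same, Matrix.one_mul]
      · intro j _ hj
        rw [Matrix.mul_assoc, ← Matrix.mul_assoc (pm g₁ ℚ i),
          pm_off ℚ (Ne.symm hj), Matrix.zero_mul, Matrix.mul_zero]
      · intro h
        exact absurd (Finset.mem_univ _) h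
    have h2 : B₂ * A₂ = ∑ i : {i // i ∈ R}, E i.1 * F i.1 := by
      simp only [A₂, B₂]
      rw [Matrix.sum_mul]
      refine Finset.sum_congr rfl fun i _ => ?_
      rw [Matrix.mul_sum, Finset.sum_eq_single i]
      · rw [Matrix.mul_assoc, ← Matrix.mul_assoc (pm g₂ ℚ i), pm_same, Matrix.one_mul]
      · intro j _ hj
        rw [Matrix.mul_assoc, ← Matrix.mul_assoc (pm g₂ ℚ i),
          pm_off ℚ (Ne.symm hj), Matrix.zero_mul, Matrix.mul_zero]
      · intro h
        exact absurd (Finset.mem_univ _) h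
    have h3 : ∑ i : {i // i ∉ R}, E i.1 * F i.1 = ∑ i ∈ Rᶜ, E i * F i :=
      (Finset.sum_subtype Rᶜ (by simp) fun i => E i * F i).symm
    have h4 : ∑ i : {i // i ∈ R}, E i.1 * F i.1 = ∑ i ∈ R, E i * F i :=
      Finset.sum_coe_sort R fun i => E i * F i
    rw [h1, h2, h3, h4, ← d.tot]
    exact Finset.sum_compl_add_sum R _
  refine ⟨{
    toFun := fun w => (A₁ *ᵥ w, A₂ *ᵥ w)
    map_add' := fun v w => by rw [mulVec_add, mulVec_add]; rfl
    map_smul' := fun c w => by rw [mulVec_smul, mulVec_smul]; rfl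
    invFun := fun p => B₁ *ᵥ p.1 + B₂ *ᵥ p.2
    left_inv := fun w => by
      change B₁ *ᵥ (A₁ *ᵥ w) + B₂ *ᵥ (A₂ *ᵥ w) = w
      rw [mulVec_mulVec, mulVec_mulVec, ← add_mulVec, htot, one_mulVec]
    right_inv := fun p => by
      change (A₁ *ᵥ (B₁ *ᵥ p.1 + B₂ *ᵥ p.2), A₂ *ᵥ (B₁ *ᵥ p.1 + B₂ *ᵥ p.2)) = p
      rw [mulVec_add, mulVec_add, mulVec_mulVec, mulVec_mulVec, mulVec_mulVec, mulVec_mulVec,
        h11, h12, h21, h22, one_mulVec, one_mulVec, zero_mulVec, zero_mulVec, add_zero, zero_add] },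
    (∑ i : {i // i ∉ R}, Matrix.mulVecLin (TM (bigD ℂ fun i : {i // i ∉ R} => Y i.1)
      (pm g₁ ℚ i)ᵀ * TM (Y i.1) (F i.1))).prod
    (∑ i : {i // i ∈ R}, Matrix.mulVecLin (TM (bigD ℂ fun i : {i // i ∈ R} => Y i.1)
      (pm g₂ ℚ i)ᵀ * TM (Y i.1) (F i.1))), fun w => ?_⟩
  refine Prod.ext ?_ ?_
  · change (∑ i : {i // i ∉ R}, Matrix.mulVecLin (TM (bigD ℂ fun i : {i // i ∉ R} => Y i.1)
      (pm g₁ ℚ i)ᵀ * TM (Y i.1) (F i.1))) (perOne Z w) =
      perOne (bigD ℂ fun i : {i // i ∉ R} => Y i.1) (A₁ *ᵥ w)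
    simp only [A₁]
    rw [LinearMap.sum_apply, Matrix.sum_mulVec, map_sum]
    refine Finset.sum_congr rfl fun i _ => ?_
    rw [mulVecLin_apply, ← mulVec_mulVec, ← TM_perOne d.unit (d.unitY i.1) (d.FJ i.1) w,
      ← mulVec_mulVec]
    exact (TM_perOne (d₁.unitY i) d₁.unit (d₁.EJ i).symm _).symm
  · change (∑ i : {i // i ∈ R}, Matrix.mulVecLin (TM (bigD ℂ fun i : {i // i ∈ R} => Y i.1)
      (pm g₂ ℚ i)ᵀ * TM (Y i.1) (F i.1))) (perOne Z w) =
      perOne (bigD ℂ fun i : {i // i ∈ R} => Y i.1) (A₂ *ᵥ w)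
    simp only [A₂]
    rw [LinearMap.sum_apply, Matrix.sum_mulVec, map_sum]
    refine Finset.sum_congr rfl fun i _ => ?_
    rw [mulVecLin_apply, ← mulVec_mulVec, ← TM_perOne d.unit (d.unitY i.1) (d.FJ i.1) w,
      ← mulVec_mulVec]
    exact (TM_perOne (d₂.unitY i) d₂.unit (d₂.EJ i).symm _).symm

/-- The transfer of the generalized Hodge conjecture. -/
theorem Dec.transfers (d : Dec Z Y E F) (hp : ∀ i, HasPcs (DZ (Y i))) {v : ℕ} (V : Coh v)
    (hV : IsOfCMType V ∨ ∀ i, ∃ δ : Derivation ℚ ℂ ℂ, Raises V δ ∧ (Y i).map δ ≠ 0) :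
    TransfersGHC Z V := by
  intro N hN n
  refine d.ghc V (fun m t => ghc_rel Y d.symmY d.posY hp t V ?_ hN) n
  rcases hV with hV | hV
  · exact (polOf (bigD_symm d.symmY) (imM_bigD_posDef Y d.posY)).indep_cm
      (simp_prod Y d.symmY d.posY hp) hV
  · exact indep_of_raises d.symmY d.posY hp d.simple V hV

/-- **The generalized Hodge conjecture for abelian varieties with many independent periods.** -/
theorem ghc_periods {g : ℕ} (Z : Matrix (Fin g) (Fin g) ℂ) (hZ : Zᵀ = Z) (hpos : (imM Z).PosDef)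
    (K : Subfield ℂ) {D : ℕ} (p : Fin D → Fin g × Fin g)
    (hp : AlgebraicIndependent K fun s => Z (p s).1 (p s).2) :
    ∃ (b r : ℕ) (Z₁ : Matrix (Fin b) (Fin b) ℂ) (Z₂ : Matrix (Fin r) (Fin r) ℂ),
      IsPeriodMatrix Z₁ ∧ IsPeriodMatrix Z₂ ∧ IsIsogenousToProduct Z Z₁ Z₂ ∧ b + r = g ∧
      SmallQuotient g D r ∧
      (∀ (v : ℕ) (V : Coh v), IsOfCMType V ∨ HasFiltrationOver (periodField K Z₂) V →
        TransfersGHC Z₁ V) ∧
      (r = 0 → ∀ (v : ℕ) (V : Coh v), IsOfCMType V ∨ HasFiltrationOver K V →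
        TransfersGHC Z V) := by
  classical
  obtain ⟨ι, hι, hι', d, Y, E, F, h1, h2, h3, h4, h5, h6, h7, h8⟩ := decomposes g g Z le_rfl hZ hpos
  have hd : Dec Z Y E F := ⟨hZ, hpos, h1, h2, h3, h4, h5, h6, h7, h8⟩
  choose δ hδK hδ using fun s : Fin D => exists_derivationK hp (fun t => if t = s then (1 : ℂ) else 0)
  have hinj : Function.Injective (LinearMap.pi fun i => derL Y δ i) := by
    rw [← LinearMap.ker_eq_bot, LinearMap.ker_eq_bot']
    intro c hc
    have h9 : ∀ i, (Y i).map (comb δ c) = 0 := by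
      intro i
      rw [map_comb]
      exact congrFun hc i
    have h10 := map_der_eq_zero hd.unit hd.unitY hd.tot (fun i => (hd.EJ i).symm) hd.FJ _ h9
    funext t
    have h11 := congrFun (congrFun h10 (p t).1) (p t).2
    rw [Matrix.map_apply, comb_apply, Finset.sum_eq_single t] at h11
    · rw [hδ t t, if_pos rfl, mul_one] at h11
      exact h11
    · intro s _ hs
      rw [hδ s t, if_neg (Ne.symm hs), mul_zero]
    · intro h
      exact absurd (Finset.mem_univ _) h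
  obtain ⟨R, hR1, hR4⟩ := main_der' h1 h2 h3 δ hinj
  have hcombK : ∀ (u : Fin D → ℂ), ∀ x ∈ K, comb δ u x = 0 := by
    intro u x hx
    rw [comb_apply]
    refine Finset.sum_eq_zero fun s _ => ?_
    have h9 : δ s x = 0 := hδK s ⟨x, hx⟩
    rw [h9, mul_zero]
  have hr : NB (fun i : {i // i ∈ R} => d i.1) = ∑ i ∈ R, d i := by
    unfold NB
    rw [Fintype.card_sigma]
    simp only [Fintype.card_fin]
    exact Finset.sum_coe_sort R d
  have hb : NB (fun i : {i // i ∉ R} => d i.1) + NB (fun i : {i // i ∈ R} => d i.1) = g := by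
    have h9 : NB (fun i : {i // i ∉ R} => d i.1) = ∑ i ∈ Rᶜ, d i := by
      unfold NB
      rw [Fintype.card_sigma]
      simp only [Fintype.card_fin]
      exact (Finset.sum_subtype Rᶜ (by simp) d).symm
    rw [h9, hr, Finset.sum_compl_add_sum, hd.sum_g]
  refine ⟨NB (fun i : {i // i ∉ R} => d i.1), NB (fun i : {i // i ∈ R} => d i.1),
    bigD ℂ (fun i : {i // i ∉ R} => Y i.1), bigD ℂ (fun i : {i // i ∈ R} => Y i.1),
    ⟨bigD_symm fun i => h1 i.1, imM_bigD_posDef _ fun i => h2 i.1⟩,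
    ⟨bigD_symm fun i => h1 i.1, imM_bigD_posDef _ fun i => h2 i.1⟩, hd.isogenous R, hb, ?_, ?_, ?_⟩
  · intro ρ ha hb'
    rw [hr]
    have h9 := hR1 ρ
    rw [hd.sum_g, Fintype.card_fin] at h9
    exact h9 ha hb'
  · intro v V hV
    refine (dec_big (Y := fun i : {i // i ∉ R} => Y i.1) (fun i => h1 i.1) (fun i => h2 i.1)
      (fun i => h3 i.1) (fun i => h8 i.1)).transfers (fun i => (hR4 i.1 i.2).1) V
      (hV.imp_right fun hV i => ?_)
    obtain ⟨-, u, hu0, hu⟩ := hR4 i.1 i.2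
    refine ⟨comb δ u, raises_of_filtration hV _ (der_periodField _ (hcombK u) ?_), ?_⟩
    · rw [deriv_big]
      have h9 : (fun i : {i // i ∈ R} => (Y i.1).map (comb δ u)) = fun _ => 0 := by
        funext j
        rw [map_comb]
        exact hu0 j.1 j.2
      rw [h9]
      unfold bigD
      simp
    · rw [map_comb]
      exact hu
  · intro hr0 v V hV
    have hR : R = ∅ := by
      rw [Finset.eq_empty_iff_forall_notMem]
      intro i hi
      have h9 := (Finset.sum_eq_zero_iff.1 (hr.symm.trans hr0)) i hi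
      have h10 := h8 i
      omega
    subst hR
    refine hd.transfers (fun i => (hR4 i (Finset.notMem_empty i)).1) V
      (hV.imp_right fun hV i => ?_)
    obtain ⟨-, u, -, hu⟩ := hR4 i (Finset.notMem_empty i)
    exact ⟨comb δ u, raises_of_filtration hV _ (hcombK u), by rw [map_comb]; exact hu⟩

end

end Pool.Agent.X311
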