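import Mathlib

/-!
# Invariant tensors of a form and of its inverse are in perfect duality
-/

set_option autoImplicit false
set_option linter.unusedSectionVars false

namespace Pool.Agent.X311.Nd

open Matrix

noncomputable section

variable {n : ℕ}

theorem exists_N {Q : Matrix (Fin n) (Fin n) ℝ} {ε : ℝ} (hQ : Q.transpose = ε • Q)
    (hdet : Q.det ≠ 0) : ∃ N : Matrix (Fin n) (Fin n) ℝ, N.det ≠ 0 ∧
      (N.transpose * N) * Q⁻¹ * (N.transpose * N) = ε • Q := by
  have hu : IsUnit Q := (Matrix.isUnit_iff_isUnit_det Q).2 (isUnit_iff_ne_zero.2 hdet)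
  have hS : (Q.conjTranspose * Q).PosDef := by
    refine Matrix.PosDef.conjTranspose_mul_self Q ?_
    exact Matrix.mulVec_injective_of_isUnit hu
  obtain ⟨U, hU⟩ : ∃ U : Matrix (Fin n) (Fin n) ℝ, U = (hS.1.eigenvectorUnitary : Matrix _ _ ℝ) :=
    ⟨_, rfl⟩
  obtain ⟨lam, hlam⟩ : ∃ lam : Fin n → ℝ, lam = hS.1.eigenvalues := ⟨_, rfl⟩
  have hpos : ∀ i, 0 < lam i := fun i => hlam ▸ hS.eigenvalues_pos i
  have h1 : U * U.transpose = 1 := by
    have h2 := (hS.1.eigenvectorUnitary).2.2
    rw [hU]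
    exact h2
  have h2 : U.transpose * U = 1 := mul_eq_one_comm.1 h1
  have hspec : Q.transpose * Q = U * diagonal lam * U.transpose := by
    have h3 := hS.1.spectral_theorem
    rw [Unitary.conjStarAlgAut_apply] at h3
    rw [hU, hlam]
    exact h3
  obtain ⟨H, hH⟩ : ∃ H : Matrix (Fin n) (Fin n) ℝ,
      H = U * diagonal (fun i => √(lam i)) * U.transpose := ⟨_, rfl⟩
  have hHH : H * H = Q.transpose * Q := by
    have h3 : diagonal (fun i => √(lam i)) * diagonal (fun i => √(lam i)) = diagonal lam := by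
      rw [diagonal_mul_diagonal]
      congr 1
      funext i
      exact Real.mul_self_sqrt (hpos i).le
    calc H * H = U * (diagonal (fun i => √(lam i)) * (U.transpose * U) *
        diagonal (fun i => √(lam i))) * U.transpose := by
          rw [hH]
          simp only [mul_assoc]
      _ = _ := by rw [h2, mul_one, h3, hspec]
  have hcomm : H * Q = Q * H := by
    obtain ⟨Q', hQ'⟩ : ∃ Q' : Matrix (Fin n) (Fin n) ℝ, Q' = U.transpose * Q * U := ⟨_, rfl⟩
    have h3 : diagonal lam * Q' = Q' * diagonal lam := by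
      have h4 : Q.transpose * Q * Q = Q * (Q.transpose * Q) := by
        rw [hQ, smul_mul_assoc, smul_mul_assoc, mul_smul_comm, mul_assoc]
      have h5 : diagonal lam = U.transpose * (Q.transpose * Q) * U := by
        rw [hspec]
        calc diagonal lam = (U.transpose * U) * diagonal lam * (U.transpose * U) := by
              rw [h2, one_mul, mul_one]
          _ = _ := by simp only [mul_assoc]
      calc diagonal lam * Q' = U.transpose * (Q.transpose * Q) * (U * U.transpose) * Q * U := by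
            rw [h5, hQ']
            simp only [mul_assoc]
        _ = U.transpose * (Q.transpose * Q * Q) * U := by
            rw [h1, mul_one]
            simp only [mul_assoc]
        _ = U.transpose * (Q * (Q.transpose * Q)) * U := by rw [h4]
        _ = U.transpose * Q * (U * U.transpose) * (Q.transpose * Q) * U := by
            rw [h1, mul_one]
            simp only [mul_assoc]
        _ = Q' * diagonal lam := by
            rw [h5, hQ']
            simp only [mul_assoc]
    have h6 : diagonal (fun i => √(lam i)) * Q' = Q' * diagonal (fun i => √(lam i)) := by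
      ext i j
      have h7 := congrFun (congrFun h3 i) j
      rw [diagonal_mul, mul_diagonal] at h7 ⊢
      by_cases h8 : Q' i j = 0
      · rw [h8, mul_zero, zero_mul]
      · have h9 : lam i = lam j := mul_right_cancel₀ h8 (by rw [h7, mul_comm])
        rw [h9, mul_comm]
    calc H * Q = U * (diagonal (fun i => √(lam i)) * (U.transpose * Q * U)) * U.transpose := by
          rw [hH]
          calc _ = U * diagonal (fun i => √(lam i)) * U.transpose * Q * (U * U.transpose) := by
                rw [h1, mul_one]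
            _ = _ := by simp only [mul_assoc]
      _ = U * (Q' * diagonal (fun i => √(lam i))) * U.transpose := by rw [← hQ', h6]
      _ = (U * U.transpose) * Q * (U * diagonal (fun i => √(lam i)) * U.transpose) := by
          rw [hQ']
          simp only [mul_assoc]
      _ = Q * H := by rw [h1, one_mul, hH]
  refine ⟨diagonal (fun i => √(√(lam i))) * U.transpose, ?_, ?_⟩
  · rw [det_mul, det_diagonal, det_transpose]
    refine mul_ne_zero (Finset.prod_ne_zero_iff.2 fun i _ => ?_) ?_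
    · exact (Real.sqrt_pos.2 (Real.sqrt_pos.2 (hpos i))).ne'
    · intro h0
      have h3 := congrArg Matrix.det h1
      rw [det_mul, h0, zero_mul, det_one] at h3
      exact zero_ne_one h3
  · have h3 : (diagonal (fun i => √(√(lam i))) * U.transpose).transpose *
        (diagonal (fun i => √(√(lam i))) * U.transpose) = H := by
      rw [transpose_mul, transpose_transpose, diagonal_transpose, hH]
      have h4 : diagonal (fun i => √(√(lam i))) * diagonal (fun i => √(√(lam i))) =
          diagonal (fun i => √(lam i)) := by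
        rw [diagonal_mul_diagonal]
        congr 1
        funext i
        exact Real.mul_self_sqrt (Real.sqrt_nonneg _)
      rw [← h4]
      simp only [mul_assoc]
    rw [h3]
    have h4 : Q⁻¹ * Q = 1 := nonsing_inv_mul _ (isUnit_iff_ne_zero.2 hdet)
    have h5 : Q * Q⁻¹ = 1 := mul_nonsing_inv _ (isUnit_iff_ne_zero.2 hdet)
    have h6 : H * Q⁻¹ = Q⁻¹ * H := by
      calc H * Q⁻¹ = Q⁻¹ * (Q * H) * Q⁻¹ := by rw [← mul_assoc, h4, one_mul]
        _ = Q⁻¹ * (H * Q) * Q⁻¹ := by rw [hcomm]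
        _ = Q⁻¹ * H * (Q * Q⁻¹) := by simp only [mul_assoc]
        _ = Q⁻¹ * H := by rw [h5, mul_one]
    rw [h6, mul_assoc, hHH, hQ, smul_mul_assoc, mul_smul_comm, ← mul_assoc, h4, one_mul]

/-! ### The action on tensors -/

section tensors

variable {ι X 𝕜 : Type*} [Fintype ι] [DecidableEq ι] [Fintype X] [DecidableEq X] [CommRing 𝕜]

/-- the action of a matrix on the tensors -/
def tp (A : Matrix X X 𝕜) (w : (ι → X) → 𝕜) : (ι → X) → 𝕜 :=
  fun J => ∑ I, (∏ j, A (J j) (I j)) * w I

theorem tp_mul (A B : Matrix X X 𝕜) (w : (ι → X) → 𝕜) : tp A (tp B w) = tp (A * B) w := by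
  funext J
  unfold tp
  have h1 : ∀ H : ι → X, ∏ j, (A * B) (J j) (H j) =
      ∑ I : ι → X, ∏ j, (A (J j) (I j) * B (I j) (H j)) := by
    intro H
    simp only [mul_apply]
    rw [Finset.prod_univ_sum, Fintype.piFinset_univ]
  calc ∑ I : ι → X, (∏ j, A (J j) (I j)) * ∑ H : ι → X, (∏ j, B (I j) (H j)) * w H
      = ∑ I : ι → X, ∑ H : ι → X, (∏ j, (A (J j) (I j) * B (I j) (H j))) * w H := by
        refine Finset.sum_congr rfl fun I _ => ?_
        rw [Finset.mul_sum]
        refine Finset.sum_congr rfl fun H _ => ?_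
        rw [Finset.prod_mul_distrib]
        ring
    _ = ∑ H : ι → X, ∑ I : ι → X, (∏ j, (A (J j) (I j) * B (I j) (H j))) * w H :=
        Finset.sum_comm
    _ = _ := by
        refine Finset.sum_congr rfl fun H _ => ?_
        rw [h1, Finset.sum_mul]

theorem tp_one (w : (ι → X) → 𝕜) : tp 1 w = w := by
  funext J
  unfold tp
  rw [Finset.sum_eq_single J]
  · simp
  · intro I _ hI
    have h1 : ∃ j, J j ≠ I j := by
      by_contra hn
      push Not at hn
      exact hI (funext fun j => (hn j).symm)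
    obtain ⟨j, hj⟩ := h1
    have h2 : ∏ j, (1 : Matrix X X 𝕜) (J j) (I j) = 0 :=
      Finset.prod_eq_zero (Finset.mem_univ j) (one_apply_ne hj)
    rw [h2, zero_mul]
  · intro h
    exact absurd (Finset.mem_univ J) h

theorem tp_adj (A : Matrix X X 𝕜) (w w' : (ι → X) → 𝕜) :
    ∑ J, w J * tp A.transpose w' J = ∑ J, tp A w J * w' J := by
  unfold tp
  calc ∑ J : ι → X, w J * ∑ I : ι → X, (∏ j, A.transpose (J j) (I j)) * w' I
      = ∑ J : ι → X, ∑ I : ι → X, w J * ((∏ j, A (I j) (J j)) * w' I) := by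
        refine Finset.sum_congr rfl fun J _ => ?_
        rw [Finset.mul_sum]
        rfl
    _ = ∑ I : ι → X, ∑ J : ι → X, w J * ((∏ j, A (I j) (J j)) * w' I) := Finset.sum_comm
    _ = _ := by
        refine Finset.sum_congr rfl fun I _ => ?_
        rw [Finset.sum_mul]
        refine Finset.sum_congr rfl fun J _ => ?_
        ring

theorem tp_pos {N : Matrix X X ℝ} (hN : N.det ≠ 0) {w : (ι → X) → ℝ}
    (h : ∑ J, w J * tp (N.transpose * N) w J = 0) : w = 0 := by
  rw [← tp_mul, tp_adj] at h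
  have h1 : ∀ J, tp N w J * tp N w J = 0 := by
    intro J
    exact (Finset.sum_eq_zero_iff_of_nonneg fun J _ => mul_self_nonneg (tp N w J)).1 h J
      (Finset.mem_univ J)
  have h2 : tp N w = 0 := by
    funext J
    exact mul_self_eq_zero.1 (h1 J)
  have h3 : tp N⁻¹ (tp N w) = w := by
    rw [tp_mul, nonsing_inv_mul _ (isUnit_iff_ne_zero.2 hN), tp_one]
  rw [← h3, h2]
  funext J
  unfold tp
  simp

theorem tp_add (A : Matrix X X 𝕜) (w w' : (ι → X) → 𝕜) : tp A (w + w') = tp A w + tp A w' := by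
  funext J
  unfold tp
  simp only [Pi.add_apply, mul_add, Finset.sum_add_distrib]

theorem tp_smul (A : Matrix X X 𝕜) (c : 𝕜) (w : (ι → X) → 𝕜) : tp A (c • w) = c • tp A w := by
  funext J
  unfold tp
  simp only [Pi.smul_apply, smul_eq_mul, Finset.mul_sum]
  refine Finset.sum_congr rfl fun I _ => ?_
  ring

/-- the product of vectors and of matrices on pairs of factors -/
def pm {a b : ℕ} (e : Fin a ⊕ (Fin b × Fin 2) ≃ ι) (ν : Fin a → X → 𝕜) (R : Matrix X X 𝕜) :
    (ι → X) → 𝕜 :=
  fun J => (∏ i, ν i (J (e (Sum.inl i)))) * ∏ i, R (J (e (Sum.inr (i, 0)))) (J (e (Sum.inr (i, 1))))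

theorem tp_pm {a b : ℕ} (A : Matrix X X 𝕜) (e : Fin a ⊕ (Fin b × Fin 2) ≃ ι)
    (ν : Fin a → X → 𝕜) (R : Matrix X X 𝕜) :
    tp A (pm e ν R) = pm e (fun i => A *ᵥ ν i) (A * R * A.transpose) := by
  funext J
  unfold tp pm
  have h0 : ∀ f : ι → 𝕜, ∏ j, f j = (∏ i, f (e (Sum.inl i))) *
      ∏ i, (f (e (Sum.inr (i, 0))) * f (e (Sum.inr (i, 1)))) := by
    intro f
    rw [← Equiv.prod_comp e f, Fintype.prod_sum_type, Fintype.prod_prod_type]
    congr 1
    refine Finset.prod_congr rfl fun i _ => ?_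
    rw [Fin.prod_univ_two]
  let E : (ι → X) ≃ (Fin a → X) × (Fin b → Fin 2 → X) :=
    (e.arrowCongr (Equiv.refl X)).symm.trans ((Equiv.sumArrowEquivProdArrow _ _ _).trans
      ((Equiv.refl _).prodCongr (Equiv.curry _ _ _)))
  have hE1 : ∀ (p : (Fin a → X) × (Fin b → Fin 2 → X)) i, E.symm p (e (Sum.inl i)) = p.1 i := by
    intro p i
    have : E.symm p (e (Sum.inl i)) = (E (E.symm p)).1 i := rfl
    rw [this, Equiv.apply_symm_apply]
  have hE2 : ∀ (p : (Fin a → X) × (Fin b → Fin 2 → X)) i k,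
      E.symm p (e (Sum.inr (i, k))) = p.2 i k := by
    intro p i k
    have : E.symm p (e (Sum.inr (i, k))) = (E (E.symm p)).2 i k := rfl
    rw [this, Equiv.apply_symm_apply]
  rw [← Equiv.sum_comp E.symm, Fintype.sum_prod_type]
  have h1 : ∀ (x : Fin a → X) (y : Fin b → Fin 2 → X),
      (∏ j, A (J j) (E.symm (x, y) j)) * ((∏ i, ν i (E.symm (x, y) (e (Sum.inl i)))) *
        ∏ i, R (E.symm (x, y) (e (Sum.inr (i, 0)))) (E.symm (x, y) (e (Sum.inr (i, 1))))) =
      (∏ i, (A (J (e (Sum.inl i))) (x i) * ν i (x i))) *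
        ∏ i, (A (J (e (Sum.inr (i, 0)))) (y i 0) * A (J (e (Sum.inr (i, 1)))) (y i 1) *
          R (y i 0) (y i 1)) := by
    intro x y
    rw [h0]
    simp only [hE1, hE2, Finset.prod_mul_distrib]
    ring
  simp only [h1]
  have h2 : ∀ (f : Fin a → X → 𝕜), ∑ x : Fin a → X, ∏ i, f i (x i) = ∏ i, ∑ l, f i l := by
    intro f
    rw [Finset.prod_univ_sum, Fintype.piFinset_univ]
  have h3 : ∀ (f : Fin b → (Fin 2 → X) → 𝕜), ∑ x : Fin b → Fin 2 → X, ∏ i, f i (x i) =
      ∏ i, ∑ l, f i l := by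
    intro f
    rw [Finset.prod_univ_sum, Fintype.piFinset_univ]
  simp only [← Finset.mul_sum]
  rw [← Finset.sum_mul, h2 fun i l => A (J (e (Sum.inl i))) l * ν i l,
    h3 fun i l => A (J (e (Sum.inr (i, 0)))) (l 0) * A (J (e (Sum.inr (i, 1)))) (l 1) *
      R (l 0) (l 1)]
  congr 1
  refine Finset.prod_congr rfl fun i _ => ?_
  rw [← Equiv.sum_comp (finTwoArrowEquiv X).symm, Fintype.sum_prod_type]
  simp only [mul_apply, finTwoArrowEquiv_symm_apply, Matrix.cons_val_zero, Matrix.cons_val_one,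
    transpose_apply, Finset.sum_mul]
  rw [Finset.sum_comm]
  refine Finset.sum_congr rfl fun x _ => Finset.sum_congr rfl fun y _ => ?_
  ring

end tensors

/-! ### Nondegeneracy -/

section nondeg

variable {s m : ℕ}

/-- A product of vectors of `ℚ ^ s` and of the matrix `R` on pairs of factors. -/
def pc {n s m a b : ℕ} (R : Matrix (Fin n) (Fin n) ℚ) (e : Fin a ⊕ (Fin b × Fin 2) ≃ Fin m)
    (ν : Fin a → Fin s → ℚ) : (Fin m → Fin s ⊕ Fin n) → ℚ :=
  fun J => (∏ i, Sum.elim (ν i) (fun _ => 0) (J (e (Sum.inl i)))) *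
    ∏ i, fromBlocks 0 0 0 R (J (e (Sum.inr (i, 0)))) (J (e (Sum.inr (i, 1))))

theorem nondeg {Q : Matrix (Fin n) (Fin n) ℚ} {ε : ℚ} (hQ : Q.transpose = ε • Q)
    (hdet : Q.det ≠ 0) {w : (Fin m → Fin s ⊕ Fin n) → ℚ}
    (hw : w ∈ Submodule.span ℚ {w | ∃ (a b : ℕ) (e : Fin a ⊕ (Fin b × Fin 2) ≃ Fin m)
      (ν : Fin a → Fin s → ℚ), w = pc Q⁻¹ e ν})
    (h : ∀ (a b : ℕ) (e : Fin a ⊕ (Fin b × Fin 2) ≃ Fin m) (f : Fin a → Fin s → ℚ),
      ∑ J, pc Q e f J * w J = 0) : w = 0 := by
  classical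
  let Qr : Matrix (Fin n) (Fin n) ℝ := Q.map fun q : ℚ => (q : ℝ)
  have hQr : Qr.transpose = (ε : ℝ) • Qr := by
    ext i j
    have h1 := congrFun (congrFun hQ i) j
    simp only [transpose_apply, Matrix.smul_apply, smul_eq_mul] at h1
    simp only [Qr, transpose_apply, map_apply, Matrix.smul_apply, smul_eq_mul, h1]
    push_cast
    ring
  have hdetr : Qr.det ≠ 0 := by
    have h1 : Qr.det = ((Q.det : ℚ) : ℝ) := ((algebraMap ℚ ℝ).map_det Q).symm
    rw [h1]
    exact_mod_cast hdet
  have hinv : Qr⁻¹ = Q⁻¹.map fun q : ℚ => (q : ℝ) := by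
    refine inv_eq_right_inv ?_
    have h1 : Q * Q⁻¹ = 1 := mul_nonsing_inv _ (isUnit_iff_ne_zero.2 hdet)
    have h2 := congrArg (fun M : Matrix (Fin n) (Fin n) ℚ => M.map (algebraMap ℚ ℝ)) h1
    simp only [Matrix.map_mul] at h2
    refine h2.trans ?_
    exact Matrix.map_one _ (map_zero _) (map_one _)
  obtain ⟨N, hN, hNQ⟩ := exists_N hQr hdetr
  let N' : Matrix (Fin s ⊕ Fin n) (Fin s ⊕ Fin n) ℝ := fromBlocks 1 0 0 N
  have hN' : N'.det ≠ 0 := by
    show (fromBlocks 1 0 0 N).det ≠ 0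
    rw [det_fromBlocks_zero₂₁, det_one, one_mul]
    exact hN
  have key : ∀ w ∈ Submodule.span ℚ {w | ∃ (a b : ℕ) (e : Fin a ⊕ (Fin b × Fin 2) ≃ Fin m)
      (ν : Fin a → Fin s → ℚ), w = pc Q⁻¹ e ν},
      tp (N'.transpose * N') (fun J => ((w J : ℚ) : ℝ)) ∈ Submodule.span ℝ
      {u | ∃ (a b : ℕ) (e : Fin a ⊕ (Fin b × Fin 2) ≃ Fin m) (f : Fin a → Fin s → ℚ),
        u = fun J => (pc Q e f J : ℝ)} := by
    intro w hw
    have hA : N'.transpose * N' = fromBlocks 1 0 0 (N.transpose * N) := by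
      simp only [N', fromBlocks_transpose, fromBlocks_multiply, transpose_one, transpose_zero,
        Matrix.mul_zero, Matrix.zero_mul, Matrix.mul_one, add_zero, zero_add]
    rw [hA]
    induction hw using Submodule.span_induction with
    | mem w hw =>
      obtain ⟨a, b, e, ν, rfl⟩ := hw
      have h1 : (fun J => ((pc Q⁻¹ e ν J : ℚ) : ℝ)) =
          pm e (fun i l => ((Sum.elim (ν i) (fun _ => 0) l : ℚ) : ℝ)) (fromBlocks 0 0 0 Qr⁻¹) := by
        funext J
        have h2 : ∀ k l, (((fromBlocks 0 0 0 Q⁻¹ : Matrix (Fin s ⊕ Fin n) (Fin s ⊕ Fin n) ℚ)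
            k l : ℚ) : ℝ) = (fromBlocks 0 0 0 Qr⁻¹ : Matrix (Fin s ⊕ Fin n) (Fin s ⊕ Fin n) ℝ)
              k l := by
          rintro (k | k) (l | l) <;> simp [hinv]
        unfold pc pm
        push_cast
        simp only [h2]
      rw [h1, tp_pm]
      have h3 : (fun i => (fromBlocks 1 0 0 (N.transpose * N) :
          Matrix (Fin s ⊕ Fin n) (Fin s ⊕ Fin n) ℝ) *ᵥ
            fun l => ((Sum.elim (ν i) (fun _ => 0) l : ℚ) : ℝ)) =
          fun i l => ((Sum.elim (ν i) (fun _ => 0) l : ℚ) : ℝ) := by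
        funext i
        have h4 : (fun l => ((Sum.elim (ν i) (fun _ => 0) l : ℚ) : ℝ)) =
            Sum.elim (fun l => (ν i l : ℝ)) (0 : Fin n → ℝ) := by
          funext l
          rcases l with l | l <;> simp
        rw [h4, fromBlocks_mulVec]
        simp
      have h4 : (fromBlocks 1 0 0 (N.transpose * N) : Matrix (Fin s ⊕ Fin n) (Fin s ⊕ Fin n) ℝ) *
          fromBlocks 0 0 0 Qr⁻¹ * (fromBlocks 1 0 0 (N.transpose * N)).transpose =
          fromBlocks 0 0 0 ((ε : ℝ) • Qr) := by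
        simp only [fromBlocks_transpose, fromBlocks_multiply, transpose_one, transpose_zero,
          Matrix.mul_zero, Matrix.zero_mul, Matrix.mul_one, add_zero, zero_add, transpose_mul,
          transpose_transpose]
        rw [← hNQ]
      rw [h3, h4]
      have h5 : pm e (fun i l => ((Sum.elim (ν i) (fun _ => 0) l : ℚ) : ℝ))
          (fromBlocks 0 0 0 ((ε : ℝ) • Qr)) = ((ε : ℝ) ^ b) • fun J => (pc Q e ν J : ℝ) := by
        funext J
        have h2 : ∀ k l, (fromBlocks 0 0 0 ((ε : ℝ) • Qr) :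
            Matrix (Fin s ⊕ Fin n) (Fin s ⊕ Fin n) ℝ) k l = (ε : ℝ) *
            (((fromBlocks 0 0 0 Q : Matrix (Fin s ⊕ Fin n) (Fin s ⊕ Fin n) ℚ) k l : ℚ) : ℝ) := by
          rintro (k | k) (l | l) <;> simp [Qr]
        unfold pc pm
        simp only [Pi.smul_apply, smul_eq_mul, h2, Finset.prod_mul_distrib, Finset.prod_const,
          Finset.card_univ, Fintype.card_fin]
        push_cast
        ring
      rw [h5]
      exact Submodule.smul_mem _ _ (Submodule.subset_span ⟨a, b, e, ν, rfl⟩)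
    | zero =>
      have h1 : (fun J : Fin m → Fin s ⊕ Fin n => (((0 : (Fin m → Fin s ⊕ Fin n) → ℚ) J : ℚ) : ℝ)) =
          (0 : ℝ) • (fun _ => (0 : ℝ)) := by
        funext J
        simp
      rw [h1, tp_smul, zero_smul]
      exact Submodule.zero_mem _
    | add x y _ _ hx hy =>
      have h1 : (fun J : Fin m → Fin s ⊕ Fin n => (((x + y) J : ℚ) : ℝ)) =
          (fun J => (x J : ℝ)) + fun J => (y J : ℝ) := by
        funext J
        simp
      rw [h1, tp_add]
      exact Submodule.add_mem _ hx hy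
    | smul c x _ hx =>
      have h1 : (fun J : Fin m → Fin s ⊕ Fin n => (((c • x) J : ℚ) : ℝ)) =
          (c : ℝ) • fun J => (x J : ℝ) := by
        funext J
        simp
      rw [h1, tp_smul]
      exact Submodule.smul_mem _ _ hx
  have key2 : ∀ u ∈ Submodule.span ℝ
      {u : (Fin m → Fin s ⊕ Fin n) → ℝ | ∃ (a b : ℕ) (e : Fin a ⊕ (Fin b × Fin 2) ≃ Fin m)
        (f : Fin a → Fin s → ℚ), u = fun J => (pc Q e f J : ℝ)}, ∑ J, (w J : ℝ) * u J = 0 := by
    intro u hu
    induction hu using Submodule.span_induction with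
    | mem u hu =>
      obtain ⟨a, b, e, f, rfl⟩ := hu
      have h1 := h a b e f
      have h2 : ((∑ J, pc Q e f J * w J : ℚ) : ℝ) = 0 := by
        rw [h1]
        simp
      push_cast at h2
      rw [← h2]
      refine Finset.sum_congr rfl fun J _ => ?_
      ring
    | zero => simp
    | add x y _ _ hx hy =>
      simp only [Pi.add_apply, mul_add, Finset.sum_add_distrib, hx, hy, add_zero]
    | smul c x _ hx =>
      have h1 : ∀ J, (w J : ℝ) * (c • x) J = c * ((w J : ℝ) * x J) := by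
        intro J
        simp only [Pi.smul_apply, smul_eq_mul]
        ring
      simp only [h1, ← Finset.mul_sum, hx, mul_zero]
  have h1 := tp_pos hN' (key2 _ (key w hw))
  funext J
  have h2 : (w J : ℝ) = 0 := congrFun h1 J
  exact_mod_cast h2

/-- **The classes of a system.** If all contractions of a combination of products are in a subspace, the
coefficients can be taken in the subspace. -/
theorem mem_of_contractions {v : ℕ} {Q : Matrix (Fin n) (Fin n) ℚ} {ε : ℚ}
    (hQ : Q.transpose = ε • Q) (hdet : Q.det ≠ 0) (C : Submodule ℚ (Fin v → ℚ))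
    {t : (Fin m → Fin s ⊕ Fin n) → Fin v → ℚ}
    (ht : t ∈ Submodule.span ℚ {t | ∃ (a b : ℕ) (e : Fin a ⊕ (Fin b × Fin 2) ≃ Fin m)
      (ν : Fin a → Fin s → ℚ) (y : Fin v → ℚ), t = fun J b => pc Q⁻¹ e ν J * y b})
    (h : ∀ (a b : ℕ) (e : Fin a ⊕ (Fin b × Fin 2) ≃ Fin m) (f : Fin a → Fin s → ℚ),
      (fun d => ∑ J, pc Q e f J * t J d) ∈ C) :
    t ∈ Submodule.span ℚ {t | ∃ (a b : ℕ) (e : Fin a ⊕ (Fin b × Fin 2) ≃ Fin m)
      (ν : Fin a → Fin s → ℚ) (y : Fin v → ℚ), y ∈ C ∧ t = fun J b => pc Q⁻¹ e ν J * y b} := by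
  classical
  obtain ⟨π, hπ⟩ := LinearMap.exists_leftInverse_of_injective C.subtype (Submodule.ker_subtype C)
  let p : (Fin v → ℚ) →ₗ[ℚ] (Fin v → ℚ) := C.subtype ∘ₗ π
  have hp1 : ∀ y, p y ∈ C := fun y => (π y).2
  have hp2 : ∀ y ∈ C, p y = y := by
    intro y hy
    have h0 : π y = ⟨y, hy⟩ := LinearMap.congr_fun hπ ⟨y, hy⟩
    show ((π y : C) : Fin v → ℚ) = y
    rw [h0]
  -- all components are in `C`
  have h1 : ∀ J, t J ∈ C := by
    have h2 : ∀ lam : (Fin v → ℚ) →ₗ[ℚ] ℚ, (∀ y ∈ C, lam y = 0) → ∀ J, lam (t J) = 0 := by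
      intro lam hlam J
      have h3 : (fun J => lam (t J)) = 0 := by
        refine nondeg hQ hdet ?_ ?_
        · have h4 : t ∈ (Submodule.span ℚ {w | ∃ (a b : ℕ)
              (e : Fin a ⊕ (Fin b × Fin 2) ≃ Fin m) (ν : Fin a → Fin s → ℚ),
              w = pc Q⁻¹ e ν}).comap
                (LinearMap.compLeft lam (Fin m → Fin s ⊕ Fin n)) := by
            refine (Submodule.span_le.2 ?_) ht
            rintro _ ⟨a, b, e, ν, y, rfl⟩
            rw [SetLike.mem_coe, Submodule.mem_comap]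
            have h5 : LinearMap.compLeft lam (Fin m → Fin s ⊕ Fin n)
                (fun J b => pc Q⁻¹ e ν J * y b) = lam y • pc Q⁻¹ e ν := by
              funext J
              have h6 : (fun b => pc Q⁻¹ e ν J * y b) = pc Q⁻¹ e ν J • y := rfl
              show lam (fun b => pc Q⁻¹ e ν J * y b) = lam y * pc Q⁻¹ e ν J
              rw [h6, lam.map_smul, smul_eq_mul, mul_comm]
            rw [h5]
            exact Submodule.smul_mem _ _ (Submodule.subset_span ⟨a, b, e, ν, rfl⟩)
          exact h4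
        · intro a b e f
          have h4 := hlam _ (h a b e f)
          have h5 : (fun d => ∑ J, pc Q e f J * t J d) = ∑ J, pc Q e f J • t J := by
            funext d
            simp
          rw [h5, map_sum] at h4
          simp only [lam.map_smul, smul_eq_mul] at h4
          exact h4
      exact congrFun h3 J
    intro J
    by_contra hn
    -- a functional which separates
    have h3 : t J - p (t J) ≠ 0 := by
      intro h4
      rw [sub_eq_zero] at h4
      exact hn (h4 ▸ hp1 _)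
    obtain ⟨d, hd⟩ : ∃ d, (t J - p (t J)) d ≠ 0 := by
      by_contra h4
      push Not at h4
      exact h3 (funext h4)
    refine hd ?_
    have h4 := h2 ((LinearMap.proj d) ∘ₗ (LinearMap.id - p)) (fun y hy => by
      simp [hp2 y hy]) J
    simpa using h4
  have h2 : t = (LinearMap.compLeft p (Fin m → Fin s ⊕ Fin n)) t := by
    funext J
    exact (hp2 _ (h1 J)).symm
  rw [h2]
  refine (Submodule.span_le.2 ?_ : _ ≤ (Submodule.span ℚ {t | ∃ (a b : ℕ)
    (e : Fin a ⊕ (Fin b × Fin 2) ≃ Fin m) (ν : Fin a → Fin s → ℚ) (y : Fin v → ℚ),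
      y ∈ C ∧ t = fun J b => pc Q⁻¹ e ν J * y b}).comap
        (LinearMap.compLeft p (Fin m → Fin s ⊕ Fin n))) ht
  rintro _ ⟨a, b, e, ν, y, rfl⟩
  refine Submodule.subset_span ⟨a, b, e, ν, p y, hp1 y, ?_⟩
  funext J
  have h6 : (fun b => pc Q⁻¹ e ν J * y b) = pc Q⁻¹ e ν J • y := rfl
  show p (fun b => pc Q⁻¹ e ν J * y b) = fun b => pc Q⁻¹ e ν J * p y b
  rw [h6, p.map_smul]
  rfl

end nondeg

end

end Pool.Agent.X311.Nd
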