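import Mathlib
import Pool.Agent.X311.GhcPeriodsDefs

/-!
# K3 surfaces and products with varieties: definitions

The rational cohomology of a K3 surface `X` is spanned by algebraic classes and by the transcendental
part `T` of `H^2`, with the intersection form and the period `ω`, the class of a holomorphic two-form. It
is `ℚ ^ s ⊕ ℚ ^ n`, where `ℚ ^ s` has a basis of algebraic classes and `ℚ ^ n` is `T`. The cohomology
of a smooth projective variety `Y` is given by `V : Coh v`. The cohomology of `X ^ m × Y` is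
`H(X) ⊗ ... ⊗ H(X) ⊗ H(Y)`: a class `t` has the coordinates `t J b`, where `J j` (for `j < m`) is an
element of the basis of `H(X)` and `b` an element of the basis of `H(Y)`.
-/

set_option autoImplicit false

namespace Pool.Agent.X311.K3

open Matrix Pool.Agent.TH131.GHC Pool.Agent.TH504.VY

noncomputable section

/-- a rational matrix as a complex matrix -/
def cM {n : ℕ} (P : Matrix (Fin n) (Fin n) ℚ) : Matrix (Fin n) (Fin n) ℂ :=
  P.map fun q : ℚ => (q : ℂ)

/-- the complex conjugate of a vector -/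
def cj {n : ℕ} (a : Fin n → ℂ) : Fin n → ℂ := fun i => starRingEnd ℂ (a i)

/-- The transcendental part of the second cohomology of a K3 surface, of rank `n`: the intersection form
`Q` and the period `ω`, a class of type `(2, 0)`. The form satisfies the Hodge-Riemann relations, and
`ω` is not in a proper rational subspace. -/
structure Period (n : ℕ) where
  /-- the intersection form -/
  Q : Matrix (Fin n) (Fin n) ℚ
  /-- the period -/
  ω : Fin n → ℂ
  symm : Q.transpose = Q
  isotropic : ω ⬝ᵥ (cM Q *ᵥ ω) = 0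
  positive : 0 < (ω ⬝ᵥ (cM Q *ᵥ cj ω)).re
  negative : ∀ u : Fin n → ℝ, u ≠ 0 → ω ⬝ᵥ (cM Q *ᵥ fun i => (u i : ℂ)) = 0 →
    u ⬝ᵥ (Q.map (fun q : ℚ => (q : ℝ)) *ᵥ u) < 0
  transcendental : LinearIndependent ℚ ω

variable {n : ℕ}

/-- The Hodge operator on the complexification of `T`: the multiplication by `p - q` on the classes of
type `(p, q)`. It is `2` on `ω`, `-2` on the complex conjugate of `ω` and `0` on the classes which are
orthogonal to both. -/
def Period.op (T : Period n) : Matrix (Fin n) (Fin n) ℂ :=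
  (2 / (T.ω ⬝ᵥ (cM T.Q *ᵥ cj T.ω))) •
    (vecMulVec T.ω (cM T.Q *ᵥ cj T.ω) - vecMulVec (cj T.ω) (cM T.Q *ᵥ T.ω))

/-- The Hodge operator on the cohomology of the K3 surface. -/
def Period.opX (T : Period n) (s : ℕ) : Matrix (Fin s ⊕ Fin n) (Fin s ⊕ Fin n) ℂ :=
  fromBlocks 0 0 0 T.op

/-- The class `t` on `X ^ m × Y` is a Hodge class: it is killed by the Hodge operator. -/
def IsHodgeOnProduct (T : Period n) {s v m : ℕ} (V : Coh v)
    (t : (Fin m → Fin s ⊕ Fin n) → Fin v → ℚ) : Prop :=
  ∀ J b, ∑ j, ∑ l, T.opX s (J j) l * ((t (Function.update J j l) b : ℚ) : ℂ) +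
    ∑ c, V.z b c * ((t J c : ℚ) : ℂ) = 0

/-- A class on `X ^ m`: the product of algebraic classes `ν i` on some of the factors, of the
transcendental parts of the diagonals (given by the inverse of the intersection form) on `b` pairs of
factors, and, if `c = 1`, of the determinant of `T` on `n` of the factors. -/
def standardClass (T : Period n) {s m a b c : ℕ}
    (e : Fin a ⊕ ((Fin b × Fin 2) ⊕ (Fin c × Fin n)) ≃ Fin m) (ν : Fin a → Fin s → ℚ) :
    (Fin m → Fin s ⊕ Fin n) → ℚ :=
  fun J => (∏ i, Sum.elim (ν i) (fun _ => 0) (J (e (Sum.inl i)))) *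
    ((∏ i, fromBlocks 0 0 0 T.Q⁻¹ (J (e (Sum.inr (Sum.inl (i, 0)))))
      (J (e (Sum.inr (Sum.inl (i, 1)))))) *
    ∏ i, (of fun k l => if J (e (Sum.inr (Sum.inr (i, k)))) = Sum.inr l then (1 : ℚ) else 0).det)

/-- The span of the products of standard classes on `X ^ m`, with at most one determinant, and Hodge
classes on `Y`. -/
def standardTimesHodge (T : Period n) (s m : ℕ) {v : ℕ} (V : Coh v) :
    Submodule ℚ ((Fin m → Fin s ⊕ Fin n) → Fin v → ℚ) :=
  Submodule.span ℚ {t | ∃ (a b c : ℕ) (e : Fin a ⊕ ((Fin b × Fin 2) ⊕ (Fin c × Fin n)) ≃ Fin m)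
    (ν : Fin a → Fin s → ℚ) (y : Fin v → ℚ), c ≤ 1 ∧ IsHodgeOn V y ∧
      t = fun J b => standardClass T e ν J * y b}

end

end Pool.Agent.X311.K3
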