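import Mathlib
import Pool.Agent.X311.K3Defs
import Pool.Agent.W437.HD.Fixed

/-!
# Lie algebras of skew matrices with many elements which move the period
-/

set_option autoImplicit false
set_option linter.unusedSectionVars false

namespace Pool.Agent.X311.K3

open Matrix Module

noncomputable section

variable {n : ℕ}

section wedge

variable (M : Matrix (Fin n) (Fin n) ℂ)

/-- the bilinear form -/
def bl (a b : Fin n → ℂ) : ℂ := a ⬝ᵥ (M *ᵥ b)

/-- the skew matrix of a pair of vectors -/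
def wd (a b : Fin n → ℂ) : Matrix (Fin n) (Fin n) ℂ :=
  vecMulVec a (M *ᵥ b) - vecMulVec b (M *ᵥ a)

theorem bl_add_left (a a' b : Fin n → ℂ) : bl M (a + a') b = bl M a b + bl M a' b := add_dotProduct _ _ _

theorem bl_add_right (a b b' : Fin n → ℂ) : bl M a (b + b') = bl M a b + bl M a b' := by
  rw [bl, mulVec_add, dotProduct_add]
  rfl

theorem bl_smul_left (c : ℂ) (a b : Fin n → ℂ) : bl M (c • a) b = c * bl M a b := by
  rw [bl, smul_dotProduct]
  rfl

theorem bl_smul_right (c : ℂ) (a b : Fin n → ℂ) : bl M a (c • b) = c * bl M a b := by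
  rw [bl, mulVec_smul, dotProduct_smul]
  rfl

theorem bl_sub_left (a a' b : Fin n → ℂ) : bl M (a - a') b = bl M a b - bl M a' b := sub_dotProduct _ _ _

theorem bl_sub_right (a b b' : Fin n → ℂ) : bl M a (b - b') = bl M a b - bl M a b' := by
  rw [bl, mulVec_sub, dotProduct_sub]
  rfl

theorem bl_zero_right (a : Fin n → ℂ) : bl M a 0 = 0 := by
  rw [bl, mulVec_zero, dotProduct_zero]

theorem wd_add_left (a a' b : Fin n → ℂ) : wd M (a + a') b = wd M a b + wd M a' b := by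
  rw [wd, wd, wd, mulVec_add, add_vecMulVec, vecMulVec_add]
  abel

theorem wd_add_right (a b b' : Fin n → ℂ) : wd M a (b + b') = wd M a b + wd M a b' := by
  rw [wd, wd, wd, mulVec_add, add_vecMulVec, vecMulVec_add]
  abel

theorem wd_smul_left (c : ℂ) (a b : Fin n → ℂ) : wd M (c • a) b = c • wd M a b := by
  rw [wd, wd, mulVec_smul, smul_vecMulVec, vecMulVec_smul, smul_sub]

theorem wd_smul_right (c : ℂ) (a b : Fin n → ℂ) : wd M a (c • b) = c • wd M a b := by
  rw [wd, wd, mulVec_smul, smul_vecMulVec, vecMulVec_smul, smul_sub]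

theorem wd_self (a : Fin n → ℂ) : wd M a a = 0 := sub_self _

theorem wd_anti (a b : Fin n → ℂ) : wd M b a = -wd M a b := by
  rw [wd, wd, neg_sub]

variable {M} (hM : M.transpose = M)

include hM in
theorem bl_symm (a b : Fin n → ℂ) : bl M a b = bl M b a := by
  unfold bl
  rw [dotProduct_mulVec, ← mulVec_transpose, hM, dotProduct_comm]

include hM in
theorem wd_mulVec (a b y : Fin n → ℂ) : wd M a b *ᵥ y = bl M b y • a - bl M a y • b := by
  have h : ∀ a b : Fin n → ℂ, vecMulVec a (M *ᵥ b) *ᵥ y = bl M b y • a := by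
    intro a b
    rw [vecMulVec_mulVec, bl_symm hM b y]
    ext i
    simp [bl, dotProduct_comm, mul_comm]
  rw [wd, sub_mulVec, h, h]

theorem wd_zero_left (b : Fin n → ℂ) : wd M 0 b = 0 := by
  have h := wd_smul_left M 0 (0 : Fin n → ℂ) b
  rwa [zero_smul, zero_smul] at h

/-- skew matrices -/
def Sk (M A : Matrix (Fin n) (Fin n) ℂ) : Prop := A.transpose * M + M * A = 0

include hM in
theorem Sk.bl {A : Matrix (Fin n) (Fin n) ℂ} (hA : Sk M A) (a b : Fin n → ℂ) :
    bl M (A *ᵥ a) b = -bl M a (A *ᵥ b) := by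
  have h1 : A.transpose * M = -(M * A) := eq_neg_of_add_eq_zero_left hA
  rw [K3.bl, K3.bl, mulVec_mulVec, dotProduct_comm, dotProduct_mulVec, ← mulVec_transpose,
    mulVec_mulVec, h1, neg_mulVec, neg_dotProduct, dotProduct_comm]

include hM in
theorem Sk.br {A : Matrix (Fin n) (Fin n) ℂ} (hA : Sk M A) (a b : Fin n → ℂ) :
    A * wd M a b - wd M a b * A = wd M (A *ᵥ a) b + wd M a (A *ᵥ b) := by
  have h1 : A.transpose * M = -(M * A) := eq_neg_of_add_eq_zero_left hA
  have h2 : ∀ b : Fin n → ℂ, (M *ᵥ b) ᵥ* A = -(M *ᵥ (A *ᵥ b)) := by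
    intro b
    rw [← mulVec_transpose, mulVec_mulVec, h1, neg_mulVec, mulVec_mulVec]
  rw [wd, wd, wd, mul_sub, sub_mul, mul_vecMulVec, mul_vecMulVec, vecMulVec_mul, vecMulVec_mul,
    h2, h2, vecMulVec_neg, vecMulVec_neg]
  abel

include hM in
theorem wd_sk (a b : Fin n → ℂ) : Sk M (wd M a b) := by
  have h2 : ∀ b : Fin n → ℂ, b ᵥ* M = M *ᵥ b := by
    intro b
    rw [← mulVec_transpose, hM]
  rw [Sk, wd, transpose_sub, transpose_vecMulVec, transpose_vecMulVec, sub_mul, mul_sub,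
    vecMulVec_mul, vecMulVec_mul, mul_vecMulVec, mul_vecMulVec, h2, h2]
  abel

end wedge

section per

variable (T : Period n)

theorem cM_symm : (cM T.Q).transpose = cM T.Q := by
  rw [cM, ← transpose_map, T.symm]

/-- the form -/
abbrev B (a b : Fin n → ℂ) : ℂ := bl (cM T.Q) a b

/-- the skew matrices -/
abbrev wT (a b : Fin n → ℂ) : Matrix (Fin n) (Fin n) ℂ := wd (cM T.Q) a b

/-- the self-intersection of the period -/
def hh : ℂ := B T T.ω (cj T.ω)

theorem hh_ne : hh T ≠ 0 := by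
  intro h
  have h1 := T.positive
  have h2 : T.ω ⬝ᵥ (cM T.Q *ᵥ cj T.ω) = 0 := h
  rw [h2] at h1
  exact lt_irrefl _ h1

theorem cj_cj (a : Fin n → ℂ) : cj (cj a) = a := funext fun _ => Complex.conj_conj _

theorem map_cM (σ : ℂ →+* ℂ) (Q : Matrix (Fin n) (Fin n) ℚ) : (cM Q).map σ = cM Q := by
  ext i j
  rw [Matrix.map_apply, cM, Matrix.map_apply]
  exact map_ratCast σ _

theorem bl_map (σ : ℂ →+* ℂ) (Q : Matrix (Fin n) (Fin n) ℚ) (a b : Fin n → ℂ) :
    bl (cM Q) (fun i => σ (a i)) (fun i => σ (b i)) = σ (bl (cM Q) a b) := by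
  have h : ∀ i j, σ (cM Q i j) = cM Q i j := fun i j => congrFun (congrFun (map_cM σ Q) i) j
  simp only [bl, dotProduct, mulVec, map_sum, map_mul, h]

theorem wd_map (σ : ℂ →+* ℂ) (Q : Matrix (Fin n) (Fin n) ℚ) (a b : Fin n → ℂ) :
    (wd (cM Q) a b).map σ = wd (cM Q) (fun i => σ (a i)) (fun i => σ (b i)) := by
  have h : ∀ i j, σ (cM Q i j) = cM Q i j := fun i j => congrFun (congrFun (map_cM σ Q) i) j
  ext i j
  simp only [wd, Matrix.map_apply, Matrix.sub_apply, vecMulVec_apply, mulVec, dotProduct, map_sub,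
    map_mul, map_sum, h]

theorem B_cj (a b : Fin n → ℂ) : B T (cj a) (cj b) = starRingEnd ℂ (B T a b) :=
  bl_map (starRingEnd ℂ) T.Q a b

theorem B_oo : B T T.ω T.ω = 0 := T.isotropic

theorem B_pp : B T (cj T.ω) (cj T.ω) = 0 := by
  rw [B_cj, B_oo, map_zero]

theorem B_po : B T (cj T.ω) T.ω = hh T := bl_symm (cM_symm T) _ _

/-- negativity -/
theorem B_neg {s : Fin n → ℂ} (h1 : B T T.ω s = 0) (h2 : B T (cj T.ω) s = 0) (hs : s ≠ 0) :
    B T (cj s) s ≠ 0 := by
  let a : Fin n → ℝ := fun i => (s i).re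
  let b : Fin n → ℝ := fun i => (s i).im
  have hab : s = (fun i => (a i : ℂ)) + Complex.I • fun i => (b i : ℂ) := by
    funext i
    simp only [Pi.add_apply, Pi.smul_apply, smul_eq_mul, a, b]
    rw [mul_comm]
    exact (Complex.re_add_im _).symm
  have hcab : cj s = (fun i => (a i : ℂ)) - Complex.I • fun i => (b i : ℂ) := by
    funext i
    simp only [Pi.sub_apply, Pi.smul_apply, smul_eq_mul, a, b, cj]
    apply Complex.ext <;> simp
  have h3 : B T T.ω (cj s) = 0 := by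
    have h4 := B_cj T (cj T.ω) s
    rw [cj_cj, h2, map_zero] at h4
    exact h4
  have ha0 : B T T.ω (fun i => (a i : ℂ)) = 0 := by
    have h4 : (2 : ℂ) • (fun i => (a i : ℂ)) = s + cj s := by
      rw [hcab]
      nth_rewrite 1 [hab]
      rw [two_smul]
      abel
    have h5 := bl_smul_right (cM T.Q) 2 T.ω (fun i => (a i : ℂ))
    rw [h4, bl_add_right] at h5
    have h6 : bl (cM T.Q) T.ω s = 0 := h1
    have h7 : bl (cM T.Q) T.ω (cj s) = 0 := h3
    rw [h6, h7, add_zero] at h5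
    exact (mul_eq_zero.1 h5.symm).resolve_left two_ne_zero
  have hb0 : B T T.ω (fun i => (b i : ℂ)) = 0 := by
    have h4 : (2 * Complex.I : ℂ) • (fun i => (b i : ℂ)) = s - cj s := by
      rw [hcab]
      nth_rewrite 1 [hab]
      rw [mul_smul, two_smul]
      abel
    have h5 := bl_smul_right (cM T.Q) (2 * Complex.I) T.ω (fun i => (b i : ℂ))
    rw [h4, bl_sub_right] at h5
    have h6 : bl (cM T.Q) T.ω s = 0 := h1
    have h7 : bl (cM T.Q) T.ω (cj s) = 0 := h3
    rw [h6, h7, sub_zero] at h5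
    exact (mul_eq_zero.1 h5.symm).resolve_left (mul_ne_zero two_ne_zero Complex.I_ne_zero)
  have hreal : ∀ u w : Fin n → ℝ, B T (fun i => (u i : ℂ)) (fun i => (w i : ℂ)) =
      ((u ⬝ᵥ (T.Q.map (fun q : ℚ => (q : ℝ)) *ᵥ w) : ℝ) : ℂ) := by
    intro u w
    simp only [bl, dotProduct, mulVec, cM, Matrix.map_apply]
    push_cast
    rfl
  have hle : ∀ u : Fin n → ℝ, B T T.ω (fun i => (u i : ℂ)) = 0 →
      u ⬝ᵥ (T.Q.map (fun q : ℚ => (q : ℝ)) *ᵥ u) ≤ 0 := by
    intro u hu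
    by_cases h : u = 0
    · rw [h, zero_dotProduct]
    · exact (T.negative u h hu).le
  have hval : B T (cj s) s = ((a ⬝ᵥ (T.Q.map (fun q : ℚ => (q : ℝ)) *ᵥ a) +
      b ⬝ᵥ (T.Q.map (fun q : ℚ => (q : ℝ)) *ᵥ b) : ℝ) : ℂ) := by
    rw [hcab]
    nth_rewrite 1 [hab]
    rw [B, bl_sub_left, bl_add_right, bl_add_right, bl_smul_right, bl_smul_left, bl_smul_right,
      bl_smul_left]
    have h4 := hreal a a
    have h5 := hreal b b
    have h6 : bl (cM T.Q) (fun i => (b i : ℂ)) (fun i => (a i : ℂ)) =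
      bl (cM T.Q) (fun i => (a i : ℂ)) (fun i => (b i : ℂ)) := bl_symm (cM_symm T) _ _
    rw [B] at h4 h5
    rw [h6, h4, h5]
    push_cast
    linear_combination (-(((b ⬝ᵥ (T.Q.map (fun q : ℚ => (q : ℝ)) *ᵥ b) : ℝ)) : ℂ)) *
      Complex.I_mul_I
  rw [hval]
  intro h
  have h4 : a ⬝ᵥ (T.Q.map (fun q : ℚ => (q : ℝ)) *ᵥ a) +
      b ⬝ᵥ (T.Q.map (fun q : ℚ => (q : ℝ)) *ᵥ b) = 0 := by exact_mod_cast h
  have h5 := hle a ha0
  have h6 := hle b hb0
  have ha : a = 0 := by
    by_contra hne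
    have := T.negative a hne ha0
    linarith
  have hb : b = 0 := by
    by_contra hne
    have := T.negative b hne hb0
    linarith
  apply hs
  rw [hab, ha, hb]
  ext i
  simp

/-- nondegeneracy -/
theorem mulVec_ne {y : Fin n → ℂ} (hy : cM T.Q *ᵥ y = 0) : y = 0 := by
  by_contra hne
  have h1 : B T T.ω y = 0 := by
    rw [B, bl, hy, dotProduct_zero]
  have h2 : B T (cj T.ω) y = 0 := by
    rw [B, bl, hy, dotProduct_zero]
  have h3 := B_neg T h1 h2 hne
  apply h3
  rw [B, bl, hy, dotProduct_zero]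

theorem det_ne : (cM T.Q).det ≠ 0 := by
  intro h
  obtain ⟨y, hy, hy0⟩ := exists_mulVec_eq_zero_iff.2 h
  exact hy (mulVec_ne T hy0)

end per

end

end Pool.Agent.X311.K3
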