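import Mathlib
import Pool.Agent.X311.K3a

/-!
# Lie algebras of skew matrices with many elements which move the period: the main lemma
-/

set_option autoImplicit false
set_option linter.unusedSectionVars false

namespace Pool.Agent.X311.K3

open Matrix Module

noncomputable section

variable {n : ℕ} {T : Period n}

/-- A Lie algebra of skew matrices which is stable under the automorphisms of the complex numbers. -/
structure Good (T : Period n) (L : Submodule ℂ (Matrix (Fin n) (Fin n) ℂ)) : Prop where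
  skew : ∀ A ∈ L, Sk (cM T.Q) A
  br : ∀ A ∈ L, ∀ C ∈ L, A * C - C * A ∈ L
  aut : ∀ σ : ℂ ≃+* ℂ, ∀ A ∈ L, A.map σ ∈ L

variable {L : Submodule ℂ (Matrix (Fin n) (Fin n) ℂ)}

/-- The directions in which the Lie algebra moves the period. -/
def SS (T : Period n) (L : Submodule ℂ (Matrix (Fin n) (Fin n) ℂ)) : Submodule ℂ (Fin n → ℂ) where
  carrier := {v | B T T.ω v = 0 ∧ B T (cj T.ω) v = 0 ∧ wT T v (cj T.ω) ∈ L}
  add_mem' := by
    rintro a b ⟨h1, h2, h3⟩ ⟨h4, h5, h6⟩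
    refine ⟨?_, ?_, ?_⟩
    · rw [B, bl_add_right]
      exact by rw [show bl (cM T.Q) T.ω a = 0 from h1, show bl (cM T.Q) T.ω b = 0 from h4, add_zero]
    · rw [B, bl_add_right]
      exact by rw [show bl (cM T.Q) (cj T.ω) a = 0 from h2,
        show bl (cM T.Q) (cj T.ω) b = 0 from h5, add_zero]
    · rw [wT, wd_add_left]
      exact L.add_mem h3 h6
  zero_mem' := by
    refine ⟨bl_zero_right _ _, bl_zero_right _ _, ?_⟩
    rw [wT, wd_zero_left]
    exact L.zero_mem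
  smul_mem' := by
    rintro c a ⟨h1, h2, h3⟩
    refine ⟨?_, ?_, ?_⟩
    · rw [B, bl_smul_right]
      exact by rw [show bl (cM T.Q) T.ω a = 0 from h1, mul_zero]
    · rw [B, bl_smul_right]
      exact by rw [show bl (cM T.Q) (cj T.ω) a = 0 from h2, mul_zero]
    · rw [wT, wd_smul_left]
      exact L.smul_mem _ h3

/-- complex conjugation as an automorphism -/
def conjA : ℂ ≃+* ℂ := Complex.conjAe.toRingEquiv

theorem Good.conj (h : Good T L) {a b : Fin n → ℂ} (hab : wT T a b ∈ L) :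
    wT T (cj a) (cj b) ∈ L := by
  have h1 := h.aut conjA _ hab
  have h2 : (wT T a b).map conjA = wT T (cj a) (cj b) := wd_map (conjA : ℂ →+* ℂ) T.Q a b
  rwa [h2] at h1

theorem Good.br_wd (h : Good T L) {A : Matrix (Fin n) (Fin n) ℂ} (hA : A ∈ L) {a b : Fin n → ℂ}
    (hab : wT T a b ∈ L) : wT T (A *ᵥ a) b + wT T a (A *ᵥ b) ∈ L := by
  have h1 := h.br A hA _ hab
  rwa [(h.skew A hA).br (cM_symm T)] at h1

theorem wT_mulVec (a b y : Fin n → ℂ) : wT T a b *ᵥ y = B T b y • a - B T a y • b :=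
  wd_mulVec (cM_symm T) a b y

theorem B_sym (a b : Fin n → ℂ) : B T a b = B T b a := bl_symm (cM_symm T) a b

theorem B_cjo {v : Fin n → ℂ} (hv : B T (cj T.ω) v = 0) : B T T.ω (cj v) = 0 := by
  have h4 := B_cj T (cj T.ω) v
  rw [cj_cj, hv, map_zero] at h4
  exact h4

theorem B_cjp {v : Fin n → ℂ} (hv : B T T.ω v = 0) : B T (cj T.ω) (cj v) = 0 := by
  rw [B_cj, hv, map_zero]

/-- the first bracket -/
theorem Good.b1 (h : Good T L) {v w : Fin n → ℂ} (hv : v ∈ SS T L) (hw : w ∈ SS T L) :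
    hh T • wT T (cj w) v - B T v (cj w) • wT T (cj T.ω) T.ω ∈ L := by
  obtain ⟨v1, v2, v3⟩ := hv
  obtain ⟨w1, w2, w3⟩ := hw
  have h1 : wT T (cj w) T.ω ∈ L := by
    have h2 := h.conj w3
    rwa [cj_cj] at h2
  have h2 := h.br_wd v3 h1
  rw [wT_mulVec, wT_mulVec, B_cjp w1, B_po, zero_smul, zero_sub, B_sym v T.ω, v1, zero_smul,
    sub_zero, wT, wT, wd_smul_right, ← neg_smul, wd_smul_left, neg_smul] at h2
  rwa [neg_add_eq_sub] at h2

/-- the second bracket -/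
theorem Good.b2 (h : Good T L) {v u w : Fin n → ℂ} (hv : v ∈ SS T L) (hu : u ∈ SS T L)
    (hw : w ∈ SS T L) : B T v u • cj w ∈ SS T L := by
  have h1 := h.b1 hv hw
  have hu' := hu
  have hv' := hv
  obtain ⟨v1, v2, v3⟩ := hv
  obtain ⟨w1, w2, w3⟩ := hw
  obtain ⟨u1, u2, u3⟩ := hu
  have h2 := h.br_wd h1 u3
  have e1 : (hh T • wT T (cj w) v - B T v (cj w) • wT T (cj T.ω) T.ω) *ᵥ u =
      (hh T * B T v u) • cj w - (hh T * B T (cj w) u) • v := by
    rw [sub_mulVec, smul_mulVec, smul_mulVec, wT_mulVec, wT_mulVec, u1, u2, zero_smul, zero_smul,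
      sub_zero, smul_zero, sub_zero, smul_sub, smul_smul, smul_smul]
  have e2 : (hh T • wT T (cj w) v - B T v (cj w) • wT T (cj T.ω) T.ω) *ᵥ cj T.ω =
      -(B T v (cj w) * hh T) • cj T.ω := by
    rw [sub_mulVec, smul_mulVec, smul_mulVec, wT_mulVec, wT_mulVec, B_sym v (cj T.ω), v2, zero_smul,
      B_sym (cj w) (cj T.ω), B_cjp w1, zero_smul, sub_zero, smul_zero, zero_sub, B_pp, zero_smul,
      sub_zero, neg_smul, smul_smul]
    rfl
  rw [e1, e2] at h2
  have h3 : B T T.ω (cj w) = 0 := B_cjo w2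
  have h4 : B T (cj T.ω) (cj w) = 0 := B_cjp w1
  refine ⟨?_, ?_, ?_⟩
  · rw [B, bl_smul_right]
    exact by rw [show bl (cM T.Q) T.ω (cj w) = 0 from h3, mul_zero]
  · rw [B, bl_smul_right]
    exact by rw [show bl (cM T.Q) (cj T.ω) (cj w) = 0 from h4, mul_zero]
  · have h5 : wT T ((hh T * B T v u) • cj w - (hh T * B T (cj w) u) • v) (cj T.ω) =
        hh T • (B T v u • wT T (cj w) (cj T.ω)) - (hh T * B T (cj w) u) • wT T v (cj T.ω) := by
      rw [sub_eq_add_neg, ← neg_smul, wT, wd_add_left, wd_smul_left, wd_smul_left, neg_smul,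
        ← sub_eq_add_neg, mul_smul]
    rw [h5, wT, wT, wT, wd_smul_right] at h2
    have h6 : B T v u • wT T (cj w) (cj T.ω) = (hh T)⁻¹ •
        ((hh T • (B T v u • wT T (cj w) (cj T.ω)) - (hh T * B T (cj w) u) • wT T v (cj T.ω) +
          -(B T v (cj w) * hh T) • wT T u (cj T.ω)) + (hh T * B T (cj w) u) • wT T v (cj T.ω) +
          (B T v (cj w) * hh T) • wT T u (cj T.ω)) := by
      have h7 : (hh T • (B T v u • wT T (cj w) (cj T.ω)) - (hh T * B T (cj w) u) • wT T v (cj T.ω) +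
          -(B T v (cj w) * hh T) • wT T u (cj T.ω)) + (hh T * B T (cj w) u) • wT T v (cj T.ω) +
          (B T v (cj w) * hh T) • wT T u (cj T.ω) = hh T • (B T v u • wT T (cj w) (cj T.ω)) := by
        rw [neg_smul]
        abel
      rw [h7, smul_smul, inv_mul_cancel₀ (hh_ne T), one_smul]
    rw [wT, wd_smul_left]
    change B T v u • wT T (cj w) (cj T.ω) ∈ L
    rw [h6]
    exact L.smul_mem _ (L.add_mem (L.add_mem h2 (L.smul_mem _ v3)) (L.smul_mem _ u3))

/-- There is a pair of directions which are not orthogonal, by the dimension. -/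
theorem exists_pair (S : Submodule ℂ (Fin n → ℂ)) (h1 : ∀ v ∈ S, B T T.ω v = 0)
    (h2 : ∀ v ∈ S, B T (cj T.ω) v = 0) (hd : n < 2 * finrank ℂ S + 2) :
    ∃ v ∈ S, ∃ u ∈ S, B T v u ≠ 0 := by
  classical
  by_contra hcon
  push Not at hcon
  let f : LinearMap.BilinForm ℂ (Fin n → ℂ) := Matrix.toBilin' (cM T.Q)
  have hf : ∀ a b, f a b = B T a b := fun a b => by
    rw [B, bl]
    exact Matrix.toBilin'_apply' _ _ _
  have hnd : f.Nondegenerate := by
    exact Matrix.nondegenerate_toBilin'_iff.2 (Matrix.nondegenerate_of_det_ne_zero (det_ne T))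
  have hrefl : f.IsRefl := by
    intro a b hab
    rw [hf] at hab ⊢
    rwa [B_sym]
  let W : Submodule ℂ (Fin n → ℂ) := (Submodule.span ℂ {T.ω}) ⊔ S
  have hW : ∀ a ∈ W, ∀ b ∈ W, B T a b = 0 := by
    intro a ha b hb
    obtain ⟨a1, ha1, a2, ha2, rfl⟩ := Submodule.mem_sup.1 ha
    obtain ⟨b1, hb1, b2, hb2, rfl⟩ := Submodule.mem_sup.1 hb
    obtain ⟨c, rfl⟩ := Submodule.mem_span_singleton.1 ha1
    obtain ⟨d, rfl⟩ := Submodule.mem_span_singleton.1 hb1
    have e1 : bl (cM T.Q) T.ω T.ω = 0 := B_oo T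
    have e2 : bl (cM T.Q) T.ω b2 = 0 := h1 b2 hb2
    have e3 : bl (cM T.Q) a2 T.ω = 0 := (B_sym (T := T) a2 T.ω).trans (h1 a2 ha2)
    have e4 : bl (cM T.Q) a2 b2 = 0 := hcon a2 ha2 b2 hb2
    rw [B, bl_add_left, bl_add_right, bl_add_right, bl_smul_left, bl_smul_left, bl_smul_right,
      bl_smul_right, e1, e2, e3, e4]
    ring
  have hle : W ≤ f.orthogonal W := by
    intro a ha
    rw [LinearMap.BilinForm.mem_orthogonal_iff]
    intro b hb
    exact (hf b a).trans (hW b hb a ha)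
  have h3 := LinearMap.BilinForm.finrank_orthogonal hnd W
  have h4 := Submodule.finrank_mono hle
  have hne : T.ω ≠ 0 := by
    intro h
    apply hh_ne T
    rw [hh, h]
    exact zero_dotProduct _
  have hdis : Submodule.span ℂ {T.ω} ⊓ S = ⊥ := by
    rw [Submodule.eq_bot_iff]
    intro x hx
    obtain ⟨hx1, hx2⟩ := Submodule.mem_inf.1 hx
    obtain ⟨c, rfl⟩ := Submodule.mem_span_singleton.1 hx1
    have h5 := h2 _ hx2
    rw [B, bl_smul_right] at h5
    have h6 : bl (cM T.Q) (cj T.ω) T.ω = hh T := B_po T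
    rw [h6] at h5
    rw [(mul_eq_zero.1 h5).resolve_right (hh_ne T), zero_smul]
  have h5 := Submodule.finrank_sup_add_finrank_inf_eq (Submodule.span ℂ {T.ω}) S
  rw [hdis, finrank_bot, finrank_span_singleton hne] at h5
  rw [Module.finrank_fintype_fun_eq_card, Fintype.card_fin] at h3
  have h6 : finrank ℂ W ≤ n := by
    have h7 := Submodule.finrank_le W
    rwa [Module.finrank_fintype_fun_eq_card, Fintype.card_fin] at h7
  have h7 : finrank ℂ W = 1 + finrank ℂ S := h5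
  omega

variable (h : Good T L) {v₁ u₁ : Fin n → ℂ} (hv₁ : v₁ ∈ SS T L) (hu₁ : u₁ ∈ SS T L)
  (hne : B T v₁ u₁ ≠ 0)

include h hv₁ hu₁ hne

theorem cj_SS {w : Fin n → ℂ} (hw : w ∈ SS T L) : cj w ∈ SS T L := by
  have h1 := (SS T L).smul_mem (B T v₁ u₁)⁻¹ (h.b2 hv₁ hu₁ hw)
  rwa [smul_smul, inv_mul_cancel₀ hne, one_smul] at h1

theorem b1' {v w : Fin n → ℂ} (hv : v ∈ SS T L) (hw : w ∈ SS T L) :
    hh T • wT T w v - B T v w • wT T (cj T.ω) T.ω ∈ L := by
  have h1 := h.b1 hv (cj_SS h hv₁ hu₁ hne hw)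
  rwa [cj_cj] at h1

theorem po_mem : wT T (cj T.ω) T.ω ∈ L := by
  have h1 := b1' h hv₁ hu₁ hne hv₁ hu₁
  have h2 := b1' h hv₁ hu₁ hne hu₁ hv₁
  have h3 := L.add_mem h1 h2
  have h4 : hh T • wT T u₁ v₁ - B T v₁ u₁ • wT T (cj T.ω) T.ω +
      (hh T • wT T v₁ u₁ - B T u₁ v₁ • wT T (cj T.ω) T.ω) =
      (-(2 * B T v₁ u₁)) • wT T (cj T.ω) T.ω := by
    rw [B_sym u₁ v₁, wT, wd_anti _ v₁ u₁, smul_neg, neg_smul, mul_smul, two_smul]
    abel
  rw [h4] at h3
  have h5 := L.smul_mem (-(2 * B T v₁ u₁))⁻¹ h3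
  rwa [smul_smul, inv_mul_cancel₀ (neg_ne_zero.2 (mul_ne_zero two_ne_zero hne)), one_smul] at h5

theorem op_mem : wT T T.ω (cj T.ω) ∈ L := by
  have h1 := L.neg_mem (po_mem h hv₁ hu₁ hne)
  rwa [← wd_anti] at h1

theorem SS_SS {v w : Fin n → ℂ} (hv : v ∈ SS T L) (hw : w ∈ SS T L) : wT T v w ∈ L := by
  have h1 := L.add_mem (b1' h hv₁ hu₁ hne hw hv) (L.smul_mem (B T w v) (po_mem h hv₁ hu₁ hne))
  rw [sub_add_cancel] at h1
  have h2 := L.smul_mem (hh T)⁻¹ h1
  rwa [smul_smul, inv_mul_cancel₀ (hh_ne T), one_smul] at h2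

theorem SS_o {v : Fin n → ℂ} (hv : v ∈ SS T L) : wT T v T.ω ∈ L := by
  have h1 := h.conj (cj_SS h hv₁ hu₁ hne hv).2.2
  rwa [cj_cj, cj_cj] at h1

omit h hv₁ hu₁ hne

/-- the part of type `(1, 1)` -/
def pr (T : Period n) : (Fin n → ℂ) →ₗ[ℂ] (Fin n → ℂ) where
  toFun y := y - (B T (cj T.ω) y / hh T) • T.ω - (B T T.ω y / hh T) • cj T.ω
  map_add' x y := by
    rw [B, bl_add_right, B, bl_add_right, add_div, add_div, add_smul, add_smul]
    abel
  map_smul' c y := by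
    rw [B, bl_smul_right, B, bl_smul_right, mul_div_assoc, mul_div_assoc, mul_smul, mul_smul,
      RingHom.id_apply, smul_sub, smul_sub]

theorem pr_apply (y : Fin n → ℂ) :
    pr T y = y - (B T (cj T.ω) y / hh T) • T.ω - (B T T.ω y / hh T) • cj T.ω := rfl

theorem dec (y : Fin n → ℂ) : y = (B T (cj T.ω) y / hh T) • T.ω +
    ((B T T.ω y / hh T) • cj T.ω + pr T y) := by
  rw [pr_apply]
  abel

theorem B_pr (y : Fin n → ℂ) : B T T.ω (pr T y) = 0 ∧ B T (cj T.ω) (pr T y) = 0 := by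
  have e1 : bl (cM T.Q) T.ω T.ω = 0 := B_oo T
  have e2 : bl (cM T.Q) (cj T.ω) (cj T.ω) = 0 := B_pp T
  have e3 : bl (cM T.Q) (cj T.ω) T.ω = hh T := B_po T
  have e4 : bl (cM T.Q) T.ω (cj T.ω) = hh T := rfl
  constructor
  · rw [pr_apply, B, bl_sub_right, bl_sub_right, bl_smul_right, bl_smul_right, e1, e4, mul_zero,
      sub_zero, div_mul_cancel₀ _ (hh_ne T), sub_self]
  · rw [pr_apply, B, bl_sub_right, bl_sub_right, bl_smul_right, bl_smul_right, e2, e3, mul_zero,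
      sub_zero, div_mul_cancel₀ _ (hh_ne T), sub_self]

theorem pr_o : pr T T.ω = 0 := by
  rw [pr_apply, B_po, B_oo, zero_div, zero_smul, div_self (hh_ne T), one_smul, sub_self, sub_zero]

theorem pr_p : pr T (cj T.ω) = 0 := by
  rw [pr_apply, B_pp, zero_div, zero_smul, sub_zero]
  have e4 : B T T.ω (cj T.ω) = hh T := rfl
  rw [e4, div_self (hh_ne T), one_smul, sub_self]

theorem pr_eq {v : Fin n → ℂ} (h1 : B T T.ω v = 0) (h2 : B T (cj T.ω) v = 0) : pr T v = v := by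
  rw [pr_apply, h1, h2, zero_div, zero_smul, zero_smul, sub_zero, sub_zero]

/-- the space spanned by the period, its complex conjugate and the directions -/
def WW (T : Period n) (L : Submodule ℂ (Matrix (Fin n) (Fin n) ℂ)) : Submodule ℂ (Fin n → ℂ) :=
  (SS T L).comap (pr T)

theorem o_mem : T.ω ∈ WW T L := by
  rw [WW, Submodule.mem_comap, pr_o]
  exact Submodule.zero_mem _

theorem p_mem : cj T.ω ∈ WW T L := by
  rw [WW, Submodule.mem_comap, pr_p]
  exact Submodule.zero_mem _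

theorem S_mem {v : Fin n → ℂ} (hv : v ∈ SS T L) : v ∈ WW T L := by
  rw [WW, Submodule.mem_comap, pr_eq hv.1 hv.2.1]
  exact hv

include h hv₁ hu₁ hne

theorem wd_o {b : Fin n → ℂ} (hb : b ∈ WW T L) : wT T b T.ω ∈ L := by
  rw [dec (T := T) b, wT, wd_add_left, wd_add_left, wd_smul_left, wd_smul_left, wd_self, smul_zero,
    zero_add]
  exact L.add_mem (L.smul_mem _ (po_mem h hv₁ hu₁ hne)) (SS_o h hv₁ hu₁ hne hb)

theorem wd_p {b : Fin n → ℂ} (hb : b ∈ WW T L) : wT T b (cj T.ω) ∈ L := by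
  rw [dec (T := T) b, wT, wd_add_left, wd_add_left, wd_smul_left, wd_smul_left, wd_self, smul_zero,
    zero_add]
  exact L.add_mem (L.smul_mem _ (op_mem h hv₁ hu₁ hne)) (Submodule.mem_comap.1 hb).2.2

theorem wd_S {b v : Fin n → ℂ} (hb : b ∈ WW T L) (hv : v ∈ SS T L) : wT T b v ∈ L := by
  rw [dec (T := T) b, wT, wd_add_left, wd_add_left, wd_smul_left, wd_smul_left]
  refine L.add_mem (L.smul_mem _ ?_) (L.add_mem (L.smul_mem _ ?_) (SS_SS h hv₁ hu₁ hne hb hv))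
  · rw [wd_anti]
    exact L.neg_mem (SS_o h hv₁ hu₁ hne hv)
  · rw [wd_anti]
    exact L.neg_mem hv.2.2

theorem wd_W {a b : Fin n → ℂ} (ha : a ∈ WW T L) (hb : b ∈ WW T L) : wT T a b ∈ L := by
  rw [dec (T := T) b, wT, wd_add_right, wd_add_right, wd_smul_right, wd_smul_right]
  exact L.add_mem (L.smul_mem _ (wd_o h hv₁ hu₁ hne ha))
    (L.add_mem (L.smul_mem _ (wd_p h hv₁ hu₁ hne ha)) (wd_S h hv₁ hu₁ hne ha hb))

end

end Pool.Agent.X311.K3
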