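import Mathlib
import Pool.Agent.X311.K3b

/-!
# Lie algebras of skew matrices with many elements which move the period: conclusion
-/

set_option autoImplicit false
set_option linter.unusedSectionVars false

namespace Pool.Agent.X311.K3

open Matrix Module

noncomputable section

variable {n : ℕ} {T : Period n} {L : Submodule ℂ (Matrix (Fin n) (Fin n) ℂ)}

section stable

variable (h : Good T L) {v₁ u₁ : Fin n → ℂ} (hv₁ : v₁ ∈ SS T L) (hu₁ : u₁ ∈ SS T L)
  (hne : B T v₁ u₁ ≠ 0)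

theorem Good.bl (h : Good T L) {A : Matrix (Fin n) (Fin n) ℂ} (hA : A ∈ L) (a b : Fin n → ℂ) :
    B T (A *ᵥ a) b = -B T a (A *ᵥ b) := (h.skew A hA).bl (cM_symm T) a b

theorem Good.bl_self (h : Good T L) {A : Matrix (Fin n) (Fin n) ℂ} (hA : A ∈ L) (a : Fin n → ℂ) :
    B T a (A *ᵥ a) = 0 := by
  have h1 := h.bl hA a a
  rw [B_sym] at h1
  exact self_eq_neg.1 h1

include h hv₁ hu₁ hne

/-- the components of the image of the period -/
theorem pr_A {A : Matrix (Fin n) (Fin n) ℂ} (hA : A ∈ L) :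
    pr T (A *ᵥ T.ω) ∈ SS T L ∧ pr T (A *ᵥ cj T.ω) ∈ SS T L := by
  obtain ⟨v, hv⟩ : ∃ v, v = pr T (A *ᵥ T.ω) := ⟨_, rfl⟩
  obtain ⟨v', hv'⟩ : ∃ v', v' = pr T (A *ᵥ cj T.ω) := ⟨_, rfl⟩
  obtain ⟨α, hα⟩ : ∃ α, α = B T (cj T.ω) (A *ᵥ T.ω) / hh T := ⟨_, rfl⟩
  have e1 : A *ᵥ T.ω = α • T.ω + v := by
    have h1 := dec (T := T) (A *ᵥ T.ω)
    rw [h.bl_self hA, zero_div, zero_smul, zero_add, ← hv, ← hα] at h1
    exact h1
  have e2 : A *ᵥ cj T.ω = (-α) • cj T.ω + v' := by
    have h1 := dec (T := T) (A *ᵥ cj T.ω)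
    rw [h.bl_self hA, zero_div, zero_smul, zero_add, ← hv'] at h1
    have h2 : B T T.ω (A *ᵥ cj T.ω) / hh T = -α := by
      have h3 := h.bl hA (cj T.ω) T.ω
      rw [hα, ← neg_div, ← h3, B_sym]
    rw [h2] at h1
    exact h1
  have pv := B_pr (T := T) (A *ᵥ T.ω)
  have pv' := B_pr (T := T) (A *ᵥ cj T.ω)
  rw [← hv] at pv
  rw [← hv'] at pv'
  have hop := op_mem h hv₁ hu₁ hne
  -- the first bracket
  have h1 := h.br_wd hA hop
  have h2 : wT T (A *ᵥ T.ω) (cj T.ω) + wT T T.ω (A *ᵥ cj T.ω) =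
      wT T v (cj T.ω) + wT T T.ω v' := by
    rw [e1, e2, wT, wT, wd_add_left, wd_add_right, wd_smul_left, wd_smul_right, neg_smul]
    abel
  rw [h2] at h1
  -- the second bracket
  have h3 := h.br_wd h1 hop
  have e3 : (wT T v (cj T.ω) + wT T T.ω v') *ᵥ T.ω = hh T • v := by
    rw [add_mulVec, wT_mulVec, wT_mulVec, B_po, B_oo, B_sym v T.ω, pv.1, B_sym v' T.ω, pv'.1]
    simp
  have e4 : (wT T v (cj T.ω) + wT T T.ω v') *ᵥ cj T.ω = -(hh T • v') := by
    have e5 : B T T.ω (cj T.ω) = hh T := rfl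
    rw [add_mulVec, wT_mulVec, wT_mulVec, B_pp, B_sym v (cj T.ω), pv.2, B_sym v' (cj T.ω), pv'.2, e5]
    simp
  rw [e3, e4, wT, wd_smul_left] at h3
  have h4 : hh T • wd (cM T.Q) v (cj T.ω) + wT T T.ω (-(hh T • v')) =
      hh T • (wT T v (cj T.ω) - wT T T.ω v') := by
    rw [← neg_smul, wT, wd_smul_right, neg_smul, smul_sub]
    abel
  rw [h4] at h3
  have h5 : wT T v (cj T.ω) - wT T T.ω v' ∈ L := by
    have h6 := L.smul_mem (hh T)⁻¹ h3
    rwa [smul_smul, inv_mul_cancel₀ (hh_ne T), one_smul] at h6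
  have h6 : wT T v (cj T.ω) ∈ L := by
    have h7 := L.smul_mem (2 : ℂ)⁻¹ (L.add_mem h1 h5)
    have h8 : wT T v (cj T.ω) + wT T T.ω v' + (wT T v (cj T.ω) - wT T T.ω v') =
        (2 : ℂ) • wT T v (cj T.ω) := by
      rw [two_smul]
      abel
    rwa [h8, smul_smul, inv_mul_cancel₀ two_ne_zero, one_smul] at h7
  have h7 : wT T T.ω v' ∈ L := by
    have h8 := L.sub_mem h1 h6
    rwa [add_sub_cancel_left] at h8
  constructor
  · rw [← hv]
    exact ⟨pv.1, pv.2, h6⟩
  · rw [← hv']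
    have h8 : wT T v' T.ω ∈ L := by
      rw [wT, wd_anti]
      exact L.neg_mem h7
    have h9 := h.conj h8
    have h10 : cj v' ∈ SS T L := ⟨B_cjo pv'.2, B_cjp pv'.1, h9⟩
    have h11 := cj_SS h hv₁ hu₁ hne h10
    rwa [cj_cj] at h11

theorem A_o {A : Matrix (Fin n) (Fin n) ℂ} (hA : A ∈ L) : A *ᵥ T.ω ∈ WW T L :=
  (pr_A h hv₁ hu₁ hne hA).1

theorem A_p {A : Matrix (Fin n) (Fin n) ℂ} (hA : A ∈ L) : A *ᵥ cj T.ω ∈ WW T L :=
  (pr_A h hv₁ hu₁ hne hA).2

theorem A_S {A : Matrix (Fin n) (Fin n) ℂ} (hA : A ∈ L) {u : Fin n → ℂ} (hu : u ∈ SS T L) :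
    A *ᵥ u ∈ WW T L := by
  have h1 := h.br_wd hA hu.2.2
  have h2 := wd_W h hv₁ hu₁ hne (S_mem hu) (A_p h hv₁ hu₁ hne hA)
  have h3 := L.sub_mem h1 h2
  rw [add_sub_cancel_right] at h3
  have h4 := dec (T := T) (A *ᵥ u)
  have h5 : wT T (A *ᵥ u) (cj T.ω) = (B T (cj T.ω) (A *ᵥ u) / hh T) • wT T T.ω (cj T.ω) +
      wT T (pr T (A *ᵥ u)) (cj T.ω) := by
    conv_lhs => rw [h4]
    rw [wT, wd_add_left, wd_add_left, wd_smul_left, wd_smul_left, wd_self, smul_zero, zero_add]
  rw [h5] at h3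
  have h6 := L.sub_mem h3 (L.smul_mem (B T (cj T.ω) (A *ᵥ u) / hh T) (op_mem h hv₁ hu₁ hne))
  rw [add_sub_cancel_left] at h6
  exact ⟨(B_pr _).1, (B_pr _).2, h6⟩

theorem A_W {A : Matrix (Fin n) (Fin n) ℂ} (hA : A ∈ L) {y : Fin n → ℂ} (hy : y ∈ WW T L) :
    A *ᵥ y ∈ WW T L := by
  rw [dec (T := T) y, mulVec_add, mulVec_add, mulVec_smul, mulVec_smul]
  exact (WW T L).add_mem ((WW T L).smul_mem _ (A_o h hv₁ hu₁ hne hA))
    ((WW T L).add_mem ((WW T L).smul_mem _ (A_p h hv₁ hu₁ hne hA)) (A_S h hv₁ hu₁ hne hA hy))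

/-- irreducibility -/
theorem irr {U : Submodule ℂ (Fin n → ℂ)}
    (hU : ∀ a ∈ WW T L, ∀ b ∈ WW T L, ∀ y ∈ U, wT T a b *ᵥ y ∈ U) {u : Fin n → ℂ}
    (huW : u ∈ WW T L) (huU : u ∈ U) (hu0 : u ≠ 0) : WW T L ≤ U := by
  have hbu : B T u₁ v₁ ≠ 0 := by rwa [B_sym]
  -- from a direction to the period
  have hS : ∀ s ∈ SS T L, s ∈ U → s ≠ 0 → T.ω ∈ U := by
    intro s hs hsU hs0
    have h1 := hU T.ω o_mem (cj s) (S_mem (cj_SS h hv₁ hu₁ hne hs)) s hsU
    rw [wT_mulVec, hs.1, zero_smul, sub_zero] at h1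
    have h2 := U.smul_mem (B T (cj s) s)⁻¹ h1
    rwa [smul_smul, inv_mul_cancel₀ (B_neg T hs.1 hs.2.1 hs0), one_smul] at h2
  have ho : T.ω ∈ U := by
    obtain ⟨α, hα⟩ : ∃ α, α = B T (cj T.ω) u / hh T := ⟨_, rfl⟩
    obtain ⟨β, hβ⟩ : ∃ β, β = B T T.ω u / hh T := ⟨_, rfl⟩
    have hdec := dec (T := T) u
    rw [← hα, ← hβ] at hdec
    have hX := hU T.ω o_mem (cj T.ω) p_mem u huU
    have hX2 := hU T.ω o_mem (cj T.ω) p_mem _ hX
    have e1 : wT T T.ω (cj T.ω) *ᵥ u = (α * hh T) • T.ω - (β * hh T) • cj T.ω := by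
      rw [wT_mulVec, hα, hβ, div_mul_cancel₀ _ (hh_ne T), div_mul_cancel₀ _ (hh_ne T)]
    have e2 : wT T T.ω (cj T.ω) *ᵥ (wT T T.ω (cj T.ω) *ᵥ u) =
        hh T • ((α * hh T) • T.ω + (β * hh T) • cj T.ω) := by
      have e3 : wT T T.ω (cj T.ω) *ᵥ T.ω = hh T • T.ω := by
        rw [wT_mulVec, B_po, B_oo, zero_smul, sub_zero]
      have e4 : wT T T.ω (cj T.ω) *ᵥ cj T.ω = -(hh T • cj T.ω) := by
        rw [wT_mulVec, B_pp, zero_smul, zero_sub]
        rfl
      rw [e1, mulVec_sub, mulVec_smul, mulVec_smul, e3, e4, smul_neg, sub_neg_eq_add, smul_add,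
        smul_comm (α * hh T), smul_comm (β * hh T)]
    by_cases hα0 : α = 0
    · by_cases hβ0 : β = 0
      · rw [hα0, hβ0, zero_smul, zero_smul, zero_add, zero_add] at hdec
        exact hS u (by
          have h1 : pr T u ∈ SS T L := huW
          rwa [← hdec] at h1) huU hu0
      · -- the complex conjugate of the period
        have h1 : cj T.ω ∈ U := by
          rw [e1, hα0, zero_mul, zero_smul, zero_sub] at hX
          have h2 := U.smul_mem (β * hh T)⁻¹ (U.neg_mem hX)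
          rwa [neg_neg, smul_smul, inv_mul_cancel₀ (mul_ne_zero hβ0 (hh_ne T)), one_smul] at h2
        have h2 := hU T.ω o_mem u₁ (S_mem hu₁) _ h1
        rw [wT_mulVec, B_sym u₁ (cj T.ω), hu₁.2.1, zero_smul, zero_sub] at h2
        have h3 : u₁ ∈ U := by
          have h4 := U.smul_mem (hh T)⁻¹ (U.neg_mem h2)
          have h5 : B T T.ω (cj T.ω) = hh T := rfl
          rwa [neg_neg, h5, smul_smul, inv_mul_cancel₀ (hh_ne T), one_smul] at h4
        refine hS u₁ hu₁ h3 ?_
        rintro rfl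
        exact hne (bl_zero_right _ _)
    · have h1 := U.add_mem (U.smul_mem (hh T) hX) hX2
      rw [e2, e1] at h1
      have h2 : hh T • ((α * hh T) • T.ω - (β * hh T) • cj T.ω) +
          hh T • ((α * hh T) • T.ω + (β * hh T) • cj T.ω) = (2 * (hh T * (α * hh T))) • T.ω := by
        rw [← smul_add, mul_smul 2, mul_smul (hh T), ← smul_comm (hh T) (2 : ℂ), two_smul]
        congr 1
        abel
      rw [h2] at h1
      have h3 := U.smul_mem (2 * (hh T * (α * hh T)))⁻¹ h1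
      rwa [smul_smul, inv_mul_cancel₀ (mul_ne_zero two_ne_zero (mul_ne_zero (hh_ne T)
        (mul_ne_zero hα0 (hh_ne T)))), one_smul] at h3
  have hSU : ∀ v ∈ SS T L, v ∈ U := by
    intro v hv
    have h1 := hU v (S_mem hv) (cj T.ω) p_mem _ ho
    rw [wT_mulVec, B_po, B_sym v T.ω, hv.1, zero_smul, sub_zero] at h1
    have h2 := U.smul_mem (hh T)⁻¹ h1
    rwa [smul_smul, inv_mul_cancel₀ (hh_ne T), one_smul] at h2
  have hpU : cj T.ω ∈ U := by
    have h1 := hU (cj T.ω) p_mem v₁ (S_mem hv₁) _ (hSU u₁ hu₁)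
    rw [wT_mulVec, hu₁.2.1, zero_smul, sub_zero] at h1
    have h2 := U.smul_mem (B T v₁ u₁)⁻¹ h1
    rwa [smul_smul, inv_mul_cancel₀ hne, one_smul] at h2
  intro y hy
  rw [dec (T := T) y]
  exact U.add_mem (U.smul_mem _ ho) (U.add_mem (U.smul_mem _ hpU) (hSU _ hy))

end stable

section galois

/-- the conjugate subspace -/
def pull (σ : ℂ ≃+* ℂ) (P : Submodule ℂ (Fin n → ℂ)) : Submodule ℂ (Fin n → ℂ) where
  carrier := {y | (fun b => σ (y b)) ∈ P}
  zero_mem' := by
    change (fun b => σ ((0 : Fin n → ℂ) b)) ∈ P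
    have h1 : (fun b => σ ((0 : Fin n → ℂ) b)) = 0 := by
      funext b
      exact map_zero σ
    rw [h1]
    exact P.zero_mem
  add_mem' := by
    intro x y hx hy
    change (fun b => σ ((x + y) b)) ∈ P
    have h1 : (fun b => σ ((x + y) b)) = (fun b => σ (x b)) + fun b => σ (y b) := by
      funext b
      exact map_add σ _ _
    rw [h1]
    exact P.add_mem hx hy
  smul_mem' := by
    intro r x hx
    change (fun b => σ ((r • x) b)) ∈ P
    have h1 : (fun b => σ ((r • x) b)) = σ r • fun b => σ (x b) := by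
      funext b
      exact map_mul σ _ _
    rw [h1]
    exact P.smul_mem _ hx

theorem mem_pull {σ : ℂ ≃+* ℂ} {P : Submodule ℂ (Fin n → ℂ)} {y : Fin n → ℂ} :
    y ∈ pull σ P ↔ (fun b => σ (y b)) ∈ P := Iff.rfl

theorem finrank_pull (σ : ℂ ≃+* ℂ) (P : Submodule ℂ (Fin n → ℂ)) :
    finrank ℂ P ≤ finrank ℂ (pull σ P) := by
  let b := Module.finBasis ℂ P
  have h1 : LinearIndependent ℂ (fun i => ((b i : P) : Fin n → ℂ)) :=
    b.linearIndependent.map' P.subtype (Submodule.ker_subtype P)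
  let j : (Fin n → ℂ) →+ (Fin n → ℂ) :=
    { toFun := fun y c => σ.symm (y c)
      map_zero' := by
        funext c
        exact map_zero _
      map_add' := fun x y => by
        funext c
        exact map_add _ _ _ }
  have h2 : LinearIndependent ℂ (j ∘ fun i => ((b i : P) : Fin n → ℂ)) := by
    refine h1.map_of_injective_injective (i := fun r => σ r) j ?_ ?_ ?_
    · intro r hr
      exact (map_eq_zero_iff σ σ.injective).1 hr
    · intro m hm
      funext c
      have h3 := congrFun hm c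
      exact (map_eq_zero_iff σ.symm σ.symm.injective).1 h3
    · intro r m
      funext c
      change σ.symm (σ r * m c) = r * σ.symm (m c)
      rw [map_mul, RingEquiv.symm_apply_apply]
  have h3 : ∀ i, (j ∘ fun i => ((b i : P) : Fin n → ℂ)) i ∈ pull σ P := by
    intro i
    rw [mem_pull]
    have h4 : (fun c => σ ((j ∘ fun i => ((b i : P) : Fin n → ℂ)) i c)) = ((b i : P) : Fin n → ℂ) := by
      funext c
      exact σ.apply_symm_apply _
    rw [h4]
    exact (b i).2
  have h4 : LinearIndependent ℂ (fun i => (⟨_, h3 i⟩ : pull σ P)) :=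
    LinearIndependent.of_comp (pull σ P).subtype h2
  have h5 := h4.fintype_card_le_finrank
  rwa [Fintype.card_fin] at h5

/-- **Descent.** A subspace which is stable under the automorphisms is spanned by rational vectors. -/
theorem descent (F : Submodule ℂ (Fin n → ℂ))
    (hF : ∀ σ : ℂ ≃+* ℂ, ∀ y ∈ F, (fun b => σ (y b)) ∈ F) :
    ∀ (S : Finset (Fin n)), ∀ y ∈ F, (∀ b, b ∉ S → y b = 0) →
      y ∈ Submodule.span ℂ {x : Fin n → ℂ | (∀ b, ∃ q : ℚ, x b = (q : ℂ)) ∧ x ∈ F ∧ ∀ b, b ∉ S → x b = 0} := by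
  classical
  intro S
  induction S using Finset.strongInduction with
  | H S ih =>
    intro y hy hyS
    have hmono : ∀ S' : Finset (Fin n), S' ⊆ S →
        Submodule.span ℂ {x : Fin n → ℂ | (∀ b, ∃ q : ℚ, x b = (q : ℂ)) ∧ x ∈ F ∧ ∀ b, b ∉ S' → x b = 0} ≤
        Submodule.span ℂ {x : Fin n → ℂ | (∀ b, ∃ q : ℚ, x b = (q : ℂ)) ∧ x ∈ F ∧ ∀ b, b ∉ S → x b = 0} := by
      intro S' hS'
      refine Submodule.span_mono ?_
      rintro x ⟨h1, h2, h3⟩
      exact ⟨h1, h2, fun b hb => h3 b fun hb' => hb (hS' hb')⟩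
    by_cases hc : ∃ b ∈ S, ∃ w ∈ F, w ≠ 0 ∧ ∀ c, c ∉ S.erase b → w c = 0
    · obtain ⟨b, hb, w, hwF, hw0, hw⟩ := hc
      have h1 := ih (S.erase b) (Finset.erase_ssubset hb) w hwF hw
      obtain ⟨x, ⟨hxK, hxF, hxS⟩, hx0⟩ : ∃ x ∈ {x : Fin n → ℂ | (∀ b, ∃ q : ℚ, x b = (q : ℂ)) ∧ x ∈ F ∧
          ∀ c, c ∉ S.erase b → x c = 0}, x ≠ 0 := by
        by_contra hcon
        push Not at hcon
        refine hw0 ?_
        have h2 : Submodule.span ℂ {x : Fin n → ℂ | (∀ b, ∃ q : ℚ, x b = (q : ℂ)) ∧ x ∈ F ∧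
            ∀ c, c ∉ S.erase b → x c = 0} = ⊥ := by
          rw [Submodule.span_eq_bot]
          exact hcon
        rw [h2] at h1
        exact (Submodule.mem_bot ℂ).1 h1
      obtain ⟨c, hc⟩ := Function.ne_iff.1 hx0
      have hcS : c ∈ S.erase b := by
        by_contra h
        exact hc (hxS c h)
      have hcS' : c ∈ S := Finset.mem_of_mem_erase hcS
      have h3 : y - (y c / x c) • x ∈ Submodule.span ℂ {x : Fin n → ℂ | (∀ b, ∃ q : ℚ, x b = (q : ℂ)) ∧
          x ∈ F ∧ ∀ b, b ∉ S → x b = 0} := by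
        refine hmono (S.erase c) (Finset.erase_subset _ _) (ih (S.erase c)
          (Finset.erase_ssubset hcS') _ (Submodule.sub_mem _ hy (Submodule.smul_mem _ _ hxF)) ?_)
        intro d hd
        rw [Pi.sub_apply, Pi.smul_apply, smul_eq_mul]
        by_cases hdc : d = c
        · rw [hdc, div_mul_cancel₀ _ hc, sub_self]
        · have hdS : d ∉ S := fun h => hd (Finset.mem_erase.2 ⟨hdc, h⟩)
          rw [hyS d hdS, hxS d (fun h => hdS (Finset.mem_of_mem_erase h)), mul_zero, sub_zero]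
      have h4 : x ∈ Submodule.span ℂ {x : Fin n → ℂ | (∀ b, ∃ q : ℚ, x b = (q : ℂ)) ∧ x ∈ F ∧
          ∀ b, b ∉ S → x b = 0} :=
        Submodule.subset_span ⟨hxK, hxF, fun d hd => hxS d fun h => hd (Finset.mem_of_mem_erase h)⟩
      have h5 := Submodule.add_mem _ h3 (Submodule.smul_mem _ (y c / x c) h4)
      rwa [sub_add_cancel] at h5
    · push Not at hc
      by_cases hy0 : y = 0
      · rw [hy0]
        exact Submodule.zero_mem _
      obtain ⟨c, hyc⟩ := Function.ne_iff.1 hy0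
      have hcS : c ∈ S := by
        by_contra h
        exact hyc (hyS c h)
      have h1 : (y c)⁻¹ • y ∈ F := Submodule.smul_mem _ _ hy
      have h2 : ∀ b, ∃ q : ℚ, ((y c)⁻¹ • y) b = (q : ℂ) := by
        intro b
        by_contra hq
        push Not at hq
        obtain ⟨σ, hσ⟩ := Pool.Agent.W437.HD.exists_move hq
        have h3 : (fun b => σ (((y c)⁻¹ • y) b)) - (y c)⁻¹ • y = 0 := by
          by_contra h4
          obtain ⟨d, hd, hd'⟩ := hc c hcS _ (Submodule.sub_mem _ (hF σ _ h1) h1) h4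
          refine hd' ?_
          rw [Pi.sub_apply]
          by_cases hdc : d = c
          · rw [hdc, Pi.smul_apply, smul_eq_mul, inv_mul_cancel₀ hyc, map_one, sub_self]
          · have hdS : d ∉ S := fun h => hd (Finset.mem_erase.2 ⟨hdc, h⟩)
            rw [Pi.smul_apply, hyS d hdS, smul_zero, map_zero, sub_self]
        exact hσ (sub_eq_zero.1 (congrFun h3 b))
      have h3 : y = y c • ((y c)⁻¹ • y) := by rw [smul_smul, mul_inv_cancel₀ hyc, one_smul]
      rw [h3]
      refine Submodule.smul_mem _ _ (Submodule.subset_span ⟨h2, h1, fun d hd => ?_⟩)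
      rw [Pi.smul_apply, hyS d hd, smul_zero]

/-- A stable subspace which contains the period is everything. -/
theorem eq_top_of_stable {F : Submodule ℂ (Fin n → ℂ)}
    (hF : ∀ σ : ℂ ≃+* ℂ, ∀ y ∈ F, (fun b => σ (y b)) ∈ F) (ho : T.ω ∈ F) : F = ⊤ := by
  classical
  have hspan : F ≤ Submodule.span ℂ {x : Fin n → ℂ | (∀ b, ∃ q : ℚ, x b = (q : ℂ)) ∧ x ∈ F} := by
    intro y hy
    have h1 := descent F hF Finset.univ y hy (fun b hb => absurd (Finset.mem_univ b) hb)
    refine Submodule.span_mono ?_ h1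
    rintro x ⟨h2, h3, -⟩
    exact ⟨h2, h3⟩
  let Z : Submodule ℚ (Fin n → ℚ) :=
    { carrier := {q | (fun i => ((q i : ℚ) : ℂ)) ∈ F}
      add_mem' := by
        intro a b ha hb
        have h1 : (fun i => (((a + b) i : ℚ) : ℂ)) = (fun i => ((a i : ℚ) : ℂ)) +
            fun i => ((b i : ℚ) : ℂ) := by
          funext i
          simp
        change (fun i => (((a + b) i : ℚ) : ℂ)) ∈ F
        rw [h1]
        exact F.add_mem ha hb
      zero_mem' := by
        change (fun i => (((0 : Fin n → ℚ) i : ℚ) : ℂ)) ∈ F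
        have h1 : (fun i => (((0 : Fin n → ℚ) i : ℚ) : ℂ)) = 0 := by
          funext i
          simp
        rw [h1]
        exact F.zero_mem
      smul_mem' := by
        intro c a ha
        change (fun i => (((c • a) i : ℚ) : ℂ)) ∈ F
        have h1 : (fun i => (((c • a) i : ℚ) : ℂ)) = (c : ℂ) • fun i => ((a i : ℚ) : ℂ) := by
          funext i
          simp
        rw [h1]
        exact F.smul_mem _ ha }
  by_cases hZ : Z = ⊤
  · rw [eq_top_iff]
    intro y _
    have h1 : y = ∑ i, y i • (Pi.single i (1 : ℂ) : Fin n → ℂ) := by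
      funext j
      simp [Finset.sum_apply, Pi.single_apply]
    rw [h1]
    refine F.sum_mem fun i _ => F.smul_mem _ ?_
    have h2 : (Pi.single i 1 : Fin n → ℚ) ∈ Z := hZ ▸ Submodule.mem_top
    have h3 : (fun j => (((Pi.single i 1 : Fin n → ℚ) j : ℚ) : ℂ)) =
        (Pi.single i (1 : ℂ) : Fin n → ℂ) := by
      funext j
      by_cases hj : j = i
      · subst hj
        simp
      · simp [Pi.single_eq_of_ne hj]
    have h4 : (fun j => (((Pi.single i 1 : Fin n → ℚ) j : ℚ) : ℂ)) ∈ F := h2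
    rwa [h3] at h4
  · exfalso
    obtain ⟨f, hf0, hf⟩ := Submodule.exists_le_ker_of_lt_top Z (lt_top_iff_ne_top.2 hZ)
    obtain ⟨c, hc⟩ : ∃ c : Fin n → ℚ, ∀ i, c i = f (Pi.single i 1) := ⟨_, fun i => rfl⟩
    have hfc : ∀ q : Fin n → ℚ, f q = ∑ i, c i * q i := by
      intro q
      have h1 : q = ∑ i, q i • (Pi.single i (1 : ℚ) : Fin n → ℚ) := by
        funext j
        simp [Finset.sum_apply, Pi.single_apply]
      conv_lhs => rw [h1]
      rw [map_sum]
      refine Finset.sum_congr rfl fun i _ => ?_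
      rw [map_smul, hc, smul_eq_mul, mul_comm]
    have h1 : ∀ y ∈ F, ∑ i, (c i : ℂ) * y i = 0 := by
      intro y hy
      have h2 := hspan hy
      clear hy
      induction h2 using Submodule.span_induction with
      | mem x hx =>
        obtain ⟨hx1, hx2⟩ := hx
        choose q hq using hx1
        have h3 : q ∈ Z := by
          change (fun i => ((q i : ℚ) : ℂ)) ∈ F
          have h4 : (fun i => ((q i : ℚ) : ℂ)) = x := funext fun i => (hq i).symm
          rwa [h4]
        have h4 : f q = 0 := hf h3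
        rw [hfc] at h4
        have h5 := congrArg (fun z : ℚ => (z : ℂ)) h4
        simp only [Rat.cast_sum, Rat.cast_mul, Rat.cast_zero] at h5
        rw [← h5]
        exact Finset.sum_congr rfl fun i _ => by rw [hq i]
      | zero => simp
      | add x y _ _ hx' hy' =>
        simp only [Pi.add_apply, mul_add, Finset.sum_add_distrib]
        rw [hx', hy', add_zero]
      | smul a x _ hx' =>
        simp only [Pi.smul_apply, smul_eq_mul]
        rw [← mul_zero a, ← hx', Finset.mul_sum]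
        exact Finset.sum_congr rfl fun i _ => by ring
    have h2 := h1 T.ω ho
    have h3 := Fintype.linearIndependent_iff.1 T.transcendental c (by
      rw [← h2]
      exact Finset.sum_congr rfl fun i _ => Algebra.smul_def _ _)
    apply hf0
    ext q
    simp [hfc, h3]

end galois

/-- **The main lemma.** A Lie algebra of skew matrices which is stable under the automorphisms of the
complex numbers and moves the period in more than `n / 2 - 1` directions contains all the skew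
matrices. -/
theorem all_mem (h : Good T L) (hd : n < 2 * finrank ℂ (SS T L) + 2) (a b : Fin n → ℂ) :
    wT T a b ∈ L := by
  obtain ⟨v₁, hv₁, u₁, hu₁, hne⟩ := exists_pair (SS T L) (fun v hv => hv.1) (fun v hv => hv.2.1) hd
  have hbig : finrank ℂ (SS T L) + 2 ≤ finrank ℂ (WW T L) := by
    let f : (ℂ × ℂ) × SS T L →ₗ[ℂ] WW T L :=
      LinearMap.codRestrict (WW T L)
        (((LinearMap.fst ℂ ℂ ℂ).smulRight T.ω + (LinearMap.snd ℂ ℂ ℂ).smulRight (cj T.ω)).comp
          (LinearMap.fst ℂ (ℂ × ℂ) (SS T L)) +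
          (SS T L).subtype.comp (LinearMap.snd ℂ (ℂ × ℂ) (SS T L)))
        (fun p => (WW T L).add_mem ((WW T L).add_mem ((WW T L).smul_mem _ o_mem)
          ((WW T L).smul_mem _ p_mem)) (S_mem p.2.2))
    have hf : ∀ p, ((f p : WW T L) : Fin n → ℂ) = p.1.1 • T.ω + p.1.2 • cj T.ω + p.2 := fun p => rfl
    have hinj : Function.Injective f := by
      rw [injective_iff_map_eq_zero]
      intro p hp
      have h1 : p.1.1 • T.ω + p.1.2 • cj T.ω + (p.2 : Fin n → ℂ) = 0 := by
        rw [← hf, hp]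
        rfl
      have e1 : bl (cM T.Q) T.ω T.ω = 0 := B_oo T
      have e2 : bl (cM T.Q) (cj T.ω) (cj T.ω) = 0 := B_pp T
      have e3 : bl (cM T.Q) (cj T.ω) T.ω = hh T := B_po T
      have e4 : bl (cM T.Q) T.ω (cj T.ω) = hh T := rfl
      have e5 : bl (cM T.Q) T.ω (p.2 : Fin n → ℂ) = 0 := p.2.2.1
      have e6 : bl (cM T.Q) (cj T.ω) (p.2 : Fin n → ℂ) = 0 := p.2.2.2.1
      have h2 : p.1.2 = 0 := by
        have h3 := congrArg (bl (cM T.Q) T.ω) h1
        rw [bl_add_right, bl_add_right, bl_smul_right, bl_smul_right, e1, e4, e5, bl_zero_right,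
          mul_zero, zero_add, add_zero] at h3
        exact (mul_eq_zero.1 h3).resolve_right (hh_ne T)
      have h3 : p.1.1 = 0 := by
        have h3 := congrArg (bl (cM T.Q) (cj T.ω)) h1
        rw [bl_add_right, bl_add_right, bl_smul_right, bl_smul_right, e2, e3, e6, bl_zero_right,
          mul_zero, add_zero, add_zero] at h3
        exact (mul_eq_zero.1 h3).resolve_right (hh_ne T)
      rw [h2, h3, zero_smul, zero_smul, zero_add, zero_add] at h1
      refine Prod.ext (Prod.ext h3 h2) (Subtype.ext h1)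
    have h1 := LinearMap.finrank_le_finrank_of_injective hinj
    rw [Module.finrank_prod, Module.finrank_prod, Module.finrank_self] at h1
    omega
  have hst : ∀ σ : ℂ ≃+* ℂ, WW T L ≤ pull σ (WW T L) := by
    intro σ
    have hpull : ∀ A ∈ L, ∀ y ∈ pull σ (WW T L), A *ᵥ y ∈ pull σ (WW T L) := by
      intro A hA y hy
      rw [mem_pull] at hy ⊢
      have h1 : (fun b => σ ((A *ᵥ y) b)) = A.map σ *ᵥ fun b => σ (y b) := by
        funext b
        simp [mulVec, dotProduct]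
      rw [h1]
      exact A_W h hv₁ hu₁ hne (h.aut σ A hA) hy
    by_cases hU : WW T L ⊓ pull σ (WW T L) = ⊥
    · exfalso
      have h1 := Submodule.finrank_sup_add_finrank_inf_eq (WW T L) (pull σ (WW T L))
      rw [hU, finrank_bot] at h1
      have h2 := finrank_pull σ (WW T L)
      have h3 := Submodule.finrank_le (WW T L ⊔ pull σ (WW T L))
      rw [Module.finrank_fintype_fun_eq_card, Fintype.card_fin] at h3
      omega
    · obtain ⟨u, hu, hu0⟩ := Submodule.exists_mem_ne_zero_of_ne_bot hU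
      obtain ⟨hu1, hu2⟩ := Submodule.mem_inf.1 hu
      exact irr h hv₁ hu₁ hne (fun a ha b hb y hy =>
        hpull _ (wd_W h hv₁ hu₁ hne ha hb) y hy) hu1 hu2 hu0
  have htop : WW T L = ⊤ := eq_top_of_stable (T := T) (fun σ y hy => hst σ hy) o_mem
  exact wd_W h hv₁ hu₁ hne (htop ▸ Submodule.mem_top) (htop ▸ Submodule.mem_top)

end

end Pool.Agent.X311.K3
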