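import Mathlib
import Pool.Agent.X311.K3c

/-!
# The action of pairs of matrices on tensors
-/

set_option autoImplicit false
set_option linter.unusedSectionVars false

namespace Pool.Agent.X311.K3

open Matrix Module Function

noncomputable section

section act

variable {P : Type} [Fintype P] [DecidableEq P] {n v : ℕ}

/-- the action of a matrix on one variable -/
def aT1 (p : P) (A : Matrix (Fin n) (Fin n) ℂ) (F : (P → Fin n) → Fin v → ℂ) :
    (P → Fin n) → Fin v → ℂ :=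
  fun J => ∑ l, A (J p) l • F (update J p l)

theorem aT1_aT1 (p : P) (A C : Matrix (Fin n) (Fin n) ℂ) (F : (P → Fin n) → Fin v → ℂ) :
    aT1 p A (aT1 p C F) = aT1 p (A * C) F := by
  funext J
  simp only [aT1, update_self, update_idem, Matrix.mul_apply, Finset.smul_sum, Finset.sum_smul,
    smul_smul]
  rw [Finset.sum_comm]

theorem aT1_comm {p q : P} (h : p ≠ q) (A C : Matrix (Fin n) (Fin n) ℂ)
    (F : (P → Fin n) → Fin v → ℂ) : aT1 p A (aT1 q C F) = aT1 q C (aT1 p A F) := by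
  funext J
  simp only [aT1, Finset.smul_sum, update_of_ne h, update_of_ne (Ne.symm h)]
  rw [Finset.sum_comm]
  refine Finset.sum_congr rfl fun d _ => Finset.sum_congr rfl fun c _ => ?_
  rw [update_comm h, smul_comm]

theorem aT1_add_right (p : P) (A : Matrix (Fin n) (Fin n) ℂ) (F G : (P → Fin n) → Fin v → ℂ) :
    aT1 p A (F + G) = aT1 p A F + aT1 p A G := by
  funext J
  simp only [aT1, Pi.add_apply, smul_add, Finset.sum_add_distrib]

theorem aT1_smul_right (p : P) (A : Matrix (Fin n) (Fin n) ℂ) (r : ℂ)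
    (F : (P → Fin n) → Fin v → ℂ) : aT1 p A (r • F) = r • aT1 p A F := by
  funext J
  simp only [aT1, Pi.smul_apply, Finset.smul_sum]
  exact Finset.sum_congr rfl fun c _ => smul_comm _ _ _

theorem aT1_sum_right (p : P) (A : Matrix (Fin n) (Fin n) ℂ) {ι : Type} (s : Finset ι)
    (F : ι → (P → Fin n) → Fin v → ℂ) : aT1 p A (∑ i ∈ s, F i) = ∑ i ∈ s, aT1 p A (F i) := by
  classical
  induction s using Finset.induction_on with
  | empty =>
    rw [Finset.sum_empty, Finset.sum_empty]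
    have h := aT1_smul_right p A 0 (0 : (P → Fin n) → Fin v → ℂ)
    rwa [zero_smul, zero_smul] at h
  | insert i s hi ih => rw [Finset.sum_insert hi, Finset.sum_insert hi, aT1_add_right, ih]

theorem aT1_add_left (p : P) (A C : Matrix (Fin n) (Fin n) ℂ) (F : (P → Fin n) → Fin v → ℂ) :
    aT1 p (A + C) F = aT1 p A F + aT1 p C F := by
  funext J
  simp only [aT1, Pi.add_apply, Matrix.add_apply, add_smul, Finset.sum_add_distrib]

theorem aT1_smul_left (p : P) (r : ℂ) (A : Matrix (Fin n) (Fin n) ℂ)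
    (F : (P → Fin n) → Fin v → ℂ) : aT1 p (r • A) F = r • aT1 p A F := by
  funext J
  simp only [aT1, Pi.smul_apply, Matrix.smul_apply, smul_assoc, Finset.smul_sum]

/-- the action on all the variables -/
def aT (A : Matrix (Fin n) (Fin n) ℂ) (F : (P → Fin n) → Fin v → ℂ) : (P → Fin n) → Fin v → ℂ :=
  ∑ p, aT1 p A F

/-- the action on the values -/
def aY (Z : Matrix (Fin v) (Fin v) ℂ) (F : (P → Fin n) → Fin v → ℂ) : (P → Fin n) → Fin v → ℂ :=
  fun J => Z *ᵥ F J

theorem aT_add (A C : Matrix (Fin n) (Fin n) ℂ) (F : (P → Fin n) → Fin v → ℂ) :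
    aT (A + C) F = aT A F + aT C F := by
  unfold aT
  rw [← Finset.sum_add_distrib]
  exact Finset.sum_congr rfl fun p _ => aT1_add_left p _ _ F

theorem aT_smul (r : ℂ) (A : Matrix (Fin n) (Fin n) ℂ) (F : (P → Fin n) → Fin v → ℂ) :
    aT (r • A) F = r • aT A F := by
  unfold aT
  rw [Finset.smul_sum]
  exact Finset.sum_congr rfl fun p _ => aT1_smul_left p r _ F

theorem aT_add_right (A : Matrix (Fin n) (Fin n) ℂ) (F G : (P → Fin n) → Fin v → ℂ) :
    aT A (F + G) = aT A F + aT A G := by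
  unfold aT
  rw [← Finset.sum_add_distrib]
  exact Finset.sum_congr rfl fun p _ => aT1_add_right p _ F G

theorem aT_zero_right (A : Matrix (Fin n) (Fin n) ℂ) :
    aT A (0 : (P → Fin n) → Fin v → ℂ) = 0 := by
  unfold aT
  refine Finset.sum_eq_zero fun p _ => ?_
  have h := aT1_smul_right p A 0 (0 : (P → Fin n) → Fin v → ℂ)
  rwa [zero_smul, zero_smul] at h

theorem aT_br (A C : Matrix (Fin n) (Fin n) ℂ) (F : (P → Fin n) → Fin v → ℂ) :
    aT (A * C - C * A) F = aT A (aT C F) - aT C (aT A F) := by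
  have h1 : aT A (aT C F) = ∑ p : P, ∑ q : P, aT1 p A (aT1 q C F) := by
    unfold aT
    exact Finset.sum_congr rfl fun p _ => aT1_sum_right p _ _ _
  have h2 : aT C (aT A F) = ∑ p : P, ∑ q : P, aT1 q C (aT1 p A F) := by
    unfold aT
    rw [Finset.sum_comm]
    exact Finset.sum_congr rfl fun p _ => aT1_sum_right p _ _ _
  rw [h1, h2, ← Finset.sum_sub_distrib]
  unfold aT
  refine Finset.sum_congr rfl fun p _ => ?_
  rw [← Finset.sum_sub_distrib, Finset.sum_eq_single p]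
  · rw [aT1_aT1, aT1_aT1]
    have h3 : A * C - C * A = A * C + (-1 : ℂ) • (C * A) := by
      rw [neg_smul, one_smul, ← sub_eq_add_neg]
    rw [h3, aT1_add_left, aT1_smul_left, neg_smul, one_smul, ← sub_eq_add_neg]
  · intro q _ hq
    rw [aT1_comm (Ne.symm hq), sub_self]
  · intro h
    exact absurd (Finset.mem_univ _) h

theorem aT_apply (A : Matrix (Fin n) (Fin n) ℂ) (F : (P → Fin n) → Fin v → ℂ) (J : P → Fin n)
    (b : Fin v) : aT A F J b = ∑ p, ∑ l, A (J p) l * F (update J p l) b := by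
  unfold aT
  rw [Finset.sum_apply, Finset.sum_apply]
  refine Finset.sum_congr rfl fun p _ => ?_
  unfold aT1
  rw [Finset.sum_apply]
  rfl

theorem aY_add (Z W : Matrix (Fin v) (Fin v) ℂ) (F : (P → Fin n) → Fin v → ℂ) :
    aY (Z + W) F = aY Z F + aY W F := funext fun _ => add_mulVec _ _ _

theorem aY_smul (r : ℂ) (Z : Matrix (Fin v) (Fin v) ℂ) (F : (P → Fin n) → Fin v → ℂ) :
    aY (r • Z) F = r • aY Z F := funext fun _ => smul_mulVec _ _ _

theorem aY_add_right (Z : Matrix (Fin v) (Fin v) ℂ) (F G : (P → Fin n) → Fin v → ℂ) :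
    aY Z (F + G) = aY Z F + aY Z G := funext fun _ => mulVec_add _ _ _

theorem aY_zero_right (Z : Matrix (Fin v) (Fin v) ℂ) : aY Z (0 : (P → Fin n) → Fin v → ℂ) = 0 :=
  funext fun _ => mulVec_zero _

theorem aY_br (Z W : Matrix (Fin v) (Fin v) ℂ) (F : (P → Fin n) → Fin v → ℂ) :
    aY (Z * W - W * Z) F = aY Z (aY W F) - aY W (aY Z F) := by
  funext J
  change (Z * W - W * Z) *ᵥ F J = Z *ᵥ (W *ᵥ F J) - W *ᵥ (Z *ᵥ F J)
  rw [sub_mulVec, mulVec_mulVec, mulVec_mulVec]

theorem aT_aY (A : Matrix (Fin n) (Fin n) ℂ) (Z : Matrix (Fin v) (Fin v) ℂ)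
    (F : (P → Fin n) → Fin v → ℂ) : aT A (aY Z F) = aY Z (aT A F) := by
  funext J b
  rw [aT_apply]
  change _ = ∑ c, Z b c * aT A F J c
  simp only [aT_apply, Finset.mul_sum]
  symm
  rw [Finset.sum_comm]
  refine Finset.sum_congr rfl fun p _ => ?_
  rw [Finset.sum_comm]
  refine Finset.sum_congr rfl fun l _ => ?_
  change _ = _ * ∑ c, Z b c * F (update J p l) c
  rw [Finset.mul_sum]
  exact Finset.sum_congr rfl fun c _ => by ring

/-- pairs of matrices -/
abbrev R2 (n v : ℕ) : Type := Matrix (Fin n) (Fin n) ℂ × Matrix (Fin v) (Fin v) ℂ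

/-- the action of a pair -/
def ac (x : R2 n v) (F : (P → Fin n) → Fin v → ℂ) : (P → Fin n) → Fin v → ℂ := aT x.1 F + aY x.2 F

theorem ac_add (x y : R2 n v) (F : (P → Fin n) → Fin v → ℂ) : ac (x + y) F = ac x F + ac y F := by
  unfold ac
  rw [Prod.fst_add, Prod.snd_add, aT_add, aY_add]
  abel

theorem ac_smul (r : ℂ) (x : R2 n v) (F : (P → Fin n) → Fin v → ℂ) : ac (r • x) F = r • ac x F := by
  unfold ac
  rw [Prod.smul_fst, Prod.smul_snd, aT_smul, aY_smul, smul_add]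

theorem ac_zero_right (x : R2 n v) : ac x (0 : (P → Fin n) → Fin v → ℂ) = 0 := by
  unfold ac
  rw [aT_zero_right, aY_zero_right, add_zero]

theorem ac_br (x y : R2 n v) (F : (P → Fin n) → Fin v → ℂ) :
    ac (x * y - y * x) F = ac x (ac y F) - ac y (ac x F) := by
  unfold ac
  have h1 : (x * y - y * x).1 = x.1 * y.1 - y.1 * x.1 := rfl
  have h2 : (x * y - y * x).2 = x.2 * y.2 - y.2 * x.2 := rfl
  rw [h1, h2, aT_br, aY_br, aT_add_right, aT_add_right, aY_add_right, aY_add_right, aT_aY, aT_aY]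
  abel

/-- a rational tensor as a complex tensor -/
def cF (f : (P → Fin n) → Fin v → ℚ) : (P → Fin n) → Fin v → ℂ := fun J b => ((f J b : ℚ) : ℂ)

theorem phi_ac (φ : ℂ →ₗ[ℚ] ℂ) (x : R2 n v) (f : (P → Fin n) → Fin v → ℚ) (J : P → Fin n)
    (b : Fin v) : φ (ac x (cF f) J b) = ac (x.1.map φ, x.2.map φ) (cF f) J b := by
  have h1 : ∀ (c : ℂ) (q : ℚ), φ (c * (q : ℂ)) = φ c * (q : ℂ) := by
    intro c q
    have h2 : c * (q : ℂ) = q • c := by
      rw [Algebra.smul_def, mul_comm]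
      rfl
    rw [h2, map_smul, Algebra.smul_def, mul_comm]
    rfl
  have h2 : ∀ x : R2 n v, ac x (cF f) J b = ∑ p, ∑ l, x.1 (J p) l * ((f (update J p l) b : ℚ) : ℂ) +
      ∑ c, x.2 b c * ((f J c : ℚ) : ℂ) := by
    intro x
    unfold ac
    rw [Pi.add_apply, Pi.add_apply, aT_apply]
    rfl
  rw [h2, h2, map_add, map_sum, map_sum]
  congr 1
  · refine Finset.sum_congr rfl fun p _ => ?_
    rw [map_sum]
    exact Finset.sum_congr rfl fun l _ => h1 _ _
  · exact Finset.sum_congr rfl fun c _ => h1 _ _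

end act

section stab

variable {P : Type} [Fintype P] [DecidableEq P] {n v : ℕ} (T : Period n)
  (f : (P → Fin n) → Fin v → ℚ)

theorem Sk_add {M A C : Matrix (Fin n) (Fin n) ℂ} (hA : Sk M A) (hC : Sk M C) : Sk M (A + C) := by
  unfold Sk at hA hC ⊢
  rw [transpose_add, add_mul, mul_add]
  calc _ = (A.transpose * M + M * A) + (C.transpose * M + M * C) := by abel
    _ = 0 := by rw [hA, hC, add_zero]

theorem Sk_smul {M A : Matrix (Fin n) (Fin n) ℂ} (r : ℂ) (hA : Sk M A) : Sk M (r • A) := by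
  unfold Sk at hA ⊢
  rw [transpose_smul, smul_mul_assoc, mul_smul_comm, ← smul_add, hA, smul_zero]

theorem Sk_zero {M : Matrix (Fin n) (Fin n) ℂ} : Sk M 0 := by
  unfold Sk
  rw [transpose_zero, zero_mul, mul_zero, add_zero]

theorem Sk_br {M A C : Matrix (Fin n) (Fin n) ℂ} (hA : Sk M A) (hC : Sk M C) :
    Sk M (A * C - C * A) := by
  unfold Sk at hA hC ⊢
  have h1 : A.transpose * M = -(M * A) := eq_neg_of_add_eq_zero_left hA
  have h2 : C.transpose * M = -(M * C) := eq_neg_of_add_eq_zero_left hC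
  rw [transpose_sub, transpose_mul, transpose_mul, sub_mul, mul_assoc, mul_assoc, h1, h2, mul_neg,
    mul_neg, ← mul_assoc, ← mul_assoc, h1, h2, mul_sub, neg_mul, neg_mul, neg_neg, neg_neg,
    mul_assoc, mul_assoc]
  abel

theorem Sk_phi (φ : ℂ →ₗ[ℚ] ℂ) {Q : Matrix (Fin n) (Fin n) ℚ} {A : Matrix (Fin n) (Fin n) ℂ}
    (hA : Sk (cM Q) A) : Sk (cM Q) (A.map φ) := by
  have h1 : ∀ (c : ℂ) (q : ℚ), φ (c * (q : ℂ)) = φ c * (q : ℂ) := by
    intro c q
    have h2 : c * (q : ℂ) = q • c := by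
      rw [Algebra.smul_def, mul_comm]
      rfl
    rw [h2, map_smul, Algebra.smul_def, mul_comm]
    rfl
  unfold Sk at hA ⊢
  ext i j
  have h2 := congrArg φ (congrFun (congrFun hA i) j)
  rw [Matrix.add_apply, map_add, Matrix.mul_apply, Matrix.mul_apply, map_sum, map_sum] at h2
  rw [Matrix.add_apply, Matrix.mul_apply, Matrix.mul_apply]
  refine Eq.trans ?_ (h2.trans (map_zero φ))
  congr 1
  · refine Finset.sum_congr rfl fun k _ => ?_
    exact (h1 _ _).symm
  · refine Finset.sum_congr rfl fun k _ => ?_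
    rw [mul_comm, mul_comm (cM Q i k)]
    exact (h1 _ _).symm

/-- the pairs which kill a class -/
def NN : Submodule ℂ (R2 n v) where
  carrier := {x | Sk (cM T.Q) x.1 ∧ ac x (cF f) = 0}
  add_mem' := by
    rintro x y ⟨h1, h2⟩ ⟨h3, h4⟩
    exact ⟨Sk_add h1 h3, by rw [ac_add, h2, h4, add_zero]⟩
  zero_mem' := ⟨Sk_zero, by
    have h := ac_smul 0 (0 : R2 n v) (cF f)
    rwa [zero_smul, zero_smul] at h⟩
  smul_mem' := by
    rintro c x ⟨h1, h2⟩
    exact ⟨Sk_smul c h1, by rw [ac_smul, h2, smul_zero]⟩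

variable {T f}

theorem NN_br {x y : R2 n v} (hx : x ∈ NN T f) (hy : y ∈ NN T f) : x * y - y * x ∈ NN T f := by
  refine ⟨Sk_br hx.1 hy.1, ?_⟩
  rw [ac_br, hx.2, hy.2, ac_zero_right, ac_zero_right, sub_zero]

theorem NN_phi (φ : ℂ →ₗ[ℚ] ℂ) {x : R2 n v} (hx : x ∈ NN T f) : (x.1.map φ, x.2.map φ) ∈ NN T f := by
  refine ⟨Sk_phi φ hx.1, ?_⟩
  funext J b
  rw [← phi_ac, hx.2]
  exact map_zero φ

/-- an automorphism as a linear map -/
def autL (σ : ℂ ≃+* ℂ) : ℂ →ₗ[ℚ] ℂ := (σ : ℂ →+ ℂ).toRatLinearMap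

theorem autL_apply (σ : ℂ ≃+* ℂ) (c : ℂ) : autL σ c = σ c := rfl

variable (T f)

/-- the matrices which kill a class -/
def LL : Submodule ℂ (Matrix (Fin n) (Fin n) ℂ) :=
  (NN T f).comap (LinearMap.inl ℂ (Matrix (Fin n) (Fin n) ℂ) (Matrix (Fin v) (Fin v) ℂ))

variable {T f}

theorem mem_LL {A : Matrix (Fin n) (Fin n) ℂ} : A ∈ LL T f ↔ (A, 0) ∈ NN T f := Iff.rfl

theorem good_LL : Good T (LL T f) where
  skew A hA := (mem_LL.1 hA).1
  br A hA C hC := by
    have h1 := NN_br (mem_LL.1 hA) (mem_LL.1 hC)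
    rw [mem_LL]
    have h2 : ((A, (0 : Matrix (Fin v) (Fin v) ℂ)) * (C, 0) - (C, 0) * (A, 0) : R2 n v) =
        (A * C - C * A, 0) := by
      refine Prod.ext rfl ?_
      change (0 : Matrix (Fin v) (Fin v) ℂ) * 0 - 0 * 0 = 0
      rw [mul_zero, sub_zero]
    rwa [h2] at h1
  aut σ A hA := by
    have h1 := NN_phi (autL σ) (mem_LL.1 hA)
    rw [mem_LL]
    have h2 : ((A.map (autL σ), (0 : Matrix (Fin v) (Fin v) ℂ).map (autL σ)) : R2 n v) =
        (A.map σ, 0) := by
      refine Prod.ext rfl ?_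
      ext i j
      exact map_zero (autL σ)
    rwa [h2] at h1

end stab

end

end Pool.Agent.X311.K3
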