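import Mathlib
import Pool.Agent.X311.K3d
import Pool.Agent.X311.IndepF
import Pool.Agent.TH504.CB.DerK

/-!
# Derivations of the period of a K3 surface
-/

set_option autoImplicit false
set_option linter.unusedSectionVars false

namespace Pool.Agent.X311.K3

open Matrix Module Function Pool.Agent.TH131.GHC Pool.Agent.TH504.VY Pool.Agent.TH504.CB
  Pool.Agent.X311

noncomputable section

variable {n : ℕ} (T : Period n)

theorem op_eq : T.op = (2 / hh T) • wT T T.ω (cj T.ω) := rfl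

theorem op_sk : Sk (cM T.Q) T.op := Sk_smul _ (wd_sk (cM_symm T) _ _)

theorem op_o : T.op *ᵥ T.ω = (2 : ℂ) • T.ω := by
  rw [op_eq, smul_mulVec, wT_mulVec, B_po, B_oo, zero_smul, sub_zero, smul_smul,
    div_mul_cancel₀ _ (hh_ne T)]

theorem op_p : T.op *ᵥ cj T.ω = (-2 : ℂ) • cj T.ω := by
  have e4 : B T T.ω (cj T.ω) = hh T := rfl
  rw [op_eq, smul_mulVec, wT_mulVec, B_pp, e4, zero_smul, zero_sub, smul_neg, smul_smul,
    div_mul_cancel₀ _ (hh_ne T), neg_smul]

theorem op_s {y : Fin n → ℂ} (h1 : B T T.ω y = 0) (h2 : B T (cj T.ω) y = 0) : T.op *ᵥ y = 0 := by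
  rw [op_eq, smul_mulVec, wT_mulVec, h1, h2, zero_smul, zero_smul, sub_zero, smul_zero]

/-- the lowering part -/
theorem op_low {y : Fin n → ℂ} (h1 : B T T.ω y = 0) (h2 : B T (cj T.ω) y = 0) :
    T.op * wT T y (cj T.ω) - wT T y (cj T.ω) * T.op = ((-2 : ℤ) : ℂ) • wT T y (cj T.ω) := by
  rw [wT, (op_sk T).br (cM_symm T), op_s T h1 h2, op_p, wd_zero_left, zero_add, wd_smul_right]
  push_cast
  rfl

/-- the raising part -/
theorem op_high {y : Fin n → ℂ} (h1 : B T T.ω y = 0) (h2 : B T (cj T.ω) y = 0) :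
    T.op * wT T T.ω y - wT T T.ω y * T.op = ((2 : ℤ) : ℂ) • wT T T.ω y := by
  have h3 : wd (cM T.Q) T.ω 0 = 0 := by rw [wd_anti, wd_zero_left, neg_zero]
  rw [wT, (op_sk T).br (cM_symm T), op_s T h1 h2, op_o, h3, add_zero, wd_smul_left]
  push_cast
  rfl

/-- the derivative of a vector -/
def dv (δ : Derivation ℚ ℂ ℂ) (a : Fin n → ℂ) : Fin n → ℂ := fun i => δ (a i)

theorem der_rat (δ : Derivation ℚ ℂ ℂ) (q : ℚ) : δ ((q : ℚ) : ℂ) = 0 := by
  have h := δ.map_algebraMap q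
  exact h

theorem der_mv (δ : Derivation ℚ ℂ ℂ) (Q : Matrix (Fin n) (Fin n) ℚ) (a : Fin n → ℂ) (i : Fin n) :
    δ ((cM Q *ᵥ a) i) = (cM Q *ᵥ dv δ a) i := by
  simp only [mulVec, dotProduct, map_sum]
  refine Finset.sum_congr rfl fun k _ => ?_
  rw [Derivation.leibniz, smul_eq_mul, smul_eq_mul]
  have h : δ (cM Q i k) = 0 := der_rat δ _
  rw [h, mul_zero, add_zero]
  rfl

theorem der_bl (δ : Derivation ℚ ℂ ℂ) (a b : Fin n → ℂ) :
    δ (B T a b) = B T (dv δ a) b + B T a (dv δ b) := by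
  have h : ∀ i, δ (a i * (cM T.Q *ᵥ b) i) =
      dv δ a i * (cM T.Q *ᵥ b) i + a i * (cM T.Q *ᵥ dv δ b) i := by
    intro i
    rw [Derivation.leibniz, smul_eq_mul, smul_eq_mul, der_mv]
    change _ = δ (a i) * _ + _
    ring
  change δ (∑ i, a i * (cM T.Q *ᵥ b) i) = ∑ i, dv δ a i * (cM T.Q *ᵥ b) i +
    ∑ i, a i * (cM T.Q *ᵥ dv δ b) i
  rw [map_sum, ← Finset.sum_add_distrib]
  exact Finset.sum_congr rfl fun i _ => h i

theorem der_wd (δ : Derivation ℚ ℂ ℂ) (a b : Fin n → ℂ) :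
    (wT T a b).map δ = wT T (dv δ a) b + wT T a (dv δ b) := by
  ext i j
  have h : ∀ a b : Fin n → ℂ, δ (a i * (cM T.Q *ᵥ b) j) =
      dv δ a i * (cM T.Q *ᵥ b) j + a i * (cM T.Q *ᵥ dv δ b) j := by
    intro a b
    rw [Derivation.leibniz, smul_eq_mul, smul_eq_mul, der_mv]
    change _ = δ (a i) * _ + _
    ring
  change δ (a i * (cM T.Q *ᵥ b) j - b i * (cM T.Q *ᵥ a) j) =
    (dv δ a i * (cM T.Q *ᵥ b) j - b i * (cM T.Q *ᵥ dv δ a) j) +
      (a i * (cM T.Q *ᵥ dv δ b) j - dv δ b i * (cM T.Q *ᵥ a) j)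
  rw [map_sub, h, h]
  ring

theorem der_oo (δ : Derivation ℚ ℂ ℂ) : B T T.ω (dv δ T.ω) = 0 := by
  have h := der_bl T δ T.ω T.ω
  rw [B_oo, map_zero, B_sym (dv δ T.ω), ← two_mul] at h
  exact (mul_eq_zero.1 h.symm).resolve_left two_ne_zero

theorem der_pp (δ : Derivation ℚ ℂ ℂ) : B T (cj T.ω) (dv δ (cj T.ω)) = 0 := by
  have h := der_bl T δ (cj T.ω) (cj T.ω)
  rw [B_pp, map_zero, B_sym (dv δ (cj T.ω)), ← two_mul] at h
  exact (mul_eq_zero.1 h.symm).resolve_left two_ne_zero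

/-- **The derivative of the Hodge operator.** -/
theorem der_op (δ : Derivation ℚ ℂ ℂ) : T.op.map δ =
    (2 / hh T) • wT T (pr T (dv δ T.ω)) (cj T.ω) +
      (2 / hh T) • wT T T.ω (pr T (dv δ (cj T.ω))) := by
  have h1 : T.op.map δ = (δ (2 / hh T)) • wT T T.ω (cj T.ω) +
      (2 / hh T) • (wT T T.ω (cj T.ω)).map δ := by
    ext i j
    change δ ((2 / hh T) * wT T T.ω (cj T.ω) i j) = δ (2 / hh T) * wT T T.ω (cj T.ω) i j +
      (2 / hh T) * δ (wT T T.ω (cj T.ω) i j)
    rw [Derivation.leibniz, smul_eq_mul, smul_eq_mul]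
    ring
  have h2 : δ (2 / hh T) = -(2 / hh T) * ((B T (cj T.ω) (dv δ T.ω) + B T T.ω (dv δ (cj T.ω))) / hh T) := by
    have h3 : δ (hh T) = B T (cj T.ω) (dv δ T.ω) + B T T.ω (dv δ (cj T.ω)) := by
      unfold hh
      rw [der_bl, B_sym (dv δ T.ω)]
    have h4 : (2 / hh T) * hh T = 2 := div_mul_cancel₀ _ (hh_ne T)
    have h5 := congrArg δ h4
    rw [Derivation.leibniz, smul_eq_mul, smul_eq_mul, h3] at h5
    have h6 : δ (2 : ℂ) = 0 := by
      have h7 := der_rat δ 2
      simpa using h7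
    rw [h6] at h5
    have h7 : hh T ≠ 0 := hh_ne T
    field_simp
    field_simp at h5
    linear_combination h5
  have h3 : wT T (dv δ T.ω) (cj T.ω) = (B T (cj T.ω) (dv δ T.ω) / hh T) • wT T T.ω (cj T.ω) +
      wT T (pr T (dv δ T.ω)) (cj T.ω) := by
    conv_lhs => rw [dec (T := T) (dv δ T.ω)]
    rw [der_oo, zero_div, zero_smul, zero_add, wT, wd_add_left, wd_smul_left]
  have h4 : wT T T.ω (dv δ (cj T.ω)) = (B T T.ω (dv δ (cj T.ω)) / hh T) • wT T T.ω (cj T.ω) +
      wT T T.ω (pr T (dv δ (cj T.ω))) := by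
    conv_lhs => rw [dec (T := T) (dv δ (cj T.ω))]
    rw [der_pp, zero_div, zero_smul, zero_add, wT, wd_add_right, wd_smul_right]
  rw [h1, h2, der_wd, h3, h4]
  generalize wT T T.ω (cj T.ω) = W
  generalize wT T (pr T (dv δ T.ω)) (cj T.ω) = W1
  generalize wT T T.ω (pr T (dv δ (cj T.ω))) = W2
  generalize B T (cj T.ω) (dv δ T.ω) = x
  generalize B T T.ω (dv δ (cj T.ω)) = y
  rw [add_div]
  module

section cm

variable {ι : Type} [Fintype ι] [DecidableEq ι]

/-- **Descent.** A subspace which is stable under the automorphisms is spanned by rational vectors. -/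
theorem descent' (F : Submodule ℂ (ι → ℂ))
    (hF : ∀ σ : ℂ ≃+* ℂ, ∀ y ∈ F, (fun b => σ (y b)) ∈ F) :
    ∀ (S : Finset ι), ∀ y ∈ F, (∀ b, b ∉ S → y b = 0) →
      y ∈ Submodule.span ℂ {x : ι → ℂ | (∀ b, ∃ q : ℚ, x b = (q : ℂ)) ∧ x ∈ F ∧ ∀ b, b ∉ S → x b = 0} := by
  classical
  intro S
  induction S using Finset.strongInduction with
  | H S ih =>
    intro y hy hyS
    have hmono : ∀ S' : Finset ι, S' ⊆ S →
        Submodule.span ℂ {x : ι → ℂ | (∀ b, ∃ q : ℚ, x b = (q : ℂ)) ∧ x ∈ F ∧ ∀ b, b ∉ S' → x b = 0} ≤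
        Submodule.span ℂ {x : ι → ℂ | (∀ b, ∃ q : ℚ, x b = (q : ℂ)) ∧ x ∈ F ∧ ∀ b, b ∉ S → x b = 0} := by
      intro S' hS'
      refine Submodule.span_mono ?_
      rintro x ⟨h1, h2, h3⟩
      exact ⟨h1, h2, fun b hb => h3 b fun hb' => hb (hS' hb')⟩
    by_cases hc : ∃ b ∈ S, ∃ w ∈ F, w ≠ 0 ∧ ∀ c, c ∉ S.erase b → w c = 0
    · obtain ⟨b, hb, w, hwF, hw0, hw⟩ := hc
      have h1 := ih (S.erase b) (Finset.erase_ssubset hb) w hwF hw
      obtain ⟨x, ⟨hxK, hxF, hxS⟩, hx0⟩ : ∃ x ∈ {x : ι → ℂ | (∀ b, ∃ q : ℚ, x b = (q : ℂ)) ∧ x ∈ F ∧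
          ∀ c, c ∉ S.erase b → x c = 0}, x ≠ 0 := by
        by_contra hcon
        push Not at hcon
        refine hw0 ?_
        have h2 : Submodule.span ℂ {x : ι → ℂ | (∀ b, ∃ q : ℚ, x b = (q : ℂ)) ∧ x ∈ F ∧
            ∀ c, c ∉ S.erase b → x c = 0} = ⊥ := by
          rw [Submodule.span_eq_bot]
          exact hcon
        rw [h2] at h1
        exact (Submodule.mem_bot ℂ).1 h1
      obtain ⟨c, hc⟩ := Function.ne_iff.1 hx0
      have hcS : c ∈ S.erase b := by
        by_contra h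
        exact hc (hxS c h)
      have hcS' : c ∈ S := Finset.mem_of_mem_erase hcS
      have h3 : y - (y c / x c) • x ∈ Submodule.span ℂ {x : ι → ℂ | (∀ b, ∃ q : ℚ, x b = (q : ℂ)) ∧
          x ∈ F ∧ ∀ b, b ∉ S → x b = 0} := by
        refine hmono (S.erase c) (Finset.erase_subset _ _) (ih (S.erase c)
          (Finset.erase_ssubset hcS') _ (Submodule.sub_mem _ hy (Submodule.smul_mem _ _ hxF)) ?_)
        intro d hd
        rw [Pi.sub_apply, Pi.smul_apply, smul_eq_mul]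
        by_cases hdc : d = c
        · rw [hdc, div_mul_cancel₀ _ hc, sub_self]
        · have hdS : d ∉ S := fun h => hd (Finset.mem_erase.2 ⟨hdc, h⟩)
          rw [hyS d hdS, hxS d (fun h => hdS (Finset.mem_of_mem_erase h)), mul_zero, sub_zero]
      have h4 : x ∈ Submodule.span ℂ {x : ι → ℂ | (∀ b, ∃ q : ℚ, x b = (q : ℂ)) ∧ x ∈ F ∧
          ∀ b, b ∉ S → x b = 0} :=
        Submodule.subset_span ⟨hxK, hxF, fun d hd => hxS d fun h => hd (Finset.mem_of_mem_erase h)⟩
      have h5 := Submodule.add_mem _ h3 (Submodule.smul_mem _ (y c / x c) h4)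
      rwa [sub_add_cancel] at h5
    · push Not at hc
      by_cases hy0 : y = 0
      · rw [hy0]
        exact Submodule.zero_mem _
      obtain ⟨c, hyc⟩ := Function.ne_iff.1 hy0
      have hcS : c ∈ S := by
        by_contra h
        exact hyc (hyS c h)
      have h1 : (y c)⁻¹ • y ∈ F := Submodule.smul_mem _ _ hy
      have h2 : ∀ b, ∃ q : ℚ, ((y c)⁻¹ • y) b = (q : ℂ) := by
        intro b
        by_contra hq
        push Not at hq
        obtain ⟨σ, hσ⟩ := Pool.Agent.W437.HD.exists_move hq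
        have h3 : (fun b => σ (((y c)⁻¹ • y) b)) - (y c)⁻¹ • y = 0 := by
          by_contra h4
          obtain ⟨d, hd, hd'⟩ := hc c hcS _ (Submodule.sub_mem _ (hF σ _ h1) h1) h4
          refine hd' ?_
          rw [Pi.sub_apply]
          by_cases hdc : d = c
          · rw [hdc, Pi.smul_apply, smul_eq_mul, inv_mul_cancel₀ hyc, map_one, sub_self]
          · have hdS : d ∉ S := fun h => hd (Finset.mem_erase.2 ⟨hdc, h⟩)
            rw [Pi.smul_apply, hyS d hdS, smul_zero, map_zero, sub_self]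
        exact hσ (sub_eq_zero.1 (congrFun h3 b))
      have h3 : y = y c • ((y c)⁻¹ • y) := by rw [smul_smul, mul_inv_cancel₀ hyc, one_smul]
      rw [h3]
      refine Submodule.smul_mem _ _ (Submodule.subset_span ⟨h2, h1, fun d hd => ?_⟩)
      rw [Pi.smul_apply, hyS d hd, smul_zero]

/-- The derivatives of the Hodge operator of a variety of CM type commute with it. -/
theorem cm_comm {v : ℕ} {V : Coh v} (h : IsOfCMType V) (δ : Derivation ℚ ℂ ℂ) :
    V.z * V.z.map δ = V.z.map δ * V.z := by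
  -- all the matrices which commute with the conjugates
  let F : Submodule ℂ (Fin v × Fin v → ℂ) :=
    { carrier := {x | ∀ σ : ℂ ≃+* ℂ, V.z.map σ * (of fun i j => x (i, j)) =
        (of fun i j => x (i, j)) * V.z.map σ}
      add_mem' := by
        intro x y hx hy σ
        have h1 : (of fun i j => (x + y) (i, j) : Matrix (Fin v) (Fin v) ℂ) =
            (of fun i j => x (i, j)) + of fun i j => y (i, j) := rfl
        rw [h1, mul_add, add_mul, hx σ, hy σ]
      zero_mem' := by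
        intro σ
        have h1 : (of fun i j => (0 : Fin v × Fin v → ℂ) (i, j) : Matrix (Fin v) (Fin v) ℂ) = 0 := rfl
        rw [h1, mul_zero, zero_mul]
      smul_mem' := by
        intro c x hx σ
        have h1 : (of fun i j => (c • x) (i, j) : Matrix (Fin v) (Fin v) ℂ) =
            c • of fun i j => x (i, j) := rfl
        rw [h1, mul_smul_comm, smul_mul_assoc, hx σ] }
  have hmul : ∀ (σ : ℂ ≃+* ℂ) (A C : Matrix (Fin v) (Fin v) ℂ),
      (A * C).map σ = A.map σ * C.map σ := fun σ A C => Matrix.map_mul (f := (σ : ℂ →+* ℂ))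
  have hF : ∀ σ : ℂ ≃+* ℂ, ∀ y ∈ F, (fun b => σ (y b)) ∈ F := by
    intro σ y hy τ
    have h1 := congrArg (fun M : Matrix (Fin v) (Fin v) ℂ => M.map σ) (hy (τ.trans σ.symm))
    simp only [hmul] at h1
    have h2 : (V.z.map (τ.trans σ.symm)).map σ = V.z.map τ := by
      ext i j
      exact σ.apply_symm_apply _
    rw [h2] at h1
    exact h1
  have hz : (fun p : Fin v × Fin v => V.z p.1 p.2) ∈ F := by
    intro σ
    exact (h σ).symm
  have h1 := descent' F hF Finset.univ _ hz (fun b hb => absurd (Finset.mem_univ b) hb)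
  have h2 : (fun p : Fin v × Fin v => δ (V.z p.1 p.2)) ∈ F := by
    have h3 : ∀ y ∈ Submodule.span ℂ {x : Fin v × Fin v → ℂ | (∀ b, ∃ q : ℚ, x b = (q : ℂ)) ∧ x ∈ F ∧
        ∀ b, b ∉ (Finset.univ : Finset (Fin v × Fin v)) → x b = 0}, y ∈ F ∧
          (fun p => δ (y p)) ∈ F := by
      intro y hy
      induction hy using Submodule.span_induction with
      | mem x hx =>
        refine ⟨hx.2.1, ?_⟩
        have h4 : (fun p => δ (x p)) = 0 := by
          funext p
          obtain ⟨q, hq⟩ := hx.1 p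
          rw [hq]
          exact der_rat δ q
        rw [h4]
        exact F.zero_mem
      | zero =>
        refine ⟨F.zero_mem, ?_⟩
        have h4 : (fun p => δ ((0 : Fin v × Fin v → ℂ) p)) = 0 := funext fun p => map_zero δ
        rw [h4]
        exact F.zero_mem
      | add x y _ _ hx hy =>
        refine ⟨F.add_mem hx.1 hy.1, ?_⟩
        have h4 : (fun p => δ ((x + y) p)) = (fun p => δ (x p)) + fun p => δ (y p) :=
          funext fun p => map_add δ _ _
        rw [h4]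
        exact F.add_mem hx.2 hy.2
      | smul c x _ hx =>
        refine ⟨F.smul_mem _ hx.1, ?_⟩
        have h4 : (fun p => δ ((c • x) p)) = c • (fun p => δ (x p)) + δ c • x := by
          funext p
          rw [Pi.smul_apply, smul_eq_mul, Derivation.leibniz, Pi.add_apply, Pi.smul_apply,
            Pi.smul_apply]
          simp only [smul_eq_mul]
          ring
        rw [h4]
        exact F.add_mem (F.smul_mem _ hx.2) (F.smul_mem _ hx.1)
    exact (h3 _ h1).2
  have h3 := h2 (RingEquiv.refl ℂ)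
  exact h3

/-- the list of commutators -/
theorem exists_list' {v : ℕ} {V : Coh v} {K : Subfield ℂ} (hV : IsOfCMType V ∨ HasFiltrationOver K V)
    (δ : Derivation ℚ ℂ ℂ) (hδ : ∀ x ∈ K, δ x = 0) :
    ∃ l : List ℤ, (∀ k ∈ l, 0 ≤ k) ∧ 2 ∈ l ∧ adl V.z l (V.z.map δ) = 0 := by
  rcases hV with h | h
  · refine ⟨[2, 0], by simp, by simp, ?_⟩
    have h1 := cm_comm h δ
    have h2 := adl_eig V.z [2, 0] 0 (V.z.map δ) (by rw [h1, sub_self, Int.cast_zero, zero_smul])
    rw [h2]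
    simp
  · obtain ⟨l, h1, h2, h3⟩ := exists_list V.z V.decomp (raises_of_filtration h δ hδ)
    exact ⟨l, fun k hk => (h1 k hk).le, h2, h3⟩

end cm

end

end Pool.Agent.X311.K3
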