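import Mathlib
import Pool.Agent.X311.K3e
import Pool.Agent.Y127.FftS

/-!
# Hodge classes on powers of a K3 surface times a variety: the invariants
-/

set_option autoImplicit false
set_option linter.unusedSectionVars false

namespace Pool.Agent.X311.K3

open Matrix Module Function Pool.Agent.TH131.GHC Pool.Agent.TH504.VY Pool.Agent.TH504.CB
  Pool.Agent.X311

noncomputable section

variable {n : ℕ} {T : Period n} {P : Type} [Fintype P] [DecidableEq P] {v : ℕ} {V : Coh v}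
  {f : (P → Fin n) → Fin v → ℚ}

theorem adl_fst (A : R2 n v) (l : List ℤ) : ∀ X : R2 n v, (adl A l X).1 = adl A.1 l X.1 := by
  induction l with
  | nil => intro X; rfl
  | cons c l ih => intro X; exact ih _

theorem adl_snd (A : R2 n v) (l : List ℤ) : ∀ X : R2 n v, (adl A l X).2 = adl A.2 l X.2 := by
  induction l with
  | nil => intro X; rfl
  | cons c l ih => intro X; exact ih _

theorem adl_NN {A : R2 n v} (hA : A ∈ NN T f) (l : List ℤ) : ∀ X : R2 n v, X ∈ NN T f →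
    adl A l X ∈ NN T f := by
  induction l with
  | nil => intro X hX; exact hX
  | cons c l ih =>
    intro X hX
    exact ih _ (Submodule.sub_mem _ (NN_br hA hX) (Submodule.smul_mem _ _ hX))

variable {K : Subfield ℂ} (hV : IsOfCMType V ∨ HasFiltrationOver K V)
  (hz : ((T.op, V.z) : R2 n v) ∈ NN T f)

include hV hz in
/-- The period moves in the direction of its derivatives. -/
theorem pr_mem (δ : Derivation ℚ ℂ ℂ) (hδ : ∀ x ∈ K, δ x = 0) :
    pr T (dv δ T.ω) ∈ SS T (LL T f) := by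
  obtain ⟨l, hl, h2l, hl0⟩ := exists_list' hV δ hδ
  obtain ⟨p1, p2⟩ := B_pr (T := T) (dv δ T.ω)
  obtain ⟨q1, q2⟩ := B_pr (T := T) (dv δ (cj T.ω))
  refine ⟨p1, p2, ?_⟩
  have h1 := adl_NN hz l _ (NN_phi (δ : ℂ →ₗ[ℚ] ℂ) hz)
  have e1 : T.op.map (δ : ℂ →ₗ[ℚ] ℂ) = T.op.map δ := rfl
  have e2 : V.z.map (δ : ℂ →ₗ[ℚ] ℂ) = V.z.map δ := rfl
  have h2 : adl T.op l (T.op.map δ) = ((l.map fun k => (((-2 : ℤ) - k : ℤ) : ℂ)).prod * (2 / hh T)) •
      wT T (pr T (dv δ T.ω)) (cj T.ω) := by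
    have h3 : T.op * ((2 / hh T) • wT T (pr T (dv δ T.ω)) (cj T.ω)) -
        ((2 / hh T) • wT T (pr T (dv δ T.ω)) (cj T.ω)) * T.op =
        ((-2 : ℤ) : ℂ) • ((2 / hh T) • wT T (pr T (dv δ T.ω)) (cj T.ω)) := by
      rw [mul_smul_comm, smul_mul_assoc, ← smul_sub, op_low T p1 p2, smul_comm]
    have h4 : T.op * ((2 / hh T) • wT T T.ω (pr T (dv δ (cj T.ω)))) -
        ((2 / hh T) • wT T T.ω (pr T (dv δ (cj T.ω)))) * T.op =
        ((2 : ℤ) : ℂ) • ((2 / hh T) • wT T T.ω (pr T (dv δ (cj T.ω)))) := by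
      rw [mul_smul_comm, smul_mul_assoc, ← smul_sub, op_high T q1 q2, smul_comm]
    rw [der_op, adl_add, adl_eig _ _ _ _ h3, adl_eig _ _ _ _ h4]
    have h5 : (l.map fun k => (((2 : ℤ) - k : ℤ) : ℂ)).prod = 0 := by
      refine List.prod_eq_zero (List.mem_map.2 ⟨2, h2l, ?_⟩)
      rw [sub_self, Int.cast_zero]
    rw [h5, zero_smul, add_zero, smul_smul]
  have h3 : adl ((T.op, V.z) : R2 n v) l (T.op.map δ, V.z.map δ) =
      (((l.map fun k => (((-2 : ℤ) - k : ℤ) : ℂ)).prod * (2 / hh T)) •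
        wT T (pr T (dv δ T.ω)) (cj T.ω), 0) := by
    refine Prod.ext ?_ ?_
    · rw [adl_fst]
      exact h2
    · rw [adl_snd]
      exact hl0
  have h4 : ((l.map fun k => (((-2 : ℤ) - k : ℤ) : ℂ)).prod * (2 / hh T)) ≠ 0 := by
    refine mul_ne_zero (List.prod_ne_zero fun h5 => ?_) (div_ne_zero two_ne_zero (hh_ne T))
    obtain ⟨k, hk, hk'⟩ := List.mem_map.1 h5
    have h6 : (-2 : ℤ) - k = 0 := by exact_mod_cast hk'
    have h7 := hl k hk
    omega
  change adl ((T.op, V.z) : R2 n v) l (T.op.map δ, V.z.map δ) ∈ NN T f at h1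
  rw [h3] at h1
  have h5 : wT T (pr T (dv δ T.ω)) (cj T.ω) =
      ((l.map fun k => (((-2 : ℤ) - k : ℤ) : ℂ)).prod * (2 / hh T))⁻¹ •
        (((l.map fun k => (((-2 : ℤ) - k : ℤ) : ℂ)).prod * (2 / hh T)) •
          wT T (pr T (dv δ T.ω)) (cj T.ω)) := by
    rw [smul_smul, inv_mul_cancel₀ h4, one_smul]
  rw [h5]
  exact (LL T f).smul_mem _ (mem_LL.2 h1)

include hV hz in
/-- The number of directions. -/
theorem finrank_SS {D : ℕ} {i₀ : Fin n} (h0 : T.ω i₀ = 1) (p : Fin D → Fin n)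
    (hp : AlgebraicIndependent K fun i => T.ω (p i)) : D ≤ finrank ℂ (SS T (LL T f)) := by
  classical
  have hex : ∀ s : Fin D, ∃ δ : Derivation ℚ ℂ ℂ, (∀ x ∈ K, δ x = 0) ∧
      ∀ i, δ (T.ω (p i)) = if s = i then 1 else 0 := by
    intro s
    obtain ⟨δ, h1, h2⟩ := exists_derivationK hp (fun i => if s = i then 1 else 0)
    exact ⟨δ, fun x hx => h1 ⟨x, hx⟩, h2⟩
  choose δ hδ hδp using hex
  let w : Fin D → SS T (LL T f) := fun s => ⟨_, pr_mem hV hz (δ s) (hδ s)⟩
  have hw : LinearIndependent ℂ w := by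
    rw [Fintype.linearIndependent_iff]
    intro c hc s
    have h1 : ∑ s, c s • pr T (dv (δ s) T.ω) = 0 := by
      have h2 := congrArg (fun x : SS T (LL T f) => (x : Fin n → ℂ)) hc
      simpa [w] using h2
    have h2 : ∀ s, pr T (dv (δ s) T.ω) = dv (δ s) T.ω - (B T (cj T.ω) (dv (δ s) T.ω) / hh T) • T.ω := by
      intro s
      rw [pr_apply, der_oo, zero_div, zero_smul, sub_zero]
    have h3 : ∑ s, c s * (B T (cj T.ω) (dv (δ s) T.ω) / hh T) = 0 := by
      have h4 := congrFun h1 i₀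
      rw [Finset.sum_apply] at h4
      have h5 : ∀ s, (c s • pr T (dv (δ s) T.ω)) i₀ = -(c s * (B T (cj T.ω) (dv (δ s) T.ω) / hh T)) := by
        intro s
        rw [Pi.smul_apply, h2, Pi.sub_apply, Pi.smul_apply, h0]
        have h6 : dv (δ s) T.ω i₀ = 0 := by
          change δ s (T.ω i₀) = 0
          rw [h0]
          exact (δ s).map_one_eq_zero
        rw [h6, smul_eq_mul, smul_eq_mul]
        ring
      simp only [h5, Finset.sum_neg_distrib, Pi.zero_apply, neg_eq_zero] at h4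
      exact h4
    have h4 := congrFun h1 (p s)
    rw [Finset.sum_apply] at h4
    have h5 : ∀ r, (c r • pr T (dv (δ r) T.ω)) (p s) = c r * (if r = s then 1 else 0) -
        (c r * (B T (cj T.ω) (dv (δ r) T.ω) / hh T)) * T.ω (p s) := by
      intro r
      rw [Pi.smul_apply, h2, Pi.sub_apply, Pi.smul_apply]
      have h6 : dv (δ r) T.ω (p s) = if r = s then 1 else 0 := hδp r s
      rw [h6, smul_eq_mul, smul_eq_mul]
      ring
    simp only [h5, Finset.sum_sub_distrib, ← Finset.sum_mul, h3, zero_mul, sub_zero, Pi.zero_apply,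
      mul_ite, mul_one, mul_zero, Finset.sum_ite_eq', Finset.mem_univ, if_true] at h4
    exact h4
  have h1 := hw.fintype_card_le_finrank
  rwa [Fintype.card_fin] at h1

/-- The Hodge condition. -/
theorem mem_NN_of (hf : ∀ J b, ∑ j, ∑ l, T.op (J j) l * ((f (update J j l) b : ℚ) : ℂ) +
    ∑ c, V.z b c * ((f J c : ℚ) : ℂ) = 0) : ((T.op, V.z) : R2 n v) ∈ NN T f := by
  refine ⟨op_sk T, ?_⟩
  funext J b
  unfold ac
  rw [Pi.add_apply, Pi.add_apply, aT_apply]
  exact hf J b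

include hV hz in
/-- All skew matrices kill the class. -/
theorem wT_mem {D : ℕ} {i₀ : Fin n} (h0 : T.ω i₀ = 1) (p : Fin D → Fin n)
    (hp : AlgebraicIndependent K fun i => T.ω (p i)) (hD : n < 2 * D + 2) (a b : Fin n → ℂ) :
    wT T a b ∈ LL T f := by
  have h1 := finrank_SS hV hz h0 p hp
  exact all_mem good_LL (by omega) a b

include hV hz in
/-- The values are Hodge classes of the variety. -/
theorem hodge_val {D : ℕ} {i₀ : Fin n} (h0 : T.ω i₀ = 1) (p : Fin D → Fin n)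
    (hp : AlgebraicIndependent K fun i => T.ω (p i)) (hD : n < 2 * D + 2) (J : P → Fin n) :
    IsHodgeOn V (f J) := by
  have h1 : T.op ∈ LL T f := by
    rw [op_eq]
    exact (LL T f).smul_mem _ (wT_mem hV hz h0 p hp hD _ _)
  have h2 := Submodule.sub_mem _ hz (mem_LL.1 h1)
  have h3 : ((T.op, V.z) - (T.op, 0) : R2 n v) = (0, V.z) := by
    refine Prod.ext ?_ ?_
    · exact sub_self _
    · exact sub_zero _
  rw [h3] at h2
  have h4 := congrFun h2.2 J
  have h5 : ac ((0, V.z) : R2 n v) (cF f) J = V.z *ᵥ cF f J := by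
    unfold ac
    have h6 : aT (0 : Matrix (Fin n) (Fin n) ℂ) (cF f) = 0 := by
      have h := aT_smul 0 (0 : Matrix (Fin n) (Fin n) ℂ) (cF f)
      rwa [zero_smul, zero_smul] at h
    change (aT (0 : Matrix (Fin n) (Fin n) ℂ) (cF f) + aY V.z (cF f)) J = _
    rw [h6, zero_add]
    rfl
  rw [h5] at h4
  exact h4

end

end Pool.Agent.X311.K3
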