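import Mathlib
import Pool.Agent.X311.K3Defs
import Pool.Agent.Y127.FftS

/-!
# The first fundamental theorem for the special orthogonal group with explicit generators
-/

set_option autoImplicit false
set_option linter.unusedSectionVars false

namespace Pool.Agent.X311.K3

open Matrix Function Pool.Agent.TH125.Nod Pool.Agent.Y127

section fft

variable {n : ℕ} {M : Type} [AddCommGroup M] [Module ℚ M]

/-- the product of forms on pairs of variables and of determinants -/
def gn (R : Matrix (Fin n) (Fin n) ℚ) {S : Type} {b c : ℕ}
    (e : (Fin b × Fin 2) ⊕ (Fin c × Fin n) ≃ S) (J : S → Fin n) : ℚ :=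
  (∏ i, R (J (e (Sum.inl (i, 0)))) (J (e (Sum.inl (i, 1))))) *
    ∏ i, (of fun k l => if J (e (Sum.inr (i, k))) = l then (1 : ℚ) else 0).det

/-- the span -/
def SG (R : Matrix (Fin n) (Fin n) ℚ) (M : Type) [AddCommGroup M] [Module ℚ M] (S : Type) :
    Submodule ℚ ((S → Fin n) → M) :=
  Submodule.span ℚ {g | ∃ (b c : ℕ) (e : (Fin b × Fin 2) ⊕ (Fin c × Fin n) ≃ S) (w : M),
    c ≤ 1 ∧ g = fun J => gn R e J • w}

theorem SG_mul {R : Matrix (Fin n) (Fin n) ℚ} {S : Type} [Fintype S] [DecidableEq S] {a b : S}
    (hab : a ≠ b) {g : ({x // x ≠ a ∧ x ≠ b} → Fin n) → M} (hg : g ∈ SG R M {x // x ≠ a ∧ x ≠ b}) :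
    (fun J : S → Fin n => R (J a) (J b) • g (fun x => J x.1)) ∈ SG R M S := by
  unfold SG at hg
  induction hg using Submodule.span_induction with
  | mem g hg =>
    obtain ⟨m, c, e, w, hc, rfl⟩ := hg
    let F : (Fin (m + 1) × Fin 2) ⊕ (Fin c × Fin n) → S := Sum.elim
      (fun p => Fin.cases (motive := fun _ => S) (if p.2 = 0 then a else b)
        (fun l => (e (Sum.inl (l, p.2))).1) p.1)
      (fun q => (e (Sum.inr q)).1)
    have hF0 : F (Sum.inl (0, 0)) = a := rfl
    have hF1 : F (Sum.inl (0, 1)) = b := rfl
    have hFs : ∀ l t, F (Sum.inl (Fin.succ l, t)) = (e (Sum.inl (l, t))).1 := fun l t => rfl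
    have hFr : ∀ q, F (Sum.inr q) = (e (Sum.inr q)).1 := fun q => rfl
    have hbij : Function.Bijective F := by
      constructor
      · rintro (⟨l, t⟩ | q) (⟨l', t'⟩ | q') h
        · induction l using Fin.cases with
          | zero =>
            induction l' using Fin.cases with
            | zero =>
              fin_cases t <;> fin_cases t'
              · rfl
              · exact absurd h hab
              · exact absurd h (Ne.symm hab)
              · rfl
            | succ l' =>
              rw [hFs] at h
              have := (e (Sum.inl (l', t'))).2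
              fin_cases t
              · exact absurd h.symm this.1
              · exact absurd h.symm this.2
          | succ l =>
            induction l' using Fin.cases with
            | zero =>
              rw [hFs] at h
              have := (e (Sum.inl (l, t))).2
              fin_cases t'
              · exact absurd h this.1
              · exact absurd h this.2
            | succ l' =>
              rw [hFs, hFs] at h
              have h1 := e.injective (Subtype.ext h)
              rw [Sum.inl.injEq, Prod.mk.injEq] at h1
              rw [h1.1, h1.2]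
        · rw [hFr] at h
          have := (e (Sum.inr q')).2
          induction l using Fin.cases with
          | zero =>
            fin_cases t
            · exact absurd h.symm this.1
            · exact absurd h.symm this.2
          | succ l =>
            rw [hFs] at h
            have h1 := e.injective (Subtype.ext h)
            exact absurd h1 Sum.inl_ne_inr
        · rw [hFr] at h
          have := (e (Sum.inr q)).2
          induction l' using Fin.cases with
          | zero =>
            fin_cases t'
            · exact absurd h this.1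
            · exact absurd h this.2
          | succ l' =>
            rw [hFs] at h
            have h1 := e.injective (Subtype.ext h)
            exact absurd h1 Sum.inr_ne_inl
        · rw [hFr, hFr] at h
          have h1 := e.injective (Subtype.ext h)
          rw [Sum.inr_injective h1]
      · intro x
        by_cases h1 : x = a
        · exact ⟨Sum.inl (0, 0), by rw [hF0, h1]⟩
        by_cases h2 : x = b
        · exact ⟨Sum.inl (0, 1), by rw [hF1, h2]⟩
        rcases h3 : e.symm ⟨x, h1, h2⟩ with ⟨l, t⟩ | q
        · refine ⟨Sum.inl (Fin.succ l, t), ?_⟩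
          rw [hFs, ← h3, Equiv.apply_symm_apply]
        · refine ⟨Sum.inr q, ?_⟩
          rw [hFr, ← h3, Equiv.apply_symm_apply]
    refine Submodule.subset_span ⟨m + 1, c, Equiv.ofBijective F hbij, w, hc, ?_⟩
    funext J
    unfold gn
    rw [smul_smul, Fin.prod_univ_succ, ← mul_assoc]
    rfl
  | zero =>
    have h1 : (fun J : S → Fin n => R (J a) (J b) •
        (0 : ({x // x ≠ a ∧ x ≠ b} → Fin n) → M) (fun x => J x.1)) = 0 := by
      funext x
      rw [Pi.zero_apply, smul_zero, Pi.zero_apply]
    rw [h1]
    exact Submodule.zero_mem _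
  | add f f' _ _ hf hf' =>
    have h1 := Submodule.add_mem _ hf hf'
    have h2 : (fun J : S → Fin n => R (J a) (J b) • (f + f') (fun x => J x.1)) =
        (fun J : S → Fin n => R (J a) (J b) • f (fun x => J x.1)) +
        fun J : S → Fin n => R (J a) (J b) • f' (fun x => J x.1) := by
      funext x
      rw [Pi.add_apply, Pi.add_apply, smul_add]
    rw [h2]
    exact h1
  | smul c f _ hf =>
    have h1 := Submodule.smul_mem _ c hf
    have h2 : (fun J : S → Fin n => R (J a) (J b) • (c • f) (fun x => J x.1)) =
        c • fun J : S → Fin n => R (J a) (J b) • f (fun x => J x.1) := by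
      funext x
      rw [Pi.smul_apply, Pi.smul_apply, smul_comm]
    rw [h2]
    exact h1

theorem SG_perm {R : Matrix (Fin n) (Fin n) ℚ} {S : Type} [Fintype S] [DecidableEq S]
    (σ : Equiv.Perm S) {f : (S → Fin n) → M} (hf : f ∈ SG R M S) :
    (fun x : S → Fin n => f (fun j => x (σ j))) ∈ SG R M S := by
  unfold SG at hf
  induction hf using Submodule.span_induction with
  | mem f hf =>
    obtain ⟨b, c, e, w, hc, rfl⟩ := hf
    exact Submodule.subset_span ⟨b, c, e.trans σ, w, hc, rfl⟩
  | zero => exact Submodule.zero_mem _
  | add f f' _ _ hf hf' => exact Submodule.add_mem _ hf hf'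
  | smul c f _ hf => exact Submodule.smul_mem _ c hf

/-- alternating forms of top degree -/
theorem top_SG {R : Matrix (Fin n) (Fin n) ℚ} {S : Type} [Fintype S] [DecidableEq S]
    (hc : Fintype.card S = n) {f : (S → Fin n) → M} (h1 : ∀ x, ¬Bijective x → f x = 0)
    (h2 : ∀ x a b, a ≠ b → f (x ∘ Equiv.swap a b) = -f x) : f ∈ SG R M S := by
  classical
  let e : Fin n ≃ S := Fintype.equivOfCardEq (by rw [Fintype.card_fin, hc])
  let e' : (Fin 0 × Fin 2) ⊕ (Fin 1 × Fin n) ≃ S :=
    ((Equiv.equivOfIsEmpty (Fin 0 × Fin 2) Empty).sumCongr (Equiv.uniqueProd (Fin n) (Fin 1))).trans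
      ((Equiv.emptySum Empty (Fin n)).trans e)
  refine Submodule.subset_span ⟨0, 1, e', f e.symm, le_rfl, ?_⟩
  have hgn : ∀ x, gn R e' x = dtf e x := by
    intro x
    unfold gn
    rw [Finset.univ_eq_empty, Finset.prod_empty, one_mul, Fin.prod_univ_one]
    rfl
  funext x
  rw [hgn]
  by_cases hx : Bijective x
  · let σ : Equiv.Perm S := (Equiv.ofBijective x hx).trans e
    have hσ : x = e.symm ∘ σ := by
      funext s
      simp [σ]
    have h3 : ∀ σ : Equiv.Perm S, f (e.symm ∘ σ) = (dtf e (e.symm ∘ σ) : ℚ) • f e.symm := by
      intro σ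
      induction σ using Equiv.Perm.swap_induction_on' with
      | one =>
        have h4 : (dtf e (e.symm ∘ (1 : Equiv.Perm S)) : ℚ) = 1 := by
          rw [dtf]
          have h5 : (Matrix.of fun a b : Fin n => if (e.symm ∘ (1 : Equiv.Perm S)) (e a) = b then (1 : ℚ)
              else 0) = 1 := by
            ext a b
            simp [Matrix.one_apply]
          rw [h5, Matrix.det_one]
        rw [h4, one_smul]
        rfl
      | mul_swap f' a b hab ih =>
        have h4 : (e.symm ∘ (f' * Equiv.swap a b : Equiv.Perm S)) =
            (e.symm ∘ f') ∘ Equiv.swap a b := rfl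
        rw [h4, h2 _ a b hab, dtf_swap e _ hab, ih, neg_smul]
    rw [hσ]
    exact h3 σ
  · rw [h1 x hx, dtf_zero e hx, zero_smul]

variable {Q R : Matrix (Fin n) (Fin n) ℚ} (hQs : ∀ a b, Q a b = Q b a) (hQR : Q * R = 1)

include hQs hQR in
/-- **The first fundamental theorem** for the special orthogonal group. -/
theorem fftS' (N : ℕ) : ∀ (S : Type) [Fintype S] [DecidableEq S]
    (f : (S → Fin n) → M), Fintype.card S = N → Inv (fun _ : Fin n => ()) Q (fun _ => 1) f →
    f ∈ SG Q M S := by
  classical
  induction N using Nat.strong_induction_on with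
  | _ N ih =>
    intro S _ _ f hN hinv
    rcases isEmpty_or_nonempty S with hS | hS
    · let e' : (Fin 0 × Fin 2) ⊕ (Fin 0 × Fin n) ≃ S := Equiv.equivOfIsEmpty _ _
      refine Submodule.subset_span ⟨0, 0, e', f (fun j => (hS.false j).elim), zero_le_one, ?_⟩
      funext x
      have h1 : gn Q e' x = 1 := by
        unfold gn
        rw [Finset.univ_eq_empty, Finset.prod_empty, Finset.prod_empty, one_mul]
      rw [h1, one_smul]
      congr 1
      funext j
      exact (hS.false j).elim
    · have hA : opA f ∈ SG Q M S := by
        rw [opA_con hQR hinv]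
        refine Submodule.sum_mem _ fun a _ => Submodule.sum_mem _ fun b hb => ?_
        have hab : a ≠ b := Ne.symm (Finset.mem_erase.1 hb).1
        refine SG_mul hab (ih (Fintype.card {x // x ≠ a ∧ x ≠ b}) ?_ _ _ rfl ?_)
        · rw [← hN]
          exact Fintype.card_subtype_lt (x := a) (fun h => h.1 rfl)
        · have h2 := inv_con (κ := fun _ : Fin n => ()) (Q := Q) (R := R) (s := fun _ => 1)
            (fun _ => Or.inl rfl) (fun a b h => absurd rfl h)
            (fun a b => by rw [Int.cast_one, one_mul]; exact hQs a b) hQR
            (f := f) (by simpa using hinv) (i := ()) hab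
          simpa using h2
      obtain ⟨f₀, h1, h2, h3⟩ := exists_dec (K := ℚ) (SG Q M S)
        (fun g hg a b => SG_perm (Equiv.swap a b) hg) hA
      have hf0 : f₀ ∈ SG Q M S := by
        by_cases hc : Fintype.card S = Fintype.card (Fin n)
        · obtain ⟨h4, h5⟩ := h3 hc
          exact top_SG (by rw [hc, Fintype.card_fin]) h4 h5
        · rw [h2 Fintype.card_pos hc]
          exact Submodule.zero_mem _
      have h4 := Submodule.add_mem _ h1 hf0
      rwa [sub_add_cancel] at h4

end fft

end Pool.Agent.X311.K3
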