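import Mathlib
import Pool.Agent.X311.K3f
import Pool.Agent.X311.K3g

/-!
# Hodge classes on powers of a K3 surface times a variety: the span
-/

set_option autoImplicit false
set_option linter.unusedSectionVars false

namespace Pool.Agent.X311.K3

open Matrix Module Function Pool.Agent.TH131.GHC Pool.Agent.TH504.VY Pool.Agent.TH125.Nod
  Pool.Agent.X311

noncomputable section

variable {n : ℕ} (T : Period n)

theorem detQ_ne : T.Q.det ≠ 0 := by
  intro h
  apply det_ne T
  have h1 : (cM T.Q).det = ((T.Q.det : ℚ) : ℂ) := by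
    have h2 := (RingHom.map_det (algebraMap ℚ ℂ) T.Q)
    exact h2.symm
  rw [h1, h, Rat.cast_zero]

theorem Q_inv : T.Q * T.Q⁻¹ = 1 := mul_nonsing_inv _ (isUnit_iff_ne_zero.2 (detQ_ne T))

theorem inv_Q : T.Q⁻¹ * T.Q = 1 := nonsing_inv_mul _ (isUnit_iff_ne_zero.2 (detQ_ne T))

theorem R_symm (a b : Fin n) : T.Q⁻¹ a b = T.Q⁻¹ b a := by
  have h1 := Matrix.transpose_nonsing_inv T.Q
  rw [T.symm] at h1
  exact congrFun (congrFun h1 b) a

/-- the Hodge classes of the variety -/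
def HS {v : ℕ} (V : Coh v) : Submodule ℚ (Fin v → ℚ) where
  carrier := {y | IsHodgeOn V y}
  add_mem' := by
    intro a b ha hb
    change V.z *ᵥ cv (a + b) = 0
    have h1 : cv (a + b) = cv a + cv b := by
      funext i
      simp [cv]
    have ha' : V.z *ᵥ cv a = 0 := ha
    have hb' : V.z *ᵥ cv b = 0 := hb
    rw [h1, mulVec_add, ha', hb', add_zero]
  zero_mem' := by
    change V.z *ᵥ cv 0 = 0
    have h1 : cv (0 : Fin v → ℚ) = 0 := by
      funext i
      simp [cv]
    rw [h1, mulVec_zero]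
  smul_mem' := by
    intro c a ha
    change V.z *ᵥ cv (c • a) = 0
    have h1 : cv (c • a) = (c : ℂ) • cv a := by
      funext i
      simp [cv]
    have ha' : V.z *ᵥ cv a = 0 := ha
    rw [h1, mulVec_smul, ha', smul_zero]

section inv

variable {T} {P : Type} [Fintype P] [DecidableEq P] {v : ℕ} {V : Coh v}
  {f : (P → Fin n) → Fin v → ℚ}

/-- a column of the inverse matrix -/
def cR (T : Period n) (u : Fin n) : Fin n → ℂ := fun i => ((T.Q⁻¹ i u : ℚ) : ℂ)

theorem mul_cR (u : Fin n) : cM T.Q *ᵥ cR T u = fun l => if l = u then 1 else 0 := by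
  funext l
  have h1 : (T.Q * T.Q⁻¹) l u = if l = u then 1 else 0 := by
    rw [Q_inv, Matrix.one_apply]
  rw [Matrix.mul_apply] at h1
  have h2 := congrArg (fun q : ℚ => (q : ℂ)) h1
  simp only [Rat.cast_sum, Rat.cast_mul] at h2
  have h3 : (cM T.Q *ᵥ cR T u) l = ∑ x, ((T.Q l x : ℚ) : ℂ) * ((T.Q⁻¹ x u : ℚ) : ℂ) := rfl
  rw [h3, h2]
  split_ifs
  · exact Rat.cast_one
  · exact Rat.cast_zero

theorem inv_of (h : ∀ a b, wT T a b ∈ LL T f) :
    Inv (fun _ : Fin n => ()) T.Q⁻¹ (fun _ => (1 : ℚ)) f := by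
  intro u w _ J
  funext c
  have h1 := congrFun (congrFun (mem_LL.1 (h (cR T w) (cR T u))).2 J) c
  unfold ac at h1
  have h2 : aY (0 : Matrix (Fin v) (Fin v) ℂ) (cF f) = 0 := by
    have h := aY_smul 0 (0 : Matrix (Fin v) (Fin v) ℂ) (cF f)
    rwa [zero_smul, zero_smul] at h
  change (aT (wT T (cR T w) (cR T u)) (cF f) + aY (0 : Matrix (Fin v) (Fin v) ℂ) (cF f)) J c = 0 at h1
  rw [h2, add_zero, aT_apply] at h1
  have h3 : ∀ i l, wT T (cR T w) (cR T u) i l = cR T w i * (if l = u then 1 else 0) -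
      cR T u i * (if l = w then 1 else 0) := by
    intro i l
    have h4 : wT T (cR T w) (cR T u) i l = cR T w i * (cM T.Q *ᵥ cR T u) l -
      cR T u i * (cM T.Q *ᵥ cR T w) l := rfl
    rw [h4, mul_cR, mul_cR]
  have h4 : ∀ p, ∑ l, wT T (cR T w) (cR T u) (J p) l * cF f (update J p l) c =
      (((T.Q⁻¹ w (J p) * f (update J p u) c - T.Q⁻¹ u (J p) * f (update J p w) c : ℚ)) : ℂ) := by
    intro p
    simp only [h3, sub_mul, Finset.sum_sub_distrib, mul_ite, mul_one, mul_zero, ite_mul, zero_mul,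
      Finset.sum_ite_eq', Finset.mem_univ, if_true]
    rw [Rat.cast_sub, Rat.cast_mul, Rat.cast_mul, R_symm T w, R_symm T u]
    rfl
  simp only [h4] at h1
  rw [← Rat.cast_sum] at h1
  have h5 : ∑ p, (T.Q⁻¹ w (J p) * f (update J p u) c - T.Q⁻¹ u (J p) * f (update J p w) c) = 0 := by
    exact_mod_cast h1
  rw [Finset.sum_apply, Pi.zero_apply]
  rw [← h5]
  refine Finset.sum_congr rfl fun p _ => ?_
  rw [one_mul]
  rfl

variable {K : Subfield ℂ} (hV : IsOfCMType V ∨ HasFiltrationOver K V)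

include hV in
/-- **Hodge classes with transcendental components** are combinations of products of forms, at most one
determinant, and Hodge classes of the variety. -/
theorem pure_mem (hf : ∀ J b, ∑ j, ∑ l, T.op (J j) l * ((f (update J j l) b : ℚ) : ℂ) +
    ∑ c, V.z b c * ((f J c : ℚ) : ℂ) = 0) {D : ℕ} {i₀ : Fin n} (h0 : T.ω i₀ = 1) (p : Fin D → Fin n)
    (hp : AlgebraicIndependent K fun i => T.ω (p i)) (hD : n < 2 * D + 2) :
    ∃ g : (P → Fin n) → HS V, g ∈ SG T.Q⁻¹ (HS V) P ∧ ∀ J, (g J : Fin v → ℚ) = f J := by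
  have hz := mem_NN_of hf
  have h1 := inv_of fun a b => wT_mem hV hz h0 p hp hD a b
  refine ⟨fun J => ⟨f J, hodge_val hV hz h0 p hp hD J⟩, ?_, fun J => rfl⟩
  refine fftS' (Q := T.Q⁻¹) (R := T.Q) (R_symm T) (inv_Q T) _ P _ rfl ?_
  intro u w huw J
  refine (HS V).subtype_injective ?_
  rw [map_sum, map_zero]
  exact h1 u w huw J

end inv

end

end Pool.Agent.X311.K3
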