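import Mathlib
import Pool.Agent.X311.K3h

/-!
# Hodge classes on powers of a K3 surface times a variety: the patterns
-/

set_option autoImplicit false
set_option linter.unusedSectionVars false

namespace Pool.Agent.X311.K3

open Matrix Module Function Pool.Agent.TH131.GHC Pool.Agent.TH504.VY Pool.Agent.TH125.Nod
  Pool.Agent.X311

noncomputable section

variable {n s m : ℕ}

/-- the indices with the pattern `q` -/
def cb (q : Fin m → Option (Fin s)) (g : {j // q j = none} → Fin n) : Fin m → Fin s ⊕ Fin n :=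
  fun j => if h : q j = none then Sum.inr (g ⟨j, h⟩)
    else Sum.inl ((q j).get (Option.isSome_iff_ne_none.2 h))

/-- the pattern -/
def pt (J : Fin m → Fin s ⊕ Fin n) : Fin m → Option (Fin s) := fun j => (J j).elim some fun _ => none

variable {q : Fin m → Option (Fin s)}

theorem cb_none (g : {j // q j = none} → Fin n) (j : {j // q j = none}) :
    cb q g j.1 = Sum.inr (g j) := dif_pos j.2

theorem cb_some (g : {j // q j = none} → Fin n) (j : {j // ¬ q j = none}) :
    cb q g j.1 = Sum.inl ((q j.1).get (Option.isSome_iff_ne_none.2 j.2)) := dif_neg j.2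

theorem pt_cb (g : {j // q j = none} → Fin n) : pt (cb q g) = q := by
  funext j
  unfold pt
  by_cases h : q j = none
  · have h1 := cb_none g ⟨j, h⟩
    change cb q g j = _ at h1
    rw [h1, Sum.elim_inr, h]
  · have h1 := cb_some g ⟨j, h⟩
    change cb q g j = _ at h1
    rw [h1, Sum.elim_inl, Option.some_get]

theorem cb_inj {g g' : {j // q j = none} → Fin n} (h : cb q g = cb q g') : g = g' := by
  funext j
  have h1 := congrFun h j.1
  rw [cb_none, cb_none] at h1
  exact Sum.inr_injective h1

theorem exists_cb (J : Fin m → Fin s ⊕ Fin n) (q : Fin m → Option (Fin s))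
    (h1 : ∀ j : {j // q j = none}, ∃ x, J j.1 = Sum.inr x)
    (h2 : ∀ j : {j // ¬ q j = none}, J j.1 = Sum.inl ((q j.1).get (Option.isSome_iff_ne_none.2 j.2))) :
    ∃ g, J = cb q g := by
  choose g hg using h1
  refine ⟨g, ?_⟩
  funext j
  by_cases h : q j = none
  · have h3 := cb_none g ⟨j, h⟩
    change cb q g j = _ at h3
    rw [h3]
    exact hg ⟨j, h⟩
  · have h3 := cb_some g ⟨j, h⟩
    change cb q g j = _ at h3
    rw [h3]
    exact h2 ⟨j, h⟩

theorem exists_cb_pt (J : Fin m → Fin s ⊕ Fin n) : ∃ g, J = cb (pt J) g := by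
  refine exists_cb J (pt J) ?_ ?_
  · rintro ⟨j, hj⟩
    rcases h : J j with a | x
    · exfalso
      unfold pt at hj
      rw [h] at hj
      exact Option.some_ne_none a hj
    · exact ⟨x, rfl⟩
  · rintro ⟨j, hj⟩
    rcases h : J j with a | x
    · congr 1
      have h1 : pt J j = some a := by
        unfold pt
        rw [h]
        rfl
      exact (Option.get_of_eq_some _ h1).symm
    · exfalso
      apply hj
      unfold pt
      rw [h]
      rfl

theorem cb_update (g : {j // q j = none} → Fin n) (j : {j // q j = none}) (l : Fin n) :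
    update (cb q g) j.1 (Sum.inr l) = cb q (update g j l) := by
  funext k
  by_cases hk : k = j.1
  · subst hk
    rw [update_self, cb_none, update_self]
  · rw [update_of_ne hk]
    by_cases h : q k = none
    · have h1 := cb_none g ⟨k, h⟩
      have h2 := cb_none (update g j l) ⟨k, h⟩
      change cb q _ k = _ at h1 h2
      rw [h1, h2, update_of_ne]
      intro h3
      exact hk (congrArg Subtype.val h3)
    · have h1 := cb_some g ⟨k, h⟩
      have h2 := cb_some (update g j l) ⟨k, h⟩
      change cb q _ k = _ at h1 h2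
      rw [h1, h2]

variable {T : Period n} {v : ℕ} {V : Coh v}

/-- The Hodge condition on the slices. -/
theorem slice_hodge {t : (Fin m → Fin s ⊕ Fin n) → Fin v → ℚ} (ht : IsHodgeOnProduct T V t)
    (q : Fin m → Option (Fin s)) (J : {j // q j = none} → Fin n) (b : Fin v) :
    ∑ j, ∑ l, T.op (J j) l * ((t (cb q (update J j l)) b : ℚ) : ℂ) +
      ∑ c, V.z b c * ((t (cb q J) c : ℚ) : ℂ) = 0 := by
  have h1 := ht (cb q J) b
  rw [← h1]
  congr 1
  have h2 : ∀ j : Fin m, ¬ q j = none → ∑ l, T.opX s (cb q J j) l *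
      ((t (update (cb q J) j l) b : ℚ) : ℂ) = 0 := by
    intro j hj
    refine Finset.sum_eq_zero fun l _ => ?_
    have h3 := cb_some J ⟨j, hj⟩
    change cb q J j = _ at h3
    have h4 : T.opX s (cb q J j) l = 0 := by
      rw [h3]
      rcases l with l | l
      · rfl
      · rfl
    rw [h4, zero_mul]
  have h3 : ∑ j, ∑ l, T.opX s (cb q J j) l * ((t (update (cb q J) j l) b : ℚ) : ℂ) =
      ∑ j ∈ Finset.univ.filter (fun j => q j = none),
        ∑ l, T.opX s (cb q J j) l * ((t (update (cb q J) j l) b : ℚ) : ℂ) := by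
    symm
    refine Finset.sum_subset (Finset.filter_subset _ _) fun j _ hj => h2 j fun h => hj ?_
    exact Finset.mem_filter.2 ⟨Finset.mem_univ _, h⟩
  rw [h3, Finset.sum_subtype (p := fun j => q j = none) _ (by simp)]
  refine Finset.sum_congr rfl fun j _ => ?_
  rw [cb_none, Fintype.sum_sum_type]
  have h4 : ∑ l : Fin s, T.opX s (Sum.inr (J j)) (Sum.inl l) *
      ((t (update (cb q J) j.1 (Sum.inl l)) b : ℚ) : ℂ) = 0 := by
    refine Finset.sum_eq_zero fun l _ => ?_
    have h5 : T.opX s (Sum.inr (J j)) (Sum.inl l) = 0 := rfl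
    rw [h5, zero_mul]
  rw [h4, zero_add]
  refine Finset.sum_congr rfl fun l _ => ?_
  rw [cb_update]
  rfl

variable (T V) in
/-- extension of a function on the indices of a pattern -/
def ex (q : Fin m → Option (Fin s)) : (({j // q j = none} → Fin n) → HS V) →ₗ[ℚ]
    ((Fin m → Fin s ⊕ Fin n) → Fin v → ℚ) where
  toFun g := fun J b => ∑ y : {j // q j = none} → Fin n, if J = cb q y then (g y : Fin v → ℚ) b else 0
  map_add' g g' := by
    funext J b
    rw [Pi.add_apply, Pi.add_apply, ← Finset.sum_add_distrib]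
    refine Finset.sum_congr rfl fun y _ => ?_
    split_ifs
    · rfl
    · rw [add_zero]
  map_smul' c g := by
    funext J b
    rw [RingHom.id_apply, Pi.smul_apply, Pi.smul_apply, Finset.smul_sum]
    refine Finset.sum_congr rfl fun y _ => ?_
    split_ifs
    · rfl
    · rw [smul_zero]

theorem ex_cb (g : ({j // q j = none} → Fin n) → HS V) (y : {j // q j = none} → Fin n) (b : Fin v) :
    ex V q g (cb q y) b = (g y : Fin v → ℚ) b := by
  change (∑ y' : {j // q j = none} → Fin n, if cb q y = cb q y' then (g y' : Fin v → ℚ) b else 0) = _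
  rw [Finset.sum_eq_single y]
  · rw [if_pos rfl]
  · intro y' _ hy
    rw [if_neg fun h => hy (cb_inj h).symm]
  · intro h
    exact absurd (Finset.mem_univ _) h

theorem ex_not (g : ({j // q j = none} → Fin n) → HS V) {J : Fin m → Fin s ⊕ Fin n}
    (hJ : ¬ ∃ y, J = cb q y) (b : Fin v) : ex V q g J b = 0 := by
  change (∑ y' : {j // q j = none} → Fin n, if J = cb q y' then (g y' : Fin v → ℚ) b else 0) = _
  refine Finset.sum_eq_zero fun y _ => ?_
  rw [if_neg fun h => hJ ⟨y, h⟩]

/-- The decomposition by patterns. -/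
theorem sum_ex {t : (Fin m → Fin s ⊕ Fin n) → Fin v → ℚ}
    (g : ∀ q : Fin m → Option (Fin s), ({j // q j = none} → Fin n) → HS V)
    (hg : ∀ q J, (g q J : Fin v → ℚ) = t (cb q J)) : t = ∑ q, ex V q (g q) := by
  funext J b
  rw [Finset.sum_apply, Finset.sum_apply, Finset.sum_eq_single (pt J)]
  · obtain ⟨y, hy⟩ := exists_cb_pt J
    have h1 : ex V (pt J) (g (pt J)) (cb (pt J) y) b = _ := ex_cb _ _ _
    rw [hg, ← hy] at h1
    exact h1.symm
  · intro q _ hq
    refine ex_not _ ?_ b
    rintro ⟨y, hy⟩
    apply hq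
    rw [hy, pt_cb]
  · intro h
    exact absurd (Finset.mem_univ _) h

/-- the generators -/
theorem ex_gen {b c : ℕ} (e : (Fin b × Fin 2) ⊕ (Fin c × Fin n) ≃ {j // q j = none}) (w : HS V)
    (hc : c ≤ 1) : ex V q (fun J => gn T.Q⁻¹ e J • w) ∈ standardTimesHodge T s m V := by
  classical
  let ea : Fin (Fintype.card {j // ¬ q j = none}) ≃ {j // ¬ q j = none} :=
    (Fintype.equivFin _).symm
  let e' : Fin (Fintype.card {j // ¬ q j = none}) ⊕ ((Fin b × Fin 2) ⊕ (Fin c × Fin n)) ≃ Fin m :=
    (ea.sumCongr e).trans ((Equiv.sumComm _ _).trans (Equiv.sumCompl (fun j => q j = none)))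
  have he1 : ∀ i, e' (Sum.inl i) = (ea i).1 := fun i => rfl
  have he2 : ∀ x, e' (Sum.inr x) = (e x).1 := fun x => rfl
  let ν : Fin (Fintype.card {j // ¬ q j = none}) → Fin s → ℚ := fun i =>
    Pi.single ((q (ea i).1).get (Option.isSome_iff_ne_none.2 (ea i).2)) 1
  refine Submodule.subset_span ⟨_, b, c, e', ν, w.1, hc, w.2, ?_⟩
  funext J d
  by_cases hJ : ∃ y, J = cb q y
  · obtain ⟨y, rfl⟩ := hJ
    rw [ex_cb]
    have h1 : ∏ i, Sum.elim (ν i) (fun _ => 0) (cb q y (e' (Sum.inl i))) = 1 := by
      refine Finset.prod_eq_one fun i _ => ?_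
      rw [he1, cb_some, Sum.elim_inl]
      exact Pi.single_eq_same _ _
    have h2 : ∏ i, fromBlocks (0 : Matrix (Fin s) (Fin s) ℚ) 0 0 T.Q⁻¹
        (cb q y (e' (Sum.inr (Sum.inl (i, 0))))) (cb q y (e' (Sum.inr (Sum.inl (i, 1))))) =
        ∏ i, T.Q⁻¹ (y (e (Sum.inl (i, 0)))) (y (e (Sum.inl (i, 1)))) := by
      refine Finset.prod_congr rfl fun i _ => ?_
      rw [he2, he2, cb_none, cb_none]
      rfl
    have h3 : ∏ i, (of fun k l => if cb q y (e' (Sum.inr (Sum.inr (i, k)))) = Sum.inr l then (1 : ℚ)
        else 0).det = ∏ i, (of fun k l => if y (e (Sum.inr (i, k))) = l then (1 : ℚ) else 0).det := by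
      refine Finset.prod_congr rfl fun i _ => ?_
      congr 1
      ext k l
      rw [of_apply, of_apply, he2, cb_none]
      simp only [Sum.inr.injEq]
    unfold standardClass
    rw [h1, h2, h3, one_mul]
    rfl
  · rw [ex_not _ hJ]
    have h1 : standardClass T e' ν J = 0 := by
      by_contra hne
      apply hJ
      unfold standardClass at hne
      obtain ⟨n1, n2⟩ := mul_ne_zero_iff.1 hne
      obtain ⟨n2, n3⟩ := mul_ne_zero_iff.1 n2
      refine exists_cb J q ?_ ?_
      · intro j
        have h2 : j.1 = e' (Sum.inr (e.symm j)) := by rw [he2, Equiv.apply_symm_apply]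
        rw [h2]
        rcases e.symm j with ⟨i, x⟩ | ⟨i, k⟩
        · have h3 := Finset.prod_ne_zero_iff.1 n2 i (Finset.mem_univ _)
          rcases h4 : J (e' (Sum.inr (Sum.inl (i, 0)))) with a | a
          · exfalso
            apply h3
            rw [h4]
            rcases J (e' (Sum.inr (Sum.inl (i, 1)))) with a' | a'
            · rfl
            · rfl
          · rcases h5 : J (e' (Sum.inr (Sum.inl (i, 1)))) with a' | a'
            · exfalso
              apply h3
              rw [h4, h5]
              rfl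
            · fin_cases x
              · exact ⟨a, h4⟩
              · exact ⟨a', h5⟩
        · have h3 := Finset.prod_ne_zero_iff.1 n3 i (Finset.mem_univ _)
          by_contra hcon
          push Not at hcon
          apply h3
          refine det_eq_zero_of_row_eq_zero k fun l => ?_
          rw [of_apply, if_neg (hcon l)]
      · intro j
        have h2 : j.1 = e' (Sum.inl (ea.symm j)) := by rw [he1, Equiv.apply_symm_apply]
        have h3 := Finset.prod_ne_zero_iff.1 n1 (ea.symm j) (Finset.mem_univ _)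
        rw [← h2] at h3
        rcases h4 : J j.1 with a | a
        · rw [h4, Sum.elim_inl] at h3
          have h5 : ν (ea.symm j) = Pi.single ((q j.1).get (Option.isSome_iff_ne_none.2 j.2)) 1 := by
            change Pi.single ((q (ea (ea.symm j)).1).get _) 1 = _
            congr 2
            rw [Equiv.apply_symm_apply]
          rw [h5] at h3
          congr 1
          by_contra h6
          exact h3 (Pi.single_eq_of_ne h6 _)
        · rw [h4, Sum.elim_inr] at h3
          exact absurd rfl h3
    rw [h1, zero_mul]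

/-- **Hodge classes are combinations of products.** -/
theorem mem_standard {K : Subfield ℂ} (hV : IsOfCMType V ∨ HasFiltrationOver K V) {D : ℕ}
    {i₀ : Fin n} (h0 : T.ω i₀ = 1) (p : Fin D → Fin n)
    (hp : AlgebraicIndependent K fun i => T.ω (p i)) (hD : n < 2 * D + 2)
    {t : (Fin m → Fin s ⊕ Fin n) → Fin v → ℚ} (ht : IsHodgeOnProduct T V t) :
    t ∈ standardTimesHodge T s m V := by
  have hex : ∀ q : Fin m → Option (Fin s), ∃ g : ({j // q j = none} → Fin n) → HS V,
      g ∈ SG T.Q⁻¹ (HS V) {j // q j = none} ∧ ∀ J, (g J : Fin v → ℚ) = t (cb q J) :=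
    fun q => pure_mem hV (f := fun J => t (cb q J)) (slice_hodge ht q) h0 p hp hD
  choose g hg hgt using hex
  rw [sum_ex g hgt]
  refine Submodule.sum_mem _ fun q _ => ?_
  have h1 : SG T.Q⁻¹ (HS V) {j // q j = none} ≤ (standardTimesHodge T s m V).comap (ex V q) := by
    refine Submodule.span_le.2 ?_
    rintro _ ⟨b, c, e, w, hc, rfl⟩
    exact ex_gen e w hc
  exact h1 (hg q)

end

end Pool.Agent.X311.K3
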