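import Mathlib
import Pool.Agent.X311.K3Defs

/-!
# Families of K3 surfaces and products with families of varieties: definitions

Let `B` be (the universal covering of) a smooth connected complex variety. The rational cohomology of the
fibres of a family of K3 surfaces over `B` is trivialized: it is `ℚ ^ s ⊕ ℚ ^ n`, where `ℚ ^ s` has a basis
of classes which are algebraic on all fibres, and `ℚ ^ n` is the transcendental part of a very general
fibre, with the intersection form `Q`. The period `ω b`, for `b` in `B`, is the class of a holomorphic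
two-form on the fibre at `b`. The cohomology of the fibres of a family of varieties `Y` is given by
`V b : Coh v`.
-/

set_option autoImplicit false

namespace Pool.Agent.X311.K3

open Matrix Pool.Agent.TH131.GHC Pool.Agent.TH504.VY

noncomputable section

/-- A family of Hodge structures of K3 type with the parameter space `B`: the intersection form `Q` and
the periods `ω b`, classes of type `(2, 0)`, which satisfy the Hodge-Riemann relations. -/
structure Family (B : Type) (n : ℕ) where
  /-- the intersection form -/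
  Q : Matrix (Fin n) (Fin n) ℚ
  /-- the periods -/
  ω : B → Fin n → ℂ
  symm : Q.transpose = Q
  isotropic : ∀ b, ω b ⬝ᵥ (cM Q *ᵥ ω b) = 0
  positive : ∀ b, 0 < (ω b ⬝ᵥ (cM Q *ᵥ cj (ω b))).re
  negative : ∀ b, ∀ u : Fin n → ℝ, u ≠ 0 → ω b ⬝ᵥ (cM Q *ᵥ fun i => (u i : ℂ)) = 0 →
    u ⬝ᵥ (Q.map (fun q : ℚ => (q : ℝ)) *ᵥ u) < 0

variable {B : Type} {n : ℕ}

/-- The Hodge operator of the member at `b`: it is `2` on `ω b`, `-2` on the complex conjugate of `ω b`
and `0` on the classes which are orthogonal to both. -/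
def Family.op (F : Family B n) (b : B) : Matrix (Fin n) (Fin n) ℂ :=
  (2 / (F.ω b ⬝ᵥ (cM F.Q *ᵥ cj (F.ω b)))) •
    (vecMulVec (F.ω b) (cM F.Q *ᵥ cj (F.ω b)) - vecMulVec (cj (F.ω b)) (cM F.Q *ᵥ F.ω b))

/-- The Hodge operator on the cohomology of the K3 surface at `b`. -/
def Family.opX (F : Family B n) (s : ℕ) (b : B) : Matrix (Fin s ⊕ Fin n) (Fin s ⊕ Fin n) ℂ :=
  fromBlocks 0 0 0 (F.op b)

/-- The flat class `t` on the fibres of `X ^ m × Y` is a Hodge class at `b`: it is killed by the Hodge
operator. -/
def Family.IsHodgeAt (F : Family B n) {s v m : ℕ} (V : B → Coh v)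
    (t : (Fin m → Fin s ⊕ Fin n) → Fin v → ℚ) (b : B) : Prop :=
  ∀ J d, ∑ j, ∑ l, F.opX s b (J j) l * ((t (Function.update J j l) d : ℚ) : ℂ) +
    ∑ c, (V b).z d c * ((t J c : ℚ) : ℂ) = 0

/-- The vector `w` is the derivative of the period of `X` at `b₀` along a curve in `B` on which the Hodge
structure of `Y` is constant. -/
def Family.IsDirection (F : Family B n) {v : ℕ} (V : B → Coh v) (b₀ : B) (w : Fin n → ℂ) : Prop :=
  ∃ c : ℝ → B, c 0 = b₀ ∧ HasDerivAt (fun r => F.ω (c r)) w 0 ∧ ∀ r, (V (c r)).z = (V b₀).z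

/-- The number of moduli of the family of K3 surfaces at `b₀` relative to `Y`: the rank at `b₀` of the
period map of `X` (with values in the projective space) in the directions in which the Hodge structure of
`Y` is constant. -/
def Family.moduli (F : Family B n) {v : ℕ} (V : B → Coh v) (b₀ : B) : ℕ :=
  Module.finrank ℂ (Submodule.span ℂ ({F.ω b₀} ∪ {w | F.IsDirection V b₀ w})) - 1

/-- A class on the fibres of `X ^ m`, as in `standardClass`: the product of classes `ν i` in `ℚ ^ s`,
algebraic on all fibres, on some of the factors, of the transcendental parts of the diagonals (given by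
the inverse of the intersection form `Q`) on `b` pairs of factors, and, if `c = 1`, of the determinant of
`ℚ ^ n` on `n` of the factors. -/
def Family.standardClass (F : Family B n) {s m a b c : ℕ}
    (e : Fin a ⊕ ((Fin b × Fin 2) ⊕ (Fin c × Fin n)) ≃ Fin m) (ν : Fin a → Fin s → ℚ) :
    (Fin m → Fin s ⊕ Fin n) → ℚ :=
  fun J => (∏ i, Sum.elim (ν i) (fun _ => 0) (J (e (Sum.inl i)))) *
    ((∏ i, fromBlocks 0 0 0 F.Q⁻¹ (J (e (Sum.inr (Sum.inl (i, 0)))))
      (J (e (Sum.inr (Sum.inl (i, 1)))))) *
    ∏ i, (of fun k l => if J (e (Sum.inr (Sum.inr (i, k)))) = Sum.inr l then (1 : ℚ) else 0).det)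

/-- The span of the products of standard classes on the fibres of `X ^ m`, with at most one determinant,
and flat classes on the fibres of `Y` in the set `S`. -/
def Family.standardTimes (F : Family B n) (s m : ℕ) {v : ℕ} (S : Set (Fin v → ℚ)) :
    Submodule ℚ ((Fin m → Fin s ⊕ Fin n) → Fin v → ℚ) :=
  Submodule.span ℚ {t | ∃ (a b c : ℕ) (e : Fin a ⊕ ((Fin b × Fin 2) ⊕ (Fin c × Fin n)) ≃ Fin m)
    (ν : Fin a → Fin s → ℚ) (y : Fin v → ℚ), c ≤ 1 ∧ y ∈ S ∧
      t = fun J b => F.standardClass e ν J * y b}

end

end Pool.Agent.X311.K3
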