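import Mathlib
import Pool.Agent.X311.K3i
import Pool.Agent.X311.VhDefs

/-!
# Families of K3 surfaces: the derivatives of the periods
-/

set_option autoImplicit false
set_option linter.unusedSectionVars false

namespace Pool.Agent.X311.K3

open Matrix Module Function Pool.Agent.TH131.GHC Pool.Agent.TH504.VY Pool.Agent.TH504.CB
  Pool.Agent.X311

noncomputable section

variable {U : Type} {n : ℕ} (F : Family U n)

/-- the member at a point whose period is not in a rational subspace -/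
def Family.member (b : U) (h : LinearIndependent ℚ (F.ω b)) : Period n where
  Q := F.Q
  ω := F.ω b
  symm := F.symm
  isotropic := F.isotropic b
  positive := F.positive b
  negative := F.negative b
  transcendental := h

variable {T : Period n} {P : Type} [Fintype P] [DecidableEq P] {v : ℕ} {Z : Matrix (Fin v) (Fin v) ℂ}
  {f : (P → Fin n) → Fin v → ℚ}

theorem wT_comm0 {p p' : Fin n → ℂ} (h1 : T.op *ᵥ p = 0) (h2 : T.op *ᵥ p' = 0) :
    T.op * wT T p p' - wT T p p' * T.op = 0 := by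
  have h3 : wd (cM T.Q) p 0 = 0 := by rw [wd_anti, wd_zero_left, neg_zero]
  rw [wT, (op_sk T).br (cM_symm T), h1, h2, wd_zero_left, h3, add_zero]

theorem wT_op_comm : T.op * wT T T.ω (cj T.ω) - wT T T.ω (cj T.ω) * T.op = 0 := by
  rw [wT, (op_sk T).br (cM_symm T), op_o, op_p, wd_smul_left, wd_smul_right]
  module

/-- The components of the element given by another period. -/
theorem wT_dec (y : Fin n → ℂ) : wT T y (cj y) =
    (((B T (cj T.ω) y / hh T) * starRingEnd ℂ (B T (cj T.ω) y / hh T) -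
      (B T T.ω y / hh T) * starRingEnd ℂ (B T T.ω y / hh T)) • wT T T.ω (cj T.ω) +
        wT T (pr T y) (cj (pr T y))) +
    wT T T.ω ((B T (cj T.ω) y / hh T) • cj (pr T y) -
      starRingEnd ℂ (B T T.ω y / hh T) • pr T y) +
    wT T (starRingEnd ℂ (B T (cj T.ω) y / hh T) • pr T y - (B T T.ω y / hh T) • cj (pr T y))
      (cj T.ω) := by
  have hy := dec (T := T) y
  have hcy : cj y = starRingEnd ℂ (B T (cj T.ω) y / hh T) • cj T.ω +
      (starRingEnd ℂ (B T T.ω y / hh T) • T.ω + cj (pr T y)) := by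
    conv_lhs => rw [hy]
    funext i
    simp only [cj, Pi.add_apply, Pi.smul_apply, smul_eq_mul, map_add, map_mul, Complex.conj_conj]
  generalize B T (cj T.ω) y / hh T = a at hy hcy ⊢
  generalize B T T.ω y / hh T = b at hy hcy ⊢
  generalize pr T y = p at hy hcy ⊢
  generalize starRingEnd ℂ a = a' at hcy ⊢
  generalize starRingEnd ℂ b = b' at hcy ⊢
  generalize cj p = p' at hcy ⊢
  rw [hcy, hy]
  simp only [wT, sub_eq_add_neg, ← neg_smul, wd_add_left, wd_add_right, wd_smul_left, wd_smul_right,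
    wd_self]
  rw [show wd (cM T.Q) (cj T.ω) T.ω = -wd (cM T.Q) T.ω (cj T.ω) from wd_anti _ _ _,
    show wd (cM T.Q) (cj T.ω) p' = -wd (cM T.Q) p' (cj T.ω) from wd_anti _ _ _,
    show wd (cM T.Q) p T.ω = -wd (cM T.Q) T.ω p from wd_anti _ _ _]
  module

/-- Another Hodge operator which kills the class moves the period. -/
theorem move_mem (hz : ((T.op, Z) : R2 n v) ∈ NN T f) {y : Fin n → ℂ} {k : ℂ} (hk : k ≠ 0)
    (hy : ((k • wT T y (cj y), Z) : R2 n v) ∈ NN T f) :
    starRingEnd ℂ (B T (cj T.ω) y / hh T) • pr T y - (B T T.ω y / hh T) • cj (pr T y) ∈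
      SS T (LL T f) := by
  obtain ⟨p1, p2⟩ := B_pr (T := T) y
  have c1 : B T T.ω (cj (pr T y)) = 0 := B_cjo p2
  have c2 : B T (cj T.ω) (cj (pr T y)) = 0 := B_cjp p1
  have q1 : B T T.ω (starRingEnd ℂ (B T (cj T.ω) y / hh T) • pr T y -
      (B T T.ω y / hh T) • cj (pr T y)) = 0 := by
    rw [B, bl_sub_right, bl_smul_right, bl_smul_right,
      show bl (cM T.Q) T.ω (pr T y) = 0 from p1, show bl (cM T.Q) T.ω (cj (pr T y)) = 0 from c1,
      mul_zero, mul_zero, sub_zero]
  have q2 : B T (cj T.ω) (starRingEnd ℂ (B T (cj T.ω) y / hh T) • pr T y -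
      (B T T.ω y / hh T) • cj (pr T y)) = 0 := by
    rw [B, bl_sub_right, bl_smul_right, bl_smul_right,
      show bl (cM T.Q) (cj T.ω) (pr T y) = 0 from p2,
      show bl (cM T.Q) (cj T.ω) (cj (pr T y)) = 0 from c2, mul_zero, mul_zero, sub_zero]
  have r1 : B T T.ω ((B T (cj T.ω) y / hh T) • cj (pr T y) -
      starRingEnd ℂ (B T T.ω y / hh T) • pr T y) = 0 := by
    rw [B, bl_sub_right, bl_smul_right, bl_smul_right,
      show bl (cM T.Q) T.ω (pr T y) = 0 from p1, show bl (cM T.Q) T.ω (cj (pr T y)) = 0 from c1,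
      mul_zero, mul_zero, sub_zero]
  have r2 : B T (cj T.ω) ((B T (cj T.ω) y / hh T) • cj (pr T y) -
      starRingEnd ℂ (B T T.ω y / hh T) • pr T y) = 0 := by
    rw [B, bl_sub_right, bl_smul_right, bl_smul_right,
      show bl (cM T.Q) (cj T.ω) (pr T y) = 0 from p2,
      show bl (cM T.Q) (cj T.ω) (cj (pr T y)) = 0 from c2, mul_zero, mul_zero, sub_zero]
  refine ⟨q1, q2, ?_⟩
  have hdif : ((k • wT T y (cj y) - T.op, 0) : R2 n v) ∈ NN T f := by
    have h1 := Submodule.sub_mem _ hy hz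
    have h2 : ((k • wT T y (cj y), Z) - (T.op, Z) : R2 n v) = (k • wT T y (cj y) - T.op, 0) :=
      Prod.ext rfl (sub_self _)
    rwa [h2] at h1
  have h1 := adl_NN hz [2, 0] _ hdif
  have hz0 : adl Z [2, 0] (0 : Matrix (Fin v) (Fin v) ℂ) = 0 := adl_zero Z _
  -- the three parts
  have hX0 : T.op * (k • (((B T (cj T.ω) y / hh T) * starRingEnd ℂ (B T (cj T.ω) y / hh T) -
      (B T T.ω y / hh T) * starRingEnd ℂ (B T T.ω y / hh T)) • wT T T.ω (cj T.ω) +
        wT T (pr T y) (cj (pr T y))) - T.op) -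
      (k • (((B T (cj T.ω) y / hh T) * starRingEnd ℂ (B T (cj T.ω) y / hh T) -
      (B T T.ω y / hh T) * starRingEnd ℂ (B T T.ω y / hh T)) • wT T T.ω (cj T.ω) +
        wT T (pr T y) (cj (pr T y))) - T.op) * T.op = ((0 : ℤ) : ℂ) •
      (k • (((B T (cj T.ω) y / hh T) * starRingEnd ℂ (B T (cj T.ω) y / hh T) -
      (B T T.ω y / hh T) * starRingEnd ℂ (B T T.ω y / hh T)) • wT T T.ω (cj T.ω) +
        wT T (pr T y) (cj (pr T y))) - T.op) := by
    have e1 : T.op * wT T T.ω (cj T.ω) = wT T T.ω (cj T.ω) * T.op := sub_eq_zero.1 wT_op_comm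
    have e2 : T.op * wT T (pr T y) (cj (pr T y)) = wT T (pr T y) (cj (pr T y)) * T.op :=
      sub_eq_zero.1 (wT_comm0 (op_s T p1 p2) (op_s T c1 c2))
    rw [Int.cast_zero, zero_smul, mul_sub, sub_mul, mul_smul_comm, smul_mul_assoc, mul_add, add_mul,
      mul_smul_comm, smul_mul_assoc, e1, e2, sub_self]
  have hX2 : T.op * (k • wT T T.ω ((B T (cj T.ω) y / hh T) • cj (pr T y) -
      starRingEnd ℂ (B T T.ω y / hh T) • pr T y)) -
      (k • wT T T.ω ((B T (cj T.ω) y / hh T) • cj (pr T y) -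
      starRingEnd ℂ (B T T.ω y / hh T) • pr T y)) * T.op = ((2 : ℤ) : ℂ) •
      (k • wT T T.ω ((B T (cj T.ω) y / hh T) • cj (pr T y) -
      starRingEnd ℂ (B T T.ω y / hh T) • pr T y)) := by
    rw [mul_smul_comm, smul_mul_assoc, ← smul_sub, op_high T r1 r2, smul_comm]
  have hXm : T.op * (k • wT T (starRingEnd ℂ (B T (cj T.ω) y / hh T) • pr T y -
      (B T T.ω y / hh T) • cj (pr T y)) (cj T.ω)) -
      (k • wT T (starRingEnd ℂ (B T (cj T.ω) y / hh T) • pr T y -
      (B T T.ω y / hh T) • cj (pr T y)) (cj T.ω)) * T.op = ((-2 : ℤ) : ℂ) •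
      (k • wT T (starRingEnd ℂ (B T (cj T.ω) y / hh T) • pr T y -
      (B T T.ω y / hh T) • cj (pr T y)) (cj T.ω)) := by
    rw [mul_smul_comm, smul_mul_assoc, ← smul_sub, op_low T q1 q2, smul_comm]
  have h2 : adl T.op [2, 0] (k • wT T y (cj y) - T.op) =
      (8 * k) • wT T (starRingEnd ℂ (B T (cj T.ω) y / hh T) • pr T y -
        (B T T.ω y / hh T) • cj (pr T y)) (cj T.ω) := by
    have h3 : k • wT T y (cj y) - T.op =
        (k • (((B T (cj T.ω) y / hh T) * starRingEnd ℂ (B T (cj T.ω) y / hh T) -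
      (B T T.ω y / hh T) * starRingEnd ℂ (B T T.ω y / hh T)) • wT T T.ω (cj T.ω) +
        wT T (pr T y) (cj (pr T y))) - T.op) +
        k • wT T T.ω ((B T (cj T.ω) y / hh T) • cj (pr T y) -
      starRingEnd ℂ (B T T.ω y / hh T) • pr T y) +
        k • wT T (starRingEnd ℂ (B T (cj T.ω) y / hh T) • pr T y -
        (B T T.ω y / hh T) • cj (pr T y)) (cj T.ω) := by
      conv_lhs => rw [wT_dec (T := T) y]
      rw [smul_add, smul_add]
      abel
    rw [h3, adl_add, adl_add, adl_eig _ _ _ _ hX0, adl_eig _ _ _ _ hX2, adl_eig _ _ _ _ hXm]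
    generalize wT T (starRingEnd ℂ (B T (cj T.ω) y / hh T) • pr T y -
      (B T T.ω y / hh T) • cj (pr T y)) (cj T.ω) = W
    simp only [List.map_cons, List.map_nil, List.prod_cons, List.prod_nil]
    have e8 : (((-2 : ℤ) - 2 : ℤ) : ℂ) * ((((-2 : ℤ) - 0 : ℤ) : ℂ) * 1) = 8 := by norm_num
    have e9 : (((0 : ℤ) - 2 : ℤ) : ℂ) * ((((0 : ℤ) - 0 : ℤ) : ℂ) * 1) = 0 := by norm_num
    have e10 : (((2 : ℤ) - 2 : ℤ) : ℂ) * ((((2 : ℤ) - 0 : ℤ) : ℂ) * 1) = 0 := by norm_num
    rw [e8, e9, e10, zero_smul, zero_smul, zero_add, zero_add, smul_smul]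
  have h3 : adl ((T.op, Z) : R2 n v) [2, 0] ((k • wT T y (cj y) - T.op, 0) : R2 n v) =
      ((8 * k) • wT T (starRingEnd ℂ (B T (cj T.ω) y / hh T) • pr T y -
        (B T T.ω y / hh T) • cj (pr T y)) (cj T.ω), 0) := by
    refine Prod.ext ?_ ?_
    · rw [adl_fst]
      exact h2
    · rw [adl_snd]
      exact hz0
  rw [h3] at h1
  have h4 : (8 * k) ≠ 0 := mul_ne_zero (by norm_num) hk
  have h5 := (LL T f).smul_mem (8 * k)⁻¹ (mem_LL.2 h1)
  rwa [smul_smul, inv_mul_cancel₀ h4, one_smul] at h5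

/-- **The derivative of the period.** -/
theorem deriv_mem (S : Submodule ℂ (Fin n → ℂ)) {y : ℝ → Fin n → ℂ} (hy0 : y 0 = T.ω)
    {w : Fin n → ℂ} (hw : HasDerivAt y w 0)
    (h : ∀ r, starRingEnd ℂ (B T (cj T.ω) (y r) / hh T) • pr T (y r) -
      (B T T.ω (y r) / hh T) • cj (pr T (y r)) ∈ S) : pr T w ∈ S := by
  classical
  by_contra hn
  obtain ⟨φ, hφ1, hφ2⟩ := Submodule.exists_dual_map_eq_bot_of_notMem hn inferInstance
  have hφS : ∀ x ∈ S, φ x = 0 := by
    intro x hx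
    have h1 : φ x ∈ S.map φ := ⟨x, hx, rfl⟩
    rw [hφ2] at h1
    exact (Submodule.mem_bot ℂ).1 h1
  -- the linear maps
  let La : (Fin n → ℂ) →ₗ[ℂ] ℂ :=
    { toFun := fun y => B T (cj T.ω) y / hh T
      map_add' := fun x y => by rw [B, bl_add_right, add_div]
      map_smul' := fun c x => by rw [B, bl_smul_right, mul_div_assoc]; rfl }
  let Lb : (Fin n → ℂ) →ₗ[ℂ] ℂ :=
    { toFun := fun y => B T T.ω y / hh T
      map_add' := fun x y => by rw [B, bl_add_right, add_div]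
      map_smul' := fun c x => by rw [B, bl_smul_right, mul_div_assoc]; rfl }
  have ha : HasDerivAt (fun r => La (y r)) (La w) 0 :=
    ((La.toContinuousLinearMap.restrictScalars ℝ).hasFDerivAt (x := y 0)).comp_hasDerivAt 0 hw
  have hb : HasDerivAt (fun r => Lb (y r)) (Lb w) 0 :=
    ((Lb.toContinuousLinearMap.restrictScalars ℝ).hasFDerivAt (x := y 0)).comp_hasDerivAt 0 hw
  have hp : HasDerivAt (fun r => pr T (y r)) (pr T w) 0 :=
    (((pr T).toContinuousLinearMap.restrictScalars ℝ).hasFDerivAt (x := y 0)).comp_hasDerivAt 0 hw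
  have hac : HasDerivAt (fun r => starRingEnd ℂ (La (y r))) (starRingEnd ℂ (La w)) 0 := ha.star
  have hpc : HasDerivAt (fun r => cj (pr T (y r))) (cj (pr T w)) 0 := by
    rw [hasDerivAt_pi]
    intro i
    exact ((hasDerivAt_pi.1 hp) i).star
  have h1 := (hac.smul hp).sub (hb.smul hpc)
  have e1 : La (y 0) = 1 := by
    change B T (cj T.ω) (y 0) / hh T = 1
    rw [hy0, B_po, div_self (hh_ne T)]
  have e2 : Lb (y 0) = 0 := by
    change B T T.ω (y 0) / hh T = 0
    rw [hy0, B_oo, zero_div]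
  have e3 : pr T (y 0) = 0 := by rw [hy0, pr_o]
  have e4 : cj (0 : Fin n → ℂ) = 0 := by
    funext i
    simp [cj]
  rw [e1, e2, e3, e4, map_one, one_smul, smul_zero, zero_smul, smul_zero, add_zero, add_zero,
    sub_zero] at h1
  have h2 := ((φ.toContinuousLinearMap.restrictScalars ℝ).hasFDerivAt
    (x := ((fun r => starRingEnd ℂ (La (y r))) • (fun r => pr T (y r)) -
      (fun r => Lb (y r)) • fun r => cj (pr T (y r))) 0)).comp_hasDerivAt 0 h1
  have h3 : (fun r => (φ.toContinuousLinearMap.restrictScalars ℝ)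
      (((fun r => starRingEnd ℂ (La (y r))) • (fun r => pr T (y r)) -
      (fun r => Lb (y r)) • fun r => cj (pr T (y r))) r)) = fun _ => 0 := by
    funext r
    exact hφS _ (h r)
  have h4 : HasDerivAt (fun _ : ℝ => (0 : ℂ)) (φ (pr T w)) 0 := by
    rw [← h3]
    exact h2
  exact hφ1 (h4.unique (hasDerivAt_const 0 0))

end

end Pool.Agent.X311.K3
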