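import Mathlib
import Pool.Agent.X311.Vh1
import Pool.Agent.X311.Nd

/-!
# Families of K3 surfaces: flat Hodge classes
-/

set_option autoImplicit false
set_option linter.unusedSectionVars false

namespace Pool.Agent.X311.K3

open Matrix Module Function Pool.Agent.TH131.GHC Pool.Agent.TH504.VY Pool.Agent.TH504.CB
  Pool.Agent.TH125.Nod Pool.Agent.X311

noncomputable section

variable {U : Type} {n : ℕ} {F : Family U n} {v : ℕ} {V : U → Coh v} {u₀ : U}
  (hT : LinearIndependent ℚ (F.ω u₀))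

theorem member_op : (F.member u₀ hT).op = F.op u₀ := rfl

/-- the directions are orthogonal to the period -/
theorem dir_orth {w : Fin n → ℂ} (hw : F.IsDirection V u₀ w) :
    B (F.member u₀ hT) (F.member u₀ hT).ω w = 0 := by
  obtain ⟨c, hc0, hc, -⟩ := hw
  have hq : ∀ i, HasDerivAt (fun r => (cM F.Q *ᵥ F.ω (c r)) i) ((cM F.Q *ᵥ w) i) 0 := by
    intro i
    have h1 : HasDerivAt (fun r => ∑ j, cM F.Q i j * F.ω (c r) j) (∑ j, cM F.Q i j * w j) 0 :=
      HasDerivAt.fun_sum fun j _ => ((hasDerivAt_pi.1 hc) j).const_mul _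
    exact h1
  have h1 : HasDerivAt (fun r => ∑ i, F.ω (c r) i * (cM F.Q *ᵥ F.ω (c r)) i)
      (∑ i, (w i * (cM F.Q *ᵥ F.ω (c 0)) i + F.ω (c 0) i * (cM F.Q *ᵥ w) i)) 0 :=
    HasDerivAt.fun_sum fun i _ => ((hasDerivAt_pi.1 hc) i).mul (hq i)
  have h2 : (fun r => ∑ i, F.ω (c r) i * (cM F.Q *ᵥ F.ω (c r)) i) = fun _ => 0 := by
    funext r
    exact F.isotropic (c r)
  rw [h2] at h1
  have h3 := h1.unique (hasDerivAt_const 0 0)
  rw [Finset.sum_add_distrib, hc0] at h3
  have h4 : ∑ i, w i * (cM F.Q *ᵥ F.ω u₀) i = B (F.member u₀ hT) w (F.member u₀ hT).ω := rfl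
  have h5 : ∑ i, F.ω u₀ i * (cM F.Q *ᵥ w) i = B (F.member u₀ hT) (F.member u₀ hT).ω w := rfl
  rw [h4, h5, B_sym w, ← two_mul] at h3
  exact (mul_eq_zero.1 h3).resolve_left two_ne_zero

section flat

variable {P : Type} [Fintype P] [DecidableEq P] {f : (P → Fin n) → Fin v → ℚ}

include hT in
/-- The Hodge operators are skew. -/
theorem op_skew (b : U) : Sk (cM F.Q) (F.op b) := by
  have h1 : F.op b = (2 / (F.ω b ⬝ᵥ (cM F.Q *ᵥ cj (F.ω b)))) • wd (cM F.Q) (F.ω b) (cj (F.ω b)) := rfl
  rw [h1]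
  refine Sk_smul _ (wd_sk ?_ _ _)
  exact cM_symm (F.member u₀ hT)

include hT in
theorem mem_NN_at {b : U} (hf : ∀ J d, ∑ j, ∑ l, F.op b (J j) l * ((f (update J j l) d : ℚ) : ℂ) +
    ∑ c, (V b).z d c * ((f J c : ℚ) : ℂ) = 0) :
    ((F.op b, (V b).z) : R2 n v) ∈ NN (F.member u₀ hT) f := by
  refine ⟨op_skew hT b, ?_⟩
  funext J b
  unfold ac
  rw [Pi.add_apply, Pi.add_apply, aT_apply]
  exact hf J b

variable (hf : ∀ b, ∀ J d, ∑ j, ∑ l, F.op b (J j) l * ((f (update J j l) d : ℚ) : ℂ) +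
    ∑ c, (V b).z d c * ((f J c : ℚ) : ℂ) = 0)

include hf in
theorem dir_mem {w : Fin n → ℂ} (hw : F.IsDirection V u₀ w) :
    pr (F.member u₀ hT) w ∈ SS (F.member u₀ hT) (LL (F.member u₀ hT) f) := by
  obtain ⟨c, hc0, hc, hcV⟩ := hw
  refine deriv_mem _ (y := fun r => F.ω (c r)) (by rw [hc0]; rfl) hc fun r => ?_
  have hz := mem_NN_at hT (hf u₀)
  have hy := mem_NN_at hT (hf (c r))
  rw [hcV r] at hy
  refine move_mem (T := F.member u₀ hT) hz (k := 2 / (F.ω (c r) ⬝ᵥ (cM F.Q *ᵥ cj (F.ω (c r))))) ?_ hy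
  refine div_ne_zero two_ne_zero fun h0 => ?_
  have h1 := F.positive (c r)
  rw [h0, Complex.zero_re] at h1
  exact lt_irrefl _ h1

include hf in
theorem moduli_le : F.moduli V u₀ ≤ finrank ℂ (SS (F.member u₀ hT) (LL (F.member u₀ hT) f)) := by
  set T := F.member u₀ hT with hTdef
  set W := Submodule.span ℂ ({F.ω u₀} ∪ {w | F.IsDirection V u₀ w}) with hW
  have h1 : ∀ y ∈ W, B T T.ω y = 0 ∧ pr T y ∈ SS T (LL T f) := by
    intro y hy
    induction hy using Submodule.span_induction with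
    | mem y hy =>
      rcases hy with hy | hy
      · rw [Set.mem_singleton_iff.1 hy]
        exact ⟨B_oo T, by rw [show pr T (F.ω u₀) = 0 from pr_o (T := T)]; exact Submodule.zero_mem _⟩
      · exact ⟨dir_orth hT hy, dir_mem hT hf hy⟩
    | zero => exact ⟨bl_zero_right _ _, by rw [map_zero]; exact Submodule.zero_mem _⟩
    | add x y _ _ hx hy =>
      refine ⟨?_, ?_⟩
      · rw [B, bl_add_right]
        exact by rw [show bl (cM T.Q) T.ω x = 0 from hx.1, show bl (cM T.Q) T.ω y = 0 from hy.1,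
          add_zero]
      · rw [map_add]
        exact Submodule.add_mem _ hx.2 hy.2
    | smul c x _ hx =>
      refine ⟨?_, ?_⟩
      · rw [B, bl_smul_right]
        exact by rw [show bl (cM T.Q) T.ω x = 0 from hx.1, mul_zero]
      · rw [map_smul]
        exact Submodule.smul_mem _ _ hx.2
  let φ : W →ₗ[ℂ] (Fin n → ℂ) := (pr T).comp W.subtype
  have h2 : finrank ℂ (LinearMap.range φ) ≤ finrank ℂ (SS T (LL T f)) := by
    refine Submodule.finrank_mono ?_
    rintro _ ⟨y, rfl⟩
    exact (h1 y.1 y.2).2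
  have h3 : finrank ℂ (LinearMap.ker φ) ≤ 1 := by
    refine finrank_le_one (⟨⟨F.ω u₀, Submodule.subset_span (Or.inl rfl)⟩, ?_⟩ : LinearMap.ker φ) ?_
    · rw [LinearMap.mem_ker]
      exact pr_o (T := T)
    · rintro ⟨⟨y, hy⟩, hy'⟩
      rw [LinearMap.mem_ker] at hy'
      have h4 : pr T y = 0 := hy'
      have h5 := dec (T := T) y
      rw [(h1 y hy).1, h4, zero_div, zero_smul, add_zero, add_zero] at h5
      refine ⟨B T (cj T.ω) y / hh T, ?_⟩
      refine Subtype.ext (Subtype.ext ?_)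
      exact h5.symm
  have h4 := LinearMap.finrank_range_add_finrank_ker φ
  change finrank ℂ W - 1 ≤ _
  omega

include hf in
/-- All skew matrices kill a flat Hodge class. -/
theorem wT_mem_flat (hD : n < 2 * F.moduli V u₀ + 2) (a b : Fin n → ℂ) :
    wT (F.member u₀ hT) a b ∈ LL (F.member u₀ hT) f := by
  have h1 := moduli_le hT hf
  exact all_mem good_LL (by omega) a b

include hT hf in
/-- The values of a flat Hodge class are Hodge classes. -/
theorem flat_val (hD : n < 2 * F.moduli V u₀ + 2) (b : U) (J : P → Fin n) :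
    IsHodgeOn (V b) (f J) := by
  have h1 : F.op b ∈ LL (F.member u₀ hT) f := by
    have h2 : F.op b = (2 / (F.ω b ⬝ᵥ (cM F.Q *ᵥ cj (F.ω b)))) •
        wT (F.member u₀ hT) (F.ω b) (cj (F.ω b)) := rfl
    rw [h2]
    exact (LL _ f).smul_mem _ (wT_mem_flat hT hf hD _ _)
  have h2 := Submodule.sub_mem _ (mem_NN_at hT (hf b)) (mem_LL.1 h1)
  have h3 : ((F.op b, (V b).z) - (F.op b, 0) : R2 n v) = (0, (V b).z) := by
    refine Prod.ext ?_ ?_
    · exact sub_self _
    · exact sub_zero _
  rw [h3] at h2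
  have h4 := congrFun h2.2 J
  have h5 : ac ((0, (V b).z) : R2 n v) (cF f) J = (V b).z *ᵥ cF f J := by
    unfold ac
    have h6 : aT (0 : Matrix (Fin n) (Fin n) ℂ) (cF f) = 0 := by
      have h := aT_smul 0 (0 : Matrix (Fin n) (Fin n) ℂ) (cF f)
      rwa [zero_smul, zero_smul] at h
    change (aT (0 : Matrix (Fin n) (Fin n) ℂ) (cF f) + aY (V b).z (cF f)) J = _
    rw [h6, zero_add]
    rfl
  rw [h5] at h4
  exact h4

end flat

/-- the classes which are Hodge classes everywhere -/
def HF (V : U → Coh v) : Submodule ℚ (Fin v → ℚ) := ⨅ b, HS (V b)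

theorem mem_HF {y : Fin v → ℚ} : y ∈ HF V ↔ ∀ b, IsHodgeOn (V b) y := by
  unfold HF
  rw [Submodule.mem_iInf]
  exact Iff.rfl

variable {P : Type} [Fintype P] [DecidableEq P]

include hT in
/-- **Flat Hodge classes with transcendental components.** -/
theorem pure_flat {f : (P → Fin n) → Fin v → ℚ} (hf : ∀ b, ∀ J d, ∑ j, ∑ l, F.op b (J j) l *
    ((f (update J j l) d : ℚ) : ℂ) + ∑ c, (V b).z d c * ((f J c : ℚ) : ℂ) = 0)
    (hD : n < 2 * F.moduli V u₀ + 2) :
    ∃ g : (P → Fin n) → HF V, g ∈ SG F.Q⁻¹ (HF V) P ∧ ∀ J, (g J : Fin v → ℚ) = f J := by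
  have h1 := inv_of (T := F.member u₀ hT) (f := f) fun a b => wT_mem_flat hT hf hD a b
  refine ⟨fun J => ⟨f J, mem_HF.2 fun b => flat_val hT hf hD b J⟩, ?_, fun J => rfl⟩
  refine fftS' (Q := F.Q⁻¹) (R := F.Q) (R_symm (F.member u₀ hT)) (inv_Q (F.member u₀ hT)) _ P _ rfl ?_
  intro u w huw J
  refine (HF V).subtype_injective ?_
  rw [map_sum, map_zero]
  exact h1 u w huw J

variable {s m : ℕ} {q : Fin m → Option (Fin s)}

/-- The Hodge condition on the slices. -/
theorem slice_flat {b : U} {t : (Fin m → Fin s ⊕ Fin n) → Fin v → ℚ} (ht : F.IsHodgeAt V t b)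
    (q : Fin m → Option (Fin s)) (J : {j // q j = none} → Fin n) (d : Fin v) :
    ∑ j, ∑ l, F.op b (J j) l * ((t (cb q (update J j l)) d : ℚ) : ℂ) +
      ∑ c, (V b).z d c * ((t (cb q J) c : ℚ) : ℂ) = 0 := by
  have h1 := ht (cb q J) d
  rw [← h1]
  congr 1
  have h2 : ∀ j : Fin m, ¬ q j = none → ∑ l, F.opX s b (cb q J j) l *
      ((t (update (cb q J) j l) d : ℚ) : ℂ) = 0 := by
    intro j hj
    refine Finset.sum_eq_zero fun l _ => ?_
    have h3 := cb_some J ⟨j, hj⟩
    change cb q J j = _ at h3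
    have h4 : F.opX s b (cb q J j) l = 0 := by
      rw [h3]
      rcases l with l | l
      · rfl
      · rfl
    rw [h4, zero_mul]
  have h3 : ∑ j, ∑ l, F.opX s b (cb q J j) l * ((t (update (cb q J) j l) d : ℚ) : ℂ) =
      ∑ j ∈ Finset.univ.filter (fun j => q j = none),
        ∑ l, F.opX s b (cb q J j) l * ((t (update (cb q J) j l) d : ℚ) : ℂ) := by
    symm
    refine Finset.sum_subset (Finset.filter_subset _ _) fun j _ hj => h2 j fun h => hj ?_
    exact Finset.mem_filter.2 ⟨Finset.mem_univ _, h⟩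
  rw [h3, Finset.sum_subtype (p := fun j => q j = none) _ (by simp)]
  refine Finset.sum_congr rfl fun j _ => ?_
  rw [cb_none, Fintype.sum_sum_type]
  have h4 : ∑ l : Fin s, F.opX s b (Sum.inr (J j)) (Sum.inl l) *
      ((t (update (cb q J) j.1 (Sum.inl l)) d : ℚ) : ℂ) = 0 := by
    refine Finset.sum_eq_zero fun l _ => ?_
    have h5 : F.opX s b (Sum.inr (J j)) (Sum.inl l) = 0 := rfl
    rw [h5, zero_mul]
  rw [h4, zero_add]
  refine Finset.sum_congr rfl fun l _ => ?_
  rw [cb_update]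
  rfl

/-- extension of a function on the indices of a pattern -/
def exH (H : Submodule ℚ (Fin v → ℚ)) (q : Fin m → Option (Fin s)) :
    (({j // q j = none} → Fin n) → H) →ₗ[ℚ] ((Fin m → Fin s ⊕ Fin n) → Fin v → ℚ) where
  toFun g := fun J b => ∑ y : {j // q j = none} → Fin n, if J = cb q y then (g y : Fin v → ℚ) b else 0
  map_add' g g' := by
    funext J b
    rw [Pi.add_apply, Pi.add_apply, ← Finset.sum_add_distrib]
    refine Finset.sum_congr rfl fun y _ => ?_
    split_ifs
    · rfl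
    · rw [add_zero]
  map_smul' c g := by
    funext J b
    rw [RingHom.id_apply, Pi.smul_apply, Pi.smul_apply, Finset.smul_sum]
    refine Finset.sum_congr rfl fun y _ => ?_
    split_ifs
    · rfl
    · rw [smul_zero]

variable {H : Submodule ℚ (Fin v → ℚ)}

theorem exH_cb (g : ({j // q j = none} → Fin n) → H) (y : {j // q j = none} → Fin n) (b : Fin v) :
    exH H q g (cb q y) b = (g y : Fin v → ℚ) b := by
  change (∑ y' : {j // q j = none} → Fin n, if cb q y = cb q y' then (g y' : Fin v → ℚ) b else 0) = _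
  rw [Finset.sum_eq_single y]
  · rw [if_pos rfl]
  · intro y' _ hy
    rw [if_neg fun h => hy (cb_inj h).symm]
  · intro h
    exact absurd (Finset.mem_univ _) h

theorem exH_not (g : ({j // q j = none} → Fin n) → H) {J : Fin m → Fin s ⊕ Fin n}
    (hJ : ¬ ∃ y, J = cb q y) (b : Fin v) : exH H q g J b = 0 := by
  change (∑ y' : {j // q j = none} → Fin n, if J = cb q y' then (g y' : Fin v → ℚ) b else 0) = _
  refine Finset.sum_eq_zero fun y _ => ?_
  rw [if_neg fun h => hJ ⟨y, h⟩]

/-- The decomposition by patterns. -/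
theorem sum_exH {t : (Fin m → Fin s ⊕ Fin n) → Fin v → ℚ}
    (g : ∀ q : Fin m → Option (Fin s), ({j // q j = none} → Fin n) → H)
    (hg : ∀ q J, (g q J : Fin v → ℚ) = t (cb q J)) : t = ∑ q, exH H q (g q) := by
  funext J b
  rw [Finset.sum_apply, Finset.sum_apply, Finset.sum_eq_single (pt J)]
  · obtain ⟨y, hy⟩ := exists_cb_pt J
    have h1 : exH H (pt J) (g (pt J)) (cb (pt J) y) b = _ := exH_cb _ _ _
    rw [hg, ← hy] at h1
    exact h1.symm
  · intro q _ hq
    refine exH_not _ ?_ b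
    rintro ⟨y, hy⟩
    apply hq
    rw [hy, pt_cb]
  · intro h
    exact absurd (Finset.mem_univ _) h

/-- the generators -/
theorem exH_gen {b c : ℕ} (e : (Fin b × Fin 2) ⊕ (Fin c × Fin n) ≃ {j // q j = none}) (w : H)
    (hc : c ≤ 1) : exH H q (fun J => gn F.Q⁻¹ e J • w) ∈ F.standardTimes s m (H : Set (Fin v → ℚ)) := by
  classical
  let ea : Fin (Fintype.card {j // ¬ q j = none}) ≃ {j // ¬ q j = none} :=
    (Fintype.equivFin _).symm
  let e' : Fin (Fintype.card {j // ¬ q j = none}) ⊕ ((Fin b × Fin 2) ⊕ (Fin c × Fin n)) ≃ Fin m :=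
    (ea.sumCongr e).trans ((Equiv.sumComm _ _).trans (Equiv.sumCompl (fun j => q j = none)))
  have he1 : ∀ i, e' (Sum.inl i) = (ea i).1 := fun i => rfl
  have he2 : ∀ x, e' (Sum.inr x) = (e x).1 := fun x => rfl
  let ν : Fin (Fintype.card {j // ¬ q j = none}) → Fin s → ℚ := fun i =>
    Pi.single ((q (ea i).1).get (Option.isSome_iff_ne_none.2 (ea i).2)) 1
  refine Submodule.subset_span ⟨_, b, c, e', ν, w.1, hc, w.2, ?_⟩
  funext J d
  by_cases hJ : ∃ y, J = cb q y
  · obtain ⟨y, rfl⟩ := hJ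
    rw [exH_cb]
    have h1 : ∏ i, Sum.elim (ν i) (fun _ => 0) (cb q y (e' (Sum.inl i))) = 1 := by
      refine Finset.prod_eq_one fun i _ => ?_
      rw [he1, cb_some, Sum.elim_inl]
      exact Pi.single_eq_same _ _
    have h2 : ∏ i, fromBlocks (0 : Matrix (Fin s) (Fin s) ℚ) 0 0 F.Q⁻¹
        (cb q y (e' (Sum.inr (Sum.inl (i, 0))))) (cb q y (e' (Sum.inr (Sum.inl (i, 1))))) =
        ∏ i, F.Q⁻¹ (y (e (Sum.inl (i, 0)))) (y (e (Sum.inl (i, 1)))) := by
      refine Finset.prod_congr rfl fun i _ => ?_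
      rw [he2, he2, cb_none, cb_none]
      rfl
    have h3 : ∏ i, (of fun k l => if cb q y (e' (Sum.inr (Sum.inr (i, k)))) = Sum.inr l then (1 : ℚ)
        else 0).det = ∏ i, (of fun k l => if y (e (Sum.inr (i, k))) = l then (1 : ℚ) else 0).det := by
      refine Finset.prod_congr rfl fun i _ => ?_
      congr 1
      ext k l
      rw [of_apply, of_apply, he2, cb_none]
      simp only [Sum.inr.injEq]
    unfold Family.standardClass
    rw [h1, h2, h3, one_mul]
    rfl
  · rw [exH_not _ hJ]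
    have h1 : F.standardClass e' ν J = 0 := by
      by_contra hne
      apply hJ
      unfold Family.standardClass at hne
      obtain ⟨n1, n2⟩ := mul_ne_zero_iff.1 hne
      obtain ⟨n2, n3⟩ := mul_ne_zero_iff.1 n2
      refine exists_cb J q ?_ ?_
      · intro j
        have h2 : j.1 = e' (Sum.inr (e.symm j)) := by rw [he2, Equiv.apply_symm_apply]
        rw [h2]
        rcases e.symm j with ⟨i, x⟩ | ⟨i, k⟩
        · have h3 := Finset.prod_ne_zero_iff.1 n2 i (Finset.mem_univ _)
          rcases h4 : J (e' (Sum.inr (Sum.inl (i, 0)))) with a | a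
          · exfalso
            apply h3
            rw [h4]
            rcases J (e' (Sum.inr (Sum.inl (i, 1)))) with a' | a'
            · rfl
            · rfl
          · rcases h5 : J (e' (Sum.inr (Sum.inl (i, 1)))) with a' | a'
            · exfalso
              apply h3
              rw [h4, h5]
              rfl
            · fin_cases x
              · exact ⟨a, h4⟩
              · exact ⟨a', h5⟩
        · have h3 := Finset.prod_ne_zero_iff.1 n3 i (Finset.mem_univ _)
          by_contra hcon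
          push Not at hcon
          apply h3
          refine det_eq_zero_of_row_eq_zero k fun l => ?_
          rw [of_apply, if_neg (hcon l)]
      · intro j
        have h2 : j.1 = e' (Sum.inl (ea.symm j)) := by rw [he1, Equiv.apply_symm_apply]
        have h3 := Finset.prod_ne_zero_iff.1 n1 (ea.symm j) (Finset.mem_univ _)
        rw [← h2] at h3
        rcases h4 : J j.1 with a | a
        · rw [h4, Sum.elim_inl] at h3
          have h5 : ν (ea.symm j) = Pi.single ((q j.1).get (Option.isSome_iff_ne_none.2 j.2)) 1 := by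
            change Pi.single ((q (ea (ea.symm j)).1).get _) 1 = _
            congr 2
            rw [Equiv.apply_symm_apply]
          rw [h5] at h3
          congr 1
          by_contra h6
          exact h3 (Pi.single_eq_of_ne h6 _)
        · rw [h4, Sum.elim_inr] at h3
          exact absurd rfl h3
    rw [h1, zero_mul]

include hT in
/-- **Flat Hodge classes are combinations of products.** -/
theorem mem_standard_flat (hD : n < 2 * F.moduli V u₀ + 2)
    {t : (Fin m → Fin s ⊕ Fin n) → Fin v → ℚ} (ht : ∀ b, F.IsHodgeAt V t b) :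
    t ∈ F.standardTimes s m {y | ∀ b, IsHodgeOn (V b) y} := by
  have hex : ∀ q : Fin m → Option (Fin s), ∃ g : ({j // q j = none} → Fin n) → HF V,
      g ∈ SG F.Q⁻¹ (HF V) {j // q j = none} ∧ ∀ J, (g J : Fin v → ℚ) = t (cb q J) :=
    fun q => pure_flat hT (f := fun J => t (cb q J)) (fun b => slice_flat (ht b) q) hD
  choose g hg hgt using hex
  have hset : {y | ∀ b, IsHodgeOn (V b) y} = ((HF V : Submodule ℚ (Fin v → ℚ)) : Set (Fin v → ℚ)) := by
    ext y
    exact mem_HF.symm
  rw [hset, sum_exH g hgt]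
  refine Submodule.sum_mem _ fun q _ => ?_
  have h1 : SG F.Q⁻¹ (HF V) {j // q j = none} ≤
      (F.standardTimes s m ((HF V : Submodule ℚ (Fin v → ℚ)) : Set (Fin v → ℚ))).comap
        (exH (HF V) q) := by
    refine Submodule.span_le.2 ?_
    rintro _ ⟨b, c, e, w, hc, rfl⟩
    exact exH_gen e w hc
  exact h1 (hg q)

end

end Pool.Agent.X311.K3
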