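import Mathlib
import Pool.Agent.X311.VhDefs

/-!
# The variational Hodge conjecture for families of K3 surfaces times families of varieties: definitions
-/

set_option autoImplicit false

namespace Pool.Agent.X311.K3

open Matrix Pool.Agent.TH131.GHC Pool.Agent.TH504.VY

noncomputable section

variable {U : Type} {n s m v : ℕ}

/-- A flat class on the fibres of `X ^ m`: the product of classes `ν i` in `ℚ ^ s`, algebraic on all
fibres, on some of the factors, and of the transcendental parts of the diagonals (given by the inverse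
of the intersection form `Q`) on `b` pairs of the other factors. -/
def Family.pairClass (F : Family U n) {a b : ℕ} (e : Fin a ⊕ (Fin b × Fin 2) ≃ Fin m)
    (ν : Fin a → Fin s → ℚ) : (Fin m → Fin s ⊕ Fin n) → ℚ :=
  fun J => (∏ i, Sum.elim (ν i) (fun _ => 0) (J (e (Sum.inl i)))) *
    ∏ i, fromBlocks 0 0 0 F.Q⁻¹ (J (e (Sum.inr (i, 0)))) (J (e (Sum.inr (i, 1))))

/-- The direct image on `Y` of the intersection of the class `t` on `X ^ m × Y` with such a class on
`X ^ m`: the linear forms `f i` on `ℚ ^ s` are the intersections with algebraic classes on some of the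
factors, and the intersection form `Q`, on `b` pairs of the other factors, is the intersection with the
transcendental part of the diagonal. -/
def Family.integratePair (F : Family U n) {a b : ℕ} (e : Fin a ⊕ (Fin b × Fin 2) ≃ Fin m)
    (f : Fin a → Fin s → ℚ) (t : (Fin m → Fin s ⊕ Fin n) → Fin v → ℚ) : Fin v → ℚ :=
  fun d => ∑ J : Fin m → Fin s ⊕ Fin n, ((∏ i, Sum.elim (f i) (fun _ => 0) (J (e (Sum.inl i)))) *
    ∏ i, fromBlocks 0 0 0 F.Q (J (e (Sum.inr (i, 0)))) (J (e (Sum.inr (i, 1))))) * t J d

/-- `Alg u` and `AlgY u` are spaces of classes on the fibres of `X ^ m × Y` and of `Y` at `u` such that the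
products of the classes `pairClass` and classes in `AlgY u` are in `Alg u`, and the direct images on the
fibre of `Y` of the intersections of classes in `Alg u` with these classes are in `AlgY u`. This holds
for the classes of algebraic cycles with rational coefficients. -/
structure Family.IsCycleSystem (F : Family U n)
    (Alg : U → Submodule ℚ ((Fin m → Fin s ⊕ Fin n) → Fin v → ℚ))
    (AlgY : U → Submodule ℚ (Fin v → ℚ)) : Prop where
  product_mem : ∀ (u : U) (a b : ℕ) (e : Fin a ⊕ (Fin b × Fin 2) ≃ Fin m) (ν : Fin a → Fin s → ℚ),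
    ∀ y ∈ AlgY u, (fun J d => F.pairClass e ν J * y d) ∈ Alg u
  integral_mem : ∀ (u : U), ∀ t ∈ Alg u, ∀ (a b : ℕ) (e : Fin a ⊕ (Fin b × Fin 2) ≃ Fin m)
    (f : Fin a → Fin s → ℚ), F.integratePair e f t ∈ AlgY u

/-- The class `t` on the fibres of `X ^ m × Y` is invariant under the monodromy group, which is
generated by the pairs `g` in `M` of a matrix `g.1` acting on `ℚ ^ n` (on `ℚ ^ s` the action is trivial)
and a matrix `g.2` acting on the cohomology of `Y`. -/
def IsInvariant (M : Set (Matrix (Fin n) (Fin n) ℚ × Matrix (Fin v) (Fin v) ℚ))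
    (t : (Fin m → Fin s ⊕ Fin n) → Fin v → ℚ) : Prop :=
  ∀ g ∈ M, ∀ J d, ∑ I : Fin m → Fin s ⊕ Fin n, ∑ c,
    (∏ j, (fromBlocks 1 0 0 g.1 : Matrix (Fin s ⊕ Fin n) (Fin s ⊕ Fin n) ℚ) (J j) (I j)) *
      (g.2 d c * t I c) = t J d

/-- The variational Hodge conjecture for the fibre product `X ^ m × Y` at the point `u₁`: if a class `t`
is invariant under the monodromy (so it is the value of a global section), is a Hodge class on all
fibres (which by Deligne's theorem of the fixed part follows if it is algebraic at `u₁`), and is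
algebraic at `u₁`, then it is algebraic on all fibres. -/
def Family.VHC (F : Family U n) (V : U → Coh v)
    (M : Set (Matrix (Fin n) (Fin n) ℚ × Matrix (Fin v) (Fin v) ℚ))
    (Alg : U → Submodule ℚ ((Fin m → Fin s ⊕ Fin n) → Fin v → ℚ)) (u₁ : U) : Prop :=
  ∀ t, IsInvariant M t → (∀ u, F.IsHodgeAt V t u) → t ∈ Alg u₁ → ∀ u, t ∈ Alg u

/-- The variational Hodge conjecture for the family `Y` at the point `u₁`. -/
def VHCY (V : U → Coh v) (M : Set (Matrix (Fin n) (Fin n) ℚ × Matrix (Fin v) (Fin v) ℚ))
    (AlgY : U → Submodule ℚ (Fin v → ℚ)) (u₁ : U) : Prop :=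
  ∀ y, (∀ g ∈ M, g.2 *ᵥ y = y) → (∀ u, IsHodgeOn (V u) y) → y ∈ AlgY u₁ → ∀ u, y ∈ AlgY u

end

end Pool.Agent.X311.K3
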