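import Mathlib
import Pool.Agent.X311.Vh2
import Pool.Agent.X311.Vh3Defs

/-!
# The variational Hodge conjecture for families of K3 surfaces times families of varieties
-/

set_option autoImplicit false
set_option linter.unusedSectionVars false

namespace Pool.Agent.X311.K3

open Matrix Module Function Pool.Agent.TH131.GHC Pool.Agent.TH504.VY Pool.Agent.X311

noncomputable section

variable {U : Type} {n : ℕ} {F : Family U n} {s m v : ℕ} {V : U → Coh v} {u₀ : U}

theorem val_mem {H : Submodule ℚ (Fin v → ℚ)} {R : Matrix (Fin n) (Fin n) ℚ}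
    {t : (Fin m → Fin s ⊕ Fin n) → Fin v → ℚ}
    (ht : t ∈ Submodule.span ℚ {t | ∃ (a b : ℕ) (e : Fin a ⊕ (Fin b × Fin 2) ≃ Fin m)
      (ν : Fin a → Fin s → ℚ) (y : Fin v → ℚ), y ∈ H ∧ t = fun J b => Nd.pc R e ν J * y b})
    (J : Fin m → Fin s ⊕ Fin n) : t J ∈ H := by
  induction ht using Submodule.span_induction with
  | mem t ht =>
    obtain ⟨a, b, e, ν, y, hy, rfl⟩ := ht
    have h1 : Nd.pc R e ν J • y ∈ H := H.smul_mem _ hy
    exact h1
  | zero => exact H.zero_mem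
  | add x y _ _ hx hy => exact H.add_mem hx hy
  | smul c x _ hx => exact H.smul_mem c hx

theorem no_det (hmn : m < n) (H : Submodule ℚ (Fin v → ℚ)) {t : (Fin m → Fin s ⊕ Fin n) → Fin v → ℚ}
    (ht : t ∈ F.standardTimes s m (H : Set (Fin v → ℚ))) :
    t ∈ Submodule.span ℚ {t | ∃ (a b : ℕ) (e : Fin a ⊕ (Fin b × Fin 2) ≃ Fin m)
      (ν : Fin a → Fin s → ℚ) (y : Fin v → ℚ), y ∈ H ∧ t = fun J b => Nd.pc F.Q⁻¹ e ν J * y b} := by
  refine (Submodule.span_mono ?_) ht
  rintro _ ⟨a, b, c, e, ν, y, hc, hy, rfl⟩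
  have hc0 : c = 0 := by
    have h1 := Fintype.card_congr e
    simp only [Fintype.card_sum, Fintype.card_prod, Fintype.card_fin] at h1
    rcases Nat.le_one_iff_eq_zero_or_eq_one.1 hc with h2 | h2
    · exact h2
    · subst h2
      omega
  subst hc0
  let e' : Fin a ⊕ (Fin b × Fin 2) ≃ Fin m :=
    ((Equiv.refl (Fin a)).sumCongr (Equiv.sumEmpty (Fin b × Fin 2) (Fin 0 × Fin n)).symm).trans e
  refine ⟨a, b, e', ν, y, hy, ?_⟩
  funext J d
  congr 1
  unfold Family.standardClass Nd.pc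
  rw [Finset.univ_eq_empty (α := Fin 0), Finset.prod_empty, mul_one]
  rfl

section inv

variable {g : Matrix (Fin n) (Fin n) ℚ} {a b : ℕ}

theorem gX_vec (g : Matrix (Fin n) (Fin n) ℚ) (ν : Fin s → ℚ) :
    (fromBlocks 1 0 0 g : Matrix (Fin s ⊕ Fin n) (Fin s ⊕ Fin n) ℚ) *ᵥ
      (Sum.elim ν fun _ => 0) = Sum.elim ν fun _ => 0 := by
  have h1 : (Sum.elim ν fun _ : Fin n => (0 : ℚ)) = Sum.elim ν (0 : Fin n → ℚ) := rfl
  rw [h1, fromBlocks_mulVec]
  simp

/-- The linear forms are invariant. -/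
theorem tp_pc {Q : Matrix (Fin n) (Fin n) ℚ} (hg : g.transpose * Q * g = Q)
    (e : Fin a ⊕ (Fin b × Fin 2) ≃ Fin m) (f : Fin a → Fin s → ℚ) :
    Nd.tp (fromBlocks 1 0 0 g : Matrix (Fin s ⊕ Fin n) (Fin s ⊕ Fin n) ℚ).transpose (Nd.pc Q e f) =
      Nd.pc Q e f := by
  have h0 : Nd.pc Q e f = Nd.pm e (fun i => Sum.elim (f i) fun _ => 0) (fromBlocks 0 0 0 Q) := rfl
  rw [h0, Nd.tp_pm, fromBlocks_transpose, transpose_one, transpose_zero, transpose_zero]
  have h1 : (fun i => (fromBlocks 1 0 0 g.transpose : Matrix (Fin s ⊕ Fin n) (Fin s ⊕ Fin n) ℚ) *ᵥ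
      (Sum.elim (f i) fun _ => 0)) = fun i => Sum.elim (f i) fun _ => 0 :=
    funext fun i => gX_vec _ _
  have h2 : (fromBlocks 1 0 0 g.transpose : Matrix (Fin s ⊕ Fin n) (Fin s ⊕ Fin n) ℚ) *
      fromBlocks 0 0 0 Q * (fromBlocks 1 0 0 g.transpose : Matrix _ _ ℚ).transpose =
      fromBlocks 0 0 0 Q := by
    simp only [fromBlocks_transpose, fromBlocks_multiply, transpose_one, transpose_zero,
      Matrix.mul_zero, Matrix.zero_mul, Matrix.mul_one, add_zero, zero_add, transpose_transpose, hg]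
  rw [h1, h2]

variable {M : Set (Matrix (Fin n) (Fin n) ℚ × Matrix (Fin v) (Fin v) ℚ)}
  {t : (Fin m → Fin s ⊕ Fin n) → Fin v → ℚ}

theorem tp_of_invariant (ht : IsInvariant M t) {g : Matrix (Fin n) (Fin n) ℚ × Matrix (Fin v) (Fin v) ℚ}
    (hg : g ∈ M) (d : Fin v) :
    Nd.tp (fromBlocks 1 0 0 g.1 : Matrix (Fin s ⊕ Fin n) (Fin s ⊕ Fin n) ℚ)
      (fun I => ∑ c, g.2 d c * t I c) = fun J => t J d := by
  funext J
  rw [← ht g hg J d]
  unfold Nd.tp
  refine Finset.sum_congr rfl fun I _ => ?_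
  rw [Finset.mul_sum]

/-- The direct images are invariant. -/
theorem integrate_invariant (hM : ∀ g ∈ M, g.1.transpose * F.Q * g.1 = F.Q) (ht : IsInvariant M t)
    (e : Fin a ⊕ (Fin b × Fin 2) ≃ Fin m) (f : Fin a → Fin s → ℚ) :
    ∀ g ∈ M, g.2 *ᵥ F.integratePair e f t = F.integratePair e f t := by
  intro g hg
  funext d
  have h1 : (g.2 *ᵥ F.integratePair e f t) d = ∑ J, Nd.pc F.Q e f J * ∑ c, g.2 d c * t J c := by
    have h2 : (g.2 *ᵥ F.integratePair e f t) d = ∑ c, g.2 d c * ∑ J, Nd.pc F.Q e f J * t J c := rfl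
    rw [h2]
    simp only [Finset.mul_sum]
    rw [Finset.sum_comm]
    refine Finset.sum_congr rfl fun J _ => Finset.sum_congr rfl fun c _ => ?_
    ring
  have h2 : F.integratePair e f t d = ∑ J, Nd.pc F.Q e f J * t J d := rfl
  rw [h1, h2]
  have h3 := tp_of_invariant ht hg d
  have h4 : ∑ J, Nd.pc F.Q e f J * t J d = ∑ J, Nd.pc F.Q e f J *
      Nd.tp (fromBlocks 1 0 0 g.1 : Matrix (Fin s ⊕ Fin n) (Fin s ⊕ Fin n) ℚ)
        (fun I => ∑ c, g.2 d c * t I c) J := by
    rw [h3]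
  have h5 := Nd.tp_adj (fromBlocks 1 0 0 g.1 : Matrix (Fin s ⊕ Fin n) (Fin s ⊕ Fin n) ℚ).transpose
    (Nd.pc F.Q e f) (fun I => ∑ c, g.2 d c * t I c)
  rw [transpose_transpose, tp_pc (hM g hg)] at h5
  rw [h4, h5]

end inv

variable {M : Set (Matrix (Fin n) (Fin n) ℚ × Matrix (Fin v) (Fin v) ℚ)}
  {Alg : U → Submodule ℚ ((Fin m → Fin s ⊕ Fin n) → Fin v → ℚ)} {AlgY : U → Submodule ℚ (Fin v → ℚ)}

/-- **The variational Hodge conjecture for the family of varieties implies it for the product.** -/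
theorem vhc_of (hT : LinearIndependent ℚ (F.ω u₀)) (hD : n < 2 * F.moduli V u₀ + 2) (hmn : m < n)
    (hM : ∀ g ∈ M, g.1.transpose * F.Q * g.1 = F.Q) (hA : F.IsCycleSystem Alg AlgY) {u₁ : U}
    (hY : VHCY V M AlgY u₁) : F.VHC V M Alg u₁ := by
  intro t ht hH h1 u
  have h2 : t ∈ F.standardTimes s m ((HF V : Submodule ℚ (Fin v → ℚ)) : Set (Fin v → ℚ)) := by
    have h3 := mem_standard_flat hT hD hH
    have hset : {y | ∀ b, IsHodgeOn (V b) y} =
        ((HF V : Submodule ℚ (Fin v → ℚ)) : Set (Fin v → ℚ)) := by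
      ext y
      exact mem_HF.symm
    rwa [hset] at h3
  have h3 := no_det hmn (HF V) h2
  -- the good classes on the family of varieties
  let CY : Submodule ℚ (Fin v → ℚ) :=
    { carrier := {y | ∀ u, y ∈ AlgY u}
      add_mem' := fun hx hy u => (AlgY u).add_mem (hx u) (hy u)
      zero_mem' := fun u => (AlgY u).zero_mem
      smul_mem' := fun c _ hx u => (AlgY u).smul_mem c (hx u) }
  have hdet : F.Q.det ≠ 0 := detQ_ne (F.member u₀ hT)
  have h4 := Nd.mem_of_contractions (Q := F.Q) (ε := 1) (by rw [F.symm, one_smul]) hdet CY (t := t) ?_ ?_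
  · refine (Submodule.span_le.2 ?_ : _ ≤ Alg u) h4
    rintro _ ⟨a, b, e, ν, y, hy, rfl⟩
    exact hA.product_mem u a b e ν y (hy u)
  · refine (Submodule.span_mono ?_) h3
    rintro _ ⟨a, b, e, ν, y, hy, rfl⟩
    exact ⟨a, b, e, ν, y, rfl⟩
  · intro a b e f
    refine hY _ (integrate_invariant hM ht e f) ?_ (hA.integral_mem u₁ t h1 a b e f)
    have h5 : (fun d => ∑ J, Nd.pc F.Q e f J * t J d) ∈ HF V := by
      have h6 : (fun d => ∑ J, Nd.pc F.Q e f J * t J d) = ∑ J, Nd.pc F.Q e f J • t J := by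
        funext d
        simp
      rw [h6]
      exact Submodule.sum_mem _ fun J _ => (HF V).smul_mem _ (val_mem h3 J)
    exact mem_HF.1 h5

/-- **The converse.** -/
theorem vhcY_of (hs : 0 < s) (hA : F.IsCycleSystem Alg AlgY) {u₁ : U} (h : F.VHC V M Alg u₁) :
    VHCY V M AlgY u₁ := by
  classical
  intro y hy hH h1 u
  let e : Fin m ⊕ (Fin 0 × Fin 2) ≃ Fin m := Equiv.sumEmpty _ _
  let k : Fin s := ⟨0, hs⟩
  let ν : Fin m → Fin s → ℚ := fun _ => Pi.single k 1
  have he : ∀ i, e (Sum.inl i) = i := fun i => rfl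
  have hval : ∀ J : Fin m → Fin s ⊕ Fin n, F.pairClass e ν J =
      ∏ i, (Sum.elim (Pi.single k 1) (fun _ => 0) (J i) : ℚ) := by
    intro J
    unfold Family.pairClass
    rw [Finset.univ_eq_empty (α := Fin 0), Finset.prod_empty, mul_one]
    rfl
  have hint : F.integratePair e ν (fun J d => F.pairClass e ν J * y d) = y := by
    funext d
    unfold Family.integratePair
    simp only [hval]
    rw [Finset.sum_eq_single fun _ => Sum.inl k]
    · simp [ν]
    · intro J _ hJ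
      obtain ⟨j, hj⟩ : ∃ j, J j ≠ Sum.inl k := by
        by_contra hn
        push Not at hn
        exact hJ (funext hn)
      have h1 : ∏ i : Fin m, (Sum.elim (Pi.single k 1) (fun _ => 0) (J i) : ℚ) = 0 := by
        refine Finset.prod_eq_zero (Finset.mem_univ j) ?_
        rcases h3 : J j with x | x
        · rw [Sum.elim_inl]
          refine Pi.single_eq_of_ne ?_ _
          intro h4
          exact hj (by rw [h3, h4])
        · rw [Sum.elim_inr]
      rw [h1, zero_mul, mul_zero]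
    · intro h
      exact absurd (Finset.mem_univ _) h
  have h2 := h (fun J d => F.pairClass e ν J * y d) ?_ ?_ (hA.product_mem u₁ _ _ e ν y h1) u
  · have h3 := hA.integral_mem u _ h2 _ _ e ν
    rwa [hint] at h3
  · intro g hg J d
    have h3 := congrFun (Nd.tp_pm (fromBlocks 1 0 0 g.1 : Matrix (Fin s ⊕ Fin n) (Fin s ⊕ Fin n) ℚ) e
      (fun i => Sum.elim (ν i) fun _ => 0) (0 : Matrix (Fin s ⊕ Fin n) (Fin s ⊕ Fin n) ℚ)) J
    have h4 : ∀ R : Matrix (Fin s ⊕ Fin n) (Fin s ⊕ Fin n) ℚ,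
        Nd.pm e (fun i => Sum.elim (ν i) fun _ => 0) R = F.pairClass e ν := by
      intro R
      funext J
      rw [hval]
      unfold Nd.pm
      rw [Finset.univ_eq_empty (α := Fin 0), Finset.prod_empty, mul_one]
      rfl
    have h5 : (fun i => (fromBlocks 1 0 0 g.1 : Matrix (Fin s ⊕ Fin n) (Fin s ⊕ Fin n) ℚ) *ᵥ
        (Sum.elim (ν i) fun _ => 0)) = fun i => Sum.elim (ν i) fun _ => 0 :=
      funext fun i => gX_vec _ _
    rw [h5, h4, h4] at h3
    have h6 : ∑ c, g.2 d c * y c = y d := congrFun (hy g hg) d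
    have h7 : ∀ I : Fin m → Fin s ⊕ Fin n, ∑ c,
        (∏ j, (fromBlocks 1 0 0 g.1 : Matrix (Fin s ⊕ Fin n) (Fin s ⊕ Fin n) ℚ) (J j) (I j)) *
          (g.2 d c * (F.pairClass e ν I * y c)) =
        ((∏ j, (fromBlocks 1 0 0 g.1 : Matrix (Fin s ⊕ Fin n) (Fin s ⊕ Fin n) ℚ) (J j) (I j)) *
          F.pairClass e ν I) * y d := by
      intro I
      rw [← h6, Finset.mul_sum]
      refine Finset.sum_congr rfl fun c _ => ?_
      ring
    simp only [h7]
    rw [← Finset.sum_mul]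
    have h8 : ∑ I : Fin m → Fin s ⊕ Fin n, (∏ j, (fromBlocks 1 0 0 g.1 :
        Matrix (Fin s ⊕ Fin n) (Fin s ⊕ Fin n) ℚ) (J j) (I j)) * F.pairClass e ν I =
        F.pairClass e ν J := h3
    rw [h8]
  · intro b J d
    have h3 : ∀ j, ∑ l, F.opX s b (J j) l *
        (((F.pairClass e ν (update J j l)) * y d : ℚ) : ℂ) = 0 := by
      intro j
      refine Finset.sum_eq_zero fun l _ => ?_
      rcases l with l | l
      · have h4 : F.opX s b (J j) (Sum.inl l) = 0 := by
          rcases J j with x | x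
          · rfl
          · rfl
        rw [h4, zero_mul]
      · have h4 : F.pairClass e ν (update J j (Sum.inr l)) = 0 := by
          rw [hval]
          refine Finset.prod_eq_zero (Finset.mem_univ j) ?_
          rw [update_self, Sum.elim_inr]
        rw [h4, zero_mul, Rat.cast_zero, mul_zero]
    simp only [h3, Finset.sum_const_zero, zero_add]
    have h4 : ∑ c, (V b).z d c * ((y c : ℚ) : ℂ) = 0 := congrFun (hH b) d
    have h5 : ∑ c, (V b).z d c * ((F.pairClass e ν J * y c : ℚ) : ℂ) =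
        ((F.pairClass e ν J : ℚ) : ℂ) * ∑ c, (V b).z d c * ((y c : ℚ) : ℂ) := by
      rw [Finset.mul_sum]
      refine Finset.sum_congr rfl fun c _ => ?_
      rw [Rat.cast_mul]
      ring
    rw [h5, h4, mul_zero]

end

end Pool.Agent.X311.K3
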