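import Mathlib
import Pool.Agent.X311.Vh3

/-!
# Monodromy of determinant `-1`: the determinants do not occur
-/

set_option autoImplicit false
set_option linter.unusedSectionVars false

namespace Pool.Agent.X311.K3

open Matrix Module Function Pool.Agent.TH131.GHC Pool.Agent.TH504.VY Pool.Agent.X311

noncomputable section

variable {n : ℕ}

section det

variable {X : Type*} [Fintype X] [DecidableEq X]

/-- the determinant of the rows -/
def dt (r : Fin n → X) (I : Fin n → X) : ℚ :=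
  (of fun k l => if I k = r l then (1 : ℚ) else 0).det

theorem dt_eq (r : Fin n → X) (I : Fin n → X) :
    dt r I = ∑ σ : Equiv.Perm (Fin n), ((Equiv.Perm.sign σ : ℤ) : ℚ) *
      ∏ k, (if I k = r (σ k) then (1 : ℚ) else 0) := by
  unfold dt
  rw [← det_transpose, det_apply']
  rfl

theorem sum_dt (A : Matrix X X ℚ) (r : Fin n → X) (J : Fin n → X) :
    ∑ I : Fin n → X, (∏ k, A (J k) (I k)) * dt r I = (of fun k l => A (J k) (r l)).det := by
  simp only [dt_eq, Finset.mul_sum]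
  rw [Finset.sum_comm, ← det_transpose, det_apply']
  refine Finset.sum_congr rfl fun σ _ => ?_
  have h1 : ∀ I : Fin n → X, (∏ k, A (J k) (I k)) * (((Equiv.Perm.sign σ : ℤ) : ℚ) *
      ∏ k, (if I k = r (σ k) then (1 : ℚ) else 0)) = ((Equiv.Perm.sign σ : ℤ) : ℚ) *
        ∏ k, (A (J k) (I k) * (if I k = r (σ k) then (1 : ℚ) else 0)) := by
    intro I
    rw [Finset.prod_mul_distrib]
    ring
  simp only [h1]
  rw [← Finset.mul_sum]
  congr 1
  have h2 : ∑ x : Fin n → X, ∏ i, (A (J i) (x i) * (if x i = r (σ i) then (1 : ℚ) else 0)) =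
      ∏ i, ∑ l, (A (J i) l * (if l = r (σ i) then (1 : ℚ) else 0)) := by
    rw [Finset.prod_univ_sum, Fintype.piFinset_univ]
  rw [h2]
  refine Finset.prod_congr rfl fun i _ => ?_
  simp

end det

variable {s m : ℕ}

/-- the determinant is multiplied by the determinant -/
theorem sum_det_block (g : Matrix (Fin n) (Fin n) ℚ) (J : Fin n → Fin s ⊕ Fin n) :
    ∑ I : Fin n → Fin s ⊕ Fin n, (∏ k, (fromBlocks 1 0 0 g :
      Matrix (Fin s ⊕ Fin n) (Fin s ⊕ Fin n) ℚ) (J k) (I k)) *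
        (of fun k l => if I k = Sum.inr l then (1 : ℚ) else 0).det =
      g.det * (of fun k l => if J k = Sum.inr l then (1 : ℚ) else 0).det := by
  have h1 := sum_dt (fromBlocks 1 0 0 g : Matrix (Fin s ⊕ Fin n) (Fin s ⊕ Fin n) ℚ)
    (fun l : Fin n => (Sum.inr l : Fin s ⊕ Fin n)) J
  refine h1.trans ?_
  rw [mul_comm, ← det_mul]
  congr 1
  ext k l
  rw [of_apply, mul_apply]
  simp only [of_apply, ite_mul, one_mul, zero_mul]
  rcases h2 : J k with j | j
  · simp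
  · simp

variable {U : Type} {F : Family U n} {g : Matrix (Fin n) (Fin n) ℚ}

theorem inv_of_inv (hQ : F.Q.det ≠ 0) (hg : g.transpose * F.Q * g = F.Q) :
    g * F.Q⁻¹ * g.transpose = F.Q⁻¹ := by
  have hdet : g.det ≠ 0 := by
    intro h0
    have h1 := congrArg det hg
    rw [det_mul, det_mul, h0, mul_zero] at h1
    exact hQ h1.symm
  have h1 : g * g⁻¹ = 1 := mul_nonsing_inv _ (isUnit_iff_ne_zero.2 hdet)
  have h2 : g⁻¹.transpose * g.transpose = 1 := by
    rw [← transpose_mul, h1, transpose_one]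
  have h3 : F.Q⁻¹ = g⁻¹ * F.Q⁻¹ * g⁻¹.transpose := by
    conv_lhs => rw [← hg]
    rw [Matrix.mul_inv_rev, Matrix.mul_inv_rev, transpose_nonsing_inv, mul_assoc]
  calc g * F.Q⁻¹ * g.transpose = g * (g⁻¹ * F.Q⁻¹ * g⁻¹.transpose) * g.transpose := by rw [← h3]
    _ = (g * g⁻¹) * F.Q⁻¹ * (g⁻¹.transpose * g.transpose) := by simp only [mul_assoc]
    _ = F.Q⁻¹ := by rw [h1, h2, one_mul, mul_one]

theorem sum3 {α β γ : Type*} [Fintype α] [Fintype β] [Fintype γ] (f : α → ℚ) (g : β → ℚ)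
    (h : γ → ℚ) : ∑ x : α, ∑ p : β × γ, f x * (g p.1 * h p.2) =
      (∑ x, f x) * ((∑ y, g y) * ∑ z, h z) := by
  simp only [← Finset.mul_sum]
  rw [← Finset.sum_mul]
  congr 1
  rw [Fintype.sum_prod_type]
  simp only [← Finset.mul_sum]
  rw [← Finset.sum_mul]

theorem tp_standard (hQ : F.Q.det ≠ 0) (hg : g.transpose * F.Q * g = F.Q) {a b c : ℕ}
    (e : Fin a ⊕ ((Fin b × Fin 2) ⊕ (Fin c × Fin n)) ≃ Fin m) (ν : Fin a → Fin s → ℚ) :
    Nd.tp (fromBlocks 1 0 0 g : Matrix (Fin s ⊕ Fin n) (Fin s ⊕ Fin n) ℚ)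
      (F.standardClass e ν) = (g.det ^ c) • F.standardClass e ν := by
  funext J
  obtain ⟨A, hA⟩ : ∃ A : Matrix (Fin s ⊕ Fin n) (Fin s ⊕ Fin n) ℚ, A = fromBlocks 1 0 0 g := ⟨_, rfl⟩
  rw [← hA]
  have h0 : ∀ f : Fin m → ℚ, ∏ j, f j = (∏ i, f (e (Sum.inl i))) *
      ((∏ i, (f (e (Sum.inr (Sum.inl (i, 0)))) * f (e (Sum.inr (Sum.inl (i, 1)))))) *
        ∏ i, ∏ k, f (e (Sum.inr (Sum.inr (i, k))))) := by
    intro f
    rw [← Equiv.prod_comp e f, Fintype.prod_sum_type, Fintype.prod_sum_type,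
      Fintype.prod_prod_type, Fintype.prod_prod_type]
    congr 2
    refine Finset.prod_congr rfl fun i _ => ?_
    rw [Fin.prod_univ_two]
  let E : (Fin m → Fin s ⊕ Fin n) ≃ (Fin a → Fin s ⊕ Fin n) × ((Fin b → Fin 2 → Fin s ⊕ Fin n) × (Fin c → Fin n → Fin s ⊕ Fin n)) :=
    (e.arrowCongr (Equiv.refl (Fin s ⊕ Fin n))).symm.trans ((Equiv.sumArrowEquivProdArrow _ _ _).trans
      ((Equiv.refl _).prodCongr ((Equiv.sumArrowEquivProdArrow _ _ _).trans
        ((Equiv.curry _ _ _).prodCongr (Equiv.curry _ _ _)))))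
  have hE1 : ∀ (p : (Fin a → Fin s ⊕ Fin n) × ((Fin b → Fin 2 → Fin s ⊕ Fin n) × (Fin c → Fin n → Fin s ⊕ Fin n))) i,
      E.symm p (e (Sum.inl i)) = p.1 i := by
    intro p i
    have : E.symm p (e (Sum.inl i)) = (E (E.symm p)).1 i := rfl
    rw [this, Equiv.apply_symm_apply]
  have hE2 : ∀ (p : (Fin a → Fin s ⊕ Fin n) × ((Fin b → Fin 2 → Fin s ⊕ Fin n) × (Fin c → Fin n → Fin s ⊕ Fin n))) i k,
      E.symm p (e (Sum.inr (Sum.inl (i, k)))) = p.2.1 i k := by
    intro p i k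
    have : E.symm p (e (Sum.inr (Sum.inl (i, k)))) = (E (E.symm p)).2.1 i k := rfl
    rw [this, Equiv.apply_symm_apply]
  have hE3 : ∀ (p : (Fin a → Fin s ⊕ Fin n) × ((Fin b → Fin 2 → Fin s ⊕ Fin n) × (Fin c → Fin n → Fin s ⊕ Fin n))) i k,
      E.symm p (e (Sum.inr (Sum.inr (i, k)))) = p.2.2 i k := by
    intro p i k
    have : E.symm p (e (Sum.inr (Sum.inr (i, k)))) = (E (E.symm p)).2.2 i k := rfl
    rw [this, Equiv.apply_symm_apply]
  unfold Nd.tp
  rw [← Equiv.sum_comp E.symm, Fintype.sum_prod_type]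
  have h1 : ∀ (x : Fin a → Fin s ⊕ Fin n) (y : (Fin b → Fin 2 → Fin s ⊕ Fin n) × (Fin c → Fin n → Fin s ⊕ Fin n)),
      (∏ j, A (J j) (E.symm (x, y) j)) * F.standardClass e ν (E.symm (x, y)) =
      (∏ i, (A (J (e (Sum.inl i))) (x i) * Sum.elim (ν i) (fun _ => 0) (x i))) *
        ((∏ i, (A (J (e (Sum.inr (Sum.inl (i, 0))))) (y.1 i 0) *
          A (J (e (Sum.inr (Sum.inl (i, 1))))) (y.1 i 1) *
          (fromBlocks 0 0 0 F.Q⁻¹ : Matrix (Fin s ⊕ Fin n) (Fin s ⊕ Fin n) ℚ) (y.1 i 0) (y.1 i 1))) *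
        ∏ i, ((∏ k, A (J (e (Sum.inr (Sum.inr (i, k))))) (y.2 i k)) *
          (of fun k l => if y.2 i k = Sum.inr l then (1 : ℚ) else 0).det)) := by
    intro x y
    rw [h0]
    unfold Family.standardClass
    simp only [hE1, hE2, hE3, Finset.prod_mul_distrib]
    ring
  simp only [h1]
  have h2 : ∀ (f : Fin a → Fin s ⊕ Fin n → ℚ), ∑ x : Fin a → Fin s ⊕ Fin n, ∏ i, f i (x i) = ∏ i, ∑ l, f i l := by
    intro f
    rw [Finset.prod_univ_sum, Fintype.piFinset_univ]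
  have h3 : ∀ (f : Fin b → (Fin 2 → Fin s ⊕ Fin n) → ℚ), ∑ x : Fin b → Fin 2 → Fin s ⊕ Fin n, ∏ i, f i (x i) =
      ∏ i, ∑ l, f i l := by
    intro f
    rw [Finset.prod_univ_sum, Fintype.piFinset_univ]
  have h4 : ∀ (f : Fin c → (Fin n → Fin s ⊕ Fin n) → ℚ), ∑ x : Fin c → Fin n → Fin s ⊕ Fin n, ∏ i, f i (x i) =
      ∏ i, ∑ l, f i l := by
    intro f
    rw [Finset.prod_univ_sum, Fintype.piFinset_univ]
  rw [sum3 (fun x : Fin a → Fin s ⊕ Fin n => ∏ i, (A (J (e (Sum.inl i))) (x i) *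
      Sum.elim (ν i) (fun _ => 0) (x i)))
    (fun y : Fin b → Fin 2 → Fin s ⊕ Fin n => ∏ i, (A (J (e (Sum.inr (Sum.inl (i, 0))))) (y i 0) *
          A (J (e (Sum.inr (Sum.inl (i, 1))))) (y i 1) *
          (fromBlocks 0 0 0 F.Q⁻¹ : Matrix (Fin s ⊕ Fin n) (Fin s ⊕ Fin n) ℚ) (y i 0) (y i 1)))
    (fun z : Fin c → Fin n → Fin s ⊕ Fin n =>
      ∏ i, ((∏ k, A (J (e (Sum.inr (Sum.inr (i, k))))) (z i k)) *
          (of fun k l => if z i k = Sum.inr l then (1 : ℚ) else 0).det))]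
  rw [h2 fun i l => A (J (e (Sum.inl i))) l * Sum.elim (ν i) (fun _ => 0) l,
    h3 fun i l => A (J (e (Sum.inr (Sum.inl (i, 0))))) (l 0) *
      A (J (e (Sum.inr (Sum.inl (i, 1))))) (l 1) *
      (fromBlocks 0 0 0 F.Q⁻¹ : Matrix (Fin s ⊕ Fin n) (Fin s ⊕ Fin n) ℚ) (l 0) (l 1),
    h4 fun i l => (∏ k, A (J (e (Sum.inr (Sum.inr (i, k))))) (l k)) *
      (of fun k l' => if l k = Sum.inr l' then (1 : ℚ) else 0).det]
  have h5 : ∏ i, ∑ l, A (J (e (Sum.inl i))) l * Sum.elim (ν i) (fun _ => 0) l =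
      ∏ i, Sum.elim (ν i) (fun _ => 0) (J (e (Sum.inl i))) := by
    refine Finset.prod_congr rfl fun i _ => ?_
    have h6 := congrFun (gX_vec g (ν i)) (J (e (Sum.inl i)))
    rw [hA]
    exact h6
  have h6 : ∏ i, ∑ l : Fin 2 → Fin s ⊕ Fin n, A (J (e (Sum.inr (Sum.inl (i, 0))))) (l 0) *
      A (J (e (Sum.inr (Sum.inl (i, 1))))) (l 1) *
      (fromBlocks 0 0 0 F.Q⁻¹ : Matrix (Fin s ⊕ Fin n) (Fin s ⊕ Fin n) ℚ) (l 0) (l 1) =
      ∏ i, (fromBlocks 0 0 0 F.Q⁻¹ : Matrix (Fin s ⊕ Fin n) (Fin s ⊕ Fin n) ℚ)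
        (J (e (Sum.inr (Sum.inl (i, 0))))) (J (e (Sum.inr (Sum.inl (i, 1))))) := by
    refine Finset.prod_congr rfl fun i _ => ?_
    have h7 : A * (fromBlocks 0 0 0 F.Q⁻¹ : Matrix (Fin s ⊕ Fin n) (Fin s ⊕ Fin n) ℚ) *
        A.transpose = fromBlocks 0 0 0 F.Q⁻¹ := by
      rw [hA]
      simp only [fromBlocks_transpose, fromBlocks_multiply, transpose_one, transpose_zero,
        Matrix.mul_zero, Matrix.zero_mul, Matrix.mul_one, add_zero, zero_add,
        inv_of_inv hQ hg]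
    rw [← Equiv.sum_comp (finTwoArrowEquiv (Fin s ⊕ Fin n)).symm, Fintype.sum_prod_type]
    have h8 := congrFun (congrFun h7 (J (e (Sum.inr (Sum.inl (i, 0))))))
      (J (e (Sum.inr (Sum.inl (i, 1)))))
    rw [← h8]
    simp only [mul_apply, finTwoArrowEquiv_symm_apply, Matrix.cons_val_zero, Matrix.cons_val_one,
      transpose_apply, Finset.sum_mul]
    rw [Finset.sum_comm]
    refine Finset.sum_congr rfl fun x _ => Finset.sum_congr rfl fun y _ => ?_
    ring
  have h7 : ∏ i : Fin c, ∑ l : Fin n → Fin s ⊕ Fin n, (∏ k, A (J (e (Sum.inr (Sum.inr (i, k))))) (l k)) *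
      (of fun k l' => if l k = Sum.inr l' then (1 : ℚ) else 0).det =
      g.det ^ c * ∏ i, (of fun k l => if J (e (Sum.inr (Sum.inr (i, k)))) = Sum.inr l then (1 : ℚ)
        else 0).det := by
    have h8 : ∀ i : Fin c, ∑ l : Fin n → Fin s ⊕ Fin n, (∏ k, A (J (e (Sum.inr (Sum.inr (i, k))))) (l k)) *
        (of fun k l' => if l k = Sum.inr l' then (1 : ℚ) else 0).det =
        g.det * (of fun k l => if J (e (Sum.inr (Sum.inr (i, k)))) = Sum.inr l then (1 : ℚ)
          else 0).det := by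
      intro i
      rw [hA]
      exact sum_det_block g fun k => J (e (Sum.inr (Sum.inr (i, k))))
    rw [Finset.prod_congr rfl fun i _ => h8 i, Finset.prod_mul_distrib, Finset.prod_const,
      Finset.card_univ, Fintype.card_fin]
  rw [h5, h6, h7]
  show _ = g.det ^ c * F.standardClass e ν J
  unfold Family.standardClass
  ring

section nodet

variable {v : ℕ} {M : Set (Matrix (Fin n) (Fin n) ℚ × Matrix (Fin v) (Fin v) ℚ)}

/-- the action on the factors `X` -/
def G1 (v : ℕ) (A : Matrix (Fin s ⊕ Fin n) (Fin s ⊕ Fin n) ℚ) :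
    ((Fin m → Fin s ⊕ Fin n) → Fin v → ℚ) →ₗ[ℚ] ((Fin m → Fin s ⊕ Fin n) → Fin v → ℚ) where
  toFun t := fun J d => Nd.tp A (fun I => t I d) J
  map_add' x y := by
    funext J d
    exact congrFun (Nd.tp_add A (fun I => x I d) (fun I => y I d)) J
  map_smul' c x := by
    funext J d
    exact congrFun (Nd.tp_smul A c (fun I => x I d)) J

/-- the action on the cohomology of `Y` -/
def G2 (n s m : ℕ) {v : ℕ} (B : Matrix (Fin v) (Fin v) ℚ) :
    ((Fin m → Fin s ⊕ Fin n) → Fin v → ℚ) →ₗ[ℚ] ((Fin m → Fin s ⊕ Fin n) → Fin v → ℚ) where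
  toFun t := fun J => B *ᵥ t J
  map_add' x y := by
    funext J
    exact mulVec_add B (x J) (y J)
  map_smul' c x := by
    funext J
    exact mulVec_smul B c (x J)

theorem G_comm (A : Matrix (Fin s ⊕ Fin n) (Fin s ⊕ Fin n) ℚ) (B : Matrix (Fin v) (Fin v) ℚ)
    (t : (Fin m → Fin s ⊕ Fin n) → Fin v → ℚ) :
    G2 n s m B (G1 v A t) = G1 v A (G2 n s m B t) := by
  funext J d
  show ∑ c, B d c * ∑ I : Fin m → Fin s ⊕ Fin n, (∏ j, A (J j) (I j)) * t I c =
    ∑ I : Fin m → Fin s ⊕ Fin n, (∏ j, A (J j) (I j)) * ∑ c, B d c * t I c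
  simp only [Finset.mul_sum]
  rw [Finset.sum_comm]
  refine Finset.sum_congr rfl fun I _ => Finset.sum_congr rfl fun c _ => ?_
  ring

/-- **If there is an element of the monodromy of determinant `-1` on `X` and without the eigenvalue `-1`
on `Y`, the determinants do not occur.** -/
theorem no_det' (hQ : F.Q.det ≠ 0) (hM : ∀ g ∈ M, g.1.transpose * F.Q * g.1 = F.Q)
    (hdet : ∃ g ∈ M, g.1.det = -1 ∧ ∀ y, g.2 *ᵥ y = -y → y = 0) (H : Submodule ℚ (Fin v → ℚ))
    {t : (Fin m → Fin s ⊕ Fin n) → Fin v → ℚ}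
    (ht : t ∈ F.standardTimes s m (H : Set (Fin v → ℚ))) (hi : IsInvariant M t) :
    t ∈ Submodule.span ℚ {t | ∃ (a b : ℕ) (e : Fin a ⊕ (Fin b × Fin 2) ≃ Fin m)
      (ν : Fin a → Fin s → ℚ) (y : Fin v → ℚ), y ∈ H ∧ t = fun J b => Nd.pc F.Q⁻¹ e ν J * y b} := by
  obtain ⟨g, hg, hg1, hg2⟩ := hdet
  let A : Matrix (Fin s ⊕ Fin n) (Fin s ⊕ Fin n) ℚ := fromBlocks 1 0 0 g.1
  have hsplit : t ∈ Submodule.span ℚ {t | ∃ (a b : ℕ) (e : Fin a ⊕ (Fin b × Fin 2) ≃ Fin m)
      (ν : Fin a → Fin s → ℚ) (y : Fin v → ℚ), y ∈ H ∧ t = fun J b => Nd.pc F.Q⁻¹ e ν J * y b} ⊔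
      Submodule.span ℚ {t | ∃ (a b : ℕ) (e : Fin a ⊕ ((Fin b × Fin 2) ⊕ (Fin 1 × Fin n)) ≃ Fin m)
      (ν : Fin a → Fin s → ℚ) (y : Fin v → ℚ), y ∈ H ∧
        t = fun J b => F.standardClass e ν J * y b} := by
    refine (Submodule.span_le.2 ?_ : F.standardTimes s m (H : Set (Fin v → ℚ)) ≤ _) ht
    rintro _ ⟨a, b, c, e, ν, y, hc, hy, rfl⟩
    rcases Nat.le_one_iff_eq_zero_or_eq_one.1 hc with h2 | h2
    · subst h2
      refine Submodule.mem_sup_left (Submodule.subset_span ?_)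
      let e' : Fin a ⊕ (Fin b × Fin 2) ≃ Fin m :=
        ((Equiv.refl (Fin a)).sumCongr
          (Equiv.sumEmpty (Fin b × Fin 2) (Fin 0 × Fin n)).symm).trans e
      refine ⟨a, b, e', ν, y, hy, ?_⟩
      funext J d
      congr 1
      unfold Family.standardClass Nd.pc
      rw [Finset.univ_eq_empty (α := Fin 0), Finset.prod_empty, mul_one]
      rfl
    · subst h2
      exact Submodule.mem_sup_right (Submodule.subset_span ⟨a, b, e, ν, y, hy, rfl⟩)
  obtain ⟨t0, ht0, t1, ht1, hsum⟩ := Submodule.mem_sup.1 hsplit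
  have h0 : G1 v A t0 = t0 := by
    clear hsum
    induction ht0 using Submodule.span_induction with
    | mem x hx =>
      obtain ⟨a, b, e, ν, y, -, rfl⟩ := hx
      funext J d
      let e' : Fin a ⊕ ((Fin b × Fin 2) ⊕ (Fin 0 × Fin n)) ≃ Fin m :=
        ((Equiv.refl (Fin a)).sumCongr
          (Equiv.sumEmpty (Fin b × Fin 2) (Fin 0 × Fin n))).trans e
      have h1 : Nd.pc F.Q⁻¹ e ν = F.standardClass e' ν := by
        funext J
        unfold Family.standardClass Nd.pc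
        rw [Finset.univ_eq_empty (α := Fin 0), Finset.prod_empty, mul_one]
        rfl
      have h2 := congrFun (tp_standard hQ (hM g hg) e' ν) J
      rw [pow_zero, one_smul, ← h1] at h2
      show Nd.tp A (fun I => Nd.pc F.Q⁻¹ e ν I * y d) J = Nd.pc F.Q⁻¹ e ν J * y d
      have h3 : (fun I => Nd.pc F.Q⁻¹ e ν I * y d) = y d • Nd.pc F.Q⁻¹ e ν := by
        funext I
        exact mul_comm _ _
      rw [h3, Nd.tp_smul]
      show y d * Nd.tp A (Nd.pc F.Q⁻¹ e ν) J = _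
      rw [h2, mul_comm]
    | zero => exact map_zero _
    | add x y _ _ hx hy => rw [map_add, hx, hy]
    | smul c x _ hx => rw [map_smul, hx]
  have h1 : G1 v A t1 = -t1 := by
    clear hsum
    induction ht1 using Submodule.span_induction with
    | mem x hx =>
      obtain ⟨a, b, e, ν, y, -, rfl⟩ := hx
      funext J d
      have h2 := congrFun (tp_standard hQ (hM g hg) e ν) J
      rw [pow_one, hg1] at h2
      show Nd.tp A (fun I => F.standardClass e ν I * y d) J = -(F.standardClass e ν J * y d)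
      have h3 : (fun I => F.standardClass e ν I * y d) = y d • F.standardClass e ν := by
        funext I
        exact mul_comm _ _
      rw [h3, Nd.tp_smul]
      show y d * Nd.tp A (F.standardClass e ν) J = _
      rw [h2]
      show y d * (-1 * F.standardClass e ν J) = _
      ring
    | zero => rw [map_zero, neg_zero]
    | add x y _ _ hx hy => rw [map_add, hx, hy, neg_add]
    | smul c x _ hx => rw [map_smul, hx, smul_neg]
  have h2 : G1 v A (G2 n s m g.2 t) = t := by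
    funext J d
    rw [← hi g hg J d]
    show ∑ I : Fin m → Fin s ⊕ Fin n, (∏ j, A (J j) (I j)) * ∑ c, g.2 d c * t I c = _
    simp only [Finset.mul_sum]
    rfl
  have h3 : G2 n s m g.2 t0 - G2 n s m g.2 t1 = t0 + t1 := by
    rw [hsum]
    conv_rhs => rw [← h2, ← G_comm, ← hsum, map_add, h0, h1, map_add, map_neg]
    rw [sub_eq_add_neg]
  have h4 : G2 n s m g.2 t0 + G2 n s m g.2 t1 = t0 - t1 := by
    have h5 := congrArg (G1 v A) h3
    rw [map_sub, map_add, ← G_comm, ← G_comm, h0, h1, map_neg, sub_neg_eq_add,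
      ← sub_eq_add_neg] at h5
    exact h5
  have h5 : G2 n s m g.2 t1 = -t1 := by
    have h6 : (2 : ℚ) • G2 n s m g.2 t1 = (2 : ℚ) • (-t1) := by
      have h7 : (2 : ℚ) • G2 n s m g.2 t1 = (G2 n s m g.2 t0 + G2 n s m g.2 t1) -
          (G2 n s m g.2 t0 - G2 n s m g.2 t1) := by
        rw [two_smul]
        abel
      rw [h7, h3, h4, two_smul]
      abel
    exact smul_right_injective _ (two_ne_zero : (2 : ℚ) ≠ 0) h6
  have h6 : t1 = 0 := by
    funext J
    exact hg2 _ (congrFun h5 J)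
  rw [← hsum, h6, add_zero]
  exact ht0

end nodet

/-! ### The main theorem -/

section main

variable {v : ℕ} {V : U → Coh v} {u₀ : U}
  {M : Set (Matrix (Fin n) (Fin n) ℚ × Matrix (Fin v) (Fin v) ℚ)}
  {Alg : U → Submodule ℚ ((Fin m → Fin s ⊕ Fin n) → Fin v → ℚ)} {AlgY : U → Submodule ℚ (Fin v → ℚ)}

/-- **An invariant class which is everywhere a Hodge class and algebraic at one point is everywhere
algebraic, if the values of its direct images are.** -/
theorem alg_of (hT : LinearIndependent ℚ (F.ω u₀)) (hD : n < 2 * F.moduli V u₀ + 2)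
    (hdet : m < n ∨ ∃ g ∈ M, g.1.det = -1 ∧ ∀ y, g.2 *ᵥ y = -y → y = 0)
    (hM : ∀ g ∈ M, g.1.transpose * F.Q * g.1 = F.Q) (hA : F.IsCycleSystem Alg AlgY) {u₁ : U}
    {t : (Fin m → Fin s ⊕ Fin n) → Fin v → ℚ} (ht : IsInvariant M t)
    (hH : ∀ u, F.IsHodgeAt V t u) (h1 : t ∈ Alg u₁) (e : (Fin v → ℚ) →ₗ[ℚ] (Fin v → ℚ))
    (he : ∀ J, e (t J) = t J)
    (hY : ∀ y, e y = y → (∀ g ∈ M, g.2 *ᵥ y = y) → (∀ u, IsHodgeOn (V u) y) → y ∈ AlgY u₁ →
      ∀ u, y ∈ AlgY u) (u : U) : t ∈ Alg u := by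
  have h2 : t ∈ F.standardTimes s m ((HF V : Submodule ℚ (Fin v → ℚ)) : Set (Fin v → ℚ)) := by
    have h3 := mem_standard_flat hT hD hH
    have hset : {y | ∀ b, IsHodgeOn (V b) y} =
        ((HF V : Submodule ℚ (Fin v → ℚ)) : Set (Fin v → ℚ)) := by
      ext y
      exact mem_HF.symm
    rwa [hset] at h3
  have hQ : F.Q.det ≠ 0 := detQ_ne (F.member u₀ hT)
  have h3 : t ∈ Submodule.span ℚ {t | ∃ (a b : ℕ) (e : Fin a ⊕ (Fin b × Fin 2) ≃ Fin m)
      (ν : Fin a → Fin s → ℚ) (y : Fin v → ℚ), y ∈ HF V ∧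
        t = fun J b => Nd.pc F.Q⁻¹ e ν J * y b} := by
    rcases hdet with hmn | hdet
    · exact no_det hmn (HF V) h2
    · exact no_det' hQ hM hdet (HF V) h2 ht
  let CY : Submodule ℚ (Fin v → ℚ) :=
    { carrier := {y | ∀ u, y ∈ AlgY u}
      add_mem' := fun hx hy u => (AlgY u).add_mem (hx u) (hy u)
      zero_mem' := fun u => (AlgY u).zero_mem
      smul_mem' := fun c _ hx u => (AlgY u).smul_mem c (hx u) }
  have h4 := Nd.mem_of_contractions (Q := F.Q) (ε := 1) (by rw [F.symm, one_smul]) hQ CY (t := t)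
    ?_ ?_
  · refine (Submodule.span_le.2 ?_ : _ ≤ Alg u) h4
    rintro _ ⟨a, b, e, ν, y, hy, rfl⟩
    exact hA.product_mem u a b e ν y (hy u)
  · refine (Submodule.span_mono ?_) h3
    rintro _ ⟨a, b, e, ν, y, hy, rfl⟩
    exact ⟨a, b, e, ν, y, rfl⟩
  · intro a b e' f
    have h6 : (fun d => ∑ J, Nd.pc F.Q e' f J * t J d) = ∑ J, Nd.pc F.Q e' f J • t J := by
      funext d
      simp
    refine hY _ ?_ (integrate_invariant hM ht e' f) ?_ (hA.integral_mem u₁ t h1 a b e' f)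
    · rw [h6, map_sum]
      refine Finset.sum_congr rfl fun J _ => ?_
      rw [map_smul, he]
    · have h5 : (fun d => ∑ J, Nd.pc F.Q e' f J * t J d) ∈ HF V := by
        rw [h6]
        exact Submodule.sum_mem _ fun J _ => (HF V).smul_mem _ (val_mem h3 J)
      exact mem_HF.1 h5

/-- Classes with values fixed by `e` are combinations with coefficients fixed by `e`. -/
theorem mem_standard_fixed (hT : LinearIndependent ℚ (F.ω u₀)) (hD : n < 2 * F.moduli V u₀ + 2)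
    {t : (Fin m → Fin s ⊕ Fin n) → Fin v → ℚ} (hH : ∀ u, F.IsHodgeAt V t u)
    (e : (Fin v → ℚ) →ₗ[ℚ] (Fin v → ℚ)) (hee : ∀ y, e (e y) = e y)
    (heH : ∀ y, (∀ u, IsHodgeOn (V u) y) → ∀ u, IsHodgeOn (V u) (e y)) (he : ∀ J, e (t J) = t J) :
    t ∈ F.standardTimes s m {y | e y = y ∧ ∀ u, IsHodgeOn (V u) y} := by
  have h3 : t ∈ F.standardTimes s m {y | ∀ u, IsHodgeOn (V u) y} := mem_standard_flat hT hD hH
  let E : ((Fin m → Fin s ⊕ Fin n) → Fin v → ℚ) →ₗ[ℚ] ((Fin m → Fin s ⊕ Fin n) → Fin v → ℚ) :=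
    { toFun := fun t J => e (t J)
      map_add' := fun x y => by
        funext J
        exact e.map_add (x J) (y J)
      map_smul' := fun c x => by
        funext J
        exact e.map_smul c (x J) }
  have h4 : E t = t := by
    funext J
    exact he J
  have h5 : F.standardTimes s m {y | ∀ u, IsHodgeOn (V u) y} ≤
      (F.standardTimes s m {y | e y = y ∧ ∀ u, IsHodgeOn (V u) y}).comap E := by
    refine Submodule.span_le.2 ?_
    rintro t ⟨a, b, c, e', ν, y, hc, hy, rfl⟩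
    refine Submodule.subset_span ⟨a, b, c, e', ν, e y, hc, ⟨hee y, heH y hy⟩, ?_⟩
    funext J
    have h6 : (fun b => F.standardClass e' ν J * y b) = F.standardClass e' ν J • y := rfl
    show e (fun b => F.standardClass e' ν J * y b) = fun b => F.standardClass e' ν J * e y b
    rw [h6, e.map_smul]
    rfl
  rw [← h4]
  exact h5 h3

/-- The product of a class on `Y` with the power of an algebraic class on `X`. -/
theorem test_class (hs : 0 < s) (m : ℕ) {y : Fin v → ℚ} (hy : ∀ g ∈ M, g.2 *ᵥ y = y)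
    (hH : ∀ u, IsHodgeOn (V u) y) : ∃ (e : Fin m ⊕ (Fin 0 × Fin 2) ≃ Fin m) (ν : Fin m → Fin s → ℚ),
      IsInvariant M (fun (J : Fin m → Fin s ⊕ Fin n) d => F.pairClass e ν J * y d) ∧
      (∀ u, F.IsHodgeAt V (fun J d => F.pairClass e ν J * y d) u) ∧
      F.integratePair e ν (fun J d => F.pairClass e ν J * y d) = y := by
  classical
  let e : Fin m ⊕ (Fin 0 × Fin 2) ≃ Fin m := Equiv.sumEmpty _ _
  let k : Fin s := ⟨0, hs⟩
  let ν : Fin m → Fin s → ℚ := fun _ => Pi.single k 1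
  have hval : ∀ J : Fin m → Fin s ⊕ Fin n, F.pairClass e ν J =
      ∏ i, (Sum.elim (Pi.single k 1) (fun _ => 0) (J i) : ℚ) := by
    intro J
    unfold Family.pairClass
    rw [Finset.univ_eq_empty (α := Fin 0), Finset.prod_empty, mul_one]
    rfl
  refine ⟨e, ν, ?_, ?_, ?_⟩
  · intro g hg J d
    have h3 := congrFun (Nd.tp_pm (fromBlocks 1 0 0 g.1 : Matrix (Fin s ⊕ Fin n) (Fin s ⊕ Fin n) ℚ) e
      (fun i => Sum.elim (ν i) fun _ => 0) (0 : Matrix (Fin s ⊕ Fin n) (Fin s ⊕ Fin n) ℚ)) J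
    have h4 : ∀ R : Matrix (Fin s ⊕ Fin n) (Fin s ⊕ Fin n) ℚ,
        Nd.pm e (fun i => Sum.elim (ν i) fun _ => 0) R = F.pairClass e ν := by
      intro R
      funext J
      rw [hval]
      unfold Nd.pm
      rw [Finset.univ_eq_empty (α := Fin 0), Finset.prod_empty, mul_one]
      rfl
    have h5 : (fun i => (fromBlocks 1 0 0 g.1 : Matrix (Fin s ⊕ Fin n) (Fin s ⊕ Fin n) ℚ) *ᵥ
        (Sum.elim (ν i) fun _ => 0)) = fun i => Sum.elim (ν i) fun _ => 0 :=
      funext fun i => gX_vec _ _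
    rw [h5, h4, h4] at h3
    have h6 : ∑ c, g.2 d c * y c = y d := congrFun (hy g hg) d
    have h7 : ∀ I : Fin m → Fin s ⊕ Fin n, ∑ c,
        (∏ j, (fromBlocks 1 0 0 g.1 : Matrix (Fin s ⊕ Fin n) (Fin s ⊕ Fin n) ℚ) (J j) (I j)) *
          (g.2 d c * (F.pairClass e ν I * y c)) =
        ((∏ j, (fromBlocks 1 0 0 g.1 : Matrix (Fin s ⊕ Fin n) (Fin s ⊕ Fin n) ℚ) (J j) (I j)) *
          F.pairClass e ν I) * y d := by
      intro I
      rw [← h6, Finset.mul_sum]
      refine Finset.sum_congr rfl fun c _ => ?_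
      ring
    simp only [h7]
    rw [← Finset.sum_mul]
    have h8 : ∑ I : Fin m → Fin s ⊕ Fin n, (∏ j, (fromBlocks 1 0 0 g.1 :
        Matrix (Fin s ⊕ Fin n) (Fin s ⊕ Fin n) ℚ) (J j) (I j)) * F.pairClass e ν I =
        F.pairClass e ν J := h3
    rw [h8]
  · intro b J d
    have h3 : ∀ j, ∑ l, F.opX s b (J j) l *
        (((F.pairClass e ν (update J j l)) * y d : ℚ) : ℂ) = 0 := by
      intro j
      refine Finset.sum_eq_zero fun l _ => ?_
      rcases l with l | l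
      · have h4 : F.opX s b (J j) (Sum.inl l) = 0 := by
          rcases J j with x | x
          · rfl
          · rfl
        rw [h4, zero_mul]
      · have h4 : F.pairClass e ν (update J j (Sum.inr l)) = 0 := by
          rw [hval]
          refine Finset.prod_eq_zero (Finset.mem_univ j) ?_
          rw [update_self, Sum.elim_inr]
        rw [h4, zero_mul, Rat.cast_zero, mul_zero]
    simp only [h3, Finset.sum_const_zero, zero_add]
    have h4 : ∑ c, (V b).z d c * ((y c : ℚ) : ℂ) = 0 := congrFun (hH b) d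
    have h5 : ∑ c, (V b).z d c * ((F.pairClass e ν J * y c : ℚ) : ℂ) =
        ((F.pairClass e ν J : ℚ) : ℂ) * ∑ c, (V b).z d c * ((y c : ℚ) : ℂ) := by
      rw [Finset.mul_sum]
      refine Finset.sum_congr rfl fun c _ => ?_
      rw [Rat.cast_mul]
      ring
    rw [h5, h4, mul_zero]
  · funext d
    unfold Family.integratePair
    simp only [hval]
    rw [Finset.sum_eq_single fun _ => Sum.inl k]
    · simp [ν]
    · intro J _ hJ
      obtain ⟨j, hj⟩ : ∃ j, J j ≠ Sum.inl k := by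
        by_contra hn
        push Not at hn
        exact hJ (funext hn)
      have h1 : ∏ i : Fin m, (Sum.elim (Pi.single k 1) (fun _ => 0) (J i) : ℚ) = 0 := by
        refine Finset.prod_eq_zero (Finset.mem_univ j) ?_
        rcases h3 : J j with x | x
        · rw [Sum.elim_inl]
          refine Pi.single_eq_of_ne ?_ _
          intro h4
          exact hj (by rw [h3, h4])
        · rw [Sum.elim_inr]
      rw [h1, zero_mul, mul_zero]
    · intro h
      exact absurd (Finset.mem_univ _) h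

end main

end

end Pool.Agent.X311.K3
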