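import Mathlib
import Pool.Agent.X311.GhcPeriodsDefs

/-!
# Calabi-Yau varieties of odd dimension and products with varieties: definitions

Let `X` be a Calabi-Yau variety (or any smooth projective variety) of odd dimension `d` with
`h ^ (d, 0) = 1`, whose rational cohomology is spanned by algebraic classes and by the middle cohomology
`T = ℚ ^ n`, with the intersection form `Q`, the Hodge operator `z` (multiplication by `p - q` on the
classes of type `(p, q)`) and the period `ω`, the class of a holomorphic form of degree `d`. So the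
cohomology is `ℚ ^ s ⊕ ℚ ^ n`, where `ℚ ^ s` has a basis of algebraic classes. The cohomology of a smooth
projective variety `Y` is given by `V : Coh v`. The cohomology of `X ^ m × Y` is
`H(X) ⊗ ... ⊗ H(X) ⊗ H(Y)`: a class `t` has the coordinates `t J b`, where `J j` (for `j < m`) is an element
of the basis of `H(X)` and `b` an element of the basis of `H(Y)`.
-/

set_option autoImplicit false

namespace Pool.Agent.X311.CY

open Matrix Pool.Agent.TH131.GHC Pool.Agent.TH504.VY

noncomputable section

/-- a rational matrix as a complex matrix -/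
def cM {n : ℕ} (P : Matrix (Fin n) (Fin n) ℚ) : Matrix (Fin n) (Fin n) ℂ :=
  P.map fun q : ℚ => (q : ℂ)

/-- the complex conjugate of a vector -/
def cj {n : ℕ} (a : Fin n → ℂ) : Fin n → ℂ := fun i => starRingEnd ℂ (a i)

/-- The middle cohomology `T`, of dimension `n`, of a variety of odd dimension `d` with `h ^ (d, 0) = 1`:
the intersection form `Q` (up to sign), the Hodge operator `z` and the period `ω`. The form is
alternating and satisfies the Hodge-Riemann relations, and `ω`, the only class of type `(d, 0)` up to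
scalars, is not in a proper rational subspace. -/
structure Period (n : ℕ) where
  /-- the dimension of the variety -/
  d : ℤ
  /-- the intersection form -/
  Q : Matrix (Fin n) (Fin n) ℚ
  /-- the Hodge operator -/
  z : Matrix (Fin n) (Fin n) ℂ
  /-- the period -/
  ω : Fin n → ℂ
  d_pos : 0 < d
  alt : Q.transpose = -Q
  skew : z.transpose * cM Q + cM Q * z = 0
  real : z.map (starRingEnd ℂ) = -z
  decomp : ∀ x : Fin n → ℂ, x ∈ Submodule.span ℂ {y | ∃ k : ℤ, |k| ≤ d ∧ z *ᵥ y = (k : ℂ) • y}
  top : ∀ y : Fin n → ℂ, z *ᵥ y = (d : ℂ) • y ↔ ∃ c : ℂ, y = c • ω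
  positive : ∀ (k : ℤ) (y : Fin n → ℂ), y ≠ 0 → z *ᵥ y = (k : ℂ) • y →
    0 < (Complex.I ^ k * (y ⬝ᵥ (cM Q *ᵥ cj y))).re
  transcendental : LinearIndependent ℚ ω

variable {n : ℕ}

/-- The Hodge operator on the cohomology of the variety. -/
def Period.zX (T : Period n) (s : ℕ) : Matrix (Fin s ⊕ Fin n) (Fin s ⊕ Fin n) ℂ :=
  fromBlocks 0 0 0 T.z

/-- The class `t` on `X ^ m × Y` is a Hodge class: it is killed by the Hodge operator. -/
def IsHodgeOnProduct (T : Period n) {s v m : ℕ} (V : Coh v)
    (t : (Fin m → Fin s ⊕ Fin n) → Fin v → ℚ) : Prop :=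
  ∀ J b, ∑ j, ∑ l, T.zX s (J j) l * ((t (Function.update J j l) b : ℚ) : ℂ) +
    ∑ c, V.z b c * ((t J c : ℚ) : ℂ) = 0

/-- A class on `X ^ m`: the product of algebraic classes `ν i` on some of the factors and of the middle
components of the diagonals (given by the inverse of the intersection form) on `b` pairs of the other
factors. -/
def standardClass (T : Period n) {s m a b : ℕ} (e : Fin a ⊕ (Fin b × Fin 2) ≃ Fin m)
    (ν : Fin a → Fin s → ℚ) : (Fin m → Fin s ⊕ Fin n) → ℚ :=
  fun J => (∏ i, Sum.elim (ν i) (fun _ => 0) (J (e (Sum.inl i)))) *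
    ∏ i, fromBlocks 0 0 0 T.Q⁻¹ (J (e (Sum.inr (i, 0)))) (J (e (Sum.inr (i, 1))))

/-- The span of the products of standard classes on `X ^ m` and Hodge classes on `Y`. -/
def standardTimesHodge (T : Period n) (s m : ℕ) {v : ℕ} (V : Coh v) :
    Submodule ℚ ((Fin m → Fin s ⊕ Fin n) → Fin v → ℚ) :=
  Submodule.span ℚ {t | ∃ (a b : ℕ) (e : Fin a ⊕ (Fin b × Fin 2) ≃ Fin m)
    (ν : Fin a → Fin s → ℚ) (y : Fin v → ℚ), IsHodgeOn V y ∧
      t = fun J b => standardClass T e ν J * y b}

end

end Pool.Agent.X311.CY
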