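import Mathlib
import Pool.Agent.X311.CyDefs
import Pool.Agent.X311.K3d
import Pool.Agent.X311.K3c

/-!
# Lie algebras of skew matrices for an alternating form which contain a matrix of rank one
-/

set_option autoImplicit false
set_option linter.unusedSectionVars false

namespace Pool.Agent.X311.CY

open Matrix Module Function
open Pool.Agent.X311.K3 (bl bl_add_left bl_add_right bl_smul_left bl_smul_right bl_sub_left
  bl_sub_right bl_zero_right Sk)

noncomputable section

variable {n : ℕ}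

section sym

variable (M : Matrix (Fin n) (Fin n) ℂ)

/-- the symmetric product of two vectors as a matrix -/
def st (a b : Fin n → ℂ) : Matrix (Fin n) (Fin n) ℂ :=
  vecMulVec a (M *ᵥ b) + vecMulVec b (M *ᵥ a)

theorem st_add_left (a a' b : Fin n → ℂ) : st M (a + a') b = st M a b + st M a' b := by
  rw [st, st, st, mulVec_add, add_vecMulVec, vecMulVec_add]
  abel

theorem st_smul_left (c : ℂ) (a b : Fin n → ℂ) : st M (c • a) b = c • st M a b := by
  rw [st, st, mulVec_smul, smul_vecMulVec, vecMulVec_smul, smul_add]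

theorem st_comm (a b : Fin n → ℂ) : st M a b = st M b a := by
  rw [st, st, add_comm]

theorem st_add_right (a b b' : Fin n → ℂ) : st M a (b + b') = st M a b + st M a b' := by
  rw [st_comm, st_add_left, st_comm M b, st_comm M b']

theorem st_smul_right (c : ℂ) (a b : Fin n → ℂ) : st M a (c • b) = c • st M a b := by
  rw [st_comm, st_smul_left, st_comm]

theorem st_zero_left (b : Fin n → ℂ) : st M 0 b = 0 := by
  have h := st_smul_left M 0 (0 : Fin n → ℂ) b
  rwa [zero_smul, zero_smul] at h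

variable {M} (hM : M.transpose = -M)

include hM in
theorem bl_anti (a b : Fin n → ℂ) : bl M a b = -bl M b a := by
  unfold bl
  rw [dotProduct_mulVec, ← mulVec_transpose, hM, neg_mulVec, neg_dotProduct, dotProduct_comm]

include hM in
theorem st_mulVec (a b y : Fin n → ℂ) : st M a b *ᵥ y = bl M y b • a + bl M y a • b := by
  have h : ∀ a b : Fin n → ℂ, vecMulVec a (M *ᵥ b) *ᵥ y = bl M y b • a := by
    intro a b
    rw [vecMulVec_mulVec]
    ext i
    simp [bl, dotProduct_comm, mul_comm]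
  rw [st, add_mulVec, h, h]

theorem Sk_bl {A : Matrix (Fin n) (Fin n) ℂ} (hA : Sk M A) (a b : Fin n → ℂ) :
    bl M (A *ᵥ a) b = -bl M a (A *ᵥ b) := by
  have h1 : A.transpose * M = -(M * A) := eq_neg_of_add_eq_zero_left hA
  rw [bl, bl, mulVec_mulVec, dotProduct_comm, dotProduct_mulVec, ← mulVec_transpose,
    mulVec_mulVec, h1, neg_mulVec, neg_dotProduct, dotProduct_comm]

theorem Sk_br_st {A : Matrix (Fin n) (Fin n) ℂ} (hA : Sk M A) (a b : Fin n → ℂ) :
    A * st M a b - st M a b * A = st M (A *ᵥ a) b + st M a (A *ᵥ b) := by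
  have h1 : A.transpose * M = -(M * A) := eq_neg_of_add_eq_zero_left hA
  have h2 : ∀ b : Fin n → ℂ, (M *ᵥ b) ᵥ* A = -(M *ᵥ (A *ᵥ b)) := by
    intro b
    rw [← mulVec_transpose, mulVec_mulVec, h1, neg_mulVec, mulVec_mulVec]
  rw [st, st, st, mul_add, add_mul, mul_vecMulVec, mul_vecMulVec, vecMulVec_mul, vecMulVec_mul,
    h2, h2, vecMulVec_neg, vecMulVec_neg]
  abel

end sym

section period

variable (T : Period n)

theorem cM_alt : (cM T.Q).transpose = -cM T.Q := by
  ext i j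
  have h1 := congrFun (congrFun T.alt i) j
  change ((T.Q j i : ℚ) : ℂ) = -((T.Q i j : ℚ) : ℂ)
  have h2 : T.Q j i = -T.Q i j := h1
  rw [h2, Rat.cast_neg]

/-- the form -/
def B (a b : Fin n → ℂ) : ℂ := bl (cM T.Q) a b

/-- the symmetric products -/
def sT (a b : Fin n → ℂ) : Matrix (Fin n) (Fin n) ℂ := st (cM T.Q) a b

theorem cj_cj (a : Fin n → ℂ) : cj (cj a) = a := funext fun _ => Complex.conj_conj _

theorem B_anti (a b : Fin n → ℂ) : B T a b = -B T b a := bl_anti (cM_alt T) a b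

theorem B_self (a : Fin n → ℂ) : B T a a = 0 := by
  have h := B_anti T a a
  have h2 : (2 : ℂ) * B T a a = 0 := by linear_combination h
  exact (mul_eq_zero.1 h2).resolve_left two_ne_zero

theorem sT_mulVec (a b y : Fin n → ℂ) : sT T a b *ᵥ y = B T y b • a + B T y a • b :=
  st_mulVec (cM_alt T) a b y

theorem map_cM (φ : ℂ →+* ℂ) (Q : Matrix (Fin n) (Fin n) ℚ) : (cM Q).map φ = cM Q := by
  ext i j
  exact map_ratCast φ _

theorem B_cj (a b : Fin n → ℂ) : B T (cj a) (cj b) = starRingEnd ℂ (B T a b) := by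
  unfold B bl
  rw [dotProduct, dotProduct, map_sum]
  refine Finset.sum_congr rfl fun i _ => ?_
  rw [map_mul]
  congr 1
  simp only [mulVec, dotProduct, map_sum, map_mul]
  refine Finset.sum_congr rfl fun j _ => ?_
  congr 1
  exact (map_ratCast (starRingEnd ℂ) _).symm

theorem z_cj (a : Fin n → ℂ) : T.z *ᵥ cj a = -cj (T.z *ᵥ a) := by
  have h1 : ∀ i j, starRingEnd ℂ (T.z i j) = -T.z i j := fun i j =>
    congrFun (congrFun T.real i) j
  funext i
  change ∑ j, T.z i j * starRingEnd ℂ (a j) = -starRingEnd ℂ (∑ j, T.z i j * a j)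
  rw [map_sum, ← Finset.sum_neg_distrib]
  refine Finset.sum_congr rfl fun j _ => ?_
  rw [map_mul, h1]
  ring

theorem z_cj_eig {k : ℤ} {y : Fin n → ℂ} (hy : T.z *ᵥ y = (k : ℂ) • y) :
    T.z *ᵥ cj y = ((-k : ℤ) : ℂ) • cj y := by
  rw [z_cj, hy]
  funext i
  change -starRingEnd ℂ ((k : ℂ) * y i) = ((-k : ℤ) : ℂ) * starRingEnd ℂ (y i)
  rw [map_mul]
  have h1 : starRingEnd ℂ (k : ℂ) = (k : ℂ) := map_intCast (starRingEnd ℂ) k
  rw [h1, Int.cast_neg]
  ring

/-- the values of the form on eigenvectors -/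
theorem B_eig {k l : ℤ} {x y : Fin n → ℂ} (hx : T.z *ᵥ x = (k : ℂ) • x)
    (hy : T.z *ᵥ y = (l : ℂ) • y) (h : k + l ≠ 0) : B T x y = 0 := by
  have h1 := Sk_bl T.skew x y
  rw [hx, hy, bl_smul_left, bl_smul_right] at h1
  have h2 : ((k + l : ℤ) : ℂ) * B T x y = 0 := by
    rw [Int.cast_add]
    have h3 : (k : ℂ) * B T x y = -((l : ℂ) * B T x y) := h1
    linear_combination h3
  exact (mul_eq_zero.1 h2).resolve_left (Int.cast_ne_zero.2 h)

theorem B_cj_ne {k : ℤ} {y : Fin n → ℂ} (hy : T.z *ᵥ y = (k : ℂ) • y) (h0 : y ≠ 0) :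
    B T y (cj y) ≠ 0 := by
  intro h
  have h1 := T.positive k y h0 hy
  have h2 : y ⬝ᵥ (cM T.Q *ᵥ cj y) = 0 := h
  rw [h2, mul_zero, Complex.zero_re] at h1
  exact lt_irrefl _ h1

theorem ω_eig : T.z *ᵥ T.ω = (T.d : ℂ) • T.ω := (T.top T.ω).2 ⟨1, (one_smul ℂ _).symm⟩

theorem ω_ne (hn : 0 < n) : T.ω ≠ 0 := by
  intro h
  have h1 := T.transcendental.ne_zero (⟨0, hn⟩ : Fin n)
  exact h1 (congrFun h _)

theorem p_eig : T.z *ᵥ cj T.ω = ((-T.d : ℤ) : ℂ) • cj T.ω := z_cj_eig T (ω_eig T)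

/-- the classes of the lowest type -/
theorem low {y : Fin n → ℂ} (hy : T.z *ᵥ y = ((-T.d : ℤ) : ℂ) • y) : ∃ c : ℂ, y = c • cj T.ω := by
  have h1 := z_cj_eig T hy
  rw [neg_neg] at h1
  obtain ⟨c, hc⟩ := (T.top _).1 h1
  refine ⟨starRingEnd ℂ c, ?_⟩
  rw [← cj_cj y, hc]
  funext i
  exact map_mul _ _ _

end period

end

end Pool.Agent.X311.CY
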