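import Mathlib
import Pool.Agent.X311.Cy1
import Pool.Agent.X311.K3e

/-!
# Lie algebras of skew matrices for an alternating form which contain a matrix of rank one: the main lemma
-/

set_option autoImplicit false
set_option linter.unusedSectionVars false

namespace Pool.Agent.X311.CY

open Matrix Module Function
open Pool.Agent.X311.K3 (bl bl_add_left bl_add_right bl_smul_left bl_smul_right bl_sub_left
  bl_sub_right bl_zero_right Sk dv)
open Pool.Agent.X311 (prl prl_add prl_smul prl_eig)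

noncomputable section

variable {n : ℕ} {T : Period n}

theorem sT_map (φ : ℂ →+* ℂ) (a b : Fin n → ℂ) :
    (sT T a b).map φ = sT T (fun i => φ (a i)) (fun i => φ (b i)) := by
  have h1 : ∀ (a : Fin n → ℂ) i, φ ((cM T.Q *ᵥ a) i) = (cM T.Q *ᵥ fun i => φ (a i)) i := by
    intro a i
    simp only [mulVec, dotProduct, map_sum, map_mul]
    refine Finset.sum_congr rfl fun j _ => ?_
    congr 1
    exact map_ratCast φ _
  ext i j
  change φ (a i * (cM T.Q *ᵥ b) j + b i * (cM T.Q *ᵥ a) j) = φ (a i) * (cM T.Q *ᵥ fun i => φ (b i)) j +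
    φ (b i) * (cM T.Q *ᵥ fun i => φ (a i)) j
  rw [map_add, map_mul, map_mul, h1, h1]

theorem sT_der (δ : Derivation ℚ ℂ ℂ) (a : Fin n → ℂ) :
    (sT T a a).map δ = (2 : ℂ) • sT T (dv δ a) a := by
  have h1 : ∀ (a : Fin n → ℂ) i, δ ((cM T.Q *ᵥ a) i) = (cM T.Q *ᵥ dv δ a) i := fun a i =>
    K3.der_mv δ T.Q a i
  ext i j
  change δ (a i * (cM T.Q *ᵥ a) j + a i * (cM T.Q *ᵥ a) j) =
    2 * (dv δ a i * (cM T.Q *ᵥ a) j + a i * (cM T.Q *ᵥ dv δ a) j)
  rw [map_add, Derivation.leibniz, smul_eq_mul, smul_eq_mul, h1]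
  change _ + _ = 2 * (δ (a i) * _ + _)
  ring

/-- A Lie algebra of skew matrices which is stable under the rational linear maps of the complex numbers
and under the Hodge operator and contains the square of the complex conjugate of the period. -/
structure Good (T : Period n) (L : Submodule ℂ (Matrix (Fin n) (Fin n) ℂ)) : Prop where
  skew : ∀ A ∈ L, Sk (cM T.Q) A
  br : ∀ A ∈ L, ∀ C ∈ L, A * C - C * A ∈ L
  phi : ∀ φ : ℂ →ₗ[ℚ] ℂ, ∀ A ∈ L, A.map φ ∈ L
  adz : ∀ A ∈ L, T.z * A - A * T.z ∈ L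
  pp : sT T (cj T.ω) (cj T.ω) ∈ L

variable {L : Submodule ℂ (Matrix (Fin n) (Fin n) ℂ)} (h : Good T L)

include h

theorem Good.map_ring (σ : ℂ →+* ℂ) {A : Matrix (Fin n) (Fin n) ℂ} (hA : A ∈ L) : A.map σ ∈ L :=
  h.phi (σ : ℂ →+ ℂ).toRatLinearMap A hA

theorem Good.conj {a b : Fin n → ℂ} (hab : sT T a b ∈ L) : sT T (cj a) (cj b) ∈ L := by
  have h1 := h.map_ring (starRingEnd ℂ) hab
  rwa [sT_map] at h1

theorem Good.br_st {A : Matrix (Fin n) (Fin n) ℂ} (hA : A ∈ L) {a b : Fin n → ℂ}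
    (hab : sT T a b ∈ L) : sT T (A *ᵥ a) b + sT T a (A *ᵥ b) ∈ L := by
  have h1 := h.br A hA _ hab
  rwa [sT, Sk_br_st (h.skew A hA)] at h1

theorem Good.oo : sT T T.ω T.ω ∈ L := by
  have h1 := h.conj h.pp
  rwa [cj_cj] at h1

variable (hn : 0 < n)

omit h in
include hn in
theorem hh_ne : B T T.ω (cj T.ω) ≠ 0 := B_cj_ne T (ω_eig T) (ω_ne T hn)

omit h in
include hn in
theorem hh_ne' : B T (cj T.ω) T.ω ≠ 0 := by
  rw [B_anti]
  exact neg_ne_zero.2 (hh_ne hn)

theorem smul_mem_iff' {c : ℂ} (hc : c ≠ 0) {A : Matrix (Fin n) (Fin n) ℂ} (hA : c • A ∈ L) : A ∈ L := by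
  have h1 := L.smul_mem c⁻¹ hA
  rwa [smul_smul, inv_mul_cancel₀ hc, one_smul] at h1

include hn

theorem Good.op : sT T (cj T.ω) T.ω ∈ L := by
  have h1 := h.br_st h.pp h.oo
  rw [sT_mulVec, ← add_smul, sT, sT, st_smul_left, st_smul_right, st_comm _ T.ω, ← add_smul] at h1
  refine smul_mem_iff' h ?_ h1
  have h2 : B T T.ω (cj T.ω) + B T T.ω (cj T.ω) + (B T T.ω (cj T.ω) + B T T.ω (cj T.ω)) =
      4 * B T T.ω (cj T.ω) := by ring
  rw [h2]
  exact mul_ne_zero (by norm_num : (4 : ℂ) ≠ 0) (hh_ne hn)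

omit h hn

/-- the vectors whose products with the period are in the Lie algebra -/
def WW (T : Period n) (L : Submodule ℂ (Matrix (Fin n) (Fin n) ℂ)) : Submodule ℂ (Fin n → ℂ) where
  carrier := {w | sT T w T.ω ∈ L}
  add_mem' := by
    intro a b ha hb
    have h1 := L.add_mem ha hb
    rwa [sT, sT, ← st_add_left] at h1
  zero_mem' := by
    change sT T 0 T.ω ∈ L
    rw [sT, st_zero_left]
    exact L.zero_mem
  smul_mem' := by
    intro c a ha
    have h1 := L.smul_mem c ha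
    rwa [sT, ← st_smul_left] at h1

theorem mem_WW {w : Fin n → ℂ} : w ∈ WW T L ↔ sT T w T.ω ∈ L := Iff.rfl

include h

theorem o_mem : T.ω ∈ WW T L := h.oo

include hn

theorem p_mem : cj T.ω ∈ WW T L := h.op hn

theorem wp {w : Fin n → ℂ} (hw : w ∈ WW T L) : sT T w (cj T.ω) ∈ L := by
  have h1 := h.br_st h.pp (mem_WW.1 hw)
  rw [sT_mulVec, sT_mulVec, ← add_smul, ← add_smul, sT, sT, st_smul_left, st_smul_right] at h1
  have h2 := L.sub_mem h1 (L.smul_mem (B T w (cj T.ω) + B T w (cj T.ω)) (h.op hn))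
  rw [sT, add_sub_cancel_left] at h2
  refine smul_mem_iff' h ?_ h2
  rw [← two_mul]
  exact mul_ne_zero two_ne_zero (hh_ne hn)

theorem ww {w w' : Fin n → ℂ} (hw : w ∈ WW T L) (hw' : w' ∈ WW T L) : sT T w w' ∈ L := by
  have h0 : sT T (cj T.ω) w' ∈ L := by
    have h1 := wp h hn hw'
    rwa [sT, st_comm] at h1
  have h1 := h.br_st (mem_WW.1 hw) h0
  rw [sT_mulVec, sT_mulVec, sT, sT, st_add_left, st_add_right, st_smul_left, st_smul_left,
    st_smul_right, st_smul_right] at h1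
  have e1 : st (cM T.Q) T.ω w' ∈ L := by
    have h2 := mem_WW.1 hw'
    rwa [sT, st_comm] at h2
  have e2 : st (cM T.Q) (cj T.ω) w ∈ L := by
    have h2 := wp h hn hw
    rwa [sT, st_comm] at h2
  have e3 : st (cM T.Q) (cj T.ω) T.ω ∈ L := h.op hn
  have h2 := L.sub_mem (L.sub_mem h1 (L.add_mem (L.smul_mem (B T w' T.ω) e2)
    (L.smul_mem (B T w' w) e3))) (L.smul_mem (B T (cj T.ω) w) e1)
  rw [add_sub_cancel_right, add_sub_cancel_right] at h2
  exact smul_mem_iff' h (hh_ne' hn) h2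

theorem A_mem {A : Matrix (Fin n) (Fin n) ℂ} (hA : A ∈ L) {w : Fin n → ℂ} (hw : w ∈ WW T L) :
    A *ᵥ w ∈ WW T L := by
  have h1 : A *ᵥ T.ω ∈ WW T L := by
    have h2 := h.br_st hA h.oo
    rw [sT, sT, st_comm _ T.ω, ← two_smul ℂ] at h2
    exact smul_mem_iff' h two_ne_zero h2
  have h2 := h.br_st hA (mem_WW.1 hw)
  have h3 := L.sub_mem h2 (ww h hn hw h1)
  rwa [add_sub_cancel_right] at h3

theorem z_mem {w : Fin n → ℂ} (hw : w ∈ WW T L) : T.z *ᵥ w ∈ WW T L := by
  have h1 := h.adz _ (mem_WW.1 hw)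
  rw [sT, Sk_br_st T.skew, ω_eig, st_smul_right] at h1
  have h2 := L.sub_mem h1 (L.smul_mem (T.d : ℂ) (mem_WW.1 hw))
  rw [sT, add_sub_cancel_right] at h2
  exact h2

theorem cj_mem {w : Fin n → ℂ} (hw : w ∈ WW T L) : cj w ∈ WW T L := by
  have h1 := h.conj (wp h hn hw)
  rwa [cj_cj] at h1

omit hn in
theorem der_mem (δ : Derivation ℚ ℂ ℂ) : dv δ T.ω ∈ WW T L := by
  have h1 : (sT T T.ω T.ω).map δ ∈ L := h.phi (δ : ℂ →ₗ[ℚ] ℂ) _ h.oo
  rw [sT_der] at h1
  exact smul_mem_iff' h two_ne_zero h1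

omit h hn in
/-- the eigenvalues are integers -/
theorem eig_int {y : Fin n → ℂ} (hy0 : y ≠ 0) {μ : ℂ} (hy : T.z *ᵥ y = μ • y) :
    ∃ k : ℤ, μ = (k : ℂ) := by
  by_contra hcon
  push Not at hcon
  let l : List ℤ := (Finset.Icc (-T.d) T.d).toList
  have h1 : prl T.z 0 l y = 0 := by
    have h2 := T.decomp y
    clear hy hy0
    induction h2 using Submodule.span_induction with
    | mem w hw =>
      obtain ⟨k, hk, hw⟩ := hw
      refine prl_eig T.z 0 k l ?_ w hw
      rw [sub_zero, Finset.mem_toList, Finset.mem_Icc]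
      exact abs_le.1 hk
    | zero =>
      have h3 := prl_smul T.z 0 l 0 (0 : Fin n → ℂ)
      rwa [zero_smul, zero_smul] at h3
    | add x y _ _ hx hy => rw [prl_add, hx, hy, add_zero]
    | smul c x _ hx => rw [prl_smul, hx, smul_zero]
  have h2 : ∀ l : List ℤ, ∀ w : Fin n → ℂ, w ≠ 0 → T.z *ᵥ w = μ • w → prl T.z 0 l w ≠ 0 := by
    intro l
    induction l with
    | nil => intro w hw _; exact hw
    | cons k l ih =>
      intro w hw0 hw
      have h3 : T.z *ᵥ w - ((0 + k : ℤ) : ℂ) • w = (μ - (k : ℂ)) • w := by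
        rw [hw, zero_add, sub_smul]
      change prl T.z 0 l _ ≠ 0
      rw [h3, prl_smul]
      exact smul_ne_zero (sub_ne_zero.2 (hcon k)) (ih w hw0 hw)
  exact h2 l y hy0 hy h1

omit h hn in
/-- the form is nondegenerate on sub-Hodge structures -/
theorem nondeg' {W : Submodule ℂ (Fin n → ℂ)} (hz : ∀ w ∈ W, T.z *ᵥ w ∈ W) (hc : ∀ w ∈ W, cj w ∈ W)
    {u : Fin n → ℂ} (hu : u ∈ W) (hu0 : u ≠ 0) : ∃ a ∈ W, B T u a ≠ 0 := by
  by_contra hcon
  push Not at hcon
  let R : Submodule ℂ (Fin n → ℂ) :=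
    { carrier := {x | x ∈ W ∧ ∀ a ∈ W, B T x a = 0}
      add_mem' := by
        rintro x y ⟨h1, h2⟩ ⟨h3, h4⟩
        refine ⟨W.add_mem h1 h3, fun a ha => ?_⟩
        have e1 : bl (cM T.Q) x a = 0 := h2 a ha
        have e2 : bl (cM T.Q) y a = 0 := h4 a ha
        rw [B, bl_add_left, e1, e2, add_zero]
      zero_mem' := ⟨W.zero_mem, fun a _ => by
        have h1 := bl_smul_left (cM T.Q) 0 (0 : Fin n → ℂ) a
        rwa [zero_smul, zero_mul] at h1⟩
      smul_mem' := by
        rintro c x ⟨h1, h2⟩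
        refine ⟨W.smul_mem c h1, fun a ha => ?_⟩
        have e1 : bl (cM T.Q) x a = 0 := h2 a ha
        rw [B, bl_smul_left, e1, mul_zero] }
  have hzR : ∀ x ∈ R, T.z *ᵥ x ∈ R := by
    rintro x ⟨h1, h2⟩
    refine ⟨hz x h1, fun a ha => ?_⟩
    have h3 : B T (T.z *ᵥ x) a = -B T x (T.z *ᵥ a) := Sk_bl T.skew x a
    rw [h3, h2 _ (hz a ha), neg_zero]
  let f : Module.End ℂ R := (Matrix.toLin' T.z).restrict (p := R) (q := R) fun x hx => by
    rw [Matrix.toLin'_apply]
    exact hzR x hx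
  have huR : u ∈ R := ⟨hu, hcon⟩
  have : Nontrivial R := ⟨⟨⟨u, huR⟩, 0, fun he => hu0 (congrArg Subtype.val he)⟩⟩
  obtain ⟨μ, hμ⟩ := Module.End.exists_eigenvalue f
  obtain ⟨y, hy⟩ := hμ.exists_hasEigenvector
  have hy1 : T.z *ᵥ (y : Fin n → ℂ) = μ • (y : Fin n → ℂ) := by
    have h1 := congrArg Subtype.val hy.apply_eq_smul
    exact h1
  have hy0 : (y : Fin n → ℂ) ≠ 0 := fun he => hy.2 (Subtype.ext he)
  obtain ⟨k, rfl⟩ := eig_int hy0 hy1
  exact B_cj_ne T hy1 hy0 (y.2.2 _ (hc _ y.2.1))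

/-- the form is nondegenerate on the space -/
theorem nondeg {u : Fin n → ℂ} (hu : u ∈ WW T L) (hu0 : u ≠ 0) : ∃ a ∈ WW T L, B T u a ≠ 0 :=
  nondeg' (fun _ hw => z_mem h hn hw) (fun _ hw => cj_mem h hn hw) hu hu0

/-- irreducibility -/
theorem irr {U : Submodule ℂ (Fin n → ℂ)}
    (hU : ∀ a ∈ WW T L, ∀ b ∈ WW T L, ∀ y ∈ U, sT T a b *ᵥ y ∈ U) {u : Fin n → ℂ}
    (huW : u ∈ WW T L) (huU : u ∈ U) (hu0 : u ≠ 0) : WW T L ≤ U := by
  obtain ⟨a, ha, hua⟩ := nondeg h hn huW hu0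
  have h1 : a ∈ U := by
    have h2 := hU a ha a ha u huU
    rw [sT_mulVec, ← add_smul, ← two_mul] at h2
    have h3 := U.smul_mem (2 * B T u a)⁻¹ h2
    rwa [smul_smul, inv_mul_cancel₀ (mul_ne_zero two_ne_zero hua), one_smul] at h3
  intro b hb
  have h2 := hU a ha b hb u huU
  rw [sT_mulVec] at h2
  have h3 := U.sub_mem h2 (U.smul_mem (B T u b) h1)
  rw [add_sub_cancel_left] at h3
  have h4 := U.smul_mem (B T u a)⁻¹ h3
  rwa [smul_smul, inv_mul_cancel₀ hua, one_smul] at h4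

omit h hn in
/-- A stable subspace which contains the period is everything. -/
theorem eq_top_of_stable {F : Submodule ℂ (Fin n → ℂ)}
    (hF : ∀ σ : ℂ ≃+* ℂ, ∀ y ∈ F, (fun b => σ (y b)) ∈ F) {ω : Fin n → ℂ}
    (hω : LinearIndependent ℚ ω) (ho : ω ∈ F) : F = ⊤ := by
  classical
  have hspan : F ≤ Submodule.span ℂ {x : Fin n → ℂ | (∀ b, ∃ q : ℚ, x b = (q : ℂ)) ∧ x ∈ F} := by
    intro y hy
    have h1 := K3.descent' F hF Finset.univ y hy (fun b hb => absurd (Finset.mem_univ b) hb)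
    refine Submodule.span_mono ?_ h1
    rintro x ⟨h2, h3, -⟩
    exact ⟨h2, h3⟩
  let Z : Submodule ℚ (Fin n → ℚ) :=
    { carrier := {q | (fun i => ((q i : ℚ) : ℂ)) ∈ F}
      add_mem' := by
        intro a b ha hb
        have h1 : (fun i => (((a + b) i : ℚ) : ℂ)) = (fun i => ((a i : ℚ) : ℂ)) +
            fun i => ((b i : ℚ) : ℂ) := by
          funext i
          simp
        change (fun i => (((a + b) i : ℚ) : ℂ)) ∈ F
        rw [h1]
        exact F.add_mem ha hb
      zero_mem' := by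
        change (fun i => (((0 : Fin n → ℚ) i : ℚ) : ℂ)) ∈ F
        have h1 : (fun i => (((0 : Fin n → ℚ) i : ℚ) : ℂ)) = 0 := by
          funext i
          simp
        rw [h1]
        exact F.zero_mem
      smul_mem' := by
        intro c a ha
        change (fun i => (((c • a) i : ℚ) : ℂ)) ∈ F
        have h1 : (fun i => (((c • a) i : ℚ) : ℂ)) = (c : ℂ) • fun i => ((a i : ℚ) : ℂ) := by
          funext i
          simp
        rw [h1]
        exact F.smul_mem _ ha }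
  by_cases hZ : Z = ⊤
  · rw [eq_top_iff]
    intro y _
    have h1 : y = ∑ i, y i • (Pi.single i (1 : ℂ) : Fin n → ℂ) := by
      funext j
      simp [Finset.sum_apply, Pi.single_apply]
    rw [h1]
    refine F.sum_mem fun i _ => F.smul_mem _ ?_
    have h2 : (Pi.single i 1 : Fin n → ℚ) ∈ Z := hZ ▸ Submodule.mem_top
    have h3 : (fun j => (((Pi.single i 1 : Fin n → ℚ) j : ℚ) : ℂ)) =
        (Pi.single i (1 : ℂ) : Fin n → ℂ) := by
      funext j
      by_cases hj : j = i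
      · subst hj
        simp
      · simp [Pi.single_eq_of_ne hj]
    have h4 : (fun j => (((Pi.single i 1 : Fin n → ℚ) j : ℚ) : ℂ)) ∈ F := h2
    rwa [h3] at h4
  · exfalso
    obtain ⟨f, hf0, hf⟩ := Submodule.exists_le_ker_of_lt_top Z (lt_top_iff_ne_top.2 hZ)
    obtain ⟨c, hc⟩ : ∃ c : Fin n → ℚ, ∀ i, c i = f (Pi.single i 1) := ⟨_, fun i => rfl⟩
    have hfc : ∀ q : Fin n → ℚ, f q = ∑ i, c i * q i := by
      intro q
      have h1 : q = ∑ i, q i • (Pi.single i (1 : ℚ) : Fin n → ℚ) := by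
        funext j
        simp [Finset.sum_apply, Pi.single_apply]
      conv_lhs => rw [h1]
      rw [map_sum]
      refine Finset.sum_congr rfl fun i _ => ?_
      rw [map_smul, hc, smul_eq_mul, mul_comm]
    have h1 : ∀ y ∈ F, ∑ i, (c i : ℂ) * y i = 0 := by
      intro y hy
      have h2 := hspan hy
      clear hy
      induction h2 using Submodule.span_induction with
      | mem x hx =>
        obtain ⟨hx1, hx2⟩ := hx
        choose q hq using hx1
        have h3 : q ∈ Z := by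
          change (fun i => ((q i : ℚ) : ℂ)) ∈ F
          have h4 : (fun i => ((q i : ℚ) : ℂ)) = x := funext fun i => (hq i).symm
          rwa [h4]
        have h4 : f q = 0 := hf h3
        rw [hfc] at h4
        have h5 := congrArg (fun z : ℚ => (z : ℂ)) h4
        simp only [Rat.cast_sum, Rat.cast_mul, Rat.cast_zero] at h5
        rw [← h5]
        exact Finset.sum_congr rfl fun i _ => by rw [hq i]
      | zero => simp
      | add x y _ _ hx' hy' =>
        simp only [Pi.add_apply, mul_add, Finset.sum_add_distrib]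
        rw [hx', hy', add_zero]
      | smul a x _ hx' =>
        simp only [Pi.smul_apply, smul_eq_mul]
        rw [← mul_zero a, ← hx', Finset.mul_sum]
        exact Finset.sum_congr rfl fun i _ => by ring
    have h2 := h1 ω ho
    have h3 := Fintype.linearIndependent_iff.1 hω c (by
      rw [← h2]
      exact Finset.sum_congr rfl fun i _ => Algebra.smul_def _ _)
    apply hf0
    ext q
    simp [hfc, h3]

/-- **The main lemma.** The Lie algebra is everything if the space is large. -/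
theorem all_mem (hd : n < 2 * finrank ℂ (WW T L)) (a b : Fin n → ℂ) : sT T a b ∈ L := by
  have hst : ∀ σ : ℂ ≃+* ℂ, WW T L ≤ K3.pull σ (WW T L) := by
    intro σ
    have hpull : ∀ A ∈ L, ∀ y ∈ K3.pull σ (WW T L), A *ᵥ y ∈ K3.pull σ (WW T L) := by
      intro A hA y hy
      rw [K3.mem_pull] at hy ⊢
      have h1 : (fun b => σ ((A *ᵥ y) b)) = A.map σ *ᵥ fun b => σ (y b) := by
        funext b
        simp [mulVec, dotProduct]
      rw [h1]
      exact A_mem h hn (h.map_ring (σ : ℂ →+* ℂ) hA) hy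
    by_cases hU : WW T L ⊓ K3.pull σ (WW T L) = ⊥
    · exfalso
      have h1 := Submodule.finrank_sup_add_finrank_inf_eq (WW T L) (K3.pull σ (WW T L))
      rw [hU, finrank_bot] at h1
      have h2 := K3.finrank_pull σ (WW T L)
      have h3 := Submodule.finrank_le (WW T L ⊔ K3.pull σ (WW T L))
      rw [Module.finrank_fintype_fun_eq_card, Fintype.card_fin] at h3
      omega
    · obtain ⟨u, hu, hu0⟩ := Submodule.exists_mem_ne_zero_of_ne_bot hU
      obtain ⟨hu1, hu2⟩ := Submodule.mem_inf.1 hu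
      exact irr h hn (fun a ha b hb y hy => hpull _ (ww h hn ha hb) y hy) hu1 hu2 hu0
  have htop : WW T L = ⊤ := eq_top_of_stable (fun σ y hy => hst σ hy) T.transcendental (o_mem h)
  exact ww h hn (htop ▸ Submodule.mem_top) (htop ▸ Submodule.mem_top)

end

end Pool.Agent.X311.CY
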