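import Mathlib
import Pool.Agent.X311.Cy2
import Pool.Agent.X311.K3f

/-!
# Calabi-Yau varieties of odd dimension: the matrix of rank one
-/

set_option autoImplicit false
set_option linter.unusedSectionVars false

namespace Pool.Agent.X311.CY

open Matrix Module Function Pool.Agent.TH131.GHC Pool.Agent.TH504.VY Pool.Agent.TH504.CB
  Pool.Agent.X311
open Pool.Agent.X311.K3 (bl bl_add_left bl_add_right bl_smul_left bl_smul_right bl_sub_left
  bl_sub_right bl_zero_right Sk dv R2 ac cF aT aY aT_apply exists_list' adl_fst adl_snd)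

noncomputable section

variable {n v : ℕ}

section stab

variable {P : Type} [Fintype P] [DecidableEq P] (Q : Matrix (Fin n) (Fin n) ℚ)
  (f : (P → Fin n) → Fin v → ℚ)

/-- the pairs which kill a class -/
def NN : Submodule ℂ (R2 n v) where
  carrier := {x | Sk (cM Q) x.1 ∧ ac x (cF f) = 0}
  add_mem' := by
    rintro x y ⟨h1, h2⟩ ⟨h3, h4⟩
    exact ⟨K3.Sk_add h1 h3, by rw [K3.ac_add, h2, h4, add_zero]⟩
  zero_mem' := ⟨K3.Sk_zero, by
    have h := K3.ac_smul 0 (0 : R2 n v) (cF f)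
    rwa [zero_smul, zero_smul] at h⟩
  smul_mem' := by
    rintro c x ⟨h1, h2⟩
    exact ⟨K3.Sk_smul c h1, by rw [K3.ac_smul, h2, smul_zero]⟩

variable {Q f}

theorem NN_br {x y : R2 n v} (hx : x ∈ NN Q f) (hy : y ∈ NN Q f) : x * y - y * x ∈ NN Q f := by
  refine ⟨K3.Sk_br hx.1 hy.1, ?_⟩
  rw [K3.ac_br, hx.2, hy.2, K3.ac_zero_right, K3.ac_zero_right, sub_zero]

theorem NN_phi (φ : ℂ →ₗ[ℚ] ℂ) {x : R2 n v} (hx : x ∈ NN Q f) : (x.1.map φ, x.2.map φ) ∈ NN Q f := by
  refine ⟨K3.Sk_phi φ hx.1, ?_⟩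
  funext J b
  rw [← K3.phi_ac, hx.2]
  exact map_zero φ

theorem adl_NN {A : R2 n v} (hA : A ∈ NN Q f) (l : List ℤ) : ∀ X : R2 n v, X ∈ NN Q f →
    adl A l X ∈ NN Q f := by
  induction l with
  | nil => intro X hX; exact hX
  | cons c l ih =>
    intro X hX
    exact ih _ (Submodule.sub_mem _ (NN_br hA hX) (Submodule.smul_mem _ _ hX))

variable (Q f)

/-- the matrices which kill a class -/
def LL : Submodule ℂ (Matrix (Fin n) (Fin n) ℂ) :=
  (NN Q f).comap (LinearMap.inl ℂ (Matrix (Fin n) (Fin n) ℂ) (Matrix (Fin v) (Fin v) ℂ))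

variable {Q f}

theorem mem_LL {A : Matrix (Fin n) (Fin n) ℂ} : A ∈ LL Q f ↔ (A, 0) ∈ NN Q f := Iff.rfl

end stab

theorem adl_append {R : Type*} [Ring R] [Module ℂ R] (A : R) (l l' : List ℤ) : ∀ X : R,
    adl A (l ++ l') X = adl A l' (adl A l X) := by
  induction l with
  | nil => intro X; rfl
  | cons c l ih => intro X; exact ih _

section eig

variable {T : Period n}

theorem prl_comm (l : List ℤ) (k : ℤ) : ∀ w : Fin n → ℂ,
    T.z *ᵥ prl T.z k l w = prl T.z k l (T.z *ᵥ w) := by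
  induction l with
  | nil => intro w; rfl
  | cons c l ih =>
    intro w
    change T.z *ᵥ prl T.z k l _ = prl T.z k l _
    rw [ih, mulVec_sub, mulVec_smul]

theorem B_prl (l : List ℤ) : ∀ w : Fin n → ℂ,
    B T T.ω (prl T.z T.d l w) = (l.map fun j : ℤ => -(2 * (T.d : ℂ) + (j : ℂ))).prod * B T T.ω w := by
  induction l with
  | nil => intro w; simp [prl]
  | cons c l ih =>
    intro w
    change B T T.ω (prl T.z T.d l _) = _
    rw [ih, List.map_cons, List.prod_cons]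
    have h1 : B T T.ω (T.z *ᵥ w) = -((T.d : ℂ) * B T T.ω w) := by
      have h2 : B T (T.z *ᵥ T.ω) w = -B T T.ω (T.z *ᵥ w) := Sk_bl T.skew _ _
      rw [ω_eig, B, bl_smul_left] at h2
      have h3 : B T T.ω (T.z *ᵥ w) = -((T.d : ℂ) * bl (cM T.Q) T.ω w) := by
        rw [h2, neg_neg]
      exact h3
    have h2 : B T T.ω (T.z *ᵥ w - ((T.d + c : ℤ) : ℂ) • w) =
        -(2 * (T.d : ℂ) + (c : ℂ)) * B T T.ω w := by
      rw [B, bl_sub_right, bl_smul_right]
      have h3 : bl (cM T.Q) T.ω (T.z *ᵥ w) = -((T.d : ℂ) * B T T.ω w) := h1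
      rw [h3, Int.cast_add]
      change -((T.d : ℂ) * B T T.ω w) - ((T.d : ℂ) + (c : ℂ)) * B T T.ω w = _
      ring
    rw [h2]
    ring

/-- the list of the eigenvalues except the smallest one -/
def ll (T : Period n) : List ℤ := (Finset.Icc (-2 * T.d + 1) (2 * T.d)).toList

theorem mem_ll {k : ℤ} : k ∈ ll T ↔ -2 * T.d + 1 ≤ k ∧ k ≤ 2 * T.d := by
  rw [ll, Finset.mem_toList, Finset.mem_Icc]

variable {X : Matrix (Fin n) (Fin n) ℂ} {l : List ℤ} (hl : ∀ k, k ∈ ll T → k ∈ l)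

include hl in
theorem prl_zero {k : ℤ} (hk : |k| ≤ T.d) (hkd : k ≠ T.d) (w : Fin n → ℂ) : prl T.z k l w = 0 := by
  have h2 := T.decomp w
  induction h2 using Submodule.span_induction with
  | mem w hw =>
    obtain ⟨m, hm, hw⟩ := hw
    refine prl_eig T.z k m l (hl _ (mem_ll.2 ?_)) w hw
    have h3 := abs_le.1 hk
    have h4 := abs_le.1 hm
    omega
  | zero =>
    have h3 := prl_smul T.z k l 0 (0 : Fin n → ℂ)
    rwa [zero_smul, zero_smul] at h3
  | add x y _ _ hx hy => rw [prl_add, hx, hy, add_zero]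
  | smul c x _ hx => rw [prl_smul, hx, smul_zero]

include hl in
theorem prl_low (w : Fin n → ℂ) :
    T.z *ᵥ prl T.z T.d l w = ((-T.d : ℤ) : ℂ) • prl T.z T.d l w := by
  have h2 := T.decomp w
  induction h2 using Submodule.span_induction with
  | mem w hw =>
    obtain ⟨m, hm, hw⟩ := hw
    by_cases hmd : m = -T.d
    · rw [prl_comm, hw, prl_smul, hmd]
    · have h4 := abs_le.1 hm
      have h5 : prl T.z T.d l w = 0 := prl_eig T.z T.d m l (hl _ (mem_ll.2 (by omega))) w hw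
      rw [h5, mulVec_zero, smul_zero]
  | zero =>
    have h3 := prl_smul T.z T.d l 0 (0 : Fin n → ℂ)
    rw [zero_smul, zero_smul] at h3
    rw [h3, mulVec_zero, smul_zero]
  | add x y _ _ hx hy => rw [prl_add, mulVec_add, hx, hy, smul_add]
  | smul c x _ hx => rw [prl_smul, mulVec_smul, hx, smul_comm]

include hl in
/-- The iterated commutator is a multiple of the square of the complex conjugate of the period. -/
theorem adl_eq (hn : 0 < n) (A : Matrix (Fin n) (Fin n) ℂ) : adl T.z l A =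
    (B T T.ω (adl T.z l A *ᵥ T.ω) / (2 * B T T.ω (cj T.ω) ^ 2)) • sT T (cj T.ω) (cj T.ω) := by
  have hh := hh_ne (T := T) hn
  have hpp : B T (cj T.ω) (cj T.ω) = 0 := B_self T _
  have hX : ∀ y : Fin n → ℂ, adl T.z l A *ᵥ y =
      ((B T T.ω (adl T.z l A *ᵥ T.ω) / (2 * B T T.ω (cj T.ω) ^ 2)) • sT T (cj T.ω) (cj T.ω)) *ᵥ y := by
    intro y
    have h2 := T.decomp y
    induction h2 using Submodule.span_induction with
    | mem y hy =>
      obtain ⟨k, hk, hy⟩ := hy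
      rw [smul_mulVec, sT_mulVec]
      by_cases hkd : k = T.d
      · rw [hkd] at hy
        obtain ⟨c, rfl⟩ := (T.top y).1 hy
        obtain ⟨c', hc'⟩ : ∃ c' : ℂ, adl T.z l A *ᵥ T.ω = c' • cj T.ω := by
          refine low T ?_
          rw [adl_mulVec T.z T.d l A T.ω (ω_eig T)]
          exact prl_low hl _
        have e1 : B T T.ω (c' • cj T.ω) = c' * B T T.ω (cj T.ω) := bl_smul_right _ _ _ _
        have e2 : B T (c • T.ω) (cj T.ω) = c * B T T.ω (cj T.ω) := bl_smul_left _ _ _ _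
        rw [mulVec_smul, hc', e1, e2, ← add_smul, smul_smul, smul_smul]
        congr 1
        field_simp
        ring
      · have h3 : B T y (cj T.ω) = 0 := B_eig T hy (p_eig T) (by omega)
        rw [adl_mulVec T.z k l A y hy, prl_zero hl hk hkd, h3, zero_smul, add_zero, smul_zero]
    | zero => rw [mulVec_zero, mulVec_zero]
    | add x y _ _ hx hy => rw [mulVec_add, mulVec_add, hx, hy]
    | smul c x _ hx => rw [mulVec_smul, mulVec_smul, hx]
  ext i j
  have h3 := congrFun (hX (Pi.single j 1)) i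
  rw [mulVec_single_one, mulVec_single_one] at h3
  exact h3

end eig

variable {T : Period n} {P : Type} [Fintype P] [DecidableEq P] {V : Coh v}
  {f : (P → Fin n) → Fin v → ℚ}
  {K : Subfield ℂ} (hV : IsOfCMType V ∨ HasFiltrationOver K V)
  (hz : ((T.z, V.z) : R2 n v) ∈ NN T.Q f)

include hV hz in
/-- The square of the complex conjugate of the period kills the class. -/
theorem pp_mem (hn : 0 < n) (δ : Derivation ℚ ℂ ℂ) (hδ : ∀ x ∈ K, δ x = 0)
    (hB : B T T.ω (dv δ T.ω) ≠ 0) : sT T (cj T.ω) (cj T.ω) ∈ LL T.Q f := by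
  obtain ⟨lY, hlY, -, hlY0⟩ := exists_list' hV δ hδ
  have hl : ∀ k, k ∈ ll T → k ∈ lY ++ ll T := fun k hk => List.mem_append_right _ hk
  have h1 := adl_NN hz (lY ++ ll T) _ (NN_phi (δ : ℂ →ₗ[ℚ] ℂ) hz)
  have h2 : adl ((T.z, V.z) : R2 n v) (lY ++ ll T) (T.z.map (δ : ℂ →ₗ[ℚ] ℂ), V.z.map (δ : ℂ →ₗ[ℚ] ℂ)) =
      (adl T.z (lY ++ ll T) (T.z.map δ), 0) := by
    refine Prod.ext ?_ ?_
    · rw [adl_fst]
      rfl
    · rw [adl_snd]
      change adl V.z (lY ++ ll T) (V.z.map δ) = 0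
      rw [adl_append, hlY0, adl_zero]
  rw [h2, adl_eq hl hn] at h1
  have h3 : B T T.ω (adl T.z (lY ++ ll T) (T.z.map δ) *ᵥ T.ω) ≠ 0 := by
    rw [adl_mulVec T.z T.d _ _ T.ω (ω_eig T), B_prl]
    refine mul_ne_zero (List.prod_ne_zero fun h5 => ?_) ?_
    · obtain ⟨j, hj, hj'⟩ := List.mem_map.1 h5
      have h6 : ((2 * T.d + j : ℤ) : ℂ) = 0 := by
        push_cast
        exact neg_eq_zero.1 hj'
      have h7 : 2 * T.d + j = 0 := by exact_mod_cast h6
      have h8 := T.d_pos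
      rcases List.mem_append.1 hj with h9 | h9
      · have := hlY j h9
        omega
      · have := mem_ll.1 h9
        omega
    · -- the derivative of the eigenvalue equation
      have h4 : T.z.map δ *ᵥ T.ω = (T.d : ℂ) • dv δ T.ω - T.z *ᵥ dv δ T.ω := by
        funext b
        have h3 := congrArg δ (congrFun (ω_eig T) b)
        have h4 : δ ((T.z *ᵥ T.ω) b) = (T.z.map δ *ᵥ T.ω) b + (T.z *ᵥ dv δ T.ω) b := by
          simp only [mulVec, dotProduct, map_sum, Matrix.map_apply]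
          rw [← Finset.sum_add_distrib]
          refine Finset.sum_congr rfl fun c _ => ?_
          rw [Derivation.leibniz, smul_eq_mul, smul_eq_mul]
          change _ = _ + T.z b c * δ (T.ω c)
          ring
        have h5 : δ (((T.d : ℂ) • T.ω) b) = (T.d : ℂ) * δ (T.ω b) := by
          rw [Pi.smul_apply, smul_eq_mul, Derivation.leibniz, Derivation.map_intCast]
          simp
        rw [h4, h5] at h3
        rw [Pi.sub_apply, Pi.smul_apply, smul_eq_mul]
        change _ = (T.d : ℂ) * δ (T.ω b) - _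
        linear_combination h3
      have h5 : B T (T.z *ᵥ T.ω) (dv δ T.ω) = -B T T.ω (T.z *ᵥ dv δ T.ω) := Sk_bl T.skew _ _
      rw [ω_eig, B, bl_smul_left] at h5
      have h6 : B T T.ω (T.z.map δ *ᵥ T.ω) = 2 * (T.d : ℂ) * B T T.ω (dv δ T.ω) := by
        rw [h4, B, bl_sub_right, bl_smul_right]
        have h7 : bl (cM T.Q) T.ω (T.z *ᵥ dv δ T.ω) = -((T.d : ℂ) * bl (cM T.Q) T.ω (dv δ T.ω)) := by
          have h8 : B T T.ω (T.z *ᵥ dv δ T.ω) = -((T.d : ℂ) * bl (cM T.Q) T.ω (dv δ T.ω)) := by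
            rw [h5, neg_neg]
          exact h8
        rw [h7, sub_neg_eq_add]
        change (T.d : ℂ) * bl (cM T.Q) T.ω (dv δ T.ω) + (T.d : ℂ) * bl (cM T.Q) T.ω (dv δ T.ω) =
          2 * (T.d : ℂ) * bl (cM T.Q) T.ω (dv δ T.ω)
        ring
      rw [h6]
      exact mul_ne_zero (mul_ne_zero two_ne_zero (Int.cast_ne_zero.2 T.d_pos.ne')) hB
  have hh := hh_ne (T := T) hn
  have h4 : B T T.ω (adl T.z (lY ++ ll T) (T.z.map δ) *ᵥ T.ω) / (2 * B T T.ω (cj T.ω) ^ 2) ≠ 0 :=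
    div_ne_zero h3 (mul_ne_zero two_ne_zero (pow_ne_zero 2 hh))
  have h5 : sT T (cj T.ω) (cj T.ω) =
      (B T T.ω (adl T.z (lY ++ ll T) (T.z.map δ) *ᵥ T.ω) / (2 * B T T.ω (cj T.ω) ^ 2))⁻¹ •
        ((B T T.ω (adl T.z (lY ++ ll T) (T.z.map δ) *ᵥ T.ω) / (2 * B T T.ω (cj T.ω) ^ 2)) •
          sT T (cj T.ω) (cj T.ω)) := by
    rw [smul_smul, inv_mul_cancel₀ h4, one_smul]
  rw [h5]
  exact (LL T.Q f).smul_mem _ (mem_LL.2 h1)

end

end Pool.Agent.X311.CY
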