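import Mathlib
import Pool.Agent.X311.K3h

/-!
# The standard classes are Hodge classes
-/

set_option autoImplicit false
set_option linter.unusedSectionVars false

namespace Pool.Agent.X311.K3

open Matrix Module Function Pool.Agent.TH131.GHC Pool.Agent.TH504.VY

noncomputable section

section kl

variable {ι : Type} [Fintype ι] (A : Matrix ι ι ℂ)

/-- the function is killed by the matrix -/
def Kl {S : Type} [Fintype S] [DecidableEq S] (F : (S → ι) → ℂ) : Prop :=
  ∀ Y : S → ι, ∑ j, ∑ l, A (Y j) l * F (update Y j l) = 0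

variable {A}

theorem Kl.mul {S S' : Type} [Fintype S] [DecidableEq S] [Fintype S'] [DecidableEq S']
    {F : (S → ι) → ℂ} {G : (S' → ι) → ℂ} (hF : Kl A F) (hG : Kl A G) :
    Kl A (fun X : S ⊕ S' → ι => F (fun j => X (Sum.inl j)) * G (fun j => X (Sum.inr j))) := by
  intro X
  rw [Fintype.sum_sum_type]
  have h1 : ∀ j l, (fun j' => update X (Sum.inl j) l (Sum.inl j')) =
      update (fun j' => X (Sum.inl j')) j l := fun j l =>
    update_comp_eq_of_injective X Sum.inl_injective j l
  have h2 : ∀ j l, (fun j' => update X (Sum.inr j) l (Sum.inr j')) =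
      update (fun j' => X (Sum.inr j')) j l := fun j l =>
    update_comp_eq_of_injective X Sum.inr_injective j l
  have h3 : ∀ (j : S) l, (fun j' : S' => update X (Sum.inl j) l (Sum.inr j')) =
      fun j' => X (Sum.inr j') := fun j l => funext fun j' => update_of_ne Sum.inr_ne_inl _ _
  have h4 : ∀ (j : S') l, (fun j' : S => update X (Sum.inr j) l (Sum.inl j')) =
      fun j' => X (Sum.inl j') := fun j l => funext fun j' => update_of_ne Sum.inl_ne_inr _ _
  have e1 : ∑ j, ∑ l, A (X (Sum.inl j)) l * (F (fun j' => update X (Sum.inl j) l (Sum.inl j')) *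
      G (fun j' => update X (Sum.inl j) l (Sum.inr j'))) = 0 := by
    have h5 := hF fun j => X (Sum.inl j)
    have h6 : ∑ j, ∑ l, A (X (Sum.inl j)) l * (F (fun j' => update X (Sum.inl j) l (Sum.inl j')) *
      G (fun j' => update X (Sum.inl j) l (Sum.inr j'))) =
        (∑ j, ∑ l, A (X (Sum.inl j)) l * F (update (fun j' => X (Sum.inl j')) j l)) *
          G (fun j' => X (Sum.inr j')) := by
      rw [Finset.sum_mul]
      refine Finset.sum_congr rfl fun j _ => ?_
      rw [Finset.sum_mul]
      refine Finset.sum_congr rfl fun l _ => ?_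
      rw [h1, h3]
      ring
    rw [h6, h5, zero_mul]
  have e2 : ∑ j, ∑ l, A (X (Sum.inr j)) l * (F (fun j' => update X (Sum.inr j) l (Sum.inl j')) *
      G (fun j' => update X (Sum.inr j) l (Sum.inr j'))) = 0 := by
    have h5 := hG fun j => X (Sum.inr j)
    have h6 : ∑ j, ∑ l, A (X (Sum.inr j)) l * (F (fun j' => update X (Sum.inr j) l (Sum.inl j')) *
      G (fun j' => update X (Sum.inr j) l (Sum.inr j'))) =
        F (fun j' => X (Sum.inl j')) *
        (∑ j, ∑ l, A (X (Sum.inr j)) l * G (update (fun j' => X (Sum.inr j')) j l)) := by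
      rw [Finset.mul_sum]
      refine Finset.sum_congr rfl fun j _ => ?_
      rw [Finset.mul_sum]
      refine Finset.sum_congr rfl fun l _ => ?_
      rw [h2, h4]
      ring
    rw [h6, h5, mul_zero]
  rw [e1, e2, add_zero]

theorem Kl.perm {S S' : Type} [Fintype S] [DecidableEq S] [Fintype S'] [DecidableEq S']
    {F : (S → ι) → ℂ} (hF : Kl A F) (e : S ≃ S') : Kl A (fun X : S' → ι => F (fun j => X (e j))) := by
  intro X
  rw [← e.sum_comp]
  have h1 : ∀ j l, (fun j' => update X (e j) l (e j')) = update (fun j' => X (e j')) j l :=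
    fun j l => update_comp_eq_of_injective X e.injective j l
  simp only [h1]
  exact hF fun j => X (e j)

theorem Kl.prod {α S : Type} [Fintype α] [DecidableEq α] [Fintype S] [DecidableEq S]
    {F : α → (S → ι) → ℂ} (hF : ∀ i, Kl A (F i)) :
    Kl A (fun X : α × S → ι => ∏ i, F i (fun t => X (i, t))) := by
  intro X
  rw [Fintype.sum_prod_type]
  refine Finset.sum_eq_zero fun i _ => ?_
  have h1 : ∀ t l, (fun t' => update X (i, t) l (i, t')) = update (fun t' => X (i, t')) t l :=
    fun t l => update_comp_eq_of_injective X (Prod.mk_right_injective i) t l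
  have h2 : ∀ t l (i' : α), i' ≠ i → (fun t' => update X (i, t) l (i', t')) = fun t' => X (i', t') :=
    fun t l i' hi => funext fun t' => update_of_ne (fun h => hi (congrArg Prod.fst h)) _ _
  have h3 : ∀ t l, ∏ i', F i' (fun t' => update X (i, t) l (i', t')) =
      F i (update (fun t' => X (i, t')) t l) *
        ∏ i' ∈ Finset.univ.erase i, F i' (fun t' => X (i', t')) := by
    intro t l
    rw [← Finset.mul_prod_erase Finset.univ _ (Finset.mem_univ i), h1]
    congr 1
    exact Finset.prod_congr rfl fun i' hi' => by rw [h2 t l i' (Finset.ne_of_mem_erase hi')]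
  simp only [h3]
  have h4 := hF i fun t => X (i, t)
  have h5 : ∑ t, ∑ l, A (X (i, t)) l * (F i (update (fun t' => X (i, t')) t l) *
        ∏ i' ∈ Finset.univ.erase i, F i' (fun t' => X (i', t'))) =
      (∑ t, ∑ l, A (X (i, t)) l * F i (update (fun t' => X (i, t')) t l)) *
        ∏ i' ∈ Finset.univ.erase i, F i' (fun t' => X (i', t')) := by
    rw [Finset.sum_mul]
    refine Finset.sum_congr rfl fun t _ => ?_
    rw [Finset.sum_mul]
    exact Finset.sum_congr rfl fun l _ => by ring
  rw [h5, h4, zero_mul]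

theorem Kl.one {α : Type} [Fintype α] [DecidableEq α] {u : α → ι → ℂ}
    (hu : ∀ i x, ∑ l, A x l * u i l = 0) : Kl A (fun X : α → ι => ∏ i, u i (X i)) := by
  intro X
  refine Finset.sum_eq_zero fun i _ => ?_
  have h3 : ∀ l, ∏ i', u i' (update X i l i') = u i l * ∏ i' ∈ Finset.univ.erase i, u i' (X i') := by
    intro l
    rw [← Finset.mul_prod_erase Finset.univ _ (Finset.mem_univ i), update_self]
    congr 1
    exact Finset.prod_congr rfl fun i' hi' => by rw [update_of_ne (Finset.ne_of_mem_erase hi')]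
  simp only [h3]
  have h5 : ∑ l, A (X i) l * (u i l * ∏ i' ∈ Finset.univ.erase i, u i' (X i')) =
      (∑ l, A (X i) l * u i l) * ∏ i' ∈ Finset.univ.erase i, u i' (X i') := by
    rw [Finset.sum_mul]
    exact Finset.sum_congr rfl fun l _ => by ring
  rw [h5, hu, zero_mul]

end kl

variable {n s : ℕ} (T : Period n)

theorem trace_op : T.op.trace = 0 := by
  have h1 : T.op = (2 / hh T) • (vecMulVec T.ω (cM T.Q *ᵥ cj T.ω) -
    vecMulVec (cj T.ω) (cM T.Q *ᵥ T.ω)) := rfl
  rw [h1, trace_smul, trace_sub, trace_vecMulVec, trace_vecMulVec]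
  have h2 : T.ω ⬝ᵥ (cM T.Q *ᵥ cj T.ω) = cj T.ω ⬝ᵥ (cM T.Q *ᵥ T.ω) := bl_symm (cM_symm T) _ _
  rw [h2, sub_self, smul_zero]

theorem op_R : T.op * cM T.Q⁻¹ + cM T.Q⁻¹ * T.op.transpose = 0 := by
  have h1 : T.op.transpose * cM T.Q + cM T.Q * T.op = 0 := op_sk T
  have h2 : cM T.Q⁻¹ * cM T.Q = 1 := by
    have h3 : cM (T.Q⁻¹ * T.Q) = cM T.Q⁻¹ * cM T.Q :=
      Matrix.map_mul (f := algebraMap ℚ ℂ)
    rw [← h3, inv_Q]
    ext i j
    change (((1 : Matrix (Fin n) (Fin n) ℚ) i j : ℚ) : ℂ) = (1 : Matrix (Fin n) (Fin n) ℂ) i j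
    rw [Matrix.one_apply, Matrix.one_apply]
    split_ifs
    · exact Rat.cast_one
    · exact Rat.cast_zero
  have h3 : cM T.Q * cM T.Q⁻¹ = 1 := mul_eq_one_comm.1 h2
  calc T.op * cM T.Q⁻¹ + cM T.Q⁻¹ * T.op.transpose =
      cM T.Q⁻¹ * (T.op.transpose * cM T.Q + cM T.Q * T.op) * cM T.Q⁻¹ := by
        rw [mul_add, add_mul, ← mul_assoc, mul_assoc (cM T.Q⁻¹ * T.op.transpose), h3, mul_one,
          ← mul_assoc, h2, one_mul, add_comm]
    _ = 0 := by rw [h1, mul_zero, zero_mul]

theorem kl_pair : Kl (T.opX s) (fun X : Fin 2 → Fin s ⊕ Fin n =>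
    ((fromBlocks (0 : Matrix (Fin s) (Fin s) ℚ) 0 0 T.Q⁻¹ (X 0) (X 1) : ℚ) : ℂ)) := by
  intro X
  rw [Fin.sum_univ_two]
  have h1 : ∀ l, update X 0 l 0 = l := fun l => update_self _ _ _
  have h2 : ∀ l, update X 0 l 1 = X 1 := fun l => update_of_ne (by decide) _ _
  have h3 : ∀ l, update X 1 l 1 = l := fun l => update_self _ _ _
  have h4 : ∀ l, update X 1 l 0 = X 0 := fun l => update_of_ne (by decide) _ _
  simp only [h1, h2, h3, h4]
  rcases X 0 with a | a
  · rcases X 1 with b | b
    · simp [Period.opX, fromBlocks]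
    · simp [Period.opX, fromBlocks]
  · rcases X 1 with b | b
    · simp [Period.opX, fromBlocks]
    · rw [Fintype.sum_sum_type, Fintype.sum_sum_type]
      have e1 : ∑ l : Fin s, T.opX s (Sum.inr a) (Sum.inl l) *
          ((fromBlocks (0 : Matrix (Fin s) (Fin s) ℚ) 0 0 T.Q⁻¹ (Sum.inl l) (Sum.inr b) : ℚ) : ℂ) = 0 :=
        Finset.sum_eq_zero fun l _ => by
          have h5 : T.opX s (Sum.inr a) (Sum.inl l) = 0 := rfl
          rw [h5, zero_mul]
      have e2 : ∑ l : Fin s, T.opX s (Sum.inr b) (Sum.inl l) *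
          ((fromBlocks (0 : Matrix (Fin s) (Fin s) ℚ) 0 0 T.Q⁻¹ (Sum.inr a) (Sum.inl l) : ℚ) : ℂ) = 0 :=
        Finset.sum_eq_zero fun l _ => by
          have h5 : T.opX s (Sum.inr b) (Sum.inl l) = 0 := rfl
          rw [h5, zero_mul]
      rw [e1, e2, zero_add, zero_add]
      have h5 := congrFun (congrFun (op_R T) a) b
      rw [Matrix.add_apply, Matrix.mul_apply, Matrix.mul_apply] at h5
      refine Eq.trans ?_ h5
      congr 1
      refine Finset.sum_congr rfl fun l _ => ?_
      rw [mul_comm]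
      rfl

theorem kl_det : Kl (T.opX s) (fun X : Fin n → Fin s ⊕ Fin n =>
    (((of fun k l => if X k = Sum.inr l then (1 : ℚ) else 0).det : ℚ) : ℂ)) := by
  intro X
  have hc : ∀ X : Fin n → Fin s ⊕ Fin n,
      (((of fun k l => if X k = Sum.inr l then (1 : ℚ) else 0).det : ℚ) : ℂ) =
        (of fun k l => if X k = Sum.inr l then (1 : ℂ) else 0).det := by
    intro X
    have h1 := RingHom.map_det (algebraMap ℚ ℂ) (of fun k l => if X k = Sum.inr l then (1 : ℚ) else 0)
    refine h1.trans ?_
    congr 1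
    ext k l
    change algebraMap ℚ ℂ (if X k = Sum.inr l then (1 : ℚ) else 0) = if X k = Sum.inr l then (1 : ℂ) else 0
    split_ifs
    · exact map_one _
    · exact map_zero _
  simp only [hc]
  obtain ⟨M, hM⟩ : ∃ M : Matrix (Fin n) (Fin n) ℂ,
      M = of fun k l => if X k = Sum.inr l then (1 : ℂ) else 0 := ⟨_, rfl⟩
  have hu : ∀ (k : Fin n) (l : Fin s ⊕ Fin n),
      (of fun k' l' => if update X k l k' = Sum.inr l' then (1 : ℂ) else 0).det =
      (M.transpose.adjugate *ᵥ fun l' => if l = Sum.inr l' then 1 else 0) k := by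
    intro k l
    rw [← cramer_eq_adjugate_mulVec, cramer_transpose_apply]
    congr 1
    ext k' l'
    rw [of_apply]
    by_cases h : k' = k
    · subst h
      rw [update_self, updateRow_self]
    · rw [update_of_ne h, updateRow_ne h, hM, of_apply]
  simp only [hu]
  have h1 : ∀ k, ∑ l, T.opX s (X k) l *
      (M.transpose.adjugate *ᵥ fun l' => if l = Sum.inr l' then 1 else 0) k =
      ∑ l', M.transpose.adjugate k l' * (M * T.op) k l' := by
    intro k
    have h2 : ∀ l : Fin s ⊕ Fin n,
        (M.transpose.adjugate *ᵥ fun l' => if l = Sum.inr l' then (1 : ℂ) else 0) k =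
        ∑ l', M.transpose.adjugate k l' * if l = Sum.inr l' then 1 else 0 := fun l => rfl
    simp only [h2, Finset.mul_sum]
    rw [Finset.sum_comm]
    refine Finset.sum_congr rfl fun l' _ => ?_
    rw [Finset.sum_eq_single (Sum.inr l')]
    · rw [if_pos rfl, mul_one, mul_comm]
      congr 1
      rw [Matrix.mul_apply, hM]
      rcases h3 : X k with a | a
      · have h4 : T.opX s (Sum.inl a) (Sum.inr l') = 0 := rfl
        rw [h4]
        symm
        refine Finset.sum_eq_zero fun x _ => ?_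
        rw [of_apply, h3, if_neg Sum.inl_ne_inr, zero_mul]
      · rw [Finset.sum_eq_single a]
        · rw [of_apply, h3, if_pos rfl, one_mul]
          rfl
        · intro x _ hx
          rw [of_apply, h3, if_neg, zero_mul]
          intro h4
          exact hx (Sum.inr_injective h4).symm
        · intro h
          exact absurd (Finset.mem_univ _) h
    · intro l _ hl
      rw [if_neg hl, mul_zero, mul_zero]
    · intro h
      exact absurd (Finset.mem_univ _) h
  simp only [h1]
  have h2 : ∑ k, ∑ l', M.transpose.adjugate k l' * (M * T.op) k l' =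
      (M.transpose.adjugate * (M * T.op).transpose).trace := by
    rw [Matrix.trace]
    refine Finset.sum_congr rfl fun k _ => ?_
    rw [Matrix.diag_apply, Matrix.mul_apply]
    rfl
  rw [h2, transpose_mul, ← mul_assoc, trace_mul_comm, ← mul_assoc, mul_adjugate, smul_mul_assoc,
    one_mul, trace_smul, trace_transpose, trace_op, smul_zero]

theorem kl_standard {m a b c : ℕ} (e : Fin a ⊕ ((Fin b × Fin 2) ⊕ (Fin c × Fin n)) ≃ Fin m)
    (ν : Fin a → Fin s → ℚ) :
    Kl (T.opX s) (fun J : Fin m → Fin s ⊕ Fin n => ((standardClass T e ν J : ℚ) : ℂ)) := by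
  have h1 : Kl (T.opX s) (fun X : Fin a → Fin s ⊕ Fin n =>
      ∏ i, ((Sum.elim (ν i) (fun _ => 0) (X i) : ℚ) : ℂ)) := by
    refine Kl.one (u := fun i x => ((Sum.elim (ν i) (fun _ => 0) x : ℚ) : ℂ)) fun i x => ?_
    refine Finset.sum_eq_zero fun l _ => ?_
    rcases l with l | l
    · have h2 : T.opX s x (Sum.inl l) = 0 := by
        rcases x with x | x
        · rfl
        · rfl
      rw [h2, zero_mul]
    · rw [Sum.elim_inr, Rat.cast_zero, mul_zero]
  have h2 := Kl.prod (α := Fin b) fun _ => kl_pair (s := s) T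
  have h3 := Kl.prod (α := Fin c) fun _ => kl_det (s := s) T
  have h4 := (h1.mul (h2.mul h3)).perm e
  have h5 : (fun J : Fin m → Fin s ⊕ Fin n => ((standardClass T e ν J : ℚ) : ℂ)) =
      fun J : Fin m → Fin s ⊕ Fin n =>
      (∏ i, ((Sum.elim (ν i) (fun _ => 0) (J (e (Sum.inl i))) : ℚ) : ℂ)) *
      ((∏ i, ((fromBlocks (0 : Matrix (Fin s) (Fin s) ℚ) 0 0 T.Q⁻¹ (J (e (Sum.inr (Sum.inl (i, 0)))))
      (J (e (Sum.inr (Sum.inl (i, 1))))) : ℚ) : ℂ)) *
    ∏ i, (((of fun k l => if J (e (Sum.inr (Sum.inr (i, k)))) = Sum.inr l then (1 : ℚ)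
      else 0).det : ℚ) : ℂ)) := by
    funext J
    unfold standardClass
    rw [Rat.cast_mul, Rat.cast_mul, Rat.cast_prod, Rat.cast_prod, Rat.cast_prod]
  rw [h5]
  exact h4

variable {T} {v m : ℕ} {V : Coh v}

/-- **The products are Hodge classes.** -/
theorem standard_hodge {t : (Fin m → Fin s ⊕ Fin n) → Fin v → ℚ}
    (ht : t ∈ standardTimesHodge T s m V) : IsHodgeOnProduct T V t := by
  unfold standardTimesHodge at ht
  induction ht using Submodule.span_induction with
  | mem t ht =>
    obtain ⟨a, b, c, e, ν, y, -, hy, rfl⟩ := ht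
    intro J d
    have h1 := kl_standard T e ν J
    have h2 := congrFun hy d
    have h3 : ∑ c, V.z d c * ((y c : ℚ) : ℂ) = 0 := h2
    have h4 : ∑ j, ∑ l, T.opX s (J j) l * ((standardClass T e ν (update J j l) * y d : ℚ) : ℂ) =
        (∑ j, ∑ l, T.opX s (J j) l * ((standardClass T e ν (update J j l) : ℚ) : ℂ)) * ((y d : ℚ) : ℂ) := by
      rw [Finset.sum_mul]
      refine Finset.sum_congr rfl fun j _ => ?_
      rw [Finset.sum_mul]
      refine Finset.sum_congr rfl fun l _ => ?_
      rw [Rat.cast_mul]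
      ring
    have h5 : ∑ c, V.z d c * ((standardClass T e ν J * y c : ℚ) : ℂ) =
        ((standardClass T e ν J : ℚ) : ℂ) * ∑ c, V.z d c * ((y c : ℚ) : ℂ) := by
      rw [Finset.mul_sum]
      refine Finset.sum_congr rfl fun c _ => ?_
      rw [Rat.cast_mul]
      ring
    rw [h4, h5, h1, h3, zero_mul, mul_zero, add_zero]
  | zero =>
    intro J b
    simp
  | add x y _ _ hx hy =>
    intro J b
    have h1 := hx J b
    have h2 := hy J b
    simp only [Pi.add_apply, Rat.cast_add, mul_add, Finset.sum_add_distrib]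
    linear_combination h1 + h2
  | smul r x _ hx =>
    intro J b
    have h1 := hx J b
    simp only [Pi.smul_apply, smul_eq_mul, Rat.cast_mul]
    have h2 : ∀ (c x : ℂ), c * ((r : ℂ) * x) = (r : ℂ) * (c * x) := fun c x => by ring
    simp only [h2, ← Finset.mul_sum]
    rw [← mul_add, h1, mul_zero]

end

end Pool.Agent.X311.K3
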