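import Mathlib
import Pool.Agent.X311.Cy3
import Pool.Agent.X311.K3i
import Pool.Agent.X311.K3j

/-!
# Calabi-Yau varieties of odd dimension: the Hodge classes
-/

set_option autoImplicit false
set_option linter.unusedSectionVars false

namespace Pool.Agent.X311.CY

open Matrix Module Function Pool.Agent.TH131.GHC Pool.Agent.TH504.VY Pool.Agent.TH504.CB
  Pool.Agent.X311 Pool.Agent.TH125.Nod
open Pool.Agent.X311.K3 (bl bl_add_left bl_add_right bl_smul_left bl_smul_right bl_sub_left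
  bl_sub_right bl_zero_right Sk dv R2 ac cF aT aY aT_apply exists_list' adl_fst adl_snd HS cb
  cb_none cb_some cb_update ex ex_cb ex_not sum_ex exists_cb Kl)

noncomputable section

variable {n v : ℕ} {T : Period n}

section basic

theorem detM_ne : (cM T.Q).det ≠ 0 := by
  intro h0
  obtain ⟨y, hy0, hy⟩ := Matrix.exists_mulVec_eq_zero_iff.2 h0
  obtain ⟨a, -, ha⟩ := nondeg' (T := T) (W := ⊤) (fun _ _ => Submodule.mem_top)
    (fun _ _ => Submodule.mem_top) (Submodule.mem_top : y ∈ ⊤) hy0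
  apply ha
  rw [B_anti, B, bl, hy, dotProduct_zero, neg_zero]

theorem detQ_ne : T.Q.det ≠ 0 := by
  intro h
  apply detM_ne (T := T)
  have h1 : (cM T.Q).det = ((T.Q.det : ℚ) : ℂ) := (RingHom.map_det (algebraMap ℚ ℂ) T.Q).symm
  rw [h1, h, Rat.cast_zero]

theorem Q_inv : T.Q * T.Q⁻¹ = 1 := mul_nonsing_inv _ (isUnit_iff_ne_zero.2 detQ_ne)

theorem inv_Q : T.Q⁻¹ * T.Q = 1 := nonsing_inv_mul _ (isUnit_iff_ne_zero.2 detQ_ne)

theorem R_anti (a b : Fin n) : T.Q⁻¹ a b = -T.Q⁻¹ b a := by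
  have h1 : T.Q⁻¹.transpose = -T.Q⁻¹ := by
    rw [Matrix.transpose_nonsing_inv, T.alt]
    refine Matrix.inv_eq_left_inv ?_
    rw [neg_mul_neg, inv_Q]
  exact congrFun (congrFun h1 b) a

/-- a column of the inverse matrix -/
def cR (T : Period n) (u : Fin n) : Fin n → ℂ := fun i => ((T.Q⁻¹ i u : ℚ) : ℂ)

theorem mul_cR (u : Fin n) : cM T.Q *ᵥ cR T u = fun l => if l = u then 1 else 0 := by
  funext l
  have h1 : (T.Q * T.Q⁻¹) l u = if l = u then 1 else 0 := by
    rw [Q_inv, Matrix.one_apply]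
  rw [Matrix.mul_apply] at h1
  have h2 := congrArg (fun q : ℚ => (q : ℂ)) h1
  simp only [Rat.cast_sum, Rat.cast_mul] at h2
  have h3 : (cM T.Q *ᵥ cR T u) l = ∑ x, ((T.Q l x : ℚ) : ℂ) * ((T.Q⁻¹ x u : ℚ) : ℂ) := rfl
  rw [h3, h2]
  split_ifs
  · exact Rat.cast_one
  · exact Rat.cast_zero

theorem inv_M : cM T.Q⁻¹ * cM T.Q = 1 := by
  have h3 : cM (T.Q⁻¹ * T.Q) = cM T.Q⁻¹ * cM T.Q := Matrix.map_mul (f := algebraMap ℚ ℂ)
  rw [← h3, inv_Q]
  ext i j
  change (((1 : Matrix (Fin n) (Fin n) ℚ) i j : ℚ) : ℂ) = (1 : Matrix (Fin n) (Fin n) ℂ) i j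
  rw [Matrix.one_apply, Matrix.one_apply]
  split_ifs
  · exact Rat.cast_one
  · exact Rat.cast_zero

/-- skew matrices are combinations of symmetric products -/
theorem sk_mem {L : Submodule ℂ (Matrix (Fin n) (Fin n) ℂ)} (hL : ∀ a b, sT T a b ∈ L)
    {A : Matrix (Fin n) (Fin n) ℂ} (hA : Sk (cM T.Q) A) : A ∈ L := by
  have h1 : A.transpose * cM T.Q = -(cM T.Q * A) := eq_neg_of_add_eq_zero_left hA
  have h2 : A + A = ∑ j, sT T (A *ᵥ Pi.single j 1) (cR T j) := by
    have e1 : A = ∑ j, vecMulVec (A *ᵥ Pi.single j 1) (cM T.Q *ᵥ cR T j) := by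
      ext i k
      rw [Matrix.sum_apply, Finset.sum_eq_single k]
      · rw [vecMulVec_apply, mul_cR]
        beta_reduce
        rw [if_pos rfl, mul_one, mulVec_single_one]
        rfl
      · intro j _ hj
        rw [vecMulVec_apply, mul_cR]
        beta_reduce
        rw [if_neg (Ne.symm hj), mul_zero]
      · intro h
        exact absurd (Finset.mem_univ _) h
    have e2 : A = ∑ j, vecMulVec (cR T j) (cM T.Q *ᵥ (A *ᵥ Pi.single j 1)) := by
      have h3 : A = cM T.Q⁻¹ * (cM T.Q * A).transpose := by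
        rw [transpose_mul, cM_alt, mul_neg, h1, neg_neg, ← mul_assoc, inv_M, one_mul]
      ext i k
      conv_lhs => rw [h3]
      rw [Matrix.sum_apply, Matrix.mul_apply]
      refine Finset.sum_congr rfl fun j _ => ?_
      rw [vecMulVec_apply, mulVec_mulVec, mulVec_single_one]
      rfl
    calc A + A = ∑ j, vecMulVec (A *ᵥ Pi.single j 1) (cM T.Q *ᵥ cR T j) +
        ∑ j, vecMulVec (cR T j) (cM T.Q *ᵥ (A *ᵥ Pi.single j 1)) := by rw [← e1, ← e2]
      _ = _ := by
        rw [← Finset.sum_add_distrib]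
        rfl
  have h3 : A + A ∈ L := by
    rw [h2]
    exact L.sum_mem fun j _ => hL _ _
  rw [← two_smul ℂ] at h3
  have h4 := L.smul_mem (2 : ℂ)⁻¹ h3
  rwa [smul_smul, inv_mul_cancel₀ two_ne_zero, one_smul] at h4

end basic

section count

variable {K : Subfield ℂ} {D : ℕ} {i₀ : Fin n} (h0 : T.ω i₀ = 1) (p : Fin D → Fin n)
  {δ : Fin D → Derivation ℚ ℂ ℂ} (hδp : ∀ s i, δ s (T.ω (p i)) = if s = i then 1 else 0)

include h0 hδp in
theorem indep_der : LinearIndependent ℂ (fun s : Option (Fin D) =>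
    s.elim T.ω fun s => dv (δ s) T.ω) := by
  rw [Fintype.linearIndependent_iff]
  intro c hc
  rw [Fintype.sum_option] at hc
  have hd : ∀ s, dv (δ s) T.ω i₀ = 0 := by
    intro s
    change δ s (T.ω i₀) = 0
    rw [h0]
    exact (δ s).map_one_eq_zero
  have h1 : c none = 0 := by
    have h2 := congrFun hc i₀
    simp only [Option.elim, Pi.add_apply, Pi.smul_apply, Finset.sum_apply, hd, h0, smul_eq_mul,
      mul_zero, Finset.sum_const_zero, add_zero, mul_one, Pi.zero_apply] at h2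
    exact h2
  intro s
  rcases s with _ | s
  · exact h1
  · have h2 := congrFun hc (p s)
    have h3 : ∀ r, dv (δ r) T.ω (p s) = if r = s then 1 else 0 := fun r => hδp r s
    simp only [Option.elim, Pi.add_apply, Pi.smul_apply, Finset.sum_apply, h1, h3, smul_eq_mul,
      zero_mul, zero_add, mul_ite, mul_one, mul_zero, Finset.sum_ite_eq', Finset.mem_univ, if_true,
      Pi.zero_apply] at h2
    exact h2

include h0 hδp in
/-- There is a derivation which moves the period in a direction which is not orthogonal to it. -/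
theorem exists_delta (hδ : ∀ s, ∀ x ∈ K, δ s x = 0) (hD : n < 2 * D + 2) :
    ∃ δ' : Derivation ℚ ℂ ℂ, (∀ x ∈ K, δ' x = 0) ∧ B T T.ω (dv δ' T.ω) ≠ 0 := by
  classical
  by_contra hcon
  push Not at hcon
  have hder : ∀ (δ' : Derivation ℚ ℂ ℂ) (a b : Fin n → ℂ),
      δ' (B T a b) = B T (dv δ' a) b + B T a (dv δ' b) := by
    intro δ' a b
    have h : ∀ i, δ' (a i * (cM T.Q *ᵥ b) i) =
        dv δ' a i * (cM T.Q *ᵥ b) i + a i * (cM T.Q *ᵥ dv δ' b) i := by
      intro i
      have h1 : δ' ((cM T.Q *ᵥ b) i) = (cM T.Q *ᵥ dv δ' b) i := K3.der_mv δ' T.Q b i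
      rw [Derivation.leibniz, smul_eq_mul, smul_eq_mul, h1]
      change _ = δ' (a i) * _ + _
      ring
    change δ' (∑ i, a i * (cM T.Q *ᵥ b) i) = ∑ i, dv δ' a i * (cM T.Q *ᵥ b) i +
      ∑ i, a i * (cM T.Q *ᵥ dv δ' b) i
    rw [map_sum, ← Finset.sum_add_distrib]
    exact Finset.sum_congr rfl fun i _ => h i
  have hiso : ∀ s t, B T (dv (δ s) T.ω) (dv (δ t) T.ω) = 0 := by
    intro s t
    have h1 := hder (δ s) T.ω (dv (δ t) T.ω)
    have h2 := hder (δ t) T.ω (dv (δ s) T.ω)
    rw [hcon _ (hδ t), map_zero] at h1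
    rw [hcon _ (hδ s), map_zero] at h2
    have h3 : ∀ x ∈ K, ⁅δ s, δ t⁆ x = 0 := by
      intro x hx
      rw [Derivation.commutator_apply, hδ t x hx, hδ s x hx, map_zero, map_zero, sub_zero]
    have h4 := hcon _ h3
    have h5 : dv ⁅δ s, δ t⁆ T.ω = dv (δ s) (dv (δ t) T.ω) - dv (δ t) (dv (δ s) T.ω) := by
      funext i
      exact Derivation.commutator_apply (D1 := δ s) (D2 := δ t) (a := T.ω i)
    rw [h5, B, bl_sub_right] at h4
    have h6 := B_anti T (dv (δ t) T.ω) (dv (δ s) T.ω)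
    have e1 : bl (cM T.Q) T.ω (dv (δ s) (dv (δ t) T.ω)) = B T T.ω (dv (δ s) (dv (δ t) T.ω)) := rfl
    have e2 : bl (cM T.Q) T.ω (dv (δ t) (dv (δ s) T.ω)) = B T T.ω (dv (δ t) (dv (δ s) T.ω)) := rfl
    rw [e1, e2] at h4
    have h7 : 2 * B T (dv (δ s) T.ω) (dv (δ t) T.ω) = 0 := by
      linear_combination h2 - h1 - h4 + h6
    exact (mul_eq_zero.1 h7).resolve_left two_ne_zero
  let w : Option (Fin D) → (Fin n → ℂ) := fun s => s.elim T.ω fun s => dv (δ s) T.ω
  have hw : ∀ s t, B T (w s) (w t) = 0 := by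
    intro s t
    rcases s with _ | s
    · rcases t with _ | t
      · exact B_self T _
      · exact hcon _ (hδ t)
    · rcases t with _ | t
      · change B T (dv (δ s) T.ω) T.ω = 0
        rw [B_anti, hcon _ (hδ s), neg_zero]
      · exact hiso s t
  let f : LinearMap.BilinForm ℂ (Fin n → ℂ) := Matrix.toBilin' (cM T.Q)
  have hf : ∀ a b, f a b = B T a b := fun a b => by
    rw [B, bl]
    exact Matrix.toBilin'_apply' _ _ _
  have hnd : f.Nondegenerate := by
    exact Matrix.nondegenerate_toBilin'_iff.2 (Matrix.nondegenerate_of_det_ne_zero (detM_ne (T := T)))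
  have hrefl : f.IsRefl := by
    intro a b hab
    rw [hf] at hab ⊢
    rw [B_anti, hab, neg_zero]
  let W : Submodule ℂ (Fin n → ℂ) := Submodule.span ℂ (Set.range w)
  have hW : ∀ a ∈ W, ∀ b ∈ W, B T a b = 0 := by
    intro a ha b hb
    induction ha using Submodule.span_induction with
    | mem a ha =>
      obtain ⟨s, rfl⟩ := ha
      induction hb using Submodule.span_induction with
      | mem b hb =>
        obtain ⟨t, rfl⟩ := hb
        exact hw s t
      | zero => exact bl_zero_right _ _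
      | add x y _ _ hx hy =>
        have e1 : bl (cM T.Q) (w s) x = 0 := hx
        have e2 : bl (cM T.Q) (w s) y = 0 := hy
        rw [B, bl_add_right, e1, e2, add_zero]
      | smul c x _ hx =>
        have e1 : bl (cM T.Q) (w s) x = 0 := hx
        rw [B, bl_smul_right, e1, mul_zero]
    | zero =>
      have h1 := bl_smul_left (cM T.Q) 0 (0 : Fin n → ℂ) b
      rwa [zero_smul, zero_mul] at h1
    | add x y _ _ hx hy =>
      have e1 : bl (cM T.Q) x b = 0 := hx
      have e2 : bl (cM T.Q) y b = 0 := hy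
      rw [B, bl_add_left, e1, e2, add_zero]
    | smul c x _ hx =>
      have e1 : bl (cM T.Q) x b = 0 := hx
      rw [B, bl_smul_left, e1, mul_zero]
  have hle : W ≤ f.orthogonal W := by
    intro a ha
    rw [LinearMap.BilinForm.mem_orthogonal_iff]
    intro b hb
    exact (hf b a).trans (hW b hb a ha)
  have h3 := LinearMap.BilinForm.finrank_orthogonal hnd W
  have h4 := Submodule.finrank_mono hle
  have h5 : finrank ℂ W = Fintype.card (Option (Fin D)) :=
    finrank_span_eq_card (indep_der h0 p hδp)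
  rw [Fintype.card_option, Fintype.card_fin] at h5
  rw [Module.finrank_fintype_fun_eq_card, Fintype.card_fin] at h3
  have h6 : finrank ℂ W ≤ n := by
    have h7 := Submodule.finrank_le W
    rwa [Module.finrank_fintype_fun_eq_card, Fintype.card_fin] at h7
  omega

end count

section main

variable {P : Type} [Fintype P] [DecidableEq P] {V : Coh v} {f : (P → Fin n) → Fin v → ℚ}
  {K : Subfield ℂ} (hV : IsOfCMType V ∨ HasFiltrationOver K V)
  (hz : ((T.z, V.z) : R2 n v) ∈ NN T.Q f)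

include hV hz in
/-- All skew matrices kill the class. -/
theorem sT_mem {D : ℕ} {i₀ : Fin n} (h0 : T.ω i₀ = 1) (p : Fin D → Fin n)
    (hp : AlgebraicIndependent K fun i => T.ω (p i)) (hD : n < 2 * D + 2) (a b : Fin n → ℂ) :
    sT T a b ∈ LL T.Q f := by
  classical
  have hn : 0 < n := i₀.pos
  have hex : ∀ s : Fin D, ∃ δ : Derivation ℚ ℂ ℂ, (∀ x ∈ K, δ x = 0) ∧
      ∀ i, δ (T.ω (p i)) = if s = i then 1 else 0 := by
    intro s
    obtain ⟨δ, h1, h2⟩ := exists_derivationK hp (fun i => if s = i then 1 else 0)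
    exact ⟨δ, fun x hx => h1 ⟨x, hx⟩, h2⟩
  choose δ hδ hδp using hex
  obtain ⟨δ', hδ', hB⟩ := exists_delta h0 p hδp hδ hD
  have hgood : Good T (LL T.Q f) :=
    { skew := fun A hA => (mem_LL.1 hA).1
      br := by
        intro A hA C hC
        have h1 := NN_br (mem_LL.1 hA) (mem_LL.1 hC)
        rw [mem_LL]
        have h2 : ((A, (0 : Matrix (Fin v) (Fin v) ℂ)) * (C, 0) - (C, 0) * (A, 0) : R2 n v) =
            (A * C - C * A, 0) := by
          refine Prod.ext rfl ?_
          change (0 : Matrix (Fin v) (Fin v) ℂ) * 0 - 0 * 0 = 0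
          rw [mul_zero, sub_zero]
        rwa [h2] at h1
      phi := by
        intro φ A hA
        have h1 := NN_phi φ (mem_LL.1 hA)
        rw [mem_LL]
        have h2 : ((A.map φ, (0 : Matrix (Fin v) (Fin v) ℂ).map φ) : R2 n v) = (A.map φ, 0) := by
          refine Prod.ext rfl ?_
          ext i j
          exact map_zero φ
        rwa [h2] at h1
      adz := by
        intro A hA
        have h1 := NN_br hz (mem_LL.1 hA)
        rw [mem_LL]
        have h2 : ((T.z, V.z) * (A, 0) - (A, 0) * (T.z, V.z) : R2 n v) = (T.z * A - A * T.z, 0) := by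
          refine Prod.ext rfl ?_
          change V.z * 0 - 0 * V.z = 0
          rw [mul_zero, zero_mul, sub_zero]
        rwa [h2] at h1
      pp := pp_mem hV hz hn δ' hδ' hB }
  refine all_mem hgood hn ?_ a b
  let w : Option (Fin D) → WW T (LL T.Q f) := fun s =>
    ⟨s.elim T.ω fun s => dv (δ s) T.ω, by
      rcases s with _ | s
      · exact o_mem hgood
      · exact der_mem hgood _⟩
  have h1 : LinearIndependent ℂ w :=
    LinearIndependent.of_comp (WW T (LL T.Q f)).subtype (indep_der h0 p hδp)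
  have h2 := h1.fintype_card_le_finrank
  rw [Fintype.card_option, Fintype.card_fin] at h2
  omega

include hz in
/-- The values are Hodge classes of the variety. -/
theorem hodge_val (hall : ∀ a b, sT T a b ∈ LL T.Q f) (J : P → Fin n) : IsHodgeOn V (f J) := by
  have h1 : T.z ∈ LL T.Q f := sk_mem hall T.skew
  have h2 := Submodule.sub_mem _ hz (mem_LL.1 h1)
  have h3 : ((T.z, V.z) - (T.z, 0) : R2 n v) = (0, V.z) := by
    refine Prod.ext ?_ ?_
    · exact sub_self _
    · exact sub_zero _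
  rw [h3] at h2
  have h4 := congrFun h2.2 J
  have h5 : ac ((0, V.z) : R2 n v) (cF f) J = V.z *ᵥ cF f J := by
    unfold ac
    have h6 : aT (0 : Matrix (Fin n) (Fin n) ℂ) (cF f) = 0 := by
      have h := K3.aT_smul 0 (0 : Matrix (Fin n) (Fin n) ℂ) (cF f)
      rwa [zero_smul, zero_smul] at h
    change (aT (0 : Matrix (Fin n) (Fin n) ℂ) (cF f) + aY V.z (cF f)) J = _
    rw [h6, zero_add]
    rfl
  rw [h5] at h4
  exact h4

omit hz in
theorem inv_of (h : ∀ a b, sT T a b ∈ LL T.Q f) :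
    Inv (fun _ : Fin n => ()) T.Q⁻¹ (fun _ => (((-1 : ℤ)) : ℚ)) f := by
  intro u w _ J
  funext c
  have h1 := congrFun (congrFun (mem_LL.1 (h (cR T w) (cR T u))).2 J) c
  unfold ac at h1
  have h2 : aY (0 : Matrix (Fin v) (Fin v) ℂ) (cF f) = 0 := by
    have h := K3.aY_smul 0 (0 : Matrix (Fin v) (Fin v) ℂ) (cF f)
    rwa [zero_smul, zero_smul] at h
  change (aT (sT T (cR T w) (cR T u)) (cF f) + aY (0 : Matrix (Fin v) (Fin v) ℂ) (cF f)) J c = 0 at h1
  rw [h2, add_zero, aT_apply] at h1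
  have h3 : ∀ i l, sT T (cR T w) (cR T u) i l = cR T w i * (if l = u then 1 else 0) +
      cR T u i * (if l = w then 1 else 0) := by
    intro i l
    have h4 : sT T (cR T w) (cR T u) i l = cR T w i * (cM T.Q *ᵥ cR T u) l +
      cR T u i * (cM T.Q *ᵥ cR T w) l := rfl
    rw [h4, mul_cR, mul_cR]
  have h4 : ∀ p, ∑ l, sT T (cR T w) (cR T u) (J p) l * cF f (update J p l) c =
      ((-(T.Q⁻¹ w (J p) * f (update J p u) c + T.Q⁻¹ u (J p) * f (update J p w) c) : ℚ) : ℂ) := by
    intro p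
    simp only [h3, add_mul, Finset.sum_add_distrib, mul_ite, mul_one, mul_zero, ite_mul, zero_mul,
      Finset.sum_ite_eq', Finset.mem_univ, if_true]
    rw [Rat.cast_neg, Rat.cast_add, Rat.cast_mul, Rat.cast_mul, R_anti w, R_anti u, Rat.cast_neg,
      Rat.cast_neg]
    change ((T.Q⁻¹ (J p) w : ℚ) : ℂ) * ((f (update J p u) c : ℚ) : ℂ) +
      ((T.Q⁻¹ (J p) u : ℚ) : ℂ) * ((f (update J p w) c : ℚ) : ℂ) = _
    ring
  simp only [h4] at h1
  rw [← Rat.cast_sum] at h1
  have h5 : ∑ p, -(T.Q⁻¹ w (J p) * f (update J p u) c + T.Q⁻¹ u (J p) * f (update J p w) c) = 0 := by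
    exact_mod_cast h1
  rw [Finset.sum_neg_distrib, neg_eq_zero] at h5
  rw [Finset.sum_apply, Pi.zero_apply]
  rw [← h5]
  refine Finset.sum_congr rfl fun p _ => ?_
  rw [Int.cast_neg, Int.cast_one, neg_one_mul, neg_smul, sub_neg_eq_add]
  rfl

/-- The Hodge condition. -/
theorem mem_NN_of (hf : ∀ J b, ∑ j, ∑ l, T.z (J j) l * ((f (update J j l) b : ℚ) : ℂ) +
    ∑ c, V.z b c * ((f J c : ℚ) : ℂ) = 0) : ((T.z, V.z) : R2 n v) ∈ NN T.Q f := by
  refine ⟨T.skew, ?_⟩
  funext J b
  unfold ac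
  rw [Pi.add_apply, Pi.add_apply, aT_apply]
  exact hf J b

include hV in
/-- **Hodge classes with middle components** are combinations of products of forms and Hodge classes. -/
theorem pure_mem (hf : ∀ J b, ∑ j, ∑ l, T.z (J j) l * ((f (update J j l) b : ℚ) : ℂ) +
    ∑ c, V.z b c * ((f J c : ℚ) : ℂ) = 0) {D : ℕ} {i₀ : Fin n} (h0 : T.ω i₀ = 1) (p : Fin D → Fin n)
    (hp : AlgebraicIndependent K fun i => T.ω (p i)) (hD : n < 2 * D + 2) :
    ∃ g : (P → Fin n) → HS V, g ∈ Gen (fun _ : Fin n => ()) T.Q⁻¹ (fun _ : P => ()) ∧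
      ∀ J, (g J : Fin v → ℚ) = f J := by
  have hz := mem_NN_of hf
  have hall := sT_mem hV hz h0 p hp hD
  have h1 := inv_of hall
  refine ⟨fun J => ⟨f J, hodge_val hz hall J⟩, ?_, fun J => rfl⟩
  refine fft (κ := fun _ : Fin n => ()) (Q := T.Q⁻¹) (R := T.Q) (s := fun _ => -1)
    (fun _ => Or.inr rfl) (fun a b h => absurd rfl h) (fun a b => ?_) inv_Q _ P _ _ rfl ?_ ?_ ?_
  · rw [Int.cast_neg, Int.cast_one, neg_one_mul]
    exact R_anti a b
  · intro J hJ
    exact absurd (fun _ => rfl) hJ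
  · intro u w huw J
    refine (HS V).subtype_injective ?_
    rw [map_sum, map_zero]
    exact h1 u w huw J
  · intro i hi
    exact absurd hi (by decide)

end main

end

end Pool.Agent.X311.CY
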