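import Mathlib
import Pool.Agent.X311.Cy4

/-!
# Calabi-Yau varieties of odd dimension: all Hodge classes on the products
-/

set_option autoImplicit false
set_option linter.unusedSectionVars false

namespace Pool.Agent.X311.CY

open Matrix Module Function Pool.Agent.TH131.GHC Pool.Agent.TH504.VY Pool.Agent.TH125.Nod
  Pool.Agent.X311
open Pool.Agent.X311.K3 (HS cb cb_none cb_some cb_update ex ex_cb ex_not sum_ex exists_cb Kl)

noncomputable section

variable {n s m v : ℕ} {T : Period n} {V : Coh v} {q : Fin m → Option (Fin s)}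

/-- The Hodge condition on the slices. -/
theorem slice_hodge {t : (Fin m → Fin s ⊕ Fin n) → Fin v → ℚ} (ht : IsHodgeOnProduct T V t)
    (q : Fin m → Option (Fin s)) (J : {j // q j = none} → Fin n) (b : Fin v) :
    ∑ j, ∑ l, T.z (J j) l * ((t (cb q (update J j l)) b : ℚ) : ℂ) +
      ∑ c, V.z b c * ((t (cb q J) c : ℚ) : ℂ) = 0 := by
  have h1 := ht (cb q J) b
  rw [← h1]
  congr 1
  have h2 : ∀ j : Fin m, ¬ q j = none → ∑ l, T.zX s (cb q J j) l *
      ((t (update (cb q J) j l) b : ℚ) : ℂ) = 0 := by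
    intro j hj
    refine Finset.sum_eq_zero fun l _ => ?_
    have h3 := cb_some J ⟨j, hj⟩
    change cb q J j = _ at h3
    have h4 : T.zX s (cb q J j) l = 0 := by
      rw [h3]
      rcases l with l | l
      · rfl
      · rfl
    rw [h4, zero_mul]
  have h3 : ∑ j, ∑ l, T.zX s (cb q J j) l * ((t (update (cb q J) j l) b : ℚ) : ℂ) =
      ∑ j ∈ Finset.univ.filter (fun j => q j = none),
        ∑ l, T.zX s (cb q J j) l * ((t (update (cb q J) j l) b : ℚ) : ℂ) := by
    symm
    refine Finset.sum_subset (Finset.filter_subset _ _) fun j _ hj => h2 j fun h => hj ?_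
    exact Finset.mem_filter.2 ⟨Finset.mem_univ _, h⟩
  rw [h3, Finset.sum_subtype (p := fun j => q j = none) _ (by simp)]
  refine Finset.sum_congr rfl fun j _ => ?_
  rw [cb_none, Fintype.sum_sum_type]
  have h4 : ∑ l : Fin s, T.zX s (Sum.inr (J j)) (Sum.inl l) *
      ((t (update (cb q J) j.1 (Sum.inl l)) b : ℚ) : ℂ) = 0 := by
    refine Finset.sum_eq_zero fun l _ => ?_
    have h5 : T.zX s (Sum.inr (J j)) (Sum.inl l) = 0 := rfl
    rw [h5, zero_mul]
  rw [h4, zero_add]
  refine Finset.sum_congr rfl fun l _ => ?_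
  rw [cb_update]
  rfl

/-- the generators -/
theorem ex_gen {b : ℕ} (e : Fin b × Fin 2 ≃ {j // q j = none}) (w : HS V) :
    ex V q (fun J => (∏ i, T.Q⁻¹ (J (e (i, 0))) (J (e (i, 1)))) • w) ∈
      standardTimesHodge T s m V := by
  classical
  let ea : Fin (Fintype.card {j // ¬ q j = none}) ≃ {j // ¬ q j = none} :=
    (Fintype.equivFin _).symm
  let e' : Fin (Fintype.card {j // ¬ q j = none}) ⊕ (Fin b × Fin 2) ≃ Fin m :=
    (ea.sumCongr e).trans ((Equiv.sumComm _ _).trans (Equiv.sumCompl (fun j => q j = none)))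
  have he1 : ∀ i, e' (Sum.inl i) = (ea i).1 := fun i => rfl
  have he2 : ∀ x, e' (Sum.inr x) = (e x).1 := fun x => rfl
  let ν : Fin (Fintype.card {j // ¬ q j = none}) → Fin s → ℚ := fun i =>
    Pi.single ((q (ea i).1).get (Option.isSome_iff_ne_none.2 (ea i).2)) 1
  refine Submodule.subset_span ⟨_, b, e', ν, w.1, w.2, ?_⟩
  funext J d
  by_cases hJ : ∃ y, J = cb q y
  · obtain ⟨y, rfl⟩ := hJ
    rw [ex_cb]
    have h1 : ∏ i, Sum.elim (ν i) (fun _ => 0) (cb q y (e' (Sum.inl i))) = 1 := by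
      refine Finset.prod_eq_one fun i _ => ?_
      rw [he1, cb_some, Sum.elim_inl]
      exact Pi.single_eq_same _ _
    have h2 : ∏ i, fromBlocks (0 : Matrix (Fin s) (Fin s) ℚ) 0 0 T.Q⁻¹
        (cb q y (e' (Sum.inr (i, 0)))) (cb q y (e' (Sum.inr (i, 1)))) =
        ∏ i, T.Q⁻¹ (y (e (i, 0))) (y (e (i, 1))) := by
      refine Finset.prod_congr rfl fun i _ => ?_
      rw [he2, he2, cb_none, cb_none]
      rfl
    unfold standardClass
    rw [h1, h2, one_mul]
    rfl
  · rw [ex_not _ hJ]
    have h1 : standardClass T e' ν J = 0 := by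
      by_contra hne
      apply hJ
      unfold standardClass at hne
      obtain ⟨n1, n2⟩ := mul_ne_zero_iff.1 hne
      refine exists_cb J q ?_ ?_
      · intro j
        have h2 : j.1 = e' (Sum.inr (e.symm j)) := by rw [he2, Equiv.apply_symm_apply]
        rw [h2]
        obtain ⟨i, x⟩ := e.symm j
        have h3 := Finset.prod_ne_zero_iff.1 n2 i (Finset.mem_univ _)
        rcases h4 : J (e' (Sum.inr (i, 0))) with a | a
        · exfalso
          apply h3
          rw [h4]
          rcases J (e' (Sum.inr (i, 1))) with a' | a'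
          · rfl
          · rfl
        · rcases h5 : J (e' (Sum.inr (i, 1))) with a' | a'
          · exfalso
            apply h3
            rw [h4, h5]
            rfl
          · fin_cases x
            · exact ⟨a, h4⟩
            · exact ⟨a', h5⟩
      · intro j
        have h2 : j.1 = e' (Sum.inl (ea.symm j)) := by rw [he1, Equiv.apply_symm_apply]
        have h3 := Finset.prod_ne_zero_iff.1 n1 (ea.symm j) (Finset.mem_univ _)
        rw [← h2] at h3
        rcases h4 : J j.1 with a | a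
        · rw [h4, Sum.elim_inl] at h3
          have h5 : ν (ea.symm j) = Pi.single ((q j.1).get (Option.isSome_iff_ne_none.2 j.2)) 1 := by
            change Pi.single ((q (ea (ea.symm j)).1).get _) 1 = _
            congr 2
            rw [Equiv.apply_symm_apply]
          rw [h5] at h3
          congr 1
          by_contra h6
          exact h3 (Pi.single_eq_of_ne h6 _)
        · rw [h4, Sum.elim_inr] at h3
          exact absurd rfl h3
    rw [h1, zero_mul]

/-- **Hodge classes are combinations of products.** -/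
theorem mem_standard {K : Subfield ℂ} (hV : IsOfCMType V ∨ HasFiltrationOver K V) {D : ℕ}
    {i₀ : Fin n} (h0 : T.ω i₀ = 1) (p : Fin D → Fin n)
    (hp : AlgebraicIndependent K fun i => T.ω (p i)) (hD : n < 2 * D + 2)
    {t : (Fin m → Fin s ⊕ Fin n) → Fin v → ℚ} (ht : IsHodgeOnProduct T V t) :
    t ∈ standardTimesHodge T s m V := by
  have hex : ∀ q : Fin m → Option (Fin s), ∃ g : ({j // q j = none} → Fin n) → HS V,
      g ∈ Gen (fun _ : Fin n => ()) T.Q⁻¹ (fun _ : {j // q j = none} => ()) ∧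
        ∀ J, (g J : Fin v → ℚ) = t (cb q J) :=
    fun q => pure_mem hV (f := fun J => t (cb q J)) (slice_hodge ht q) h0 p hp hD
  choose g hg hgt using hex
  rw [sum_ex g hgt]
  refine Submodule.sum_mem _ fun q _ => ?_
  have h1 : (Gen (fun _ : Fin n => ()) T.Q⁻¹ (fun _ : {j // q j = none} => ()) :
      Submodule ℚ (({j // q j = none} → Fin n) → HS V)) ≤
      (standardTimesHodge T s m V).comap (ex V q) := by
    refine Submodule.span_le.2 ?_
    rintro _ ⟨b, e, w, rfl⟩
    have h2 := ex_gen (T := T) (s := s) e w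
    have h3 : (gen (fun _ : Fin n => ()) T.Q⁻¹ (fun _ : {j // q j = none} => ()) e w) =
        fun J => (∏ i, T.Q⁻¹ (J (e (i, 0))) (J (e (i, 1)))) • w := by
      funext J
      unfold gen
      rw [if_pos fun _ => rfl]
    rw [SetLike.mem_coe, Submodule.mem_comap, h3]
    exact h2
  exact h1 (hg q)

section converse

variable (T)

theorem z_R : T.z * cM T.Q⁻¹ + cM T.Q⁻¹ * T.z.transpose = 0 := by
  have h1 : T.z.transpose * cM T.Q + cM T.Q * T.z = 0 := T.skew
  have h2 : cM T.Q⁻¹ * cM T.Q = 1 := inv_M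
  have h3 : cM T.Q * cM T.Q⁻¹ = 1 := mul_eq_one_comm.1 h2
  calc T.z * cM T.Q⁻¹ + cM T.Q⁻¹ * T.z.transpose =
      cM T.Q⁻¹ * (T.z.transpose * cM T.Q + cM T.Q * T.z) * cM T.Q⁻¹ := by
        rw [mul_add, add_mul, ← mul_assoc, mul_assoc (cM T.Q⁻¹ * T.z.transpose), h3, mul_one,
          ← mul_assoc, h2, one_mul, add_comm]
    _ = 0 := by rw [h1, mul_zero, zero_mul]

theorem kl_pair : Kl (T.zX s) (fun X : Fin 2 → Fin s ⊕ Fin n =>
    ((fromBlocks (0 : Matrix (Fin s) (Fin s) ℚ) 0 0 T.Q⁻¹ (X 0) (X 1) : ℚ) : ℂ)) := by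
  intro X
  rw [Fin.sum_univ_two]
  have h1 : ∀ l, update X 0 l 0 = l := fun l => update_self _ _ _
  have h2 : ∀ l, update X 0 l 1 = X 1 := fun l => update_of_ne (by decide) _ _
  have h3 : ∀ l, update X 1 l 1 = l := fun l => update_self _ _ _
  have h4 : ∀ l, update X 1 l 0 = X 0 := fun l => update_of_ne (by decide) _ _
  simp only [h1, h2, h3, h4]
  rcases X 0 with a | a
  · rcases X 1 with b | b
    · simp [Period.zX, fromBlocks]
    · simp [Period.zX, fromBlocks]
  · rcases X 1 with b | b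
    · simp [Period.zX, fromBlocks]
    · rw [Fintype.sum_sum_type, Fintype.sum_sum_type]
      have e1 : ∑ l : Fin s, T.zX s (Sum.inr a) (Sum.inl l) *
          ((fromBlocks (0 : Matrix (Fin s) (Fin s) ℚ) 0 0 T.Q⁻¹ (Sum.inl l) (Sum.inr b) : ℚ) : ℂ) = 0 :=
        Finset.sum_eq_zero fun l _ => by
          have h5 : T.zX s (Sum.inr a) (Sum.inl l) = 0 := rfl
          rw [h5, zero_mul]
      have e2 : ∑ l : Fin s, T.zX s (Sum.inr b) (Sum.inl l) *
          ((fromBlocks (0 : Matrix (Fin s) (Fin s) ℚ) 0 0 T.Q⁻¹ (Sum.inr a) (Sum.inl l) : ℚ) : ℂ) = 0 :=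
        Finset.sum_eq_zero fun l _ => by
          have h5 : T.zX s (Sum.inr b) (Sum.inl l) = 0 := rfl
          rw [h5, zero_mul]
      rw [e1, e2, zero_add, zero_add]
      have h5 := congrFun (congrFun (z_R T) a) b
      rw [Matrix.add_apply, Matrix.mul_apply, Matrix.mul_apply] at h5
      refine Eq.trans ?_ h5
      congr 1
      refine Finset.sum_congr rfl fun l _ => ?_
      rw [mul_comm]
      rfl

theorem kl_standard {a b : ℕ} (e : Fin a ⊕ (Fin b × Fin 2) ≃ Fin m) (ν : Fin a → Fin s → ℚ) :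
    Kl (T.zX s) (fun J : Fin m → Fin s ⊕ Fin n => ((standardClass T e ν J : ℚ) : ℂ)) := by
  have h1 : Kl (T.zX s) (fun X : Fin a → Fin s ⊕ Fin n =>
      ∏ i, ((Sum.elim (ν i) (fun _ => 0) (X i) : ℚ) : ℂ)) := by
    refine Kl.one (u := fun i x => ((Sum.elim (ν i) (fun _ => 0) x : ℚ) : ℂ)) fun i x => ?_
    refine Finset.sum_eq_zero fun l _ => ?_
    rcases l with l | l
    · have h2 : T.zX s x (Sum.inl l) = 0 := by
        rcases x with x | x
        · rfl
        · rfl
      rw [h2, zero_mul]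
    · rw [Sum.elim_inr, Rat.cast_zero, mul_zero]
  have h2 := Kl.prod (α := Fin b) fun _ => kl_pair (s := s) T
  have h4 := (h1.mul h2).perm e
  have h5 : (fun J : Fin m → Fin s ⊕ Fin n => ((standardClass T e ν J : ℚ) : ℂ)) =
      fun J : Fin m → Fin s ⊕ Fin n =>
      (∏ i, ((Sum.elim (ν i) (fun _ => 0) (J (e (Sum.inl i))) : ℚ) : ℂ)) *
      ∏ i, ((fromBlocks (0 : Matrix (Fin s) (Fin s) ℚ) 0 0 T.Q⁻¹ (J (e (Sum.inr (i, 0))))
      (J (e (Sum.inr (i, 1)))) : ℚ) : ℂ) := by
    funext J
    unfold standardClass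
    rw [Rat.cast_mul, Rat.cast_prod, Rat.cast_prod]
  rw [h5]
  exact h4

variable {T}

/-- **The products are Hodge classes.** -/
theorem standard_hodge {t : (Fin m → Fin s ⊕ Fin n) → Fin v → ℚ}
    (ht : t ∈ standardTimesHodge T s m V) : IsHodgeOnProduct T V t := by
  unfold standardTimesHodge at ht
  induction ht using Submodule.span_induction with
  | mem t ht =>
    obtain ⟨a, b, e, ν, y, hy, rfl⟩ := ht
    intro J d
    have h1 := kl_standard T e ν J
    have h2 := congrFun hy d
    have h3 : ∑ c, V.z d c * ((y c : ℚ) : ℂ) = 0 := h2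
    have h4 : ∑ j, ∑ l, T.zX s (J j) l * ((standardClass T e ν (update J j l) * y d : ℚ) : ℂ) =
        (∑ j, ∑ l, T.zX s (J j) l * ((standardClass T e ν (update J j l) : ℚ) : ℂ)) * ((y d : ℚ) : ℂ) := by
      rw [Finset.sum_mul]
      refine Finset.sum_congr rfl fun j _ => ?_
      rw [Finset.sum_mul]
      refine Finset.sum_congr rfl fun l _ => ?_
      rw [Rat.cast_mul]
      ring
    have h5 : ∑ c, V.z d c * ((standardClass T e ν J * y c : ℚ) : ℂ) =
        ((standardClass T e ν J : ℚ) : ℂ) * ∑ c, V.z d c * ((y c : ℚ) : ℂ) := by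
      rw [Finset.mul_sum]
      refine Finset.sum_congr rfl fun c _ => ?_
      rw [Rat.cast_mul]
      ring
    rw [h4, h5, h1, h3, zero_mul, mul_zero, add_zero]
  | zero =>
    intro J b
    simp
  | add x y _ _ hx hy =>
    intro J b
    have h1 := hx J b
    have h2 := hy J b
    simp only [Pi.add_apply, Rat.cast_add, mul_add, Finset.sum_add_distrib]
    linear_combination h1 + h2
  | smul r x _ hx =>
    intro J b
    have h1 := hx J b
    simp only [Pi.smul_apply, smul_eq_mul, Rat.cast_mul]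
    have h2 : ∀ (c x : ℂ), c * ((r : ℂ) * x) = (r : ℂ) * (c * x) := fun c x => by ring
    simp only [h2, ← Finset.mul_sum]
    rw [← mul_add, h1, mul_zero]

end converse

/-- **Main theorem.** -/
theorem hodge_iff {K : Subfield ℂ} (hV : IsOfCMType V ∨ HasFiltrationOver K V) {D : ℕ}
    {i₀ : Fin n} (h0 : T.ω i₀ = 1) (p : Fin D → Fin n)
    (hp : AlgebraicIndependent K fun i => T.ω (p i)) (hD : n < 2 * D + 2)
    (t : (Fin m → Fin s ⊕ Fin n) → Fin v → ℚ) :
    IsHodgeOnProduct T V t ↔ t ∈ standardTimesHodge T s m V :=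
  ⟨mem_standard hV h0 p hp hD, standard_hodge⟩

end

end Pool.Agent.X311.CY
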