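import Pool.Agent.X311.Rc1
import Pool.Agent.Helper919.Char
import Pool.Agent.Cov.PNT

/-!
# Chern roots in a fixed quadratic field
-/

set_option autoImplicit false
set_option maxHeartbeats 4000000

namespace Pool.Agent.X311.Rd

open Finset Filter Topology Pool.Agent.Helper919 Pool.Agent.X311.Rb

/-- the primes in a residue class, with logarithmic weights -/
theorem theta_lower {q : ℕ} [NeZero q] {a : ZMod q} (ha : IsUnit a) : ∃ κ : ℝ, 0 < κ ∧ ∃ y₀ : ℕ,
    ∀ y : ℕ, y₀ ≤ y → κ * y ≤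
      ∑ p ∈ (Icc 1 y).filter (fun p : ℕ => p.Prime ∧ (p : ZMod q) = a), Real.log p := by
  classical
  have hκ : 0 < ((q.totient : ℝ)⁻¹) := by
    have : 0 < q.totient := Nat.totient_pos.2 (Nat.pos_of_ne_zero (NeZero.ne q))
    positivity
  set κ := ((q.totient : ℝ)⁻¹) with hκd
  obtain ⟨C, hC⟩ := Chebyshev.psi_sub_theta_le_mul_sqrt
  have h1 := (Pool.Agent.Cov.PNT.pnt_residueClass ha).comp (tendsto_natCast_atTop_atTop (R := ℝ))
  have h2 : ∀ᶠ y : ℕ in atTop, 3 * κ / 4 < (∑ k ∈ Icc 1 y,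
      ArithmeticFunction.vonMangoldt.residueClass a k) / y := by
    have h3 := h1.eventually_const_lt (show 3 * κ / 4 < κ by linarith)
    filter_upwards [h3] with y hy
    simpa using hy
  have h4 : ∀ᶠ y : ℕ in atTop, C * √(y : ℝ) ≤ κ / 4 * y := by
    have h5 : Tendsto (fun y : ℕ => √(y : ℝ)) atTop atTop :=
      Real.tendsto_sqrt_atTop.comp (tendsto_natCast_atTop_atTop (R := ℝ))
    filter_upwards [h5.eventually_ge_atTop (4 * C / κ)] with y hy
    have h6 : (y : ℝ) = √(y : ℝ) * √(y : ℝ) := (Real.mul_self_sqrt (Nat.cast_nonneg y)).symm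
    have h7 : 0 ≤ √(y : ℝ) := Real.sqrt_nonneg _
    rw [div_le_iff₀ hκ] at hy
    calc C * √(y : ℝ) = (4 * C) / 4 * √(y : ℝ) := by ring
      _ ≤ (√(y : ℝ) * κ) / 4 * √(y : ℝ) := by gcongr
      _ = κ / 4 * (√(y : ℝ) * √(y : ℝ)) := by ring
      _ = κ / 4 * y := by rw [← h6]
  obtain ⟨y₀, hy₀⟩ := eventually_atTop.1 (h2.and (h4.and (eventually_ge_atTop 1)))
  refine ⟨κ / 2, by positivity, y₀, fun y hy => ?_⟩
  obtain ⟨g1, g2, g3⟩ := hy₀ y hy
  have hypos : (0 : ℝ) < y := by exact_mod_cast g3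
  rw [lt_div_iff₀ hypos] at g1
  have g4 := hC (y : ℝ)
  have g5 : ∑ k ∈ Icc 1 y, ArithmeticFunction.vonMangoldt.residueClass a k ≤
      ∑ p ∈ (Icc 1 y).filter (fun p : ℕ => p.Prime ∧ (p : ZMod q) = a), Real.log p +
        (Chebyshev.psi y - Chebyshev.theta y) := by
    have e1 : Chebyshev.psi y - Chebyshev.theta y =
        ∑ k ∈ Icc 1 y, (ArithmeticFunction.vonMangoldt k - if k.Prime then Real.log k else 0) := by
      unfold Chebyshev.psi Chebyshev.theta
      rw [Nat.floor_natCast, sum_sub_distrib, sum_filter]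
      rfl
    rw [e1, sum_filter, ← sum_add_distrib]
    refine sum_le_sum fun k _ => ?_
    rw [ArithmeticFunction.vonMangoldt.residueClass]
    by_cases hk : (k : ZMod q) = a
    · rw [Set.indicator_of_mem (by exact hk)]
      by_cases hp : k.Prime
      · simp [hp, hk]
      · simp [hp]
    · rw [Set.indicator_of_notMem (by exact hk)]
      by_cases hp : k.Prime
      · simp only [hp, hk, and_false, if_false, if_true,
          ArithmeticFunction.vonMangoldt_apply_prime hp]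
        simp
      · simp only [hp, false_and, if_false, sub_zero, zero_add]
        exact ArithmeticFunction.vonMangoldt_nonneg
  linarith

/-- **Chern roots in a fixed quadratic field.** -/
theorem fixed_field {D : ℤ} (hD : Squarefree D) (hDs : ¬ IsSquare D) : ∃ c : ℝ, 0 < c ∧
    ∀ (n : ℕ) (c₁ c₂ : ℤ) (f : ℕ), IsChernData n c₁ c₂ → 0 < f → disc c₁ c₂ = (f : ℤ) ^ 2 * D →
      c * Real.exp (c * n) ≤ f := by
  classical
  have hD0 : D ≠ 0 := hD.ne_zero
  obtain ⟨d, hd, hj⟩ := exists_jacobi_neg_one D hDs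
  have hq : 4 * D.natAbs ≠ 0 := by
    have := Int.natAbs_pos.2 hD0
    omega
  have : NeZero (4 * D.natAbs) := ⟨hq⟩
  have hXd : XX D d = -1 := by
    rw [XX_apply, if_pos hd, hj]
    norm_num
  have hcop : d.Coprime (4 * D.natAbs) := by
    by_contra hcon
    rw [XX_zero_of_not_coprime D d hcon] at hXd
    norm_num at hXd
  have ha : IsUnit (d : ZMod (4 * D.natAbs)) := (ZMod.isUnit_iff_coprime d _).2 hcop
  obtain ⟨κ, hκ, y₀, hy₀⟩ := theta_lower ha
  obtain ⟨n₀, hn₀⟩ : ∃ n₀ : ℕ, n₀ = 2 * y₀ + 6 := ⟨_, rfl⟩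
  refine ⟨min (κ / 3) (Real.exp (-n₀)), lt_min (by positivity) (Real.exp_pos _),
    fun n c₁ c₂ f h0 hf hΔ => ?_⟩
  set c := min (κ / 3) (Real.exp (-(n₀ : ℝ))) with hc
  have hc0 : 0 < c := lt_min (by positivity) (Real.exp_pos _)
  have hc1 : c ≤ Real.exp (-(n₀ : ℝ)) := min_le_right _ _
  have hc2 : c ≤ κ / 3 := min_le_left _ _
  have hc3 : c ≤ 1 := hc1.trans (by
    rw [Real.exp_le_one_iff]
    have : (0 : ℝ) ≤ n₀ := Nat.cast_nonneg _
    linarith)
  have hf1 : (1 : ℝ) ≤ f := by exact_mod_cast hf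
  rcases lt_or_ge n n₀ with hn | hn
  · have h1 : (n : ℝ) ≤ n₀ := by exact_mod_cast hn.le
    have h2 : c * n ≤ n₀ := by
      have : (0 : ℝ) ≤ n := Nat.cast_nonneg _
      nlinarith
    calc c * Real.exp (c * n) ≤ Real.exp (-(n₀ : ℝ)) * Real.exp (n₀ : ℝ) := by gcongr
      _ = 1 := by rw [← Real.exp_add]; simp
      _ ≤ f := hf1
  · have hs : ¬ IsSquare (disc c₁ c₂) := by
      rintro ⟨w, hw⟩
      have hw' : (f : ℤ) ^ 2 * D = w * w := by rw [← hΔ, ← hw]
      have hf0 : (f : ℤ) ≠ 0 := by exact_mod_cast hf.ne'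
      have h1 : (f : ℤ) ∣ w := by
        have : (f : ℤ) ^ 2 ∣ w ^ 2 := ⟨D, by rw [hw']; ring⟩
        exact (Int.pow_dvd_pow_iff (by norm_num)).1 this
      obtain ⟨u, rfl⟩ := h1
      apply hDs
      refine ⟨u, mul_left_cancel₀ (pow_ne_zero 2 hf0) ?_⟩
      rw [hw']
      ring
    obtain ⟨y, hy⟩ : ∃ y, y = (n - 1) / 2 := ⟨_, rfl⟩
    have hyy : y₀ ≤ y := by omega
    have h1 := hy₀ y hyy
    set T := (Icc 1 y).filter (fun p : ℕ => p.Prime ∧ (p : ZMod (4 * D.natAbs)) = d) with hT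
    have hdvd : ∀ p ∈ T, p ∣ f := by
      intro p hp
      obtain ⟨hp1, hp2, hp3⟩ := mem_filter.1 hp
      have hXp : XX D p = -1 := by
        rw [← hXd, ← XX_mod D p, ← XX_mod D d]
        congr 1
        exact (ZMod.natCast_eq_natCast_iff' _ _ _).1 hp3
      have hodd : Odd p := by
        by_contra hcon
        rw [XX_apply, if_neg hcon] at hXp
        norm_num at hXp
      have hjp : jacobiSym D p ≠ 1 := by
        intro h
        rw [XX_apply, if_pos hodd, h] at hXp
        norm_num at hXp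
      have hp2' : p ≠ 2 := by
        rintro rfl
        exact absurd hodd (by decide)
      have h2 := le_of_jacobi h0 hs hf.ne' hD hΔ hp2 hp2' hjp
      by_contra hnd
      rw [Nat.factorization_eq_zero_of_not_dvd hnd] at h2
      have := (mem_Icc.1 hp1).2
      simp at h2
      omega
    have hprod : ∏ p ∈ T, p ∣ f := by
      refine Finset.prod_dvd_of_isRelPrime ?_ hdvd
      intro p hp q hq hpq
      rw [mem_coe] at hp hq
      exact Nat.coprime_iff_isRelPrime.1 ((Nat.coprime_primes (mem_filter.1 hp).2.1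
        (mem_filter.1 hq).2.1).2 hpq)
    have hlog : ∑ p ∈ T, Real.log p ≤ Real.log f := by
      have h2 : ((∏ p ∈ T, p : ℕ) : ℝ) ≤ f := by exact_mod_cast Nat.le_of_dvd hf hprod
      have h3 : 0 < ((∏ p ∈ T, p : ℕ) : ℝ) := by
        exact_mod_cast Finset.prod_pos fun p hp => by
          have hp' : p.Prime := (mem_filter.1 hp).2.1
          exact hp'.pos
      have h4 := Real.log_le_log h3 h2
      have h6 : ∀ p ∈ T, (p : ℝ) ≠ 0 := by
        intro p hp
        have hp' : p.Prime := (mem_filter.1 hp).2.1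
        exact_mod_cast hp'.ne_zero
      rw [Nat.cast_prod, Real.log_prod h6] at h4
      exact h4
    have hyn : (n : ℝ) ≤ 3 * y := by
      have : n ≤ 3 * y := by omega
      exact_mod_cast this
    have h5 : c * n ≤ Real.log f := by
      calc c * n ≤ κ / 3 * n := by gcongr
        _ ≤ κ / 3 * (3 * y) := by gcongr
        _ = κ * y := by ring
        _ ≤ _ := h1
        _ ≤ _ := hlog
    calc c * Real.exp (c * n) ≤ 1 * Real.exp (Real.log f) := by gcongr
      _ = f := by rw [one_mul, Real.exp_log (by linarith)]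

end Pool.Agent.X311.Rd
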