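import Pool.Agent.Y137.HS.Main

/-!
# The numerical standard conjecture of Hodge type for abelian varieties over finite fields whose Tate
classes are in `AlgS`
-/

set_option autoImplicit false
set_option linter.unusedSectionVars false
set_option linter.unusedVariables false

namespace Pool.Agent.X311.NumHodge

open NumberField Pool.Agent.H204R3.CM Pool.Agent.W547.KB Pool.Agent.W547.LD Pool.Agent.W547.HR
  Pool.Agent.W495.TA Module Pool.Agent.W976.TA Equiv Pool.Agent.TH117.PO Pool.Agent.Y137.SF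
  Pool.Agent.TH117.BL Pool.Agent.Y137.HS
open scoped TensorProduct

noncomputable section

variable {p : ℕ} [Fact p.Prime] {ν : PadicAlgCl p ≃+* ℂ} {Ω : Type} [Field Ω] [CharZero Ω]
  {C : (Y : RedAV p ν) → (κ : Type) → ((TM Ω Y) [⋀^κ]→ₗ[Ω] Ω) → Prop}

variable (C) in
/-- `z ∈ H^{2r}(Y)` is numerically primitive for the polarization given by `α`, `dim Y = 2 r + m`: the
intersection product of `z` with the power `m + 1` of the class of the polarization is numerically
equivalent to zero, that is, its intersection numbers with all cycles `y` of complementary dimension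
are zero. -/
def IsNumPrim {Y : RedAV p ν} (α : Y.X.H1) {κ : Type} [Fintype κ]
    [DecidableEq κ] (m : ℕ) (z : (TM Ω Y) [⋀^κ]→ₗ[Ω] Ω) : Prop :=
  ∀ (κ' : Type) [Fintype κ'] [DecidableEq κ'] (y : (TM Ω Y) [⋀^κ']→ₗ[Ω] Ω), C Y κ' y →
    Fintype.card κ + 2 * (m + 1) + Fintype.card κ' = finrank ℚ Y.X.H1 →
      ∀ v : (κ ⊕ (Fin (m + 1) × Fin 2)) ⊕ κ' → Y.X.H1,
        altSum (times (times (res z) (powE (castE Ω (riemannForm Y.X α)) (m + 1))) (res y)) v = 0

/-- An alternating sum inside an alternating sum, on the left. -/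
theorem altSum_absorb_left {P Q H R : Type} [Fintype P] [DecidableEq P] [Fintype Q] [DecidableEq Q]
    [CommRing R] (g : (P → H) → R) (h : (Q → H) → R) (v : P ⊕ Q → H) :
    altSum (times (altSum g) h) v = (Fintype.card (Perm P) : R) * altSum (times g h) v := by
  have e1 : ∀ g' : (P → H) → R, altSum (times g' h) v =
      altSum (times h g') (fun p => v (Equiv.sumComm Q P p)) := by
    intro g'
    rw [← altSum_reindex (Equiv.sumComm Q P)]
    congr 1
    funext w
    unfold times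
    rw [mul_comm]
    rfl
  rw [e1, e1, altSum_absorb]

/-- Classes in `AlgS` that are numerically equivalent to zero are zero. -/
theorem nondegenerateS [IsAlgClosed Ω] (hS : IsCycleSystemS Ω C) {W : Set ℕ} {Y : RedAV p ν}
    {κ : Type} [Fintype κ] [DecidableEq κ] {z : (TM Ω Y) [⋀^κ]→ₗ[Ω] Ω} (hz : AlgS Ω W Y κ z)
    (hnum : IsNumTrivial Ω C z) : z = 0 := by
  classical
  obtain ⟨T, hT⟩ := algS_SP hS hz
  have hne : Nonempty ((T.prod Y.X).prod (single (Pool.Agent.TH117.BL.kp p))).I := ⟨Sum.inr ()⟩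
  obtain ⟨L, _, _, _, _, j, hj⟩ :=
    exists_cm ((T.prod Y.X).prod (single (Pool.Agent.TH117.BL.kp p)))
  have hTj : Big T j := fun i ψ => hj (Sum.inl (Sum.inl i)) ψ
  have hB : Big Y.X j := fun i ψ => hj (Sum.inl (Sum.inr i)) ψ
  let jO : L →+* Ω := ((IsAlgClosed.lift : L →ₐ[ℚ] Ω) : L →+* Ω)
  exact zero_of_numTrivial hS.toIsCycleSystem hB (hT L j jO hTj hB) hnum

/-- Classes of cycles of even degree are in `AlgS` if this is true for the Tate classes. -/
theorem algS_of_tate' (hC : IsCycleSystem Ω C) (hT : AreTate Ω C) {W : Set ℕ} {Y : RedAV p ν}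
    {κ : Type} {r : ℕ} (e : κ ≃ Fin (2 * r))
    (h : ∀ (s : ℕ) (f : (TM Ω Y) [⋀^Fin (2 * r)]→ₗ[Ω] Ω), 0 < s → IsTateClass Ω Y s r f →
      AlgS Ω W Y (Fin (2 * r)) f)
    {z : (TM Ω Y) [⋀^κ]→ₗ[Ω] Ω} (hz : C Y κ z) : AlgS Ω W Y κ z := by
  obtain ⟨s, hs, h1⟩ := hT (z.domDomCongr e) (hC.reindex e z hz)
  have h2 := AlgS.reindex e.symm _ (h s _ hs h1)
  have h3 : (z.domDomCongr e).domDomCongr e.symm = z := by
    refine AlternatingMap.ext fun v => ?_
    change z _ = z v
    congr 1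
    funext k
    simp
  rwa [h3] at h2

/-- Numerically primitive classes are primitive if all Tate classes are in `AlgS`. -/
theorem isPrim_of_isNumPrim [IsAlgClosed Ω] (hS : IsCycleSystemS Ω C) (hT : AreTate Ω C)
    {W : Set ℕ} {Y : RedAV p ν}
    (h : ∀ (r s : ℕ) (f : (TM Ω Y) [⋀^Fin (2 * r)]→ₗ[Ω] Ω), 0 < s → IsTateClass Ω Y s r f →
      AlgS Ω W Y (Fin (2 * r)) f)
    {α : Y.X.H1} (hα : IsPolar Y.X α) {r m : ℕ} {z : (TM Ω Y) [⋀^Fin r × Fin 2]→ₗ[Ω] Ω}
    (hz : C Y _ z) (hprim : IsNumPrim C α m z) : IsPrim α m z := by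
  classical
  have hC : IsCycleSystem Ω C := hS.toIsCycleSystem
  have hne : Nonempty (Y.X.prod (single (Pool.Agent.TH117.BL.kp p))).I := ⟨Sum.inr ()⟩
  obtain ⟨L, _, _, _, _, j, hj⟩ := exists_cm (Y.X.prod (single (Pool.Agent.TH117.BL.kp p)))
  have hB : Big Y.X j := fun i ψ => hj (Sum.inl i) ψ
  let jO : L →+* Ω := ((IsAlgClosed.lift : L →ₐ[ℚ] Ω) : L →+* Ω)
  obtain ⟨θ, hθ⟩ := exists_theta (jO := jO) j hα
  have hθr := res_theta j hB hθ
  have hCθ : C Y (Fin 2) θ := theta_mem hC hα hθr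
  have hθ1 : ∀ x y : Y.X.H1, θ ![(1 : Ω) ⊗ₜ[ℚ] x, (1 : Ω) ⊗ₜ[ℚ] y] =
      castE Ω (riemannForm Y.X α) x y := by
    intro x y
    rw [castE, ← hθr]
    unfold res
    congr 1
    funext k
    fin_cases k <;> rfl
  have hpow : ∀ (k : ℕ) (v : Fin k × Fin 2 → Y.X.H1),
      powE (fun x y => θ ![x, y]) k (fun i => (1 : Ω) ⊗ₜ[ℚ] v i) =
        powE (castE Ω (riemannForm Y.X α)) k v := by
    intro k v
    unfold powE
    exact Finset.prod_congr rfl fun i _ => hθ1 _ _
  obtain ⟨Θ, a, ha, hΘ, hΘv⟩ := power_mem hC hCθ (m + 1)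
  have hw : C Y _ (cupO z Θ) := hC.cup z Θ hz hΘ _ fun v => cupO_apply z Θ v
  set c0 : Ω := (a : Ω) * ((Fintype.card (Perm (Fin (m + 1) × Fin 2)) : ℕ) : Ω) with hc0
  have hc0' : c0 ≠ 0 := mul_ne_zero (Rat.cast_ne_zero.2 ha) (Nat.cast_ne_zero.2 Fintype.card_ne_zero)
  have hres : ∀ u : (Fin r × Fin 2) ⊕ (Fin (m + 1) × Fin 2) → Y.X.H1, res (cupO z Θ) u =
      c0 * altSum (times (res z) (powE (castE Ω (riemannForm Y.X α)) (m + 1))) u := by
    intro u
    have h1 : res (cupO z Θ) u =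
        c0 * altSum (times z (powE (fun a b => θ ![a, b]) (m + 1)))
          (fun k => (1 : Ω) ⊗ₜ[ℚ] u k) := by
      change cupO z Θ (fun k => (1 : Ω) ⊗ₜ[ℚ] u k) = _
      rw [cupO_apply, hc0, mul_assoc, ← altSum_absorb, ← altSum_const_mul]
      congr 1
      funext x
      unfold times
      rw [hΘv]
      ring
    rw [h1]
    congr 1
    unfold altSum
    refine Finset.sum_congr rfl fun σ _ => ?_
    congr 1
    unfold times
    rw [hpow]
    rfl
  have hnum : IsNumTrivial Ω C (cupO z Θ) := by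
    intro κ' _ _ y hy hcard v
    have h1 := hprim κ' y hy (by
      rw [← hcard]
      simp only [Fintype.card_sum, Fintype.card_prod, Fintype.card_fin]
      ring) v
    have h2 : (res (cupO z Θ) : _ → Ω) = fun u =>
        c0 * altSum (times (res z) (powE (castE Ω (riemannForm Y.X α)) (m + 1))) u := funext hres
    have h3 : (times (res (cupO z Θ)) (res y) : _ → Ω) = fun w => c0 *
        times (altSum (times (res z) (powE (castE Ω (riemannForm Y.X α)) (m + 1)))) (res y) w := by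
      funext w
      unfold times
      rw [h2]
      unfold times
      ring
    rw [h3, altSum_const_mul, altSum_absorb_left, h1, mul_zero, mul_zero]
  let e : (Fin r × Fin 2) ⊕ (Fin (m + 1) × Fin 2) ≃ Fin (2 * (r + (m + 1))) :=
    Fintype.equivFinOfCardEq (by
      simp only [Fintype.card_sum, Fintype.card_prod, Fintype.card_fin]
      ring)
  have h0 : cupO z Θ = 0 :=
    nondegenerateS hS (algS_of_tate' hC hT e (h (r + (m + 1))) hw) hnum
  intro v
  have h1 := hres v
  rw [h0] at h1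
  have h2 : res (0 : (TM Ω Y) [⋀^(Fin r × Fin 2) ⊕ (Fin (m + 1) × Fin 2)]→ₗ[Ω] Ω) v = 0 := rfl
  rw [h2] at h1
  exact (mul_eq_zero.1 h1.symm).resolve_left hc0'

/-- **The numerical standard conjecture of Hodge type**, if the relations between the Frobenius
eigenvalues are products of elementary relations. -/
theorem numerical [IsAlgClosed Ω] (hS : IsCycleSystemS Ω C) (hR : IsRosatiPositive Ω C)
    (hT : AreTate Ω C) {Z Y : RedAV p ν} (hZ : HasElementaryRelationsS Z)
    (hY : IsPowersTimesSupersingular Z Y)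
    {α : Y.X.H1} (hα : IsPolar Y.X α) {r m : ℕ} (hrm : 2 * (2 * r + m) = finrank ℚ Y.X.H1)
    {z : (TM Ω Y) [⋀^Fin r × Fin 2]→ₗ[Ω] Ω} (hz : C Y _ z) (hz0 : ¬ IsNumTrivial Ω C z)
    (hprim : IsNumPrim C α m z) : IsPosClass α m z := by
  refine hodgeStandard hS hR hT (Or.inr ⟨Z, hZ, hY⟩) hα hrm hz ?_
    (isPrim_of_isNumPrim (W := {4, 6}) hS hT
      (fun r s f hs hf => elementaryS Z hZ Ω Y hY s r hs f hf) hα hz hprim)
  rintro rfl
  refine hz0 fun κ' _ _ y _ _ v => ?_
  unfold altSum times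
  refine Finset.sum_eq_zero fun σ _ => ?_
  have h2 : ∀ u, res (0 : (TM Ω Y) [⋀^(Fin r × Fin 2)]→ₗ[Ω] Ω) u = 0 := fun _ => rfl
  rw [h2, zero_mul, mul_zero]

/-- Homological and numerical equivalence coincide. -/
theorem hom_eq_num [IsAlgClosed Ω] (hS : IsCycleSystemS Ω C)
    (hT : AreTate Ω C) {Z Y : RedAV p ν} (hZ : HasElementaryRelationsS Z)
    (hY : IsPowersTimesSupersingular Z Y) {r : ℕ}
    {z : (TM Ω Y) [⋀^Fin r × Fin 2]→ₗ[Ω] Ω} (hz : C Y _ z) (hz0 : IsNumTrivial Ω C z) :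
    z = 0 :=
  nondegenerateS hS (algS_of_tate hS.toIsCycleSystem hT
    (fun s f hs hf => elementaryS Z hZ Ω Y hY s r hs f hf) hz) hz0

open Classical in
/-- Abelian varieties of dimension at most five without exceptional pairs have elementary
relations. -/
theorem elementary_of_le_ten {Z : RedAV p ν} (h : ∑ i, finrank ℚ (Z.X.factor i).E ≤ 10)
    (hexc : ∀ i k, ¬ IsExcPair Z i k) : HasElementaryRelationsS Z :=
  fun e he => AddSubgroup.subset_closure ⟨e, he, Or.inr (Or.inl ⟨Set.univ,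
    Or.inr ⟨by simpa using h, fun i _ k _ => hexc i k⟩, fun w _ => trivial⟩), fun _ => rfl⟩

end

end Pool.Agent.X311.NumHodge
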