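import Mathlib
import Pool.Agent.X311.CyDefs

/-!
# Systems of classes on the products of powers of a variety of Calabi-Yau type and a variety: definitions
-/

set_option autoImplicit false

namespace Pool.Agent.X311.CY

open Matrix Pool.Agent.TH131.GHC Pool.Agent.TH504.VY

noncomputable section

variable {n : ℕ}

/-- The direct image on `Y` of the intersection of the class `t` on `X ^ m × Y` with a standard class on
`X ^ m`: the linear forms `f i` on `ℚ ^ s` are the intersections with algebraic classes on some of the
factors `X`, and the intersection form `Q` of the middle cohomology, on `b` pairs of the other factors, is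
the intersection with the middle component of the diagonal. -/
def integrateStandard (T : Period n) {s m a b v : ℕ} (e : Fin a ⊕ (Fin b × Fin 2) ≃ Fin m)
    (f : Fin a → Fin s → ℚ) (t : (Fin m → Fin s ⊕ Fin n) → Fin v → ℚ) : Fin v → ℚ :=
  fun d => ∑ J : Fin m → Fin s ⊕ Fin n, ((∏ i, Sum.elim (f i) (fun _ => 0) (J (e (Sum.inl i)))) *
    ∏ i, fromBlocks 0 0 0 T.Q (J (e (Sum.inr (i, 0)))) (J (e (Sum.inr (i, 1))))) * t J d

/-- The span of the products of standard classes on `X ^ m` (products of algebraic classes on some of
the factors and of middle components of diagonals on pairs of other factors) and classes in `CY`. -/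
def standardTimes (T : Period n) (s m : ℕ) {v : ℕ} (CY : Submodule ℚ (Fin v → ℚ)) :
    Submodule ℚ ((Fin m → Fin s ⊕ Fin n) → Fin v → ℚ) :=
  Submodule.span ℚ {t | ∃ (a b : ℕ) (e : Fin a ⊕ (Fin b × Fin 2) ≃ Fin m)
    (ν : Fin a → Fin s → ℚ) (y : Fin v → ℚ), y ∈ CY ∧ t = fun J b => standardClass T e ν J * y b}

/-- `C` and `CY` are spaces of Hodge classes on `X ^ m × Y` and on `Y` such that the products of standard
classes on `X ^ m` and classes in `CY` are in `C`, and the direct images on `Y` of the intersections of
classes in `C` with standard classes on `X ^ m` are in `CY`. This holds for the classes of algebraic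
cycles with rational coefficients, for the motivated classes and for the absolute Hodge classes. -/
structure IsClassSystem (T : Period n) {s m v : ℕ} (V : Coh v)
    (C : Submodule ℚ ((Fin m → Fin s ⊕ Fin n) → Fin v → ℚ)) (CY : Submodule ℚ (Fin v → ℚ)) :
    Prop where
  hodge : ∀ t ∈ C, IsHodgeOnProduct T V t
  hodgeY : ∀ y ∈ CY, IsHodgeOn V y
  product_mem : ∀ (a b : ℕ) (e : Fin a ⊕ (Fin b × Fin 2) ≃ Fin m) (ν : Fin a → Fin s → ℚ),
    ∀ y ∈ CY, (fun J d => standardClass T e ν J * y d) ∈ C
  integral_mem : ∀ t ∈ C, ∀ (a b : ℕ) (e : Fin a ⊕ (Fin b × Fin 2) ≃ Fin m)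
    (f : Fin a → Fin s → ℚ), integrateStandard T e f t ∈ CY

end

end Pool.Agent.X311.CY
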