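import Mathlib
import Pool.Agent.X311.Cy5
import Pool.Agent.X311.Nd
import Pool.Agent.X311.SyDefs

/-!
# Systems of classes on the products of powers of a variety of Calabi-Yau type and a variety
-/

set_option autoImplicit false
set_option linter.unusedSectionVars false

namespace Pool.Agent.X311.CY

open Matrix Pool.Agent.TH131.GHC Pool.Agent.TH504.VY Pool.Agent.X311

noncomputable section

variable {n s m v : ℕ} {T : Period n} {V : Coh v}

theorem standardClass_eq {a b : ℕ} (e : Fin a ⊕ (Fin b × Fin 2) ≃ Fin m) (ν : Fin a → Fin s → ℚ) :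
    standardClass T e ν = Nd.pc T.Q⁻¹ e ν := rfl

/-- **The classes of a system are products.** -/
theorem system_eq {K : Subfield ℂ} (hV : IsOfCMType V ∨ HasFiltrationOver K V) {D : ℕ}
    {i₀ : Fin n} (h0 : T.ω i₀ = 1) (p : Fin D → Fin n)
    (hp : AlgebraicIndependent K fun i => T.ω (p i)) (hD : n < 2 * D + 2)
    {C : Submodule ℚ ((Fin m → Fin s ⊕ Fin n) → Fin v → ℚ)} {CY : Submodule ℚ (Fin v → ℚ)}
    (h : IsClassSystem T V C CY) : C = standardTimes T s m CY := by
  refine le_antisymm ?_ ?_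
  · intro t ht
    have h1 : t ∈ standardTimesHodge T s m V := (hodge_iff hV h0 p hp hD t).1 (h.hodge t ht)
    have h2 := Nd.mem_of_contractions (ε := -1) (by rw [T.alt, neg_smul, one_smul]) detQ_ne CY
      (t := t) ?_ ?_
    · refine (Submodule.span_mono ?_) h2
      rintro _ ⟨a, b, e, ν, y, hy, rfl⟩
      exact ⟨a, b, e, ν, y, hy, rfl⟩
    · refine (Submodule.span_mono ?_) h1
      rintro _ ⟨a, b, e, ν, y, hy, rfl⟩
      exact ⟨a, b, e, ν, y, rfl⟩
    · intro a b e f
      exact h.integral_mem t ht a b e f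
  · refine Submodule.span_le.2 ?_
    rintro _ ⟨a, b, e, ν, y, hy, rfl⟩
    exact h.product_mem a b e ν y hy

/-- The value of a product of linear forms on a product of classes. -/
theorem integrate_product (hs : 0 < s) (y : Fin v → ℚ) :
    ∃ (e : Fin m ⊕ (Fin 0 × Fin 2) ≃ Fin m) (ν f : Fin m → Fin s → ℚ),
      integrateStandard T e f (fun J d => standardClass T e ν J * y d) = y := by
  classical
  let e : Fin m ⊕ (Fin 0 × Fin 2) ≃ Fin m := Equiv.sumEmpty _ _
  let k : Fin s := ⟨0, hs⟩
  refine ⟨e, fun _ => Pi.single k 1, fun _ => Pi.single k 1, ?_⟩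
  funext d
  unfold integrateStandard standardClass
  rw [Finset.sum_eq_single fun _ => Sum.inl k]
  · simp [e]
  · intro J _ hJ
    obtain ⟨j, hj⟩ : ∃ j, J j ≠ Sum.inl k := by
      by_contra hn
      push Not at hn
      exact hJ (funext hn)
    have h1 : ∏ i : Fin m, Sum.elim (Pi.single k (1 : ℚ)) (fun _ => 0) (J (e (Sum.inl i))) = 0 := by
      refine Finset.prod_eq_zero (Finset.mem_univ j) ?_
      have h2 : e (Sum.inl j) = j := rfl
      rw [h2]
      rcases h3 : J j with x | x
      · rw [Sum.elim_inl]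
        refine Pi.single_eq_of_ne ?_ _
        intro h4
        exact hj (by rw [h3, h4])
      · rw [Sum.elim_inr]
    rw [h1, zero_mul, zero_mul]
  · intro h
    exact absurd (Finset.mem_univ _) h

/-- **All Hodge classes are in the system if and only if this is so on `Y`.** -/
theorem all_iff {K : Subfield ℂ} (hV : IsOfCMType V ∨ HasFiltrationOver K V) {D : ℕ}
    {i₀ : Fin n} (h0 : T.ω i₀ = 1) (p : Fin D → Fin n)
    (hp : AlgebraicIndependent K fun i => T.ω (p i)) (hD : n < 2 * D + 2) (hs : 0 < s)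
    {C : Submodule ℚ ((Fin m → Fin s ⊕ Fin n) → Fin v → ℚ)} {CY : Submodule ℚ (Fin v → ℚ)}
    (h : IsClassSystem T V C CY) :
    (∀ t, IsHodgeOnProduct T V t → t ∈ C) ↔ ∀ y, IsHodgeOn V y → y ∈ CY := by
  constructor
  · intro h1 y hy
    obtain ⟨e, ν, f, h2⟩ := integrate_product (T := T) (m := m) hs y
    have h3 : IsHodgeOnProduct T V (fun J d => standardClass T e ν J * y d) :=
      (hodge_iff hV h0 p hp hD _).2 (Submodule.subset_span ⟨_, _, e, ν, y, hy, rfl⟩)
    have h4 := h.integral_mem _ (h1 _ h3) _ _ e f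
    rwa [h2] at h4
  · intro h1 t ht
    have h2 : t ∈ standardTimesHodge T s m V := (hodge_iff hV h0 p hp hD t).1 ht
    refine (Submodule.span_le.2 ?_ : standardTimesHodge T s m V ≤ C) h2
    rintro _ ⟨a, b, e, ν, y, hy, rfl⟩
    exact h.product_mem a b e ν y (h1 y hy)

end

end Pool.Agent.X311.CY
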