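import Mathlib
import Pool.Agent.TH504.CB.PeriodDefs

/-!
# Systems of cohomology classes on products of abelian varieties and varieties: definitions

The cohomology of a smooth projective variety `Y` is given by `V : Coh v` (a rational space with a basis
of homogeneous elements and the Hodge operator `V.z`, the multiplication by `p - q` on the classes of
type `(p, q)`), the cohomology of the product `A × Y` of a complex torus `A` and `Y` is `HAZ W v`.
-/

set_option autoImplicit false

namespace Pool.Agent.X311.Ah

open Matrix Module Pool.Agent.H204R3.CM Pool.Agent.TH131.GHC Pool.Agent.TH504.VY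
  Pool.Agent.TH504.CB

variable {W T : Type} [AddCommGroup W] [Module ℚ W] [AddCommGroup T] [Module ℂ T]

/-- The span of the products `f ⊗ x` of a combination `f` of products of divisor classes on the complex
torus and a class `x` in `CY` on the variety. -/
noncomputable def divisorTimes (per : W →+ T) {v : ℕ} (CY : Submodule ℚ (Fin v → ℚ)) :
    Submodule ℚ (HAZ W v) :=
  Submodule.span ℚ {F | ∃ (k : ℕ) (f : W [⋀^Fin k]→ₗ[ℚ] ℚ) (x : Fin v → ℚ),
    f ∈ divisorSpan per k ∧ x ∈ CY ∧ F = cross f x}

/-- `C` and `CY` are spaces of Hodge classes on `A × Y` and on `Y` such that the exterior products of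
products of divisor classes on `A` and classes in `CY` are in `C`, and the direct images on `Y` of the
intersections of classes in `C` with products of divisor classes on `A` are in `CY`. This holds for the
classes of algebraic cycles with rational coefficients, for the absolute Hodge classes and for the Hodge
classes. -/
structure IsClassSystem (per : W →+ T) {v : ℕ} (V : Coh v) (C : Submodule ℚ (HAZ W v))
    (CY : Submodule ℚ (Fin v → ℚ)) : Prop where
  hodge : ∀ F ∈ C, IsHodgeOnProduct per V F
  hodgeY : ∀ x ∈ CY, IsHodgeOn V x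
  cross_mem : ∀ k : ℕ, ∀ f ∈ divisorSpan per k, ∀ x ∈ CY, cross f x ∈ C
  integral_mem : ∀ F ∈ C, ∀ (k j : ℕ) (e : Basis (Fin k ⊕ Fin j) ℚ W),
    ∀ β ∈ divisorSpan per j, fibreIntegral e F β ∈ CY

/-- The variety `X` with cohomology `ℚ ^ x`, given by `H : Coh x`, is dominated by `A × Y` (there is a
surjective morphism `π : A × Y → X`): the pullback of classes `pull` maps Hodge classes to Hodge classes,
and it has a left inverse `push` (`c` times `β ↦ π_* (h ^ r ∧ β)`, where `r` is the relative dimension,
`h` an ample class and `1 / c` the degree of `h ^ r` on the general fibre). -/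
structure IsDominated (per : W →+ T) {v : ℕ} (V : Coh v) {x : ℕ} (H : Coh x)
    (pull : (Fin x → ℚ) →ₗ[ℚ] HAZ W v) (push : HAZ W v →ₗ[ℚ] (Fin x → ℚ)) : Prop where
  hodge : ∀ c, IsHodgeOn H c → IsHodgeOnProduct per V (pull c)
  left_inv : ∀ c, push (pull c) = c

/-- `CX` is a space of classes on `X` which is related to the space `C` of classes on `A × Y` by `pull` and
`push`; this holds for the classes of algebraic cycles and for the absolute Hodge classes. -/
structure IsCompatible {v x : ℕ} (pull : (Fin x → ℚ) →ₗ[ℚ] HAZ W v)
    (push : HAZ W v →ₗ[ℚ] (Fin x → ℚ)) (C : Submodule ℚ (HAZ W v))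
    (CX : Submodule ℚ (Fin x → ℚ)) : Prop where
  pull_mem : ∀ c ∈ CX, pull c ∈ C
  push_mem : ∀ F ∈ C, push F ∈ CX

/-- For each system of classes (for instance the absolute Hodge classes, or the classes of algebraic
cycles) the classes on `A × Y` are the sums of the products of a polynomial in divisor classes on `A` and
a class on `Y`. -/
def SystemsAreProducts (per : W →+ T) {v : ℕ} (V : Coh v) : Prop :=
  ∀ (C : Submodule ℚ (HAZ W v)) (CY : Submodule ℚ (Fin v → ℚ)), IsClassSystem per V C CY →
    C = divisorTimes per CY

/-- Let `(A, AY)` and `(B, BY)` be systems of classes on `A × Y` and `Y` (for instance the absolute Hodge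
classes and the classes of algebraic cycles), `X` any variety dominated by `A × Y`, and `AX`, `BX` the
corresponding classes on `X`. If `AY ⊆ BY` then `A ⊆ B` and `AX ⊆ BX`. -/
def ComparisonFromY (per : W →+ T) {v : ℕ} (V : Coh v) : Prop :=
  ∀ (A B : Submodule ℚ (HAZ W v)) (AY BY : Submodule ℚ (Fin v → ℚ)),
    IsClassSystem per V A AY → IsClassSystem per V B BY → AY ≤ BY →
    A ≤ B ∧ ∀ (x : ℕ) (H : Coh x) (pull : (Fin x → ℚ) →ₗ[ℚ] HAZ W v)
      (push : HAZ W v →ₗ[ℚ] (Fin x → ℚ)) (AX BX : Submodule ℚ (Fin x → ℚ)),
      IsDominated per V H pull push → IsCompatible pull push A AX →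
      IsCompatible pull push B BX → AX ≤ BX

/-- Let `(C, CY)` be a system of classes on `A × Y` and `Y` (for instance the absolute Hodge classes),
`X` any variety dominated by `A × Y` and `CX` the corresponding classes on `X`. If all Hodge classes on `Y`
are in `CY` then all Hodge classes on `A × Y` are in `C` and all Hodge classes on `X` are in `CX`. -/
def AllHodgeFromY (per : W →+ T) {v : ℕ} (V : Coh v) : Prop :=
  ∀ (C : Submodule ℚ (HAZ W v)) (CY : Submodule ℚ (Fin v → ℚ)), IsClassSystem per V C CY →
    (∀ x, IsHodgeOn V x → x ∈ CY) →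
    (∀ F, IsHodgeOnProduct per V F → F ∈ C) ∧ ∀ (x : ℕ) (H : Coh x)
      (pull : (Fin x → ℚ) →ₗ[ℚ] HAZ W v) (push : HAZ W v →ₗ[ℚ] (Fin x → ℚ))
      (CX : Submodule ℚ (Fin x → ℚ)), IsDominated per V H pull push →
      IsCompatible pull push C CX → ∀ c, IsHodgeOn H c → c ∈ CX

end Pool.Agent.X311.Ah
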