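import Mathlib
import Pool.Agent.X311.AhDefs
import Pool.Agent.TH504.VY.Main
import Pool.Agent.TH504.CB.Main

/-!
# Systems of cohomology classes on products of abelian varieties and varieties
-/

set_option autoImplicit false
set_option linter.unusedSectionVars false

namespace Pool.Agent.X311.Ah

open Matrix Module Equiv Pool.Agent.H204R3.SP Pool.Agent.H204R3.CM Pool.Agent.W437.HC
  Pool.Agent.W437.HD Pool.Agent.W437.HP Pool.Agent.TH131.GHC Pool.Agent.TH504.VY
  Pool.Agent.TH504.CB Pool.Agent.W546.GHC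

noncomputable section

section gen

variable {W T : Type} [AddCommGroup W] [Module ℚ W] [AddCommGroup T] [Module ℂ T]
  {per : W →+ T} {v : ℕ}

/-- Products of divisor classes are Hodge classes. -/
theorem isHodge_of_divisorSpan {k : ℕ} {f : W [⋀^Fin k]→ₗ[ℚ] ℚ} (hf : f ∈ divisorSpan per k) :
    IsHodge per f := by
  unfold divisorSpan at hf
  induction hf using Submodule.span_induction with
  | mem f hf =>
    obtain ⟨r, e, C, hC, hf⟩ := hf
    choose ψ hψ1 hψ2 using hC
    let P : MultilinearMap ℚ (fun _ : Fin k => W) ℚ :=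
      (prodMap (fun l => (C l).toMultilinearMap)).domDomCongr e
    let Q : MultilinearMap ℝ (fun _ : Fin k => T) ℝ := (prodMap ψ).domDomCongr e
    have h1 : f = MultilinearMap.alternatization P := by
      ext w
      rw [hf, MultilinearMap.alternatization_apply]
      refine Finset.sum_congr rfl fun σ _ => ?_
      rw [Units.smul_def, zsmul_eq_mul]
      congr 1
      change _ = ∏ l, C l (fun ε => w (σ (e (l, ε))))
      refine Finset.prod_congr rfl fun l _ => ?_
      congr 1
      funext ε
      fin_cases ε <;> rfl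
    rw [h1]
    refine isHodge_alt Q (fun w => ?_) (fun z hz u => ?_)
    · change ∏ l, ψ l (fun ε => per (w (e (l, ε)))) = ((∏ l, C l (fun ε => w (e (l, ε))) : ℚ) : ℝ)
      rw [Rat.cast_prod]
      exact Finset.prod_congr rfl fun l _ => hψ1 l _
    · change ∏ l, ψ l (fun ε => z • u (e (l, ε))) = ∏ l, ψ l (fun ε => u (e (l, ε)))
      exact Finset.prod_congr rfl fun l _ => hψ2 l z hz _
  | zero => exact Pool.Agent.TH125.isHodge_zero
  | add x y _ _ hx hy => exact Pool.Agent.TH125.isHodge_add hx hy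
  | smul r x _ hx => exact Pool.Agent.TH125.isHodge_smul r hx

/-- The components of the classes in the span of the products. -/
theorem cmp_hodge {V : Coh v} {F : HAZ W v} (hF : F ∈ crossSpan per V) (k : ℕ) (b : Fin v) :
    IsHodge per (cmp b (F k)) := by
  unfold crossSpan at hF
  induction hF using Submodule.span_induction with
  | mem F hF =>
    obtain ⟨l, f, x, hf, -, rfl⟩ := hF
    by_cases h : k = l
    · subst h
      have h1 : cmp b (cross f x k) = x b • f := by
        ext w
        rw [cross, Pi.single_eq_same]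
        change f w * x b = x b * f w
        ring
      rw [h1]
      exact Pool.Agent.TH125.isHodge_smul _ (isHodge_of_divisorSpan hf)
    · have h1 : cmp b (cross f x k) = 0 := by
        ext w
        rw [cross, Pi.single_eq_of_ne h]
        rfl
      rw [h1]
      exact Pool.Agent.TH125.isHodge_zero
  | zero => exact Pool.Agent.TH125.isHodge_zero
  | add x y _ _ hx hy => exact Pool.Agent.TH125.isHodge_add hx hy
  | smul r x _ hx => exact Pool.Agent.TH125.isHodge_smul r hx

/-- The values of the classes in the span of the products. -/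
theorem value_hodge {V : Coh v} {F : HAZ W v} (hF : F ∈ crossSpan per V) (k : ℕ)
    (w : Fin k → W) : F k w ∈ HY V := by
  unfold crossSpan at hF
  induction hF using Submodule.span_induction with
  | mem F hF =>
    obtain ⟨l, f, x, -, hx, rfl⟩ := hF
    by_cases h : k = l
    · subst h
      rw [cross, Pi.single_eq_same]
      change f w • x ∈ HY V
      exact Submodule.smul_mem _ _ hx
    · rw [cross, Pi.single_eq_of_ne h]
      exact Submodule.zero_mem _
  | zero => exact Submodule.zero_mem _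
  | add x y _ _ hx hy => exact Submodule.add_mem _ hx hy
  | smul r x _ hx => exact Submodule.smul_mem _ _ hx

/-- The reproducing property for a torus and a variety. -/
def Reproduces (per : W →+ T) (V : Coh v) : Prop :=
  ∀ F, F ∈ crossSpan per V → ∀ P : Submodule ℚ (HAZ W v),
    (∀ (k j : ℕ) (e : Basis (Fin k ⊕ Fin j) ℚ W), ∀ f ∈ divisorSpan per k,
      ∀ β ∈ divisorSpan per j, cross f (fibreIntegral e F β) ∈ P) → F ∈ P

theorem systems_of_reproduces {V : Coh v} (hspan : ∀ F, IsHodgeOnProduct per V F → F ∈ crossSpan per V)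
    (h : Reproduces per V) : SystemsAreProducts per V := by
  intro C CY hC
  refine le_antisymm ?_ ?_
  · intro F hF
    refine h F (hspan F (hC.hodge F hF)) _ fun k j e f hf β hβ => ?_
    exact Submodule.subset_span ⟨k, f, _, hf, hC.integral_mem F hF k j e β hβ, rfl⟩
  · refine Submodule.span_le.2 ?_
    rintro _ ⟨k, f, x, hf, hx, rfl⟩
    exact hC.cross_mem k f hf x hx

theorem divisorTimes_mono {CY CY' : Submodule ℚ (Fin v → ℚ)} (h : CY ≤ CY') :
    divisorTimes per CY ≤ divisorTimes per CY' := by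
  refine Submodule.span_mono ?_
  rintro _ ⟨k, f, x, hf, hx, rfl⟩
  exact ⟨k, f, x, hf, h hx, rfl⟩

theorem comparison_of_systems {V : Coh v} (h : SystemsAreProducts per V) :
    ComparisonFromY per V := by
  intro A B AY BY hA hB hAB
  have h1 : A ≤ B := by
    rw [h A AY hA, h B BY hB]
    exact divisorTimes_mono hAB
  refine ⟨h1, fun x H pull push AX BX hd hcA hcB c hc => ?_⟩
  have h2 := hcB.push_mem _ (h1 (hcA.pull_mem c hc))
  rwa [hd.left_inv] at h2

theorem allHodge_of_span {V : Coh v}
    (hspan : ∀ F, IsHodgeOnProduct per V F → F ∈ crossSpan per V) : AllHodgeFromY per V := by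
  intro C CY hC hY
  have h1 : ∀ F, IsHodgeOnProduct per V F → F ∈ C := by
    intro F hF
    refine (Submodule.span_le.2 ?_) (hspan F hF)
    rintro _ ⟨k, f, x, hf, hx, rfl⟩
    exact hC.cross_mem k f hf x (hY x hx)
  refine ⟨h1, fun x H pull push CX hd hc c hcc => ?_⟩
  have h2 := hc.push_mem _ (h1 _ (hd.hodge c hcc))
  rwa [hd.left_inv] at h2

end gen

section prod

variable {n : ℕ} {g : Fin n → ℕ} {v : ℕ} (Z : ∀ i, Matrix (Fin (g i)) (Fin (g i)) ℂ)

theorem isH_of_isHodge (hpos : ∀ i, (imM (Z i)).PosDef) {k : ℕ}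
    {f : (∀ i, Fin (g i) ⊕ Fin (g i) → ℚ) [⋀^Fin k]→ₗ[ℚ] ℚ} (hf : IsHodge (perProd Z) f) :
    IsH (DZ (bigD ℂ Z)) (cfE (EE g) f) :=
  isH_cf (frame1 Z hpos) (D := DZ (bigD ℂ Z)) rfl hf (fun _ => ())

theorem isHodge_of_isH (hpos : ∀ i, (imM (Z i)).PosDef) {k : ℕ}
    {f : (∀ i, Fin (g i) ⊕ Fin (g i) → ℚ) [⋀^Fin k]→ₗ[ℚ] ℚ}
    (hf : IsH (DZ (bigD ℂ Z)) (cfE (EE g) f)) : IsHodge (perProd Z) f := by
  have hJ : JR (bigD ℂ Z) * JR (bigD ℂ Z) = -1 :=
    JR_sq ((imM_bigD_posDef Z hpos).isUnit.map Matrix.detMonoidHom)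
  have h2 : f.toMultilinearMap = (evalM (cfE (EE g) f)).compLinearMap
        (fun i : Fin k => (frame1 Z hpos).a ()) := by
    refine MultilinearMap.ext fun w => ?_
    have h3 := (frame1 Z hpos).expand f w
    rw [Fintype.sum_unique] at h3
    exact h3
  have h3 : (k.factorial : ℚ) • f = MultilinearMap.alternatization
      ((evalM (cfE (EE g) f)).compLinearMap (fun i : Fin k => (frame1 Z hpos).a ())) := by
    rw [← h2]
    have h4 := AlternatingMap.coe_alternatization f
    change MultilinearMap.alternatization f.toMultilinearMap = _ at h4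
    rw [h4, Fintype.card_fin]
    exact Nat.cast_smul_eq_nsmul ℚ _ f
  have hne : (k.factorial : ℚ) ≠ 0 := Nat.cast_ne_zero.2 (Nat.factorial_ne_zero _)
  have h4 : f = (k.factorial : ℚ)⁻¹ • (k.factorial : ℚ) • f := by
    rw [smul_smul, inv_mul_cancel₀ hne, one_smul]
  rw [h4, h3]
  exact Pool.Agent.TH125.isHodge_smul _
    (isHodge_pf (frame1 Z hpos) (D := DZ (bigD ℂ Z)) rfl hJ hf (fun _ => ()))

/-- The reproducing property for products of polarized abelian varieties all whose Hodge classes come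
from divisors. -/
theorem reproduces_prod (hsymm : ∀ i, (Z i)ᵀ = Z i) (hpos : ∀ i, (imM (Z i)).PosDef)
    (hdiv : ∀ (k : ℕ) (f : (∀ i, Fin (g i) ⊕ Fin (g i) → ℚ) [⋀^Fin k]→ₗ[ℚ] ℚ),
      IsHodge (perProd Z) f → f ∈ divisorSpan (perProd Z) k) (V : Coh v) :
    Reproduces (perProd Z) V := by
  classical
  intro F hF P hP
  have hspan : ∀ {k : ℕ} (f : (∀ i, Fin (g i) ⊕ Fin (g i) → ℚ) [⋀^Fin k]→ₗ[ℚ] ℚ),
      f ∈ HH (EE g) (fun _ : Unit => DZ (bigD ℂ Z)) k → f ∈ divisorSpan (perProd Z) k :=
    fun f hf => hdiv _ f (isHodge_of_isH Z hpos (hf ()))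
  obtain ⟨N, hN⟩ : ∃ N, N = Fintype.card (Fin (NB g) ⊕ Fin (NB g)) := ⟨_, rfl⟩
  have hdim : finrank ℚ (∀ i, Fin (g i) ⊕ Fin (g i) → ℚ) = N := by
    rw [hN]
    exact finrank_eq_card_basis (basisP g)
  have hbig : ∀ k, N < k → F k = 0 := by
    intro k hk
    refine AlternatingMap.ext fun w => ?_
    refine (F k).map_linearDependent w fun hw => ?_
    have h1 := hw.fintype_card_le_finrank
    rw [Fintype.card_fin, hdim] at h1
    omega
  have hsum : F = ∑ k ∈ Finset.range (N + 1),
      (Pi.single k (F k) : HAZ (∀ i, Fin (g i) ⊕ Fin (g i) → ℚ) v) := by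
    funext k
    rw [Finset.sum_apply]
    by_cases hk : k ∈ Finset.range (N + 1)
    · rw [Finset.sum_eq_single k]
      · rw [Pi.single_eq_same]
      · intro l _ hl
        exact Pi.single_eq_of_ne (Ne.symm hl) _
      · intro h0
        exact absurd hk h0
    · rw [Finset.sum_eq_zero]
      · refine hbig k ?_
        rw [Finset.mem_range] at hk
        omega
      · intro l hl
        refine Pi.single_eq_of_ne ?_ _
        rintro rfl
        exact hk hl
  rw [hsum]
  refine Submodule.sum_mem _ fun k hk => ?_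
  rw [Finset.mem_range] at hk
  have hkN : k + (N - k) = Fintype.card (Fin (NB g) ⊕ Fin (NB g)) := by omega
  have hq : Fintype.card (Fin (NB g) ⊕ Fin (NB g)) = Fintype.card (Fin k ⊕ Fin (N - k)) := by
    rw [Fintype.card_sum (α := Fin k), Fintype.card_fin, Fintype.card_fin, hkN]
  let e : Basis (Fin k ⊕ Fin (N - k)) ℚ (∀ i, Fin (g i) ⊕ Fin (g i) → ℚ) :=
    (basisP g).reindex (Fintype.equivOfCardEq hq)
  refine reproduce (X := Unit) (EE g)
    (fun _ => polOf (bigD_symm hsymm) (imM_bigD_posDef _ hpos))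
    (fun x y => rfl) (fun {κ} _ _ f hf => cfE_inj f hf)
    hkN e F (fun x _ => isH_of_isHodge Z hpos (cmp_hodge hF k x)) fun f hf β hβ => ?_
  exact hP k _ e f (hspan f hf) β (hspan β hβ)

end prod

end

end Pool.Agent.X311.Ah
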