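import Mathlib
import Pool.Agent.X311.GhcPeriods

/-!
# Hodge classes on abelian varieties with many independent periods and on their products with
# varieties whose Hodge filtration is defined over the field of the independent periods
-/

set_option linter.unusedSectionVars false

namespace Pool.Agent.X311

open Matrix Module Pool.Agent.H204R3.CM Pool.Agent.W437.HC Pool.Agent.W437.HD Pool.Agent.W437.HP
  Pool.Agent.W437.HQ Pool.Agent.W437.HR Pool.Agent.TH131.GHC Pool.Agent.TH504.VY
  Pool.Agent.TH504.VL Pool.Agent.TH504.CB Pool.Agent.TH125 Pool.Agent.Y91.PS Pool.Agent.W546.GHC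

noncomputable section

variable {G : ℕ} {Z : Matrix (Fin G) (Fin G) ℂ} {ι : Type} [Fintype ι] [DecidableEq ι]
    {g : ι → ℕ} {Y : ∀ i, Matrix (Fin (g i)) (Fin (g i)) ℂ}
    {E : ∀ i, Matrix (Fin G ⊕ Fin G) (Fin (g i) ⊕ Fin (g i)) ℚ}
    {F : ∀ i, Matrix (Fin (g i) ⊕ Fin (g i)) (Fin G ⊕ Fin G) ℚ}

/-- **Abelian varieties with many derivations**, all conclusions for the same set of factors. -/
theorem main_der'' {Z : ∀ i, Matrix (Fin (g i)) (Fin (g i)) ℂ} (hZ : ∀ i, (Z i)ᵀ = Z i)
    (hpos : ∀ i, (imM (Z i)).PosDef)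
    (hs : ∀ i, IsSimpleAV (Z i)) {S : Type} [Fintype S] (δ : S → Derivation ℚ ℂ ℂ)
    (hinj : Function.Injective (LinearMap.pi fun i => derL Z δ i)) :
    ∃ R : Finset ι, (∀ ρ : ℕ, (∑ i, g i) ^ 2 < 4 * Fintype.card S →
        (ρ + 1) ^ 2 + 2 * (∑ i, g i - ρ - 1) * (∑ i, g i - ρ) < 4 * Fintype.card S →
        ∑ i ∈ R, g i ≤ ρ) ∧ HodgeClassesDecompose Z R ∧ HodgeClassesDivisorial Z R ∧
      ∀ i, i ∉ R → HasPcs (DZ (Z i)) ∧ ∃ u, (∀ j ∈ R, derL Z δ j u = 0) ∧ derL Z δ i u ≠ 0 := by
  classical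
  have hWA : ∀ i, LinearMap.range (derL Z δ i) ≤ WA (Z i) := by
    rintro i _ ⟨c, rfl⟩
    rw [derL_apply]
    exact Submodule.sum_mem _ fun a _ => Submodule.smul_mem _ _ (der_mem (hZ i) (hpos i) (δ a))
  have hrank : Fintype.card S ≤
      finrank ℂ (LinearMap.range (LinearMap.pi fun i => derL Z δ i)) := by
    rw [LinearMap.finrank_range_of_inj hinj, Module.finrank_fintype_fun_eq_card]
  let Mv : ι → Prop := fun i => RealCentre (Z i) ∧
    (g i - 1) ^ 2 < 8 * finrank ℂ (LinearMap.range (derL Z δ i))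
  let R : Finset ι := Finset.univ.filter fun i => Rt (fun i => derL Z δ i) Mv i
  have hR : ∀ i, i ∈ R ↔ Rt (fun i => derL Z δ i) Mv i := fun i => by simp [R]
  have hpcs : ∀ i, Mv i → HasPcs (DZ (Z i)) := by
      rintro i ⟨hr, hd⟩
      refine hasPcs_of_real (hZ i) (hpos i) (hs i) ?_ hr
      have h1 : finrank ℂ (LinearMap.range (derL Z δ i)) ≤ finrank ℂ (WA (Z i)) :=
        Submodule.finrank_mono (hWA i)
      have h3 := sym_bound (LinearMap.range (derL Z δ i)) (by
        rintro _ ⟨u, rfl⟩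
        exact (hWA i ⟨u, rfl⟩).1)
      rw [Fintype.card_fin] at h3
      have h4 : g i ≠ 0 := by
        intro h
        have h5 : g i * (g i + 1) = 0 := Nat.mul_eq_zero.2 (Or.inl h)
        omega
      have h2 : g i ^ 2 + 1 ≤ (g i - 1) ^ 2 + 2 * g i := by
        obtain ⟨a, ha⟩ : ∃ a, g i = a + 1 := ⟨g i - 1, by omega⟩
        rw [ha, Nat.add_sub_cancel]
        exact le_of_eq (by ring)
      omega
  have hdec : HodgeClassesDecompose Z R := by
    refine decompose_pt (L := fun i => derL Z δ i) (Mv := Mv) hZ hpos hs hpcs ?_ hR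
    · intro c
      have h1 : bigD ℂ (fun i => derL Z δ i c) = ∑ a, c a • (bigD ℂ Z).map (δ a) := by
        have h2 : (fun i => derL Z δ i c) = ∑ a, c a • (fun i => (Z i).map (δ a)) := by
          funext i
          rw [derL_apply, Finset.sum_apply]
          rfl
        have h3 : bigD ℂ (fun i => derL Z δ i c) = bigL g (fun i => derL Z δ i c) := rfl
        rw [h3, h2, map_sum]
        refine Finset.sum_congr rfl fun a _ => ?_
        rw [map_smul, deriv_big]
        rfl
      rw [h1, Matrix.mul_sum, Matrix.sum_mul, Matrix.sum_mul]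
      refine Submodule.sum_mem _ fun a _ => ?_
      rw [Matrix.mul_smul, Matrix.smul_mul, Matrix.smul_mul]
      refine Submodule.smul_mem _ _ ?_
      exact LA_le_lie (Pool.Agent.W548.Odd.deriv_mem_LA (isPer_single (bigD_symm hZ) (imM_bigD_posDef Z hpos))
        (Set.mem_singleton _) (δ a))
  refine ⟨R, fun ρ h1 h2 => ?_, hdec, divisorial_pt hZ hpos hdec, fun i hi => ?_⟩
  swap
  · rw [hR] at hi
    unfold Rt at hi
    push Not at hi
    obtain ⟨u, hu, hne⟩ := hi
    refine ⟨hpcs i ?_, u, fun j hj => (hR j).1 hj u hu, hne⟩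
    by_contra hM
    exact hne (hu i hM)
  have h3 := bound_pt (L := fun i => derL Z δ i) (Mv := Mv) (D := Fintype.card S) (ρ := ρ)
    (w := fun _ => 1) ?_ ?_ hrank (fun _ => le_rfl) (by simpa using h1) (by simpa using h2) hR
  · simpa using h3
  · intro i u
    exact (hWA i ⟨u, rfl⟩).1
  · intro i hi
    exact few_pt (hZ i) (hpos i) (hs i) (hWA i) hi

/-- Hodge classes on products with a variety. -/
theorem Dec.times' (d : Dec Z Y E F) (hp : ∀ i, HasPcs (DZ (Y i))) {v : ℕ} (V : Coh v)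
    (hV : IsOfCMType V ∨ ∀ i, ∃ δ : Derivation ℚ ℂ ℂ, Raises V δ ∧ (Y i).map δ ≠ 0) (n : ℕ) :
    HodgeClassesOnTimes Z n V := by
  classical
  intro H hH
  obtain ⟨e⟩ : Nonempty (Fin (Fintype.card (Fin n × ι)) ≃ Fin n × ι) :=
    ⟨(Fintype.equivFin _).symm⟩
  have hfree : IsFree (fun j => Y (e j).2) V :=
    { symm := fun j => d.symmY _
      pos := fun j => d.posY _
      pcs := fun j => hp _
      ind := by
        rcases hV with hV | hV
        · exact (polOf (bigD_symm fun j => d.symmY (e j).2) (imM_bigD_posDef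
            (fun j => Y (e j).2) fun j => d.posY (e j).2)).indep_cm
            (simp_prod (fun j => Y (e j).2) (fun j => d.symmY (e j).2) (fun j => d.posY (e j).2)
              fun j => hp (e j).2) hV
        · exact indep_of_raises (Z := fun j => Y (e j).2) (fun j => d.symmY _) (fun j => d.posY _)
            (fun j => hp _) (fun j => d.simple _) V fun j => hV _ }
  have h1 : IsHodgeOnProduct (perProd fun j => Y (e j).2) V (compH (mPhi E e) H) :=
    isHodgeOnProduct_comp (mPhi E e) (tPhi Z E e) (d.per_phi e) V hH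
  have h2 : compH (mPhi E e) H ∈ crossSpan (perProd fun j => Y (e j).2) V :=
    hfree.mem_of_integrals h1 fun k j e f hf β _ =>
      Submodule.subset_span ⟨k, f, _, hf, hfree.integral_mem h1 e β, rfl⟩
  have h3 : H = compH (mPsi F e) (compH (mPhi E e) H) := by
    funext k
    ext w : 1
    unfold compH
    rw [AlternatingMap.compLinearMap_apply, AlternatingMap.compLinearMap_apply]
    congr 1
    funext l
    exact (d.phi_psi e (w l)).symm
  rw [h3]
  exact crossSpan_comp (mPsi F e) (tPsi Y F e) (d.per_psi e) V h2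

/-- **Abelian varieties with many algebraically independent periods.** -/
theorem many_periods2 {g : ℕ} (Z : Matrix (Fin g) (Fin g) ℂ) (hZ : Zᵀ = Z) (hpos : (imM Z).PosDef)
    (K : Subfield ℂ) {D : ℕ} (p : Fin D → Fin g × Fin g)
    (hp : AlgebraicIndependent K fun s => Z (p s).1 (p s).2) :
    ∃ (B : Submodule ℚ (Fin g ⊕ Fin g → ℚ)) (b r : ℕ) (Z₁ : Matrix (Fin b) (Fin b) ℂ)
      (Z₂ : Matrix (Fin r) (Fin r) ℂ),
      IsAbelianSubvariety Z B ∧ finrank ℚ B + 2 * r = 2 * g ∧ SmallQuotient g D r ∧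
      HodgeClassesFromQuotient Z B ∧ (∀ n, n * r ≤ 3 → HodgeClassesFromDivisors Z n) ∧
      IsPeriodMatrix Z₁ ∧ IsPeriodMatrix Z₂ ∧ IsIsogenousToProduct Z Z₁ Z₂ ∧
      (∀ (v : ℕ) (V : Coh v), IsOfCMType V ∨ HasFiltrationOver (periodField K Z₂) V →
        ∀ n, HodgeClassesOnTimes Z₁ n V) ∧
      (r = 0 → ∀ (v : ℕ) (V : Coh v), IsOfCMType V ∨ HasFiltrationOver K V →
        ∀ n, HodgeClassesOnTimes Z n V) := by
  classical
  obtain ⟨ι, hι, hι', d, Y, E, F, h1, h2, h3, h4, h5, h6, h7, h8⟩ := decomposes g g Z le_rfl hZ hpos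
  have hd : Dec Z Y E F := ⟨hZ, hpos, h1, h2, h3, h4, h5, h6, h7, h8⟩
  choose δ hδK hδ using fun s : Fin D => exists_derivationK hp (fun t => if t = s then (1 : ℂ) else 0)
  have hinj : Function.Injective (LinearMap.pi fun i => derL Y δ i) := by
    rw [← LinearMap.ker_eq_bot, LinearMap.ker_eq_bot']
    intro c hc
    have h9 : ∀ i, (Y i).map (comb δ c) = 0 := by
      intro i
      rw [map_comb]
      exact congrFun hc i
    have h10 := map_der_eq_zero hd.unit hd.unitY hd.tot (fun i => (hd.EJ i).symm) hd.FJ _ h9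
    funext t
    have h11 := congrFun (congrFun h10 (p t).1) (p t).2
    rw [Matrix.map_apply, comb_apply, Finset.sum_eq_single t] at h11
    · rw [hδ t t, if_pos rfl, mul_one] at h11
      exact h11
    · intro s _ hs
      rw [hδ s t, if_neg (Ne.symm hs), mul_zero]
    · intro h
      exact absurd (Finset.mem_univ _) h
  obtain ⟨R, hR1, hR2, hR3, hR4⟩ := main_der'' h1 h2 h3 δ hinj
  have hcombK : ∀ (u : Fin D → ℂ), ∀ x ∈ K, comb δ u x = 0 := by
    intro u x hx
    rw [comb_apply]
    refine Finset.sum_eq_zero fun s _ => ?_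
    have h9 : δ s x = 0 := hδK s ⟨x, hx⟩
    rw [h9, mul_zero]
  have hr : NB (fun i : {i // i ∈ R} => d i.1) = ∑ i ∈ R, d i := by
    unfold NB
    rw [Fintype.card_sigma]
    simp only [Fintype.card_fin]
    exact Finset.sum_coe_sort R d
  refine ⟨KR F R, NB (fun i : {i // i ∉ R} => d i.1), NB (fun i : {i // i ∈ R} => d i.1),
    bigD ℂ (fun i : {i // i ∉ R} => Y i.1), bigD ℂ (fun i : {i // i ∈ R} => Y i.1),
    isAbelianSubvariety_of hd.unit (hd.KR_jstable R), ?_, ?_, hd.quotient hR2, fun n hn => ?_,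
    ⟨bigD_symm fun i => h1 i.1, imM_bigD_posDef _ fun i => h2 i.1⟩,
    ⟨bigD_symm fun i => h1 i.1, imM_bigD_posDef _ fun i => h2 i.1⟩, hd.isogenous R, ?_, ?_⟩
  · rw [hr]
    exact hd.finrank_KR R
  · intro ρ ha hb'
    rw [hr]
    have h9 := hR1 ρ
    rw [hd.sum_g, Fintype.card_fin] at h9
    exact h9 ha hb'
  · rw [hr] at hn
    exact hd.divisors hR3 hn
  · intro v V hV
    refine (dec_big (Y := fun i : {i // i ∉ R} => Y i.1) (fun i => h1 i.1) (fun i => h2 i.1)
      (fun i => h3 i.1) (fun i => h8 i.1)).times' (fun i => (hR4 i.1 i.2).1) V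
      (hV.imp_right fun hV i => ?_)
    obtain ⟨-, u, hu0, hu⟩ := hR4 i.1 i.2
    refine ⟨comb δ u, raises_of_filtration hV _ (der_periodField _ (hcombK u) ?_), ?_⟩
    · rw [deriv_big]
      have h9 : (fun i : {i // i ∈ R} => (Y i.1).map (comb δ u)) = fun _ => 0 := by
        funext j
        rw [map_comb]
        exact hu0 j.1 j.2
      rw [h9]
      unfold bigD
      simp
    · rw [map_comb]
      exact hu
  · intro hr0 v V hV
    have hR : R = ∅ := by
      rw [Finset.eq_empty_iff_forall_notMem]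
      intro i hi
      have h9 := (Finset.sum_eq_zero_iff.1 (hr.symm.trans hr0)) i hi
      have h10 := h8 i
      omega
    subst hR
    refine hd.times' (fun i => (hR4 i (Finset.notMem_empty i)).1) V
      (hV.imp_right fun hV i => ?_)
    obtain ⟨-, u, -, hu⟩ := hR4 i (Finset.notMem_empty i)
    exact ⟨comb δ u, raises_of_filtration hV _ (hcombK u), by rw [map_comb]; exact hu⟩

/-- `2 D > g (g - 1)` -/
theorem eq_zero_of_small {g D r : ℕ} (h : SmallQuotient g D r) (hD : g * (g - 1) < 2 * D) :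
    r = 0 := by
  refine Nat.le_zero.1 (h 0 ?_ ?_)
  · rcases g with _ | g
    · simpa using hD
    · rw [Nat.add_sub_cancel] at hD
      nlinarith
  · rcases g with _ | g
    · simp at hD ⊢
      omega
    · simp only [Nat.add_sub_cancel, Nat.sub_zero] at hD ⊢
      nlinarith

end

end Pool.Agent.X311
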