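import Mathlib
import Pool.Agent.X311.Ah
import Pool.Agent.X311.Periods2

/-!
# Systems of cohomology classes on products with powers of abelian varieties with many periods
-/

set_option autoImplicit false
set_option linter.unusedSectionVars false

namespace Pool.Agent.X311.Ah

open Matrix Module Equiv Pool.Agent.H204R3.SP Pool.Agent.H204R3.CM Pool.Agent.W437.HC
  Pool.Agent.W437.HD Pool.Agent.W437.HP Pool.Agent.TH131.GHC Pool.Agent.TH504.VY
  Pool.Agent.TH504.CB Pool.Agent.W546.GHC

noncomputable section

/-- The cohomology of a point. -/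
def ptV : Coh 1 where
  dg _ := 0
  z := 0
  graded _ _ _ := rfl
  real := by simp
  decomp := by
    intro x
    refine Submodule.subset_span ⟨0, ?_⟩
    rw [zero_mulVec, Int.cast_zero, zero_smul]

theorem ptV_isOfCMType : IsOfCMType ptV := by
  intro σ
  change (0 : Matrix (Fin 1) (Fin 1) ℂ) * _ = _ * (0 : Matrix (Fin 1) (Fin 1) ℂ)
  rw [zero_mul, mul_zero]

section gen

variable {W T : Type} [AddCommGroup W] [Module ℚ W] [AddCommGroup T] [Module ℂ T]
  {per : W →+ T}

/-- Hodge classes come from divisors if they do so on the product with a point. -/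
theorem divisor_of_point (h : ∀ F, IsHodgeOnProduct per ptV F → F ∈ crossSpan per ptV) {k : ℕ}
    {f : W [⋀^Fin k]→ₗ[ℚ] ℚ} (hf : IsHodgeOnProduct per ptV (cross f (fun _ => 1))) :
    f ∈ divisorSpan per k := by
  have h1 := h _ hf
  have key : ∀ F ∈ crossSpan per ptV, cmp 0 (F k) ∈ divisorSpan per k := by
    intro F hF
    unfold crossSpan at hF
    induction hF using Submodule.span_induction with
    | mem F hF =>
      obtain ⟨l, f, x, hf, -, rfl⟩ := hF
      by_cases h : k = l
      · subst h
        have h1 : cmp 0 (cross f x k) = x 0 • f := by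
          ext w
          rw [cross, Pi.single_eq_same]
          change f w * x 0 = x 0 * f w
          ring
        rw [h1]
        exact Submodule.smul_mem _ _ hf
      · have h1 : cmp 0 (cross f x k) = 0 := by
          ext w
          rw [cross, Pi.single_eq_of_ne h]
          rfl
        rw [h1]
        exact Submodule.zero_mem _
    | zero => exact Submodule.zero_mem _
    | add x y _ _ hx hy => exact Submodule.add_mem _ hx hy
    | smul r x _ hx => exact Submodule.smul_mem _ _ hx
  have h2 := key _ h1
  have h3 : cmp 0 ((cross f (fun _ => 1) : HAZ W 1) k) = f := by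
    ext w
    rw [cross, Pi.single_eq_same]
    change f w * 1 = f w
    rw [mul_one]
  rwa [h3] at h2

end gen

variable {g : ℕ} {Z : Matrix (Fin g) (Fin g) ℂ}

theorem perPow_eq (n : ℕ) : perPow Z n = perProd (g := fun _ : Fin n => g) (fun _ => Z) := rfl

theorem reproduces_pow (hZ : IsPeriodMatrix Z) {n : ℕ} (hdiv : HodgeClassesFromDivisors Z n) {v : ℕ}
    (V : Coh v) : Reproduces (perPow Z n) V :=
  reproduces_prod (g := fun _ : Fin n => g) (fun _ => Z) (fun _ => hZ.1) (fun _ => hZ.2) hdiv V

end

end Pool.Agent.X311.Ah
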