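import Mathlib
import Pool.Agent.X311.AhDefs

/-!
# Hodge classes on complex tori and the Hodge operator
-/

set_option autoImplicit false
set_option linter.unusedSectionVars false

namespace Pool.Agent.X311.Ah

open Matrix Module Equiv Pool.Agent.H204R3.CM Pool.Agent.TH131.GHC Pool.Agent.TH504.VY
  Pool.Agent.TH504.CB

noncomputable section

variable {T : Type} [AddCommGroup T] [Module ℂ T] {k : ℕ}

/-- The expansion of a multilinear map on a line. -/
theorem expand_line (A : MultilinearMap ℝ (fun _ : Fin k => T) ℝ) (u : Fin k → T) (t : ℝ) :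
    A (fun l => u l + t • (Complex.I • u l)) =
      ∑ s : Finset (Fin k), t ^ s.card * A (s.piecewise (fun l => Complex.I • u l) u) := by
  classical
  have h1 := A.map_add_univ (t • fun l => Complex.I • u l) u
  have h2 : (t • fun l => Complex.I • u l) + u = fun l => u l + t • (Complex.I • u l) := by
    funext l
    rw [Pi.add_apply, Pi.smul_apply, add_comm]
  rw [h2] at h1
  rw [h1]
  refine Finset.sum_congr rfl fun s _ => ?_
  have h3 := A.map_piecewise_smul (fun _ => t) (s.piecewise (fun l => Complex.I • u l) u) s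
  rw [Finset.prod_const, smul_eq_mul] at h3
  rw [← h3]
  congr 1
  funext l
  by_cases hl : l ∈ s
  · simp only [Finset.piecewise_eq_of_mem _ _ _ hl, Pi.smul_apply]
  · simp only [Finset.piecewise_eq_of_notMem _ _ _ hl]

theorem sum_card_one (b : Finset (Fin k) → ℝ) :
    ∑ s : Finset (Fin k), (if s.card = 1 then b s else 0) = ∑ l : Fin k, b {l} := by
  classical
  rw [← Finset.sum_filter]
  symm
  refine Finset.sum_bij (fun l _ => {l}) ?_ ?_ ?_ ?_
  · intro l _
    rw [Finset.mem_filter]
    exact ⟨Finset.mem_univ _, Finset.card_singleton l⟩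
  · intro l _ l' _ h
    exact Finset.singleton_injective h
  · intro s hs
    obtain ⟨l, rfl⟩ := Finset.card_eq_one.1 (Finset.mem_filter.1 hs).2
    exact ⟨l, Finset.mem_univ _, rfl⟩
  · intro l _
    rfl

/-- The infinitesimal form of the invariance under rotations. -/
theorem inf_of_rot (A : MultilinearMap ℝ (fun _ : Fin k => T) ℝ)
    (hA : ∀ z : ℂ, ‖z‖ = 1 → ∀ u : Fin k → T, A (fun l => z • u l) = A u) (u : Fin k → T) :
    ∑ l, A (Function.update u l (Complex.I • u l)) = 0 := by
  classical
  let P : ℝ → ℝ := fun t => A (fun l => u l + t • (Complex.I • u l))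
  have hP : ∀ t : ℝ, P t = (Real.sqrt (1 + t ^ 2)) ^ k * A u := by
    intro t
    have h0 : 0 < Real.sqrt (1 + t ^ 2) := Real.sqrt_pos.2 (by positivity)
    set r := Real.sqrt (1 + t ^ 2) with hr
    let z : ℂ := (1 + t * Complex.I) / (r : ℂ)
    have hrc : (r : ℂ) ≠ 0 := by exact_mod_cast h0.ne'
    have hz : ‖z‖ = 1 := by
      have h1 : ‖(1 + t * Complex.I : ℂ)‖ = r := by
        rw [hr, Complex.norm_eq_sqrt_sq_add_sq]
        congr 1
        simp
      rw [norm_div, h1, Complex.norm_real, Real.norm_of_nonneg h0.le, div_self h0.ne']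
    have h1 := hA z hz u
    have h2 : (fun l => u l + t • (Complex.I • u l)) = fun l => r • (z • u l) := by
      funext l
      have h3 : (r : ℂ) * z = 1 + t * Complex.I := mul_div_cancel₀ _ hrc
      have h4 : r • (z • u l) = ((r : ℂ) * z) • u l := by
        rw [mul_smul]
        exact RCLike.real_smul_eq_coe_smul (K := ℂ) r (z • u l)
      rw [h4, h3, add_smul, one_smul, mul_smul]
      congr 1
    change A _ = _
    rw [h2, A.map_smul_univ (fun _ => r), Finset.prod_const, Finset.card_univ, Fintype.card_fin,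
      smul_eq_mul, h1]
  have heven : ∀ t, P (-t) = P t := by
    intro t
    rw [hP, hP, neg_sq]
  have hder : HasDerivAt P (∑ l, A (Function.update u l (Complex.I • u l))) 0 := by
    have h1 : HasDerivAt (fun t : ℝ => ∑ s : Finset (Fin k), t ^ s.card *
        A (s.piecewise (fun l => Complex.I • u l) u))
        (∑ s : Finset (Fin k), ((s.card : ℝ) * (0 : ℝ) ^ (s.card - 1)) *
          A (s.piecewise (fun l => Complex.I • u l) u)) 0 := by
      refine HasDerivAt.fun_sum fun s _ => ?_
      exact (hasDerivAt_pow s.card 0).mul_const _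
    have h2 : P = fun t : ℝ => ∑ s : Finset (Fin k), t ^ s.card *
        A (s.piecewise (fun l => Complex.I • u l) u) := funext fun t => expand_line A u t
    rw [h2]
    convert h1 using 1
    have h3 : ∀ s : Finset (Fin k), ((s.card : ℝ) * (0 : ℝ) ^ (s.card - 1)) *
          A (s.piecewise (fun l => Complex.I • u l) u) =
        if s.card = 1 then A (s.piecewise (fun l => Complex.I • u l) u) else 0 := by
      intro s
      by_cases hs : s.card = 1
      · rw [if_pos hs, hs]
        simp
      · rw [if_neg hs]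
        by_cases hs0 : s.card = 0
        · rw [hs0]
          simp
        · rw [zero_pow (by omega), mul_zero, zero_mul]
    rw [Finset.sum_congr rfl (fun s _ => h3 s), sum_card_one]
    refine Finset.sum_congr rfl fun l _ => ?_
    congr 1
    rw [Finset.piecewise_singleton]
  have hder2 : HasDerivAt P (-(∑ l, A (Function.update u l (Complex.I • u l)))) 0 := by
    have h1 : HasDerivAt (fun t => P (-t)) (-(∑ l, A (Function.update u l (Complex.I • u l)))) 0 := by
      have h2 := HasDerivAt.scomp (x := (0 : ℝ)) (g₁ := P) (h := fun t : ℝ => -t) (h' := -1)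
        (g₁' := ∑ l, A (Function.update u l (Complex.I • u l))) (by rw [neg_zero]; exact hder)
        (hasDerivAt_neg 0)
      rw [neg_smul, one_smul] at h2
      exact h2
    have h3 : (fun t => P (-t)) = P := funext heven
    rwa [h3] at h1
  have h1 := hder.unique hder2
  linarith

variable {W : Type} [AddCommGroup W] [Module ℚ W] {per : W →+ T}

/-- The alternating complex form of a Hodge class. -/
theorem exists_alt {f : W [⋀^Fin k]→ₗ[ℚ] ℚ} (hf : IsHodge per f) :
    ∃ Φ : T [⋀^Fin k]→ₗ[ℝ] ℝ, (∀ w : Fin k → W, Φ (fun l => per (w l)) = ((f w : ℚ) : ℝ)) ∧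
      ∀ u : Fin k → T, ∑ l, Φ (Function.update u l (Complex.I • u l)) = 0 := by
  classical
  obtain ⟨ψ, h1, h2⟩ := hf
  have hne : ((k.factorial : ℕ) : ℝ) ≠ 0 := Nat.cast_ne_zero.2 (Nat.factorial_ne_zero _)
  refine ⟨((k.factorial : ℕ) : ℝ)⁻¹ • MultilinearMap.alternatization ψ, fun w => ?_, fun u => ?_⟩
  · rw [AlternatingMap.smul_apply, MultilinearMap.alternatization_apply, smul_eq_mul]
    have h3 : ∀ σ : Perm (Fin k), Perm.sign σ • (ψ.domDomCongr σ) (fun l => per (w l)) =
        ((f w : ℚ) : ℝ) := by
      intro σ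
      rw [MultilinearMap.domDomCongr_apply]
      have h4 := h1 (fun l => w (σ l))
      have h5 := f.map_perm w σ
      have h6 : f (fun l => w (σ l)) = Perm.sign σ • f w := h5
      rw [h4, h6, Units.smul_def, Units.smul_def, zsmul_eq_mul, zsmul_eq_mul, Rat.cast_mul,
        Rat.cast_intCast, ← mul_assoc, ← Int.cast_mul, ← Units.val_mul, Int.units_mul_self,
        Units.val_one, Int.cast_one, one_mul]
    rw [Finset.sum_congr rfl (fun σ _ => h3 σ), Finset.sum_const, Finset.card_univ,
      Fintype.card_perm, Fintype.card_fin, nsmul_eq_mul, ← mul_assoc, inv_mul_cancel₀ hne, one_mul]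
  · have h3 := inf_of_rot (((k.factorial : ℕ) : ℝ)⁻¹ •
      (MultilinearMap.alternatization ψ).toMultilinearMap) (fun z hz u => ?_) u
    · exact h3
    · change ((k.factorial : ℕ) : ℝ)⁻¹ • (MultilinearMap.alternatization ψ) (fun l => z • u l) =
        ((k.factorial : ℕ) : ℝ)⁻¹ • (MultilinearMap.alternatization ψ) u
      congr 1
      rw [MultilinearMap.alternatization_apply, MultilinearMap.alternatization_apply]
      refine Finset.sum_congr rfl fun σ _ => ?_
      congr 1
      rw [MultilinearMap.domDomCongr_apply, MultilinearMap.domDomCongr_apply]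
      exact h2 z hz _

/-- The product of a Hodge class on a complex torus and a Hodge class on a variety. -/
theorem isHodgeOnProduct_cross {v : ℕ} {V : Coh v} {f : W [⋀^Fin k]→ₗ[ℚ] ℚ} (hf : IsHodge per f)
    {x : Fin v → ℚ} (hx : IsHodgeOn V x) : IsHodgeOnProduct per V (cross f x) := by
  classical
  obtain ⟨Φ, h1, h2⟩ := exists_alt hf
  let e : ℝ →ₗ[ℝ] (Fin v → ℂ) := LinearMap.toSpanSingleton ℝ (Fin v → ℂ) (cv x)
  refine ⟨Pi.single k (e.compAlternatingMap Φ), fun l w => ?_, fun l u => ?_⟩
  · by_cases h : l = k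
    · subst h
      rw [Pi.single_eq_same, cross, Pi.single_eq_same]
      change (Φ fun l => per (w l)) • cv x = cv (f w • x)
      rw [h1]
      funext b
      simp [cv]
    · rw [Pi.single_eq_of_ne h, cross, Pi.single_eq_of_ne h]
      funext b
      simp [cv]
  · by_cases h : l = k
    · subst h
      rw [Pi.single_eq_same]
      have h3 : ∑ i, e.compAlternatingMap Φ (Function.update u i (Complex.I • u i)) = 0 := by
        change ∑ i, (Φ (Function.update u i (Complex.I • u i))) • cv x = 0
        rw [← Finset.sum_smul, h2, zero_smul]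
      have h4 : V.z *ᵥ (e.compAlternatingMap Φ u) = 0 := by
        change V.z *ᵥ ((Φ u) • cv x) = 0
        have h5 : (Φ u) • cv x = ((Φ u : ℝ) : ℂ) • cv x :=
          RCLike.real_smul_eq_coe_smul (K := ℂ) (Φ u) (cv x)
        rw [h5, mulVec_smul, show V.z *ᵥ cv x = 0 from hx, smul_zero]
      rw [h3, h4, smul_zero, Int.cast_zero, zero_smul, add_zero]
    · rw [Pi.single_eq_of_ne h]
      simp

end

end Pool.Agent.X311.Ah
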