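import Mathlib
import Pool.Agent.X311.Ah2
import Pool.Agent.X311.Inf

/-!
# Systems of classes on products of all varieties with abelian varieties with many periods
-/

set_option autoImplicit false
set_option linter.unusedSectionVars false

namespace Pool.Agent.X311.Ah

open Matrix Module Pool.Agent.H204R3.CM Pool.Agent.W437.HC Pool.Agent.TH131.GHC
  Pool.Agent.TH504.VY Pool.Agent.TH504.CB

noncomputable section

variable {g : ℕ} {Z : Matrix (Fin g) (Fin g) ℂ}

/-- If all Hodge classes on the product of a power of `A` and a point are products, all Hodge classes on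
the power are combinations of products of divisor classes. -/
theorem divisors_of_pt {n : ℕ} (h : HodgeClassesOnTimes Z n ptV) : HodgeClassesFromDivisors Z n := by
  intro k f hf
  refine divisor_of_point h (isHodgeOnProduct_cross hf ?_)
  change (0 : Matrix (Fin 1) (Fin 1) ℂ) *ᵥ _ = 0
  rw [zero_mulVec]

theorem systems_of_times (hZ : IsPeriodMatrix Z) {n : ℕ} (hpt : HodgeClassesOnTimes Z n ptV) {v : ℕ}
    {V : Coh v} (h : HodgeClassesOnTimes Z n V) : SystemsAreProducts (perPow Z n) V :=
  systems_of_reproduces h (reproduces_pow hZ (divisors_of_pt hpt) V)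

/-- All statements. -/
theorem all_of_times (hZ : IsPeriodMatrix Z) {n : ℕ} (hpt : HodgeClassesOnTimes Z n ptV) {v : ℕ}
    {V : Coh v} (h : HodgeClassesOnTimes Z n V) :
    SystemsAreProducts (perPow Z n) V ∧ ComparisonFromY (perPow Z n) V ∧
      AllHodgeFromY (perPow Z n) V := by
  have h1 := systems_of_times hZ hpt h
  exact ⟨h1, comparison_of_systems h1, allHodge_of_span h⟩

end

end Pool.Agent.X311.Ah
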