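import Mathlib
import Pool.Agent.X311.GhcPeriodsDefs

/-!
# Varieties with independent periods: definitions

The rational cohomology of a smooth projective variety `X` is given by `V : Coh v`: a rational space
`ℚ ^ v` with a basis of homogeneous elements and the Hodge operator `V.z`, the multiplication by
`p - q` on the classes of type `(p, q)`. By the Künneth formula the cohomology of the product of the powers
`X k ^ n k`, `k ∈ κ`, is the tensor product of the `n k`-th tensor powers of the spaces `ℚ ^ x k`, that is
the space of the functions of `a`, where `a k l : Fin (x k)` for `k : κ` and `l : Fin (n k)`, and the Hodge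
operator of the product is the sum of the Hodge operators of all factors.
-/

set_option autoImplicit false

namespace Pool.Agent.X311.Ip

open Pool.Agent.TH131.GHC

/-- The space `L` of rational matrices is a Lie algebra whose complexification contains the Hodge
operator. -/
def ContainsHodge {v : ℕ} (V : Coh v) (L : Submodule ℚ (Matrix (Fin v) (Fin v) ℚ)) : Prop :=
  (∀ A ∈ L, ∀ B ∈ L, A * B - B * A ∈ L) ∧
    V.z ∈ Submodule.span ℂ ((fun A => A.map (algebraMap ℚ ℂ)) '' (L : Set (Matrix (Fin v) (Fin v) ℚ)))

/-- The Hodge Lie algebra: the intersection of all rational Lie algebras whose complexification contains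
the Hodge operator. It is the Lie algebra of the Hodge group, which together with the scalars is the
Mumford-Tate group. -/
noncomputable def hodgeLie {v : ℕ} (V : Coh v) : Submodule ℚ (Matrix (Fin v) (Fin v) ℚ) :=
  sInf {L | ContainsHodge V L}

/-- The Hodge Lie algebra is a simple Lie algebra over `ℚ`: it is not commutative and has no ideals besides
`0` and itself. -/
def HasSimpleHodgeGroup {v : ℕ} (V : Coh v) : Prop :=
  (∃ A ∈ hodgeLie V, ∃ B ∈ hodgeLie V, A * B - B * A ≠ 0) ∧
    ∀ I : Submodule ℚ (Matrix (Fin v) (Fin v) ℚ), I ≤ hodgeLie V →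
      (∀ A ∈ hodgeLie V, ∀ B ∈ I, A * B - B * A ∈ I) → I = ⊥ ∨ I = hodgeLie V

/-- The periods of `X` (with cohomology `V`) are not all algebraic over the periods of `Y` (with
cohomology `V'`): there is a field `K` of complex numbers which contains all complex numbers
algebraic over `K`, such that the Hodge filtration of the cohomology of `Y` is defined over `K` and the
Hodge filtration of the cohomology of `X` is not. -/
def PeriodsNotAlgebraicOver {v v' : ℕ} (V : Coh v) (V' : Coh v') : Prop :=
  ∃ K : Subfield ℂ, (∀ c : ℂ, IsAlgebraic K c → c ∈ K) ∧ HasFiltrationOver K V' ∧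
    ¬ HasFiltrationOver K V

/-- The variety `X` (with cohomology `V`, and simple Hodge group) is independent of `Y` (with cohomology
`V'`): the periods of `X` are not all algebraic over the periods of `Y`, or the dimension of the Hodge
group of `X` is larger than the dimension of the Hodge group of `Y`, or the Hodge group of `Y` is
commutative (so that `Y` is of CM type). -/
def IndependentOf {v v' : ℕ} (V : Coh v) (V' : Coh v') : Prop :=
  PeriodsNotAlgebraicOver V V' ∨
    Module.finrank ℚ (hodgeLie V') < Module.finrank ℚ (hodgeLie V) ∨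
    ∀ A ∈ hodgeLie V', ∀ B ∈ hodgeLie V', A * B = B * A

/-- `f` is a Hodge class on the power `X ^ n` of the variety with cohomology `V`. -/
def IsHodgeOnPower {v n : ℕ} (V : Coh v) (f : (Fin n → Fin v) → ℚ) : Prop :=
  ∀ a : Fin n → Fin v, ∑ l, ∑ c, V.z (a l) c * ((f (Function.update a l c) : ℚ) : ℂ) = 0

variable {κ : Type} [Fintype κ] [DecidableEq κ] {x : κ → ℕ}

/-- `F` is a Hodge class on the product of the powers `X k ^ n k`. -/
def IsHodgeOnProductOfPowers (X : ∀ k, Coh (x k)) {n : κ → ℕ}
    (F : (∀ k, Fin (n k) → Fin (x k)) → ℚ) : Prop :=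
  ∀ a : ∀ k, Fin (n k) → Fin (x k), ∑ k, ∑ l, ∑ c, (X k).z (a k l) c *
    ((F (Function.update a k (Function.update (a k) l c)) : ℚ) : ℂ) = 0

/-- The exterior product of the classes `f k` on the powers `X k ^ n k`. -/
def exteriorProduct {n : κ → ℕ} (f : ∀ k, (Fin (n k) → Fin (x k)) → ℚ) :
    (∀ k, Fin (n k) → Fin (x k)) → ℚ :=
  fun a => ∏ k, f k (a k)

/-- The span of the exterior products of Hodge classes on the powers `X k ^ n k`. -/
noncomputable def productsOfHodgeClasses (X : ∀ k, Coh (x k)) (n : κ → ℕ) :
    Submodule ℚ ((∀ k, Fin (n k) → Fin (x k)) → ℚ) :=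
  Submodule.span ℚ {F | ∃ f : ∀ k, (Fin (n k) → Fin (x k)) → ℚ,
    (∀ k, IsHodgeOnPower (X k) (f k)) ∧ F = exteriorProduct f}

/-- The integral of the product of the class `F` with classes on the powers `X j ^ n j`, `j ≠ k`, over these
factors: a class on `X k ^ n k`. The class on `X j ^ n j` is given by the coefficients `β j` of the linear
form which maps `f` to the integral of its product with `f`. -/
def integrateOthers {n : κ → ℕ} (k : κ) (β : ∀ j, (Fin (n j) → Fin (x j)) → ℚ)
    (F : (∀ k, Fin (n k) → Fin (x k)) → ℚ) : (Fin (n k) → Fin (x k)) → ℚ :=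
  fun c => ∑ a : (∀ k, Fin (n k) → Fin (x k)),
    if a k = c then (∏ j ∈ Finset.univ.erase k, β j (a j)) * F a else 0

/-- `C`, `P k` are spaces of Hodge classes on the product of the powers `X k ^ n k` and on the powers, and
`D k` is the space of the coefficients of the linear forms on the cohomology of `X k ^ n k` which are given
by the intersection with the classes of the system. Exterior products and direct images of products
with classes of the system are in the system, and so are the unit class and the class of a point. If all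
Hodge classes on a power `X k ^ n k` are in the
system, then no nonzero Hodge class on it is orthogonal to the classes of the system (by the
Hodge-Riemann bilinear relations). The algebraic classes (with rational coefficients), the absolute Hodge
classes and the motivated classes have these properties. -/
structure IsSystem (X : ∀ k, Coh (x k)) (n : κ → ℕ)
    (C : Submodule ℚ ((∀ k, Fin (n k) → Fin (x k)) → ℚ))
    (P D : ∀ k, Submodule ℚ ((Fin (n k) → Fin (x k)) → ℚ)) : Prop where
  hodge : ∀ F ∈ C, IsHodgeOnProductOfPowers X F
  hodge_power : ∀ k, ∀ f ∈ P k, IsHodgeOnPower (X k) f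
  product_mem : ∀ f : ∀ k, (Fin (n k) → Fin (x k)) → ℚ, (∀ k, f k ∈ P k) → exteriorProduct f ∈ C
  integral_mem : ∀ F ∈ C, ∀ (k : κ) (β : ∀ j, (Fin (n j) → Fin (x j)) → ℚ),
    (∀ j, j ≠ k → β j ∈ D j) → integrateOthers k β F ∈ P k
  unit : ∀ k, ∃ f ∈ P k, ∃ β ∈ D k, ∑ c, β c * f c ≠ 0
  duality : ∀ k, (∀ f, IsHodgeOnPower (X k) f → f ∈ P k) → ∀ f, IsHodgeOnPower (X k) f → f ≠ 0 →
    ∃ β ∈ D k, ∑ c, β c * f c ≠ 0

/-- The span of the exterior products of classes in `P k` on the powers `X k ^ n k`. -/
noncomputable def productsOf {n : κ → ℕ} (P : ∀ k, Submodule ℚ ((Fin (n k) → Fin (x k)) → ℚ)) :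
    Submodule ℚ ((∀ k, Fin (n k) → Fin (x k)) → ℚ) :=
  Submodule.span ℚ {F | ∃ f : ∀ k, (Fin (n k) → Fin (x k)) → ℚ,
    (∀ k, f k ∈ P k) ∧ F = exteriorProduct f}

end Pool.Agent.X311.Ip
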