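import Mathlib
import Pool.Agent.X311.IpDefs
import Pool.Agent.X311.IndepF

/-!
# Rational structures and the action on tensor products
-/

set_option autoImplicit false
set_option linter.unusedSectionVars false

namespace Pool.Agent.X311.Ip

open Matrix Module Pool.Agent.TH131.GHC

noncomputable section

variable {κ : Type} [Fintype κ] [DecidableEq κ] {x : κ → ℕ}

/-- Families of matrices. -/
abbrev Fam (x : κ → ℕ) (R : Type) : Type := ∀ k, Matrix (Fin (x k)) (Fin (x k)) R

/-- a rational family as a complex family -/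
def cG (A : Fam x ℚ) : Fam x ℂ := fun k => (A k).map (algebraMap ℚ ℂ)

/-- the components -/
def phi (φ : ℂ →ₗ[ℚ] ℚ) (A : Fam x ℂ) : Fam x ℚ := fun k => (A k).map φ

/-- the complexification -/
def cL (L : Submodule ℚ (Fam x ℚ)) : Submodule ℂ (Fam x ℂ) := Submodule.span ℂ (cG '' (L : Set (Fam x ℚ)))

theorem phi_smul_cG (φ : ℂ →ₗ[ℚ] ℚ) (c : ℂ) (A : Fam x ℚ) : phi φ (c • cG A) = φ c • A := by
  funext k
  ext i j
  change φ (c * algebraMap ℚ ℂ (A k i j)) = φ c * A k i j
  have h1 : c * algebraMap ℚ ℂ (A k i j) = (A k i j) • c := by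
    rw [Algebra.smul_def, mul_comm]
  rw [h1, map_smul, smul_eq_mul, mul_comm]

theorem phi_add (φ : ℂ →ₗ[ℚ] ℚ) (A B : Fam x ℂ) : phi φ (A + B) = phi φ A + phi φ B := by
  funext k
  ext i j
  exact map_add φ _ _

theorem phi_sum (φ : ℂ →ₗ[ℚ] ℚ) {ι : Type} (s : Finset ι) (A : ι → Fam x ℂ) :
    phi φ (∑ i ∈ s, A i) = ∑ i ∈ s, phi φ (A i) := by
  classical
  induction s using Finset.induction_on with
  | empty =>
    rw [Finset.sum_empty, Finset.sum_empty]
    funext k
    ext i j
    exact map_zero φ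
  | insert a s ha ih => rw [Finset.sum_insert ha, Finset.sum_insert ha, phi_add, ih]

theorem phi_mem {L : Submodule ℚ (Fam x ℚ)} {A : Fam x ℂ} (hA : A ∈ cL L) (φ : ℂ →ₗ[ℚ] ℚ) :
    phi φ A ∈ L := by
  classical
  unfold cL at hA
  rw [Submodule.mem_span_image_iff_exists_fun] at hA
  obtain ⟨t, ht, c, hc⟩ := hA
  rw [← hc, phi_sum]
  refine Submodule.sum_mem _ fun i _ => ?_
  rw [phi_smul_cG]
  exact Submodule.smul_mem _ _ (ht i.2)

theorem mem_of_phi {L : Submodule ℚ (Fam x ℚ)} {A : Fam x ℂ} (h : ∀ φ : ℂ →ₗ[ℚ] ℚ, phi φ A ∈ L) :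
    A ∈ cL L := by
  classical
  let b := Basis.ofVectorSpace ℚ ℂ
  let S : Finset (Basis.ofVectorSpaceIndex ℚ ℂ) :=
    Finset.univ.biUnion fun p : (k : κ) × (Fin (x k) × Fin (x k)) =>
      (b.repr (A p.1 p.2.1 p.2.2)).support
  have h1 : A = ∑ t ∈ S, (b t) • cG (phi (b.coord t) A) := by
    funext k
    ext i j
    rw [Finset.sum_apply, Matrix.sum_apply]
    have h2 := b.linearCombination_repr (A k i j)
    rw [Finsupp.linearCombination_apply, Finsupp.sum_of_support_subset (s := S)] at h2
    · refine h2.symm.trans (Finset.sum_congr rfl fun t _ => ?_)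
      rw [Algebra.smul_def, mul_comm]
      rfl
    · intro t ht
      exact Finset.mem_biUnion.2 ⟨⟨k, i, j⟩, Finset.mem_univ _, ht⟩
    · intro t _
      exact zero_smul _ _
  rw [h1]
  exact Submodule.sum_mem _ fun t _ => Submodule.smul_mem _ _ (Submodule.subset_span ⟨_, h _, rfl⟩)

/-- a complex number is zero if its components are zero -/
theorem eq_zero_of_phi {c : ℂ} (h : ∀ φ : ℂ →ₗ[ℚ] ℚ, φ c = 0) : c = 0 := by
  let b := Basis.ofVectorSpace ℚ ℂ
  refine b.repr.injective (Finsupp.ext fun t => ?_)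
  rw [map_zero]
  exact h (b.coord t)

theorem phi_one_mem {v : ℕ} {L : Submodule ℚ (Matrix (Fin v) (Fin v) ℚ)} {A : Matrix (Fin v) (Fin v) ℂ}
    (hA : A ∈ Submodule.span ℂ
      ((fun A => A.map (algebraMap ℚ ℂ)) '' (L : Set (Matrix (Fin v) (Fin v) ℚ))))
    (φ : ℂ →ₗ[ℚ] ℚ) : A.map φ ∈ L := by
  induction hA using Submodule.span_induction generalizing φ with
  | mem A hA =>
    obtain ⟨B, hB, rfl⟩ := hA
    have h1 : (B.map (algebraMap ℚ ℂ)).map φ = φ 1 • B := by
      ext i j
      change φ (algebraMap ℚ ℂ (B i j)) = φ 1 * B i j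
      rw [Algebra.algebraMap_eq_smul_one, map_smul, smul_eq_mul, mul_comm]
    change (B.map (algebraMap ℚ ℂ)).map φ ∈ L
    rw [h1]
    exact Submodule.smul_mem _ _ hB
  | zero =>
    have h1 : (0 : Matrix (Fin v) (Fin v) ℂ).map φ = 0 := by
      ext i j
      exact map_zero φ
    rw [h1]
    exact Submodule.zero_mem _
  | add A B _ _ hA hB =>
    have h1 : (A + B).map φ = A.map φ + B.map φ := by
      ext i j
      exact map_add φ _ _
    rw [h1]
    exact Submodule.add_mem _ (hA φ) (hB φ)
  | smul c A _ hA =>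
    exact hA (φ.comp ((LinearMap.mul ℚ ℂ) c))

section act

variable {R : Type} [CommRing R] {n : κ → ℕ}

/-- Tensors. -/
abbrev Ten (x n : κ → ℕ) (R : Type) : Type := (∀ k, Fin (n k) → Fin (x k)) → R

/-- Update of one index. -/
def upd (a : ∀ k, Fin (n k) → Fin (x k)) (p : (k : κ) × Fin (n k)) (c : Fin (x p.1)) :
    ∀ k, Fin (n k) → Fin (x k) :=
  Function.update a p.1 (Function.update (a p.1) p.2 c)

theorem upd_self (a : ∀ k, Fin (n k) → Fin (x k)) (p : (k : κ) × Fin (n k)) (c : Fin (x p.1)) :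
    upd a p c p.1 p.2 = c := by
  unfold upd
  rw [Function.update_self, Function.update_self]

theorem upd_of_ne (a : ∀ k, Fin (n k) → Fin (x k)) {p q : (k : κ) × Fin (n k)} (c : Fin (x p.1))
    (h : p ≠ q) : upd a p c q.1 q.2 = a q.1 q.2 := by
  obtain ⟨k, l⟩ := p
  obtain ⟨k', l'⟩ := q
  unfold upd
  by_cases hk : k' = k
  · subst hk
    change Function.update a k' (Function.update (a k') l c) k' l' = a k' l'
    rw [Function.update_self, Function.update_of_ne]
    rintro rfl
    exact h rfl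
  · change Function.update a k (Function.update (a k) l c) k' l' = a k' l'
    rw [Function.update_of_ne hk]

theorem upd_upd (a : ∀ k, Fin (n k) → Fin (x k)) (p : (k : κ) × Fin (n k)) (c d : Fin (x p.1)) :
    upd (upd a p c) p d = upd a p d := by
  unfold upd
  rw [Function.update_self, Function.update_idem, Function.update_idem]

theorem ext_pos {a b : ∀ k, Fin (n k) → Fin (x k)} (h : ∀ q : (k : κ) × Fin (n k), a q.1 q.2 = b q.1 q.2) :
    a = b :=
  funext fun k => funext fun l => h ⟨k, l⟩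

theorem upd_comm (a : ∀ k, Fin (n k) → Fin (x k)) {p q : (k : κ) × Fin (n k)} (c : Fin (x p.1))
    (d : Fin (x q.1)) (h : p ≠ q) : upd (upd a p c) q d = upd (upd a q d) p c := by
  refine ext_pos fun r => ?_
  by_cases hp : p = r
  · subst hp
    rw [upd_self, upd_of_ne _ _ (Ne.symm h), upd_self]
  · rw [upd_of_ne _ _ hp]
    by_cases hq : q = r
    · subst hq
      rw [upd_self, upd_self]
    · rw [upd_of_ne _ _ hq, upd_of_ne _ _ hq, upd_of_ne _ _ hp]

/-- The action of a matrix on one index. -/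
def act1 (p : (k : κ) × Fin (n k)) (A : Matrix (Fin (x p.1)) (Fin (x p.1)) R) (F : Ten x n R) :
    Ten x n R :=
  fun a => ∑ c, A (a p.1 p.2) c * F (upd a p c)

theorem act1_act1 (p : (k : κ) × Fin (n k)) (A B : Matrix (Fin (x p.1)) (Fin (x p.1)) R)
    (F : Ten x n R) : act1 p A (act1 p B F) = act1 p (A * B) F := by
  funext a
  simp only [act1, upd_self, upd_upd, Matrix.mul_apply, Finset.mul_sum, Finset.sum_mul]
  rw [Finset.sum_comm]
  exact Finset.sum_congr rfl fun d _ => Finset.sum_congr rfl fun c _ => by ring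

theorem act1_comm {p q : (k : κ) × Fin (n k)} (h : p ≠ q) (A : Matrix (Fin (x p.1)) (Fin (x p.1)) R)
    (B : Matrix (Fin (x q.1)) (Fin (x q.1)) R) (F : Ten x n R) :
    act1 p A (act1 q B F) = act1 q B (act1 p A F) := by
  funext a
  simp only [act1, Finset.mul_sum, upd_of_ne a _ h, upd_of_ne a _ (Ne.symm h)]
  rw [Finset.sum_comm]
  refine Finset.sum_congr rfl fun d _ => Finset.sum_congr rfl fun c _ => ?_
  rw [upd_comm a c d h]
  ring

theorem act1_add_right (p : (k : κ) × Fin (n k)) (A : Matrix (Fin (x p.1)) (Fin (x p.1)) R)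
    (F G : Ten x n R) : act1 p A (F + G) = act1 p A F + act1 p A G := by
  funext a
  simp only [act1, Pi.add_apply, mul_add, Finset.sum_add_distrib]

theorem act1_smul_right (p : (k : κ) × Fin (n k)) (A : Matrix (Fin (x p.1)) (Fin (x p.1)) R)
    (r : R) (F : Ten x n R) : act1 p A (r • F) = r • act1 p A F := by
  funext a
  simp only [act1, Pi.smul_apply, smul_eq_mul, Finset.mul_sum]
  exact Finset.sum_congr rfl fun c _ => by ring

theorem act1_sum_right (p : (k : κ) × Fin (n k)) (A : Matrix (Fin (x p.1)) (Fin (x p.1)) R)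
    {ι : Type} (s : Finset ι) (F : ι → Ten x n R) :
    act1 p A (∑ i ∈ s, F i) = ∑ i ∈ s, act1 p A (F i) := by
  classical
  induction s using Finset.induction_on with
  | empty =>
    rw [Finset.sum_empty, Finset.sum_empty]
    have h := act1_smul_right p A 0 (0 : Ten x n R)
    rwa [zero_smul, zero_smul] at h
  | insert i s hi ih => rw [Finset.sum_insert hi, Finset.sum_insert hi, act1_add_right, ih]

theorem act1_add_left (p : (k : κ) × Fin (n k)) (A B : Matrix (Fin (x p.1)) (Fin (x p.1)) R)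
    (F : Ten x n R) : act1 p (A + B) F = act1 p A F + act1 p B F := by
  funext a
  simp only [act1, Pi.add_apply, Matrix.add_apply, add_mul, Finset.sum_add_distrib]

theorem act1_smul_left (p : (k : κ) × Fin (n k)) (r : R) (A : Matrix (Fin (x p.1)) (Fin (x p.1)) R)
    (F : Ten x n R) : act1 p (r • A) F = r • act1 p A F := by
  funext a
  simp only [act1, Pi.smul_apply, Matrix.smul_apply, smul_eq_mul, Finset.mul_sum]
  exact Finset.sum_congr rfl fun c _ => by ring

/-- The action of a family of matrices. -/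
def act (A : Fam x R) (F : Ten x n R) : Ten x n R := ∑ p : (k : κ) × Fin (n k), act1 p (A p.1) F

theorem act_add (A B : Fam x R) (F : Ten x n R) : act (A + B) F = act A F + act B F := by
  unfold act
  rw [← Finset.sum_add_distrib]
  exact Finset.sum_congr rfl fun p _ => act1_add_left p _ _ F

theorem act_smul (r : R) (A : Fam x R) (F : Ten x n R) : act (r • A) F = r • act A F := by
  unfold act
  rw [Finset.smul_sum]
  exact Finset.sum_congr rfl fun p _ => act1_smul_left p r _ F

theorem act_zero_right (A : Fam x R) : act A (0 : Ten x n R) = 0 := by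
  unfold act
  refine Finset.sum_eq_zero fun p _ => ?_
  have h := act1_smul_right p (A p.1) 0 (0 : Ten x n R)
  rwa [zero_smul, zero_smul] at h

/-- The action is a representation of the Lie algebra. -/
theorem act_br (A B : Fam x R) (F : Ten x n R) :
    act (A * B - B * A) F = act A (act B F) - act B (act A F) := by
  have h1 : act A (act B F) = ∑ p : (k : κ) × Fin (n k), ∑ q : (k : κ) × Fin (n k),
      act1 p (A p.1) (act1 q (B q.1) F) := by
    unfold act
    exact Finset.sum_congr rfl fun p _ => act1_sum_right p _ _ _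
  have h2 : act B (act A F) = ∑ p : (k : κ) × Fin (n k), ∑ q : (k : κ) × Fin (n k),
      act1 q (B q.1) (act1 p (A p.1) F) := by
    unfold act
    rw [Finset.sum_comm]
    exact Finset.sum_congr rfl fun p _ => act1_sum_right p _ _ _
  rw [h1, h2, ← Finset.sum_sub_distrib]
  unfold act
  refine Finset.sum_congr rfl fun p _ => ?_
  rw [← Finset.sum_sub_distrib, Finset.sum_eq_single p]
  · rw [act1_act1, act1_act1]
    have h3 : (A * B - B * A) p.1 = A p.1 * B p.1 + (-1 : R) • (B p.1 * A p.1) := by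
      rw [neg_smul, one_smul, ← sub_eq_add_neg]
      rfl
    rw [h3, act1_add_left, act1_smul_left, neg_smul, one_smul, ← sub_eq_add_neg]
  · intro q _ hq
    rw [act1_comm (Ne.symm hq), sub_self]
  · intro h
    exact absurd (Finset.mem_univ _) h

end act

/-- A rational tensor as a complex tensor. -/
def cT {n : κ → ℕ} (F : Ten x n ℚ) : Ten x n ℂ := fun a => ((F a : ℚ) : ℂ)

theorem phi_act {n : κ → ℕ} (φ : ℂ →ₗ[ℚ] ℚ) (A : Fam x ℂ) (F : Ten x n ℚ)
    (a : ∀ k, Fin (n k) → Fin (x k)) : φ (act A (cT F) a) = act (phi φ A) F a := by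
  unfold act
  rw [Finset.sum_apply, Finset.sum_apply, map_sum]
  refine Finset.sum_congr rfl fun p _ => ?_
  unfold act1
  rw [map_sum]
  refine Finset.sum_congr rfl fun c _ => ?_
  have h1 : A p.1 (a p.1 p.2) c * cT F (upd a p c) = (F (upd a p c)) • A p.1 (a p.1 p.2) c := by
    rw [Algebra.smul_def, mul_comm]
    rfl
  rw [h1, map_smul, smul_eq_mul, mul_comm]
  rfl

theorem act_eq_zero_iff {n : κ → ℕ} (A : Fam x ℂ) (F : Ten x n ℚ) :
    act A (cT F) = 0 ↔ ∀ φ : ℂ →ₗ[ℚ] ℚ, act (phi φ A) F = 0 := by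
  constructor
  · intro h φ
    funext a
    rw [← phi_act, h]
    exact map_zero φ
  · intro h
    funext a
    refine eq_zero_of_phi fun φ => ?_
    rw [phi_act, h]
    rfl

theorem isHodge_iff (X : ∀ k, Coh (x k)) {n : κ → ℕ} (F : Ten x n ℚ) :
    IsHodgeOnProductOfPowers X F ↔ act (fun k => (X k).z) (cT F) = 0 := by
  have h1 : ∀ a, act (fun k => (X k).z) (cT F) a = ∑ k, ∑ l, ∑ c, (X k).z (a k l) c *
      ((F (Function.update a k (Function.update (a k) l c)) : ℚ) : ℂ) := by
    intro a
    unfold act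
    rw [Finset.sum_apply, Fintype.sum_sigma]
    rfl
  constructor
  · intro h
    funext a
    rw [h1]
    exact h a
  · intro h a
    rw [← h1, h]
    rfl

end

end Pool.Agent.X311.Ip
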