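import Mathlib
import Pool.Agent.X311.Ip1
import Pool.Agent.TH504.CB.DerK

/-!
# Derivations and fields of definition of the Hodge filtration
-/

set_option autoImplicit false
set_option linter.unusedSectionVars false

namespace Pool.Agent.X311.Ip

open Matrix Module Pool.Agent.TH131.GHC Pool.Agent.X311 Pool.Agent.TH504.CB

noncomputable section

section basis

variable {v : ℕ}

/-- A basis of eigenvectors. -/
theorem exists_basis (V : Coh v) : ∃ (ι : Type) (_ : Fintype ι) (b : Basis ι ℂ (Fin v → ℂ))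
    (k : ι → ℤ), ∀ i, V.z *ᵥ b i = (k i : ℂ) • b i := by
  classical
  have hs : (⊤ : Submodule ℂ (Fin v → ℂ)) ≤
      Submodule.span ℂ {y | ∃ k : ℤ, V.z *ᵥ y = (k : ℂ) • y} := fun x _ => V.decomp x
  have hb : ∀ i, ∃ k : ℤ, V.z *ᵥ (Basis.ofSpan hs) i = (k : ℂ) • (Basis.ofSpan hs) i := by
    intro i
    exact Basis.ofSpan_subset hs ⟨i, rfl⟩
  choose k hk using hb
  exact ⟨_, FiniteDimensional.fintypeBasisIndex (Basis.ofSpan hs), Basis.ofSpan hs, k, hk⟩

/-- The sum of the eigenspaces with eigenvalues at least `n`. -/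
def Fil (V : Coh v) (n : ℤ) : Submodule ℂ (Fin v → ℂ) :=
  Submodule.span ℂ {w | ∃ m : ℤ, n ≤ m ∧ V.z *ᵥ w = (m : ℂ) • w}

theorem fil_strict (V : Coh v) (n : ℤ) :
    Submodule.span ℂ {w | ∃ m : ℤ, n < m ∧ V.z *ᵥ w = (m : ℂ) • w} = Fil V (n + 1) := rfl

theorem fil_mono (V : Coh v) {n m : ℤ} (h : n ≤ m) : Fil V m ≤ Fil V n := by
  refine Submodule.span_mono ?_
  rintro w ⟨l, hl, hw⟩
  exact ⟨l, h.trans hl, hw⟩

variable {V : Coh v} {ι : Type} [Fintype ι] {b : Basis ι ℂ (Fin v → ℂ)} {k : ι → ℤ}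

theorem repr_z (hb : ∀ i, V.z *ᵥ b i = (k i : ℂ) • b i) (u : Fin v → ℂ) (i : ι) :
    b.repr (V.z *ᵥ u) i = (k i : ℂ) * b.repr u i := by
  classical
  have h1 : V.z *ᵥ u = ∑ j, (b.repr u j * (k j : ℂ)) • b j := by
    conv_lhs => rw [← b.sum_repr u]
    rw [← Matrix.toLin'_apply, map_sum]
    refine Finset.sum_congr rfl fun j _ => ?_
    rw [map_smul, Matrix.toLin'_apply, hb, smul_smul]
  rw [h1, map_sum, Finsupp.coe_finsetSum, Finset.sum_apply, Finset.sum_eq_single i]
  · rw [map_smul, Finsupp.smul_apply, b.repr_self, Finsupp.single_eq_same, smul_eq_mul, mul_one,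
      mul_comm]
  · intro j _ hj
    rw [map_smul, Finsupp.smul_apply, b.repr_self, Finsupp.single_eq_of_ne (Ne.symm hj), smul_zero]
  · intro h
    exact absurd (Finset.mem_univ _) h

theorem mem_fil (hb : ∀ i, V.z *ᵥ b i = (k i : ℂ) • b i) (n : ℤ) (u : Fin v → ℂ) :
    u ∈ Fil V n ↔ ∀ i, k i < n → b.repr u i = 0 := by
  constructor
  · intro hu i hi
    unfold Fil at hu
    induction hu using Submodule.span_induction with
    | mem w hw =>
      obtain ⟨m, hm, hw⟩ := hw
      have h1 := repr_z hb w i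
      rw [hw, map_smul, Finsupp.smul_apply, smul_eq_mul] at h1
      have h2 : ((m : ℂ) - k i) * b.repr w i = 0 := by rw [sub_mul, h1, sub_self]
      refine (mul_eq_zero.1 h2).resolve_left fun h3 => ?_
      have h4 : (m : ℂ) = (k i : ℂ) := sub_eq_zero.1 h3
      have h5 : m = k i := by exact_mod_cast h4
      omega
    | zero => rw [map_zero]; rfl
    | add x y _ _ hx hy => rw [map_add, Finsupp.add_apply, hx, hy, add_zero]
    | smul c x _ hx => rw [map_smul, Finsupp.smul_apply, hx, smul_zero]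
  · intro h
    rw [← b.sum_repr u]
    refine Submodule.sum_mem _ fun i _ => ?_
    by_cases hi : k i < n
    · rw [h i hi, zero_smul]
      exact Submodule.zero_mem _
    · exact Submodule.smul_mem _ _ (Submodule.subset_span ⟨k i, not_lt.1 hi, hb i⟩)

/-- Derivations which raise the Hodge operator preserve the filtration. -/
theorem der_fil {δ : Derivation ℚ ℂ ℂ} (h : Raises V δ) (n : ℤ) {y : Fin v → ℂ} (hy : y ∈ Fil V n) :
    (fun b => δ (y b)) ∈ Fil V n := by
  obtain ⟨ι, _, b, k, hb⟩ := exists_basis V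
  suffices hh : y ∈ Fil V n ∧ (fun b => δ (y b)) ∈ Fil V n from hh.2
  unfold Fil at hy
  induction hy using Submodule.span_induction with
  | mem w hw =>
    obtain ⟨m, hm, hw⟩ := hw
    refine ⟨Submodule.subset_span ⟨m, hm, hw⟩, fil_mono V hm ?_⟩
    have h1 := h m w hw
    rw [fil_strict, mem_fil hb] at h1
    have h2 : V.z.map δ *ᵥ w = (m : ℂ) • (fun b => δ (w b)) - V.z *ᵥ fun b => δ (w b) := by
      funext b
      have h3 := congrArg δ (congrFun hw b)
      have h4 : δ ((V.z *ᵥ w) b) = (V.z.map δ *ᵥ w) b + (V.z *ᵥ fun b => δ (w b)) b := by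
        simp only [mulVec, dotProduct, map_sum, Matrix.map_apply]
        rw [← Finset.sum_add_distrib]
        refine Finset.sum_congr rfl fun c _ => ?_
        rw [Derivation.leibniz, smul_eq_mul, smul_eq_mul]
        ring
      have h5 : δ (((m : ℂ) • w) b) = (m : ℂ) * δ (w b) := by
        rw [Pi.smul_apply, smul_eq_mul, Derivation.leibniz, Derivation.map_intCast]
        simp
      rw [h4, h5] at h3
      rw [Pi.sub_apply, Pi.smul_apply, smul_eq_mul]
      linear_combination h3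
    rw [mem_fil hb]
    intro i hi
    have h3 := h1 i (by omega)
    rw [h2, map_sub, map_smul, Finsupp.sub_apply, Finsupp.smul_apply, repr_z hb, smul_eq_mul,
      ← sub_mul] at h3
    refine (mul_eq_zero.1 h3).resolve_left fun h4 => ?_
    have h5 : m = k i := by exact_mod_cast sub_eq_zero.1 h4
    omega
  | zero =>
    have h3 : (fun b => δ ((0 : Fin v → ℂ) b)) = 0 := funext fun b => map_zero δ
    rw [h3]
    exact ⟨Submodule.zero_mem _, Submodule.zero_mem _⟩
  | add x y _ _ hx hy =>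
    refine ⟨Submodule.add_mem _ hx.1 hy.1, ?_⟩
    have h3 : (fun b => δ ((x + y) b)) = (fun b => δ (x b)) + fun b => δ (y b) :=
      funext fun b => map_add δ _ _
    rw [h3]
    exact Submodule.add_mem _ hx.2 hy.2
  | smul c x _ hx =>
    refine ⟨Submodule.smul_mem _ _ hx.1, ?_⟩
    have h3 : (fun b => δ ((c • x) b)) = c • (fun b => δ (x b)) + δ c • x := by
      funext b
      rw [Pi.smul_apply, smul_eq_mul, Derivation.leibniz, Pi.add_apply, Pi.smul_apply,
        Pi.smul_apply]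
      simp only [smul_eq_mul]
      ring
    rw [h3]
    exact Submodule.add_mem _ (Submodule.smul_mem _ _ hx.2) (Submodule.smul_mem _ _ hx.1)

end basis

/-- The constants of the derivations over an algebraically closed subfield. -/
theorem mem_of_der {K : Subfield ℂ} (hK : ∀ c : ℂ, IsAlgebraic K c → c ∈ K) {c : ℂ}
    (h : ∀ δ : Derivation ℚ ℂ ℂ, (∀ a ∈ K, δ a = 0) → δ c = 0) : c ∈ K := by
  refine hK c ?_
  by_contra hc
  have h1 : AlgebraicIndependent K (fun _ : Unit => c) :=
    algebraicIndependent_unique_type_iff.2 hc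
  obtain ⟨δ, hδ, hδc⟩ := exists_derivationK h1 (fun _ => 1)
  have h2 := h δ fun a ha => hδ ⟨a, ha⟩
  have h3 : δ c = 1 := hδc ()
  rw [h2] at h3
  exact zero_ne_one h3

/-- **Descent.** A subspace which is stable under the derivations over `K` is defined over `K`. -/
theorem descent {v : ℕ} {K : Subfield ℂ} (hK : ∀ c : ℂ, IsAlgebraic K c → c ∈ K)
    (F : Submodule ℂ (Fin v → ℂ))
    (hF : ∀ δ : Derivation ℚ ℂ ℂ, (∀ a ∈ K, δ a = 0) → ∀ y ∈ F, (fun b => δ (y b)) ∈ F) :
    ∀ (S : Finset (Fin v)), ∀ y ∈ F, (∀ b, b ∉ S → y b = 0) →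
      y ∈ Submodule.span ℂ {x | (∀ b, x b ∈ K) ∧ x ∈ F ∧ ∀ b, b ∉ S → x b = 0} := by
  classical
  intro S
  induction S using Finset.strongInduction with
  | H S ih =>
    intro y hy hyS
    have hmono : ∀ S' : Finset (Fin v), S' ⊆ S →
        Submodule.span ℂ {x | (∀ b, x b ∈ K) ∧ x ∈ F ∧ ∀ b, b ∉ S' → x b = 0} ≤
        Submodule.span ℂ {x | (∀ b, x b ∈ K) ∧ x ∈ F ∧ ∀ b, b ∉ S → x b = 0} := by
      intro S' hS'
      refine Submodule.span_mono ?_
      rintro x ⟨h1, h2, h3⟩
      exact ⟨h1, h2, fun b hb => h3 b fun hb' => hb (hS' hb')⟩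
    by_cases hc : ∃ b ∈ S, ∃ w ∈ F, w ≠ 0 ∧ ∀ c, c ∉ S.erase b → w c = 0
    · obtain ⟨b, hb, w, hwF, hw0, hw⟩ := hc
      have h1 := ih (S.erase b) (Finset.erase_ssubset hb) w hwF hw
      -- a nonzero rational vector
      obtain ⟨x, ⟨hxK, hxF, hxS⟩, hx0⟩ : ∃ x ∈ {x | (∀ b, x b ∈ K) ∧ x ∈ F ∧
          ∀ c, c ∉ S.erase b → x c = 0}, x ≠ 0 := by
        by_contra hcon
        push Not at hcon
        refine hw0 ?_
        have h2 : Submodule.span ℂ {x | (∀ b, x b ∈ K) ∧ x ∈ F ∧ ∀ c, c ∉ S.erase b → x c = 0} =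
            ⊥ := by
          rw [Submodule.span_eq_bot]
          exact hcon
        rw [h2] at h1
        exact (Submodule.mem_bot ℂ).1 h1
      obtain ⟨c, hc⟩ := Function.ne_iff.1 hx0
      have hcS : c ∈ S.erase b := by
        by_contra h
        exact hc (hxS c h)
      have hcS' : c ∈ S := Finset.mem_of_mem_erase hcS
      have h3 : y - (y c / x c) • x ∈ Submodule.span ℂ {x | (∀ b, x b ∈ K) ∧ x ∈ F ∧
          ∀ b, b ∉ S → x b = 0} := by
        refine hmono (S.erase c) (Finset.erase_subset _ _) (ih (S.erase c)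
          (Finset.erase_ssubset hcS') _ (Submodule.sub_mem _ hy (Submodule.smul_mem _ _ hxF)) ?_)
        intro d hd
        rw [Pi.sub_apply, Pi.smul_apply, smul_eq_mul]
        by_cases hdc : d = c
        · rw [hdc, div_mul_cancel₀ _ hc, sub_self]
        · have hdS : d ∉ S := fun h => hd (Finset.mem_erase.2 ⟨hdc, h⟩)
          rw [hyS d hdS, hxS d (fun h => hdS (Finset.mem_of_mem_erase h)), mul_zero, sub_zero]
      have h4 : x ∈ Submodule.span ℂ {x | (∀ b, x b ∈ K) ∧ x ∈ F ∧
          ∀ b, b ∉ S → x b = 0} :=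
        Submodule.subset_span ⟨hxK, hxF, fun d hd => hxS d fun h => hd (Finset.mem_of_mem_erase h)⟩
      have h5 := Submodule.add_mem _ h3 (Submodule.smul_mem _ (y c / x c) h4)
      rwa [sub_add_cancel] at h5
    · push Not at hc
      by_cases hy0 : y = 0
      · rw [hy0]
        exact Submodule.zero_mem _
      obtain ⟨c, hyc⟩ := Function.ne_iff.1 hy0
      have hcS : c ∈ S := by
        by_contra h
        exact hyc (hyS c h)
      have h1 : (y c)⁻¹ • y ∈ F := Submodule.smul_mem _ _ hy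
      have h2 : ∀ b, ((y c)⁻¹ • y) b ∈ K := by
        intro b
        refine mem_of_der hK fun δ hδ => ?_
        have h3 : (fun b => δ (((y c)⁻¹ • y) b)) = 0 := by
          by_contra h4
          obtain ⟨d, hd, hd'⟩ := hc c hcS _ (hF δ hδ _ h1) h4
          refine hd' ?_
          by_cases hdc : d = c
          · rw [hdc, Pi.smul_apply, smul_eq_mul, inv_mul_cancel₀ hyc, δ.map_one_eq_zero]
          · have hdS : d ∉ S := fun h => hd (Finset.mem_erase.2 ⟨hdc, h⟩)
            rw [Pi.smul_apply, hyS d hdS, smul_zero, map_zero]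
        exact congrFun h3 b
      have h3 : y = y c • ((y c)⁻¹ • y) := by rw [smul_smul, mul_inv_cancel₀ hyc, one_smul]
      rw [h3]
      refine Submodule.smul_mem _ _ (Submodule.subset_span ⟨h2, h1, fun d hd => ?_⟩)
      rw [Pi.smul_apply, hyS d hd, smul_zero]

/-- The Hodge filtration is defined over `K` if the derivations over `K` preserve it. -/
theorem filtration_of_raises {v : ℕ} {V : Coh v} {K : Subfield ℂ}
    (hK : ∀ c : ℂ, IsAlgebraic K c → c ∈ K)
    (h : ∀ δ : Derivation ℚ ℂ ℂ, (∀ a ∈ K, δ a = 0) → Raises V δ) : HasFiltrationOver K V := by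
  intro n y hy
  have h1 := descent hK (Fil V n) (fun δ hδ y hy => der_fil (h δ hδ) n hy) Finset.univ y
    (Submodule.subset_span ⟨n, le_rfl, hy⟩) (fun b hb => absurd (Finset.mem_univ b) hb)
  refine Submodule.span_mono ?_ h1
  rintro x ⟨hx1, hx2, -⟩
  exact ⟨hx1, hx2⟩

/-- If the iterated commutators of the derivative vanish then it is raising. -/
theorem raises_of_adl {v : ℕ} {V : Coh v} {δ : Derivation ℚ ℂ ℂ} {l : List ℤ}
    (hl : ∀ k ∈ l, 0 < k) (h : adl V.z l (V.z.map δ) = 0) : Raises V δ := by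
  obtain ⟨ι, _, b, k, hb⟩ := exists_basis V
  intro n y hy
  have h1 := adl_mulVec V.z n l (V.z.map δ) y hy
  rw [h, zero_mulVec] at h1
  generalize V.z.map δ *ᵥ y = w at h1
  rw [fil_strict, mem_fil hb]
  intro i hi
  have h2 : ∀ (l : List ℤ), (∀ k ∈ l, 0 < k) → ∀ w : Fin v → ℂ, b.repr (prl V.z n l w) i = 0 →
      b.repr w i = 0 := by
    intro l
    induction l with
    | nil => intro _ w hw; exact hw
    | cons c l ih =>
      intro hl w hw
      have h3 := ih (fun k hk => hl k (List.mem_cons_of_mem _ hk)) _ hw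
      rw [map_sub, map_smul, Finsupp.sub_apply, Finsupp.smul_apply, repr_z hb, smul_eq_mul,
        ← sub_mul] at h3
      refine (mul_eq_zero.1 h3).resolve_left fun h4 => ?_
      have h5 : k i = n + c := by exact_mod_cast sub_eq_zero.1 h4
      have h6 := hl c List.mem_cons_self
      omega
  refine h2 l hl w ?_
  rw [← h1, map_zero]
  rfl

/-- The derivation which distinguishes two varieties. -/
theorem exists_der {v v' : ℕ} {V : Coh v} {V' : Coh v'} (h : PeriodsNotAlgebraicOver V V') :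
    ∃ (δ : Derivation ℚ ℂ ℂ) (l : List ℤ), adl V'.z l (V'.z.map δ) = 0 ∧
      adl V.z l (V.z.map δ) ≠ 0 := by
  obtain ⟨K, hK, hV', hV⟩ := h
  have h1 : ∃ δ : Derivation ℚ ℂ ℂ, (∀ a ∈ K, δ a = 0) ∧ ¬ Raises V δ := by
    by_contra hcon
    push Not at hcon
    exact hV (filtration_of_raises hK hcon)
  obtain ⟨δ, hδ, hδV⟩ := h1
  obtain ⟨l, hl, -, hl0⟩ := exists_list V'.z V'.decomp (raises_of_filtration hV' δ hδ)
  exact ⟨δ, l, hl0, fun h => hδV (raises_of_adl hl h)⟩

end

end Pool.Agent.X311.Ip
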