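import Mathlib
import Pool.Agent.X311.Ip2

/-!
# Hodge classes on products of varieties with independent periods
-/

set_option autoImplicit false
set_option linter.unusedSectionVars false

namespace Pool.Agent.X311.Ip

open Matrix Module Pool.Agent.TH131.GHC Pool.Agent.X311

noncomputable section

variable {κ : Type} [Fintype κ] [DecidableEq κ] {x : κ → ℕ} (X : ∀ k, Coh (x k))

section one

variable {v : ℕ} {V : Coh v}

theorem hodgeLie_br {A B : Matrix (Fin v) (Fin v) ℚ} (hA : A ∈ hodgeLie V) (hB : B ∈ hodgeLie V) :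
    A * B - B * A ∈ hodgeLie V := by
  unfold hodgeLie at hA hB ⊢
  rw [Submodule.mem_sInf] at hA hB ⊢
  exact fun L hL => hL.1 A (hA L hL) B (hB L hL)

theorem hodgeLie_phi (φ : ℂ →ₗ[ℚ] ℚ) : V.z.map φ ∈ hodgeLie V := by
  unfold hodgeLie
  rw [Submodule.mem_sInf]
  exact fun L hL => phi_one_mem hL.2 φ

theorem hodgeLie_le {L : Submodule ℚ (Matrix (Fin v) (Fin v) ℚ)} (h : ContainsHodge V L) :
    hodgeLie V ≤ L := sInf_le h

end one

/-- the Hodge operators -/
def zz : Fam x ℂ := fun k => (X k).z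

/-- A Lie algebra which contains the Hodge operators. -/
structure Good (L : Submodule ℚ (Fam x ℚ)) : Prop where
  br : ∀ A ∈ L, ∀ B ∈ L, A * B - B * A ∈ L
  z_mem : zz X ∈ cL L
  sub : ∀ A ∈ L, ∀ k, A k ∈ hodgeLie (X k)

/-- The Lie algebra which kills a class. -/
def stabL {n : κ → ℕ} (F : Ten x n ℚ) : Submodule ℚ (Fam x ℚ) where
  carrier := {A | act A F = 0 ∧ ∀ k, A k ∈ hodgeLie (X k)}
  add_mem' := by
    rintro A B ⟨hA, hA'⟩ ⟨hB, hB'⟩
    refine ⟨?_, fun k => Submodule.add_mem _ (hA' k) (hB' k)⟩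
    rw [act_add, hA, hB, add_zero]
  zero_mem' := by
    refine ⟨?_, fun k => Submodule.zero_mem _⟩
    have h := act_smul (0 : ℚ) (0 : Fam x ℚ) F
    rwa [zero_smul, zero_smul] at h
  smul_mem' := by
    rintro c A ⟨hA, hA'⟩
    refine ⟨?_, fun k => Submodule.smul_mem _ _ (hA' k)⟩
    rw [act_smul, hA, smul_zero]

theorem good_stabL {n : κ → ℕ} {F : Ten x n ℚ} (hF : IsHodgeOnProductOfPowers X F) :
    Good X (stabL X F) where
  br := by
    rintro A ⟨hA, hA'⟩ B ⟨hB, hB'⟩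
    refine ⟨?_, fun k => hodgeLie_br (hA' k) (hB' k)⟩
    rw [act_br, hA, hB, act_zero_right, act_zero_right, sub_zero]
  z_mem := by
    refine mem_of_phi fun φ => ⟨?_, fun k => hodgeLie_phi φ⟩
    exact (act_eq_zero_iff _ F).1 ((isHodge_iff X F).1 hF) φ
  sub := fun A hA k => hA.2 k

variable {X} {L : Submodule ℚ (Fam x ℚ)}

theorem cG_mul (A B : Fam x ℚ) : cG A * cG B = cG (A * B) := by
  funext k
  exact (Matrix.map_mul (L := A k) (M := B k) (f := algebraMap ℚ ℂ)).symm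

theorem cG_sub (A B : Fam x ℚ) : cG A - cG B = cG (A - B) := by
  funext k
  ext i j
  exact (map_sub (algebraMap ℚ ℂ) _ _).symm

theorem cL_br (hL : ∀ A ∈ L, ∀ B ∈ L, A * B - B * A ∈ L) {A B : Fam x ℂ} (hA : A ∈ cL L)
    (hB : B ∈ cL L) : A * B - B * A ∈ cL L := by
  unfold cL at hA
  induction hA using Submodule.span_induction with
  | mem A hA =>
    obtain ⟨A, hA, rfl⟩ := hA
    unfold cL at hB
    induction hB using Submodule.span_induction with
    | mem B hB =>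
      obtain ⟨B, hB, rfl⟩ := hB
      rw [cG_mul, cG_mul, cG_sub]
      exact Submodule.subset_span ⟨_, hL A hA B hB, rfl⟩
    | zero => rw [mul_zero, zero_mul, sub_zero]; exact Submodule.zero_mem _
    | add B C _ _ hB hC =>
      have h1 : cG A * (B + C) - (B + C) * cG A = (cG A * B - B * cG A) + (cG A * C - C * cG A) := by
        rw [mul_add, add_mul]
        abel
      rw [h1]
      exact Submodule.add_mem _ hB hC
    | smul c B _ hB =>
      rw [mul_smul_comm, smul_mul_assoc, ← smul_sub]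
      exact Submodule.smul_mem _ _ hB
  | zero => rw [mul_zero, zero_mul, sub_zero]; exact Submodule.zero_mem _
  | add A C _ _ hA hC =>
    have h1 : (A + C) * B - B * (A + C) = (A * B - B * A) + (C * B - B * C) := by
      rw [mul_add, add_mul]
      abel
    rw [h1]
    exact Submodule.add_mem _ hA hC
  | smul c A _ hA =>
    rw [mul_smul_comm, smul_mul_assoc, ← smul_sub]
    exact Submodule.smul_mem _ _ hA

theorem adl_mem (hL : ∀ A ∈ L, ∀ B ∈ L, A * B - B * A ∈ L) {A : Fam x ℂ} (hA : A ∈ cL L)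
    (l : List ℤ) : ∀ B ∈ cL L, adl A l B ∈ cL L := by
  induction l with
  | nil => intro B hB; exact hB
  | cons k l ih =>
    intro B hB
    exact ih _ (Submodule.sub_mem _ (cL_br hL hA hB) (Submodule.smul_mem _ _ hB))

theorem adl_apply (A : Fam x ℂ) (l : List ℤ) (k : κ) : ∀ B : Fam x ℂ,
    adl A l B k = adl (A k) l (B k) := by
  induction l with
  | nil => intro B; rfl
  | cons c l ih =>
    intro B
    exact ih _

/-- The projections of the Lie algebra. -/
theorem Good.surj (h : Good X L) (k : κ) {m : Matrix (Fin (x k)) (Fin (x k)) ℚ}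
    (hm : m ∈ hodgeLie (X k)) : ∃ A ∈ L, A k = m := by
  have h1 : ContainsHodge (X k) (L.map (LinearMap.proj (R := ℚ) k)) := by
    refine ⟨?_, ?_⟩
    · rintro _ ⟨A, hA, rfl⟩ _ ⟨B, hB, rfl⟩
      exact ⟨A * B - B * A, h.br A hA B hB, rfl⟩
    · have h2 : (LinearMap.proj (R := ℂ) (φ := fun k => Matrix (Fin (x k)) (Fin (x k)) ℂ) k) (zz X) ∈
          (cL L).map (LinearMap.proj (R := ℂ) (φ := fun k => Matrix (Fin (x k)) (Fin (x k)) ℂ) k) :=
        Submodule.mem_map_of_mem h.z_mem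
      unfold cL at h2
      rw [Submodule.map_span] at h2
      refine Submodule.span_mono ?_ h2
      rintro _ ⟨_, ⟨A, hA, rfl⟩, rfl⟩
      exact ⟨A k, ⟨A, hA, rfl⟩, rfl⟩
  obtain ⟨A, hA, hA'⟩ := hodgeLie_le h1 hm
  exact ⟨A, hA, hA'⟩

/-- Ideals. -/
theorem Good.full (h : Good X L) {i : κ} (hs : HasSimpleHodgeGroup (X i)) {s : Finset κ}
    (hne : ∃ A ∈ L, A i ≠ 0 ∧ ∀ j ∈ s, A j = 0) {m : Matrix (Fin (x i)) (Fin (x i)) ℚ}
    (hm : m ∈ hodgeLie (X i)) : ∃ A ∈ L, A i = m ∧ ∀ j ∈ s, A j = 0 := by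
  let N : Submodule ℚ (Matrix (Fin (x i)) (Fin (x i)) ℚ) :=
    { carrier := {m | ∃ A ∈ L, A i = m ∧ ∀ j ∈ s, A j = 0}
      add_mem' := by
        rintro _ _ ⟨A, hA, rfl, hA'⟩ ⟨B, hB, rfl, hB'⟩
        refine ⟨A + B, Submodule.add_mem _ hA hB, rfl, fun j hj => ?_⟩
        rw [Pi.add_apply, hA' j hj, hB' j hj, add_zero]
      zero_mem' := ⟨0, Submodule.zero_mem _, rfl, fun _ _ => rfl⟩
      smul_mem' := by
        rintro c _ ⟨A, hA, rfl, hA'⟩
        refine ⟨c • A, Submodule.smul_mem _ _ hA, rfl, fun j hj => ?_⟩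
        rw [Pi.smul_apply, hA' j hj, smul_zero] }
  have h1 : N ≤ hodgeLie (X i) := by
    rintro _ ⟨A, hA, rfl, -⟩
    exact h.sub A hA i
  have h2 : ∀ A ∈ hodgeLie (X i), ∀ B ∈ N, A * B - B * A ∈ N := by
    rintro a ha _ ⟨B, hB, rfl, hB'⟩
    obtain ⟨A, hA, rfl⟩ := h.surj i ha
    refine ⟨A * B - B * A, h.br A hA B hB, rfl, fun j hj => ?_⟩
    rw [Pi.sub_apply, Pi.mul_apply, Pi.mul_apply, hB' j hj, mul_zero, zero_mul, sub_zero]
  rcases hs.2 N h1 h2 with h3 | h3
  · exfalso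
    obtain ⟨A, hA, hA0, hA'⟩ := hne
    have h4 : A i ∈ N := ⟨A, hA, rfl, hA'⟩
    rw [h3] at h4
    exact hA0 ((Submodule.mem_bot ℚ).1 h4)
  · rw [← h3] at hm
    exact hm

/-- The elements from the derivations. -/
theorem Good.pair_of_periods (h : Good X L) {i j : κ} (hij : PeriodsNotAlgebraicOver (X i) (X j)) :
    ∃ A ∈ L, A i ≠ 0 ∧ A j = 0 := by
  obtain ⟨δ, l, hj, hi⟩ := exists_der hij
  let dz : Fam x ℂ := fun k => (X k).z.map δ
  have h1 : dz ∈ cL L := by
    refine mem_of_phi fun φ => ?_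
    exact phi_mem h.z_mem (φ.comp (δ : ℂ →ₗ[ℚ] ℂ))
  have h2 := adl_mem h.br h.z_mem l dz h1
  have h3 : adl (zz X) l dz i ≠ 0 := by
    rw [adl_apply]
    exact hi
  have h4 : adl (zz X) l dz j = 0 := by
    rw [adl_apply]
    exact hj
  obtain ⟨φ, a, b, hφ⟩ : ∃ (φ : ℂ →ₗ[ℚ] ℚ) (a b : Fin (x i)), φ (adl (zz X) l dz i a b) ≠ 0 := by
    by_contra hcon
    push Not at hcon
    refine h3 ?_
    ext a b
    exact eq_zero_of_phi fun φ => hcon φ a b
  refine ⟨phi φ (adl (zz X) l dz), phi_mem h2 φ, fun h5 => hφ ?_, ?_⟩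
  · exact congrFun (congrFun h5 a) b
  · ext a b
    change φ (adl (zz X) l dz j a b) = 0
    rw [h4]
    exact map_zero φ

/-- The elements from the dimensions. -/
theorem Good.pair_of_dim (h : Good X L) {i j : κ}
    (hij : finrank ℚ (hodgeLie (X j)) < finrank ℚ (hodgeLie (X i))) :
    ∃ A ∈ L, A i ≠ 0 ∧ A j = 0 := by
  let p : L →ₗ[ℚ] hodgeLie (X i) :=
    { toFun := fun A => ⟨A.1 i, h.sub A.1 A.2 i⟩
      map_add' := fun A B => rfl
      map_smul' := fun c A => rfl }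
  have hp : Function.Surjective p := by
    rintro ⟨m, hm⟩
    obtain ⟨A, hA, hAm⟩ := h.surj i hm
    exact ⟨⟨A, hA⟩, Subtype.ext hAm⟩
  obtain ⟨q, hq⟩ := p.exists_rightInverse_of_surjective (LinearMap.range_eq_top.2 hp)
  let r : L →ₗ[ℚ] hodgeLie (X j) :=
    { toFun := fun A => ⟨A.1 j, h.sub A.1 A.2 j⟩
      map_add' := fun A B => rfl
      map_smul' := fun c A => rfl }
  have h1 : ∃ m, (r.comp q) m = 0 ∧ m ≠ 0 := by
    by_contra hcon
    push Not at hcon
    have h2 : Function.Injective (r.comp q) := by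
      rw [← LinearMap.ker_eq_bot, LinearMap.ker_eq_bot']
      exact hcon
    exact absurd (LinearMap.finrank_le_finrank_of_injective h2) (not_le.2 hij)
  obtain ⟨m, hm, hm0⟩ := h1
  refine ⟨(q m).1, (q m).2, fun h3 => hm0 ?_, ?_⟩
  · have h4 : p (q m) = m := LinearMap.congr_fun hq m
    rw [← h4]
    exact Subtype.ext h3
  · exact congrArg Subtype.val hm

/-- The elements from commutativity. -/
theorem Good.pair_of_comm (h : Good X L) {i j : κ} (hs : HasSimpleHodgeGroup (X i))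
    (hij : ∀ A ∈ hodgeLie (X j), ∀ B ∈ hodgeLie (X j), A * B = B * A) :
    ∃ A ∈ L, A i ≠ 0 ∧ A j = 0 := by
  obtain ⟨a, ha, b, hb, hab⟩ := hs.1
  obtain ⟨A, hA, rfl⟩ := h.surj i ha
  obtain ⟨B, hB, rfl⟩ := h.surj i hb
  refine ⟨A * B - B * A, h.br A hA B hB, hab, ?_⟩
  rw [Pi.sub_apply, Pi.mul_apply, Pi.mul_apply, hij _ (h.sub A hA j) _ (h.sub B hB j), sub_self]

theorem Good.pair (h : Good X L) {i j : κ} (hs : HasSimpleHodgeGroup (X i))
    (hij : IndependentOf (X i) (X j)) : ∃ A ∈ L, A i ≠ 0 ∧ A j = 0 := by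
  rcases hij with h1 | h1 | h1
  · exact h.pair_of_periods h1
  · exact h.pair_of_dim h1
  · exact h.pair_of_comm hs h1

/-- **The lemma of Goursat, Kolchin and Ribet** with periods. -/
theorem Good.single_mem (h : Good X L) {i : κ} (hs : HasSimpleHodgeGroup (X i))
    (hp : ∀ j, j ≠ i → IndependentOf (X i) (X j) ∨
      HasSimpleHodgeGroup (X j) ∧ IndependentOf (X j) (X i))
    {m : Matrix (Fin (x i)) (Fin (x i)) ℚ} (hm : m ∈ hodgeLie (X i)) : Pi.single i m ∈ L := by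
  -- pairs
  have hpair : ∀ j, j ≠ i → ∀ m ∈ hodgeLie (X i), ∃ A ∈ L, A i = m ∧ A j = 0 := by
    intro j hj m hm
    rcases hp j hj with h1 | ⟨h1, h2⟩
    · obtain ⟨A, hA, hA0, hA'⟩ := h.pair hs h1
      obtain ⟨B, hB, hB', hB0⟩ := h.full hs (s := {j}) ⟨A, hA, hA0, fun k hk => by
        rw [Finset.mem_singleton] at hk
        subst hk
        exact hA'⟩ hm
      exact ⟨B, hB, hB', hB0 j (Finset.mem_singleton_self j)⟩
    · obtain ⟨A, hA, hAm⟩ := h.surj i hm
      obtain ⟨C, hC, hC0, hC'⟩ := h.pair h1 h2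
      obtain ⟨B, hB, hB', hB0⟩ := h.full h1 (s := {i}) ⟨C, hC, hC0, fun k hk => by
        rw [Finset.mem_singleton] at hk
        subst hk
        exact hC'⟩ (h.sub A hA j)
      refine ⟨A - B, Submodule.sub_mem _ hA hB, ?_, ?_⟩
      · rw [Pi.sub_apply, hAm, hB0 i (Finset.mem_singleton_self i), sub_zero]
      · rw [Pi.sub_apply, hB', sub_self]
  have hall : ∀ s : Finset κ, i ∉ s → ∀ m ∈ hodgeLie (X i), ∃ A ∈ L, A i = m ∧ ∀ j ∈ s, A j = 0 := by
    intro s
    induction s using Finset.induction_on with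
    | empty =>
      intro _ m hm
      obtain ⟨A, hA, hAm⟩ := h.surj i hm
      exact ⟨A, hA, hAm, fun j hj => absurd hj (Finset.notMem_empty j)⟩
    | insert j s hj ih =>
      intro hi m hm
      rw [Finset.mem_insert, not_or] at hi
      obtain ⟨a, ha, b, hb, hab⟩ := hs.1
      obtain ⟨A, hA, rfl, hA'⟩ := ih hi.2 a ha
      obtain ⟨B, hB, rfl, hB'⟩ := hpair j (Ne.symm hi.1) b hb
      refine h.full hs ⟨A * B - B * A, h.br A hA B hB, hab, fun k hk => ?_⟩ hm
      rw [Pi.sub_apply, Pi.mul_apply, Pi.mul_apply]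
      rcases Finset.mem_insert.1 hk with rfl | hk
      · rw [hB', mul_zero, zero_mul, sub_zero]
      · rw [hA' k hk, mul_zero, zero_mul, sub_zero]
  obtain ⟨A, hA, hAm, hA'⟩ := hall (Finset.univ.erase i) (Finset.notMem_erase i _) m hm
  have h1 : Pi.single i m = A := by
    funext j
    by_cases hj : j = i
    · subst hj
      rw [Pi.single_eq_same, hAm]
    · rw [Pi.single_eq_of_ne hj, hA' j (Finset.mem_erase.2 ⟨hj, Finset.mem_univ j⟩)]
  rw [h1]
  exact hA

end

end Pool.Agent.X311.Ip
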