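import Mathlib
import Pool.Agent.X311.Ip3

/-!
# Hodge classes on products of varieties with independent periods: conclusion
-/

set_option autoImplicit false
set_option linter.unusedSectionVars false

namespace Pool.Agent.X311.Ip

open Matrix Module Pool.Agent.TH131.GHC Pool.Agent.X311

noncomputable section

variable {κ : Type} [Fintype κ] [DecidableEq κ] {x : κ → ℕ} {X : ∀ k, Coh (x k)}

theorem act_sum {R : Type} [CommRing R] {n : κ → ℕ} {ι : Type} (s : Finset ι) (A : ι → Fam x R)
    (F : Ten x n R) : act (∑ i ∈ s, A i) F = ∑ i ∈ s, act (A i) F := by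
  classical
  induction s using Finset.induction_on with
  | empty =>
    rw [Finset.sum_empty, Finset.sum_empty]
    have h := act_smul (0 : R) (0 : Fam x R) F
    rwa [zero_smul, zero_smul] at h
  | insert i s hi ih => rw [Finset.sum_insert hi, Finset.sum_insert hi, act_add, ih]

/-- Each Hodge operator kills the Hodge classes. -/
theorem act_single_eq_zero {n : κ → ℕ} {F : Ten x n ℚ} (hF : IsHodgeOnProductOfPowers X F) (i₀ : κ)
    (hs : ∀ i, i ≠ i₀ → HasSimpleHodgeGroup (X i))
    (h0 : ∀ i, i ≠ i₀ → IndependentOf (X i) (X i₀))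
    (hp : ∀ i j, i ≠ i₀ → j ≠ i₀ → i ≠ j →
      IndependentOf (X i) (X j) ∨ IndependentOf (X j) (X i)) (k : κ) :
    act (Pi.single k (X k).z) (cT F) = 0 := by
  have hg := good_stabL X hF
  have h1 : ∀ i, i ≠ i₀ → act (Pi.single i (X i).z) (cT F) = 0 := by
    intro i hi
    rw [act_eq_zero_iff]
    intro φ
    have h2 : phi φ (Pi.single i (X i).z : Fam x ℂ) = Pi.single i ((X i).z.map φ) := by
      funext j
      by_cases hj : j = i
      · subst hj
        change Matrix.map ((Pi.single j (X j).z : Fam x ℂ) j) φ = _
        rw [Pi.single_eq_same, Pi.single_eq_same]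
      · change Matrix.map ((Pi.single i (X i).z : Fam x ℂ) j) φ = _
        rw [Pi.single_eq_of_ne hj, Pi.single_eq_of_ne hj]
        ext a b
        exact map_zero φ
    rw [h2]
    refine (hg.single_mem (hs i hi) (fun j hj => ?_) (hodgeLie_phi φ)).1
    by_cases hj0 : j = i₀
    · subst hj0
      exact Or.inl (h0 i hi)
    · rcases hp i j hi hj0 (Ne.symm hj) with h | h
      · exact Or.inl h
      · exact Or.inr ⟨hs j hj0, h⟩
  by_cases hk : k = i₀
  · subst hk
    have h2 : zz X = ∑ i, Pi.single i (X i).z := by
      funext j
      rw [Finset.sum_apply, Finset.sum_eq_single j]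
      · rw [Pi.single_eq_same]
        rfl
      · intro i _ hi
        exact Pi.single_eq_of_ne (Ne.symm hi) _
      · intro h
        exact absurd (Finset.mem_univ _) h
    have h3 : act (zz X) (cT F) = 0 := (isHodge_iff X F).1 hF
    rw [h2, act_sum, Finset.sum_eq_single k] at h3
    · exact h3
    · intro i _ hi
      exact h1 i hi
    · intro h
      exact absurd (Finset.mem_univ _) h
  · exact h1 k hk

section split

variable {n : κ → ℕ}

/-- The Hodge classes on a power. -/
def hodgeSub (X : ∀ k, Coh (x k)) (n : κ → ℕ) (k : κ) :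
    Submodule ℚ ((Fin (n k) → Fin (x k)) → ℚ) where
  carrier := {f | IsHodgeOnPower (X k) f}
  add_mem' := by
    intro f g hf hg a
    have h1 := hf a
    have h2 := hg a
    rw [← add_zero (0 : ℂ)]
    nth_rewrite 1 [← h1]
    rw [← h2, ← Finset.sum_add_distrib]
    refine Finset.sum_congr rfl fun l _ => ?_
    rw [← Finset.sum_add_distrib]
    refine Finset.sum_congr rfl fun c _ => ?_
    rw [Pi.add_apply, Rat.cast_add, mul_add]
  zero_mem' := by
    intro a
    simp
  smul_mem' := by
    intro r f hf a
    have h1 := hf a
    rw [← mul_zero (r : ℂ), ← h1, Finset.mul_sum]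
    refine Finset.sum_congr rfl fun l _ => ?_
    rw [Finset.mul_sum]
    refine Finset.sum_congr rfl fun c _ => ?_
    rw [Pi.smul_apply, smul_eq_mul, Rat.cast_mul]
    ring

/-- The slices of a class are Hodge classes. -/
theorem slice_mem {F : Ten x n ℚ} {k : κ} (h : act (Pi.single k (X k).z) (cT F) = 0)
    (a : ∀ k, Fin (n k) → Fin (x k)) :
    (fun c => F (Function.update a k c)) ∈ hodgeSub X n k := by
  intro c
  have h1 := congrFun h (Function.update a k c)
  unfold act at h1
  rw [Finset.sum_apply, Fintype.sum_sigma, Finset.sum_eq_single k] at h1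
  · refine Eq.trans ?_ h1
    refine Finset.sum_congr rfl fun l _ => ?_
    unfold act1
    change _ = ∑ d, (Pi.single k (X k).z : Fam x ℂ) k (Function.update a k c k l) d *
      cT F (Function.update (Function.update a k c) k
        (Function.update (Function.update a k c k) l d))
    rw [Pi.single_eq_same, Function.update_self]
    refine Finset.sum_congr rfl fun d _ => ?_
    rw [Function.update_idem]
    rfl
  · intro j _ hj
    refine Finset.sum_eq_zero fun l _ => Finset.sum_eq_zero fun d _ => ?_
    change (Pi.single k (X k).z : Fam x ℂ) j _ d * _ = 0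
    rw [Pi.single_eq_of_ne hj]
    exact zero_mul _
  · intro h
    exact absurd (Finset.mem_univ _) h

/-- The application of an operator to one factor. -/
def opAt (k : κ) (p : ((Fin (n k) → Fin (x k)) → ℚ) →ₗ[ℚ] ((Fin (n k) → Fin (x k)) → ℚ)) :
    Ten x n ℚ →ₗ[ℚ] Ten x n ℚ where
  toFun F := fun a => p (fun c => F (Function.update a k c)) (a k)
  map_add' F G := by
    funext a
    have h1 : (fun c => (F + G) (Function.update a k c)) =
      (fun c => F (Function.update a k c)) + fun c => G (Function.update a k c) := rfl
    rw [h1, map_add]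
    rfl
  map_smul' r F := by
    funext a
    have h1 : (fun c => (r • F) (Function.update a k c)) =
      r • (fun c => F (Function.update a k c)) := rfl
    rw [h1, map_smul]
    rfl

theorem opAt_exterior (k : κ)
    (p : ((Fin (n k) → Fin (x k)) → ℚ) →ₗ[ℚ] ((Fin (n k) → Fin (x k)) → ℚ))
    (f : ∀ k, (Fin (n k) → Fin (x k)) → ℚ) :
    opAt k p (exteriorProduct f) = exteriorProduct (Function.update f k (p (f k))) := by
  funext a
  have h1 : (fun c => exteriorProduct f (Function.update a k c)) =
      (∏ j ∈ Finset.univ.erase k, f j (a j)) • f k := by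
    funext c
    unfold exteriorProduct
    rw [← Finset.mul_prod_erase Finset.univ _ (Finset.mem_univ k), Function.update_self,
      Pi.smul_apply, smul_eq_mul, mul_comm]
    congr 1
    refine Finset.prod_congr rfl fun j hj => ?_
    rw [Function.update_of_ne (Finset.ne_of_mem_erase hj)]
  change p (fun c => exteriorProduct f (Function.update a k c)) (a k) = _
  rw [h1, map_smul]
  unfold exteriorProduct
  rw [← Finset.mul_prod_erase Finset.univ _ (Finset.mem_univ k), Function.update_self,
    Pi.smul_apply, smul_eq_mul, mul_comm]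
  congr 1
  refine Finset.prod_congr rfl fun j hj => ?_
  rw [Function.update_of_ne (Finset.ne_of_mem_erase hj)]

/-- A class whose slices are in given subspaces is a sum of products of classes in the subspaces. -/
theorem mem_span_products {F : Ten x n ℚ} (H : ∀ k, Submodule ℚ ((Fin (n k) → Fin (x k)) → ℚ))
    (h : ∀ k, ∀ a : ∀ k, Fin (n k) → Fin (x k), (fun c => F (Function.update a k c)) ∈ H k) :
    F ∈ Submodule.span ℚ {F | ∃ f : ∀ k, (Fin (n k) → Fin (x k)) → ℚ,
      (∀ k, f k ∈ H k) ∧ F = exteriorProduct f} := by
  have hpr : ∀ k, ∃ p : ((Fin (n k) → Fin (x k)) → ℚ) →ₗ[ℚ] ((Fin (n k) → Fin (x k)) → ℚ),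
      (∀ f, p f ∈ H k) ∧ ∀ f ∈ H k, p f = f := by
    intro k
    obtain ⟨q, hq⟩ := (H k).subtype.exists_leftInverse_of_injective
      (Submodule.ker_subtype _)
    refine ⟨(H k).subtype.comp q, fun f => (q f).2, fun f hf => ?_⟩
    have h1 := LinearMap.congr_fun hq ⟨f, hf⟩
    change ((q f : H k) : (Fin (n k) → Fin (x k)) → ℚ) = f
    have h2 : q f = ⟨f, hf⟩ := h1
    rw [h2]
  choose p hp hp' using hpr
  have hall : ∀ s : Finset κ, F ∈ Submodule.span ℚ {F | ∃ f : ∀ k, (Fin (n k) → Fin (x k)) → ℚ,
      (∀ k ∈ s, f k ∈ H k) ∧ F = exteriorProduct f} := by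
    intro s
    induction s using Finset.induction_on with
    | empty =>
      have h1 : F = ∑ a, F a • exteriorProduct (fun k => Pi.single (a k) (1 : ℚ)) := by
        funext b
        rw [Finset.sum_apply, Finset.sum_eq_single b]
        · rw [Pi.smul_apply, smul_eq_mul]
          unfold exteriorProduct
          rw [Finset.prod_eq_one, mul_one]
          intro k _
          exact Pi.single_eq_same _ _
        · intro a _ ha
          obtain ⟨k, hk⟩ := Function.ne_iff.1 ha
          rw [Pi.smul_apply, smul_eq_mul]
          unfold exteriorProduct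
          rw [Finset.prod_eq_zero (Finset.mem_univ k), mul_zero]
          exact Pi.single_eq_of_ne (Ne.symm hk) _
        · intro h
          exact absurd (Finset.mem_univ _) h
      rw [h1]
      exact Submodule.sum_mem _ fun a _ => Submodule.smul_mem _ _
        (Submodule.subset_span ⟨_, fun k hk => absurd hk (Finset.notMem_empty k), rfl⟩)
    | insert k s hk ih =>
      have h1 : opAt k (p k) F = F := by
        funext a
        change p k (fun c => F (Function.update a k c)) (a k) = F a
        rw [hp' k _ (h k a)]
        change F (Function.update a k (a k)) = F a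
        rw [Function.update_eq_self]
      rw [← h1]
      have h2 := Submodule.mem_map_of_mem (f := opAt k (p k)) ih
      rw [Submodule.map_span] at h2
      refine Submodule.span_mono ?_ h2
      rintro _ ⟨_, ⟨f, hf, rfl⟩, rfl⟩
      refine ⟨_, fun j hj => ?_, opAt_exterior k (p k) f⟩
      by_cases hjk : j = k
      · subst hjk
        rw [Function.update_self]
        exact hp j _
      · rw [Function.update_of_ne hjk]
        exact hf j ((Finset.mem_insert.1 hj).resolve_left hjk)
  refine Submodule.span_mono ?_ (hall Finset.univ)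
  rintro _ ⟨f, hf, rfl⟩
  exact ⟨f, fun k => hf k (Finset.mem_univ k), rfl⟩

/-- A class whose slices are Hodge classes is a sum of products of Hodge classes. -/
theorem mem_products {F : Ten x n ℚ} (h : ∀ k, ∀ a : ∀ k, Fin (n k) → Fin (x k),
    (fun c => F (Function.update a k c)) ∈ hodgeSub X n k) : F ∈ productsOfHodgeClasses X n :=
  mem_span_products (hodgeSub X n) h

end split

/-- **Hodge classes on products of varieties with independent periods.** -/
theorem independent {n : κ → ℕ} (i₀ : κ)
    (hs : ∀ i, i ≠ i₀ → HasSimpleHodgeGroup (X i))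
    (h0 : ∀ i, i ≠ i₀ → IndependentOf (X i) (X i₀))
    (hp : ∀ i j, i ≠ i₀ → j ≠ i₀ → i ≠ j →
      IndependentOf (X i) (X j) ∨ IndependentOf (X j) (X i))
    (F : (∀ k, Fin (n k) → Fin (x k)) → ℚ) (hF : IsHodgeOnProductOfPowers X F) :
    F ∈ productsOfHodgeClasses X n :=
  mem_products fun k a => slice_mem (act_single_eq_zero hF i₀ hs h0 hp k) a

/-- Products of Hodge classes are Hodge classes. -/
theorem isHodge_of_mem {n : κ → ℕ} {F : (∀ k, Fin (n k) → Fin (x k)) → ℚ}
    (hF : F ∈ productsOfHodgeClasses X n) : IsHodgeOnProductOfPowers X F := by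
  rw [isHodge_iff]
  unfold productsOfHodgeClasses at hF
  rw [act_eq_zero_iff]
  intro φ
  have hlin : ∀ (A : Fam x ℚ) (F G : Ten x n ℚ), act A (F + G) = act A F + act A G := by
    intro A F G
    unfold act
    rw [← Finset.sum_add_distrib]
    exact Finset.sum_congr rfl fun p _ => act1_add_right p _ _ _
  have hsm : ∀ (A : Fam x ℚ) (r : ℚ) (F : Ten x n ℚ), act A (r • F) = r • act A F := by
    intro A r F
    unfold act
    rw [Finset.smul_sum]
    exact Finset.sum_congr rfl fun p _ => act1_smul_right p _ _ _
  induction hF using Submodule.span_induction with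
  | mem F hF =>
    obtain ⟨f, hf, rfl⟩ := hF
    have h1 : act (fun k => (X k).z) (cT (exteriorProduct f)) = 0 := by
      funext a
      unfold act
      rw [Finset.sum_apply, Fintype.sum_sigma]
      refine Finset.sum_eq_zero fun k _ => ?_
      have h2 := hf k (a k)
      have h3 : ∀ l : Fin (n k), act1 (x := x) (n := n) ⟨k, l⟩ (X k).z (cT (exteriorProduct f)) a =
          (∏ j ∈ Finset.univ.erase k, ((f j (a j) : ℚ) : ℂ)) *
            ∑ c, (X k).z (a k l) c * ((f k (Function.update (a k) l c) : ℚ) : ℂ) := by
        intro l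
        unfold act1
        rw [Finset.mul_sum]
        refine Finset.sum_congr rfl fun c _ => ?_
        change (X k).z (a k l) c * ((exteriorProduct f (Function.update a k
          (Function.update (a k) l c)) : ℚ) : ℂ) = _
        unfold exteriorProduct
        rw [← Finset.mul_prod_erase Finset.univ _ (Finset.mem_univ k), Function.update_self,
          Rat.cast_mul, Rat.cast_prod]
        have h4 : ∏ j ∈ Finset.univ.erase k,
            ((f j (Function.update a k (Function.update (a k) l c) j) : ℚ) : ℂ) =
            ∏ j ∈ Finset.univ.erase k, ((f j (a j) : ℚ) : ℂ) := by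
          refine Finset.prod_congr rfl fun j hj => ?_
          rw [Function.update_of_ne (Finset.ne_of_mem_erase hj)]
        rw [h4]
        ring
      rw [Finset.sum_congr rfl (fun l _ => h3 l), ← Finset.mul_sum, h2, mul_zero]
    exact (act_eq_zero_iff _ _).1 h1 φ
  | zero => exact act_zero_right _
  | add F G _ _ hF hG => rw [hlin, hF, hG, add_zero]
  | smul r F _ hF => rw [hsm, hF, smul_zero]

end

end Pool.Agent.X311.Ip
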