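import Mathlib
import Pool.Agent.X311.Ip4

/-!
# Systems of classes on products of varieties with independent periods
-/

set_option autoImplicit false
set_option linter.unusedSectionVars false

namespace Pool.Agent.X311.Ip

open Matrix Module Pool.Agent.TH131.GHC Pool.Agent.X311

noncomputable section

variable {κ : Type} [Fintype κ] [DecidableEq κ] {x n : κ → ℕ} {X : ∀ k, Coh (x k)}

/-- The partial integral. -/
def pint (s : Finset κ) (β : ∀ j, (Fin (n j) → Fin (x j)) → ℚ) (F : Ten x n ℚ) : Ten x n ℚ :=
  fun a => ∑ b : (∀ k, Fin (n k) → Fin (x k)),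
    if ∀ j, j ∉ s → b j = a j then (∏ j ∈ s, β j (b j)) * F b else 0

theorem pint_empty (β : ∀ j, (Fin (n j) → Fin (x j)) → ℚ) (F : Ten x n ℚ) : pint ∅ β F = F := by
  funext a
  unfold pint
  rw [Finset.sum_eq_single a]
  · rw [if_pos fun j _ => rfl, Finset.prod_empty, one_mul]
  · intro b _ hb
    rw [if_neg]
    intro h
    exact hb (funext fun j => h j (Finset.notMem_empty j))
  · intro h
    exact absurd (Finset.mem_univ _) h

theorem pint_insert {s : Finset κ} {k : κ} (hk : k ∉ s) (β : ∀ j, (Fin (n j) → Fin (x j)) → ℚ)
    (F : Ten x n ℚ) (a : ∀ k, Fin (n k) → Fin (x k)) :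
    pint (insert k s) β F a = ∑ c, β k c * pint s β F (Function.update a k c) := by
  unfold pint
  simp only [Finset.mul_sum]
  rw [Finset.sum_comm]
  refine Finset.sum_congr rfl fun b _ => ?_
  rw [Finset.sum_eq_single (b k)]
  · by_cases h : ∀ j, j ∉ insert k s → b j = a j
    · have h1 : ∀ j, j ∉ s → b j = Function.update a k (b k) j := by
        intro j hj
        by_cases hjk : j = k
        · subst hjk
          rw [Function.update_self]
        · rw [Function.update_of_ne hjk]
          exact h j fun hh => (Finset.mem_insert.1 hh).elim hjk hj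
      rw [if_pos h, if_pos h1, Finset.prod_insert hk, mul_assoc]
    · have h1 : ¬ ∀ j, j ∉ s → b j = Function.update a k (b k) j := by
        intro h2
        refine h fun j hj => ?_
        rw [Finset.mem_insert, not_or] at hj
        have h3 := h2 j hj.2
        rwa [Function.update_of_ne hj.1] at h3
      rw [if_neg h, if_neg h1, mul_zero]
  · intro c _ hc
    rw [if_neg, mul_zero]
    intro h
    have h1 := h k hk
    rw [Function.update_self] at h1
    exact hc h1.symm
  · intro h
    exact absurd (Finset.mem_univ _) h

/-- The slices of the partial integrals. -/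
theorem pint_slice {k : κ} (S : Submodule ℚ ((Fin (n k) → Fin (x k)) → ℚ)) {F : Ten x n ℚ}
    (h : ∀ a : ∀ k, Fin (n k) → Fin (x k), (fun c => F (Function.update a k c)) ∈ S)
    (β : ∀ j, (Fin (n j) → Fin (x j)) → ℚ) (s : Finset κ) (hk : k ∉ s) :
    ∀ a : ∀ k, Fin (n k) → Fin (x k), (fun c => pint s β F (Function.update a k c)) ∈ S := by
  induction s using Finset.induction_on with
  | empty =>
    rw [pint_empty]
    exact h
  | insert j s hj ih =>
    rw [Finset.mem_insert, not_or] at hk
    intro a
    have h1 : (fun c => pint (insert j s) β F (Function.update a k c)) =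
        ∑ d, β j d • (fun c => pint s β F (Function.update (Function.update a j d) k c)) := by
      funext c
      rw [pint_insert hj, Finset.sum_apply]
      refine Finset.sum_congr rfl fun d _ => ?_
      rw [Pi.smul_apply, smul_eq_mul, Function.update_comm hk.1]
    rw [h1]
    exact Submodule.sum_mem _ fun d _ => Submodule.smul_mem _ _ (ih hk.2 _)

/-- Exchange of the partial integral and a linear form. -/
theorem pint_form {k : κ} (ψ : ((Fin (n k) → Fin (x k)) → ℚ) →ₗ[ℚ] ℚ)
    (β : ∀ j, (Fin (n j) → Fin (x j)) → ℚ) (F : Ten x n ℚ) (s : Finset κ) (hk : k ∉ s) :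
    ∀ b : ∀ k, Fin (n k) → Fin (x k), ψ (fun c => pint s β F (Function.update b k c)) =
      pint s β (fun b => ψ (fun c => F (Function.update b k c))) b := by
  induction s using Finset.induction_on with
  | empty =>
    intro b
    rw [pint_empty, pint_empty]
  | insert j s hj ih =>
    rw [Finset.mem_insert, not_or] at hk
    intro b
    have h1 : (fun c => pint (insert j s) β F (Function.update b k c)) =
        ∑ d, β j d • (fun c => pint s β F (Function.update (Function.update b j d) k c)) := by
      funext c
      rw [pint_insert hj, Finset.sum_apply]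
      refine Finset.sum_congr rfl fun d _ => ?_
      rw [Pi.smul_apply, smul_eq_mul, Function.update_comm hk.1]
    rw [h1, map_sum, pint_insert hj]
    refine Finset.sum_congr rfl fun d _ => ?_
    rw [map_smul, smul_eq_mul, ih hk.2]

/-- Separation. -/
theorem eq_zero_of_pint {S D : ∀ k, Submodule ℚ ((Fin (n k) → Fin (x k)) → ℚ)} (s : Finset κ)
    {F : Ten x n ℚ}
    (hsep : ∀ k ∈ s, ∀ f ∈ S k, (∀ β ∈ D k, ∑ c, β c * f c = 0) → f = 0)
    (h : ∀ k ∈ s, ∀ a : ∀ k, Fin (n k) → Fin (x k), (fun c => F (Function.update a k c)) ∈ S k)
    (h0 : ∀ β : ∀ j, (Fin (n j) → Fin (x j)) → ℚ, (∀ j ∈ s, β j ∈ D j) → pint s β F = 0) :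
    F = 0 := by
  induction s using Finset.induction_on with
  | empty =>
    have h1 := h0 (fun _ => 0) (fun j hj => absurd hj (Finset.notMem_empty j))
    rwa [pint_empty] at h1
  | insert k s hk ih =>
    refine ih (fun j hj => hsep j (Finset.mem_insert_of_mem hj))
      (fun j hj => h j (Finset.mem_insert_of_mem hj)) fun β hβ => ?_
    funext a
    have h1 := hsep k (Finset.mem_insert_self k s) _
      (pint_slice (S k) (h k (Finset.mem_insert_self k s)) β s hk a) fun γ hγ => ?_
    · have h2 := congrFun h1 (a k)
      change pint s β F (Function.update a k (a k)) = 0 at h2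
      rwa [Function.update_eq_self] at h2
    · have h2 := congrFun (h0 (Function.update β k γ) fun j hj => ?_) a
      · rw [pint_insert hk, Function.update_self] at h2
        have h3 : pint s (Function.update β k γ) F = pint s β F := by
          funext b
          unfold pint
          refine Finset.sum_congr rfl fun d _ => ?_
          have h4 : ∏ j ∈ s, Function.update β k γ j (d j) = ∏ j ∈ s, β j (d j) := by
            refine Finset.prod_congr rfl fun j hj => ?_
            rw [Function.update_of_ne]
            rintro rfl
            exact hk hj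
          rw [h4]
        rw [h3] at h2
        exact h2
      · by_cases hjk : j = k
        · subst hjk
          rw [Function.update_self]
          exact hγ
        · rw [Function.update_of_ne hjk]
          exact hβ j ((Finset.mem_insert.1 hj).resolve_left hjk)

theorem integrateOthers_eq (k : κ) (β : ∀ j, (Fin (n j) → Fin (x j)) → ℚ) (F : Ten x n ℚ)
    (a : ∀ k, Fin (n k) → Fin (x k)) :
    integrateOthers k β F (a k) = pint (Finset.univ.erase k) β F a := by
  unfold integrateOthers pint
  refine Finset.sum_congr rfl fun b _ => ?_
  have h1 : (∀ j, j ∉ Finset.univ.erase k → b j = a j) ↔ b k = a k := by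
    constructor
    · intro h
      exact h k (Finset.notMem_erase k _)
    · intro h j hj
      have h2 : j = k := by
        by_contra hne
        exact hj (Finset.mem_erase.2 ⟨hne, Finset.mem_univ j⟩)
      rw [h2, h]
  by_cases h : b k = a k
  · rw [if_pos h, if_pos (h1.2 h)]
  · rw [if_neg h, if_neg fun h2 => h (h1.1 h2)]

/-- The partial integrals of exterior products. -/
theorem pint_exterior (β f : ∀ j, (Fin (n j) → Fin (x j)) → ℚ) (s : Finset κ) :
    ∀ a : ∀ k, Fin (n k) → Fin (x k), pint s β (exteriorProduct f) a =
      (∏ j ∈ s, ∑ c, β j c * f j c) * ∏ j ∈ Finset.univ \ s, f j (a j) := by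
  induction s using Finset.induction_on with
  | empty =>
    intro a
    rw [pint_empty, Finset.prod_empty, one_mul, Finset.sdiff_empty]
    rfl
  | insert k s hk ih =>
    intro a
    rw [pint_insert hk, Finset.prod_insert hk]
    have h1 : ∀ c, ∏ j ∈ Finset.univ \ s, f j (Function.update a k c j) =
        f k c * ∏ j ∈ Finset.univ \ insert k s, f j (a j) := by
      intro c
      have h2 : k ∈ Finset.univ \ s := Finset.mem_sdiff.2 ⟨Finset.mem_univ k, hk⟩
      rw [← Finset.mul_prod_erase _ _ h2, Function.update_self]
      congr 1
      have h3 : (Finset.univ \ s).erase k = Finset.univ \ insert k s := by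
        ext j
        simp only [Finset.mem_erase, Finset.mem_sdiff, Finset.mem_univ, true_and,
          Finset.mem_insert, not_or]
      rw [h3]
      refine Finset.prod_congr rfl fun j hj => ?_
      rw [Finset.mem_sdiff, Finset.mem_insert, not_or] at hj
      rw [Function.update_of_ne hj.2.1]
    simp only [ih, h1]
    rw [Finset.sum_mul, Finset.sum_mul]
    exact Finset.sum_congr rfl fun c _ => by ring

theorem integrate_exterior (k : κ) (β f : ∀ j, (Fin (n j) → Fin (x j)) → ℚ) :
    integrateOthers k β (exteriorProduct f) =
      (∏ j ∈ Finset.univ.erase k, ∑ c, β j c * f j c) • f k := by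
  funext c
  by_cases hne : Nonempty (∀ k, Fin (n k) → Fin (x k))
  · obtain ⟨a⟩ := hne
    have h1 := integrateOthers_eq k β (exteriorProduct f) (Function.update a k c)
    rw [Function.update_self] at h1
    rw [h1, pint_exterior, Pi.smul_apply, smul_eq_mul]
    congr 1
    have h2 : Finset.univ \ Finset.univ.erase k = {k} := by
      ext j
      simp only [Finset.mem_sdiff, Finset.mem_univ, true_and, Finset.mem_erase, ne_eq, and_true,
        not_not, Finset.mem_singleton]
    rw [h2, Finset.prod_singleton, Function.update_self]
  · rw [not_nonempty_iff] at hne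
    obtain ⟨j, hj⟩ : ∃ j, IsEmpty (Fin (n j) → Fin (x j)) := by
      by_contra hcon
      push Not at hcon
      exact hne.false fun j => (hcon j).some
    have hjk : j ≠ k := by
      rintro rfl
      exact hj.false c
    unfold integrateOthers
    rw [Finset.sum_of_isEmpty, Pi.smul_apply, smul_eq_mul,
      Finset.prod_eq_zero (Finset.mem_erase.2 ⟨hjk, Finset.mem_univ j⟩), zero_mul]
    exact Finset.sum_of_isEmpty _

/-- **Systems of classes on products.** -/
theorem system_eq (i₀ : κ) {C : Submodule ℚ (Ten x n ℚ)}
    {P D : ∀ k, Submodule ℚ ((Fin (n k) → Fin (x k)) → ℚ)} (hC : IsSystem X n C P D)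
    (hH : ∀ F, IsHodgeOnProductOfPowers X F → F ∈ productsOfHodgeClasses X n)
    (hP : ∀ k, k ≠ i₀ → ∀ f, IsHodgeOnPower (X k) f → f ∈ P k) : C = productsOf P := by
  refine le_antisymm (fun F hF => ?_) ?_
  swap
  · refine Submodule.span_le.2 ?_
    rintro _ ⟨f, hf, rfl⟩
    exact hC.product_mem f hf
  -- the slices of the Hodge classes
  have hslice : ∀ k, ∀ a : ∀ k, Fin (n k) → Fin (x k),
      (fun c => F (Function.update a k c)) ∈ hodgeSub X n k := by
    intro k a
    have h1 := hH F (hC.hodge F hF)
    clear hF
    unfold productsOfHodgeClasses at h1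
    induction h1 using Submodule.span_induction with
    | mem F hF =>
      obtain ⟨f, hf, rfl⟩ := hF
      have h2 : (fun c => exteriorProduct f (Function.update a k c)) =
          (∏ j ∈ Finset.univ.erase k, f j (a j)) • f k := by
        funext c
        unfold exteriorProduct
        rw [← Finset.mul_prod_erase Finset.univ _ (Finset.mem_univ k), Function.update_self,
          Pi.smul_apply, smul_eq_mul, mul_comm]
        congr 1
        refine Finset.prod_congr rfl fun j hj => ?_
        rw [Function.update_of_ne (Finset.ne_of_mem_erase hj)]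
      rw [h2]
      exact Submodule.smul_mem _ _ (hf k)
    | zero => exact Submodule.zero_mem _
    | add F G _ _ hF hG => exact Submodule.add_mem _ hF hG
    | smul r F _ hF => exact Submodule.smul_mem _ r hF
  refine mem_span_products P fun k a => ?_
  by_cases hk : k = i₀
  · subst hk
    -- linear forms which vanish on `P k`
    by_contra hcon
    obtain ⟨ψ, hψ', hψ⟩ := Submodule.exists_le_ker_of_notMem hcon
    have hG : (fun b => ψ (fun c => F (Function.update b k c)) : Ten x n ℚ) = 0 := by
      refine eq_zero_of_pint (S := hodgeSub X n) (D := D) (Finset.univ.erase k) ?_ ?_ ?_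
      · intro j hj f hf hβ
        by_contra hf0
        obtain ⟨β, hβD, hβ0⟩ := hC.duality j (hP j (Finset.ne_of_mem_erase hj)) f hf hf0
        exact hβ0 (hβ β hβD)
      · intro j hj b
        have hjk := Finset.ne_of_mem_erase hj
        -- the slices of `ψ F`
        have h2 : (fun c => ψ (fun d => F (Function.update (Function.update b j c) k d))) =
            ∑ d, ψ (Pi.single d 1) • (fun c => F (Function.update (Function.update b k d) j c)) := by
          funext c
          rw [Finset.sum_apply]
          have h3 : (fun d => F (Function.update (Function.update b j c) k d)) =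
              ∑ d, F (Function.update (Function.update b j c) k d) •
                (Pi.single d (1 : ℚ) : (Fin (n k) → Fin (x k)) → ℚ) := by
            funext e
            rw [Finset.sum_apply, Finset.sum_eq_single e]
            · rw [Pi.smul_apply, Pi.single_eq_same, smul_eq_mul, mul_one]
            · intro d _ hd
              rw [Pi.smul_apply, Pi.single_eq_of_ne (Ne.symm hd), smul_zero]
            · intro h
              exact absurd (Finset.mem_univ _) h
          rw [h3, map_sum]
          refine Finset.sum_congr rfl fun d _ => ?_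
          rw [map_smul, Pi.smul_apply, smul_eq_mul, smul_eq_mul, mul_comm,
            Function.update_comm hjk]
        change (fun c => ψ (fun d => F (Function.update (Function.update b j c) k d))) ∈ _
        rw [h2]
        exact Submodule.sum_mem _ fun d _ => Submodule.smul_mem _ _ (hslice j _)
      · intro β hβ
        funext b
        have h2 := hψ (hC.integral_mem F hF k β fun j hj =>
          hβ j (Finset.mem_erase.2 ⟨hj, Finset.mem_univ j⟩))
        rw [LinearMap.mem_ker] at h2
        have h3 : integrateOthers k β F =
            fun c => pint (Finset.univ.erase k) β F (Function.update b k c) := by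
          funext c
          have h5 := integrateOthers_eq k β F (Function.update b k c)
          rwa [Function.update_self] at h5
        rw [← pint_form ψ β F _ (Finset.notMem_erase k _) b, ← h3, h2]
        rfl
    exact hψ' (congrFun hG a)
  · exact hP k hk _ (hslice k a)

/-- The classes of a system on the powers are determined by those on the product. -/
theorem power_mem {C A : Submodule ℚ (Ten x n ℚ)}
    {P D B : ∀ k, Submodule ℚ ((Fin (n k) → Fin (x k)) → ℚ)} (hC : IsSystem X n C P D)
    (hA : ∀ f : ∀ k, (Fin (n k) → Fin (x k)) → ℚ, (∀ k, f k ∈ B k) → exteriorProduct f ∈ A)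
    (hB : ∀ k, P k ≤ B k) (hAC : A ≤ C) (k : κ) : B k ≤ P k := by
  intro f hf
  choose g hg β hβ hne using hC.unit
  have h1 : exteriorProduct (Function.update g k f) ∈ A := by
    refine hA _ fun j => ?_
    by_cases hj : j = k
    · subst hj
      rw [Function.update_self]
      exact hf
    · rw [Function.update_of_ne hj]
      exact hB j (hg j)
  have h2 := hC.integral_mem _ (hAC h1) k β fun j _ => hβ j
  rw [integrate_exterior, Function.update_self] at h2
  have h3 : (∏ j ∈ Finset.univ.erase k, ∑ c, β j c * Function.update g k f j c) ≠ 0 := by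
    refine Finset.prod_ne_zero_iff.2 fun j hj => ?_
    rw [Function.update_of_ne (Finset.ne_of_mem_erase hj)]
    exact hne j
  have h4 := Submodule.smul_mem _
    (∏ j ∈ Finset.univ.erase k, ∑ c, β j c * Function.update g k f j c)⁻¹ h2
  rwa [smul_smul, inv_mul_cancel₀ h3, one_smul] at h4

theorem productsOf_mono {P B : ∀ k, Submodule ℚ ((Fin (n k) → Fin (x k)) → ℚ)}
    (h : ∀ k, P k ≤ B k) : productsOf P ≤ productsOf B := by
  refine Submodule.span_mono ?_
  rintro _ ⟨f, hf, rfl⟩
  exact ⟨f, fun k => h k (hf k), rfl⟩

/-- All Hodge classes on the product are in the system iff this is so for the powers. -/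
theorem all_iff {C : Submodule ℚ (Ten x n ℚ)}
    {P D : ∀ k, Submodule ℚ ((Fin (n k) → Fin (x k)) → ℚ)} (hC : IsSystem X n C P D)
    (hH : ∀ F, IsHodgeOnProductOfPowers X F → F ∈ productsOfHodgeClasses X n) :
    (∀ F, IsHodgeOnProductOfPowers X F → F ∈ C) ↔ ∀ k, ∀ f, IsHodgeOnPower (X k) f → f ∈ P k := by
  constructor
  · intro h k
    have h1 := power_mem (A := productsOfHodgeClasses X n) (B := hodgeSub X n) hC
      (fun f hf => Submodule.subset_span ⟨f, hf, rfl⟩) (fun k f hf => hC.hodge_power k f hf)
      (fun F hF => h F (isHodge_of_mem hF)) k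
    exact fun f hf => h1 hf
  · intro h F hF
    refine Submodule.span_le.2 ?_ (hH F hF)
    rintro _ ⟨f, hf, rfl⟩
    exact hC.product_mem f fun k => h k _ (hf k)

/-- The comparison of two systems. -/
theorem comparison_iff (i₀ : κ) {A B : Submodule ℚ (Ten x n ℚ)}
    {P Q D D' : ∀ k, Submodule ℚ ((Fin (n k) → Fin (x k)) → ℚ)} (hA : IsSystem X n A P D)
    (hB : IsSystem X n B Q D')
    (hH : ∀ F, IsHodgeOnProductOfPowers X F → F ∈ productsOfHodgeClasses X n)
    (hP : ∀ k, k ≠ i₀ → ∀ f, IsHodgeOnPower (X k) f → f ∈ P k) (hQP : ∀ k, Q k ≤ P k) :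
    A ≤ B ↔ ∀ k, P k ≤ Q k := by
  constructor
  · intro h k
    exact power_mem hB hA.product_mem hQP h k
  · intro h
    rw [system_eq i₀ hA hH hP]
    refine Submodule.span_le.2 ?_
    rintro _ ⟨f, hf, rfl⟩
    exact hB.product_mem f fun k => h k (hf k)

end

end Pool.Agent.X311.Ip
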