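import Mathlib

/-!
# Concentration of sums of integers: an explicit bound

Let `δ : I → ℤ` take two different values and `b = |I|`. For each integer `r` the number `N` of the
`g : Fin n → I` with `∑ k, δ (g k) = r` satisfies `2 (n + 1) N ^ 2 ≤ b ^ (2 n + 1)`.
-/

set_option autoImplicit false

open Finset

namespace Pool.Agent.X311.Mw

/-- the translation operators -/
noncomputable def sh (d : ℤ) : Module.End ℝ (ℤ → ℝ) := LinearMap.funLeft ℝ ℝ (fun s => s - d)

theorem sh_apply (d : ℤ) (f : ℤ → ℝ) (s : ℤ) : sh d f s = f (s - d) := rfl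

theorem sh_mul (c d : ℤ) : sh c * sh d = sh (c + d) := by
  refine LinearMap.ext fun f => funext fun s => ?_
  change f (s - c - d) = f (s - (c + d))
  congr 1
  ring

theorem sh_comm (c d : ℤ) : Commute (sh c) (sh d) := by
  change sh c * sh d = sh d * sh c
  rw [sh_mul, sh_mul, add_comm]

theorem sh_zero : sh 0 = 1 := by
  refine LinearMap.ext fun f => funext fun s => ?_
  change f (s - 0) = f s
  rw [sub_zero]

theorem sh_pow (d : ℤ) (t : ℕ) : sh d ^ t = sh (t * d) := by
  induction t with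
  | zero => rw [pow_zero, Nat.cast_zero, zero_mul, sh_zero]
  | succ t ih =>
    rw [pow_succ, ih, sh_mul]
    congr 1
    push_cast
    ring

/-- the function which is one at zero -/
noncomputable def e0 : ℤ → ℝ := fun s => if s = 0 then 1 else 0

variable {I : Type} [Fintype I]

theorem count_pow (δ : I → ℤ) (n : ℕ) (r : ℤ) :
    ((∑ i, sh (δ i)) ^ n) e0 r = (Nat.card {g : Fin n → I // ∑ k, δ (g k) = r} : ℝ) := by
  classical
  have h0 : ∀ (n : ℕ) (r : ℤ), (Nat.card {g : Fin n → I // ∑ k, δ (g k) = r} : ℝ) =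
      ∑ g : Fin n → I, if ∑ k, δ (g k) = r then (1 : ℝ) else 0 := by
    intro n r
    rw [Nat.card_eq_fintype_card, Fintype.card_subtype, Finset.sum_boole]
  rw [h0]
  induction n generalizing r with
  | zero =>
    rw [pow_zero]
    change e0 r = _
    rw [Fintype.sum_unique]
    unfold e0
    simp [eq_comm]
  | succ n ih =>
    rw [pow_succ', Module.End.mul_apply, LinearMap.sum_apply, Finset.sum_apply]
    have h1 : ∀ i, sh (δ i) (((∑ i, sh (δ i)) ^ n) e0) r =
        ∑ g : Fin n → I, if ∑ k, δ (g k) = r - δ i then (1 : ℝ) else 0 := fun i => ih _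
    rw [Finset.sum_congr rfl fun i _ => h1 i]
    rw [← Fintype.sum_prod_type' (f := fun (i : I) (g : Fin n → I) =>
      if ∑ k, δ (g k) = r - δ i then (1 : ℝ) else 0)]
    refine Fintype.sum_equiv (Fin.consEquiv (fun _ => I)) _ _ fun p => ?_
    have h2 : ∑ k, δ ((Fin.consEquiv (fun _ : Fin (n + 1) => I)) p k) = δ p.1 + ∑ k, δ (p.2 k) := by
      rw [Fin.sum_univ_succ]
      rfl
    rw [h2]
    congr 1
    refine propext ⟨fun h => ?_, fun h => ?_⟩
    · rw [h]; ring
    · rw [← h]; ring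

/-- central binomial coefficients -/
theorem choose_sq_le (m : ℕ) : (m.choose (m / 2) : ℝ) ^ 2 * (m + 1) ≤ 4 ^ m := by
  have heven : ∀ k : ℕ, (k.centralBinom : ℝ) ^ 2 * (2 * k + 1) ≤ 4 ^ (2 * k) := by
    intro k
    induction k with
    | zero => simp
    | succ k ih =>
      have h1 : ((k + 1 : ℕ) : ℝ) * ((k + 1).centralBinom : ℝ) =
          2 * (2 * k + 1) * (k.centralBinom : ℝ) := by
        exact_mod_cast Nat.succ_mul_centralBinom_succ k
      push_cast at h1 ⊢
      have hk : (0 : ℝ) ≤ k := Nat.cast_nonneg k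
      have h2 : ((k : ℝ) + 1) ^ 2 * (((k + 1).centralBinom : ℝ) ^ 2 * (2 * (k + 1) + 1)) =
          4 * (2 * k + 1) * (2 * k + 3) * ((k.centralBinom : ℝ) ^ 2 * (2 * k + 1)) := by
        calc ((k : ℝ) + 1) ^ 2 * (((k + 1).centralBinom : ℝ) ^ 2 * (2 * (k + 1) + 1))
            = (((k : ℝ) + 1) * ((k + 1).centralBinom : ℝ)) ^ 2 * (2 * k + 3) := by ring
          _ = _ := by rw [h1]; ring
      have h3 : 4 * (2 * (k : ℝ) + 1) * (2 * k + 3) * ((k.centralBinom : ℝ) ^ 2 * (2 * k + 1)) ≤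
          4 * (2 * (k : ℝ) + 1) * (2 * k + 3) * 4 ^ (2 * k) :=
        mul_le_mul_of_nonneg_left ih (by positivity)
      have h4 : 4 * (2 * (k : ℝ) + 1) * (2 * k + 3) * 4 ^ (2 * k) ≤
          ((k : ℝ) + 1) ^ 2 * 4 ^ (2 * (k + 1)) := by
        have h5 : (4 : ℝ) ^ (2 * (k + 1)) = 16 * 4 ^ (2 * k) := by
          rw [show 2 * (k + 1) = 2 * k + 2 by ring, pow_add]; norm_num; ring
        rw [h5]
        have h6 : (0 : ℝ) < 4 ^ (2 * k) := by positivity
        nlinarith
      have h7 : (0 : ℝ) < ((k : ℝ) + 1) ^ 2 := by positivity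
      have h8 := (h2.le.trans h3).trans h4
      exact le_of_mul_le_mul_left h8 h7
  rcases Nat.even_or_odd' m with ⟨k, hk | hk⟩
  · subst hk
    have h1 : (2 * k).choose (2 * k / 2) = k.centralBinom := by
      rw [Nat.mul_div_cancel_left k (by norm_num)]
      rfl
    rw [h1]
    push_cast
    exact heven k
  · subst hk
    have h1 : (2 * k + 1) / 2 = k := by omega
    rw [h1]
    have h2 : 2 * ((2 * k + 1).choose k : ℝ) = ((k + 1).centralBinom : ℝ) := by
      have h3 : (k + 1).centralBinom = 2 * (2 * k + 1).choose k := by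
        have h4 : (k + 1).centralBinom = (2 * k + 1 + 1).choose (k + 1) := by
          unfold Nat.centralBinom
          congr 1
        rw [h4, Nat.choose_succ_succ]
        have h5 : (2 * k + 1).choose (k + 1) = (2 * k + 1).choose k :=
          Nat.choose_symm_of_eq_add (by omega)
        rw [h5]
        ring
      rw [h3]
      push_cast
      ring
    have h3 := heven (k + 1)
    rw [← h2] at h3
    push_cast at h3 ⊢
    have h4 : (4 : ℝ) ^ (2 * (k + 1)) = 4 * 4 ^ (2 * k + 1) := by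
      rw [← pow_succ']
      congr 1
    rw [h4] at h3
    have h5 : (0 : ℝ) ≤ ((2 * k + 1).choose k : ℝ) ^ 2 := sq_nonneg _
    nlinarith

omit [Fintype I] in
/-- The sum over a set of translations. -/
theorem sup_bound (J : Finset I) (δ : I → ℤ) (f : ℤ → ℝ) (M : ℝ) (hf : ∀ s, f s ≤ M) (l : ℕ)
    (s : ℤ) : ((∑ i ∈ J, sh (δ i)) ^ l) f s ≤ (J.card : ℝ) ^ l * M := by
  induction l generalizing s with
  | zero => rw [pow_zero, pow_zero, one_mul]; exact hf s
  | succ l ih =>
    rw [pow_succ', Module.End.mul_apply, LinearMap.sum_apply, Finset.sum_apply]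
    refine (Finset.sum_le_sum fun i _ => (sh_apply (δ i) _ s).le.trans (ih _)).trans ?_
    rw [Finset.sum_const, nsmul_eq_mul, pow_succ']
    exact (mul_assoc _ _ _).symm.le

/-- Powers of the sum of two translations. -/
theorem two_bound {x y : ℤ} (h : x ≠ y) (m : ℕ) (s : ℤ) :
    ((sh x + sh y) ^ m) e0 s ≤ (m.choose (m / 2) : ℝ) := by
  classical
  rw [(sh_comm x y).add_pow, LinearMap.sum_apply, Finset.sum_apply]
  have h1 : ∀ t ∈ range (m + 1), (sh x ^ t * sh y ^ (m - t) * ((m.choose t : ℕ) :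
      Module.End ℝ (ℤ → ℝ))) e0 s =
      if s = (t : ℤ) * x + ((m - t : ℕ) : ℤ) * y then (m.choose t : ℝ) else 0 := by
    intro t _
    rw [sh_pow, sh_pow, sh_mul, Module.End.mul_apply]
    have h2 : ((m.choose t : ℕ) : Module.End ℝ (ℤ → ℝ)) e0 = (m.choose t : ℝ) • e0 := by
      rw [Module.End.natCast_apply, Nat.cast_smul_eq_nsmul]
    rw [h2, map_smul, Pi.smul_apply, sh_apply, smul_eq_mul]
    unfold e0
    split_ifs with h3 h4 h4
    · rw [mul_one]
    · exact absurd (sub_eq_zero.1 h3) h4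
    · exact absurd (sub_eq_zero.2 h4) h3
    · rw [mul_zero]
  rw [Finset.sum_congr rfl h1]
  by_cases hs : ∃ t ∈ range (m + 1), s = (t : ℤ) * x + ((m - t : ℕ) : ℤ) * y
  · obtain ⟨t, ht, hst⟩ := hs
    rw [Finset.sum_eq_single_of_mem t ht]
    · rw [if_pos hst]
      exact_mod_cast Nat.choose_le_middle t m
    · intro t' ht' htt'
      rw [if_neg]
      intro h2
      apply htt'
      rw [Finset.mem_range] at ht ht'
      rw [hst, Nat.cast_sub (by omega), Nat.cast_sub (by omega)] at h2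
      have h3 : ((t : ℤ) - t') * (x - y) = 0 := by linarith
      rcases mul_eq_zero.1 h3 with h4 | h4
      · omega
      · exact absurd (sub_eq_zero.1 h4) h
  · push Not at hs
    rw [Finset.sum_eq_zero fun t ht => if_neg (hs t ht)]
    positivity

/-- **Concentration.** -/
theorem conc (δ : I → ℤ) (i j : I) (h : δ i ≠ δ j) (n : ℕ) (r : ℤ) :
    (Nat.card {g : Fin n → I // ∑ k, δ (g k) = r} : ℝ) ^ 2 * (2 * (n + 1)) ≤
      (Fintype.card I : ℝ) ^ (2 * n + 1) := by
  classical
  have hij : i ≠ j := fun e => h (by rw [e])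
  set J := (Finset.univ.erase i).erase j with hJ
  have hjm : j ∈ Finset.univ.erase i := Finset.mem_erase.2 ⟨hij.symm, Finset.mem_univ _⟩
  have hcard : J.card + 2 = Fintype.card I := by
    have h1 : J.card + 1 = (Finset.univ.erase i).card := Finset.card_erase_add_one hjm
    have h2 : (Finset.univ.erase i).card + 1 = Fintype.card I := by
      rw [Finset.card_erase_add_one (Finset.mem_univ i), Finset.card_univ]
    omega
  have hb : (Fintype.card I : ℝ) = 2 + J.card := by
    rw [← hcard]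
    push_cast
    ring
  have hsum : ∑ k, sh (δ k) = (sh (δ i) + sh (δ j)) + ∑ k ∈ J, sh (δ k) := by
    rw [← Finset.add_sum_erase _ _ (Finset.mem_univ i), ← Finset.add_sum_erase _ _ hjm, add_assoc]
  have hcomm : Commute (sh (δ i) + sh (δ j)) (∑ k ∈ J, sh (δ k)) :=
    Commute.sum_right _ _ _ fun k _ => (sh_comm _ _).add_left (sh_comm _ _)
  set b : ℝ := (Fintype.card I : ℝ) with hbdef
  set N : ℝ := (Nat.card {g : Fin n → I // ∑ k, δ (g k) = r} : ℝ) with hN
  have hN0 : 0 ≤ N := Nat.cast_nonneg _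
  -- the weights
  set W : ℕ → ℝ := fun m => (n.choose m : ℝ) * 2 ^ m * (J.card : ℝ) ^ (n - m) with hW
  set c : ℕ → ℝ := fun m => (m.choose (m / 2) : ℝ) / 2 ^ m with hc
  have hW0 : ∀ m, 0 ≤ W m := fun m => by positivity
  have hbound : N ≤ ∑ m ∈ range (n + 1), W m * c m := by
    rw [hN, ← count_pow, hsum, hcomm.add_pow, LinearMap.sum_apply, Finset.sum_apply]
    refine Finset.sum_le_sum fun m _ => ?_
    rw [((hcomm.pow_pow m (n - m)).eq), mul_assoc, Module.End.mul_apply]
    have h2 : ((sh (δ i) + sh (δ j)) ^ m * ((n.choose m : ℕ) : Module.End ℝ (ℤ → ℝ))) e0 =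
        (n.choose m : ℝ) • ((sh (δ i) + sh (δ j)) ^ m) e0 := by
      rw [Module.End.mul_apply, Module.End.natCast_apply, map_nsmul, Nat.cast_smul_eq_nsmul]
    rw [h2, map_smul, Pi.smul_apply, smul_eq_mul]
    have h3 := sup_bound J δ (((sh (δ i) + sh (δ j)) ^ m) e0) _ (two_bound h m) (n - m) r
    have h4 := mul_le_mul_of_nonneg_left h3 (Nat.cast_nonneg (α := ℝ) (n.choose m))
    refine h4.trans (le_of_eq ?_)
    have h5 : (2 : ℝ) ^ m ≠ 0 := by positivity
    simp only [hW, hc]
    field_simp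
  have hsumW : ∑ m ∈ range (n + 1), W m = b ^ n := by
    rw [hb, add_pow]
    refine Finset.sum_congr rfl fun m _ => ?_
    simp only [hW]
    ring
  have hc2 : ∀ m : ℕ, c m ^ 2 ≤ 1 / (m + 1) := by
    intro m
    have h1 := choose_sq_le m
    have h2 : (0 : ℝ) < (m : ℝ) + 1 := by positivity
    simp only [hc]
    rw [div_pow, ← pow_mul, mul_comm m 2, pow_mul, show (2 : ℝ) ^ 2 = 4 by norm_num,
      div_le_div_iff₀ (by positivity) h2, one_mul]
    exact h1
  have hsumWc : ∑ m ∈ range (n + 1), W m * c m ^ 2 ≤ b ^ (n + 1) / (2 * (n + 1)) := by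
    have h1 : ∀ m ∈ range (n + 1), W m * c m ^ 2 ≤
        ((n + 1).choose (m + 1) * 2 ^ (m + 1) * (J.card : ℝ) ^ (n - m)) / (2 * (n + 1)) := by
      intro m _
      have h2 := mul_le_mul_of_nonneg_left (hc2 m) (hW0 m)
      refine h2.trans (le_of_eq ?_)
      have h3 : ((n : ℝ) + 1) * (n.choose m : ℝ) = ((n + 1).choose (m + 1) : ℝ) * (m + 1) := by
        have h4 := Nat.add_one_mul_choose_eq n m
        exact_mod_cast h4
      have h5 : ((m : ℝ) + 1) ≠ 0 := by positivity
      have h6 : ((n : ℝ) + 1) ≠ 0 := by positivity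
      simp only [hW]
      rw [mul_one_div, div_eq_div_iff h5 (by positivity)]
      calc (n.choose m : ℝ) * 2 ^ m * (J.card : ℝ) ^ (n - m) * (2 * ((n : ℝ) + 1))
          = (((n : ℝ) + 1) * (n.choose m : ℝ)) * 2 ^ (m + 1) * (J.card : ℝ) ^ (n - m) := by
            rw [pow_succ]; ring
        _ = _ := by rw [h3]; ring
    refine (Finset.sum_le_sum h1).trans ?_
    rw [← Finset.sum_div]
    refine div_le_div_of_nonneg_right ?_ (by positivity)
    rw [hb, add_pow, Finset.sum_range_succ' _ (n + 1)]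
    have h2 : ∀ m ∈ range (n + 1), ((n + 1).choose (m + 1) * 2 ^ (m + 1) * (J.card : ℝ) ^ (n - m)) =
        2 ^ (m + 1) * (J.card : ℝ) ^ (n + 1 - (m + 1)) * ((n + 1).choose (m + 1) : ℝ) := by
      intro m _
      rw [Nat.add_sub_add_right]
      ring
    rw [Finset.sum_congr rfl h2]
    have h3 : (0 : ℝ) ≤ 2 ^ 0 * (J.card : ℝ) ^ (n + 1 - 0) * ((n + 1).choose 0 : ℝ) := by positivity
    linarith
  -- Cauchy-Schwarz
  have hCS : (∑ m ∈ range (n + 1), W m * c m) ^ 2 ≤
      (∑ m ∈ range (n + 1), W m) * ∑ m ∈ range (n + 1), W m * c m ^ 2 := by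
    have h1 := Finset.sum_mul_sq_le_sq_mul_sq (range (n + 1)) (fun m => √(W m))
      (fun m => √(W m) * c m)
    have h2 : ∀ m, √(W m) * (√(W m) * c m) = W m * c m := fun m => by
      rw [← mul_assoc, Real.mul_self_sqrt (hW0 m)]
    have h3 : ∀ m, √(W m) ^ 2 = W m := fun m => Real.sq_sqrt (hW0 m)
    have h4 : ∀ m, (√(W m) * c m) ^ 2 = W m * c m ^ 2 := fun m => by rw [mul_pow, h3]
    simp only [h2, h3, h4] at h1
    exact h1
  have h5 : N ^ 2 ≤ b ^ n * (b ^ (n + 1) / (2 * (n + 1))) := by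
    refine (pow_le_pow_left₀ hN0 hbound 2).trans (hCS.trans ?_)
    rw [hsumW]
    exact mul_le_mul_of_nonneg_left hsumWc (by positivity)
  have h6 : (0 : ℝ) < 2 * ((n : ℝ) + 1) := by positivity
  have h7 := mul_le_mul_of_nonneg_right h5 h6.le
  refine h7.trans (le_of_eq ?_)
  rw [mul_assoc, div_mul_cancel₀ _ h6.ne', ← pow_add]
  congr 1
  ring

end Pool.Agent.X311.Mw
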