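import Pool.Agent.X311.MwDefs
import Pool.Agent.X311.Mw1
import Pool.Agent.Y163.MW.Asm

/-!
# The relative law for the number of Frobenius eigenvalues of the right weight
-/

set_option autoImplicit false

open Module Filter Topology

universe u v w

namespace Pool.Agent.X311.Mw

open Pool.Agent.Y143 Pool.Agent.H914 Pool.Agent.Y163.MW

section sums

/-- A function with symmetric fibres has sum zero. -/
theorem sum_eq_zero_of_symm {I : Type} [Fintype I] (a : I → ℤ)
    (h : ∀ r : ℤ, Nat.card {i // a i = r} = Nat.card {i // a i = -r}) : ∑ i, a i = 0 := by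
  have h1 := finsum_card a id
  have h2 : ∑ᶠ c : ℤ, id c * (Nat.card {g // a g = c} : ℤ) =
      ∑ᶠ c : ℤ, id (-c) * (Nat.card {g // a g = -c} : ℤ) :=
    (finsum_comp_equiv (Equiv.neg ℤ) (f := fun c : ℤ => id c * (Nat.card {g // a g = c} : ℤ))).symm
  have h3 : ∀ c : ℤ, id (-c) * (Nat.card {g // a g = -c} : ℤ) =
      (fun c => -c) c * (Nat.card {g // a g = c} : ℤ) := by
    intro c
    rw [← h c]
    rfl
  have h4 := finsum_card a (fun c => -c)
  rw [h2, finsum_congr h3, h4] at h1
  simp only [id, Finset.sum_neg_distrib] at h1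
  omega

end sums

variable {K : Type u} [Field K] {Ω : Type w} [Field Ω] [CharZero Ω] [IsAlgClosed Ω]
  {T : Theory.{u, v, w} K Ω} {q : ℕ}

open Coh

/-- `N` is nilpotent. -/
theorem nilp (hT : T.IsLocal q) (hq : 1 < q) (X : SmVar.{u} K) :
    IsMonodromyFiltrationOn ⊤ (T.H X).N (monFil (T.H X).N) := by
  obtain ⟨S⟩ := exists_strings hq (hT.coh X)
  obtain ⟨b, e, h, hs, -⟩ := adp_strings S
  have h1 := Pool.Agent.Y68.MW.fil_monodromy Pool.Agent.Y141.MW.stL hs
  refine (isMonodromyFiltration_monFil ?_).on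
  obtain ⟨s, hs1⟩ := h1.bot
  obtain ⟨t, ht⟩ := h1.top
  refine ⟨(t - s).toNat, LinearMap.ext fun x => ?_⟩
  have h2 : x ∈ Pool.Agent.Y68.MW.fil b S.ct t := by rw [ht]; trivial
  have h3 := h1.mono (show t - 2 * ((t - s).toNat : ℤ) ≤ s by omega)
    (h1.pow_map (t - s).toNat t x h2)
  rw [hs1] at h3
  exact (Submodule.mem_bot Ω).1 h3

/-- The number of right eigenvalues in terms of an adapted basis. -/
theorem right_adp (hT : T.IsLocal q) (hq : 1 < q) (X : SmVar.{u} K) {I : Type} [Fintype I]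
    {a c : I → ℤ} (H : (T.H X).Adp q a c) :
    rightNumber T q X = Nat.card {i // c i - a i = 0} :=
  H.right_eq hq (hT.coh X) (nilp hT hq X)

/-- The differences between weights and monodromy weights are not all equal if the conjecture fails
for `X`. -/
theorem exists_ne (hT : T.IsLocal q) (hq : 1 < q) (X : SmVar.{u} K) (S : Strings ((T.H X).tot q) (T.H X).N)
    (h : ¬ Holds T q X) : ∃ i j : S.P, S.wt i - S.ct i ≠ S.wt j - S.ct j := by
  classical
  by_contra hcon
  push Not at hcon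
  have h1 : ∃ s, S.top s ≠ S.len s := by
    by_contra hcon'
    push Not at hcon'
    exact h ((mw_iff hq (hT.coh X) S).2 hcon')
  obtain ⟨s, hs⟩ := h1
  set p : S.P := ⟨s, ⟨0, by omega⟩⟩ with hp
  have hp1 : S.wt p - S.ct p = S.top s - S.len s := by
    rw [hp]
    unfold Strings.wt Strings.ct
    simp
  have ha : ∀ r : ℤ, Nat.card {p // S.ct p = r} = Nat.card {p // S.ct p = -r} := by
    intro r
    let E : S.P ≃ S.P := Equiv.sigmaCongrRight fun s => Fin.revPerm
    refine Nat.card_congr (E.subtypeEquiv ?_)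
    rintro ⟨s, i⟩
    have hE : S.ct (E ⟨s, i⟩) = -S.ct ⟨s, i⟩ := by
      show (S.len s : ℤ) - 2 * ((Fin.rev i : Fin (S.len s + 1)) : ℕ) =
        -((S.len s : ℤ) - 2 * (i : ℕ))
      rw [Fin.val_rev]
      have := i.2
      omega
    rw [hE]
    omega
  have H := adp_strings S
  have hc : ∀ r : ℤ, Nat.card {p // S.wt p = r} = Nat.card {p // S.wt p = -r} := by
    intro r
    rw [← H.finrank_tot hq (hT.coh X), ← H.finrank_tot hq (hT.coh X)]
    exact finrank_tot_neg hq (hT.coh X) r
  have h2 : ∑ i, (S.wt i - S.ct i) = 0 := by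
    rw [Finset.sum_sub_distrib, sum_eq_zero_of_symm _ ha, sum_eq_zero_of_symm _ hc, sub_zero]
  rw [Finset.sum_congr rfl fun i _ => hcon i p, Finset.sum_const, Finset.card_univ,
    nsmul_eq_mul] at h2
  rcases mul_eq_zero.1 h2 with h3 | h3
  · have h4 : 0 < Fintype.card S.P := Fintype.card_pos_iff.2 ⟨p⟩
    have h5 : Fintype.card S.P = 0 := by exact_mod_cast h3
    omega
  · rw [hp1] at h3
    omega

/-- The bound for the number of solutions, as an upper bound for the number itself. -/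
theorem conc' {I : Type} [Fintype I] (δ : I → ℤ) (i j : I) (h : δ i ≠ δ j) (n : ℕ) (r : ℤ) :
    (Nat.card {g : Fin n → I // ∑ k, δ (g k) = r} : ℝ) ≤
      √((Fintype.card I : ℝ) / (2 * (n + 1))) * (Fintype.card I : ℝ) ^ n := by
  have h1 := conc δ i j h n r
  have h2 : (0 : ℝ) < 2 * ((n : ℝ) + 1) := by positivity
  rw [← le_div_iff₀ h2] at h1
  have h3 : √((Fintype.card I : ℝ) ^ (2 * n + 1) / (2 * (n + 1))) =
      √((Fintype.card I : ℝ) / (2 * (n + 1))) * (Fintype.card I : ℝ) ^ n := by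
    rw [show (Fintype.card I : ℝ) ^ (2 * n + 1) / (2 * (n + 1)) =
      (Fintype.card I : ℝ) / (2 * (n + 1)) * ((Fintype.card I : ℝ) ^ n) ^ 2 by
        rw [← pow_mul, mul_comm n 2, pow_succ]; ring,
      Real.sqrt_mul (by positivity), Real.sqrt_sq (by positivity)]
  rw [← h3]
  exact Real.le_sqrt_of_sq_le h1

/-- **The law.** If the conjecture fails for `X`, then for all `Y` and `n` at most the part
`√(b / (2 (n + 2)))` of the Frobenius eigenvalues on the cohomology of `Y × X^(n + 1)` have the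
right weight. -/
theorem right_le (hT : T.IsLocal q) (hq : 1 < q) (X : SmVar.{u} K) (hX : ¬ Holds T q X)
    (Y : SmVar.{u} K) (n : ℕ) :
    (rightNumber T q (Y.prod (pow X n)) : ℝ) ≤
      √((betti T X : ℝ) / (2 * (n + 2))) * betti T (Y.prod (pow X n)) := by
  classical
  obtain ⟨S⟩ := exists_strings hq (hT.coh X)
  obtain ⟨S'⟩ := exists_strings hq (hT.coh Y)
  have H := adp_strings S
  have H' := adp_strings S'
  obtain ⟨κ, hκ⟩ := hT.kunneth Y (pow X n)
  have HY := H'.prod (adp_pow hT hq X H n) (by omega) hκ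
  have hb : (betti T X : ℝ) = Fintype.card S.P := by
    unfold betti
    rw [H.finrank_eq]
  have hd : betti T (Y.prod (pow X n)) = Fintype.card S'.P * Fintype.card S.P ^ (n + 1) := by
    unfold betti
    rw [HY.finrank_eq, Fintype.card_prod, Fintype.card_fun, Fintype.card_fin]
  obtain ⟨i, j, hij⟩ := exists_ne hT hq X S hX
  rw [right_adp hT hq _ HY, hb, hd]
  have h1 : (Nat.card {p : S'.P × (Fin (n + 1) → S.P) //
      S'.wt p.1 + ∑ k, S.wt (p.2 k) - (S'.ct p.1 + ∑ k, S.ct (p.2 k)) = 0} : ℝ) =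
      ∑ y : S'.P, (Nat.card {g : Fin (n + 1) → S.P //
        ∑ k, (S.wt (g k) - S.ct (g k)) = -(S'.wt y - S'.ct y)} : ℝ) := by
    have h2 : ∀ (y : S'.P) (g : Fin (n + 1) → S.P),
        (S'.wt y + ∑ k, S.wt (g k) - (S'.ct y + ∑ k, S.ct (g k)) = 0 ↔
        ∑ k, (S.wt (g k) - S.ct (g k)) = -(S'.wt y - S'.ct y)) := by
      intro y g
      rw [Finset.sum_sub_distrib]
      constructor <;> intro h <;> omega
    rw [Nat.card_eq_fintype_card, Fintype.card_subtype, Finset.card_filter, Fintype.sum_prod_type,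
      Nat.cast_sum]
    refine Finset.sum_congr rfl fun y _ => ?_
    rw [Nat.card_eq_fintype_card, Fintype.card_subtype, Finset.card_filter]
    refine congrArg Nat.cast (Finset.sum_congr rfl fun g _ => ?_)
    simp only [h2]
  push_cast
  rw [h1]
  have h3 : ∀ y : S'.P, (Nat.card {g : Fin (n + 1) → S.P //
        ∑ k, (S.wt (g k) - S.ct (g k)) = -(S'.wt y - S'.ct y)} : ℝ) ≤
      √((Fintype.card S.P : ℝ) / (2 * (n + 2))) * (Fintype.card S.P : ℝ) ^ (n + 1) := by
    intro y
    have h4 := conc' (fun p => S.wt p - S.ct p) i j hij (n + 1) (-(S'.wt y - S'.ct y))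
    have h5 : (2 * (((n + 1 : ℕ) : ℝ) + 1)) = 2 * ((n : ℝ) + 2) := by push_cast; ring
    rwa [h5] at h4
  refine (Finset.sum_le_sum fun y _ => h3 y).trans (le_of_eq ?_)
  rw [Finset.sum_const, Finset.card_univ, nsmul_eq_mul]
  ring

/-- If the conjecture holds for `X`, all eigenvalues have the right weight. -/
theorem right_eq_of_holds (hT : T.IsLocal q) (hq : 1 < q) (X : SmVar.{u} K) (hX : Holds T q X) :
    rightNumber T q X = betti T X := by
  obtain ⟨S⟩ := exists_strings hq (hT.coh X)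
  have H := adp_strings S
  have h := (mw_iff hq (hT.coh X) S).1 hX
  have h1 : ∀ p, S.wt p - S.ct p = 0 := by
    intro p
    unfold Strings.wt Strings.ct
    rw [h p.1]
    ring
  rw [right_adp hT hq X H]
  unfold betti
  rw [H.finrank_eq, ← Nat.card_eq_fintype_card]
  exact congrArg Nat.cast (Nat.card_congr (Equiv.subtypeUnivEquiv h1))

theorem betti_pos (X : SmVar.{u} K) (hT : T.IsLocal q) (hq : 1 < q) (hX : ¬ Holds T q X) :
    0 < betti T X := by
  obtain ⟨S⟩ := exists_strings hq (hT.coh X)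
  obtain ⟨i, -⟩ := exists_ne hT hq X S hX
  unfold betti
  rw [(adp_strings S).finrank_eq]
  exact Fintype.card_pos_iff.2 ⟨i⟩

end Pool.Agent.X311.Mw
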