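import Pool.Agent.X311.Mw2

/-!
# Criteria for all varieties of a class
-/

set_option autoImplicit false

open Module Filter Topology TensorProduct

universe u v w

namespace Pool.Agent.X311.Mw

open Pool.Agent.Y143 Pool.Agent.H914 Pool.Agent.Y163.MW

variable {K : Type u} [Field K] {Ω : Type w} [Field Ω] [CharZero Ω] [IsAlgClosed Ω]
  {T : Theory.{u, v, w} K Ω} {q : ℕ}

open Coh

omit [IsAlgClosed Ω] in
theorem betti_prod (hT : T.IsLocal q) (X Y : SmVar.{u} K) :
    betti T (X.prod Y) = betti T X * betti T Y := by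
  obtain ⟨κ, -⟩ := hT.kunneth X Y
  unfold betti
  rw [← κ.finrank_eq, Module.finrank_tensorProduct]

theorem betti_pow_pos (hT : T.IsLocal q) {X : SmVar.{u} K} (hX : 0 < betti T X) (n : ℕ) :
    0 < betti T (pow X n) := by
  induction n with
  | zero => exact hX
  | succ n ih => exact (betti_prod hT X (pow X n)).symm ▸ Nat.mul_pos hX ih

theorem dim_pow (X : SmVar.{u} K) (n : ℕ) : (pow X n).dim = (n + 1) * X.dim := by
  induction n with
  | zero => rw [zero_add, one_mul]; rfl
  | succ n ih =>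
    change X.dim + (pow X n).dim = _
    rw [ih]
    ring

theorem pow_mem {C : Set (SmVar.{u} K)} (hC : ∀ X ∈ C, ∀ Y ∈ C, X.prod Y ∈ C) {X : SmVar.{u} K}
    (hX : X ∈ C) (n : ℕ) : pow X n ∈ C := by
  induction n with
  | zero => exact hX
  | succ n ih => exact hC _ hX _ ih

/-- The conjecture holds for `X` if and only if all the eigenvalues have the right weight. -/
theorem holds_iff (hT : T.IsLocal q) (hq : 1 < q) (X : SmVar.{u} K) :
    Holds T q X ↔ rightNumber T q X = betti T X := by
  refine ⟨right_eq_of_holds hT hq X, fun h => ?_⟩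
  by_contra hX
  obtain ⟨S⟩ := exists_strings hq (hT.coh X)
  have H := adp_strings S
  obtain ⟨i, j, hij⟩ := exists_ne hT hq X S hX
  rw [right_adp hT hq X H] at h
  unfold betti at h
  rw [H.finrank_eq, ← Nat.card_eq_fintype_card] at h
  have h1 : Nat.card {p : S.P // S.wt p - S.ct p = 0} = Nat.card S.P := by exact_mod_cast h
  have h2 : ∀ p : S.P, S.wt p - S.ct p = 0 := by
    intro p
    have h3 : Function.Bijective (Subtype.val : {p : S.P // S.wt p - S.ct p = 0} → S.P) :=
      (Nat.bijective_iff_injective_and_card _).2 ⟨Subtype.val_injective, h1⟩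
    obtain ⟨⟨p', hp'⟩, rfl⟩ := h3.2 p
    exact hp'
  exact hij ((h2 i).trans (h2 j).symm)

/-- The conjecture for products. -/
theorem holds_prod (hT : T.IsLocal q) (hq : 1 < q) (X Y : SmVar.{u} K) (hX : Holds T q X)
    (hY : Holds T q Y) : Holds T q (X.prod Y) := by
  obtain ⟨S⟩ := exists_strings hq (hT.coh X)
  obtain ⟨S'⟩ := exists_strings hq (hT.coh Y)
  obtain ⟨κ, hκ⟩ := hT.kunneth X Y
  have H := (adp_strings S).prod (adp_strings S') (by omega) hκ
  have h := (mw_iff hq (hT.coh X) S).1 hX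
  have h' := (mw_iff hq (hT.coh Y) S').1 hY
  rw [holds_iff hT hq, right_adp hT hq _ H]
  unfold betti
  rw [H.finrank_eq, ← Nat.card_eq_fintype_card]
  refine congrArg Nat.cast (Nat.card_congr (Equiv.subtypeUnivEquiv fun p => ?_))
  unfold Strings.wt Strings.ct
  rw [h p.1.1, h' p.2.1]
  ring

/-- **The criterion for a class of varieties.** -/
theorem class_iff (hT : T.IsLocal q) (hq : 1 < q) (C : Set (SmVar.{u} K))
    (hC : ∀ X ∈ C, ∀ Y ∈ C, X.prod Y ∈ C) (E : SmVar.{u} K) (hE : E ∈ C) (hE1 : E.dim = 1)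
    (hE0 : 0 < betti T E) :
    (∀ X ∈ C, Holds T q X) ↔
      ∃ f : ℕ → ℝ, (∀ B : ℝ, ∃ᶠ d : ℕ in atTop, B < f d * √(d : ℝ)) ∧ RightPart T q C f := by
  constructor
  · intro h
    refine ⟨fun _ => 1, fun B => ?_, fun Z hZ => ?_⟩
    · refine Eventually.frequently ?_
      have h1 : Tendsto (fun d : ℕ => √(d : ℝ)) atTop atTop :=
        Real.tendsto_sqrt_atTop.comp tendsto_natCast_atTop_atTop
      filter_upwards [h1.eventually_gt_atTop B] with d hd
      rwa [one_mul]
    · rw [one_mul, (holds_iff hT hq Z).1 (h Z hZ)]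
      exact le_of_eq (by norm_cast)
  · rintro ⟨f, hf, hfC⟩ X hX
    by_contra hcon
    set e' : ℕ := max X.dim 1 with he'
    have he'1 : 1 ≤ e' := le_max_right _ _
    have he'2 : X.dim ≤ e' := le_max_left _ _
    set b : ℝ := (betti T X : ℝ) with hb
    have hb0 : 0 ≤ b := Nat.cast_nonneg _
    obtain ⟨d, hd, hfd⟩ := (frequently_atTop.1 (hf (√(b * e' / 2)))) (e' + 1)
    -- the exponents
    obtain ⟨n, hn⟩ : ∃ n, (d - 1) / e' = n + 1 :=
      ⟨(d - 1) / e' - 1, by
        have : 1 ≤ (d - 1) / e' := (Nat.one_le_div_iff (by omega)).2 (by omega)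
        omega⟩
    have h1 : (n + 1) * e' ≤ d - 1 := by
      rw [← hn]
      exact Nat.div_mul_le_self _ _
    have h2 : d ≤ (n + 2) * e' := by
      have h3 := Nat.lt_div_mul_add (a := d - 1) (b := e') (by omega)
      rw [hn] at h3
      have h4 : (n + 2) * e' = (n + 1) * e' + e' := by ring
      omega
    have h3 : (n + 1) * X.dim ≤ (n + 1) * e' := Nat.mul_le_mul_left _ he'2
    obtain ⟨j, hj⟩ : ∃ j, d = (j + 1) + (n + 1) * X.dim := ⟨d - (n + 1) * X.dim - 1, by omega⟩
    have hZC : (pow E j).prod (pow X n) ∈ C := hC _ (pow_mem hC hE j) _ (pow_mem hC hX n)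
    have hZd : ((pow E j).prod (pow X n)).dim = d := by
      change (pow E j).dim + (pow X n).dim = d
      rw [dim_pow, dim_pow, hE1, hj]
      ring
    have h4 := hfC _ hZC
    rw [hZd] at h4
    have h5 := h4.trans (right_le hT hq X hcon (pow E j) n)
    have hpos : (0 : ℝ) < betti T ((pow E j).prod (pow X n)) := by
      have h6 : 0 < betti T ((pow E j).prod (pow X n)) := by
        rw [betti_prod hT]
        exact Nat.mul_pos (betti_pow_pos hT hE0 j)
          (betti_pow_pos hT (betti_pos X hT hq hcon) n)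
      exact_mod_cast h6
    have h6 := le_of_mul_le_mul_right h5 hpos
    have hd0 : (0 : ℝ) < d := by
      have : 0 < d := by omega
      exact_mod_cast this
    have h7 : √(b / (2 * ((n : ℝ) + 2))) ≤ √(b * e' / (2 * d)) := by
      apply Real.sqrt_le_sqrt
      rw [div_le_div_iff₀ (by positivity) (by positivity)]
      have h8 : (d : ℝ) ≤ ((n : ℝ) + 2) * e' := by exact_mod_cast h2
      nlinarith
    have h8 : f d * √(d : ℝ) ≤ √(b * e' / (2 * d)) * √(d : ℝ) :=
      mul_le_mul_of_nonneg_right (h6.trans h7) (Real.sqrt_nonneg _)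
    rw [← Real.sqrt_mul (by positivity), show b * e' / (2 * d) * d = b * e' / 2 by field_simp] at h8
    exact absurd hfd (not_lt.2 h8)

end Pool.Agent.X311.Mw
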