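import Pool.Agent.Y163.MW.Defs
import Pool.Agent.Y143.Mon

/-!
# The number of Frobenius eigenvalues of the right weight: definitions
-/

set_option autoImplicit false

open Module

universe u v w

namespace Pool.Agent.X311.Mw

open Pool.Agent.Y143 Pool.Agent.H914 Pool.Agent.Y163.MW

variable {K : Type u} [Field K] {Ω : Type w} [Field Ω] [CharZero Ω]

/-- The monodromy-weight conjecture for `X`: for all `m` and `s` the eigenvalues of the Frobenius on the
graded piece `M_s / M_(s - 1)` of the monodromy filtration of `H^m(X)` are `q`-Weil numbers of weight
`m + s`. -/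
def Holds (T : Theory.{u, v, w} K Ω) (q : ℕ) (X : SmVar.{u} K) : Prop :=
  ∀ m, (T.H X).MWPure q m

/-- The total Betti number of `X`. -/
noncomputable def betti (T : Theory.{u, v, w} K Ω) (X : SmVar.{u} K) : ℕ := finrank Ω (T.H X).V

/-- The number of the Frobenius eigenvalues, with multiplicities, on the graded pieces of the
monodromy filtration of the cohomology of `X` in all degrees, which have the weight predicted by the
monodromy-weight conjecture: `monFil N` is the monodromy filtration of the nilpotent operator `N` on
`⨁ H^m(X)`, and the eigenvalue on `M_s / M_(s - 1)` coming from `H^m` should have weight `m + s`. -/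
noncomputable def rightNumber (T : Theory.{u, v, w} K Ω) (q : ℕ) (X : SmVar.{u} K) : ℤ :=
  (T.H X).right q (monFil (T.H X).N)

/-- For the varieties `Z` in the class `C` at least the part `f (dim Z)` of the Frobenius eigenvalues
have the right weight. -/
def RightPart (T : Theory.{u, v, w} K Ω) (q : ℕ) (C : Set (SmVar.{u} K)) (f : ℕ → ℝ) : Prop :=
  ∀ Z ∈ C, f Z.dim * betti T Z ≤ rightNumber T q Z

end Pool.Agent.X311.Mw
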