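import Pool.Agent.X311.RbDefs

/-!
# Integrality
-/

set_option autoImplicit false

namespace Pool.Agent.X311.Rb

open Polynomial Finset

variable {n : ℕ} {c₁ c₂ : ℤ}

theorem cast_powerSum {R : Type} [CommRing R] {x y : R} (h1 : x + y = (c₁ : R))
    (h2 : x * y = (c₂ : R)) : ∀ k, ((powerSum c₁ c₂ k : ℤ) : R) = x ^ k + y ^ k
  | 0 => by
    rw [powerSum, pow_zero, pow_zero]
    push_cast
    norm_num
  | 1 => by
    rw [powerSum, pow_one, pow_one, h1]
  | k + 2 => by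
    have e1 := cast_powerSum h1 h2 (k + 1)
    have e2 := cast_powerSum h1 h2 k
    rw [powerSum]
    push_cast
    rw [e1, e2, ← h1, ← h2]
    ring

/-- The values of polynomials at the Chern roots. -/
theorem functional {R : Type} [CommRing R] {x y : R} (h1 : x + y = (c₁ : R))
    (h2 : x * y = (c₂ : R)) {r s : ℕ} {a : Fin r → ℤ} {b : Fin s → ℤ}
    (h : ∀ k ≤ n, ∑ i, a i ^ k - ∑ j, b j ^ k = powerSum c₁ c₂ k) (g : ℤ[X])
    (hg : g.natDegree ≤ n) :
    (((∑ i, g.eval (a i) - ∑ j, g.eval (b j) : ℤ)) : R) = aeval x g + aeval y g := by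
  have e1 : ∀ z : ℤ, g.eval z = ∑ k ∈ range (n + 1), g.coeff k * z ^ k := fun z =>
    eval_eq_sum_range' (Nat.lt_succ_of_le hg) z
  have e2 : ∀ z : R, aeval z g = ∑ k ∈ range (n + 1), (g.coeff k : R) * z ^ k := fun z => by
    rw [aeval_def, eval₂_eq_sum_range' _ (Nat.lt_succ_of_le hg)]
    rfl
  have e3 : ∑ i, g.eval (a i) - ∑ j, g.eval (b j) =
      ∑ k ∈ range (n + 1), g.coeff k * powerSum c₁ c₂ k := by
    simp only [e1]
    rw [sum_comm, sum_comm (s := (univ : Finset (Fin s))), ← sum_sub_distrib]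
    refine sum_congr rfl fun k hk => ?_
    rw [← h k (Nat.lt_succ_iff.1 (mem_range.1 hk)), mul_sub, mul_sum, mul_sum]
  rw [e3, e2, e2, ← sum_add_distrib]
  push_cast
  refine sum_congr rfl fun k _ => ?_
  rw [cast_powerSum h1 h2]
  ring

/-- The product of `m` consecutive linear factors. -/
noncomputable def G (m : ℕ) (k : ℤ) : ℤ[X] := ∏ i ∈ range m, (X - C (k + (i : ℤ)))

theorem natDegree_G (m : ℕ) (k : ℤ) : (G m k).natDegree = m := by
  unfold G
  rw [natDegree_prod_of_monic _ _ fun i _ => monic_X_sub_C _]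
  simp only [natDegree_X_sub_C, sum_const, card_range, smul_eq_mul, mul_one]

theorem eval_G (m : ℕ) (k z : ℤ) : (G m k).eval z = ∏ i ∈ range m, (z - (k + i)) := by
  unfold G
  rw [eval_prod]
  refine prod_congr rfl fun i _ => ?_
  rw [eval_sub, eval_X, eval_C]

theorem dvd_eval_G (m : ℕ) (k z : ℤ) : (m.factorial : ℤ) ∣ (G m k).eval z := by
  have h1 : (G m k).eval z = (-1) ^ m * ∏ i ∈ range m, ((k - z) + i) := by
    rw [eval_G, ← card_range m, ← prod_const, card_range, ← prod_mul_distrib]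
    refine prod_congr rfl fun i _ => ?_
    ring
  rw [h1]
  exact Dvd.dvd.mul_left (Nat.factorial_coe_dvd_prod m (k - z)) _

theorem aeval_G {R : Type} [CommRing R] (m : ℕ) (k : ℤ) (z : R) :
    aeval z (G m k) = ∏ i ∈ range m, (z - ((k : R) + (i : R))) := by
  unfold G
  rw [map_prod]
  refine prod_congr rfl fun i _ => ?_
  rw [map_sub, aeval_X, aeval_C]
  simp

/-- **The divisibility.** -/
theorem key (h : IsChernData n c₁ c₂) {m : ℕ} (hm : m + 1 ≤ n) (k : ℤ) :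
    ∃ s t : ℤ, (m.factorial : ℤ) ^ 2 * (t ^ 2 - c₁ * t * s + c₂ * s ^ 2) =
      -disc c₁ c₂ * ∏ i ∈ range m, ((k + i) ^ 2 - c₁ * (k + i) + c₂) := by
  obtain ⟨r, r', a, b, hab⟩ := h
  obtain ⟨w, hw⟩ := IsAlgClosed.exists_pow_nat_eq ((disc c₁ c₂ : ℤ) : ℂ) (n := 2) (by norm_num)
  have hw' : w ^ 2 = (c₁ : ℂ) ^ 2 - 4 * (c₂ : ℂ) := by
    rw [hw]
    unfold disc
    push_cast
    ring
  set x : ℂ := ((c₁ : ℂ) + w) / 2 with hx
  set y : ℂ := ((c₁ : ℂ) - w) / 2 with hy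
  have h1 : x + y = (c₁ : ℂ) := by rw [hx, hy]; ring
  have h2 : x * y = (c₂ : ℂ) := by
    rw [hx, hy]
    have : ((c₁ : ℂ) + w) / 2 * (((c₁ : ℂ) - w) / 2) = ((c₁ : ℂ) ^ 2 - w ^ 2) / 4 := by ring
    rw [this, hw']
    ring
  have hS := functional h1 h2 hab (G m k) (by rw [natDegree_G]; omega)
  have hT := functional h1 h2 hab (X * G m k)
    ((natDegree_mul_le).trans (by rw [natDegree_G, natDegree_X]; omega))
  obtain ⟨s, hs⟩ : (m.factorial : ℤ) ∣ ∑ i, (G m k).eval (a i) - ∑ j, (G m k).eval (b j) :=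
    Int.dvd_sub (dvd_sum fun i _ => dvd_eval_G m k _) (dvd_sum fun j _ => dvd_eval_G m k _)
  obtain ⟨t, ht⟩ : (m.factorial : ℤ) ∣ ∑ i, (X * G m k).eval (a i) - ∑ j, (X * G m k).eval (b j) := by
    refine Int.dvd_sub (dvd_sum fun i _ => ?_) (dvd_sum fun j _ => ?_)
    · rw [eval_mul]
      exact Dvd.dvd.mul_left (dvd_eval_G m k _) _
    · rw [eval_mul]
      exact Dvd.dvd.mul_left (dvd_eval_G m k _) _
  refine ⟨s, t, ?_⟩
  rw [hs] at hS
  rw [ht] at hT
  have hq : ∏ i ∈ range m, (((k : ℂ) + (i : ℂ)) ^ 2 - (c₁ : ℂ) * (k + i) + c₂) =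
      aeval x (G m k) * aeval y (G m k) := by
    rw [aeval_G, aeval_G, ← prod_mul_distrib]
    refine prod_congr rfl fun i _ => ?_
    rw [← h1, ← h2]
    ring
  have hd : ((disc c₁ c₂ : ℤ) : ℂ) = (x - y) ^ 2 := by
    rw [← hw, hx, hy]
    ring
  have hmain : (((m.factorial : ℤ) ^ 2 * (t ^ 2 - c₁ * t * s + c₂ * s ^ 2) : ℤ) : ℂ) =
      ((-disc c₁ c₂ * ∏ i ∈ range m, ((k + i) ^ 2 - c₁ * (k + i) + c₂) : ℤ) : ℂ) := by
    push_cast
    push_cast at hS hT
    rw [hq, hd]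
    rw [map_mul, map_mul, aeval_X, aeval_X] at hT
    have e1 : (m.factorial : ℂ) ^ 2 * ((t : ℂ) ^ 2 - c₁ * t * s + c₂ * s ^ 2) =
        ((m.factorial : ℂ) * t) ^ 2 - c₁ * ((m.factorial : ℂ) * t) * ((m.factorial : ℂ) * s) +
          c₂ * ((m.factorial : ℂ) * s) ^ 2 := by ring
    rw [e1, hS, hT, ← h1, ← h2]
    ring
  exact_mod_cast hmain

/-- The power sums modulo primes. -/
theorem powerSum_modEq (h : IsChernData n c₁ c₂) {p : ℕ} [Fact p.Prime] (hp : p + 1 ≤ n) :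
    ((powerSum c₁ c₂ (p + 1) : ℤ) : ZMod p) = ((powerSum c₁ c₂ 2 : ℤ) : ZMod p) := by
  obtain ⟨r, s, a, b, hab⟩ := h
  have hp2 := (Fact.out : p.Prime).two_le
  rw [← hab (p + 1) hp, ← hab 2 (by omega)]
  push_cast
  congr 1
  · refine sum_congr rfl fun i _ => ?_
    rw [pow_succ, ZMod.pow_card, pow_two]
  · refine sum_congr rfl fun i _ => ?_
    rw [pow_succ, ZMod.pow_card, pow_two]

theorem eq_mul_self_zmod_two : ∀ z : ZMod 2, z = z * z := by decide

/-- **Quadratic residues.** -/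
theorem isSquare_disc (h : IsChernData n c₁ c₂) {p : ℕ} [Fact p.Prime] (hp : p + 1 ≤ n) :
    IsSquare ((disc c₁ c₂ : ℤ) : ZMod p) := by
  by_cases hp2 : p = 2
  · subst hp2
    exact ⟨_, eq_mul_self_zmod_two _⟩
  by_contra hns
  set Δ : ZMod p := ((disc c₁ c₂ : ℤ) : ZMod p) with hΔ
  have hΔ0 : Δ ≠ 0 := fun h0 => hns (by rw [h0]; exact ⟨0, by ring⟩)
  have hodd : p % 2 = 1 := Nat.Prime.mod_two_eq_one_iff_ne_two (Fact.out : p.Prime) |>.2 hp2
  have hneg : Δ ^ (p / 2) = -1 := by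
    rcases ZMod.pow_div_two_eq_neg_one_or_one p hΔ0 with h1 | h1
    · exact absurd ((ZMod.euler_criterion p hΔ0).2 h1) hns
    · exact h1
  let K := AlgebraicClosure (ZMod p)
  have : CharP K p := charP_of_injective_algebraMap (algebraMap (ZMod p) K).injective p
  obtain ⟨δ, hδ⟩ := IsAlgClosed.exists_pow_nat_eq (algebraMap (ZMod p) K Δ) (n := 2) (by norm_num)
  have h20 : (2 : K) ≠ 0 := by
    intro h0
    have h3 : ((2 : ℕ) : K) = 0 := by exact_mod_cast h0
    rw [CharP.cast_eq_zero_iff K p] at h3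
    exact hp2 ((Nat.prime_dvd_prime_iff_eq (Fact.out : p.Prime) Nat.prime_two).1 h3)
  have hδp : δ ^ p = -δ := by
    have h4 : p = 2 * (p / 2) + 1 := by omega
    have h5 : δ ^ p = δ ^ (2 * (p / 2) + 1) := congrArg (fun j : ℕ => δ ^ j) h4
    rw [h5, pow_succ, pow_mul, hδ, ← map_pow, hneg, map_neg, map_one]
    ring
  have hΔc : algebraMap (ZMod p) K Δ = (c₁ : K) ^ 2 - 4 * (c₂ : K) := by
    rw [hΔ, map_intCast]
    unfold disc
    push_cast
    ring
  set x : K := ((c₁ : K) + δ) / 2 with hx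
  set y : K := ((c₁ : K) - δ) / 2 with hy
  have e1 : x + y = (c₁ : K) := by
    rw [hx, hy, ← add_div, div_eq_iff h20]
    ring
  have e2 : x * y = (c₂ : K) := by
    rw [hx, hy]
    have h5 : ((c₁ : K) + δ) / 2 * (((c₁ : K) - δ) / 2) = ((c₁ : K) ^ 2 - δ ^ 2) / (2 * 2) := by
      rw [div_mul_div_comm]
      congr 1
      ring
    rw [h5, hδ, hΔc, div_eq_iff (mul_ne_zero h20 h20)]
    ring
  have hc : ((c₁ : ℤ) : K) ^ p = (c₁ : K) := by
    have h6 : algebraMap (ZMod p) K ((c₁ : ZMod p) ^ p) = algebraMap (ZMod p) K (c₁ : ZMod p) := by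
      rw [ZMod.pow_card]
    rwa [map_pow, map_intCast] at h6
  have h2p : (2 : K) ^ p = 2 := by
    have h6 : algebraMap (ZMod p) K (((2 : ℤ) : ZMod p) ^ p) =
        algebraMap (ZMod p) K ((2 : ℤ) : ZMod p) := by
      rw [ZMod.pow_card]
    rw [map_pow, map_intCast] at h6
    exact_mod_cast h6
  have hxp : x ^ p = y := by
    rw [hx, div_pow, add_pow_char, hc, hδp, h2p, hy]
    ring
  have hyp : y ^ p = x := by
    rw [hy, div_pow, sub_pow_char, hc, hδp, h2p, hx]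
    ring
  have h7 := congrArg (algebraMap (ZMod p) K) (powerSum_modEq h hp)
  rw [map_intCast, map_intCast, cast_powerSum e1 e2, cast_powerSum e1 e2, pow_succ, pow_succ, hxp,
    hyp] at h7
  have h8 : δ ^ 2 = 0 := by
    have h9 : δ = x - y := by
      rw [hx, hy, ← sub_div, eq_div_iff h20]
      ring
    rw [h9]
    linear_combination h7 * (-1)
  rw [hδ, map_eq_zero] at h8
  exact hΔ0 h8

end Pool.Agent.X311.Rb
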