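import Pool.Agent.X311.Rb1

/-!
# The bound
-/

set_option autoImplicit false

namespace Pool.Agent.X311.Rb

open Finset

variable {n : ℕ} {c₁ c₂ : ℤ}

/-- The best window. -/
theorem window (c Δ : ℤ) : ∀ m : ℕ, ∃ k : ℤ, 2 * (k - 1) - c ≤ 0 ∧ 0 ≤ 2 * (k + m) - c ∧
    ∏ i ∈ range m, |(2 * (k + i) - c) ^ 2 - Δ| ≤ ∏ r ∈ range m, (((r : ℤ) + 1) ^ 2 + |Δ|)
  | 0 => by
    refine ⟨(c + 1) / 2, by omega, ?_, by simp⟩
    push_cast
    omega
  | m + 1 => by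
    obtain ⟨k, h1, h2, h3⟩ := window c Δ m
    have hnn : 0 ≤ ∏ i ∈ range m, |(2 * (k + i) - c) ^ 2 - Δ| :=
      prod_nonneg fun i _ => abs_nonneg _
    have hb : ∀ u : ℤ, |u| ≤ m + 1 → |u ^ 2 - Δ| ≤ ((m : ℤ) + 1) ^ 2 + |Δ| := by
      intro u hu
      have e1 : |u ^ 2 - Δ| ≤ |u ^ 2| + |Δ| := abs_sub _ _
      have e2 : |u ^ 2| ≤ ((m : ℤ) + 1) ^ 2 := by
        rw [abs_pow]
        exact pow_le_pow_left₀ (abs_nonneg _) hu 2
      linarith
    by_cases hc : 2 * (k + m) - c ≤ m + 1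
    · refine ⟨k, h1, by push_cast; linarith, ?_⟩
      rw [prod_range_succ, prod_range_succ]
      refine mul_le_mul h3 (hb _ ?_) (abs_nonneg _) (hnn.trans h3)
      rw [abs_of_nonneg h2]
      exact hc
    · refine ⟨k - 1, by linarith, by push_cast; linarith, ?_⟩
      rw [prod_range_succ', prod_range_succ]
      have e1 : ∀ i : ℕ, k - 1 + ((i + 1 : ℕ) : ℤ) = k + i := by
        intro i
        push_cast
        ring
      simp only [e1]
      refine mul_le_mul h3 (hb _ ?_) (abs_nonneg _) (hnn.trans h3)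
      push_cast
      rw [add_zero, abs_of_nonpos h1]
      linarith

theorem four_mul (k : ℤ) : 4 * (k ^ 2 - c₁ * k + c₂) = (2 * k - c₁) ^ 2 - disc c₁ c₂ := by
  unfold disc
  ring

/-- **The first inequality.** -/
theorem first_le (h : IsChernData n c₁ c₂) (hs : ¬ IsSquare (disc c₁ c₂)) {m : ℕ}
    (hm : m + 1 ≤ n) : (4 : ℤ) ^ m * (m.factorial : ℤ) ^ 2 ≤
      |disc c₁ c₂| * ∏ r ∈ range m, (((r : ℤ) + 1) ^ 2 + |disc c₁ c₂|) := by
  obtain ⟨k, -, -, hk⟩ := window c₁ (disc c₁ c₂) m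
  obtain ⟨s, t, hst⟩ := key h hm k
  set Δ := disc c₁ c₂ with hΔ
  have hΔ0 : Δ ≠ 0 := fun h0 => hs (by rw [h0]; exact ⟨0, by ring⟩)
  have e1 : (4 : ℤ) ^ m * ∏ i ∈ range m, ((k + i) ^ 2 - c₁ * (k + i) + c₂) =
      ∏ i ∈ range m, ((2 * (k + i) - c₁) ^ 2 - Δ) := by
    rw [← card_range m, ← prod_const, card_range, ← prod_mul_distrib]
    exact prod_congr rfl fun i _ => four_mul _
  set N : ℤ := t ^ 2 - c₁ * t * s + c₂ * s ^ 2 with hN
  have e2 : (4 : ℤ) ^ m * (m.factorial : ℤ) ^ 2 * N =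
      -Δ * ∏ i ∈ range m, ((2 * (k + i) - c₁) ^ 2 - Δ) := by
    rw [← e1, mul_assoc, hst]
    ring
  have hprod : ∏ i ∈ range m, ((2 * (k + i) - c₁) ^ 2 - Δ) ≠ 0 := by
    rw [prod_ne_zero_iff]
    intro i _ h0
    refine hs ⟨2 * (k + i) - c₁, ?_⟩
    linear_combination -h0
  have hN0 : N ≠ 0 := by
    intro h0
    rw [h0, mul_zero] at e2
    exact (mul_ne_zero (neg_ne_zero.2 hΔ0) hprod) e2.symm
  have hN1 : 1 ≤ |N| := Int.one_le_abs hN0
  have e3 := congrArg abs e2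
  rw [abs_mul, abs_mul, abs_mul, abs_neg, abs_prod, abs_pow, abs_pow, Nat.abs_cast] at e3
  have h4 : |(4 : ℤ)| = 4 := abs_of_pos (by norm_num)
  rw [h4] at e3
  calc (4 : ℤ) ^ m * (m.factorial : ℤ) ^ 2 ≤ (4 : ℤ) ^ m * (m.factorial : ℤ) ^ 2 * |N| :=
        le_mul_of_one_le_right (by positivity) hN1
    _ = |Δ| * ∏ i ∈ range m, |(2 * (k + i) - c₁) ^ 2 - Δ| := e3
    _ ≤ _ := mul_le_mul_of_nonneg_left hk (abs_nonneg _)

/-- The second inequality. -/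
theorem second_le (h : IsChernData n c₁ c₂) (hs : ¬ IsSquare (disc c₁ c₂)) {m : ℕ}
    (hm : m + 1 ≤ n) {D : ℝ} (hD : D = |(disc c₁ c₂ : ℝ)|) :
    (4 : ℝ) ^ m ≤ D * ∏ r ∈ range m, (1 + D / ((r : ℝ) + 1) ^ 2) := by
  have h1 := first_le h hs hm
  have h2 : ((4 : ℝ)) ^ m * (m.factorial : ℝ) ^ 2 ≤
      D * ∏ r ∈ range m, (((r : ℝ) + 1) ^ 2 + D) := by
    rw [hD]
    exact_mod_cast h1
  have h3 : ∏ r ∈ range m, (((r : ℝ) + 1) ^ 2 + D) =
      (m.factorial : ℝ) ^ 2 * ∏ r ∈ range m, (1 + D / ((r : ℝ) + 1) ^ 2) := by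
    rw [← prod_range_add_one_eq_factorial]
    push_cast
    rw [← prod_pow, ← prod_mul_distrib]
    refine prod_congr rfl fun r _ => ?_
    have : ((r : ℝ) + 1) ^ 2 ≠ 0 := by positivity
    field_simp
  rw [h3] at h2
  have h4 : 0 < (m.factorial : ℝ) ^ 2 := by
    have := Nat.factorial_pos m
    positivity
  have h5 : (m.factorial : ℝ) ^ 2 * (4 : ℝ) ^ m ≤
      (m.factorial : ℝ) ^ 2 * (D * ∏ r ∈ range m, (1 + D / ((r : ℝ) + 1) ^ 2)) := by
    linarith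
  exact le_of_mul_le_mul_left h5 h4

/-- The product of Euler. -/
theorem euler (d : ℝ) (hd : 0 ≤ d) (m : ℕ) :
    Real.pi * d * ∏ r ∈ range m, (1 + d ^ 2 / ((r : ℝ) + 1) ^ 2) ≤ Real.sinh (Real.pi * d) := by
  have h1 := Complex.tendsto_euler_sin_prod ((d : ℂ) * Complex.I)
  have h2 := (Complex.continuous_im.tendsto _).comp h1
  have h3 : (Complex.sin (Real.pi * ((d : ℂ) * Complex.I))).im = Real.sinh (Real.pi * d) := by
    rw [← mul_assoc, Complex.sin_mul_I, ← Complex.ofReal_mul, ← Complex.ofReal_sinh,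
      Complex.im_ofReal_mul, Complex.I_im, mul_one]
  rw [h3] at h2
  have h4 : (Complex.im ∘ fun n : ℕ => (Real.pi : ℂ) * ((d : ℂ) * Complex.I) *
      ∏ j ∈ range n, (1 - ((d : ℂ) * Complex.I) ^ 2 / ((j : ℂ) + 1) ^ 2)) =
      fun n : ℕ => Real.pi * d * ∏ r ∈ range n, (1 + d ^ 2 / ((r : ℝ) + 1) ^ 2) := by
    funext n
    have e1 : (Real.pi : ℂ) * ((d : ℂ) * Complex.I) *
        ∏ j ∈ range n, (1 - ((d : ℂ) * Complex.I) ^ 2 / ((j : ℂ) + 1) ^ 2) =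
        ((Real.pi * d * ∏ r ∈ range n, (1 + d ^ 2 / ((r : ℝ) + 1) ^ 2) : ℝ) : ℂ) * Complex.I := by
      push_cast
      have e2 : ∀ j : ℕ, (1 - ((d : ℂ) * Complex.I) ^ 2 / ((j : ℂ) + 1) ^ 2) =
          (1 + (d : ℂ) ^ 2 / ((j : ℂ) + 1) ^ 2) := by
        intro j
        rw [mul_pow, Complex.I_sq]
        ring
      simp only [e2]
      ring
    show ((Real.pi : ℂ) * ((d : ℂ) * Complex.I) *
        ∏ j ∈ range n, (1 - ((d : ℂ) * Complex.I) ^ 2 / ((j : ℂ) + 1) ^ 2)).im = _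
    rw [e1, Complex.im_ofReal_mul, Complex.I_im, mul_one]
  rw [h4] at h2
  have hmono : Monotone fun n : ℕ =>
      Real.pi * d * ∏ r ∈ range n, (1 + d ^ 2 / ((r : ℝ) + 1) ^ 2) := by
    refine monotone_nat_of_le_succ fun n => ?_
    rw [prod_range_succ]
    refine mul_le_mul_of_nonneg_left ?_ (mul_nonneg Real.pi_pos.le hd)
    refine le_mul_of_one_le_right (prod_nonneg fun i _ => by positivity) ?_
    have : 0 ≤ d ^ 2 / ((n : ℝ) + 1) ^ 2 := by positivity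
    linarith
  exact hmono.ge_of_tendsto h2 m

/-- **The third inequality.** -/
theorem third_le (h : IsChernData n c₁ c₂) (hs : ¬ IsSquare (disc c₁ c₂)) {m : ℕ}
    (hm : m + 1 ≤ n) : Real.pi * (4 : ℝ) ^ m ≤
      √|(disc c₁ c₂ : ℝ)| * Real.sinh (Real.pi * √|(disc c₁ c₂ : ℝ)|) := by
  set d := √|(disc c₁ c₂ : ℝ)| with hd
  have hd0 : 0 ≤ d := Real.sqrt_nonneg _
  have hd2 : d ^ 2 = |(disc c₁ c₂ : ℝ)| := Real.sq_sqrt (abs_nonneg _)
  have h1 := second_le h hs hm hd2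
  have h2 := mul_le_mul_of_nonneg_left (euler d hd0 m) hd0
  have h3 := mul_le_mul_of_nonneg_left h1 Real.pi_pos.le
  refine h3.trans (le_trans (le_of_eq ?_) h2)
  ring

/-- **The bound.** -/
theorem bound (h : IsChernData n c₁ c₂) (hs : ¬ IsSquare (disc c₁ c₂)) {m : ℕ}
    (hm : m + 1 ≤ n) : 3 * (m : ℤ) ^ 2 < 16 * |disc c₁ c₂| := by
  by_contra hcon
  rw [not_lt] at hcon
  have hΔ0 : disc c₁ c₂ ≠ 0 := fun h0 => hs (by rw [h0]; exact ⟨0, by ring⟩)
  have hcon' : 16 * |(disc c₁ c₂ : ℝ)| ≤ 3 * (m : ℝ) ^ 2 := by exact_mod_cast hcon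
  have h1 := third_le h hs hm
  set d := √|(disc c₁ c₂ : ℝ)| with hd
  have hd2 : d ^ 2 = |(disc c₁ c₂ : ℝ)| := Real.sq_sqrt (abs_nonneg _)
  have hd0 : 0 < d := Real.sqrt_pos.2 (abs_pos.2 (by exact_mod_cast hΔ0))
  rw [← hd2] at hcon'
  have hmd : 2.3094 * d ≤ m := by
    refine le_of_sq_le_sq ?_ (by positivity)
    nlinarith [sq_nonneg d]
  have h4 : (4 : ℝ) ^ m = Real.exp (2 * Real.log 2 * m) := by
    have e1 : Real.exp (2 * Real.log 2) = 4 := by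
      rw [two_mul, Real.exp_add, Real.exp_log (by norm_num)]
      norm_num
    rw [mul_comm _ (m : ℝ), Real.exp_nat_mul, e1]
  have h5 : 3.2015 * d ≤ 2 * Real.log 2 * m := by
    have hl := Real.log_two_gt_d9
    nlinarith
  have h6 : Real.exp (3.2015 * d) ≤ (4 : ℝ) ^ m := by
    rw [h4]
    exact Real.exp_le_exp.2 h5
  have h7 : Real.sinh (Real.pi * d) ≤ Real.exp (3.1416 * d) / 2 := by
    rw [Real.sinh_eq]
    have e1 : Real.exp (Real.pi * d) ≤ Real.exp (3.1416 * d) :=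
      Real.exp_le_exp.2 (mul_le_mul_of_nonneg_right Real.pi_lt_d4.le hd0.le)
    have e2 := Real.exp_pos (-(Real.pi * d))
    linarith
  have h8 : Real.pi * Real.exp (3.2015 * d) ≤ d * (Real.exp (3.1416 * d) / 2) :=
    (mul_le_mul_of_nonneg_left h6 Real.pi_pos.le).trans
      (h1.trans (mul_le_mul_of_nonneg_left h7 hd0.le))
  have h9 : Real.exp (3.2015 * d) = Real.exp (0.0599 * d) * Real.exp (3.1416 * d) := by
    rw [← Real.exp_add]
    congr 1
    ring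
  rw [h9] at h8
  have h10 : 2 * Real.pi * Real.exp (0.0599 * d) ≤ d := by
    have hp := Real.exp_pos (3.1416 * d)
    have e1 : (2 * Real.pi * Real.exp (0.0599 * d)) * Real.exp (3.1416 * d) ≤
        d * Real.exp (3.1416 * d) := by
      linarith
    exact le_of_mul_le_mul_right e1 hp
  have h11 : Real.exp 1 * (0.0599 * d) ≤ Real.exp (0.0599 * d) := by
    have e1 : Real.exp (0.0599 * d) = Real.exp 1 * Real.exp (0.0599 * d - 1) := by
      rw [← Real.exp_add]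
      congr 1
      ring
    rw [e1]
    refine mul_le_mul_of_nonneg_left ?_ (Real.exp_pos _).le
    have := Real.add_one_le_exp (0.0599 * d - 1)
    linarith
  have h12 := Real.exp_one_gt_d9
  have h13 := Real.pi_gt_d2
  have h14 : (2.718 : ℝ) * (0.0599 * d) ≤ Real.exp (0.0599 * d) := by
    refine le_trans ?_ h11
    refine mul_le_mul_of_nonneg_right (by linarith) (by positivity)
  have h15 : (2 * 3.14 : ℝ) * (2.718 * (0.0599 * d)) ≤ 2 * Real.pi * Real.exp (0.0599 * d) := by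
    refine mul_le_mul (by linarith) h14 (by positivity) (by positivity)
  nlinarith

/-- Split Chern classes. -/
theorem split_of_isSquare (h : IsSquare (disc c₁ c₂)) : ∃ a b : ℤ, c₁ = a + b ∧ c₂ = a * b := by
  obtain ⟨w, hw⟩ := h
  unfold disc at hw
  have h1 : (c₁ + w) % 2 = 0 := by
    have h2 : (c₁ ^ 2 - w * w) % 2 = 0 := by
      have : c₁ ^ 2 - w * w = 2 * (2 * c₂) := by linarith
      rw [this]
      omega
    have h3 : (c₁ ^ 2 - w * w) = (c₁ + w) * (c₁ - w) := by ring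
    rw [h3] at h2
    rcases Int.emod_two_eq_zero_or_one (c₁ + w) with h4 | h4
    · exact h4
    · have h5 : (c₁ - w) % 2 = 1 := by omega
      rw [Int.mul_emod, h4, h5] at h2
      norm_num at h2
  obtain ⟨a, ha⟩ : ∃ a, c₁ + w = 2 * a := ⟨(c₁ + w) / 2, by omega⟩
  refine ⟨a, c₁ - a, by ring, ?_⟩
  have h2 : w = 2 * a - c₁ := by linarith
  rw [h2] at hw
  linarith [hw, show (2 * a - c₁) * (2 * a - c₁) = 4 * a ^ 2 - 4 * a * c₁ + c₁ ^ 2 by ring,
    show a * (c₁ - a) = a * c₁ - a ^ 2 by ring]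

end Pool.Agent.X311.Rb
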