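import Pool.Agent.X311.Rb2

/-!
# Small primes
-/

set_option autoImplicit false

namespace Pool.Agent.X311.Rb

open Finset

variable {n : ℕ} {c₁ c₂ : ℤ}

theorem root_two : ∀ a b : ZMod 2, a * (a * a - b * 2) - b * a = a * a - b * 2 →
    ∃ z : ZMod 2, z ^ 2 - a * z + b = 0 := by decide

/-- **The Chern roots are rational modulo small primes.** -/
theorem exists_root (h : IsChernData n c₁ c₂) {p : ℕ} (hp' : p.Prime) (hp : p + 1 ≤ n) :
    ∃ z : ZMod p, z ^ 2 - (c₁ : ZMod p) * z + (c₂ : ZMod p) = 0 := by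
  have := Fact.mk hp'
  by_cases hp2 : p = 2
  · subst hp2
    have h1 := powerSum_modEq h hp
    refine root_two _ _ ?_
    simp only [powerSum] at h1
    push_cast at h1
    exact h1
  · obtain ⟨w, hw⟩ := isSquare_disc h hp
    have h20 : (2 : ZMod p) ≠ 0 := by
      intro h0
      have h3 : ((2 : ℕ) : ZMod p) = 0 := by exact_mod_cast h0
      rw [ZMod.natCast_eq_zero_iff] at h3
      exact hp2 ((Nat.prime_dvd_prime_iff_eq hp' Nat.prime_two).1 h3)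
    refine ⟨((c₁ : ZMod p) + w) / 2, ?_⟩
    have hw' : (c₁ : ZMod p) ^ 2 - 4 * (c₂ : ZMod p) = w * w := by
      rw [← hw]
      unfold disc
      push_cast
      ring
    have h4 : (2 : ZMod p) * 2 * ((((c₁ : ZMod p) + w) / 2) ^ 2 -
        (c₁ : ZMod p) * (((c₁ : ZMod p) + w) / 2) + (c₂ : ZMod p)) = 0 := by
      set z := ((c₁ : ZMod p) + w) / 2 with hz
      have h5 : 2 * z = (c₁ : ZMod p) + w := by
        rw [hz, mul_div_cancel₀ _ h20]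
      have h6 : (2 : ZMod p) * 2 * (z ^ 2 - (c₁ : ZMod p) * z + (c₂ : ZMod p)) =
          (2 * z) ^ 2 - 2 * (c₁ : ZMod p) * (2 * z) + 4 * (c₂ : ZMod p) := by ring
      rw [h6, h5]
      linear_combination -hw'
    rcases mul_eq_zero.1 h4 with h5 | h5
    · rcases mul_eq_zero.1 h5 with h6 | h6 <;> exact absurd h6 h20
    · exact h5

theorem not_dvd_block {p : ℕ} (hp : p.Prime) (hp2 : p ≠ 2) {Δ : ℤ} (h1 : (p : ℤ) ∣ Δ)
    (h2 : ¬ (p : ℤ) ^ 2 ∣ Δ) (k c : ℤ) :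
    ¬ (p : ℤ) ^ 2 ∣ ∏ i ∈ range p, ((2 * (k + i) - c) ^ 2 - Δ) := by
  have hpz : Prime (p : ℤ) := Nat.prime_iff_prime_int.1 hp
  have hodd : p % 2 = 1 := (Nat.Prime.mod_two_eq_one_iff_ne_two hp).2 hp2
  obtain ⟨q, hq⟩ : ∃ q : ℕ, p = 2 * q + 1 := ⟨p / 2, by omega⟩
  have hp0 : (p : ℤ) ≠ 0 := hpz.ne_zero
  have hppos : (0 : ℤ) < p := by exact_mod_cast hp.pos
  -- the index divisible by `p`
  obtain ⟨i₀, hi₀, hdv⟩ : ∃ i₀ ∈ range p, (p : ℤ) ∣ 2 * (k + i₀) - c := by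
    have e1 := Int.emod_nonneg ((c - 2 * k) * (q + 1)) hp0
    have e2 := Int.emod_lt_of_pos ((c - 2 * k) * (q + 1)) hppos
    refine ⟨(((c - 2 * k) * (q + 1)) % (p : ℤ)).toNat, mem_range.2 (by omega), ?_⟩
    rw [Int.toNat_of_nonneg e1]
    have e3 := Int.emod_add_mul_ediv ((c - 2 * k) * (q + 1)) (p : ℤ)
    refine ⟨(c - 2 * k) - 2 * ((c - 2 * k) * (q + 1) / (p : ℤ)), ?_⟩
    have e4 : (p : ℤ) = 2 * q + 1 := by exact_mod_cast hq
    have e5 : ((c - 2 * k) * (q + 1)) % (p : ℤ) =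
        (c - 2 * k) * (q + 1) - (p : ℤ) * ((c - 2 * k) * (q + 1) / (p : ℤ)) := by linarith
    rw [e5]
    have e6 : (c - 2 * k) * (2 * ((q : ℤ) + 1)) = (c - 2 * k) * ((p : ℤ) + 1) := by
      rw [e4]
      ring
    linear_combination e6
  have hrest : ∀ i ∈ (range p).erase i₀, ¬ (p : ℤ) ∣ ((2 * (k + i) - c) ^ 2 - Δ) := by
    intro i hi hd
    have e1 : (p : ℤ) ∣ 2 * (k + i) - c := by
      refine hpz.dvd_of_dvd_pow (n := 2) ?_
      have := dvd_add hd h1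
      rwa [sub_add_cancel] at this
    have e2 : (p : ℤ) ∣ 2 * ((i : ℤ) - i₀) := by
      have := dvd_sub e1 hdv
      have e3 : 2 * (k + (i : ℤ)) - c - (2 * (k + i₀) - c) = 2 * ((i : ℤ) - i₀) := by ring
      rwa [e3] at this
    rcases hpz.dvd_or_dvd e2 with e3 | e3
    · have e4 : p ∣ 2 := by exact_mod_cast e3
      exact hp2 ((Nat.prime_dvd_prime_iff_eq hp Nat.prime_two).1 e4)
    · have e4 := (mem_erase.1 hi).1
      have e5 := mem_range.1 (mem_erase.1 hi).2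
      have e6 := mem_range.1 hi₀
      have e7 : ((i : ℤ) - i₀) = 0 := by
        refine Int.eq_zero_of_abs_lt_dvd e3 ?_
        rw [abs_lt]
        constructor <;> omega
      exact e4 (by omega)
  intro hd
  rw [← mul_prod_erase _ _ hi₀] at hd
  have hnot : ¬ (p : ℤ) ∣ ∏ i ∈ (range p).erase i₀, ((2 * (k + (i : ℤ)) - c) ^ 2 - Δ) := by
    intro h3
    obtain ⟨i, hi, h4⟩ := (hpz.dvd_finsetProd_iff _).1 h3
    exact hrest i hi h4
  have h3 := hpz.pow_dvd_of_dvd_mul_right 2 hnot hd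
  apply h2
  have h4 : (p : ℤ) ^ 2 ∣ (2 * (k + (i₀ : ℤ)) - c) ^ 2 := pow_dvd_pow_of_dvd hdv 2
  have h5 := dvd_sub h4 h3
  rwa [sub_sub_cancel] at h5

theorem not_dvd_mul {p : ℤ} (hp : Prime p) {x y z : ℤ} (hx : ¬ p ^ 2 ∣ x) (hy : ¬ p ^ 2 ∣ y)
    (hz : ¬ p ^ 2 ∣ z) : ¬ p ^ 4 ∣ x * y * z := by
  rw [pow_dvd_iff_le_emultiplicity] at hx hy hz ⊢
  rw [emultiplicity_mul hp, emultiplicity_mul hp]
  rw [not_le] at hx hy hz ⊢
  generalize emultiplicity p x = a at *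
  generalize emultiplicity p y = b at *
  generalize emultiplicity p z = c at *
  obtain ⟨a, rfl⟩ := ENat.ne_top_iff_exists.1 (ne_top_of_lt hx)
  obtain ⟨b, rfl⟩ := ENat.ne_top_iff_exists.1 (ne_top_of_lt hy)
  obtain ⟨c, rfl⟩ := ENat.ne_top_iff_exists.1 (ne_top_of_lt hz)
  norm_cast at *
  omega

/-- **Primes that divide the discriminant once are large.** -/
theorem le_two_mul (h : IsChernData n c₁ c₂) {p : ℕ} (hp : p.Prime)
    (h1 : (p : ℤ) ∣ disc c₁ c₂) (h2 : ¬ (p : ℤ) ^ 2 ∣ disc c₁ c₂) : n ≤ 2 * p := by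
  by_contra hcon
  have hpz : Prime (p : ℤ) := Nat.prime_iff_prime_int.1 hp
  have hp2 : p ≠ 2 := by
    rintro rfl
    unfold disc at h1 h2
    have e1 : (2 : ℤ) ∣ c₁ ^ 2 - 4 * c₂ := by exact_mod_cast h1
    have e2 : (2 : ℤ) ∣ c₁ := by
      refine Int.prime_two.dvd_of_dvd_pow (n := 2) ?_
      have e3 : (2 : ℤ) ∣ 4 * c₂ := ⟨2 * c₂, by ring⟩
      have := dvd_add e1 e3
      rwa [sub_add_cancel] at this
    obtain ⟨a, rfl⟩ := e2
    exact h2 ⟨a ^ 2 - c₂, by push_cast; ring⟩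
  obtain ⟨s, t, hst⟩ := key h (m := 2 * p) (by omega) 0
  have e1 : (4 : ℤ) ^ (2 * p) * ∏ i ∈ range (2 * p), (((0 : ℤ) + i) ^ 2 - c₁ * (0 + i) + c₂) =
      ∏ i ∈ range (2 * p), ((2 * ((0 : ℤ) + i) - c₁) ^ 2 - disc c₁ c₂) := by
    rw [← card_range (2 * p), ← prod_const, card_range, ← prod_mul_distrib]
    exact prod_congr rfl fun i _ => four_mul _
  have h3 : (p : ℤ) ^ 2 ∣ ((2 * p).factorial : ℤ) := by
    have e2 : p * p ∣ (2 * p).factorial := by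
      obtain ⟨q, hq⟩ : ∃ q, 2 * p = q + 1 := ⟨2 * p - 1, by have := hp.two_le; omega⟩
      rw [hq, Nat.factorial_succ, ← hq]
      refine mul_dvd_mul (Dvd.intro_left _ rfl) ((Nat.Prime.dvd_factorial hp).2 ?_)
      have := hp.two_le
      omega
    rw [pow_two]
    exact_mod_cast e2
  have h4 : (p : ℤ) ^ 4 ∣ ((2 * p).factorial : ℤ) ^ 2 := by
    have := pow_dvd_pow_of_dvd h3 2
    rwa [← pow_mul] at this
  have h5 : (p : ℤ) ^ 4 ∣ disc c₁ c₂ * (∏ i ∈ range p, ((2 * ((0 : ℤ) + i) - c₁) ^ 2 - disc c₁ c₂)) *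
      (∏ i ∈ range p, ((2 * ((p : ℤ) + i) - c₁) ^ 2 - disc c₁ c₂)) := by
    have e3 : disc c₁ c₂ * (∏ i ∈ range p, ((2 * ((0 : ℤ) + i) - c₁) ^ 2 - disc c₁ c₂)) *
        (∏ i ∈ range p, ((2 * ((p : ℤ) + i) - c₁) ^ 2 - disc c₁ c₂)) =
        -((4 : ℤ) ^ (2 * p) * (((2 * p).factorial : ℤ) ^ 2 *
          (t ^ 2 - c₁ * t * s + c₂ * s ^ 2))) := by
      rw [hst]
      have e4 : ∏ i ∈ range (2 * p), ((2 * ((0 : ℤ) + i) - c₁) ^ 2 - disc c₁ c₂) =
          (∏ i ∈ range p, ((2 * ((0 : ℤ) + i) - c₁) ^ 2 - disc c₁ c₂)) *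
          (∏ i ∈ range p, ((2 * ((p : ℤ) + i) - c₁) ^ 2 - disc c₁ c₂)) := by
        rw [two_mul, prod_range_add]
        congr 1
        refine prod_congr rfl fun i _ => ?_
        push_cast
        ring
      rw [e4] at e1
      linear_combination (-disc c₁ c₂) * e1
    rw [e3]
    exact (Dvd.dvd.mul_left (Dvd.dvd.mul_right h4 _) _).neg_right
  exact not_dvd_mul hpz h2 (not_dvd_block hp hp2 h1 h2 0 c₁) (not_dvd_block hp hp2 h1 h2 p c₁) h5

end Pool.Agent.X311.Rb
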