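import Pool.Agent.X311.Rb4Defs
import Pool.Agent.X311.Rb3

/-!
# Positivity
-/

set_option autoImplicit false

namespace Pool.Agent.X311.Rb

open Finset Real

variable {A B : ℤ}

theorem segre_mul_sin {ρ θ : ℝ} (h1 : 2 * ρ * cos θ = A) (h2 : ρ ^ 2 = B) : ∀ k : ℕ,
    (segre A B k : ℝ) * sin θ = ρ ^ k * sin (((k : ℝ) + 1) * θ)
  | 0 => by
    simp [segre]
  | 1 => by
    have e1 : (((1 : ℕ) : ℝ) + 1) * θ = 2 * θ := by
      push_cast
      ring
    rw [e1, sin_two_mul, segre, ← h1]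
    ring
  | k + 2 => by
    have e1 := segre_mul_sin h1 h2 (k + 1)
    have e2 := segre_mul_sin h1 h2 k
    have e3 : (((k + 2 : ℕ) : ℝ) + 1) * θ = (((k + 1 : ℕ) : ℝ) + 1) * θ + θ := by
      push_cast
      ring
    have e4 : ((k : ℝ) + 1) * θ = (((k + 1 : ℕ) : ℝ) + 1) * θ - θ := by
      push_cast
      ring
    rw [segre]
    push_cast
    push_cast at e1 e3 e4
    rw [sub_mul, mul_assoc, mul_assoc, e1, e2, e3, e4, sin_add, sin_sub, ← h1, ← h2]
    ring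

theorem angle_le {θ : ℝ} (h0 : 0 < θ) (h1 : θ < π) {M : ℕ}
    (h : ∀ j : ℕ, 1 ≤ j → j ≤ M → 0 ≤ sin ((j : ℝ) * θ)) : ∀ j : ℕ, j ≤ M → (j : ℝ) * θ ≤ π
  | 0, _ => by
    rw [Nat.cast_zero, zero_mul]
    exact pi_pos.le
  | j + 1, hj => by
    have e1 := angle_le h0 h1 h j (by omega)
    by_contra hcon
    rw [not_le] at hcon
    have e2 := h (j + 1) (by omega) hj
    have e3 : ((j + 1 : ℕ) : ℝ) * θ < 2 * π := by
      push_cast
      linarith
    have e4 : sin (((j + 1 : ℕ) : ℝ) * θ - π) = -sin (((j + 1 : ℕ) : ℝ) * θ) := sin_sub_pi _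
    have e5 : 0 < sin (((j + 1 : ℕ) : ℝ) * θ - π) :=
      sin_pos_of_pos_of_lt_pi (by linarith) (by linarith)
    linarith

/-- **The angle of the Chern roots.** -/
theorem sqrt_le (hAB : A ^ 2 < 4 * B) {M : ℕ} (hM : 3 ≤ M)
    (hpos : ∀ k, k + 1 ≤ M → 0 ≤ segre A B k) :
    0 < A ∧ √(4 * (B : ℝ) - (A : ℝ) ^ 2) ≤ A * tan (π / M) := by
  have hB : (0 : ℝ) < B := by
    have : 0 < B := by nlinarith [sq_nonneg A]
    exact_mod_cast this
  have hABr : (A : ℝ) ^ 2 < 4 * B := by exact_mod_cast hAB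
  set ρ := √(B : ℝ) with hρ
  have hρ0 : 0 < ρ := sqrt_pos.2 hB
  have hρ2 : ρ ^ 2 = B := sq_sqrt hB.le
  set c : ℝ := A / (2 * ρ) with hc
  have hc2 : c ^ 2 < 1 := by
    rw [hc, div_pow, div_lt_one (by positivity), mul_pow, hρ2]
    linarith
  have hc1 : -1 < c ∧ c < 1 := by
    have := abs_lt.1 ((sq_lt_one_iff_abs_lt_one c).1 hc2)
    exact this
  set θ := arccos c with hθ
  have hcos : cos θ = c := cos_arccos hc1.1.le hc1.2.le
  have h1 : 2 * ρ * cos θ = A := by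
    rw [hcos, hc]
    field_simp
  have hθ0 : 0 < θ := arccos_pos.2 hc1.2
  have hθπ : θ < π := by
    refine lt_of_le_of_ne (arccos_le_pi _) fun h => ?_
    rw [h, cos_pi] at hcos
    linarith [hc1.1]
  have hsin : 0 < sin θ := sin_pos_of_pos_of_lt_pi hθ0 hθπ
  have hsn : ∀ j : ℕ, 1 ≤ j → j ≤ M → 0 ≤ sin ((j : ℝ) * θ) := by
    intro j hj hjM
    obtain ⟨k, rfl⟩ : ∃ k, j = k + 1 := ⟨j - 1, by omega⟩
    have e1 := segre_mul_sin h1 hρ2 k
    have e2 : (0 : ℝ) ≤ segre A B k := by exact_mod_cast hpos k hjM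
    have e3 : 0 ≤ ρ ^ k * sin (((k : ℝ) + 1) * θ) := by
      rw [← e1]
      exact mul_nonneg e2 hsin.le
    push_cast
    exact nonneg_of_mul_nonneg_right e3 (by positivity)
  have hMθ := angle_le hθ0 hθπ hsn M le_rfl
  have hM0 : (0 : ℝ) < M := by
    have : 0 < M := by omega
    exact_mod_cast this
  have hM3 : (3 : ℝ) ≤ M := by exact_mod_cast hM
  have hθM : θ ≤ π / M := by
    rw [le_div_iff₀ hM0]
    linarith
  have hM2 : π / M < π / 2 := by
    refine div_lt_div_of_pos_left pi_pos (by norm_num) ?_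
    linarith
  have hcpos : 0 < cos θ := cos_pos_of_mem_Ioo ⟨by linarith [pi_pos], by linarith⟩
  have hA : (0 : ℝ) < A := by
    rw [← h1]
    positivity
  have htan : tan θ ≤ tan (π / M) := by
    rcases hθM.lt_or_eq with h | h
    · exact (tan_lt_tan_of_nonneg_of_lt_pi_div_two hθ0.le hM2 h).le
    · rw [h]
  refine ⟨by exact_mod_cast hA, ?_⟩
  have h3 : √(4 * (B : ℝ) - (A : ℝ) ^ 2) = 2 * ρ * sin θ := by
    rw [sqrt_eq_iff_eq_sq (by linarith) (by positivity)]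
    have := sin_sq_add_cos_sq θ
    have e4 : (A : ℝ) ^ 2 = 4 * ρ ^ 2 * cos θ ^ 2 := by
      rw [← h1]
      ring
    rw [e4, ← hρ2]
    have e5 : cos θ ^ 2 = 1 - sin θ ^ 2 := by linarith
    rw [e5]
    ring
  have h4 : 2 * ρ * sin θ = A * tan θ := by
    rw [tan_eq_sin_div_cos, ← h1]
    field_simp
  rw [h3, h4]
  exact mul_le_mul_of_nonneg_left htan hA.le

theorem convexOn_tan : ConvexOn ℝ (Set.Icc 0 (π / 6)) tan := by
  have hπ := pi_pos
  have hc : ∀ x ∈ Set.Icc (0 : ℝ) (π / 6), 0 < cos x := fun x hx =>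
    cos_pos_of_mem_Ioo ⟨by linarith [hx.1], by linarith [hx.2]⟩
  have hint : ∀ x ∈ interior (Set.Icc (0 : ℝ) (π / 6)), x ∈ Set.Icc (0 : ℝ) (π / 6) :=
    fun x hx => interior_subset hx
  refine MonotoneOn.convexOn_of_deriv (convex_Icc _ _) ?_ ?_ ?_
  · intro x hx
    exact (continuousAt_tan.2 (hc x hx).ne').continuousWithinAt
  · intro x hx
    exact (differentiableAt_tan.2 (hc x (hint x hx)).ne').differentiableWithinAt
  · intro x hx y hy hxy
    rw [deriv_tan, deriv_tan]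
    have hx' := hint x hx
    have hy' := hint y hy
    have e1 : cos y ≤ cos x := cos_le_cos_of_nonneg_of_le_pi hx'.1 (by linarith [hy'.2]) hxy
    have e2 := hc y hy'
    have e3 := hc x hx'
    gcongr

theorem tan_pi_div_le {M : ℕ} (hM : 6 ≤ M) : (M : ℝ) * tan (π / M) ≤ 2 * √3 := by
  have hM0 : (0 : ℝ) < M := by
    have : 0 < M := by omega
    exact_mod_cast this
  have hM6 : (6 : ℝ) ≤ M := by exact_mod_cast hM
  have hπ := pi_pos
  have hm0 : (0 : ℝ) ∈ Set.Icc 0 (π / 6) := ⟨le_rfl, by positivity⟩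
  have hm1 : π / 6 ∈ Set.Icc 0 (π / 6) := ⟨by positivity, le_rfl⟩
  have ha : 0 ≤ 1 - 6 / (M : ℝ) := by
    rw [sub_nonneg, div_le_one hM0]
    exact hM6
  have hb : 0 ≤ 6 / (M : ℝ) := by positivity
  have hab : (1 - 6 / (M : ℝ)) + 6 / (M : ℝ) = 1 := by ring
  have h1 := convexOn_tan.2 hm0 hm1 ha hb hab
  have h2 : (1 - 6 / (M : ℝ)) • (0 : ℝ) + (6 / (M : ℝ)) • (π / 6) = π / M := by
    rw [smul_zero, zero_add, smul_eq_mul]
    field_simp
  rw [h2, tan_zero, smul_zero, zero_add, smul_eq_mul, tan_pi_div_six] at h1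
  have h3 : (M : ℝ) * (6 / M * (1 / √3)) = 2 * √3 := by
    have h4 : √3 * √3 = 3 := mul_self_sqrt (by norm_num)
    have h5 : (0 : ℝ) < √3 := by positivity
    field_simp
    nlinarith
  rw [← h3]
  exact mul_le_mul_of_nonneg_left h1 hM0.le

/-- **The bound for the first Chern class.** -/
theorem lt_eight_mul {N : ℤ} (hN : 0 ≤ N) (hAB : A ^ 2 < 4 * B) {M : ℕ} (hM : 6 ≤ M)
    (hpos : ∀ k, k + 1 ≤ M → 0 ≤ segre A B k) (hb : 3 * N ^ 2 < 16 * (4 * B - A ^ 2)) :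
    N * M < 8 * A := by
  obtain ⟨hA, h1⟩ := sqrt_le hAB (by omega : 3 ≤ M) hpos
  have h2 := tan_pi_div_le hM
  have hAr : (0 : ℝ) < A := by exact_mod_cast hA
  have hM0 : (0 : ℝ) < M := by
    have : 0 < M := by omega
    exact_mod_cast this
  have hNr : (0 : ℝ) ≤ N := by exact_mod_cast hN
  have hbr : 3 * (N : ℝ) ^ 2 < 16 * (4 * B - A ^ 2) := by exact_mod_cast hb
  have h3 : (M : ℝ) * √(4 * (B : ℝ) - (A : ℝ) ^ 2) ≤ A * (2 * √3) := by
    calc (M : ℝ) * √(4 * (B : ℝ) - (A : ℝ) ^ 2) ≤ M * (A * tan (π / M)) :=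
          mul_le_mul_of_nonneg_left h1 hM0.le
      _ = A * (M * tan (π / M)) := by ring
      _ ≤ _ := mul_le_mul_of_nonneg_left h2 hAr.le
  have hD : (0 : ℝ) ≤ 4 * (B : ℝ) - (A : ℝ) ^ 2 := by
    have : (A : ℝ) ^ 2 < 4 * B := by exact_mod_cast hAB
    linarith
  have h4 : (M : ℝ) ^ 2 * (4 * (B : ℝ) - (A : ℝ) ^ 2) ≤ 12 * A ^ 2 := by
    have e1 := pow_le_pow_left₀ (by positivity) h3 2
    have e2 : √3 ^ 2 = (3 : ℝ) := sq_sqrt (by norm_num)
    rw [mul_pow, mul_pow, mul_pow, sq_sqrt hD, e2] at e1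
    linarith
  have h5 : ((N : ℝ) * M) ^ 2 < (8 * A) ^ 2 := by
    have e1 : (M : ℝ) ^ 2 * (3 * (N : ℝ) ^ 2) < (M : ℝ) ^ 2 * (16 * (4 * B - A ^ 2)) :=
      mul_lt_mul_of_pos_left hbr (by positivity)
    nlinarith
  have h6 : (N : ℝ) * M < 8 * A := lt_of_pow_lt_pow_left₀ 2 (by positivity) h5
  exact_mod_cast h6

end Pool.Agent.X311.Rb
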