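import Pool.Agent.X311.RbDefs

/-!
# Segre numbers
-/

set_option autoImplicit false

namespace Pool.Agent.X311.Rb

/-- The complete symmetric polynomial `∑_{i + j = k} x ^ i y ^ j` of the numbers `x`, `y` with
`x + y = A`, `x y = B`. If `x`, `y` are the Chern roots of a bundle of rank two, it is the Segre class of
degree `k` (with the sign for which it is effective if the bundle is generated by global sections). -/
def segre (A B : ℤ) : ℕ → ℤ
  | 0 => 1
  | 1 => A
  | k + 2 => A * segre A B (k + 1) - B * segre A B k

end Pool.Agent.X311.Rb
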