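import Mathlib

/-!
# Chern classes of bundles of rank two on projective space
-/

set_option autoImplicit false

namespace Pool.Agent.X311.Rb

/-- The power sum `x ^ k + y ^ k` of the Chern roots `x`, `y` of a bundle of rank two: `x + y = c₁`,
`x y = c₂`. It is `k!` times the component of degree `k` of the Chern character. -/
def powerSum (c₁ c₂ : ℤ) : ℕ → ℤ
  | 0 => 2
  | 1 => c₁
  | k + 2 => c₁ * powerSum c₁ c₂ (k + 1) - c₂ * powerSum c₁ c₂ k

/-- There is a class `∑ [O(a i)] - ∑ [O(b j)]` in the Grothendieck group of `ℙ ^ n` with the Chern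
character of a bundle of rank two with the Chern classes `c₁`, `c₂`. (The cohomology of `ℙ ^ n` in
degree `2 k` is `ℤ`, for `k ≤ n`, and the Chern character of `O(a)` is `∑ a ^ k / k!`.) By the
theorem of Hilbert on syzygies each vector bundle `E` of rank two on `ℙ ^ n` has a finite resolution by
sums of line bundles `O(a)`; so this holds for `c₁ = c₁(E)` and `c₂ = c₂(E)`. -/
def IsChernData (n : ℕ) (c₁ c₂ : ℤ) : Prop :=
  ∃ (r s : ℕ) (a : Fin r → ℤ) (b : Fin s → ℤ), ∀ k ≤ n,
    ∑ i, a i ^ k - ∑ j, b j ^ k = powerSum c₁ c₂ k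

/-- The number `χ = c₁ ^ 2 - 4 c₂`, the square of the difference of the Chern roots. -/
def disc (c₁ c₂ : ℤ) : ℤ := c₁ ^ 2 - 4 * c₂

end Pool.Agent.X311.Rb
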