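import Pool.Agent.X311.Rb3

/-!
# Primes that do not split

Let `E` be a bundle of rank two on `ℙ ^ n` whose discriminant `Δ = c₁ ^ 2 - 4 c₂` is `f ^ 2 D` with `D` free of
squares, `D ≠ 1`. If an odd prime `p` does not split in `ℚ(√D)`, then `n ≤ 2 (v + 1) p ^ (v + 1)` for the
exponent `v` of `p` in `f`.
-/

set_option autoImplicit false

namespace Pool.Agent.X311.Rb

open Finset

variable {n : ℕ} {c₁ c₂ : ℤ}

theorem not_dvd_sq_sub {p : ℕ} {Δ' : ℤ} (h' : ¬ (p : ℤ) ^ 2 ∣ Δ')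
    (w : ℤ) (hw : (p : ℤ) ∣ w) : ¬ (p : ℤ) ^ 2 ∣ w ^ 2 - Δ' := by
  intro hd
  apply h'
  have h1 : (p : ℤ) ^ 2 ∣ w ^ 2 := pow_dvd_pow_of_dvd hw 2
  have h2 := dvd_sub h1 hd
  rwa [sub_sub_cancel] at h2

/-- the exponent of `p` in `u ^ 2 - p ^ (2 v) Δ'` -/
theorem val_term_le {p : ℕ} (hp : p.Prime) (hp2 : p ≠ 2) {v : ℕ} {Δ' : ℤ}
    (h : ∀ w : ℤ, ¬ (p : ℤ) ∣ w → ¬ (p : ℤ) ∣ w ^ 2 - Δ') (h' : ¬ (p : ℤ) ^ 2 ∣ Δ')
    {x c : ℤ} (hx : x ≠ 0) (hne : (2 * x + c * p ^ (v + 1)) ^ 2 - (p : ℤ) ^ (2 * v) * Δ' ≠ 0) :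
    padicValInt p ((2 * x + c * p ^ (v + 1)) ^ 2 - (p : ℤ) ^ (2 * v) * Δ') +
      (if (p : ℤ) ^ (v + 1) ∣ x then 1 else 0) ≤ padicValInt p (x ^ 2) := by
  have := Fact.mk hp
  have hpz : Prime (p : ℤ) := Nat.prime_iff_prime_int.1 hp
  have hp0 : (p : ℤ) ≠ 0 := hpz.ne_zero
  have h2 : ¬ (p : ℤ) ∣ 2 := by
    intro h3
    have h4 : p ∣ 2 := by exact_mod_cast h3
    exact hp2 ((Nat.prime_dvd_prime_iff_eq hp Nat.prime_two).1 h4)
  split_ifs with hd
  · -- `p ^ (v + 1)` divides `x`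
    obtain ⟨y, hy⟩ := hd
    have e1 : (2 * x + c * (p : ℤ) ^ (v + 1)) ^ 2 - (p : ℤ) ^ (2 * v) * Δ' =
        (p : ℤ) ^ (2 * v) * ((p * (2 * y + c)) ^ 2 - Δ') := by
      rw [hy]
      ring
    have e2 : ¬ (p : ℤ) ^ (2 * v + 2) ∣
        (2 * x + c * (p : ℤ) ^ (v + 1)) ^ 2 - (p : ℤ) ^ (2 * v) * Δ' := by
      rw [e1, pow_add]
      intro h3
      exact not_dvd_sq_sub h' _ (Dvd.intro _ rfl) (Int.dvd_of_mul_dvd_mul_left (pow_ne_zero _ hp0) h3)
    rw [padicValInt_dvd_iff] at e2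
    push Not at e2
    have e3 := e2.2
    have e4 : (p : ℤ) ^ (2 * v + 2) ∣ x ^ 2 := by
      have : x ^ 2 = (p : ℤ) ^ (2 * v + 2) * y ^ 2 := by
        rw [hy]
        ring
      rw [this]
      exact Dvd.intro _ rfl
    rw [padicValInt_dvd_iff] at e4
    rcases e4 with e4 | e4
    · exact absurd e4 (pow_ne_zero 2 hx)
    · omega
  · -- `p ^ (v + 1)` does not divide `x`
    obtain ⟨y, hxy, hy⟩ := FiniteMultiplicity.exists_eq_pow_mul_and_not_dvd
      (Int.finiteMultiplicity_iff.2 ⟨by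
        intro h3
        exact absurd (by simpa using h3) hp.one_lt.ne', hx⟩ : FiniteMultiplicity (p : ℤ) x)
    generalize multiplicity (p : ℤ) x = j at hxy
    have hj : j ≤ v := by
      by_contra hcon
      apply hd
      rw [hxy]
      exact Dvd.dvd.mul_right (pow_dvd_pow _ (by omega)) _
    have hw : ¬ (p : ℤ) ∣ 2 * y + c * p ^ (v + 1 - j) := by
      intro h3
      have h4 : (p : ℤ) ∣ c * p ^ (v + 1 - j) := by
        refine Dvd.dvd.mul_left (dvd_pow_self _ (by omega)) _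
      have h5 := dvd_sub h3 h4
      rw [add_sub_cancel_right] at h5
      rcases hpz.dvd_or_dvd h5 with h6 | h6
      · exact h2 h6
      · exact hy h6
    have e0 : (2 * x + c * (p : ℤ) ^ (v + 1)) = p ^ j * (2 * y + c * p ^ (v + 1 - j)) := by
      rw [hxy]
      have : (p : ℤ) ^ (v + 1) = p ^ j * p ^ (v + 1 - j) := by
        rw [← pow_add]
        congr 1
        omega
      rw [this]
      ring
    have e1 : (2 * x + c * (p : ℤ) ^ (v + 1)) ^ 2 - (p : ℤ) ^ (2 * v) * Δ' =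
        (p : ℤ) ^ (2 * j) * ((2 * y + c * p ^ (v + 1 - j)) ^ 2 - p ^ (2 * (v - j)) * Δ') := by
      rw [e0]
      have : (p : ℤ) ^ (2 * v) = p ^ (2 * j) * p ^ (2 * (v - j)) := by
        rw [← pow_add]
        congr 1
        omega
      rw [this]
      ring
    have e2 : ¬ (p : ℤ) ^ (2 * j + 1) ∣
        (2 * x + c * (p : ℤ) ^ (v + 1)) ^ 2 - (p : ℤ) ^ (2 * v) * Δ' := by
      rw [e1, pow_succ]
      intro h3
      have h4 := Int.dvd_of_mul_dvd_mul_left (pow_ne_zero _ hp0) h3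
      rcases hj.eq_or_lt with hj' | hj'
      · subst hj'
        rw [Nat.sub_self, mul_zero, pow_zero, one_mul] at h4
        exact h _ hw h4
      · have h5 : (p : ℤ) ∣ p ^ (2 * (v - j)) * Δ' :=
          Dvd.dvd.mul_right (dvd_pow_self _ (by omega)) _
        have h6 := dvd_add h4 h5
        rw [sub_add_cancel] at h6
        exact hw (hpz.dvd_of_dvd_pow h6)
    rw [padicValInt_dvd_iff] at e2
    push Not at e2
    have e3 := e2.2
    have e4 : (p : ℤ) ^ (2 * j) ∣ x ^ 2 := by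
      have : x ^ 2 = (p : ℤ) ^ (2 * j) * y ^ 2 := by
        rw [hxy]
        ring
      rw [this]
      exact Dvd.intro _ rfl
    rw [padicValInt_dvd_iff] at e4
    rcases e4 with e4 | e4
    · exact absurd e4 (pow_ne_zero 2 hx)
    · omega

/-- the product of the first `m` terms -/
theorem val_prod_le {p : ℕ} (hp : p.Prime) (hp2 : p ≠ 2) {v : ℕ} {Δ' : ℤ}
    (h : ∀ w : ℤ, ¬ (p : ℤ) ∣ w → ¬ (p : ℤ) ∣ w ^ 2 - Δ') (h' : ¬ (p : ℤ) ^ 2 ∣ Δ')
    (c : ℤ) (t : ℕ → ℤ)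
    (ht : ∀ i, 4 * t i = (2 * ((i : ℤ) + 1) + c * p ^ (v + 1)) ^ 2 - (p : ℤ) ^ (2 * v) * Δ')
    (hne : ∀ i, t i ≠ 0) (m : ℕ) :
    padicValInt p (∏ i ∈ range m, t i) + m / p ^ (v + 1) ≤ padicValInt p ((m.factorial : ℤ) ^ 2) := by
  have := Fact.mk hp
  have h4 : padicValInt p 4 = 0 := by
    rw [padicValInt.eq_zero_iff]
    right; right
    intro h3
    have h5 : (p : ℤ) ∣ 2 ^ 2 := by
      have : (2 : ℤ) ^ 2 = 4 := by norm_num
      rwa [this]
    have h6 := (Nat.prime_iff_prime_int.1 hp).dvd_of_dvd_pow h5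
    have h7 : p ∣ 2 := by exact_mod_cast h6
    exact hp2 ((Nat.prime_dvd_prime_iff_eq hp Nat.prime_two).1 h7)
  induction m with
  | zero => simp
  | succ m ih =>
    have hP : ∏ i ∈ range m, t i ≠ 0 := prod_ne_zero_iff.2 fun i _ => hne i
    rw [prod_range_succ, padicValInt.mul hP (hne m), Nat.factorial_succ, Nat.succ_div]
    have e1 : (((m + 1) * m.factorial : ℕ) : ℤ) ^ 2 = ((m : ℤ) + 1) ^ 2 * (m.factorial : ℤ) ^ 2 := by
      push_cast
      ring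
    have hm1 : ((m : ℤ) + 1) ≠ 0 := by omega
    have hmf : (m.factorial : ℤ) ≠ 0 := by exact_mod_cast m.factorial_ne_zero
    rw [e1, padicValInt.mul (pow_ne_zero 2 hm1) (pow_ne_zero 2 hmf)]
    have h3 := val_term_le hp hp2 (v := v) h h' (x := (m : ℤ) + 1) (c := c) hm1 (by
      rw [← ht]
      exact mul_ne_zero (by norm_num) (hne m))
    rw [← ht, padicValInt.mul (by norm_num) (hne m), h4] at h3
    have e2 : ((p : ℤ) ^ (v + 1) ∣ (m : ℤ) + 1) ↔ p ^ (v + 1) ∣ m + 1 := by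
      have : ((m : ℤ) + 1) = ((m + 1 : ℕ) : ℤ) := by push_cast; ring
      rw [this]
      exact_mod_cast Int.natCast_dvd_natCast
    simp only [e2] at h3
    omega

/-- **Primes that do not split are large.** -/
theorem le_of_not_split (h0 : IsChernData n c₁ c₂) (hs : ¬ IsSquare (disc c₁ c₂)) {p : ℕ} (hp : p.Prime)
    (hp2 : p ≠ 2) {v : ℕ} {Δ' : ℤ} (hΔ : disc c₁ c₂ = (p : ℤ) ^ (2 * v) * Δ')
    (h : ∀ w : ℤ, ¬ (p : ℤ) ∣ w → ¬ (p : ℤ) ∣ w ^ 2 - Δ') (h' : ¬ (p : ℤ) ^ 2 ∣ Δ') :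
    n ≤ 2 * (v + 1) * p ^ (v + 1) := by
  have := Fact.mk hp
  rcases Nat.eq_zero_or_pos n with hn | hn
  · omega
  obtain ⟨a, ha⟩ : ∃ a : ℤ, (p : ℤ) ^ (v + 1) + 1 = 2 * a := by
    have h3 : (p : ℤ) % 2 = 1 := by
      have := (Nat.Prime.mod_two_eq_one_iff_ne_two hp).2 hp2
      omega
    have h4 : ((p : ℤ) ^ (v + 1)) % 2 = 1 := by
      have : Odd ((p : ℤ) ^ (v + 1)) := Odd.pow (Int.odd_iff.2 h3)
      exact Int.odd_iff.1 this
    exact ⟨((p : ℤ) ^ (v + 1) + 1) / 2, by omega⟩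
  set k : ℤ := 1 + c₁ * a with hk
  set t : ℕ → ℤ := fun i => (k + i) ^ 2 - c₁ * (k + i) + c₂ with ht
  have ht4 : ∀ i, 4 * t i =
      (2 * ((i : ℤ) + 1) + c₁ * p ^ (v + 1)) ^ 2 - (p : ℤ) ^ (2 * v) * Δ' := by
    intro i
    rw [← hΔ]
    unfold disc
    simp only [ht, hk]
    have e : (p : ℤ) ^ (v + 1) = 2 * a - 1 := by linarith
    rw [e]
    ring
  have hne : ∀ i, t i ≠ 0 := by
    intro i hi
    apply hs
    have e := ht4 i
    rw [hi, mul_zero, ← hΔ] at e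
    exact ⟨2 * ((i : ℤ) + 1) + c₁ * p ^ (v + 1), by linarith⟩
  have hv := val_prod_le hp hp2 h h' c₁ t ht4 hne (n - 1)
  obtain ⟨s, r, hsr⟩ := key h0 (m := n - 1) (by omega) k
  have hΔ0 : disc c₁ c₂ ≠ 0 := by
    intro h3
    exact hs (by rw [h3]; exact ⟨0, by norm_num⟩)
  have hP : ∏ i ∈ range (n - 1), t i ≠ 0 := prod_ne_zero_iff.2 fun i _ => hne i
  have hR : -disc c₁ c₂ * ∏ i ∈ range (n - 1), t i ≠ 0 := mul_ne_zero (neg_ne_zero.2 hΔ0) hP
  have hsr' : ((n - 1).factorial : ℤ) ^ 2 * (r ^ 2 - c₁ * r * s + c₂ * s ^ 2) =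
      -disc c₁ c₂ * ∏ i ∈ range (n - 1), t i := hsr
  have hL : ((n - 1).factorial : ℤ) ^ 2 * (r ^ 2 - c₁ * r * s + c₂ * s ^ 2) ≠ 0 := by
    rw [hsr']
    exact hR
  have hv2 : padicValInt p (((n - 1).factorial : ℤ) ^ 2) ≤
      padicValInt p (disc c₁ c₂) + padicValInt p (∏ i ∈ range (n - 1), t i) := by
    have e1 : padicValInt p (((n - 1).factorial : ℤ) ^ 2 * (r ^ 2 - c₁ * r * s + c₂ * s ^ 2)) =
        padicValInt p (-disc c₁ c₂ * ∏ i ∈ range (n - 1), t i) := by rw [hsr']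
    rw [padicValInt.mul (left_ne_zero_of_mul hL) (right_ne_zero_of_mul hL),
      padicValInt.mul (neg_ne_zero.2 hΔ0) hP] at e1
    have e2 : padicValInt p (-disc c₁ c₂) = padicValInt p (disc c₁ c₂) := by
      unfold padicValInt
      rw [Int.natAbs_neg]
    rw [e2] at e1
    omega
  have hv3 : padicValInt p (disc c₁ c₂) ≤ 2 * v + 1 := by
    have e1 : ¬ (p : ℤ) ^ (2 * v + 2) ∣ disc c₁ c₂ := by
      rw [hΔ, pow_add]
      intro h3
      exact h' (Int.dvd_of_mul_dvd_mul_left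
        (pow_ne_zero _ (Nat.prime_iff_prime_int.1 hp).ne_zero) h3)
    rw [padicValInt_dvd_iff] at e1
    push Not at e1
    omega
  have h5 : (n - 1) / p ^ (v + 1) ≤ 2 * v + 1 := by omega
  have hpos : 0 < p ^ (v + 1) := pow_pos hp.pos _
  have h6 : (n - 1) / p ^ (v + 1) < 2 * v + 2 := by omega
  rw [Nat.div_lt_iff_lt_mul hpos] at h6
  have : 2 * (v + 1) * p ^ (v + 1) = (2 * v + 2) * p ^ (v + 1) := by ring
  omega

/-- The same with the Jacobi symbol. -/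
theorem le_of_jacobi (h0 : IsChernData n c₁ c₂) (hs : ¬ IsSquare (disc c₁ c₂)) {f : ℕ} {D : ℤ}
    (hf : f ≠ 0) (hD : Squarefree D) (hΔ : disc c₁ c₂ = (f : ℤ) ^ 2 * D) {p : ℕ} (hp : p.Prime)
    (hp2 : p ≠ 2) (hj : jacobiSym D p ≠ 1) :
    n ≤ 2 * (f.factorization p + 1) * p ^ (f.factorization p + 1) := by
  have := Fact.mk hp
  have hpz : Prime (p : ℤ) := Nat.prime_iff_prime_int.1 hp
  obtain ⟨g, hg⟩ : ∃ g, f = p ^ f.factorization p * g := ⟨_, (Nat.ordProj_mul_ordCompl_eq_self f p).symm⟩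
  have hpg : ¬ p ∣ g := by
    intro h1
    have h2 : g = ordCompl[p] f := by
      have h3 := Nat.ordProj_mul_ordCompl_eq_self f p
      have h4 : p ^ f.factorization p * g = p ^ f.factorization p * ordCompl[p] f := by
        rw [h3]
        exact hg.symm
      exact Nat.eq_of_mul_eq_mul_left (pow_pos hp.pos _) h4
    rw [h2] at h1
    exact Nat.not_dvd_ordCompl hp hf h1
  have hpg' : ¬ (p : ℤ) ∣ (g : ℤ) := by
    intro h1
    exact hpg (by exact_mod_cast h1)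
  refine le_of_not_split h0 hs hp hp2 (v := f.factorization p) (Δ' := (g : ℤ) ^ 2 * D) ?_ ?_ ?_
  · rw [hΔ]
    have : (f : ℤ) = p ^ f.factorization p * g := by exact_mod_cast hg
    generalize f.factorization p = v at *
    rw [this]
    ring
  · intro w hw hd
    apply hj
    rw [← jacobiSym.legendreSym.to_jacobiSym]
    have hg0 : (g : ZMod p) ≠ 0 := by
      intro h3
      exact hpg ((ZMod.natCast_eq_zero_iff _ _).1 h3)
    have hw0 : (w : ZMod p) ≠ 0 := by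
      intro h3
      exact hw ((ZMod.intCast_zmod_eq_zero_iff_dvd _ _).1 h3)
    have e1 : (w : ZMod p) ^ 2 = (g : ZMod p) ^ 2 * (D : ZMod p) := by
      have h3 := (ZMod.intCast_zmod_eq_zero_iff_dvd _ p).2 hd
      push_cast at h3
      linear_combination h3
    have hD0 : (D : ZMod p) ≠ 0 := by
      intro h3
      rw [h3, mul_zero] at e1
      exact hw0 (pow_eq_zero_iff (two_ne_zero) |>.1 e1)
    rw [legendreSym.eq_one_iff p hD0]
    refine ⟨(w : ZMod p) / g, ?_⟩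
    field_simp
    linear_combination -e1
  · intro hd
    have h3 : IsCoprime ((p : ℤ) ^ 2) ((g : ℤ) ^ 2) :=
      IsCoprime.pow ((Prime.coprime_iff_not_dvd hpz).2 hpg')
    have h4 := h3.dvd_of_dvd_mul_left hd
    have h5 := hD (p : ℤ) (by rwa [← pow_two])
    exact hpz.not_isUnit h5

end Pool.Agent.X311.Rb
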