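import Pool.Agent.Helper923.HMertens

/-!
# Completely multiplicative functions

A function with values in `[-1, 1]` that is one at all primes up to `y` has large sums (Vinogradov). Changing the
values at a few primes to one does not change the sums much.
-/

set_option autoImplicit false

namespace Pool.Agent.X311.Rc

open Finset

/-- completely multiplicative with values in `[-1, 1]` -/
structure IsCM (h : ℕ → ℝ) : Prop where
  one : h 1 = 1
  mul : ∀ a b, h (a * b) = h a * h b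
  le : ∀ a, |h a| ≤ 1

/-- if all prime factors are good, the value is one -/
theorem IsCM.eq_one {h : ℕ → ℝ} (H : IsCM h) (m : ℕ) (hm : m ≠ 0)
    (hh : ∀ l : ℕ, l.Prime → l ∣ m → h l = 1) : h m = 1 := by
  induction m using Nat.recOnMul with
  | zero => exact absurd rfl hm
  | one => exact H.one
  | prime p hp => exact hh p hp dvd_rfl
  | mul a b ha hb =>
    have ha0 : a ≠ 0 := fun h0 => hm (by rw [h0, zero_mul])
    have hb0 : b ≠ 0 := fun h0 => hm (by rw [h0, mul_zero])
    rw [H.mul, ha ha0 fun l hl hd => hh l hl (hd.mul_right _),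
      hb hb0 fun l hl hd => hh l hl (hd.mul_left _), one_mul]

/-- **The trick of Vinogradov.** -/
theorem IsCM.le_sum {h : ℕ → ℝ} (H : IsCM h) (y X : ℕ)
    (hy : ∀ l : ℕ, l.Prime → l ≤ y → h l = 1) :
    (X : ℝ) * (1 - 2 * ∑ p ∈ (Ioc y X).filter Nat.Prime, (1 : ℝ) / p) ≤ ∑ m ∈ Icc 1 X, h m := by
  classical
  set L := (Ioc y X).filter Nat.Prime with hL
  have hpt : ∀ m ∈ Icc 1 X, (1 : ℝ) - 2 * ((L.filter fun l => l ∣ m).card : ℝ) ≤ h m := by
    intro m hm
    have hm1 := (mem_Icc.1 hm).1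
    have hm2 := (mem_Icc.1 hm).2
    by_cases hall : ∀ l : ℕ, l.Prime → l ∣ m → h l = 1
    · rw [H.eq_one m (by omega) hall]
      simp
    · push Not at hall
      obtain ⟨l, hl, hd, hne⟩ := hall
      have hlm : l ∈ L.filter fun l => l ∣ m := by
        rw [mem_filter, hL, mem_filter, mem_Ioc]
        refine ⟨⟨⟨?_, ?_⟩, hl⟩, hd⟩
        · by_contra hc
          exact hne (hy l hl (by omega))
        · exact (Nat.le_of_dvd (by omega) hd).trans hm2
      have hc : (1 : ℝ) ≤ ((L.filter fun l => l ∣ m).card : ℝ) := by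
        exact_mod_cast Finset.card_pos.2 ⟨l, hlm⟩
      have := (abs_le.1 (H.le m)).1
      linarith
  have hsum := sum_le_sum hpt
  have hcount : (∑ m ∈ Icc 1 X, ((L.filter fun l => l ∣ m).card : ℝ)) ≤
      X * ∑ p ∈ L, (1 : ℝ) / p := by
    have e1 : (∑ m ∈ Icc 1 X, ((L.filter fun l => l ∣ m).card : ℝ)) =
        ∑ l ∈ L, (((Icc 1 X).filter fun m => l ∣ m).card : ℝ) := by
      simp only [Finset.card_filter, Nat.cast_sum]
      rw [sum_comm]
    rw [e1, mul_sum]
    refine sum_le_sum fun l hl => ?_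
    have hcard : ((Icc 1 X).filter fun m => l ∣ m).card = X / l := by
      have h := Nat.Ioc_filter_dvd_card_eq_div X l
      rw [← h]
      congr 1
    rw [hcard]
    have := @Nat.cast_div_le ℝ _ _ _ X l
    calc ((X / l : ℕ) : ℝ) ≤ (X : ℝ) / l := this
      _ = X * (1 / (l : ℝ)) := by ring
  have htot : (∑ m ∈ Icc 1 X, ((1 : ℝ) - 2 * ((L.filter fun l => l ∣ m).card : ℝ))) =
      X - 2 * ∑ m ∈ Icc 1 X, ((L.filter fun l => l ∣ m).card : ℝ) := by
    rw [sum_sub_distrib, ← mul_sum]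
    simp
  nlinarith [hsum, hcount, htot]

/-- the sum over the multiples of `p` -/
theorem sum_dvd (g : ℕ → ℝ) {p : ℕ} (hp : 0 < p) (M : ℕ) :
    ∑ m ∈ (Icc 1 M).filter (fun m => p ∣ m), g m = ∑ k ∈ Icc 1 (M / p), g (p * k) := by
  symm
  refine sum_bij (fun k _ => p * k) ?_ ?_ ?_ ?_
  · intro k hk
    rw [mem_Icc] at hk
    rw [mem_filter, mem_Icc]
    refine ⟨⟨Nat.mul_pos hp (by omega), ?_⟩, Dvd.intro _ rfl⟩
    have := (Nat.le_div_iff_mul_le hp).1 hk.2
    rwa [mul_comm]
  · intro a _ b _ hab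
    exact Nat.eq_of_mul_eq_mul_left hp hab
  · intro m hm
    rw [mem_filter, mem_Icc] at hm
    obtain ⟨k, rfl⟩ := hm.2
    refine ⟨k, ?_, rfl⟩
    rw [mem_Icc]
    refine ⟨Nat.pos_of_ne_zero ?_, ?_⟩
    · rintro rfl
      simp at hm
    · rw [Nat.le_div_iff_mul_le hp, mul_comm]
      exact hm.1.2
  · intro k _
    rfl

/-- changing the value at one prime to one -/
noncomputable def fix (p : ℕ) (h : ℕ → ℝ) (m : ℕ) : ℝ := h (ordCompl[p] m)

theorem fix_prime_self {p : ℕ} (hp : p.Prime) {h : ℕ → ℝ} (H : IsCM h) : fix p h p = 1 := by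
  unfold fix
  rw [hp.factorization_self, pow_one, Nat.div_self hp.pos]
  exact H.one

theorem fix_of_not_dvd {p : ℕ} {h : ℕ → ℝ} {m : ℕ} (hm : ¬ p ∣ m) : fix p h m = h m := by
  unfold fix
  rw [Nat.factorization_eq_zero_of_not_dvd hm, pow_zero, Nat.div_one]

theorem fix_mul_self {p : ℕ} (hp : p.Prime) {h : ℕ → ℝ} (m : ℕ) (hm : m ≠ 0) :
    fix p h (p * m) = fix p h m := by
  unfold fix
  rw [Nat.factorization_mul hp.ne_zero hm]
  congr 1
  simp only [Finsupp.add_apply, hp.factorization_self]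
  rw [pow_add, pow_one, Nat.mul_div_mul_left _ _ hp.pos]

theorem isCM_fix {p : ℕ} (_hp : p.Prime) {h : ℕ → ℝ} (H : IsCM h) : IsCM (fix p h) where
  one := by
    unfold fix
    simp [H.one]
  mul a b := by
    unfold fix
    rw [Nat.ordCompl_mul, H.mul]
  le a := H.le _

theorem sum_fix_le {p : ℕ} (hp : p.Prime) {h : ℕ → ℝ} (H : IsCM h) {N : ℕ} {B : ℝ}
    (hB : ∀ M ≤ N, |∑ m ∈ Icc 1 M, h m| ≤ B) :
    ∀ M ≤ N, |∑ m ∈ Icc 1 M, fix p h m| ≤ 2 * (Nat.log 2 M + 1) * B := by
  have hB0 : 0 ≤ B := (abs_nonneg _).trans (hB 0 (Nat.zero_le _))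
  intro M
  induction M using Nat.strong_induction_on with
  | _ M ih =>
    intro hM
    rcases Nat.eq_zero_or_pos M with h0 | hpos
    · subst h0
      simp
      positivity
    have e1 : ∑ m ∈ Icc 1 M, fix p h m =
        ∑ m ∈ (Icc 1 M).filter (fun m => p ∣ m), fix p h m +
          ∑ m ∈ (Icc 1 M).filter (fun m => ¬ p ∣ m), fix p h m :=
      (sum_filter_add_sum_filter_not _ _ _).symm
    have e2 : ∑ m ∈ (Icc 1 M).filter (fun m => ¬ p ∣ m), fix p h m =
        ∑ m ∈ (Icc 1 M).filter (fun m => ¬ p ∣ m), h m :=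
      sum_congr rfl fun m hm => fix_of_not_dvd (mem_filter.1 hm).2
    have e3 : ∑ m ∈ Icc 1 M, h m =
        ∑ m ∈ (Icc 1 M).filter (fun m => p ∣ m), h m +
          ∑ m ∈ (Icc 1 M).filter (fun m => ¬ p ∣ m), h m :=
      (sum_filter_add_sum_filter_not _ _ _).symm
    have e4 : ∑ m ∈ (Icc 1 M).filter (fun m => p ∣ m), h m =
        h p * ∑ k ∈ Icc 1 (M / p), h k := by
      rw [sum_dvd _ hp.pos, mul_sum]
      exact sum_congr rfl fun k _ => H.mul _ _
    have e5 : ∑ m ∈ (Icc 1 M).filter (fun m => p ∣ m), fix p h m =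
        ∑ k ∈ Icc 1 (M / p), fix p h k := by
      rw [sum_dvd _ hp.pos]
      refine sum_congr rfl fun k hk => fix_mul_self hp k ?_
      have := (mem_Icc.1 hk).1
      omega
    have hlt : M / p < M := Nat.div_lt_self hpos hp.one_lt
    have i1 := ih (M / p) hlt (hlt.le.trans hM)
    have i2 := hB (M / p) (hlt.le.trans hM)
    have i3 := hB M hM
    have hlog : (Nat.log 2 (M / p) : ℝ) + 1 ≤ Nat.log 2 M ∨ M < p := by
      by_cases hMp : M < p
      · exact Or.inr hMp
      · left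
        have h1 : Nat.log 2 (M / p) ≤ Nat.log 2 (M / 2) :=
          Nat.log_mono_right (Nat.div_le_div_left hp.two_le (by norm_num))
        have h2 : Nat.log 2 (M / 2) = Nat.log 2 M - 1 := Nat.log_div_base 2 M
        have h3 : 1 ≤ Nat.log 2 M := Nat.log_pos (by norm_num) (by have := hp.two_le; omega)
        have h4 : Nat.log 2 (M / p) + 1 ≤ Nat.log 2 M := by omega
        exact_mod_cast h4
    have hle := H.le p
    have i4 : |∑ m ∈ (Icc 1 M).filter (fun m => ¬ p ∣ m), h m| ≤ 2 * B := by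
      have e6 : ∑ m ∈ (Icc 1 M).filter (fun m => ¬ p ∣ m), h m =
          ∑ m ∈ Icc 1 M, h m - h p * ∑ k ∈ Icc 1 (M / p), h k := by
        rw [e3, e4]
        ring
      rw [e6]
      refine (abs_sub _ _).trans ?_
      rw [abs_mul]
      have : |h p| * |∑ k ∈ Icc 1 (M / p), h k| ≤ 1 * B := by gcongr
      linarith
    rw [e1, e2, e5]
    rcases hlog with h5 | h5
    · refine (abs_add_le _ _).trans ?_
      nlinarith
    · rw [Nat.div_eq_of_lt h5]
      simp only [Order.one_le_iff_pos, lt_self_iff_false, not_false_eq_true, Icc_eq_empty, sum_empty,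
        zero_add]
      refine i4.trans ?_
      have : (0 : ℝ) ≤ Nat.log 2 M := by positivity
      nlinarith

/-- **Changing the values at finitely many primes to one.** -/
theorem exists_fix (E : Finset ℕ) (hE : ∀ p ∈ E, p.Prime) {h : ℕ → ℝ} (H : IsCM h) {N : ℕ} {B : ℝ}
    (hB : ∀ M ≤ N, |∑ m ∈ Icc 1 M, h m| ≤ B) :
    ∃ g : ℕ → ℝ, IsCM g ∧ (∀ p ∈ E, g p = 1) ∧ (∀ q : ℕ, q.Prime → q ∉ E → g q = h q) ∧
      ∀ M ≤ N, |∑ m ∈ Icc 1 M, g m| ≤ (2 * (Nat.log 2 N + 1)) ^ E.card * B := by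
  classical
  induction E using Finset.induction_on with
  | empty => exact ⟨h, H, by simp, fun _ _ _ => rfl, by simpa using hB⟩
  | insert p E hpE ih =>
    obtain ⟨g, G, g1, g2, g3⟩ := ih fun q hq => hE q (mem_insert_of_mem hq)
    have hp := hE p (mem_insert_self _ _)
    refine ⟨fix p g, isCM_fix hp G, ?_, ?_, ?_⟩
    · intro q hq
      rcases mem_insert.1 hq with rfl | hq'
      · exact fix_prime_self hp G
      · have hqp : ¬ p ∣ q := by
          intro hd
          have := (Nat.prime_dvd_prime_iff_eq hp (hE q hq)).1 hd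
          exact hpE (this ▸ hq')
        rw [fix_of_not_dvd hqp]
        exact g1 q hq'
    · intro q hq hqE
      rw [mem_insert, not_or] at hqE
      have hqp : ¬ p ∣ q := by
        intro hd
        exact hqE.1 ((Nat.prime_dvd_prime_iff_eq hp hq).1 hd).symm
      rw [fix_of_not_dvd hqp]
      exact g2 q hq hqE.2
    · intro M hM
      have h1 := sum_fix_le hp G g3 M hM
      refine h1.trans ?_
      rw [card_insert_of_notMem hpE, pow_succ]
      have hB0 : 0 ≤ B := (abs_nonneg _).trans (hB 0 (Nat.zero_le _))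
      have h2 : (Nat.log 2 M : ℝ) ≤ Nat.log 2 N := by exact_mod_cast Nat.log_mono_right hM
      have h3 : 2 * ((Nat.log 2 M : ℝ) + 1) * ((2 * (Nat.log 2 N + 1)) ^ E.card * B) ≤
          2 * ((Nat.log 2 N : ℝ) + 1) * ((2 * (Nat.log 2 N + 1)) ^ E.card * B) := by
        gcongr
      refine h3.trans (le_of_eq ?_)
      ring

end Pool.Agent.X311.Rc
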