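import Pool.Agent.X311.Rc1
import Pool.Agent.X311.Rc2
import Pool.Agent.Helper919.Char
import Pool.Agent.H38R2.CG.PV

/-!
# The character of the discriminant
-/

set_option autoImplicit false

namespace Pool.Agent.X311.Rc

open Finset Pool.Agent.X311.Rb Pool.Agent.Helper919

theorem isCM_XX (D : ℤ) : IsCM (fun m => XX D m) where
  one := XX_one D
  mul := XX_mul D
  le := XX_abs_le D

/-- the inequality of Pólya and Vinogradov for the character of `ℚ(√D)` -/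
theorem pv {D : ℤ} (hD0 : D ≠ 0) (hs : ¬ IsSquare D) (M : ℕ) :
    |∑ m ∈ Icc 1 M, XX D m| ≤
      4 * √((4 * D.natAbs : ℕ) : ℝ) * (1 + Real.log ((4 * D.natAbs : ℕ) : ℝ)) := by
  have hpos := Int.natAbs_pos.2 hD0
  have h := Pool.Agent.H38R2.CG.PVh.sum_le (4 * D.natAbs) (psi D hD0) (by omega)
    (psi_ne_one D hD0 hs) M
  have e : ∑ m ∈ Icc 1 M, psi D hD0 (m : ZMod (4 * D.natAbs)) =
      ((∑ m ∈ Icc 1 M, XX D m : ℝ) : ℂ) := by
    push_cast
    exact sum_congr rfl fun m _ => psi_apply D hD0 m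
  rw [e, Complex.norm_real, Real.norm_eq_abs] at h
  exact h

section
variable {n : ℕ} {c₁ c₂ : ℤ}

/-- the odd exceptional primes -/
theorem exceptional_le (h0 : IsChernData n c₁ c₂) (hs : ¬ IsSquare (disc c₁ c₂)) {f : ℕ} {D : ℤ}
    (hf : f ≠ 0) (hD : Squarefree D) (hΔ : disc c₁ c₂ = (f : ℤ) ^ 2 * D) (T : Finset ℕ)
    (hT : ∀ p ∈ T, p.Prime ∧ p ≠ 2 ∧ XX D p ≠ 1 ∧ 2 * p < n) :
    n ^ T.card ≤ (2 * Nat.log 2 (disc c₁ c₂).natAbs) ^ T.card * (disc c₁ c₂).natAbs := by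
  have hQ : (disc c₁ c₂).natAbs = f ^ 2 * D.natAbs := by
    rw [hΔ, Int.natAbs_mul, Int.natAbs_pow, Int.natAbs_natCast]
  have hD0 : D.natAbs ≠ 0 := by
    rw [Int.natAbs_ne_zero]
    exact hD.ne_zero
  set Q := (disc c₁ c₂).natAbs with hQdef
  have hfQ : f ^ 2 ≤ Q := by
    rw [hQ]
    exact Nat.le_mul_of_pos_right _ (Nat.pos_of_ne_zero hD0)
  have hterm : ∀ p ∈ T, n ≤ 2 * Nat.log 2 Q * (p ^ f.factorization p) ^ 2 := by
    intro p hp
    obtain ⟨hp1, hp2, hp3, hp4⟩ := hT p hp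
    have hj : jacobiSym D p ≠ 1 := by
      intro h1
      apply hp3
      rw [XX_apply, if_pos (hp1.odd_of_ne_two hp2), h1]
      norm_num
    have h1 := le_of_jacobi h0 hs hf hD hΔ hp1 hp2 hj
    set v := f.factorization p with hv
    have hv1 : 1 ≤ v := by
      by_contra hcon
      have : v = 0 := by omega
      rw [this] at h1
      simp at h1
      omega
    have h2 : 2 ^ (2 * v) ≤ Q := by
      calc 2 ^ (2 * v) ≤ p ^ (2 * v) := Nat.pow_le_pow_left hp1.two_le _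
        _ = (p ^ v) ^ 2 := by rw [← pow_mul, mul_comm]
        _ ≤ f ^ 2 := Nat.pow_le_pow_left (Nat.le_of_dvd (Nat.pos_of_ne_zero hf) (Nat.ordProj_dvd f p)) 2
        _ ≤ Q := hfQ
    have h3 : 2 * v ≤ Nat.log 2 Q := by
      have : Q ≠ 0 := by
        have : 0 < 2 ^ (2 * v) := by positivity
        omega
      exact (Nat.le_log_iff_pow_le (by norm_num) this).2 h2
    calc n ≤ 2 * (v + 1) * p ^ (v + 1) := h1
      _ ≤ 2 * Nat.log 2 Q * p ^ (2 * v) := by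
          refine Nat.mul_le_mul (Nat.mul_le_mul_left 2 (by omega)) ?_
          exact Nat.pow_le_pow_right hp1.pos (by omega)
      _ = 2 * Nat.log 2 Q * (p ^ v) ^ 2 := by rw [← pow_mul, mul_comm v 2]
  have h4 : n ^ T.card ≤ ∏ p ∈ T, (2 * Nat.log 2 Q * (p ^ f.factorization p) ^ 2) := by
    rw [← prod_const]
    exact prod_le_prod' fun p hp => hterm p hp
  rw [prod_mul_distrib, prod_const, prod_pow] at h4
  refine h4.trans (Nat.mul_le_mul_left _ (le_trans (Nat.pow_le_pow_left ?_ 2) hfQ))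
  -- the product of the prime powers divides `f`
  refine Nat.le_of_dvd (Nat.pos_of_ne_zero hf) ?_
  refine Finset.prod_dvd_of_isRelPrime ?_ fun p _ => Nat.ordProj_dvd f p
  intro p hp q hq hpq
  exact Nat.coprime_iff_isRelPrime.1 (Nat.coprime_pow_primes _ _ (hT p hp).1 (hT q hq).1 hpq)

/-- the number of the exceptional primes -/
theorem card_le (h0 : IsChernData n c₁ c₂) (hs : ¬ IsSquare (disc c₁ c₂)) {f : ℕ} {D : ℤ}
    (hf : f ≠ 0) (hD : Squarefree D) (hΔ : disc c₁ c₂ = (f : ℤ) ^ 2 * D)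
    (hbig : (2 * Nat.log 2 (disc c₁ c₂).natAbs) ^ 4 * (disc c₁ c₂).natAbs < n ^ 4) {y : ℕ}
    (hy : 2 * y < n) :
    ((Icc 1 y).filter fun p => p.Prime ∧ XX D p ≠ 1).card ≤ 4 := by
  classical
  by_contra hcon
  push Not at hcon
  set E := (Icc 1 y).filter fun p => p.Prime ∧ XX D p ≠ 1 with hE
  have h1 : 4 ≤ (E.erase 2).card := by
    have := Finset.pred_card_le_card_erase (s := E) (a := 2)
    omega
  obtain ⟨T, hT1, hT2⟩ := Finset.exists_subset_card_eq h1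
  have h2 := exceptional_le h0 hs hf hD hΔ T (by
    intro p hp
    have h3 := hT1 hp
    rw [mem_erase, hE, mem_filter, mem_Icc] at h3
    exact ⟨h3.2.2.1, h3.1, h3.2.2.2, by omega⟩)
  rw [hT2] at h2
  omega

/-- **The main inequality.** -/
theorem main_ineq (h0 : IsChernData n c₁ c₂) (hs : ¬ IsSquare (disc c₁ c₂))
    (hbig : (2 * Nat.log 2 (disc c₁ c₂).natAbs) ^ 4 * (disc c₁ c₂).natAbs < n ^ 4) {y : ℕ}
    (hy : 2 * y < n) (N : ℕ) :
    (N : ℝ) * (1 - 2 * ∑ p ∈ (Ioc y N).filter Nat.Prime, (1 : ℝ) / p) ≤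
      (2 * (Nat.log 2 N + 1)) ^ 4 * (4 * √(4 * ((disc c₁ c₂).natAbs : ℝ)) *
        (1 + Real.log (4 * ((disc c₁ c₂).natAbs : ℝ)))) := by
  have hΔ0 : disc c₁ c₂ ≠ 0 := by
    intro h3
    exact hs (by rw [h3]; exact ⟨0, by norm_num⟩)
  obtain ⟨a, f, hfa, ha⟩ := Nat.sq_mul_squarefree (disc c₁ c₂).natAbs
  have hf : f ≠ 0 := by
    rintro rfl
    apply hΔ0
    rw [← Int.natAbs_eq_zero, ← hfa]
    simp
  obtain ⟨D, hD1, hΔ⟩ : ∃ D : ℤ, D.natAbs = a ∧ disc c₁ c₂ = (f : ℤ) ^ 2 * D := by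
    rcases Int.natAbs_eq (disc c₁ c₂) with h1 | h1
    · refine ⟨a, by simp, ?_⟩
      rw [h1, ← hfa]
      push_cast
      ring
    · refine ⟨-a, by simp, ?_⟩
      rw [h1, ← hfa]
      push_cast
      ring
  have hD : Squarefree D := by
    rw [← Int.squarefree_natAbs, hD1]
    exact ha
  have hD0 : D ≠ 0 := hD.ne_zero
  have hDs : ¬ IsSquare D := by
    rintro ⟨w, hw⟩
    apply hs
    rw [hΔ, hw]
    exact ⟨f * w, by ring⟩
  classical
  set E := (Icc 1 y).filter fun p => p.Prime ∧ XX D p ≠ 1 with hE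
  have hcard : E.card ≤ 4 := card_le h0 hs hf hD hΔ hbig hy
  obtain ⟨g, G, g1, g2, g3⟩ := exists_fix E (fun p hp => ((mem_filter.1 hp).2).1) (isCM_XX D)
    (N := N) (fun M _ => pv hD0 hDs M)
  have hgood : ∀ l : ℕ, l.Prime → l ≤ y → g l = 1 := by
    intro l hl hly
    by_cases hlE : l ∈ E
    · exact g1 l hlE
    · rw [g2 l hl hlE]
      by_contra hne
      exact hlE (by rw [hE, mem_filter, mem_Icc]; exact ⟨⟨hl.one_le, hly⟩, hl, hne⟩)
  have h1 := G.le_sum y N hgood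
  have h2 := (le_abs_self _).trans (g3 N le_rfl)
  refine (h1.trans h2).trans ?_
  have hDQ : (D.natAbs : ℝ) ≤ ((disc c₁ c₂).natAbs : ℝ) := by
    have : D.natAbs ≤ (disc c₁ c₂).natAbs := by
      rw [hD1, ← hfa]
      exact Nat.le_mul_of_pos_left _ (by positivity)
    exact_mod_cast this
  have hD1' : (1 : ℝ) ≤ D.natAbs := by exact_mod_cast Int.natAbs_pos.2 hD0
  have h3 : (4 : ℝ) * √((4 * D.natAbs : ℕ) : ℝ) * (1 + Real.log ((4 * D.natAbs : ℕ) : ℝ)) ≤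
      4 * √(4 * ((disc c₁ c₂).natAbs : ℝ)) * (1 + Real.log (4 * ((disc c₁ c₂).natAbs : ℝ))) := by
    push_cast
    have h4 : 0 ≤ Real.log (4 * (D.natAbs : ℝ)) := Real.log_nonneg (by linarith)
    gcongr
  have h5 : ((2 : ℝ) * (Nat.log 2 N + 1)) ^ E.card ≤ (2 * (Nat.log 2 N + 1)) ^ 4 := by
    refine pow_le_pow_right₀ ?_ hcard
    have : (0 : ℝ) ≤ Nat.log 2 N := by positivity
    linarith
  have h6 : (0 : ℝ) ≤ 4 * √((4 * D.natAbs : ℕ) : ℝ) * (1 + Real.log ((4 * D.natAbs : ℕ) : ℝ)) := by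
    push_cast
    have h4 : 0 ≤ Real.log (4 * (D.natAbs : ℝ)) := Real.log_nonneg (by linarith)
    positivity
  exact mul_le_mul h5 h3 h6 (by positivity)

end

end Pool.Agent.X311.Rc
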