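import Pool.Agent.X311.Rc3

/-!
# The dimension is at most a small power of the discriminant
-/

set_option autoImplicit false
set_option maxHeartbeats 4000000

namespace Pool.Agent.X311.Rc

open Finset Filter Pool.Agent.X311.Rb

theorem log_pow_le (K c η : ℝ) (k : ℕ) (hc : 0 < c) (hη : 0 < η) :
    ∀ᶠ x : ℝ in atTop, K * Real.log x ^ k < c * x ^ η := by
  have h1 := (isLittleO_log_rpow_rpow_atTop (s := η) (k : ℝ) hη).def
    (c := c / (2 * (|K| + 1))) (by positivity)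
  filter_upwards [h1, eventually_ge_atTop 1] with x hx hx1
  have hl : 0 ≤ Real.log x := Real.log_nonneg hx1
  rw [Real.norm_of_nonneg (by positivity), Real.norm_of_nonneg (by positivity),
    Real.rpow_natCast] at hx
  have hxp : 0 < x ^ η := by positivity
  have h2 : K * Real.log x ^ k ≤ |K| * Real.log x ^ k := by
    gcongr
    exact le_abs_self K
  have h3 : |K| * Real.log x ^ k ≤ |K| * (c / (2 * (|K| + 1)) * x ^ η) := by gcongr
  have h4 : |K| * (c / (2 * (|K| + 1)) * x ^ η) ≤ c / 2 * x ^ η := by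
    have e : |K| * (c / (2 * (|K| + 1)) * x ^ η) = (|K| / (|K| + 1)) * (c / 2 * x ^ η) := by
      field_simp
    rw [e]
    have h5 : |K| / (|K| + 1) ≤ 1 := by
      rw [div_le_one (by positivity)]
      linarith
    have h6 : 0 ≤ c / 2 * x ^ η := by positivity
    nlinarith
  have h7 : c / 2 * x ^ η < c * x ^ η := by
    have : c / 2 < c := by linarith
    gcongr
  linarith

theorem exp_half_lt : Real.exp (1 / 2) < 5 / 3 := by
  have h1 : Real.exp (1 / 2) ^ 2 = Real.exp 1 := by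
    rw [← Real.exp_nat_mul]
    norm_num
  have h2 := Real.exp_one_lt_d9
  by_contra hcon
  push Not at hcon
  have h3 : (5 / 3 : ℝ) ^ 2 ≤ Real.exp (1 / 2) ^ 2 := pow_le_pow_left₀ (by norm_num) hcon 2
  rw [h1] at h3
  norm_num at h3
  linarith

theorem natLog_le {Q : ℕ} {A : ℝ} (hA : 0 ≤ A) (h : Real.log Q ≤ A) : (Nat.log 2 Q : ℝ) ≤ 2 * A := by
  have h5 := Real.natLog_le_logb Q 2
  have h6 : Real.logb 2 Q ≤ 2 * A := by
    rw [Real.logb, div_le_iff₀ (Real.log_pos (by norm_num))]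
    have h7 := Real.log_two_gt_d9
    have h8 : 1 * A ≤ (2 * Real.log 2) * A := mul_le_mul_of_nonneg_right (by linarith) hA
    linarith
  exact_mod_cast h5.trans h6

theorem large (ε : ℝ) (hε : 0 < ε) (hε1 : ε ≤ 1 / 8) : ∃ Q₀ : ℕ, ∀ (n : ℕ) (c₁ c₂ : ℤ),
    IsChernData n c₁ c₂ → ¬ IsSquare (disc c₁ c₂) → Q₀ ≤ (disc c₁ c₂).natAbs →
      (n : ℝ) ≤ ((disc c₁ c₂).natAbs : ℝ) ^ (1 / (2 * Real.exp (1 / 2)) + ε) := by
  have hs1 : 1 < Real.exp (1 / 2) := Real.one_lt_exp_iff.mpr (by norm_num)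
  have hs0 : 0 < Real.exp (1 / 2) := Real.exp_pos _
  have hs2 := exp_half_lt
  obtain ⟨b, hb⟩ : ∃ b, b = 1 / (2 * Real.exp (1 / 2)) + ε := ⟨_, rfl⟩
  obtain ⟨b₁, hb₁⟩ : ∃ b₁, b₁ = 1 / (2 * Real.exp (1 / 2)) + ε / 2 := ⟨_, rfl⟩
  obtain ⟨η, hη⟩ : ∃ η, η = ε / 4 := ⟨_, rfl⟩
  have hη0 : 0 < η := by rw [hη]; positivity
  have hb03 : (3 : ℝ) / 10 < 1 / (2 * Real.exp (1 / 2)) := by
    rw [lt_div_iff₀ (by positivity)]
    linarith
  have hb₁0 : 3 / 10 < b₁ := by rw [hb₁]; linarith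
  have hb0 : 3 / 10 < b := by rw [hb]; linarith
  have hrho : Real.log ((1 / 2 + 2 * η) / b₁) < 1 / 2 := by
    rw [Real.log_lt_iff_lt_exp (by positivity), div_lt_iff₀ (by linarith)]
    have e1 : Real.exp (1 / 2) * b₁ = 1 / 2 + Real.exp (1 / 2) * (ε / 2) := by
      rw [hb₁]
      field_simp
    rw [e1, hη]
    nlinarith [mul_pos (sub_pos.mpr hs1) hε]
  obtain ⟨γ, hγ⟩ : ∃ γ, γ = 1 / 2 - Real.log ((1 / 2 + 2 * η) / b₁) := ⟨_, rfl⟩
  have hγ0 : 0 < γ := by rw [hγ]; linarith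
  obtain ⟨C, hC0, hC⟩ := Pool.Agent.Helper923.HMertens.mertens_ratio
  have ev1 := log_pow_le (6 ^ 4 * 24) γ η 5 hγ0 hη0
  have ev2 := log_pow_le (4 ^ 4) 1 (1 / 5) 4 one_pos (by norm_num)
  have ev3 : ∀ᶠ x : ℝ in atTop, max (max (Real.log 2 / η) (2 * Real.log 3 / ε))
      (max (2 * C / (γ * b₁)) 10) ≤ Real.log x :=
    Real.tendsto_log_atTop.eventually_ge_atTop _
  have ev := ((tendsto_natCast_atTop_atTop (R := ℝ)).eventually (ev1.and (ev2.and ev3))).and
    (eventually_ge_atTop 1)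
  obtain ⟨Q₀, hQ₀⟩ := eventually_atTop.1 ev
  refine ⟨Q₀, fun n c₁ c₂ h0 hs hQ => ?_⟩
  obtain ⟨⟨h1, h2, h3⟩, hQ1⟩ := hQ₀ _ hQ
  set Q := (disc c₁ c₂).natAbs with hQdef
  rw [← hb]
  by_contra hcon
  push Not at hcon
  have hL1 : Real.log 2 / η ≤ Real.log Q :=
    ((le_max_left _ _).trans (le_max_left _ _)).trans h3
  have hL2 : 2 * Real.log 3 / ε ≤ Real.log Q :=
    ((le_max_right _ _).trans (le_max_left _ _)).trans h3
  have hL3 : 2 * C / (γ * b₁) ≤ Real.log Q :=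
    ((le_max_left _ _).trans (le_max_right _ _)).trans h3
  have hL4 : 10 ≤ Real.log Q := ((le_max_right _ _).trans (le_max_right _ _)).trans h3
  have hQr : (1 : ℝ) ≤ Q := by exact_mod_cast hQ1
  have hQpos : (0 : ℝ) < Q := by linarith
  have hn0 : (0 : ℝ) < n := lt_of_le_of_lt (by positivity) hcon
  have hlogn : b * Real.log Q < Real.log n := by
    have := Real.log_lt_log (Real.rpow_pos_of_pos hQpos b) hcon
    rwa [Real.log_rpow hQpos] at this
  have hn6 : 6 ≤ n := by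
    by_contra hlt
    have h5 : (n : ℝ) ≤ 5 := by exact_mod_cast (by omega : n ≤ 5)
    have h6 : Real.log n ≤ Real.log 5 := Real.log_le_log hn0 h5
    have h7 : Real.log 5 ≤ 5 - 1 := Real.log_le_sub_one_of_pos (by norm_num)
    have h8 : Real.log (5 : ℝ) ≤ 2 := by
      have : (5 : ℝ) ≤ Real.exp 2 := by
        have h9 : Real.exp 2 = Real.exp 1 ^ 2 := by
          rw [← Real.exp_nat_mul]
          norm_num
        have h10 := Real.exp_one_gt_d9
        have h11 : (2.7 : ℝ) ^ 2 ≤ Real.exp 1 ^ 2 := pow_le_pow_left₀ (by norm_num) (by linarith) 2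
        rw [h9]
        norm_num at h11 ⊢
        linarith
      calc Real.log 5 ≤ Real.log (Real.exp 2) := Real.log_le_log (by norm_num) this
        _ = 2 := Real.log_exp 2
    nlinarith
  -- the parameter `y`
  obtain ⟨y, hy⟩ : ∃ y, y = (n - 1) / 2 := ⟨_, rfl⟩
  have hy2n : 2 * y < n := by omega
  have hy3 : n ≤ 3 * y := by omega
  have hy2 : 2 ≤ y := by omega
  have hypos : (0 : ℝ) < y := by exact_mod_cast (by omega : 0 < y)
  have hlogy : b₁ * Real.log Q < Real.log y := by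
    have h5 : (n : ℝ) ≤ 3 * y := by exact_mod_cast hy3
    have h6 : Real.log n ≤ Real.log 3 + Real.log y := by
      rw [← Real.log_mul (by norm_num) hypos.ne']
      exact Real.log_le_log hn0 h5
    have h7 : Real.log 3 ≤ ε / 2 * Real.log Q := by
      rw [div_le_iff₀ hε] at hL2
      linarith
    have h8 : b * Real.log Q = b₁ * Real.log Q + ε / 2 * Real.log Q := by
      rw [hb, hb₁]
      ring
    linarith
  have hlogypos : 0 < Real.log y := by
    have : 0 < b₁ * Real.log Q := by positivity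
    linarith
  -- the parameter `N`
  obtain ⟨N, hN⟩ : ∃ N : ℕ, N = ⌈(Q : ℝ) ^ (1 / 2 + η)⌉₊ := ⟨_, rfl⟩
  have hN1 : (Q : ℝ) ^ (1 / 2 + η) ≤ N := by rw [hN]; exact Nat.le_ceil _
  have hNpow : (N : ℝ) ≤ (Q : ℝ) ^ (1 / 2 + 2 * η) := by
    have h5 : (N : ℝ) ≤ (Q : ℝ) ^ (1 / 2 + η) + 1 := by
      rw [hN]; exact (Nat.ceil_lt_add_one (by positivity)).le
    have h6 : (1 : ℝ) ≤ (Q : ℝ) ^ (1 / 2 + η) := Real.one_le_rpow hQr (by positivity)
    have h7 : (2 : ℝ) ≤ (Q : ℝ) ^ η := by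
      rw [div_le_iff₀ hη0] at hL1
      rw [Real.rpow_def_of_pos hQpos]
      calc (2 : ℝ) = Real.exp (Real.log 2) := (Real.exp_log (by norm_num)).symm
        _ ≤ Real.exp (Real.log Q * η) := Real.exp_le_exp.mpr hL1
    have h8 : (Q : ℝ) ^ (1 / 2 + 2 * η) = (Q : ℝ) ^ η * (Q : ℝ) ^ (1 / 2 + η) := by
      rw [← Real.rpow_add hQpos]; congr 1; ring
    rw [h8]
    nlinarith
  have hNpos : (0 : ℝ) < N := lt_of_lt_of_le (Real.rpow_pos_of_pos hQpos _) hN1
  have hNone : (1 : ℝ) ≤ N := (Real.one_le_rpow hQr (by positivity)).trans hN1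
  have hlogN : Real.log N ≤ (1 / 2 + 2 * η) * Real.log Q := by
    have := Real.log_le_log hNpos hNpow
    rwa [Real.log_rpow hQpos] at this
  have hlogN0 : 0 ≤ Real.log N := Real.log_nonneg hNone
  -- the condition for the number of exceptional primes
  have hlog2Q : (Nat.log 2 Q : ℝ) ≤ 2 * Real.log Q := natLog_le (by linarith) le_rfl
  have hbig : (2 * Nat.log 2 Q) ^ 4 * Q < n ^ 4 := by
    have h5 : ((2 * Nat.log 2 Q : ℕ) : ℝ) ^ 4 ≤ 4 ^ 4 * Real.log Q ^ 4 := by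
      rw [← mul_pow]
      push_cast
      exact pow_le_pow_left₀ (by positivity) (by linarith) 4
    have h6 : (Q : ℝ) ^ (1 / 5 : ℝ) * Q = (Q : ℝ) ^ (6 / 5 : ℝ) := by
      nth_rewrite 2 [← Real.rpow_one (Q : ℝ)]
      rw [← Real.rpow_add hQpos]
      norm_num
    have h7 : (Q : ℝ) ^ (6 / 5 : ℝ) ≤ ((Q : ℝ) ^ b) ^ 4 := by
      rw [← Real.rpow_natCast, ← Real.rpow_mul hQpos.le]
      refine Real.rpow_le_rpow_of_exponent_le hQr ?_
      push_cast
      linarith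
    have h8 : ((Q : ℝ) ^ b) ^ 4 < (n : ℝ) ^ 4 := pow_lt_pow_left₀ hcon (by positivity) (by norm_num)
    have h9 : (((2 * Nat.log 2 Q) ^ 4 * Q : ℕ) : ℝ) < ((n ^ 4 : ℕ) : ℝ) := by
      push_cast at h5 ⊢
      calc (2 * (Nat.log 2 Q : ℝ)) ^ 4 * Q ≤ 4 ^ 4 * Real.log Q ^ 4 * Q := by gcongr
        _ ≤ 1 * (Q : ℝ) ^ (1 / 5 : ℝ) * Q := by gcongr
        _ = (Q : ℝ) ^ (6 / 5 : ℝ) := by rw [one_mul, h6]
        _ ≤ _ := h7
        _ < _ := h8
    exact_mod_cast h9
  have hmain := main_ineq h0 hs hbig hy2n N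
  -- the sum over primes
  have hsum : ∑ p ∈ (Ioc y N).filter Nat.Prime, (1 : ℝ) / p ≤ 1 / 2 - γ / 2 := by
    rcases le_or_gt N y with hNy | hNy
    · rw [Finset.Ioc_eq_empty_of_le hNy, Finset.filter_empty, Finset.sum_empty]
      have : 0 ≤ Real.log ((1 / 2 + 2 * η) / b₁) := by
        refine Real.log_nonneg ?_
        rw [le_div_iff₀ (by linarith), hη, hb₁]
        have h5 : 1 / (2 * Real.exp (1 / 2)) ≤ 1 / 2 := by
          refine one_div_le_one_div_of_le (by norm_num) ?_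
          linarith
        linarith
      rw [hγ]
      linarith
    · have hm2 := (abs_le.mp (hC y N hy2 hNy.le)).2
      have hlogNpos : 0 < Real.log N := by
        apply Real.log_pos
        have : 1 < N := by omega
        exact_mod_cast this
      have hratio : Real.log N / Real.log y ≤ (1 / 2 + 2 * η) / b₁ := by
        rw [div_le_div_iff₀ hlogypos (by linarith)]
        calc Real.log N * b₁ ≤ ((1 / 2 + 2 * η) * Real.log Q) * b₁ := by gcongr
          _ = (1 / 2 + 2 * η) * (b₁ * Real.log Q) := by ring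
          _ ≤ (1 / 2 + 2 * η) * Real.log y := by gcongr
      have hlr : Real.log (Real.log N / Real.log y) ≤ 1 / 2 - γ := by
        rw [hγ]
        have := Real.log_le_log (div_pos hlogNpos hlogypos) hratio
        linarith
      have hCy : C / Real.log y ≤ γ / 2 := by
        rw [div_le_iff₀ hlogypos]
        have h5 : 2 * C ≤ Real.log Q * (γ * b₁) := by
          rwa [div_le_iff₀ (by positivity)] at hL3
        nlinarith [mul_lt_mul_of_pos_left hlogy hγ0]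
      linarith
  -- the end
  have hlog2N : (Nat.log 2 N : ℝ) ≤ 2 * Real.log Q := by
    refine natLog_le (by linarith) (hlogN.trans ?_)
    have h7 : (1 / 2 + 2 * η) * Real.log Q ≤ 1 * Real.log Q := by
      gcongr
      rw [hη]
      linarith
    linarith
  have hlog4Q : Real.log (4 * (Q : ℝ)) ≤ 2 * Real.log Q := by
    rw [Real.log_mul (by norm_num) hQpos.ne']
    have : Real.log 4 ≤ 4 - 1 := Real.log_le_sub_one_of_pos (by norm_num)
    linarith
  have hsqrt : √(4 * (Q : ℝ)) = 2 * (Q : ℝ) ^ (1 / 2 : ℝ) := by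
    rw [Real.sqrt_mul (by norm_num), ← Real.sqrt_eq_rpow]
    congr 1
    rw [show (4 : ℝ) = 2 ^ 2 by norm_num]
    exact Real.sqrt_sq (by norm_num)
  have hl4Q : 0 ≤ Real.log (4 * (Q : ℝ)) := Real.log_nonneg (by linarith)
  have hR : (2 * ((Nat.log 2 N : ℝ) + 1)) ^ 4 * (4 * √(4 * (Q : ℝ)) *
        (1 + Real.log (4 * (Q : ℝ)))) ≤ (6 * Real.log Q) ^ 4 * (4 * (2 * (Q : ℝ) ^ (1 / 2 : ℝ)) *
        (3 * Real.log Q)) := by
    rw [hsqrt]
    refine mul_le_mul (pow_le_pow_left₀ (by positivity) (by linarith) 4)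
      (mul_le_mul_of_nonneg_left (by linarith) (by positivity)) (by positivity) (by positivity)
  have hR2 : (6 * Real.log Q) ^ 4 * (4 * (2 * (Q : ℝ) ^ (1 / 2 : ℝ)) * (3 * Real.log Q)) =
      (6 ^ 4 * 24 * Real.log Q ^ 5) * (Q : ℝ) ^ (1 / 2 : ℝ) := by ring
  have hfin : (6 ^ 4 * 24 * Real.log Q ^ 5) * (Q : ℝ) ^ (1 / 2 : ℝ) < γ * (Q : ℝ) ^ (1 / 2 + η) := by
    have e : γ * (Q : ℝ) ^ (1 / 2 + η) = (γ * (Q : ℝ) ^ η) * (Q : ℝ) ^ (1 / 2 : ℝ) := by
      rw [mul_assoc, ← Real.rpow_add hQpos, add_comm η]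
    rw [e]
    have : 0 < (Q : ℝ) ^ (1 / 2 : ℝ) := by positivity
    gcongr
  have hleft : γ * (Q : ℝ) ^ (1 / 2 + η) ≤
      (N : ℝ) * (1 - 2 * ∑ p ∈ (Ioc y N).filter Nat.Prime, (1 : ℝ) / p) := by
    calc γ * (Q : ℝ) ^ (1 / 2 + η) ≤ γ * N := by gcongr
      _ = N * γ := mul_comm _ _
      _ ≤ _ := by
        gcongr
        linarith
  linarith [hmain, hR, hR2, hfin, hleft]

end Pool.Agent.X311.Rc
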