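import Pool.Agent.W27.BG.Good
import Pool.Agent.H471R4.BW.Stubs

/-!
# Complete sums of products of shifts of the Jacobi symbol modulo a squarefree number
-/

set_option autoImplicit false
set_option maxHeartbeats 4000000

namespace Pool.Agent.X311.Rd

open Finset

/-- sums of products of periodic functions -/
theorem sum_mul_periodic {a b : ℕ} (ha : 0 < a) (hb : 0 < b) (hab : Nat.Coprime a b) (f g : ℕ → ℝ)
    (hf : ∀ x, f (x % a) = f x) (hg : ∀ x, g (x % b) = g x) :
    ∑ x ∈ range (a * b), f x * g x = (∑ x ∈ range a, f x) * ∑ x ∈ range b, g x := by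
  rw [sum_mul_sum, ← sum_product']
  refine sum_bij' (fun x _ => (x % a, x % b))
    (fun w _ => (Nat.chineseRemainder hab w.1 w.2 : ℕ)) ?_ ?_ ?_ ?_ ?_
  · intro x _
    rw [mem_product, mem_range, mem_range]
    exact ⟨Nat.mod_lt _ ha, Nat.mod_lt _ hb⟩
  · intro w _
    rw [mem_range]
    exact Nat.chineseRemainder_lt_mul hab w.1 w.2 ha.ne' hb.ne'
  · intro x hx
    rw [mem_range] at hx
    have h1 := (Nat.chineseRemainder hab (x % a) (x % b)).2
    have h2 : (Nat.chineseRemainder hab (x % a) (x % b) : ℕ) ≡ x [MOD a * b] := by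
      rw [← Nat.modEq_and_modEq_iff_modEq_mul hab]
      exact ⟨h1.1.trans (Nat.mod_modEq x a), h1.2.trans (Nat.mod_modEq x b)⟩
    exact Nat.ModEq.eq_of_lt_of_lt h2 (Nat.chineseRemainder_lt_mul hab _ _ ha.ne' hb.ne') hx
  · intro w hw
    rw [mem_product, mem_range, mem_range] at hw
    have h1 := (Nat.chineseRemainder hab w.1 w.2).2
    have h2 : (Nat.chineseRemainder hab w.1 w.2 : ℕ) % a = w.1 := by
      rw [h1.1, Nat.mod_eq_of_lt hw.1]
    have h3 : (Nat.chineseRemainder hab w.1 w.2 : ℕ) % b = w.2 := by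
      rw [h1.2, Nat.mod_eq_of_lt hw.2]
    exact Prod.ext h2 h3
  · intro x _
    simp only
    rw [hf, hg]

theorem prod_periodic {ι : Type} (s : Finset ι) (f : ι → ℕ → ℝ) (m : ι → ℕ) {b : ℕ}
    (hb : ∀ i ∈ s, m i ∣ b) (hf : ∀ i ∈ s, ∀ x, f i (x % m i) = f i x) (x : ℕ) :
    ∏ i ∈ s, f i (x % b) = ∏ i ∈ s, f i x := by
  refine prod_congr rfl fun i hi => ?_
  rw [← hf i hi (x % b), Nat.mod_mod_of_dvd _ (hb i hi), hf i hi]

/-- sums of products of several periodic functions with different prime periods -/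
theorem sum_prod_periodic (P : Finset ℕ) (hP : ∀ p ∈ P, p.Prime) {q : ℕ} (hq : 0 < q)
    (hqP : ∀ p ∈ P, ¬ p ∣ q) (u : ℕ → ℝ) (hu : ∀ x, u (x % q) = u x) (f : ℕ → ℕ → ℝ)
    (hf : ∀ p ∈ P, ∀ x, f p (x % p) = f p x) :
    ∑ x ∈ range (q * ∏ p ∈ P, p), u x * ∏ p ∈ P, f p x =
      (∑ x ∈ range q, u x) * ∏ p ∈ P, ∑ x ∈ range p, f p x := by
  induction P using Finset.induction_on generalizing q u with
  | empty => simp
  | insert p P hpP ih =>
    have hp := hP p (mem_insert_self _ _)
    rw [prod_insert hpP, prod_insert hpP]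
    have h1 : q * (p * ∏ p ∈ P, p) = (q * p) * ∏ p ∈ P, p := by ring
    have h2 : ∀ x, u x * ∏ q ∈ insert p P, f q x = (u x * f p x) * ∏ q ∈ P, f q x := by
      intro x
      rw [prod_insert hpP]
      ring
    simp only [h2]
    rw [h1, ih (fun q hq => hP q (mem_insert_of_mem hq)) (Nat.mul_pos hq hp.pos) ?_
      (fun x => u x * f p x) ?_ (fun q hq => hf q (mem_insert_of_mem hq))]
    · rw [sum_mul_periodic hq hp.pos ((Nat.Prime.coprime_iff_not_dvd hp).2
        (hqP p (mem_insert_self _ _))).symm u (f p) hu (hf p (mem_insert_self _ _))]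
      ring
    · intro l hl hd
      rcases (Nat.Prime.dvd_mul (hP l (mem_insert_of_mem hl))).1 hd with h3 | h3
      · exact hqP l (mem_insert_of_mem hl) h3
      · have := (Nat.prime_dvd_prime_iff_eq (hP l (mem_insert_of_mem hl)) hp).1 h3
        exact hpP (this ▸ hl)
    · intro x
      have e1 : u (x % (q * p)) = u x := by
        rw [← hu (x % (q * p)), Nat.mod_mod_of_dvd _ (Dvd.intro _ rfl), hu]
      have e2 : f p (x % (q * p)) = f p x := by
        rw [← hf p (mem_insert_self _ _) (x % (q * p)), Nat.mod_mod_of_dvd _ (Dvd.intro_left _ rfl),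
          hf p (mem_insert_self _ _)]
      rw [e1, e2]

/-- the product of the shifts -/
noncomputable def shifts {ι : Type} [Fintype ι] (w : ι → ℕ) (p x : ℕ) : ℝ :=
  ∏ i, ((jacobiSym ((x + w i : ℕ) : ℤ) p : ℤ) : ℝ)

theorem shifts_mod {ι : Type} [Fintype ι] (w : ι → ℕ) (p x : ℕ) :
    shifts w p (x % p) = shifts w p x := by
  unfold shifts
  refine prod_congr rfl fun i _ => ?_
  rw [jacobiSym.mod_left, jacobiSym.mod_left ((x + w i : ℕ) : ℤ)]
  have e : (((x % p + w i : ℕ) : ℤ)) % (p : ℤ) = ((x + w i : ℕ) : ℤ) % (p : ℤ) := by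
    push_cast
    rw [Int.emod_add_emod]
  rw [e]

theorem abs_shifts_le {ι : Type} [Fintype ι] (w : ι → ℕ) (p x : ℕ) : |shifts w p x| ≤ 1 := by
  unfold shifts
  rw [abs_prod]
  refine prod_le_one (fun i _ => abs_nonneg _) fun i _ => ?_
  have h : ∀ a : ℤ, |jacobiSym a p| ≤ 1 := by
    intro a
    rcases jacobiSym.trichotomy a p with h | h | h <;> rw [h] <;> simp
  exact_mod_cast h _

theorem abs_sum_shifts_le {ι : Type} [Fintype ι] (w : ι → ℕ) (p : ℕ) :
    |∑ x ∈ range p, shifts w p x| ≤ p := by
  refine (abs_sum_le_sum_abs _ _).trans ?_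
  refine (sum_le_sum fun x _ => abs_shifts_le w p x).trans ?_
  simp

open Pool.Agent.H471R4.BW in
/-- the theorem of Weil: if one shift is different from all others modulo `p` -/
theorem weil {r : ℕ} (w : Fin r ⊕ Fin r → ℕ) {p : ℕ} (hp : p.Prime) (hp2 : p ≠ 2)
    (k : Fin r ⊕ Fin r) (hk : ∀ j, j ≠ k → w j % p ≠ w k % p) :
    |∑ x ∈ range p, shifts w p x| ≤ 2 * r * √(p : ℝ) := by
  classical
  have := Fact.mk hp
  have hχ : jchar p ≠ 1 := by
    intro h1
    obtain ⟨a, ha⟩ := FiniteField.exists_nonsquare (F := ZMod p) (by rwa [ZMod.ringChar_zmod_n])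
    have ha0 : a ≠ 0 := by
      rintro rfl
      exact ha ⟨0, by simp⟩
    have h2 : jchar p a = 1 := by
      rw [h1, MulChar.one_apply (isUnit_iff_ne_zero.2 ha0)]
    have h3 : jchar p a = ((quadraticChar (ZMod p) a : ℤ) : ℂ) := by
      have h4 : jchar p a = ((jacobiSym (a.val : ℤ) p : ℤ) : ℂ) := rfl
      rw [h4, ← jacobiSym.legendreSym.to_jacobiSym, legendreSym]
      congr 2
      push_cast
      rw [ZMod.natCast_zmod_val]
    rw [h3, (quadraticChar_neg_one_iff_not_isSquare).2 ha] at h2
    norm_num at h2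
  have h0 := Pool.Agent.W27.BG.complete_all p (jchar p) hχ r (fun i => w (Sum.inl i) % p)
    (fun i => w (Sum.inr i) % p) (fun i => Nat.mod_lt _ hp.pos) (fun i => Nat.mod_lt _ hp.pos) (by
      refine ⟨w k % p, ?_⟩
      rcases k with k | k
      · have e1 : (univ.filter fun i => w (Sum.inl i) % p = w (Sum.inl k) % p) = {k} := by
          ext i
          simp only [mem_filter, mem_univ, true_and, mem_singleton]
          constructor
          · intro h
            by_contra hne
            exact hk (Sum.inl i) (fun h' => hne (Sum.inl_injective h')) h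
          · rintro rfl
            rfl
        have e2 : (univ.filter fun i => w (Sum.inr i) % p = w (Sum.inl k) % p) = ∅ := by
          rw [filter_eq_empty_iff]
          intro i _ h
          exact hk (Sum.inr i) (by simp) h
        rw [e1, e2]
        simp
      · have e1 : (univ.filter fun i => w (Sum.inr i) % p = w (Sum.inr k) % p) = {k} := by
          ext i
          simp only [mem_filter, mem_univ, true_and, mem_singleton]
          constructor
          · intro h
            by_contra hne
            exact hk (Sum.inr i) (fun h' => hne (Sum.inr_injective h')) h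
          · rintro rfl
            rfl
        have e2 : (univ.filter fun i => w (Sum.inl i) % p = w (Sum.inr k) % p) = ∅ := by
          rw [filter_eq_empty_iff]
          intro i _ h
          exact hk (Sum.inl i) (by simp) h
        rw [e1, e2]
        simp)
  have h1 : ∑ x : ZMod p, (∏ i, jchar p (x + ((w (Sum.inl i) % p : ℕ) : ZMod p))) *
      ∏ i, (starRingEnd ℂ) (jchar p (x + ((w (Sum.inr i) % p : ℕ) : ZMod p))) =
      ((∑ x ∈ range p, shifts w p x : ℝ) : ℂ) := by
    push_cast
    refine sum_bij' (fun a _ => a.val) (fun d _ => (d : ZMod p)) ?_ ?_ ?_ ?_ ?_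
    · intro a _; exact mem_range.2 (ZMod.val_lt a)
    · intro d _; exact mem_univ _
    · intro a _; exact ZMod.natCast_zmod_val a
    · intro d hd; exact ZMod.val_cast_of_lt (mem_range.1 hd)
    · intro a _
      unfold shifts
      rw [Fintype.prod_sum_type]
      push_cast
      have e : ∀ j, jchar p (a + ((w j % p : ℕ) : ZMod p)) =
          ((jacobiSym ((a.val : ℤ) + (w j : ℤ)) p : ℤ) : ℂ) := by
        intro j
        have e1 : (a + ((w j % p : ℕ) : ZMod p)) = ((a.val + w j : ℕ) : ZMod p) := by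
          push_cast
          rw [ZMod.natCast_mod, ZMod.natCast_zmod_val]
        rw [e1, jchar_apply]
        push_cast
        rfl
      congr 1
      · exact prod_congr rfl fun i _ => e _
      · refine prod_congr rfl fun i _ => ?_
        rw [e, map_intCast]
  rw [h1, Complex.norm_real, Real.norm_eq_abs] at h0
  exact h0

end Pool.Agent.X311.Rd
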