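import Pool.Agent.X311.Rd1

/-!
# The average of the complete sums
-/

set_option autoImplicit false
set_option maxHeartbeats 4000000

namespace Pool.Agent.X311.Rd

open Finset

theorem one_le_prod_real {ι : Type} (s : Finset ι) (f : ι → ℝ) (h : ∀ i ∈ s, 1 ≤ f i) :
    1 ≤ ∏ i ∈ s, f i := by
  calc (1 : ℝ) = ∏ _i ∈ s, (1 : ℝ) := by simp
    _ ≤ ∏ i ∈ s, f i := prod_le_prod (fun _ _ => zero_le_one) h

/-- the weight of a difference -/
noncomputable def wt (M : ℕ) (a b : ℕ) : ℝ := if a = b then 0 else √((Nat.gcd M (max a b - min a b) : ℕ) : ℝ)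

theorem wt_nonneg (M a b : ℕ) : 0 ≤ wt M a b := by
  unfold wt
  split_ifs <;> positivity

/-- the product of `√p` over the primes of `M` that divide the difference -/
theorem prod_sqrt_le {M : ℕ} (hM : 0 < M) {a b : ℕ} (hab : a ≠ b) :
    ∏ p ∈ M.primeFactors, (if a % p = b % p then √(p : ℝ) else 1) ≤ wt M a b := by
  classical
  unfold wt
  rw [if_neg hab]
  have h1 : ∏ p ∈ M.primeFactors, (if a % p = b % p then √(p : ℝ) else 1) =
      √((∏ p ∈ M.primeFactors.filter (fun p => a % p = b % p), p : ℕ) : ℝ) := by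
    rw [← prod_filter, Nat.cast_prod, Real.sqrt_prod _ (fun i _ => Nat.cast_nonneg i)]
  rw [h1]
  refine Real.sqrt_le_sqrt ?_
  norm_cast
  refine Nat.le_of_dvd (Nat.gcd_pos_of_pos_left _ hM) (Nat.dvd_gcd ?_ ?_)
  · refine (prod_dvd_prod_of_subset _ _ _ (filter_subset _ _)).trans ?_
    exact Nat.prod_primeFactors_dvd M
  · refine Finset.prod_dvd_of_isRelPrime ?_ ?_
    · intro p hp q hq hpq
      rw [coe_filter] at hp hq
      exact Nat.coprime_iff_isRelPrime.1 ((Nat.coprime_primes (Nat.prime_of_mem_primeFactors hp.1)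
        (Nat.prime_of_mem_primeFactors hq.1)).2 hpq)
    · intro p hp
      have h2 := (mem_filter.1 hp).2
      rcases le_total a b with h | h
      · rw [max_eq_right h, min_eq_left h]
        exact (Nat.modEq_iff_dvd' h).1 h2
      · rw [max_eq_left h, min_eq_right h]
        exact (Nat.modEq_iff_dvd' h).1 h2.symm

/-- **The product of the local sums.** -/
theorem prod_sum_le {r : ℕ} (hr : 1 ≤ r) (w : Fin r ⊕ Fin r → ℕ) {M : ℕ} (hM : 0 < M) (h2 : ¬ 2 ∣ M)
    (k : Fin r ⊕ Fin r) (hk : ∀ j, j ≠ k → w j ≠ w k) :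
    ∏ p ∈ M.primeFactors, |∑ x ∈ range p, shifts w p x| ≤
      (2 * r) ^ M.primeFactors.card * √((∏ p ∈ M.primeFactors, p : ℕ) : ℝ) *
        ∏ j ∈ univ.erase k, wt M (w k) (w j) := by
  classical
  have hr1 : (1 : ℝ) ≤ r := by exact_mod_cast hr
  have hloc : ∀ p ∈ M.primeFactors, |∑ x ∈ range p, shifts w p x| ≤
      (2 * r) * √(p : ℝ) * ∏ j ∈ univ.erase k, (if w k % p = w j % p then √(p : ℝ) else 1) := by
    intro p hp
    have hpp := Nat.prime_of_mem_primeFactors hp
    have hp2 : p ≠ 2 := by
      rintro rfl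
      exact h2 (Nat.dvd_of_mem_primeFactors hp)
    have hp1 : (1 : ℝ) ≤ p := by exact_mod_cast hpp.one_lt.le
    have hs1 : 1 ≤ √(p : ℝ) := by
      rw [Real.one_le_sqrt]
      exact hp1
    have hone : ∀ j ∈ univ.erase k, (1 : ℝ) ≤ (if w k % p = w j % p then √(p : ℝ) else 1) := by
      intro j _
      split_ifs
      · exact hs1
      · exact le_rfl
    by_cases hall : ∀ j, j ≠ k → w j % p ≠ w k % p
    · refine (weil w hpp hp2 k hall).trans ?_
      have h3 : (1 : ℝ) ≤ ∏ j ∈ univ.erase k, (if w k % p = w j % p then √(p : ℝ) else 1) :=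
        one_le_prod_real _ _ hone
      have h4 : 0 ≤ 2 * r * √(p : ℝ) := by positivity
      nlinarith
    · push Not at hall
      obtain ⟨j, hj, hjk⟩ := hall
      refine (abs_sum_shifts_le w p).trans ?_
      have hjm : j ∈ univ.erase k := mem_erase.2 ⟨hj, mem_univ _⟩
      have h3 : √(p : ℝ) ≤ ∏ j ∈ univ.erase k, (if w k % p = w j % p then √(p : ℝ) else 1) := by
        rw [← mul_prod_erase _ _ hjm, if_pos hjk.symm]
        have h4 : (1 : ℝ) ≤ ∏ j ∈ (univ.erase k).erase j,
            (if w k % p = w j % p then √(p : ℝ) else 1) :=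
          one_le_prod_real _ _ fun i hi => hone i (mem_of_mem_erase hi)
        nlinarith
      have h5 : (p : ℝ) = √(p : ℝ) * √(p : ℝ) := (Real.mul_self_sqrt (by linarith)).symm
      calc (p : ℝ) = √(p : ℝ) * √(p : ℝ) := h5
        _ ≤ (2 * r) * √(p : ℝ) * ∏ j ∈ univ.erase k, (if w k % p = w j % p then √(p : ℝ) else 1) := by
          refine mul_le_mul ?_ h3 (by positivity) (by positivity)
          nlinarith
  refine (prod_le_prod (fun p _ => abs_nonneg _) hloc).trans ?_
  rw [prod_mul_distrib, prod_mul_distrib, prod_const, prod_comm]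
  have h3 : ∏ p ∈ M.primeFactors, √(p : ℝ) = √((∏ p ∈ M.primeFactors, p : ℕ) : ℝ) := by
    rw [Nat.cast_prod, Real.sqrt_prod _ (fun i _ => Nat.cast_nonneg i)]
  rw [h3]
  refine mul_le_mul_of_nonneg_left ?_ (by positivity)
  refine prod_le_prod (fun j _ => prod_nonneg fun p _ => ?_) fun j hj => ?_
  · split_ifs <;> positivity
  · exact prod_sqrt_le hM (hk j (mem_erase.1 hj).1).symm

/-- the sum of the weights over one variable -/
theorem sum_wt_le {M : ℕ} (hM : 0 < M) (B a : ℕ) (ha : a < B) :
    ∑ b ∈ range B, wt M a b ≤ 2 * B * (M.divisors.card : ℝ) := by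
  classical
  -- the weight is at most the sum of `√g` over the common divisors
  have h1 : ∀ b, wt M a b ≤ ∑ g ∈ M.divisors,
      (if b ≠ a ∧ b % g = a % g then √(g : ℝ) else 0) := by
    intro b
    unfold wt
    split_ifs with hab
    · refine sum_nonneg fun g _ => ?_
      split_ifs <;> positivity
    · have hg : Nat.gcd M (max a b - min a b) ∈ M.divisors :=
        Nat.mem_divisors.2 ⟨Nat.gcd_dvd_left _ _, hM.ne'⟩
      refine le_trans ?_ (single_le_sum (f := fun g : ℕ =>
        (if b ≠ a ∧ b % g = a % g then √(g : ℝ) else 0)) (fun g _ => ?_) hg)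
      · have h2 : b % (Nat.gcd M (max a b - min a b)) = a % (Nat.gcd M (max a b - min a b)) := by
          have h3 : Nat.gcd M (max a b - min a b) ∣ max a b - min a b := Nat.gcd_dvd_right _ _
          rcases le_total a b with h | h
          · rw [max_eq_right h, min_eq_left h] at h3 ⊢
            exact ((Nat.modEq_iff_dvd' h).2 h3).symm
          · rw [max_eq_left h, min_eq_right h] at h3 ⊢
            exact (Nat.modEq_iff_dvd' h).2 h3
        rw [if_pos ⟨fun h => hab h.symm, h2⟩]
      · split_ifs <;> positivity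
  refine (sum_le_sum fun b _ => h1 b).trans ?_
  rw [sum_comm]
  have h2 : ∀ g ∈ M.divisors, ∑ b ∈ range B, (if b ≠ a ∧ b % g = a % g then √(g : ℝ) else 0) ≤
      2 * B := by
    intro g hg
    have hg0 : 0 < g := Nat.pos_of_mem_divisors hg
    have hgr : (1 : ℝ) ≤ g := by exact_mod_cast hg0
    rw [← sum_filter, sum_const, nsmul_eq_mul]
    -- count
    have h3 : ((range B).filter fun b => b ≠ a ∧ b % g = a % g).card ≤ 2 * (B / g) := by
      have h4 : ((range B).filter fun b => b ≠ a ∧ b % g = a % g) ⊆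
          ((Icc 1 (B / g)).image fun k => a + g * k) ∪ ((Icc 1 (B / g)).image fun k => a - g * k) := by
        intro b hb
        rw [mem_filter, mem_range] at hb
        obtain ⟨hbB, hba, hmod⟩ := hb
        rw [mem_union, mem_image, mem_image]
        rcases lt_or_gt_of_ne hba with h | h
        · right
          obtain ⟨k, hk⟩ := (Nat.modEq_iff_dvd' h.le).1 hmod
          refine ⟨k, ?_, by omega⟩
          rw [mem_Icc]
          refine ⟨Nat.pos_of_ne_zero ?_, ?_⟩
          · rintro rfl
            omega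
          · rw [Nat.le_div_iff_mul_le hg0, mul_comm]
            omega
        · left
          obtain ⟨k, hk⟩ := (Nat.modEq_iff_dvd' h.le).1 hmod.symm
          refine ⟨k, ?_, by omega⟩
          rw [mem_Icc]
          refine ⟨Nat.pos_of_ne_zero ?_, ?_⟩
          · rintro rfl
            omega
          · rw [Nat.le_div_iff_mul_le hg0, mul_comm]
            omega
      refine (card_le_card h4).trans ((card_union_le _ _).trans ?_)
      have h5 : ((Icc 1 (B / g)).image fun k => a + g * k).card ≤ B / g := by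
        refine card_image_le.trans ?_
        rw [Nat.card_Icc, Nat.add_sub_cancel]
      have h6 : ((Icc 1 (B / g)).image fun k => a - g * k).card ≤ B / g := by
        refine card_image_le.trans ?_
        rw [Nat.card_Icc, Nat.add_sub_cancel]
      rw [two_mul]
      exact add_le_add h5 h6
    have h7 : (((range B).filter fun b => b ≠ a ∧ b % g = a % g).card : ℝ) ≤ 2 * (B / g : ℝ) := by
      have h8 : (((range B).filter fun b => b ≠ a ∧ b % g = a % g).card : ℝ) ≤
          ((2 * (B / g) : ℕ) : ℝ) := by exact_mod_cast h3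
      have h9 := @Nat.cast_div_le ℝ _ _ _ B g
      push_cast at h8
      linarith
    have h10 : √(g : ℝ) ≤ g := by
      rw [Real.sqrt_le_left (by linarith)]
      nlinarith
    calc _ ≤ 2 * (B / g : ℝ) * √(g : ℝ) := by gcongr
      _ ≤ 2 * (B / g : ℝ) * g := by gcongr
      _ = 2 * B := by field_simp
  refine (sum_le_sum h2).trans ?_
  rw [sum_const, nsmul_eq_mul]
  linarith

/-- the sum over all tuples of the product of the weights -/
theorem sum_prod_wt_le {ι : Type} [Fintype ι] [DecidableEq ι] (k : ι) {M : ℕ} (hM : 0 < M) (B : ℕ) :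
    ∑ w : ι → Fin B, ∏ j ∈ univ.erase k, wt M (w k) (w j) ≤
      B * (2 * B * (M.divisors.card : ℝ)) ^ (Fintype.card ι - 1) := by
  classical
  have h1 : ∑ w : ι → Fin B, ∏ j ∈ univ.erase k, wt M (w k) (w j) =
      ∑ a : Fin B, ∑ w : ι → Fin B, ∏ j, (if j = k then (if w j = a then (1 : ℝ) else 0)
        else wt M a (w j)) := by
    rw [sum_comm]
    refine sum_congr rfl fun w _ => ?_
    have h2 : ∀ a : Fin B, ∏ j, (if j = k then (if w j = a then (1 : ℝ) else 0) else wt M a (w j)) =
        if w k = a then ∏ j ∈ univ.erase k, wt M a (w j) else 0 := by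
      intro a
      rw [← mul_prod_erase univ _ (mem_univ k), if_pos rfl]
      split_ifs with h
      · rw [one_mul]
        refine prod_congr rfl fun j hj => ?_
        rw [if_neg (mem_erase.1 hj).1]
      · rw [zero_mul]
    simp only [h2]
    rw [sum_ite_eq univ (w k)]
    simp
  rw [h1]
  have h3 : ∀ a : Fin B, ∑ w : ι → Fin B, ∏ j, (if j = k then (if w j = a then (1 : ℝ) else 0)
        else wt M a (w j)) ≤ (2 * B * (M.divisors.card : ℝ)) ^ (Fintype.card ι - 1) := by
    intro a
    have h4 : ∑ w : ι → Fin B, ∏ j, (if j = k then (if w j = a then (1 : ℝ) else 0)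
        else wt M a (w j)) = ∏ j : ι, ∑ b : Fin B, (if j = k then (if b = a then (1 : ℝ) else 0)
        else wt M a b) := by
      rw [Finset.prod_univ_sum, Fintype.piFinset_univ]
    rw [h4, ← mul_prod_erase univ _ (mem_univ k)]
    have h5 : ∑ b : Fin B, (if k = k then (if b = a then (1 : ℝ) else 0) else wt M a b) = 1 := by
      simp
    rw [h5, one_mul]
    have h6 : ∀ j ∈ univ.erase k, ∑ b : Fin B, (if j = k then (if b = a then (1 : ℝ) else 0)
        else wt M a b) ≤ 2 * B * (M.divisors.card : ℝ) := by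
      intro j hj
      simp only [if_neg (mem_erase.1 hj).1]
      rw [← Finset.sum_range (fun b => wt M a b)]
      exact sum_wt_le hM B a a.2
    refine (prod_le_prod (fun j hj => sum_nonneg fun b _ => ?_) h6).trans ?_
    · simp only [if_neg (mem_erase.1 hj).1]
      exact wt_nonneg _ _ _
    · rw [prod_const, card_erase_of_mem (mem_univ k), card_univ]
  refine (sum_le_sum fun a _ => h3 a).trans ?_
  rw [sum_const, card_univ, Fintype.card_fin, nsmul_eq_mul]

end Pool.Agent.X311.Rd
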