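import Pool.Agent.X311.Rd2
import Pool.Agent.H471R4.BW.MOM
import Pool.Agent.H471R4.BW.TUP

/-!
# Moments of short sums of a real character modulo an almost squarefree number
-/

set_option autoImplicit false
set_option maxHeartbeats 4000000

namespace Pool.Agent.X311.Rd

open Finset Pool.Agent.H471R4.BW

/-- a real character modulo `N = q M` with `M` odd and squarefree and a small `q` -/
structure IsReal (N q M : ℕ) (χ : DirichletCharacter ℂ N) (u : ℕ → ℝ) : Prop where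
  mul : N = q * ∏ p ∈ M.primeFactors, p
  q_pos : 0 < q
  M_pos : 0 < M
  odd : ¬ 2 ∣ M
  coprime : ∀ p ∈ M.primeFactors, ¬ p ∣ q
  periodic : ∀ x, u (x % q) = u x
  le : ∀ x, |u x| ≤ 1
  eq : ∀ m : ℕ, χ (m : ZMod N) = ((u m * ∏ p ∈ M.primeFactors, ((jacobiSym (m : ℤ) p : ℤ) : ℝ) : ℝ) : ℂ)

theorem complete_le {N q M : ℕ} [NeZero N] {χ : DirichletCharacter ℂ N} {u : ℕ → ℝ}
    (H : IsReal N q M χ u) {r : ℕ} (w : Fin r ⊕ Fin r → ℕ) :
    ‖∑ x : ZMod N, (∏ i, χ (x + ((w (Sum.inl i) : ℕ) : ZMod N))) *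
      ∏ i, (starRingEnd ℂ) (χ (x + ((w (Sum.inr i) : ℕ) : ZMod N)))‖ ≤
      q * ∏ p ∈ M.primeFactors, |∑ x ∈ range p, shifts w p x| := by
  classical
  set U : ℕ → ℝ := fun x => ∏ j, u (x + w j) with hU
  have h1 : ∑ x : ZMod N, (∏ i, χ (x + ((w (Sum.inl i) : ℕ) : ZMod N))) *
      ∏ i, (starRingEnd ℂ) (χ (x + ((w (Sum.inr i) : ℕ) : ZMod N))) =
      ((∑ x ∈ range N, U x * ∏ p ∈ M.primeFactors, shifts w p x : ℝ) : ℂ) := by
    rw [Complex.ofReal_sum]
    refine sum_bij' (fun a _ => a.val) (fun d _ => (d : ZMod N)) ?_ ?_ ?_ ?_ ?_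
    · intro a _; exact mem_range.2 (ZMod.val_lt a)
    · intro d _; exact mem_univ _
    · intro a _; exact ZMod.natCast_zmod_val a
    · intro d hd; exact ZMod.val_cast_of_lt (mem_range.1 hd)
    · intro a _
      have e : ∀ j, χ (a + ((w j : ℕ) : ZMod N)) =
          ((u (a.val + w j) * ∏ p ∈ M.primeFactors,
            ((jacobiSym ((a.val + w j : ℕ) : ℤ) p : ℤ) : ℝ) : ℝ) : ℂ) := by
        intro j
        have e1 : (a + ((w j : ℕ) : ZMod N)) = ((a.val + w j : ℕ) : ZMod N) := by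
          push_cast
          rw [ZMod.natCast_zmod_val]
        rw [e1, H.eq]
      have e2 : (∏ i, χ (a + ((w (Sum.inl i) : ℕ) : ZMod N))) *
          ∏ i, (starRingEnd ℂ) (χ (a + ((w (Sum.inr i) : ℕ) : ZMod N))) =
          ∏ j, (((u (a.val + w j) * ∏ p ∈ M.primeFactors,
            ((jacobiSym ((a.val + w j : ℕ) : ℤ) p : ℤ) : ℝ) : ℝ)) : ℂ) := by
        rw [Fintype.prod_sum_type]
        congr 1
        · exact prod_congr rfl fun i _ => e _
        · refine prod_congr rfl fun i _ => ?_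
          rw [e, Complex.conj_ofReal]
      rw [e2, ← Complex.ofReal_prod, prod_mul_distrib, prod_comm]
      rfl
  rw [h1, Complex.norm_real, Real.norm_eq_abs, H.mul]
  have hUper : ∀ x, U (x % q) = U x := by
    intro x
    simp only [hU]
    refine prod_congr rfl fun j _ => ?_
    rw [← H.periodic (x % q + w j), ← H.periodic (x + w j), Nat.mod_add_mod]
  rw [sum_prod_periodic M.primeFactors (fun p hp => Nat.prime_of_mem_primeFactors hp) H.q_pos
    H.coprime U hUper (shifts w) (fun p _ x => shifts_mod w p x), abs_mul, abs_prod]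
  refine mul_le_mul_of_nonneg_right ?_ (prod_nonneg fun _ _ => abs_nonneg _)
  refine (abs_sum_le_sum_abs _ _).trans ?_
  refine (sum_le_sum (g := fun _ => (1 : ℝ)) fun x _ => ?_).trans ?_
  · simp only [hU]
    rw [abs_prod]
    exact prod_le_one (fun i _ => abs_nonneg _) fun i _ => H.le _
  · simp

theorem uniq_index {r : ℕ} {w : Fin r ⊕ Fin r → ℕ}
    (h : Uniq (fun i => w (Sum.inl i)) (fun i => w (Sum.inr i))) :
    ∃ k, ∀ j, j ≠ k → w j ≠ w k := by
  classical
  obtain ⟨v, hv⟩ := h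
  beta_reduce at hv
  rcases Nat.eq_zero_or_pos (univ.filter fun i => w (Sum.inl i) = v).card with h0 | hpos
  · have h1 : (univ.filter fun i => w (Sum.inr i) = v).card = 1 := by omega
    obtain ⟨k, hk⟩ := card_eq_one.1 h1
    have hkv : w (Sum.inr k) = v := by
      have : k ∈ univ.filter fun i => w (Sum.inr i) = v := by
        rw [hk]
        exact mem_singleton_self k
      exact (mem_filter.1 this).2
    refine ⟨Sum.inr k, fun j hj hjk => ?_⟩
    rw [hkv] at hjk
    rcases j with j | j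
    · rw [card_eq_zero, filter_eq_empty_iff] at h0
      exact h0 (mem_univ j) hjk
    · have : j ∈ univ.filter fun i => w (Sum.inr i) = v := mem_filter.2 ⟨mem_univ _, hjk⟩
      rw [hk, mem_singleton] at this
      exact hj (by rw [this])
  · have h1 : (univ.filter fun i => w (Sum.inl i) = v).card = 1 := by omega
    have h2 : (univ.filter fun i => w (Sum.inr i) = v).card = 0 := by omega
    obtain ⟨k, hk⟩ := card_eq_one.1 h1
    have hkv : w (Sum.inl k) = v := by
      have : k ∈ univ.filter fun i => w (Sum.inl i) = v := by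
        rw [hk]
        exact mem_singleton_self k
      exact (mem_filter.1 this).2
    refine ⟨Sum.inl k, fun j hj hjk => ?_⟩
    rw [hkv] at hjk
    rcases j with j | j
    · have : j ∈ univ.filter fun i => w (Sum.inl i) = v := mem_filter.2 ⟨mem_univ _, hjk⟩
      rw [hk, mem_singleton] at this
      exact hj (by rw [this])
    · rw [card_eq_zero, filter_eq_empty_iff] at h2
      exact h2 (mem_univ j) hjk

/-- the constant of the moment -/
noncomputable def KM (q M r : ℕ) : ℝ :=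
  q * (2 * r) * (2 * r) ^ M.primeFactors.card * (2 * (M.divisors.card : ℝ)) ^ (2 * r)

theorem KM_nonneg (q M r : ℕ) : 0 ≤ KM q M r := by
  unfold KM
  positivity

open Classical in
open MOMx in
theorem moment {N q M : ℕ} [NeZero N] {χ : DirichletCharacter ℂ N} {u : ℕ → ℝ}
    (H : IsReal N q M χ u) {r : ℕ} (hr : 1 ≤ r) (B : ℕ) :
    ∑ x : ZMod N, ‖∑ b ∈ range B, χ (x + (b : ZMod N))‖ ^ (2 * r) ≤
      (r : ℝ) ^ (2 * r) * (B : ℝ) ^ r * N + KM q M r * (B : ℝ) ^ (2 * r) * Real.sqrt N := by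
  have hW : ((∑ x : ZMod N, ‖∑ b ∈ range B, χ (x + (b : ZMod N))‖ ^ (2 * r) : ℝ) : ℂ) =
      ∑ w : (Fin r → Fin B) × (Fin r → Fin B), ∑ x : ZMod N, term χ r B w.1 w.2 x := by
    rw [Finset.sum_comm]
    push_cast
    refine Finset.sum_congr rfl fun x _ => ?_
    have := expand χ r B x
    push_cast at this
    rw [this, ← Finset.univ_product_univ, Finset.sum_product]
  have hW0 : 0 ≤ ∑ x : ZMod N, ‖∑ b ∈ range B, χ (x + (b : ZMod N))‖ ^ (2 * r) :=
    Finset.sum_nonneg fun x _ => by positivity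
  have hW1 : ∑ x : ZMod N, ‖∑ b ∈ range B, χ (x + (b : ZMod N))‖ ^ (2 * r) =
      ‖∑ w : (Fin r → Fin B) × (Fin r → Fin B), ∑ x : ZMod N, term χ r B w.1 w.2 x‖ := by
    rw [← hW, Complex.norm_real, Real.norm_eq_abs, abs_of_nonneg hW0]
  rw [hW1]
  refine (norm_sum_le _ _).trans ?_
  rw [← Finset.sum_filter_add_sum_filter_not Finset.univ
    (fun w : (Fin r → Fin B) × (Fin r → Fin B) =>
      ¬ Uniq (fun i => (w.1 i : ℕ)) (fun i => (w.2 i : ℕ)))]
  refine add_le_add ?_ ?_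
  · have h1 : ∀ w ∈ Finset.univ.filter (fun w : (Fin r → Fin B) × (Fin r → Fin B) =>
        ¬ Uniq (fun i => (w.1 i : ℕ)) (fun i => (w.2 i : ℕ))),
        ‖∑ x : ZMod N, term χ r B w.1 w.2 x‖ ≤ (N : ℝ) := by
      intro w _
      refine (norm_sum_le _ _).trans ?_
      calc ∑ x : ZMod N, ‖term χ r B w.1 w.2 x‖ ≤ ∑ _x : ZMod N, (1 : ℝ) :=
            Finset.sum_le_sum fun x _ => term_norm_le χ r B w.1 w.2 x
        _ = N := by simp
    refine (Finset.sum_le_card_nsmul _ _ _ h1).trans ?_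
    rw [nsmul_eq_mul]
    have h2 : (((Finset.univ.filter (fun w : (Fin r → Fin B) × (Fin r → Fin B) =>
        ¬ Uniq (fun i => (w.1 i : ℕ)) (fun i => (w.2 i : ℕ)))).card : ℕ) : ℝ) ≤
        (r : ℝ) ^ (2 * r) * (B : ℝ) ^ r := by
      exact_mod_cast tup r B hr
    exact mul_le_mul_of_nonneg_right h2 (Nat.cast_nonneg N)
  · -- the tuples with a value that is taken once
    set C₀ : ℝ := q * ((2 * r) ^ M.primeFactors.card * √((∏ p ∈ M.primeFactors, p : ℕ) : ℝ)) with hC₀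
    have hC₀0 : 0 ≤ C₀ := by rw [hC₀]; positivity
    have h1 : ∀ w ∈ Finset.univ.filter (fun w : (Fin r → Fin B) × (Fin r → Fin B) =>
        ¬ ¬ Uniq (fun i => (w.1 i : ℕ)) (fun i => (w.2 i : ℕ))),
        ‖∑ x : ZMod N, term χ r B w.1 w.2 x‖ ≤
          C₀ * ∑ k : Fin r ⊕ Fin r, ∏ j ∈ univ.erase k,
            wt M ((Sum.elim w.1 w.2 k : Fin B) : ℕ) ((Sum.elim w.1 w.2 j : Fin B) : ℕ) := by
      intro w hw
      rw [Finset.mem_filter, not_not] at hw
      obtain ⟨k, hk⟩ := uniq_index (w := fun j => ((Sum.elim w.1 w.2 j : Fin B) : ℕ)) hw.2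
      have h2 := complete_le H (fun j => ((Sum.elim w.1 w.2 j : Fin B) : ℕ))
      have h3 := prod_sum_le hr (fun j => ((Sum.elim w.1 w.2 j : Fin B) : ℕ)) H.M_pos H.odd k hk
      have h4 : ‖∑ x : ZMod N, term χ r B w.1 w.2 x‖ ≤
          C₀ * ∏ j ∈ univ.erase k,
            wt M ((Sum.elim w.1 w.2 k : Fin B) : ℕ) ((Sum.elim w.1 w.2 j : Fin B) : ℕ) := by
        refine (le_trans (le_of_eq rfl) h2).trans ?_
        rw [hC₀, mul_assoc (q : ℝ)]
        exact mul_le_mul_of_nonneg_left h3 (Nat.cast_nonneg q)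
      refine h4.trans (mul_le_mul_of_nonneg_left ?_ hC₀0)
      exact single_le_sum (f := fun k => ∏ j ∈ univ.erase k,
            wt M ((Sum.elim w.1 w.2 k : Fin B) : ℕ) ((Sum.elim w.1 w.2 j : Fin B) : ℕ))
        (fun k _ => prod_nonneg fun j _ => wt_nonneg _ _ _) (mem_univ k)
    refine (sum_le_sum h1).trans ?_
    refine (sum_le_sum_of_subset_of_nonneg (subset_univ _) fun w _ _ =>
      mul_nonneg hC₀0 (sum_nonneg fun k _ => prod_nonneg fun j _ => wt_nonneg _ _ _)).trans ?_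
    rw [← mul_sum]
    have h5 : ∑ w : (Fin r → Fin B) × (Fin r → Fin B), ∑ k : Fin r ⊕ Fin r, ∏ j ∈ univ.erase k,
            wt M ((Sum.elim w.1 w.2 k : Fin B) : ℕ) ((Sum.elim w.1 w.2 j : Fin B) : ℕ) =
        ∑ k : Fin r ⊕ Fin r, ∑ w : Fin r ⊕ Fin r → Fin B, ∏ j ∈ univ.erase k,
            wt M (w k : ℕ) (w j : ℕ) := by
      rw [sum_comm]
      refine sum_congr rfl fun k _ => ?_
      exact (Equiv.sum_comp (Equiv.sumArrowEquivProdArrow (Fin r) (Fin r) (Fin B)).symm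
        (fun w : Fin r ⊕ Fin r → Fin B => ∏ j ∈ univ.erase k, wt M (w k : ℕ) (w j : ℕ)))
    rw [h5]
    have h6 : ∑ k : Fin r ⊕ Fin r, ∑ w : Fin r ⊕ Fin r → Fin B, ∏ j ∈ univ.erase k,
            wt M (w k : ℕ) (w j : ℕ) ≤
        (2 * r) * (B * (2 * B * (M.divisors.card : ℝ)) ^ (2 * r - 1)) := by
      refine (sum_le_sum fun k _ => sum_prod_wt_le k H.M_pos B).trans ?_
      rw [sum_const, card_univ, Fintype.card_sum, Fintype.card_fin, nsmul_eq_mul, ← two_mul]
      push_cast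
      exact le_rfl
    have h7 : (B : ℝ) * (2 * B * (M.divisors.card : ℝ)) ^ (2 * r - 1) ≤
        (2 * (M.divisors.card : ℝ)) ^ (2 * r) * (B : ℝ) ^ (2 * r) := by
      have hd : (1 : ℝ) ≤ M.divisors.card := by
        exact_mod_cast Finset.card_pos.2 ⟨1, Nat.one_mem_divisors.2 H.M_pos.ne'⟩
      have e1 : (2 * B * (M.divisors.card : ℝ)) ^ (2 * r - 1) =
          (2 * (M.divisors.card : ℝ)) ^ (2 * r - 1) * (B : ℝ) ^ (2 * r - 1) := by
        rw [← mul_pow]
        congr 1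
        ring
      have e2 : (B : ℝ) ^ (2 * r) = B * (B : ℝ) ^ (2 * r - 1) := by
        rw [← pow_succ']
        congr 1
        omega
      rw [e1, e2]
      have e3 : (2 * (M.divisors.card : ℝ)) ^ (2 * r - 1) ≤ (2 * (M.divisors.card : ℝ)) ^ (2 * r) :=
        pow_le_pow_right₀ (by linarith) (by omega)
      have e4 : (0 : ℝ) ≤ B * (B : ℝ) ^ (2 * r - 1) := by positivity
      nlinarith
    have h8 : √((∏ p ∈ M.primeFactors, p : ℕ) : ℝ) ≤ Real.sqrt N := by
      refine Real.sqrt_le_sqrt ?_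
      rw [H.mul]
      exact_mod_cast Nat.le_mul_of_pos_left _ H.q_pos
    calc C₀ * ∑ k : Fin r ⊕ Fin r, ∑ w : Fin r ⊕ Fin r → Fin B, ∏ j ∈ univ.erase k,
            wt M (w k : ℕ) (w j : ℕ) ≤
        C₀ * ((2 * r) * ((2 * (M.divisors.card : ℝ)) ^ (2 * r) * (B : ℝ) ^ (2 * r))) := by
          refine mul_le_mul_of_nonneg_left (h6.trans ?_) hC₀0
          exact mul_le_mul_of_nonneg_left h7 (by positivity)
      _ = KM q M r * (B : ℝ) ^ (2 * r) * √((∏ p ∈ M.primeFactors, p : ℕ) : ℝ) := by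
          rw [hC₀]
          unfold KM
          ring
      _ ≤ KM q M r * (B : ℝ) ^ (2 * r) * Real.sqrt N :=
          mul_le_mul_of_nonneg_left h8 (mul_nonneg (KM_nonneg _ _ _) (by positivity))

end Pool.Agent.X311.Rd
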