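import Pool.Agent.H471R4.BW.BFM
import Pool.Agent.H471R4.BW.BIN
import Pool.Agent.H471R4.BW.NU1
import Pool.Agent.H471R4.BW.NU2b
import Pool.Agent.H471R4.BW.SHF
import Pool.Agent.H471R4.BW.HOL

/-!
# The method of Burgess with a moment as hypothesis

The proofs are those of `Pool.Agent.H471R4.BW.bin` and `Pool.Agent.H471R4.BW.bfm_core`.
-/

set_option autoImplicit false
set_option maxHeartbeats 4000000

namespace Pool.Agent.X311.Rd

open Finset Filter Pool.Agent.H471R4.BW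

/-- the short sum, from the moment of the sums of length `B` -/
theorem bin' {N : ℕ} [NeZero N] (χ : DirichletCharacter ℂ N) (A : Finset ℕ)
    (X M B r : ℕ) (K : ℝ) (hr : 1 ≤ r) (hK : 0 ≤ K) (hB : 1 ≤ B) (hX : 1 ≤ X) (hA : A.Nonempty)
    (hAp : ∀ a ∈ A, a.Prime) (hAc : ∀ a ∈ A, Nat.Coprime a N) (hAM : ∀ a ∈ A, a ≤ M)
    (hMX : M * X < N) (hNB : Real.sqrt N ≤ (B : ℝ) ^ r)
    (hC : ∑ x : ZMod N, ‖∑ b ∈ range B, χ (x + (b : ZMod N))‖ ^ (2 * r) ≤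
      (r : ℝ) ^ (2 * r) * (B : ℝ) ^ r * N + K * (B : ℝ) ^ (2 * r) * Real.sqrt N) :
    ‖shortSum N χ X‖ ≤ 2 * M * B +
      X * (3 * ((r : ℝ) ^ (2 * r) + K) * Real.sqrt N / (A.card * X)) ^ (1 / (2 * r : ℝ)) := by
  have h2 := nu1
  have h3 := nu2b
  have h4 := shf
  have h5 := hol
  set Tf : ZMod N → ℝ := fun x => ‖∑ b ∈ range B, χ (x + (b : ZMod N))‖ with hTf
  set P : ℝ := (A.card : ℝ) with hP
  have hP1 : 1 ≤ P := by
    rw [hP]; exact_mod_cast hA.card_pos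
  have hX1 : (1 : ℝ) ≤ X := by exact_mod_cast hX
  have hB1 : (1 : ℝ) ≤ B := by exact_mod_cast hB
  have hP0 : 0 < P := by linarith
  have hX0 : (0 : ℝ) < X := by linarith
  have hB0 : (0 : ℝ) < B := by linarith
  set S : ℝ := ∑ x : ZMod N, (nu N A X x : ℝ) * Tf x with hS
  have hS0 : 0 ≤ S := Finset.sum_nonneg (fun x _ => mul_nonneg (Nat.cast_nonneg _) (norm_nonneg _))
  have e1 : ∑ x : ZMod N, (nu N A X x : ℝ) = P * X := by
    have := h2 N A X hAc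
    rw [hP]
    exact_mod_cast this
  have e2 : ∑ x : ZMod N, ((nu N A X x : ℝ)) ^ 2 ≤ 3 * P * X := by
    have := h3 N A X M hAp hAc hAM hMX
    rw [hP]
    exact_mod_cast this
  have e3 : ∑ x : ZMod N, Tf x ^ (2 * r) ≤
      ((r : ℝ) ^ (2 * r) + K) * (B : ℝ) ^ (2 * r) * Real.sqrt N := by
    refine hC.trans ?_
    have hN0 : (0 : ℝ) ≤ N := Nat.cast_nonneg _
    have hNs : (N : ℝ) = Real.sqrt N * Real.sqrt N := (Real.mul_self_sqrt hN0).symm
    have h6 : (B : ℝ) ^ r * N ≤ (B : ℝ) ^ (2 * r) * Real.sqrt N := by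
      calc (B : ℝ) ^ r * N = (B : ℝ) ^ r * (Real.sqrt N * Real.sqrt N) := by rw [← hNs]
        _ = (B : ℝ) ^ r * Real.sqrt N * Real.sqrt N := by ring
        _ ≤ (B : ℝ) ^ r * (B : ℝ) ^ r * Real.sqrt N := by
            apply mul_le_mul_of_nonneg_right _ (Real.sqrt_nonneg _)
            exact mul_le_mul_of_nonneg_left hNB (by positivity)
        _ = (B : ℝ) ^ (2 * r) * Real.sqrt N := by rw [two_mul, pow_add]
    have h7 : (r : ℝ) ^ (2 * r) * ((B : ℝ) ^ r * N) ≤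
        (r : ℝ) ^ (2 * r) * ((B : ℝ) ^ (2 * r) * Real.sqrt N) :=
      mul_le_mul_of_nonneg_left h6 (by positivity)
    nlinarith [h7]
  set Q : ℝ := 3 * ((r : ℝ) ^ (2 * r) + K) * Real.sqrt N / (P * X) with hQ
  have hQ0 : 0 ≤ Q := by rw [hQ]; positivity
  have hH := h5 (ZMod N) r hr (fun x => (nu N A X x : ℝ)) Tf (fun x => Nat.cast_nonneg _)
    (fun x => norm_nonneg _)
  have hpow : S ^ (2 * r) ≤ (P * X * B) ^ (2 * r) * Q := by
    refine hH.trans ?_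
    rw [e1]
    have h8 : (P * (X : ℝ)) ^ (2 * r - 2) * (∑ x : ZMod N, ((nu N A X x : ℝ)) ^ 2) *
        ∑ x : ZMod N, Tf x ^ (2 * r) ≤ (P * (X : ℝ)) ^ (2 * r - 2) * (3 * P * X) *
        (((r : ℝ) ^ (2 * r) + K) * (B : ℝ) ^ (2 * r) * Real.sqrt N) := by
      apply mul_le_mul _ e3 (Finset.sum_nonneg (fun x _ => by positivity)) (by positivity)
      exact mul_le_mul_of_nonneg_left e2 (by positivity)
    refine h8.trans (le_of_eq ?_)
    have h9 : (P * (X : ℝ) * B) ^ (2 * r) =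
        (P * (X : ℝ)) ^ (2 * r - 2) * (P * X) ^ 2 * (B : ℝ) ^ (2 * r) := by
      rw [← pow_add, mul_pow (P * (X : ℝ)) (B : ℝ)]
      congr 2
      omega
    rw [h9, hQ]
    field_simp
  have hroot : S ≤ P * X * B * Q ^ (1 / (2 * r : ℝ)) := by
    have hr0 : (2 * r : ℕ) ≠ 0 := by omega
    have hq : (Q ^ (1 / (2 * r : ℝ))) ^ (2 * r) = Q := by
      rw [← Real.rpow_natCast, ← Real.rpow_mul hQ0]
      have : 1 / (2 * (r : ℝ)) * ((2 * r : ℕ) : ℝ) = 1 := by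
        push_cast
        have : (r : ℝ) ≠ 0 := by
          have : (1 : ℝ) ≤ r := by exact_mod_cast hr
          linarith
        field_simp
      rw [this, Real.rpow_one]
    have h10 : S ^ (2 * r) ≤ (P * X * B * Q ^ (1 / (2 * r : ℝ))) ^ (2 * r) := by
      rw [mul_pow (P * (X : ℝ) * B), hq]
      exact hpow
    exact (pow_le_pow_iff_left₀ hS0 (by positivity) hr0).1 h10
  have hsh := h4 N χ A X M B hAc hAM
  have hfin : P * B * ‖shortSum N χ X‖ ≤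
      P * B * (2 * M * B + X * Q ^ (1 / (2 * r : ℝ))) := by
    calc P * B * ‖shortSum N χ X‖ ≤ S + P * B * (2 * M * B) := hsh
      _ ≤ P * X * B * Q ^ (1 / (2 * r : ℝ)) + P * B * (2 * M * B) := by linarith
      _ = _ := by ring
  exact le_of_mul_le_mul_left hfin (by positivity)

/-- the estimate of Burgess, from the moments -/
theorem core' (δ η K : ℝ) (hδ : 0 < δ) (hδ1 : δ ≤ 1)
    (hη : 0 < η) (hK : 0 ≤ K) (r : ℕ) (hr : 1 ≤ r) (hrη : 1 / (2 * (r : ℝ)) ≤ η)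
    (N : ℕ) (hN3 : (3 : ℝ) ≤ N)
    (hb : 200 ≤ δ * (N : ℝ) ^ (1 / 4 : ℝ) / 32)
    (hc : 8 * (Real.log N) ^ 2 ≤ δ * (N : ℝ) ^ (1 / 4 : ℝ) / 32)
    (hd : 3 * ((r : ℝ) ^ (2 * r) + K) * 128 * Real.log N ≤
      ((δ / 2) ^ (2 * r) * δ) * (N : ℝ) ^ η)
    [NeZero N] (χ : DirichletCharacter ℂ N)
    (hF : ∀ B : ℕ, ∑ x : ZMod N, ‖∑ b ∈ range B, χ (x + (b : ZMod N))‖ ^ (2 * r) ≤
      (r : ℝ) ^ (2 * r) * (B : ℝ) ^ r * N + K * (B : ℝ) ^ (2 * r) * Real.sqrt N) (X : ℕ)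
    (hX1 : (N : ℝ) ^ (1 / 4 + η) ≤ X) (hX2 : (X : ℝ) ≤ Real.sqrt N) :
    ‖shortSum N χ X‖ ≤ δ * X := by
  have hNpos : (0 : ℝ) < N := by linarith
  have hN1 : (1 : ℝ) ≤ N := by linarith
  have hr' : (1 : ℝ) ≤ r := by exact_mod_cast hr
  set s : ℝ := 1 / (2 * (r : ℝ)) with hs
  have hs0 : 0 < s := by positivity
  have hNs1 : 1 ≤ (N : ℝ) ^ s := Real.one_le_rpow hN1 hs0.le
  set B : ℕ := ⌈(N : ℝ) ^ s⌉₊ with hB
  have hB1 : (N : ℝ) ^ s ≤ B := Nat.le_ceil _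
  have hB2 : (B : ℝ) ≤ 2 * (N : ℝ) ^ s := by
    have := (Nat.ceil_lt_add_one (by linarith : (0 : ℝ) ≤ (N : ℝ) ^ s)).le
    linarith
  have hBone : (1 : ℝ) ≤ B := hNs1.trans hB1
  have hBpos : (0 : ℝ) < B := by linarith
  have hX0 : (1 : ℝ) ≤ X := by
    refine le_trans ?_ hX1
    exact Real.one_le_rpow hN1 (by linarith)
  have hXpos : (0 : ℝ) < X := by linarith
  set M : ℕ := ⌊δ * X / (8 * B)⌋₊ with hM
  have hM1 : (M : ℝ) ≤ δ * X / (8 * B) := Nat.floor_le (by positivity)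
  have hM2 : δ * X / (8 * B) - 1 < M := Nat.sub_one_lt_floor _
  -- lower bound for `X / B`
  have hq : (N : ℝ) ^ (1 / 4 : ℝ) * B ≤ 2 * X := by
    have e1 : (N : ℝ) ^ (1 / 4 : ℝ) * (N : ℝ) ^ s ≤ (N : ℝ) ^ (1 / 4 + η) := by
      rw [← Real.rpow_add hNpos]
      exact Real.rpow_le_rpow_of_exponent_le hN1 (by linarith)
    have e2 : 0 ≤ (N : ℝ) ^ (1 / 4 : ℝ) := Real.rpow_nonneg hNpos.le _
    nlinarith
  have hM3 : δ * (N : ℝ) ^ (1 / 4 : ℝ) / 16 ≤ δ * X / (8 * B) := by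
    rw [div_le_div_iff₀ (by norm_num) (by positivity)]
    nlinarith
  have hM4 : δ * (N : ℝ) ^ (1 / 4 : ℝ) / 32 ≤ M := by linarith
  have hM200 : 200 ≤ M := by exact_mod_cast hb.trans hM4
  have hXX : (X : ℝ) * X ≤ N := by
    have := Real.mul_self_sqrt hNpos.le
    nlinarith [Real.sqrt_nonneg (N : ℝ)]
  have hMX : (M : ℝ) * (8 * B) ≤ δ * X := by
    rwa [le_div_iff₀ (by positivity)] at hM1
  have hMX8 : (M : ℝ) * 8 ≤ X := by
    have e1 : (M : ℝ) * 8 ≤ M * (8 * B) := by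
      have : (0 : ℝ) ≤ M := Nat.cast_nonneg _
      nlinarith
    nlinarith
  have hMXN : M * X < N := by
    have : (M : ℝ) * X < N := by nlinarith
    exact_mod_cast this
  have hMN : M ≤ N := by
    have h1 : M ≤ M * X := Nat.le_mul_of_pos_right M (by exact_mod_cast hXpos)
    omega
  have hcard := bfm_count M N hM200 hMN (hc.trans hM4)
  have hL : 0 < Real.log N := Real.log_pos (by linarith)
  have hMpos : (0 : ℝ) < M := by
    have : (200 : ℝ) ≤ M := by exact_mod_cast hM200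
    linarith
  have hcardpos : (0 : ℝ) < (bfmA M N).card := lt_of_lt_of_le (by positivity) hcard
  have hne : (bfmA M N).Nonempty := by
    rw [← card_pos]
    exact_mod_cast hcardpos
  have hBr : Real.sqrt N ≤ (B : ℝ) ^ r := by
    have e1 : ((N : ℝ) ^ s) ^ r = Real.sqrt N := by
      rw [Real.sqrt_eq_rpow, ← Real.rpow_natCast, ← Real.rpow_mul hNpos.le, hs]
      congr 1
      field_simp
    rw [← e1]
    exact pow_le_pow_left₀ (by linarith) hB1 r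
  have hmain := bin' χ (bfmA M N) X M B r K hr hK (by exact_mod_cast hBone)
    (by exact_mod_cast hX0) hne (fun a ha => (mem_filter.1 ha).2.1)
    (fun a ha => (mem_filter.1 ha).2.2)
    (fun a ha => Nat.lt_succ_iff.1 (mem_range.1 (mem_filter.1 ha).1)) hMXN hBr
    (hF B)
  -- the second term
  have hAX : δ * ((N : ℝ) ^ η * Real.sqrt N) / (128 * Real.log N) ≤ (bfmA M N).card * X := by
    have e1 : (N : ℝ) ^ (1 / 4 : ℝ) * (N : ℝ) ^ (1 / 4 + η) = (N : ℝ) ^ η * Real.sqrt N := by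
      rw [Real.sqrt_eq_rpow, ← Real.rpow_add hNpos, ← Real.rpow_add hNpos]
      congr 1
      ring
    rw [← e1]
    have e2 : δ * (N : ℝ) ^ (1 / 4 : ℝ) / (128 * Real.log N) ≤ (bfmA M N).card := by
      refine le_trans ?_ hcard
      rw [div_le_div_iff₀ (by positivity) (by positivity)]
      nlinarith
    have e3 : 0 ≤ (N : ℝ) ^ (1 / 4 + η) := Real.rpow_nonneg hNpos.le _
    calc δ * ((N : ℝ) ^ (1 / 4 : ℝ) * (N : ℝ) ^ (1 / 4 + η)) / (128 * Real.log N)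
        = (δ * (N : ℝ) ^ (1 / 4 : ℝ) / (128 * Real.log N)) * (N : ℝ) ^ (1 / 4 + η) := by ring
      _ ≤ (bfmA M N).card * X := mul_le_mul e2 hX1 e3 hcardpos.le
  have hsq : 0 < Real.sqrt N := Real.sqrt_pos.2 hNpos
  have hNη : 0 < (N : ℝ) ^ η := Real.rpow_pos_of_pos hNpos _
  have hQ : 3 * ((r : ℝ) ^ (2 * r) + K) * Real.sqrt N / ((bfmA M N).card * X) ≤
      (δ / 2) ^ (2 * r) := by
    rw [div_le_iff₀ (by positivity)]
    have e1 : 3 * ((r : ℝ) ^ (2 * r) + K) * Real.sqrt N ≤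
        (δ / 2) ^ (2 * r) * (δ * ((N : ℝ) ^ η * Real.sqrt N) / (128 * Real.log N)) := by
      rw [mul_div_assoc', le_div_iff₀ (by positivity)]
      have := mul_le_mul_of_nonneg_right hd hsq.le
      nlinarith
    exact e1.trans (mul_le_mul_of_nonneg_left hAX (by positivity))
  have hQ0 : 0 ≤ 3 * ((r : ℝ) ^ (2 * r) + K) * Real.sqrt N / ((bfmA M N).card * X) := by
    positivity
  have hroot : (3 * ((r : ℝ) ^ (2 * r) + K) * Real.sqrt N / ((bfmA M N).card * X)) ^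
      (1 / (2 * r : ℝ)) ≤ δ / 2 := by
    calc (3 * ((r : ℝ) ^ (2 * r) + K) * Real.sqrt N / ((bfmA M N).card * X)) ^
      (1 / (2 * r : ℝ)) ≤ ((δ / 2) ^ (2 * r)) ^ (1 / (2 * r : ℝ)) :=
          Real.rpow_le_rpow hQ0 hQ (by positivity)
      _ = δ / 2 := by
          rw [← Real.rpow_natCast, ← Real.rpow_mul (by positivity)]
          have : ((2 * r : ℕ) : ℝ) * (1 / (2 * r : ℝ)) = 1 := by
            push_cast
            field_simp
          rw [this, Real.rpow_one]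
  have hfirst : 2 * (M : ℝ) * B ≤ δ * X / 4 := by linarith
  calc ‖shortSum N χ X‖ ≤ _ := hmain
    _ ≤ δ * X / 4 + X * (δ / 2) := add_le_add hfirst (mul_le_mul_of_nonneg_left hroot hXpos.le)
    _ ≤ δ * X := by nlinarith


end Pool.Agent.X311.Rd
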