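import Pool.Agent.X311.Rd3
import Pool.Agent.Helper919.Char
import Pool.Agent.Helper924.MW.Lower

/-!
# The character of a quadratic field
-/

set_option autoImplicit false
set_option maxHeartbeats 4000000

namespace Pool.Agent.X311.Rd

open Finset Pool.Agent.Helper919

theorem jacobi_prod (a : ℤ) (s : Finset ℕ) (hs : ∀ p ∈ s, p ≠ 0) :
    jacobiSym a (∏ p ∈ s, p) = ∏ p ∈ s, jacobiSym a p := by
  classical
  induction s using Finset.induction_on with
  | empty => simp
  | insert p s hp ih =>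
    rw [prod_insert hp, prod_insert hp, jacobiSym.mul_right' a (hs p (mem_insert_self _ _))
      (prod_ne_zero_iff.2 fun q hq => hs q (mem_insert_of_mem hq)),
      ih fun q hq => hs q (mem_insert_of_mem hq)]

/-- **The character of `ℚ(√D)` modulo `4 |D|`.** -/
theorem exists_isReal {D : ℤ} (hD : Squarefree D) (hD0 : D ≠ 0) :
    ∃ (q M : ℕ) (u : ℕ → ℝ), q ≤ 8 ∧ M ≤ 4 * D.natAbs ∧
      IsReal (4 * D.natAbs) q M (psi D hD0) u := by
  have hsq : Squarefree D.natAbs := Int.squarefree_natAbs.2 hD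
  have hpos := Int.natAbs_pos.2 hD0
  -- the odd part
  obtain ⟨a, M, ha, hM, hDM⟩ : ∃ a M : ℕ, (a = 1 ∨ a = 2) ∧ ¬ 2 ∣ M ∧ D.natAbs = a * M := by
    by_cases h2 : 2 ∣ D.natAbs
    · obtain ⟨M, hM⟩ := h2
      refine ⟨2, M, Or.inr rfl, ?_, hM⟩
      rintro ⟨K, rfl⟩
      have := hsq 2 ⟨K, by rw [hM]; ring⟩
      rw [Nat.isUnit_iff] at this
      omega
    · exact ⟨1, D.natAbs, Or.inl rfl, h2, (one_mul _).symm⟩
  have hM0 : 0 < M := by
    rcases Nat.eq_zero_or_pos M with h | h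
    · rw [h] at hM
      exact absurd (dvd_zero 2) hM
    · exact h
  have hMsq : Squarefree M := hsq.squarefree_of_dvd ⟨a, by rw [hDM]; ring⟩
  have hMprod : ∏ p ∈ M.primeFactors, p = M := Nat.prod_primeFactors_of_squarefree hMsq
  have hModd : Odd M := by
    rw [Nat.odd_iff]
    omega
  obtain ⟨s, hs, hDs⟩ : ∃ s : ℤ, s.natAbs = a ∧ D = s * M := by
    rcases Int.natAbs_eq D with h | h
    · refine ⟨a, by simp, ?_⟩
      rw [h, hDM]
      push_cast
      ring
    · refine ⟨-a, by simp, ?_⟩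
      rw [h, hDM]
      push_cast
      ring
  have ha0 : 0 < a := by omega
  refine ⟨4 * a, M, fun m => if Odd m then ((jacobiSym s m * qrSign m M : ℤ) : ℝ) else 0, by omega,
    by rw [hDM]; nlinarith, ?_⟩
  have hjle : ∀ (x : ℤ) (b : ℕ), |((jacobiSym x b : ℤ) : ℝ)| ≤ 1 := by
    intro x b
    have h : |jacobiSym x b| ≤ 1 := by
      rcases jacobiSym.trichotomy x b with h | h | h <;> rw [h] <;> simp
    exact_mod_cast h
  refine ⟨?_, by omega, hM0, hM, ?_, ?_, ?_, ?_⟩
  · rw [hMprod, hDM]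
    ring
  · intro p hp hd
    have hpp := Nat.prime_of_mem_primeFactors hp
    have hpM := Nat.dvd_of_mem_primeFactors hp
    have h3 : p = 2 := by
      have h4 : p ∣ 2 ^ 3 := by
        rcases ha with rfl | rfl
        · exact hd.trans (by norm_num)
        · exact hd.trans (by norm_num)
      exact (Nat.prime_dvd_prime_iff_eq hpp Nat.prime_two).1 (hpp.dvd_of_dvd_pow h4)
    rw [h3] at hpM
    exact hM hpM
  · intro x
    have hpar : Odd (x % (4 * a)) ↔ Odd x := by
      rw [Nat.odd_iff, Nat.odd_iff,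
        Nat.mod_mod_of_dvd x (show 2 ∣ 4 * a from ⟨2 * a, by ring⟩)]
    by_cases h : Odd x
    · simp only [if_pos h, if_pos (hpar.2 h)]
      have e1 : jacobiSym s (x % (4 * a)) = jacobiSym s x := by
        rw [jacobiSym.mod_right s h, hs]
      have e2 : qrSign (x % (4 * a)) M = qrSign x M := by
        unfold qrSign
        have : ((x % (4 * a) : ℕ) : ZMod 4) = ((x : ℕ) : ZMod 4) := by
          rw [← ZMod.natCast_mod (x % (4 * a)) 4, ← ZMod.natCast_mod x 4,
            Nat.mod_mod_of_dvd x (Dvd.intro _ rfl)]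
        rw [this]
      rw [e1, e2]
    · simp only [if_neg h, if_neg (fun h2 => h (hpar.1 h2))]
  · intro x
    beta_reduce
    split_ifs with h
    · rw [Int.cast_mul, abs_mul]
      exact mul_le_one₀ (hjle _ _) (abs_nonneg _) (hjle _ _)
    · simp
  · intro m
    rw [psi_apply, XX_apply]
    by_cases h : Odd m
    · simp only [if_pos h]
      have e1 : jacobiSym D m = jacobiSym s m * (qrSign m M * jacobiSym m M) := by
        rw [hDs, jacobiSym.mul_left, jacobiSym.quadratic_reciprocity' hModd h]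
      have e2 : jacobiSym m M = ∏ p ∈ M.primeFactors, jacobiSym m p := by
        conv_lhs => rw [← hMprod]
        exact jacobi_prod _ _ fun p hp => (Nat.prime_of_mem_primeFactors hp).ne_zero
      rw [e1, e2]
      push_cast
      ring
    · simp only [if_neg h, zero_mul]

/-- the constants of the moments are small -/
theorem KM_le (r k : ℕ) (hr : 1 ≤ r) (hk : 1 ≤ k) : ∃ C : ℝ, 0 ≤ C ∧ ∀ q M N : ℕ, q ≤ 8 → 0 < M → M ≤ N →
    KM q M r ≤ C * (N : ℝ) ^ (1 / (k : ℝ)) := by
  obtain ⟨C, hC1, hC⟩ := Pool.Agent.Helper924.MW.Lower.exists_divisor_bound (4 * r * k) (by positivity)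
  refine ⟨16 * r * 4 ^ r * C, by positivity, fun q M N hq hM hMN => ?_⟩
  set d : ℝ := (M.divisors.card : ℝ) with hd
  have hd1 : 1 ≤ d := by
    rw [hd]
    exact_mod_cast Finset.card_pos.2 ⟨1, Nat.one_mem_divisors.2 hM.ne'⟩
  have h1 : (2 : ℝ) ^ M.primeFactors.card ≤ d := by
    have h2 : 2 ^ M.primeFactors.card ≤ M.divisors.card := by
      rw [Nat.card_divisors hM.ne', ← prod_const]
      refine prod_le_prod' fun p hp => ?_
      have := (Nat.Prime.dvd_iff_one_le_factorization (Nat.prime_of_mem_primeFactors hp) hM.ne').1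
        (Nat.dvd_of_mem_primeFactors hp)
      omega
    rw [hd]
    exact_mod_cast h2
  have h2 : (2 * r : ℝ) ^ M.primeFactors.card ≤ d ^ (2 * r) := by
    have h3 : (2 * r : ℝ) ≤ 2 ^ (2 * r) := by
      have : 2 * r < 2 ^ (2 * r) := Nat.lt_two_pow_self
      exact_mod_cast this.le
    calc (2 * r : ℝ) ^ M.primeFactors.card ≤ (2 ^ (2 * r)) ^ M.primeFactors.card :=
          pow_le_pow_left₀ (by positivity) h3 _
      _ = (2 ^ M.primeFactors.card) ^ (2 * r) := by rw [← pow_mul, ← pow_mul, mul_comm]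
      _ ≤ d ^ (2 * r) := pow_le_pow_left₀ (by positivity) h1 _
  have hNr : (1 : ℝ) ≤ N := by exact_mod_cast (by omega : 1 ≤ N)
  have hC1' : (1 : ℝ) ≤ C := by exact_mod_cast hC1
  have h4 : d ^ (4 * r) ≤ C * (N : ℝ) ^ (1 / (k : ℝ)) := by
    have h5 : (d ^ (4 * r)) ^ k ≤ (C * (N : ℝ) ^ (1 / (k : ℝ))) ^ k := by
      have h6 : d ^ (4 * r * k) ≤ C * M := by
        rw [hd]
        exact_mod_cast hC M hM.ne'
      have h7 : ((N : ℝ) ^ (1 / (k : ℝ))) ^ k = N := by
        rw [← Real.rpow_natCast, ← Real.rpow_mul (by linarith)]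
        have : 1 / (k : ℝ) * k = 1 := by
          have : (k : ℝ) ≠ 0 := by positivity
          field_simp
        rw [this, Real.rpow_one]
      rw [mul_pow, h7, ← pow_mul]
      refine h6.trans ?_
      have h8 : (C : ℝ) ≤ (C : ℝ) ^ k := le_self_pow₀ hC1' (by omega)
      have h9 : (M : ℝ) ≤ N := by exact_mod_cast hMN
      gcongr
    exact le_of_pow_le_pow_left₀ (by omega) (by positivity) h5
  have hq' : (q : ℝ) ≤ 8 := by exact_mod_cast hq
  have h10 : (2 * d) ^ (2 * r) = 4 ^ r * d ^ (2 * r) := by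
    rw [mul_pow, pow_mul]
    norm_num
  unfold KM
  rw [← hd, h10]
  calc (q : ℝ) * (2 * r) * (2 * r) ^ M.primeFactors.card * (4 ^ r * d ^ (2 * r)) ≤
      8 * (2 * r) * d ^ (2 * r) * (4 ^ r * d ^ (2 * r)) := by gcongr
    _ = 16 * r * 4 ^ r * d ^ (4 * r) := by
      have : d ^ (4 * r) = d ^ (2 * r) * d ^ (2 * r) := by
        rw [← pow_add]
        congr 1
        ring
      rw [this]
      ring
    _ ≤ 16 * r * 4 ^ r * (C * (N : ℝ) ^ (1 / (k : ℝ))) := by gcongr
    _ = 16 * r * 4 ^ r * C * (N : ℝ) ^ (1 / (k : ℝ)) := by ring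

end Pool.Agent.X311.Rd
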