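import Pool.Agent.X311.Rd4
import Pool.Agent.X311.Rd5
import Pool.Agent.X311.Rc4

/-!
# The inequality of Burgess for the characters of quadratic fields
-/

set_option autoImplicit false
set_option maxHeartbeats 4000000

namespace Pool.Agent.X311.Rd

open Finset Filter Pool.Agent.Helper919 Pool.Agent.X311.Rc Pool.Agent.X311.Rb

theorem burgess_sum (η : ℝ) (hη : 0 < η) (hη1 : η ≤ 1 / 32) : ∃ η₁ : ℝ, 0 < η₁ ∧ ∃ N₀ : ℕ,
    ∀ D : ℤ, Squarefree D → ¬ IsSquare D → N₀ ≤ 4 * D.natAbs →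
      ∀ X : ℕ, (X : ℝ) ≤ 2 * ((4 * D.natAbs : ℕ) : ℝ) ^ (1 / 4 + 2 * η) →
        |∑ m ∈ Icc 1 X, XX D m| ≤
          2 * ((4 * D.natAbs : ℕ) : ℝ) ^ (-η₁) * ((4 * D.natAbs : ℕ) : ℝ) ^ (1 / 4 + 2 * η) := by
  obtain ⟨r, hr⟩ := exists_nat_gt (1 / η)
  have hrpos : (0 : ℝ) < r := lt_trans (by positivity) hr
  have hr1 : 1 ≤ r := by exact_mod_cast hrpos
  have hrη : 1 / (2 * (r : ℝ)) ≤ η := by
    rw [div_lt_iff₀ hη] at hr
    rw [div_le_iff₀ (by positivity)]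
    nlinarith
  obtain ⟨k, hk⟩ := exists_nat_gt (4 / η)
  have hkpos : (0 : ℝ) < k := lt_trans (by positivity) hk
  have hk1 : 1 ≤ k := by exact_mod_cast hkpos
  have hkη : 1 / (k : ℝ) ≤ η / 4 := by
    rw [div_lt_iff₀ hη] at hk
    rw [div_le_iff₀ hkpos]
    linarith
  obtain ⟨C, hC0, hC⟩ := KM_le r k hr1 hk1
  obtain ⟨η₁, hη₁⟩ : ∃ η₁, η₁ = η / (4 * r + 2) := ⟨_, rfl⟩
  have hη₁0 : 0 < η₁ := by rw [hη₁]; positivity
  have hη₁2 : (2 * r + 1) * η₁ = η / 2 := by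
    rw [hη₁]
    field_simp
    ring
  have hη₁3 : η₁ ≤ η := by
    rw [hη₁, div_le_iff₀ (by positivity)]
    nlinarith
  have ev1 := log_pow_le (3 * ((r : ℝ) ^ (2 * r) + C) * 128 * 2 ^ (2 * r)) 1 (η / 4) 1 one_pos
    (by positivity)
  have ev2 := log_pow_le 256 1 (1 / 8) 2 one_pos (by norm_num)
  have ev3 := (tendsto_rpow_atTop (by norm_num : (0 : ℝ) < 1 / 8)).eventually_ge_atTop 6400
  have ev4 : ∀ᶠ x : ℝ in atTop, 3 ≤ x := eventually_ge_atTop 3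
  have ev := (tendsto_natCast_atTop_atTop (R := ℝ)).eventually ((ev1.and ev2).and (ev3.and ev4))
  obtain ⟨N₀, hN₀⟩ := eventually_atTop.1 ev
  refine ⟨η₁, hη₁0, N₀, fun D hD hDs hN X hX => ?_⟩
  obtain ⟨⟨h1, h2⟩, h3, h4⟩ := hN₀ _ hN
  have hD0 : D ≠ 0 := hD.ne_zero
  have hDpos := Int.natAbs_pos.2 hD0
  obtain ⟨q, M, u, hq, hMN, H⟩ := exists_isReal hD hD0
  have : NeZero (4 * D.natAbs) := ⟨by omega⟩
  set N := 4 * D.natAbs with hNdef
  have hNpos : (0 : ℝ) < N := by linarith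
  have hN1 : (1 : ℝ) ≤ N := by linarith
  have hK := hC q M N hq H.M_pos hMN
  have hpow1 : (1 : ℝ) ≤ (N : ℝ) ^ η₁ := Real.one_le_rpow hN1 hη₁0.le
  have hδ : (N : ℝ) ^ (-η₁) ≤ 1 := Real.rpow_le_one_of_one_le_of_nonpos hN1 (by linarith)
  have hδ0 : 0 < (N : ℝ) ^ (-η₁) := Real.rpow_pos_of_pos hNpos _
  have hsum : ∀ X : ℕ, |∑ m ∈ Icc 1 X, XX D m| =
      ‖Pool.Agent.H471R4.BW.shortSum N (psi D hD0) X‖ := by
    intro X
    unfold Pool.Agent.H471R4.BW.shortSum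
    have e : ∑ m ∈ Icc 1 X, psi D hD0 (m : ZMod (4 * D.natAbs)) =
        ((∑ m ∈ Icc 1 X, XX D m : ℝ) : ℂ) := by
      push_cast
      exact sum_congr rfl fun m _ => psi_apply D hD0 m
    rw [e, Complex.norm_real, Real.norm_eq_abs]
  rcases lt_or_ge (X : ℝ) ((N : ℝ) ^ (1 / 4 + η)) with hlt | hge
  · -- the trivial bound
    have h5 : |∑ m ∈ Icc 1 X, XX D m| ≤ X := by
      refine (abs_sum_le_sum_abs _ _).trans ((sum_le_sum fun m _ => XX_abs_le D m).trans ?_)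
      simp
    have h6 : (N : ℝ) ^ (1 / 4 + η) ≤ (N : ℝ) ^ (-η₁) * (N : ℝ) ^ (1 / 4 + 2 * η) := by
      rw [← Real.rpow_add hNpos]
      exact Real.rpow_le_rpow_of_exponent_le hN1 (by linarith)
    have h7 : 0 ≤ (N : ℝ) ^ (-η₁) * (N : ℝ) ^ (1 / 4 + 2 * η) := by positivity
    linarith
  · have hX2 : (X : ℝ) ≤ Real.sqrt N := by
      refine hX.trans ?_
      have h5 : (2 : ℝ) ≤ (N : ℝ) ^ (1 / 8 : ℝ) := by linarith
      calc 2 * (N : ℝ) ^ (1 / 4 + 2 * η) ≤ (N : ℝ) ^ (1 / 8 : ℝ) * (N : ℝ) ^ (1 / 4 + 2 * η) := by gcongr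
        _ = (N : ℝ) ^ (1 / 8 + (1 / 4 + 2 * η)) := (Real.rpow_add hNpos _ _).symm
        _ ≤ (N : ℝ) ^ (1 / 2 : ℝ) := Real.rpow_le_rpow_of_exponent_le hN1 (by linarith)
        _ = Real.sqrt N := (Real.sqrt_eq_rpow _).symm
    have h18 : (N : ℝ) ^ (1 / 8 : ℝ) ≤ (N : ℝ) ^ (-η₁) * (N : ℝ) ^ (1 / 4 : ℝ) := by
      rw [← Real.rpow_add hNpos]
      exact Real.rpow_le_rpow_of_exponent_le hN1 (by linarith)
    have h5 := core' ((N : ℝ) ^ (-η₁)) η (KM q M r) hδ0 hδ hη (KM_nonneg _ _ _) r hr1 hrη N h4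
      (by linarith) (by linarith) (by
        -- the main condition
        have e1 : ((N : ℝ) ^ (-η₁) / 2) ^ (2 * r) * (N : ℝ) ^ (-η₁) * (N : ℝ) ^ η =
            (N : ℝ) ^ (η / 2) / 2 ^ (2 * r) := by
          rw [div_pow, ← Real.rpow_natCast ((N : ℝ) ^ (-η₁)), ← Real.rpow_mul hNpos.le]
          have e2 : (N : ℝ) ^ (-η₁ * ((2 * r : ℕ) : ℝ)) / 2 ^ (2 * r) * (N : ℝ) ^ (-η₁) * (N : ℝ) ^ η =
              ((N : ℝ) ^ (-η₁ * ((2 * r : ℕ) : ℝ)) * (N : ℝ) ^ (-η₁) * (N : ℝ) ^ η) / 2 ^ (2 * r) := by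
            ring
          rw [e2, ← Real.rpow_add hNpos, ← Real.rpow_add hNpos]
          congr 2
          push_cast
          linarith
        rw [e1, le_div_iff₀ (by positivity)]
        have e3 : (N : ℝ) ^ (η / 2) = (N : ℝ) ^ (η / 4) * (N : ℝ) ^ (η / 4) := by
          rw [← Real.rpow_add hNpos]
          congr 1
          ring
        have e4 : (1 : ℝ) ≤ (N : ℝ) ^ (η / 4) := Real.one_le_rpow hN1 (by positivity)
        have e5 : KM q M r ≤ C * (N : ℝ) ^ (η / 4) := hK.trans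
          (mul_le_mul_of_nonneg_left (Real.rpow_le_rpow_of_exponent_le hN1 hkη) hC0)
        have e6 : (r : ℝ) ^ (2 * r) + KM q M r ≤ ((r : ℝ) ^ (2 * r) + C) * (N : ℝ) ^ (η / 4) := by
          have : (0 : ℝ) ≤ (r : ℝ) ^ (2 * r) := by positivity
          nlinarith
        have hlog : 0 ≤ Real.log N := Real.log_nonneg hN1
        rw [pow_one, one_mul] at h1
        calc 3 * ((r : ℝ) ^ (2 * r) + KM q M r) * 128 * Real.log N * 2 ^ (2 * r) ≤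
            3 * (((r : ℝ) ^ (2 * r) + C) * (N : ℝ) ^ (η / 4)) * 128 * Real.log N * 2 ^ (2 * r) := by
              gcongr
          _ = (3 * ((r : ℝ) ^ (2 * r) + C) * 128 * 2 ^ (2 * r) * Real.log N) * (N : ℝ) ^ (η / 4) := by
              ring
          _ ≤ (N : ℝ) ^ (η / 4) * (N : ℝ) ^ (η / 4) := by gcongr
          _ = (N : ℝ) ^ (η / 2) := e3.symm)
      (psi D hD0) (fun B => moment H hr1 B) X hge hX2
    rw [hsum X]
    refine h5.trans ?_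
    calc (N : ℝ) ^ (-η₁) * X ≤ (N : ℝ) ^ (-η₁) * (2 * (N : ℝ) ^ (1 / 4 + 2 * η)) := by gcongr
      _ = _ := by ring

section
variable {n : ℕ} {c₁ c₂ : ℤ}

/-- the number of the exceptional primes -/
theorem card_le' (h0 : IsChernData n c₁ c₂) (hs : ¬ IsSquare (disc c₁ c₂)) {f : ℕ} {D : ℤ}
    (hf : f ≠ 0) (hD : Squarefree D) (hΔ : disc c₁ c₂ = (f : ℤ) ^ 2 * D) {k : ℕ}
    (hbig : (2 * Nat.log 2 (disc c₁ c₂).natAbs) ^ k * (disc c₁ c₂).natAbs < n ^ k) {y : ℕ}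
    (hy : 2 * y < n) :
    ((Icc 1 y).filter fun p => p.Prime ∧ XX D p ≠ 1).card ≤ k := by
  classical
  by_contra hcon
  push Not at hcon
  set E := (Icc 1 y).filter fun p => p.Prime ∧ XX D p ≠ 1 with hE
  have h1 : k ≤ (E.erase 2).card := by
    have := Finset.pred_card_le_card_erase (s := E) (a := 2)
    omega
  obtain ⟨T, hT1, hT2⟩ := Finset.exists_subset_card_eq h1
  have h2 := exceptional_le h0 hs hf hD hΔ T (by
    intro p hp
    have h3 := hT1 hp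
    rw [mem_erase, hE, mem_filter, mem_Icc] at h3
    exact ⟨h3.2.2.1, h3.1, h3.2.2.2, by omega⟩)
  rw [hT2] at h2
  omega

/-- **The main inequality.** -/
theorem main_ineq' (h0 : IsChernData n c₁ c₂) (hs : ¬ IsSquare (disc c₁ c₂)) {k : ℕ}
    (hbig : (2 * Nat.log 2 (disc c₁ c₂).natAbs) ^ k * (disc c₁ c₂).natAbs < n ^ k) {y : ℕ}
    (hy : 2 * y < n) :
    ∃ D : ℤ, Squarefree D ∧ ¬ IsSquare D ∧ D.natAbs ≤ (disc c₁ c₂).natAbs ∧
      ∀ (X : ℕ) (B : ℝ), (∀ M ≤ X, |∑ m ∈ Icc 1 M, XX D m| ≤ B) →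
        (X : ℝ) * (1 - 2 * ∑ p ∈ (Ioc y X).filter Nat.Prime, (1 : ℝ) / p) ≤
          (2 * (Nat.log 2 X + 1)) ^ k * B := by
  have hΔ0 : disc c₁ c₂ ≠ 0 := by
    intro h3
    exact hs (by rw [h3]; exact ⟨0, by norm_num⟩)
  obtain ⟨a, f, hfa, ha⟩ := Nat.sq_mul_squarefree (disc c₁ c₂).natAbs
  have hf : f ≠ 0 := by
    rintro rfl
    apply hΔ0
    rw [← Int.natAbs_eq_zero, ← hfa]
    simp
  obtain ⟨D, hD1, hΔ⟩ : ∃ D : ℤ, D.natAbs = a ∧ disc c₁ c₂ = (f : ℤ) ^ 2 * D := by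
    rcases Int.natAbs_eq (disc c₁ c₂) with h1 | h1
    · refine ⟨a, by simp, ?_⟩
      rw [h1, ← hfa]
      push_cast
      ring
    · refine ⟨-a, by simp, ?_⟩
      rw [h1, ← hfa]
      push_cast
      ring
  have hD : Squarefree D := by
    rw [← Int.squarefree_natAbs, hD1]
    exact ha
  have hDs : ¬ IsSquare D := by
    rintro ⟨w, hw⟩
    apply hs
    rw [hΔ, hw]
    exact ⟨f * w, by ring⟩
  refine ⟨D, hD, hDs, ?_, fun X B hB => ?_⟩
  · rw [hD1, ← hfa]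
    exact Nat.le_mul_of_pos_left _ (by positivity)
  classical
  set E := (Icc 1 y).filter fun p => p.Prime ∧ XX D p ≠ 1 with hE
  have hcard : E.card ≤ k := card_le' h0 hs hf hD hΔ hbig hy
  obtain ⟨g, G, g1, g2, g3⟩ := exists_fix E (fun p hp => ((mem_filter.1 hp).2).1) (isCM_XX D)
    (N := X) hB
  have hgood : ∀ l : ℕ, l.Prime → l ≤ y → g l = 1 := by
    intro l hl hly
    by_cases hlE : l ∈ E
    · exact g1 l hlE
    · rw [g2 l hl hlE]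
      by_contra hne
      exact hlE (by rw [hE, mem_filter, mem_Icc]; exact ⟨⟨hl.one_le, hly⟩, hl, hne⟩)
  have h1 := G.le_sum y X hgood
  have h2 := (le_abs_self _).trans (g3 X le_rfl)
  refine (h1.trans h2).trans ?_
  have hB0 : 0 ≤ B := (abs_nonneg _).trans (hB 0 (Nat.zero_le _))
  refine mul_le_mul_of_nonneg_right (pow_le_pow_right₀ ?_ hcard) hB0
  have : (0 : ℝ) ≤ Nat.log 2 X := by positivity
  linarith

end

end Pool.Agent.X311.Rd
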