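import Pool.Agent.X311.TcDefs
import Pool.Agent.Y90.Ab3
import Pool.Agent.W516.DRRank

set_option autoImplicit false
set_option linter.unusedSectionVars false

/-!
# Proofs for `TcDefs`
-/

namespace Pool.Agent.X311.Tc

open Module TensorProduct Pool.Agent.H204R3.GP Pool.Agent.W516.MTD Pool.Agent.H204R3.SP
  Pool.Agent.W516.DR Pool.Agent.Y90.St

noncomputable section

variable {H T : Type} [AddCommGroup H] [Module ℚ H] [AddCommGroup T] [Module ℂ T]

theorem rational_of_av {per : H →+ T} (hX : IsAV per) :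
    Pool.Agent.W516.DR.IsRationalStructure per := by
  obtain ⟨hH, hT, hspan, hdim, -⟩ := hX
  have hTR : FiniteDimensional ℝ T := FiniteDimensional.complexToReal T
  have hc : finrank ℝ T = 2 * finrank ℂ T := finrank_real_of_complex T
  let b := Module.finBasis ℚ H
  have htop : ⊤ ≤ Submodule.span ℝ (Set.range fun i => per (b i)) := by
    rw [← hspan]
    refine Submodule.span_le.2 ?_
    rintro _ ⟨w, rfl⟩
    have h1 : per w = ∑ i, (b.repr w i : ℝ) • per (b i) := by
      conv_lhs => rw [← b.sum_repr w]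
      rw [map_sum]
      refine Finset.sum_congr rfl fun i _ => ?_
      exact map_ratCast_smul per ℚ ℝ (b.repr w i) (b i)
    rw [h1]
    exact Submodule.sum_mem _ fun i _ => Submodule.smul_mem _ _ (Submodule.subset_span ⟨i, rfl⟩)
  let b' := basisOfTopLeSpanOfCardEqFinrank (fun i => per (b i)) htop
    (by rw [Fintype.card_fin, hdim, hc])
  exact ⟨b, b', fun i => by rw [coe_basisOfTopLeSpanOfCardEqFinrank]⟩

/-- A form killed by the Lie algebra of the Hodge group is a Hodge class. -/
theorem hodge_of_lie [FiniteDimensional ℚ H] {per : H →+ T}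
    (hper : Pool.Agent.W516.DR.IsRationalStructure per)
    {κ : Type} [Fintype κ] [DecidableEq κ] (φ : MultilinearMap ℚ (fun _ : κ => H) ℚ)
    (h : ∀ Z : Module.End ℚ H, InHodgeLie per Z → Kills Z φ) : IsHodgeTensor per φ := by
  obtain ⟨b, b', hb⟩ := hper
  rw [hodge_iff per b b' hb, kills_bcm_iff]
  intro lam
  apply h
  intro m' ψ hψ
  rw [hodge_iff per b b' hb, kills_bcm_iff] at hψ
  exact hψ lam

theorem zero_of_odd {per : H →+ T} {κ : Type} [Fintype κ] (hodd : Odd (Fintype.card κ))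
    {f : H [⋀^κ]→ₗ[ℚ] ℚ} (hf : Pool.Agent.H204R3.CM.IsHodge per f) : f = 0 := by
  obtain ⟨Ψ, h1, h2⟩ := hf
  ext v
  rw [AlternatingMap.zero_apply]
  have h3 := h2 (-1) (by simp) fun l => per (v l)
  have h4 : Ψ (fun l => (-1 : ℂ) • per (v l)) = -Ψ (fun l => per (v l)) := by
    have h5 : (fun l => (-1 : ℂ) • per (v l)) = fun l => (-1 : ℝ) • per (v l) := by
      funext l
      rw [neg_one_smul, neg_one_smul]
    rw [h5, MultilinearMap.map_smul_univ]
    simp [hodd.neg_one_pow]
  rw [h4, h1] at h3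
  have h6 : ((f v : ℚ) : ℝ) = 0 := by linarith
  exact_mod_cast h6

theorem kills_reindex {κ κ' : Type} [Fintype κ] [DecidableEq κ] [Fintype κ'] [DecidableEq κ']
    (e : κ ≃ κ') (Z : Module.End ℚ H) (ψ : MultilinearMap ℚ (fun _ : κ => H) ℚ)
    (h : Kills Z (ψ.domDomCongr e : MultilinearMap ℚ (fun _ : κ' => H) ℚ)) : Kills Z ψ := by
  intro v
  have h1 := h (fun l => v (e.symm l))
  rw [← h1]
  refine Fintype.sum_equiv e _ _ fun j => ?_
  rw [MultilinearMap.domDomCongr_apply]
  congr 1
  funext l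
  by_cases hl : l = j
  · subst hl
    rw [Function.update_self, Function.update_self, Equiv.symm_apply_apply]
  · rw [Function.update_of_ne hl, Function.update_of_ne (fun h => hl (e.injective h)),
      Equiv.symm_apply_apply]

/-- The Lie algebra of the Hodge group kills the Hodge classes. -/
theorem kills_of_hodge {per : H →+ T} {κ : Type} [Fintype κ] [DecidableEq κ]
    {f : H [⋀^κ]→ₗ[ℚ] ℚ} (hf : Pool.Agent.H204R3.CM.IsHodge per f) {A : H →ₗ[ℚ] H}
    (hA : InHodgeLie per A) : Kills A f.toMultilinearMap := by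
  rcases Nat.even_or_odd (Fintype.card κ) with he | ho
  · obtain ⟨m, hm⟩ := he
    have hcard : Fintype.card κ = Fintype.card (Fin m × Fin 2) := by
      rw [Fintype.card_prod, Fintype.card_fin, Fintype.card_fin]
      omega
    let e : κ ≃ Fin m × Fin 2 := Fintype.equivOfCardEq hcard
    refine kills_reindex e A _ ?_
    refine hA m _ ?_
    obtain ⟨Ψ, h1, h2⟩ := hf
    refine ⟨Ψ.domDomCongr e, fun v => ?_, fun z hz u => ?_⟩
    · rw [MultilinearMap.domDomCongr_apply, MultilinearMap.domDomCongr_apply]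
      exact h1 _
    · rw [MultilinearMap.domDomCongr_apply, MultilinearMap.domDomCongr_apply]
      exact h2 z hz _
  · rw [zero_of_odd ho hf]
    intro v
    refine Finset.sum_eq_zero fun j _ => ?_
    rfl

/-- **Classes invariant under the Hodge group.** -/
theorem invariant_iff {per : H →+ T} (hX : IsAV per) (hs : SmallSimple per) {F : Type} [Field F]
    [CharZero F] {κ : Type} [Fintype κ] [DecidableEq κ] (t : (F ⊗[ℚ] H) [⋀^κ]→ₗ[F] F) :
    IsInvariant per t ↔ IsWeilCombination per t := by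
  haveI : FiniteDimensional ℚ H := hX.1
  constructor
  · intro ht
    have key : ∀ lam : F →ₗ[ℚ] ℚ, ∃ f : H [⋀^κ]→ₗ[ℚ] ℚ, WeilRing per κ f ∧
        f.toMultilinearMap = fcmp lam t.toMultilinearMap := by
      intro lam
      let f : H [⋀^κ]→ₗ[ℚ] ℚ :=
        { fcmp lam t.toMultilinearMap with
          map_eq_zero_of_eq' := by
            intro v i j hij hne
            change fcmp lam t.toMultilinearMap v = 0
            rw [fcmp_apply]
            have h1 : t (fun l => (1 : F) ⊗ₜ[ℚ] v l) = 0 :=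
              t.map_eq_zero_of_eq _ (by simp only [hij]) hne
            change lam (t (fun l => (1 : F) ⊗ₜ[ℚ] v l)) = 0
            rw [h1, map_zero] }
      have hf : f.toMultilinearMap = fcmp lam t.toMultilinearMap := rfl
      refine ⟨f, ?_, hf⟩
      rw [← Pool.Agent.Y90.hodge_ring per hX hs f]
      have h2 : IsHodgeTensor per f.toMultilinearMap := by
        refine hodge_of_lie (rational_of_av hX) _ fun Z hZ => ?_
        rw [hf]
        exact kills_fcmp lam _ Z (ht Z hZ)
      exact h2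
    have h3 := form_mem_span (F := ℚ) (k := F) (W := H)
      (fun ψ => ∃ f : H [⋀^κ]→ₗ[ℚ] ℚ, WeilRing per κ f ∧ f.toMultilinearMap = ψ)
      t.toMultilinearMap key
    refine Submodule.span_mono ?_ h3
    rintro s ⟨ψ, ⟨f, hf, rfl⟩, hs'⟩
    exact ⟨f, hf, fun v => by rw [hs' v, eq_ratCast]; rfl⟩
  · intro ht A hA
    have h1 := kills_span (F := ℚ) (k := F) (W := H) (κ := κ)
      (fun ψ => ∃ f : H [⋀^κ]→ₗ[ℚ] ℚ, WeilRing per κ f ∧ f.toMultilinearMap = ψ) A ?_
      t.toMultilinearMap ?_
    · exact h1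
    · rintro ψ ⟨f, hf, rfl⟩
      exact kills_of_hodge (WeilRing.isHodge hf) hA
    · refine Submodule.span_mono ?_ ht
      rintro s ⟨f, hf, hs'⟩
      exact ⟨_, ⟨f, hf, rfl⟩, fun v => by rw [hs' v, eq_ratCast]; rfl⟩

/-- **Tate classes.** -/
theorem tate {per : H →+ T} (hX : IsAV per) (hs : SmallSimple per) {F : Type} [Field F]
    [CharZero F] {Γ : Type} [Group Γ] (ρ : Representation F Γ (F ⊗[ℚ] H)) (χ : Γ →* F)
    (hMT : MumfordTate per ρ χ) (i : ℕ) (t : (F ⊗[ℚ] H) [⋀^(Fin i × Fin 2)]→ₗ[F] F)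
    (ht : IsTateClass ρ χ i t) : IsWeilCombination per t := by
  haveI : FiniteDimensional ℚ H := hX.1
  rw [← invariant_iff hX hs]
  intro A hA
  have h1 := hMT i _ ht
  refine kills_span (F := ℚ) (k := F) (W := H) (fun ψ => IsHodgeTensor per ψ) A (hA i)
    t.toMultilinearMap ?_
  refine Submodule.span_mono ?_ h1
  rintro s ⟨ψ, hψ, hs'⟩
  exact ⟨ψ, hψ, fun v => by rw [hs' v, eq_ratCast]⟩

end

end Pool.Agent.X311.Tc
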