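import Pool.Agent.Y90.Stm
import Pool.Agent.W516.MT.Defs

/-!
# Classes with coefficients in a field which are invariant under the Hodge group, Tate classes, and
# combinations of products of divisor classes and Weil classes
-/

set_option autoImplicit false

namespace Pool.Agent.X311.Tc

open Module TensorProduct Pool.Agent.H204R3.GP Pool.Agent.W516.MTD

variable {H T : Type} [AddCommGroup H] [Module ℚ H] [AddCommGroup T] [Module ℂ T]

/-- The rational endomorphism `A` of `H = H_1(X, ℚ)` is in the Lie algebra of the Hodge group of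
`X`: acting as a derivation, it annihilates all Hodge classes in `H^1(X) ^ {⊗ 2 m} (m)`, for all
`m`. -/
def InHodgeLie (per : H →+ T) (A : H →ₗ[ℚ] H) : Prop :=
  ∀ (m : ℕ) (ψ : MultilinearMap ℚ (fun _ : Fin m × Fin 2 => H) ℚ), IsHodgeTensor per ψ →
    ∀ v, ∑ j, ψ (Function.update v j (A (v j))) = 0

/-- The class `t ∈ H^κ(X, F)` (an alternating form on `F ⊗ H`) is invariant under the Lie algebra of
the Hodge group of `X`. -/
def IsInvariant (per : H →+ T) {F : Type} [Field F] [CharZero F] {κ : Type} [Fintype κ]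
    [DecidableEq κ] (t : (F ⊗[ℚ] H) [⋀^κ]→ₗ[F] F) : Prop :=
  ∀ A : H →ₗ[ℚ] H, InHodgeLie per A →
    ∀ v, ∑ j, t (Function.update v j (A.baseChange F (v j))) = 0

/-- The class `t ∈ H^κ(X, F)` is a linear combination, with coefficients in `F`, of classes in the
ring generated by divisor classes and by the Weil classes on abelian fourfolds and on abelian
sixfolds with trivial discriminant. -/
def IsWeilCombination (per : H →+ T) {F : Type} [Field F] [CharZero F] {κ : Type}
    (t : (F ⊗[ℚ] H) [⋀^κ]→ₗ[F] F) : Prop :=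
  t.toMultilinearMap ∈ Submodule.span F {s : MultilinearMap F (fun _ : κ => F ⊗[ℚ] H) F |
    ∃ f : H [⋀^κ]→ₗ[ℚ] ℚ, Pool.Agent.Y90.St.WeilRing per κ f ∧
      ∀ v : κ → H, s (fun l => (1 : F) ⊗ₜ[ℚ] v l) = ((f v : ℚ) : F)}

/-- The class `t ∈ H^{2i}(X, ℚ_ℓ)(i)` is a Tate class: it is fixed by a subgroup of finite index of the
Galois group. Here `ρ` is the action of the Galois group of a field of definition on the rational
Tate module `F ⊗ H`, `F = ℚ_ℓ`, and `χ` is the cyclotomic character. -/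
def IsTateClass {F : Type} [Field F] [CharZero F] {Γ : Type} [Group Γ]
    (ρ : Representation F Γ (F ⊗[ℚ] H)) (χ : Γ →* F) (i : ℕ)
    (t : (F ⊗[ℚ] H) [⋀^(Fin i × Fin 2)]→ₗ[F] F) : Prop :=
  ∃ Δ : Subgroup Γ, Δ.FiniteIndex ∧ ∀ s ∈ Δ, ∀ v : Fin i × Fin 2 → F ⊗[ℚ] H,
    t (fun l => ρ s (v l)) = χ s ^ i * t v

/-- The Mumford-Tate conjecture for `X`: all Tate classes in `H^1(X) ^ {⊗ 2 m} (m)`, for all `m`,
are combinations of Hodge classes. -/
def MumfordTate (per : H →+ T) {F : Type} [Field F] [CharZero F] {Γ : Type} [Group Γ]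
    (ρ : Representation F Γ (F ⊗[ℚ] H)) (χ : Γ →* F) : Prop :=
  ∀ (m : ℕ) (φ : MultilinearMap F (fun _ : Fin m × Fin 2 => F ⊗[ℚ] H) F), IsTateTensor ρ χ m φ →
    IsHodgeCombination per φ

end Pool.Agent.X311.Tc
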